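import Mathlib
import Pool.Agent.H28.LLL
import Pool.Agent.H67.HY.Defs
import Pool.Agent.H71.DN.Defs

/-!
MP_b8729f, project GI: the Havet-Yu bound for graphs of large girth and large maximum degree.
Definitions. Everywhere `open Finset Classical`, no `DecidableEq` arguments.
-/

set_option autoImplicit false
set_option linter.unusedSectionVars false

namespace Pool.Agent.H65.GI

open Finset Classical

noncomputable section

/-! ## Probability on finite product spaces `I → κ` (uniform measure) -/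

/-- The fraction of the outcomes with a property. -/
def pr {Ω : Type} [Fintype Ω] (A : Ω → Prop) : ℝ := ((univ.filter A).card : ℝ) / Fintype.card Ω

/-- The mean. -/
def ex {Ω : Type} [Fintype Ω] (f : Ω → ℝ) : ℝ := (∑ ω, f ω) / Fintype.card Ω

/-- `f` only looks at the coordinates in `S`. -/
def Loc {I κ α : Type} (f : (I → κ) → α) (S : Finset I) : Prop :=
  ∀ ω ω', (∀ i ∈ S, ω i = ω' i) → f ω = f ω'

/-- `ω0` on `S`, `ω` elsewhere. -/
def ov {I κ : Type} (S : Finset I) (ω0 ω : I → κ) : I → κ := fun i => if i ∈ S then ω0 i else ω i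

/-! ## Graphs -/

/-- The ball of radius `k`. -/
def bl {V : Type} [Fintype V] (G : SimpleGraph V) (v : V) : ℕ → Finset V
  | 0 => {v}
  | k + 1 => univ.filter (fun x => x ∈ bl G v k ∨ ∃ y ∈ bl G v k, G.Adj y x)

/-- Non-backtracking walks: `Nb G a b n y x`: from the directed edge `a b` to the directed edge
`y x` in `n` steps (so from `a` to `x` in `n + 1` steps). -/
inductive Nb {V : Type} (G : SimpleGraph V) (a b : V) : ℕ → V → V → Prop
  | base : G.Adj a b → Nb G a b 0 a b
  | step {n : ℕ} {z y x : V} : Nb G a b n z y → G.Adj y x → x ≠ z → Nb G a b (n + 1) y x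

/-- What lies beyond `b`, seen from `a`, at distance at most `k` from `a`. -/
def cone {V : Type} [Fintype V] (G : SimpleGraph V) (a b : V) (k : ℕ) : Finset V :=
  univ.filter (fun x => ∃ n < k, ∃ y, Nb G a b n y x)

/-- The balls of radius `k` are trees. -/
structure TL {V : Type} (G : SimpleGraph V) (k : ℕ) : Prop where
  ne : ∀ a b n y x, n + 1 < 2 * k → Nb G a b n y x → x ≠ a
  uniq : ∀ a b b' n n' y y' x, n < k → n' < k → Nb G a b n y x → Nb G a b' n' y' x →
    n = n' ∧ b = b' ∧ y = y'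

/-- All degrees are `Δ`. -/
def Reg {V : Type} [Fintype V] (G : SimpleGraph V) (Δ : ℕ) : Prop :=
  ∀ v, (univ.filter (fun u => G.Adj v u)).card = Δ

/-! ## The exact base -/

/-- Pairwise disjoint matchings `N a` (labels) and `R ρ` (reserve) of `G`, across a bipartition, all
perfect, except that a vertex of the sparse set `D` may miss one of them. -/
structure IsBase {V : Type} [Fintype V] (G : SimpleGraph V) (s w r K : ℕ) (side : V → Bool)
    (D : Finset V) (N : Fin s × Fin w → V → V) (R : Fin r → V → V) : Prop where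
  invN : ∀ a v, N a (N a v) = v
  invR : ∀ ρ v, R ρ (R ρ v) = v
  adjN : ∀ a v, N a v ≠ v → G.Adj v (N a v)
  adjR : ∀ ρ v, R ρ v ≠ v → G.Adj v (R ρ v)
  sideN : ∀ a v, N a v ≠ v → side (N a v) ≠ side v
  sideR : ∀ ρ v, R ρ v ≠ v → side (R ρ v) ≠ side v
  disN : ∀ a b v, a ≠ b → N a v ≠ v → N a v ≠ N b v
  disR : ∀ ρ σ v, ρ ≠ σ → R ρ v ≠ v → R ρ v ≠ R σ v
  disNR : ∀ a ρ v, N a v ≠ v → N a v ≠ R ρ v
  off : ∀ v, v ∉ D → (∀ a, N a v ≠ v) ∧ ∀ ρ, R ρ v ≠ v
  on : ∀ v, (univ.filter (fun a => N a v = v)).card + (univ.filter (fun ρ => R ρ v = v)).card ≤ 1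
  sep : ∀ u ∈ D, ∀ v ∈ D, u ≠ v → ¬ G.Adj u v ∧ ∀ z, ¬ (G.Adj u z ∧ G.Adj z v)
  few : ∀ v, ((bl G v 11).filter (fun x => x ∈ D)).card ≤ K

/-! ## Conflict systems and the nibble -/

/-- A conflict system with colours `Fin s`: `z ∈ C c v` means that `v` and `z` must not both have
colour `c`. -/
structure IsSys {V : Type} [Fintype V] (G : SimpleGraph V) {s : ℕ} (C : Fin s → V → Finset V)
    (n0 : ℕ) : Prop where
  symm : ∀ c v w, w ∈ C c v → v ∈ C c w
  irr : ∀ c v, v ∉ C c v
  card : ∀ c v, (C c v).card ≤ n0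
  near : ∀ c v, C c v ⊆ bl G v 3

/-- A part of the conflict set of the colour `g` at `v`: the elements `e ∈ T` have disjoint private
regions; the conflicts of `e` outside its private region are in the small common sets `hub c`,
except for one special colour `spec e`. -/
structure IsPart {V : Type} [Fintype V] (G : SimpleGraph V) {s : ℕ} (C : Fin s → V → Finset V)
    (g : Fin s) (v : V) (T : Finset V) (prv : V → Finset V) (hub : Fin s → Finset V)
    (spec : V → Fin s) (h0 : ℕ) : Prop where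
  mem : ∀ e ∈ T, e ∈ prv e
  dis : ∀ e ∈ T, ∀ e' ∈ T, e ≠ e' → Disjoint (prv e) (prv e')
  out : ∀ e ∈ T, ∀ c, c ≠ spec e → ∀ z ∈ C c e, z ∉ prv e → z ∈ hub c
  hubp : ∀ e ∈ T, ∀ c, Disjoint (hub c) (prv e)
  hubc : ∀ c, (hub c).card ≤ h0
  spc : (T.filter (fun e => spec e = g)).card ≤ h0
  near : (∀ e ∈ T, prv e ⊆ bl G v 9) ∧ ∀ c, hub c ⊆ bl G v 9

/-- `np` parts cover the conflict set. -/
def Parts {V : Type} [Fintype V] (G : SimpleGraph V) {s : ℕ} (C : Fin s → V → Finset V)
    (np h0 : ℕ) : Prop :=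
  ∀ (g : Fin s) (v : V), ∃ (T : Fin np → Finset V) (prv : Fin np → V → Finset V)
    (hub : Fin np → Fin s → Finset V) (spec : Fin np → V → Fin s),
    (∀ z ∈ C g v, ∃ j, z ∈ T j) ∧ ∀ j, IsPart G C g v (T j) (prv j) (hub j) (spec j) h0

/-- The vertices whose coins influence `x`. -/
def dp {V : Type} [Fintype V] {s : ℕ} (C : Fin s → V → Finset V) (x : V) : Finset V :=
  insert x (univ.biUnion (fun c => C c x))

/-- A test set: groups (given by `gr`) that depend on disjoint sets of coins. -/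
structure IsTest {V : Type} [Fintype V] (G : SimpleGraph V) {s : ℕ} (C : Fin s → V → Finset V)
    (v : V) (T : Finset V) (gr : V → V) (m g : ℕ) : Prop where
  dis : ∀ x ∈ T, ∀ y ∈ T, gr x ≠ gr y → Disjoint (dp C x) (dp C y)
  gsz : ∀ u, (T.filter (fun x => gr x = u)).card ≤ m
  num : (T.image gr).card ≤ g
  near : T ⊆ bl G v 9

/-! ### The coins and one round of the nibble -/

/-- index set of the coins: `(v, none)`: the order at `v`; `(v, some (c, 0))`: the activation of
`c` at `v`; `(v, some (c, i + 1))`: dummies -/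
abbrev Ix (V : Type) (s n : ℕ) := V × Option (Fin s × Fin (n + 1))

/-- values of the coins -/
abbrev Cn (s b : ℕ) := Fin b × Equiv.Perm (Fin s)

section
variable {V : Type} [Fintype V] {s n b : ℕ}

/-- `c` is activated at `v` -/
def act (ω : Ix V s n → Cn s b) (v : V) (c : Fin s) : Prop := ((ω (v, some (c, 0))).1 : ℕ) = 0

/-- the dummy `i` of `c` at `v` fires -/
def dum (ω : Ix V s n → Cn s b) (v : V) (c : Fin s) (i : Fin n) : Prop :=
  ((ω (v, some (c, i.succ))).1 : ℕ) = 0

/-- the order at `v` -/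
def pm (ω : Ix V s n → Cn s b) (v : V) : Equiv.Perm (Fin s) := (ω (v, none)).2

/-- The number of conflicting uncoloured vertices. -/
def nn (C : Fin s → V → Finset V) (Y : Finset V) (L : V → Finset (Fin s)) (c : Fin s) (v : V) : ℕ :=
  ((C c v).filter (fun z => z ∈ Y ∧ c ∈ L z)).card

/-- `c` survives at `v` -/
def sv (C : Fin s → V → Finset V) (Y : Finset V) (L : V → Finset (Fin s))
    (ω : Ix V s n → Cn s b) (c : Fin s) (v : V) : Prop :=
  (∀ z ∈ C c v, z ∈ Y → c ∈ L z → ¬ act ω z c) ∧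
    ∀ i : Fin n, nn C Y L c v + i.1 < n → ¬ dum ω v c i

/-- the surviving colours of the list -/
def Sv (C : Fin s → V → Finset V) (Y : Finset V) (L : V → Finset (Fin s))
    (ω : Ix V s n → Cn s b) (v : V) : Finset (Fin s) := (L v).filter (fun c => sv C Y L ω c v)

/-- the new colour -/
def nw (C : Fin s → V → Finset V) (Y : Finset V) (L : V → Finset (Fin s))
    (ω : Ix V s n → Cn s b) (v : V) : Option (Fin s) :=
  Pool.Agent.H67.HY.first (pm ω v) ((Sv C Y L ω v).filter (fun c => act ω v c))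

end

section
variable {V : Type} [Fintype V] {s n b : ℕ}

/-- private survival: conflicts outside `P` are ignored -/
def svp (C : Fin s → V → Finset V) (Y : Finset V) (L : V → Finset (Fin s)) (P : Finset V)
    (ω : Ix V s n → Cn s b) (c : Fin s) (e : V) : Prop :=
  (∀ z ∈ C c e, z ∈ P → z ∈ Y → c ∈ L z → ¬ act ω z c) ∧
    ∀ i : Fin n, nn C Y L c e + i.1 < n → ¬ dum ω e c i

/-- The private event that contains the event that `e` stays uncoloured and keeps `g`, if the
colours in `k` are ignored. -/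
def Io (C : Fin s → V → Finset V) (Y : Finset V) (L : V → Finset (Fin s)) (P : Finset V) (l' : ℕ)
    (k : Finset (Fin s)) (g : Fin s) (ω : Ix V s n → Cn s b) (e : V) : Prop :=
  svp C Y L P ω g e ∧ ¬ act ω e g ∧
    (∀ c ∈ L e, c ∉ k → c ≠ g → svp C Y L P ω c e → ¬ act ω e c) ∧
    ((L e).filter (fun c => c ∉ k ∧ c ≠ g ∧ svp C Y L P ω c e ∧
      (pm ω e).symm c < (pm ω e).symm g)).card < l'

end

/-- the first `k` elements of `X` in the order `π 0, π 1, ...` -/
def pre {s : ℕ} (π : Equiv.Perm (Fin s)) (k : ℕ) (X : Finset (Fin s)) : Finset (Fin s) :=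
  X.filter (fun c => (X.filter (fun d => π.symm d < π.symm c)).card < k)

section
variable {V : Type} [Fintype V] {s n b : ℕ}

/-- the new list -/
def nl (C : Fin s → V → Finset V) (Y : Finset V) (L : V → Finset (Fin s)) (l' : ℕ)
    (ω : Ix V s n → Cn s b) (v : V) : Finset (Fin s) := pre (pm ω v) l' (Sv C Y L ω v)

/-- the new set of uncoloured vertices -/
def nY (C : Fin s → V → Finset V) (Y : Finset V) (L : V → Finset (Fin s))
    (ω : Ix V s n → Cn s b) : Finset V := Y.filter (fun v => nw C Y L ω v = none)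

/-- the new colouring -/
def nf (C : Fin s → V → Finset V) (Y : Finset V) (L : V → Finset (Fin s)) (f : V → Option (Fin s))
    (ω : Ix V s n → Cn s b) (v : V) : Option (Fin s) := if v ∈ Y then nw C Y L ω v else f v

end

/-- probability of survival -/
def kap (b n : ℕ) : ℝ := (1 - 1 / (b : ℝ)) ^ n

/-- probability that a vertex gets a given colour of its list -/
def cc (b n l : ℕ) : ℝ := (1 - (1 - kap b n / b) ^ l) / l

/-- probability that a vertex stays uncoloured and keeps a given colour -/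
def qq (b n l l' : ℕ) : ℝ :=
  ∑ k ∈ range l, ((l - 1).choose k : ℝ) * (kap b n * (1 - 1 / (b : ℝ))) ^ (k + 1) *
    (1 - kap b n) ^ (l - 1 - k) * min 1 ((l' : ℝ) / (k + 1))

/-- upper bound for the probability used for the conflict degrees -/
def qp (b n l l' K0 h0 k0 : ℕ) (lam : ℝ) : ℝ :=
  kap b n / (1 - 1 / (b : ℝ)) ^ h0 *
    ((1 - kap b n / b) ^ (l - K0 - k0 - 2) * (l' : ℝ) /
      (kap b n * (l - K0 - k0 - 2 : ℕ) - Real.sqrt (8 * l * lam)) + 2 * Real.exp (-lam))

/-- A state of the nibble that satisfies the structural invariants. -/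
structure Ok {V : Type} [Fintype V] {s : ℕ} (C : Fin s → V → Finset V) (Fb : V → Finset (Fin s))
    (Z : Finset V) (K0 l n : ℕ) (Y : Finset V) (L : V → Finset (Fin s))
    (f : V → Option (Fin s)) : Prop where
  un : ∀ v ∈ Y, f v = none
  co : ∀ v, v ∉ Y → f v ≠ none
  fb : ∀ v c, f v = some c → c ∉ Fb v
  Lfb : ∀ v ∈ Y, ∀ c ∈ L v, c ∉ Fb v
  prop : ∀ v c, f v = some c → ∀ z ∈ C c v, f z ≠ some c
  Lc : ∀ v ∈ Y, ∀ c ∈ L v, ∀ z ∈ C c v, f z ≠ some c
  le : ∀ v ∈ Y, (L v).card ≤ l
  ge : ∀ v ∈ Y, l ≤ (L v).card + K0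
  eq : ∀ v ∈ Y, v ∉ Z → (L v).card = l
  deg : ∀ v ∈ Y, ∀ c ∈ L v, nn C Y L c v ≤ n

/-- number of `x ∈ T` that are uncoloured and have `c` in the list -/
def XT {V : Type} {s : ℕ} (T : Finset V) (Y : Finset V) (L : V → Finset (Fin s)) (c : Fin s) : ℕ :=
  (T.filter (fun x => x ∈ Y ∧ c ∈ L x)).card

/-- number of `x ∈ T` of colour `c` -/
def CT {V : Type} {s : ℕ} (T : Finset V) (f : V → Option (Fin s)) (c : Fin s) : ℕ :=
  (T.filter (fun x => f x = some c)).card

/-- number of pairs `(z, c) ∈ F` with `f z = c` -/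
def FT {V : Type} {s : ℕ} (F : Finset (V × Fin s)) (f : V → Option (Fin s)) : ℕ :=
  (F.filter (fun p => f p.1 = some p.2)).card

/-! ## Alternating walks and conflict sets for the base -/

section
variable {V : Type} {r : ℕ}

/-- `x_0 = a`, `x_{i+1} = R_{f i} (N x_i)`; the partner of `x_i` is `y_i = N x_i` -/
def xs (N : V → V) (R : Fin r → V → V) (f : Fin 4 → Fin r) (a : V) : ℕ → V
  | 0 => a
  | i + 1 => R (f (Fin.ofNat 4 i)) (N (xs N R f a i))

/-- all steps up to `y_j` are real edges -/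
def mvg (N : V → V) (R : Fin r → V → V) (f : Fin 4 → Fin r) (a : V) (j : ℕ) : Prop :=
  (∀ i ≤ j, N (xs N R f a i) ≠ xs N R f a i) ∧
    ∀ i < j, xs N R f a (i + 1) ≠ N (xs N R f a i)

/-- the possible `y_j` -/
def TY [Fintype V] (N : V → V) (R : Fin r → V → V) (j : ℕ) (a : V) : Finset V :=
  univ.filter (fun x => ∃ f : Fin 4 → Fin r, mvg N R f a j ∧ N (xs N R f a j) = x)

/-- the possible `x_j` -/
def TX [Fintype V] (N : V → V) (R : Fin r → V → V) (j : ℕ) (a : V) : Finset V :=
  univ.filter (fun x => ∃ f : Fin 4 → Fin r, mvg N R f a j ∧ xs N R f a j = x)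

end

/-- the conflict sets -/
def CS {V : Type} [Fintype V] (G : SimpleGraph V) {s w r : ℕ} (N : Fin s × Fin w → V → V)
    (R : Fin r → V → V) (c : Fin s) (v : V) : Finset V :=
  univ.filter (fun z => z ≠ v ∧ (G.Adj v z ∨ ∃ (i : Fin w) (ρ : Fin r),
    z = R ρ (N (c, i) v) ∨ z = N (c, i) (R ρ v) ∨ z = N (c, i) (R ρ (N (c, i) v))))

/-- the forbidden colours: the first step of the walk meets an irregularity -/
def FB {V : Type} {s w r : ℕ} (N : Fin s × Fin w → V → V) (R : Fin r → V → V) (v : V) :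
    Finset (Fin s) :=
  univ.filter (fun c => ∃ i : Fin w, N (c, i) v = v ∨ ∃ ρ : Fin r,
    R ρ (N (c, i) v) = N (c, i) v ∨ N (c, i) (R ρ (N (c, i) v)) = R ρ (N (c, i) v))

end

end Pool.Agent.H65.GI
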