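/-
ROW Exq. Independence for functions of disjoint coordinate sets (uniform measure on `I → κ`).
PROOF. (1) `ex_mul`: let `Φ (ω, ω') = (ov S ω ω', ov S ω' ω)` (both agree with the first argument on `S` and with the
second one off `S`); `Φ ∘ Φ = id` (check the two cases `i ∈ S`, `i ∉ S`), so `Φ` is a bijection of pairs. If `Loc f S`, `Loc g T`, `S`, `T` disjoint then
`f (ov S ω ω') = f ω` and `g (ov S ω ω') = g ω'`. Hence `(∑ f)(∑ g) = ∑_{(ω, ω')} f ω g ω' = ∑_{(ω,ω')} (f g)(Φ (ω,ω')).1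
= ∑_{(ω,ω')} (f g) ω = |Ω| ∑ f g` (`Equiv.sum_comp` / `Finset.sum_bij` and `Fintype.sum_prod_type`). Divide by `|Ω|^2 > 0`.
(2) `ex_prod`: induction on `J` (`Finset.induction_on`): `f i` is `Loc` on `S i` and `∏_{j ∈ J} f j` is `Loc` on `J.biUnion S`, disjoint from `S i`; use (1). Empty product: `ex 1 = 1`.
(3) `pr_forall`: `pr (fun ω => ∀ i ∈ J, A i ω) = ∏ pr (A i)`: (2) with indicators (`pr A = ex (fun ω => if A ω then 1 else 0)`, `ex_ind`; the indicator of `∀ i ∈ J` is the product, `Finset.prod_ite_zero`-like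
or induction).
-/
import Pool.Agent.H65.GI.Defs

set_option autoImplicit false

namespace Pool.Agent.H65.GI

open Finset Classical

theorem ex_ind {Ω : Type} [Fintype Ω] (A : Ω → Prop) :
    pr A = ex (fun ω => if A ω then (1 : ℝ) else 0) := by
  unfold pr ex
  rw [Finset.sum_boole]

private theorem Exq_ov {I κ : Type} (S : Finset I) (a b : I → κ) :
    ov S (ov S a b) (ov S b a) = a := by
  funext i
  unfold ov
  by_cases h : i ∈ S
  · simp [h]
  · simp [h]

private theorem Exq_inv {I κ : Type} (S : Finset I) :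
    Function.Involutive (fun p : (I → κ) × (I → κ) => (ov S p.1 p.2, ov S p.2 p.1)) := by
  rintro ⟨a, b⟩
  exact Prod.ext (Exq_ov S a b) (Exq_ov S b a)

private noncomputable def Exq_sw {I κ : Type} (S : Finset I) :
    Equiv.Perm ((I → κ) × (I → κ)) :=
  ⟨fun p => (ov S p.1 p.2, ov S p.2 p.1), fun p => (ov S p.1 p.2, ov S p.2 p.1),
    (Exq_inv S).leftInverse, (Exq_inv S).rightInverse⟩

theorem ex_mul {I κ : Type} [Fintype I] [Fintype κ] [Nonempty κ] (f g : (I → κ) → ℝ)
    (S T : Finset I) (hf : Loc f S) (hg : Loc g T) (hd : Disjoint S T) :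
    ex (fun ω => f ω * g ω) = ex f * ex g := by
  have key : (∑ ω, f ω) * (∑ ω, g ω) = (Fintype.card (I → κ) : ℝ) * ∑ ω, f ω * g ω := by
    rw [Finset.sum_mul_sum, ← Fintype.sum_prod_type' (fun a b : I → κ => f a * g b),
      ← Equiv.sum_comp (Exq_sw S) (fun p : (I → κ) × (I → κ) => f p.1 * g p.2)]
    have h1 : ∀ p : (I → κ) × (I → κ),
        f (Exq_sw S p).1 * g (Exq_sw S p).2 =
          f p.1 * g p.1 := by
      intro p
      have e1 : f (ov S p.1 p.2) = f p.1 := by
        refine hf _ _ fun i hi => ?_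
        unfold ov
        rw [if_pos hi]
      have e2 : g (ov S p.2 p.1) = g p.1 := by
        refine hg _ _ fun i hi => ?_
        unfold ov
        rw [if_neg (Finset.disjoint_right.1 hd hi)]
      change f (ov S p.1 p.2) * g (ov S p.2 p.1) = f p.1 * g p.1
      rw [e1, e2]
    rw [Finset.sum_congr rfl (fun p _ => h1 p),
      Fintype.sum_prod_type' (fun a _ : I → κ => f a * g a)]
    simp only [Finset.sum_const, Finset.card_univ, nsmul_eq_mul]
    rw [← Finset.mul_sum]
  have hN : (Fintype.card (I → κ) : ℝ) ≠ 0 := by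
    have : 0 < Fintype.card (I → κ) := Fintype.card_pos
    exact_mod_cast this.ne'
  unfold ex
  rw [div_mul_div_comm, key, mul_div_mul_left _ _ hN]

private theorem Exq_loc {I κ ι : Type} (J : Finset ι) (f : ι → (I → κ) → ℝ) (S : ι → Finset I)
    (hS : ∀ i ∈ J, Loc (f i) (S i)) : Loc (fun ω => ∏ i ∈ J, f i ω) (J.biUnion S) := by
  intro ω ω' h
  refine Finset.prod_congr rfl fun i hi => ?_
  exact hS i hi ω ω' fun j hj => h j (Finset.mem_biUnion.2 ⟨i, hi, hj⟩)

theorem ex_prod {I κ ι : Type} [Fintype I] [Fintype κ] [Nonempty κ] (J : Finset ι)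
    (f : ι → (I → κ) → ℝ) (S : ι → Finset I) (hS : ∀ i ∈ J, Loc (f i) (S i))
    (hd : ∀ i ∈ J, ∀ j ∈ J, i ≠ j → Disjoint (S i) (S j)) :
    ex (fun ω => ∏ i ∈ J, f i ω) = ∏ i ∈ J, ex (f i) := by
  induction J using Finset.induction_on with
  | empty =>
    have hN : (Fintype.card (I → κ) : ℝ) ≠ 0 := by
      have : 0 < Fintype.card (I → κ) := Fintype.card_pos
      exact_mod_cast this.ne'
    simp only [Finset.prod_empty]
    unfold ex
    simp only [Finset.sum_const, Finset.card_univ, nsmul_eq_mul, mul_one]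
    exact div_self hN
  | insert a J ha ih =>
    have h1 : ∀ i ∈ J, Loc (f i) (S i) := fun i hi => hS i (Finset.mem_insert_of_mem hi)
    have h2 : ∀ i ∈ J, ∀ j ∈ J, i ≠ j → Disjoint (S i) (S j) := fun i hi j hj =>
      hd i (Finset.mem_insert_of_mem hi) j (Finset.mem_insert_of_mem hj)
    have h3 : Disjoint (S a) (J.biUnion S) := by
      rw [Finset.disjoint_biUnion_right]
      intro j hj
      exact hd a (Finset.mem_insert_self a J) j (Finset.mem_insert_of_mem hj)
        (fun h => ha (h ▸ hj))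
    rw [Finset.prod_insert ha, ← ih h1 h2,
      ← ex_mul (f a) (fun ω => ∏ i ∈ J, f i ω) (S a) (J.biUnion S)
        (hS a (Finset.mem_insert_self a J)) (Exq_loc J f S h1) h3]
    simp only [Finset.prod_insert ha]

private theorem Exq_ind {I κ : Type} {A : (I → κ) → Prop} {S : Finset I} (h : Loc A S) :
    Loc (fun ω => if A ω then (1 : ℝ) else 0) S := by
  intro ω ω' h'
  simp only [h ω ω' h']

theorem pr_forall {I κ ι : Type} [Fintype I] [Fintype κ] [Nonempty κ] (J : Finset ι)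
    (A : ι → (I → κ) → Prop) (S : ι → Finset I) (hS : ∀ i ∈ J, Loc (A i) (S i))
    (hd : ∀ i ∈ J, ∀ j ∈ J, i ≠ j → Disjoint (S i) (S j)) :
    pr (fun ω => ∀ i ∈ J, A i ω) = ∏ i ∈ J, pr (A i) := by
  rw [ex_ind]
  have h1 : ∀ i, pr (A i) = ex (fun ω => if A i ω then (1 : ℝ) else 0) := fun i => ex_ind (A i)
  simp only [h1]
  rw [← ex_prod J (fun i ω => if A i ω then (1 : ℝ) else 0) S (fun i hi => Exq_ind (hS i hi)) hd]
  congr 1
  funext ω
  by_cases h : ∀ i ∈ J, A i ω
  · rw [if_pos h, Finset.prod_eq_one fun i hi => if_pos (h i hi)]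
  · rw [if_neg h]
    push Not at h
    obtain ⟨i, hi, hA⟩ := h
    exact (Finset.prod_eq_zero hi (if_neg hA)).symm

theorem pr_and {I κ : Type} [Fintype I] [Fintype κ] [Nonempty κ] (A B : (I → κ) → Prop)
    (S T : Finset I) (hA : Loc A S) (hB : Loc B T) (hd : Disjoint S T) :
    pr (fun ω => A ω ∧ B ω) = pr A * pr B := by
  rw [ex_ind, ex_ind A, ex_ind B, ← ex_mul _ _ S T (Exq_ind hA) (Exq_ind hB) hd]
  congr 1
  funext ω
  by_cases h1 : A ω
  · by_cases h2 : B ω
    · rw [if_pos ⟨h1, h2⟩, if_pos h1, if_pos h2, mul_one]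
    · rw [if_neg (fun h => h2 h.2), if_neg h2, mul_zero]
  · rw [if_neg (fun h => h1 h.1), if_neg h1, zero_mul]

end Pool.Agent.H65.GI
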