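/-
ROW Cnd. Elementary rules for `pr`, `ex`, and conditioning on a stopping set.
PROOF. `cond_ex`: let `A : (I → κ) → Finset I` with: if `ω' = ω` on `A ω` then `A ω' = A ω`. Define on pairs
`Φ (ω0, ω) = (ov (A ω0) ω0 ω, ov (A ω0) ω ω0)`. With `ω1 = ov (A ω0) ω0 ω`, `ω2 = ov (A ω0) ω ω0`: `ω1 = ω0` on `A ω0`, so `A ω1 = A ω0`, and
`Φ (ω1, ω2) = (ov (A ω0) ω1 ω2, ov (A ω0) ω2 ω1) = (ω0, ω)`: on `A ω0` the first is `ω1 = ω0`, off it `ω2 = ω0`; similarly the second. So `Φ` is an involution of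
the pairs and `∑_{(ω0, ω)} f (ov (A ω0) ω0 ω) = ∑_{(ω0,ω)} f (Φ (ω0,ω)).1 = ∑_{(ω1, ω2)} f ω1 = |Ω| ∑ f`. Divide by `|Ω|^2`.
`cond_pr`: `cond_ex` for the indicator and `ex (const p) = p`, monotonicity of `ex`. The others are immediate from `Finset.sum_le_sum`, `Finset.card_union_le`, etc. (`|Ω| > 0` where needed;
for empty `Ω` everything is `0 / 0 = 0`.)
-/
import Pool.Agent.H65.GI.Exq

set_option autoImplicit false

namespace Pool.Agent.H65.GI

open Finset Classical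

theorem pr_mono {Ω : Type} [Fintype Ω] {A B : Ω → Prop} (h : ∀ ω, A ω → B ω) : pr A ≤ pr B := by
  unfold pr
  apply div_le_div_of_nonneg_right _ (Nat.cast_nonneg _)
  exact_mod_cast Finset.card_le_card (Finset.monotone_filter_right _ (fun ω _ hω => h ω hω))

theorem pr_nonneg {Ω : Type} [Fintype Ω] (A : Ω → Prop) : 0 ≤ pr A := by
  unfold pr; positivity

theorem pr_le_one {Ω : Type} [Fintype Ω] (A : Ω → Prop) : pr A ≤ 1 := by
  unfold pr
  apply div_le_one_of_le₀ _ (Nat.cast_nonneg _)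
  exact_mod_cast Finset.card_le_univ _

theorem ex_add {Ω : Type} [Fintype Ω] (f g : Ω → ℝ) :
    ex (fun ω => f ω + g ω) = ex f + ex g := by
  unfold ex
  rw [Finset.sum_add_distrib, add_div]

theorem ex_mono {Ω : Type} [Fintype Ω] {f g : Ω → ℝ} (h : ∀ ω, f ω ≤ g ω) : ex f ≤ ex g := by
  unfold ex
  exact div_le_div_of_nonneg_right (Finset.sum_le_sum (fun ω _ => h ω)) (Nat.cast_nonneg _)

theorem ex_const {Ω : Type} [Fintype Ω] [Nonempty Ω] (c : ℝ) : ex (fun _ : Ω => c) = c := by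
  unfold ex
  have h : (0 : ℝ) < Fintype.card Ω := by exact_mod_cast Fintype.card_pos
  rw [Finset.sum_const, nsmul_eq_mul, Finset.card_univ, mul_comm, mul_div_assoc, div_self h.ne',
    mul_one]

theorem pr_or {Ω : Type} [Fintype Ω] (A B : Ω → Prop) :
    pr (fun ω => A ω ∨ B ω) ≤ pr A + pr B := by
  rw [ex_ind, ex_ind A, ex_ind B, ← ex_add]
  apply ex_mono
  intro ω
  by_cases hA : A ω <;> by_cases hB : B ω <;> simp [hA, hB]

/-- union bound -/
theorem pr_ex {Ω ι : Type} [Fintype Ω] (J : Finset ι) (A : ι → Ω → Prop) (p : ℝ)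
    (h : ∀ i ∈ J, pr (A i) ≤ p) : pr (fun ω => ∃ i ∈ J, A i ω) ≤ J.card * p := by
  induction J using Finset.induction_on with
  | empty => simp [pr]
  | insert a s ha ih =>
    have h1 : pr (fun ω => ∃ i ∈ insert a s, A i ω) ≤ pr (fun ω => A a ω ∨ ∃ i ∈ s, A i ω) := by
      apply pr_mono
      rintro ω ⟨i, hi, hω⟩
      rcases Finset.mem_insert.1 hi with rfl | hi
      · exact Or.inl hω
      · exact Or.inr ⟨i, hi, hω⟩
    have h2 := pr_or (A a) (fun ω => ∃ i ∈ s, A i ω)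
    have h3 := ih (fun i hi => h i (Finset.mem_insert_of_mem hi))
    have h4 := h a (Finset.mem_insert_self _ _)
    rw [Finset.card_insert_of_notMem ha]
    push_cast
    linarith

theorem pr_not {Ω : Type} [Fintype Ω] [Nonempty Ω] (A : Ω → Prop) :
    pr (fun ω => ¬ A ω) = 1 - pr A := by
  rw [ex_ind, ex_ind A, eq_sub_iff_add_eq, ← ex_add]
  refine Eq.trans ?_ (ex_const (Ω := Ω) (1 : ℝ))
  congr 1
  funext ω
  by_cases hA : A ω <;> simp [hA]

theorem ex_sum {Ω ι : Type} [Fintype Ω] (J : Finset ι) (f : ι → Ω → ℝ) :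
    ex (fun ω => ∑ i ∈ J, f i ω) = ∑ i ∈ J, ex (f i) := by
  unfold ex
  rw [Finset.sum_comm, Finset.sum_div]

theorem ex_smul {Ω : Type} [Fintype Ω] (c : ℝ) (f : Ω → ℝ) :
    ex (fun ω => c * f ω) = c * ex f := by
  unfold ex
  rw [← Finset.mul_sum, mul_div_assoc]

theorem ex_abs {Ω : Type} [Fintype Ω] (f : Ω → ℝ) : |ex f| ≤ ex (fun ω => |f ω|) := by
  unfold ex
  rw [abs_div, Nat.abs_cast]
  exact div_le_div_of_nonneg_right (Finset.abs_sum_le_sum_abs _ _) (Nat.cast_nonneg _)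

theorem cond_ex {I κ : Type} [Fintype I] [Fintype κ] [Nonempty κ] (A : (I → κ) → Finset I)
    (hA : ∀ ω ω', (∀ i ∈ A ω, ω' i = ω i) → A ω' = A ω) (f : (I → κ) → ℝ) :
    ex f = ex (fun ω0 => ex (fun ω => f (ov (A ω0) ω0 ω))) := by
  have hinv : Function.Involutive (fun p : (I → κ) × (I → κ) =>
      ((ov (A p.1) p.1 p.2, ov (A p.1) p.2 p.1) : (I → κ) × (I → κ))) := by
    rintro ⟨a, b⟩
    have h1 : A (ov (A a) a b) = A a := hA a _ (fun i hi => by simp [ov, hi])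
    simp only [h1]
    refine Prod.ext ?_ ?_
    · funext i
      simp only [ov]
      split_ifs <;> rfl
    · funext i
      simp only [ov]
      split_ifs <;> rfl
  have key : ∑ p : (I → κ) × (I → κ), f (ov (A p.1) p.1 p.2)
      = ∑ p : (I → κ) × (I → κ), f p.1 :=
    Equiv.sum_comp hinv.toPerm (fun p : (I → κ) × (I → κ) => f p.1)
  rw [Fintype.sum_prod_type, Fintype.sum_prod_type] at key
  have h : (0 : ℝ) < Fintype.card (I → κ) := by exact_mod_cast Fintype.card_pos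
  unfold ex
  rw [← Finset.sum_div]
  simp only [Finset.sum_const, Finset.card_univ, nsmul_eq_mul] at key
  rw [key, ← Finset.mul_sum, mul_comm, mul_div_assoc, div_self h.ne', mul_one]

theorem cond_pr {I κ : Type} [Fintype I] [Fintype κ] [Nonempty κ] (A : (I → κ) → Finset I)
    (hA : ∀ ω ω', (∀ i ∈ A ω, ω' i = ω i) → A ω' = A ω) (B : (I → κ) → Prop) (p : ℝ)
    (h : ∀ ω0, pr (fun ω => B (ov (A ω0) ω0 ω)) ≤ p) : pr B ≤ p := by
  rw [ex_ind, cond_ex A hA]
  calc ex (fun ω0 => ex (fun ω => if B (ov (A ω0) ω0 ω) then (1 : ℝ) else 0))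
      ≤ ex (fun _ : I → κ => p) := by
        apply ex_mono
        intro ω0
        have := h ω0
        rw [ex_ind] at this
        exact this
    _ = p := ex_const p

/-- fixed conditioning set -/
theorem cond_pr' {I κ : Type} [Fintype I] [Fintype κ] [Nonempty κ] (A : Finset I)
    (B : (I → κ) → Prop) (p : ℝ) (h : ∀ ω0, pr (fun ω => B (ov A ω0 ω)) ≤ p) : pr B ≤ p :=
  cond_pr (fun _ => A) (fun _ _ _ => rfl) B p h

end Pool.Agent.H65.GI
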