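/-
ROW Chf. Chernoff bounds for events on disjoint coordinate sets.
PROOF. `ch_up`: `chernoff_three` (`Pool/Agent/H67/HY/GC.lean`, any finite `Ω`) with `Ω = (I → κ)`, `S = J`, `B = A`, `y`; its hypothesis `hB` for `J' ⊆ J` is `pr_forall` and `Finset.prod_le_prod`. `ch_lo`: `chernoff_lower`
with `w = 1`, `m = 1`, `t = μ/2` and `y' i = min (y i) 1` (or `y` itself: `y i ≤ pr (A i) ≤ 1`): `hB` is `pr_forall` for the complements, `pr (¬ A i) = 1 - pr (A i) ≤ 1 - y i`. The exponent is `(μ/2)^2/(4 μ) = μ/16`. If `μ ≤ 0` the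
bound `exp (-(μ/16)) ≥ 1` is trivial.
`few_le`: if `K ≤ #{i : A i ω}` there is a `K`-subset `J'` of `J` with all `A i ω`; union bound over `J.powersetCard K` (at most `n^K` sets, `Nat.choose_le_pow`), each has probability `≤ p^K` by `pr_forall`.
-/
import Pool.Agent.H65.GI.Cnd
import Pool.Agent.H67.HY.GC

set_option autoImplicit false

namespace Pool.Agent.H65.GI

open Finset Classical

private theorem Chf_le {Ω : Type} [Fintype Ω] [Nonempty Ω] (A : Ω → Prop) (c : ℝ) :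
    pr A ≤ c ↔ ((univ.filter A).card : ℝ) ≤ c * Fintype.card Ω := by
  unfold pr
  have h : (0 : ℝ) < Fintype.card Ω := by exact_mod_cast Fintype.card_pos
  rw [div_le_iff₀ h]

private theorem Chf_loc {I κ : Type} {A : (I → κ) → Prop} {S : Finset I} (h : Loc A S) :
    Loc (fun ω => ¬ A ω) S := by
  intro ω ω' h'
  simp only [h ω ω' h']

private theorem Chf_B {I κ ι : Type} [Fintype I] [Fintype κ] [Nonempty κ] (J : Finset ι)
    (A : ι → (I → κ) → Prop) (S : ι → Finset I) (hS : ∀ i ∈ J, Loc (A i) (S i))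
    (hd : ∀ i ∈ J, ∀ j ∈ J, i ≠ j → Disjoint (S i) (S j)) (y : ι → ℝ)
    (hy : ∀ i ∈ J, pr (A i) ≤ y i) (J' : Finset ι) (hJ : J' ⊆ J) :
    pr (fun ω => ∀ i ∈ J', A i ω) ≤ ∏ i ∈ J', y i := by
  rw [pr_forall J' A S (fun i hi => hS i (hJ hi))
    (fun i hi j hj hij => hd i (hJ hi) j (hJ hj) hij)]
  exact Finset.prod_le_prod (fun i _ => pr_nonneg _) (fun i hi => hy i (hJ hi))

theorem ch_up {I κ ι : Type} [Fintype I] [Fintype κ] [Nonempty κ] (J : Finset ι)
    (A : ι → (I → κ) → Prop) (S : ι → Finset I) (hS : ∀ i ∈ J, Loc (A i) (S i))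
    (hd : ∀ i ∈ J, ∀ j ∈ J, i ≠ j → Disjoint (S i) (S j)) (y : ι → ℝ)
    (hy : ∀ i ∈ J, pr (A i) ≤ y i) (μ lam : ℝ) (hμ : ∑ i ∈ J, y i ≤ μ) (hlam : 0 ≤ lam) :
    pr (fun ω => 3 * μ + 2 * lam ≤ ((J.filter (fun i => A i ω)).card : ℝ)) ≤
      Real.exp (-lam) := by
  have hy0 : ∀ i ∈ J, 0 ≤ y i := fun i hi => (pr_nonneg _).trans (hy i hi)
  rw [Chf_le]
  have h := Pool.Agent.H67.HY.chernoff_three J A y μ lam hy0 (fun J' hJ' => by
    have h1 := (Chf_le _ _).1 (Chf_B J A S hS hd y hy J' hJ')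
    convert h1 using 3
    ext ω
    simp only [Finset.mem_filter]) hμ hlam
  convert h using 3

theorem ch_lo {I κ ι : Type} [Fintype I] [Fintype κ] [Nonempty κ] (J : Finset ι)
    (A : ι → (I → κ) → Prop) (S : ι → Finset I) (hS : ∀ i ∈ J, Loc (A i) (S i))
    (hd : ∀ i ∈ J, ∀ j ∈ J, i ≠ j → Disjoint (S i) (S j)) (y : ι → ℝ) (hy0 : ∀ i ∈ J, 0 ≤ y i)
    (hy : ∀ i ∈ J, y i ≤ pr (A i)) (μ : ℝ) (hμ : μ ≤ ∑ i ∈ J, y i) :
    pr (fun ω => ((J.filter (fun i => A i ω)).card : ℝ) ≤ μ / 2) ≤ Real.exp (-(μ / 16)) := by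
  by_cases hμ0 : 0 < μ
  · rw [Chf_le]
    have h := Pool.Agent.H67.HY.chernoff_lower J A (fun _ => 1) y 1 μ (μ / 2) one_pos
      (fun _ _ => zero_le_one) (fun _ _ => le_rfl) hy0
      (fun i hi => (hy i hi).trans (pr_le_one _)) (fun J' hJ' => by
        have h1 := (Chf_le _ _).1 (Chf_B J (fun i ω => ¬ A i ω) S (fun i hi => Chf_loc (hS i hi)) hd
          (fun i => 1 - y i) (fun i hi => by
            rw [pr_not]
            linarith [hy i hi]) J' hJ')
        convert h1 using 3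
        ext ω
        simp only [Finset.mem_filter]) (by simpa using hμ) hμ0 (by positivity) (by linarith)
    have e : (μ / 2) ^ 2 / (4 * 1 * μ) = μ / 16 := by
      field_simp
      ring
    rw [e] at h
    refine le_trans (le_of_eq ?_) h
    congr 2
    refine Finset.filter_congr fun ω _ => ?_
    rw [Finset.sum_boole]
    have e2 : μ - μ / 2 = μ / 2 := by ring
    rw [e2]
  · refine (pr_le_one _).trans ?_
    rw [Real.one_le_exp_iff]
    push Not at hμ0
    linarith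

theorem few_le {I κ ι : Type} [Fintype I] [Fintype κ] [Nonempty κ] (J : Finset ι)
    (A : ι → (I → κ) → Prop) (S : ι → Finset I) (hS : ∀ i ∈ J, Loc (A i) (S i))
    (hd : ∀ i ∈ J, ∀ j ∈ J, i ≠ j → Disjoint (S i) (S j)) (p : ℝ) (hp0 : 0 ≤ p)
    (hp : ∀ i ∈ J, pr (A i) ≤ p) (n K : ℕ) (hn : J.card ≤ n) :
    pr (fun ω => K ≤ (J.filter (fun i => A i ω)).card) ≤ (n * p) ^ K := by
  have h1 : pr (fun ω => K ≤ (J.filter (fun i => A i ω)).card) ≤
      pr (fun ω => ∃ J' ∈ J.powersetCard K, ∀ i ∈ J', A i ω) := by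
    apply pr_mono
    intro ω hω
    obtain ⟨J', hJ', hc⟩ := Finset.exists_subset_card_eq hω
    refine ⟨J', Finset.mem_powersetCard.2 ⟨hJ'.trans (Finset.filter_subset _ _), hc⟩, ?_⟩
    intro i hi
    exact (Finset.mem_filter.1 (hJ' hi)).2
  have h2 : pr (fun ω => ∃ J' ∈ J.powersetCard K, ∀ i ∈ J', A i ω) ≤
      (J.powersetCard K).card * p ^ K := by
    apply pr_ex
    intro J' hJ'
    obtain ⟨hs, hc⟩ := Finset.mem_powersetCard.1 hJ'
    have h3 := Chf_B J A S hS hd (fun _ => p) hp J' hs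
    rw [Finset.prod_const, hc] at h3
    exact h3
  have h4 : ((J.powersetCard K).card : ℝ) ≤ (n : ℝ) ^ K := by
    rw [Finset.card_powersetCard]
    have h5 : J.card.choose K ≤ J.card ^ K := Nat.choose_le_pow _ _
    have h6 : J.card ^ K ≤ n ^ K := Nat.pow_le_pow_left hn K
    exact_mod_cast h5.trans h6
  calc pr (fun ω => K ≤ (J.filter (fun i => A i ω)).card)
      ≤ (J.powersetCard K).card * p ^ K := h1.trans h2
    _ ≤ (n : ℝ) ^ K * p ^ K := mul_le_mul_of_nonneg_right h4 (pow_nonneg hp0 K)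
    _ = (n * p) ^ K := (mul_pow _ _ _).symm

end Pool.Agent.H65.GI
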