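/-
ROW Lll. Balls and the local lemma for events in balls; coins with a second index (`Ω = V × A → κ`).
PROOF. `bl` rules by induction on the radius (`bl G v (k+1)` is a filter over `univ`): monotone; `x ∈ bl v k`, `G.Adj x y → y ∈ bl v (k+1)`; `x ∈ bl v k → bl x l ⊆ bl v (k+l)`; symmetry `x ∈ bl v k → v ∈ bl x k` (induction on `k`, using
`y ∈ bl v k`, `Adj y x`: `v ∈ bl y k` (IH), `y ∈ bl x 1`, so `v ∈ bl x (1+k)` by the previous rule); cardinality `≤ (Δ+1)^k` (`bl (k+1) ⊆ bl k ∪ (bl k).biUnion neighbours`).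
`lll_bl`: `Pool.Agent.H28.local_lemma` (file `Pool/Agent/H28/LLL.lean`; read its hypotheses) for the index type `V`, value type `A → κ`: translate `ω : V × A → κ` by `Function.curry` (an equivalence, `Equiv.curry`); the events
`A v = univ.filter (fun ω' : V → A → κ => E v (fun p => ω' p.1 p.2))`, `N v = bl G v r`; `DependsOnly` from `hloc`; the number of `w` with `bl v r`, `bl w r` not disjoint is `≤ (bl G v (2r)).card ≤ (Δ+1)^(2r)`;
`pr` is `card / card`, so `card (A v) ≤ q card (V → A → κ)` by the equivalence (`Finset.card_equiv` / `Fintype.card_congr`). Model: `ball_lll` in `Pool/Agent/H67/HY/Llb.lean`.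
-/
import Pool.Agent.H65.GI.Cnd

set_option autoImplicit false

namespace Pool.Agent.H65.GI

open Finset Classical

section
variable {V : Type} [Fintype V] (G : SimpleGraph V)

theorem bl_self (v : V) (k : ℕ) : v ∈ bl G v k := by
  induction k with
  | zero => exact mem_singleton_self v
  | succ k ih => exact mem_filter.2 ⟨mem_univ _, Or.inl ih⟩

theorem bl_mono (v : V) {k l : ℕ} (h : k ≤ l) : bl G v k ⊆ bl G v l := by
  induction l with
  | zero =>
    have h0 : k = 0 := Nat.le_zero.1 h
    rw [h0]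
  | succ l ih =>
    rcases Nat.lt_or_ge k (l + 1) with h1 | h1
    · intro x hx
      exact mem_filter.2 ⟨mem_univ _, Or.inl (ih (Nat.lt_succ_iff.1 h1) hx)⟩
    · have h2 : k = l + 1 := le_antisymm h h1
      rw [h2]

theorem bl_adj {v x y : V} {k : ℕ} (h : x ∈ bl G v k) (hxy : G.Adj x y) : y ∈ bl G v (k + 1) := by
  exact mem_filter.2 ⟨mem_univ _, Or.inr ⟨x, h, hxy⟩⟩

theorem bl_bl {v x : V} {k l : ℕ} (h : x ∈ bl G v k) : bl G x l ⊆ bl G v (k + l) := by
  induction l with
  | zero =>
    intro y hy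
    have h1 : y = x := mem_singleton.1 hy
    rw [h1]
    exact h
  | succ l ih =>
    intro y hy
    rcases (mem_filter.1 hy).2 with h1 | ⟨z, hz, h1⟩
    · exact bl_mono G v (Nat.le_succ (k + l)) (ih h1)
    · exact bl_adj G (ih hz) h1

theorem bl_symm {v x : V} {k : ℕ} (h : x ∈ bl G v k) : v ∈ bl G x k := by
  induction k generalizing x with
  | zero =>
    have h1 : x = v := mem_singleton.1 h
    rw [h1]
    exact mem_singleton_self v
  | succ k ih =>
    rcases (mem_filter.1 h).2 with h1 | ⟨y, hy, h1⟩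
    · exact bl_mono G x (Nat.le_succ k) (ih h1)
    · have h2 : y ∈ bl G x 1 := bl_adj G (bl_self G x 0) h1.symm
      have h3 := bl_bl G h2 (ih hy)
      rw [Nat.add_comm] at h3
      exact h3

theorem bl_card (Δ : ℕ) (hG : Reg G Δ) (v : V) (k : ℕ) : (bl G v k).card ≤ (Δ + 1) ^ k := by
  induction k with
  | zero =>
    change ({v} : Finset V).card ≤ _
    rw [card_singleton, pow_zero]
  | succ k ih =>
    have h1 : bl G v (k + 1) ⊆
        bl G v k ∪ (bl G v k).biUnion (fun y => univ.filter (fun u => G.Adj y u)) := by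
      intro x hx
      rcases (mem_filter.1 hx).2 with h1 | ⟨y, hy, h1⟩
      · exact mem_union_left _ h1
      · exact mem_union_right _ (mem_biUnion.2 ⟨y, hy, mem_filter.2 ⟨mem_univ _, h1⟩⟩)
    have h2 : ((bl G v k).biUnion (fun y => univ.filter (fun u => G.Adj y u))).card ≤
        (bl G v k).card * Δ := card_biUnion_le_card_mul _ _ _ (fun y _ => (hG y).le)
    calc (bl G v (k + 1)).card ≤ (bl G v k).card + (bl G v k).card * Δ :=
          (card_le_card h1).trans ((card_union_le _ _).trans (Nat.add_le_add_left h2 _))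
      _ = (bl G v k).card * (Δ + 1) := by ring
      _ ≤ (Δ + 1) ^ k * (Δ + 1) := Nat.mul_le_mul_right _ ih
      _ = (Δ + 1) ^ (k + 1) := (pow_succ _ _).symm

end

theorem lll_bl {V A κ : Type} [Fintype V] [Fintype A] [Fintype κ] [Nonempty κ]
    (G : SimpleGraph V) (Δ : ℕ) (hG : Reg G Δ) (r : ℕ) (E : V → (V × A → κ) → Prop)
    (hloc : ∀ v, Loc (E v) ((bl G v r) ×ˢ (univ : Finset A))) (q : ℝ) (hq0 : 0 ≤ q)
    (hq : ∀ v, pr (E v) ≤ q) (h4 : 4 * q * ((Δ : ℝ) + 1) ^ (2 * r) ≤ 1) :
    ∃ ω : V × A → κ, ∀ v, ¬ E v ω := by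
  have h1 : (1 : ℝ) ≤ ((Δ : ℝ) + 1) ^ (2 * r) := by
    refine one_le_pow₀ ?_
    have : (0 : ℝ) ≤ Δ := Nat.cast_nonneg _
    linarith
  have h5 : 4 * q ≤ 1 := by
    refine le_trans ?_ h4
    exact le_mul_of_one_le_right (by linarith) h1
  have hcardeq : ∀ v, (univ.filter (fun w : V → A → κ => E v (fun p => w p.1 p.2))).card =
      (univ.filter (fun ω : V × A → κ => E v ω)).card := by
    intro v
    refine card_nbij' (fun w : V → A → κ => fun p : V × A => w p.1 p.2)
      (fun (ω : V × A → κ) (a : V) (b : A) => ω (a, b)) ?_ ?_ ?_ ?_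
    · intro w hw
      exact mem_coe.2 (mem_filter.2 ⟨mem_univ _, (mem_filter.1 (mem_coe.1 hw)).2⟩)
    · intro ω hω
      exact mem_coe.2 (mem_filter.2 ⟨mem_univ _, (mem_filter.1 (mem_coe.1 hω)).2⟩)
    · intro w _
      rfl
    · intro ω _
      rfl
  have hcu : Fintype.card (V → A → κ) = Fintype.card (V × A → κ) :=
    (Fintype.card_congr (Equiv.curry V A κ)).symm
  have hpos : (0 : ℝ) < Fintype.card (V × A → κ) := by
    exact_mod_cast Fintype.card_pos
  have hA : ∀ v, ((univ.filter (fun w : V → A → κ => E v (fun p => w p.1 p.2))).card : ℝ) ≤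
      q * Fintype.card (V → A → κ) := by
    intro v
    rw [hcardeq v, hcu]
    have h6 := hq v
    unfold pr at h6
    exact (div_le_iff₀ hpos).1 h6
  obtain ⟨f, hf⟩ := Pool.Agent.H28.local_lemma
    (fun v => univ.filter (fun w : V → A → κ => E v (fun p => w p.1 p.2)))
    (fun v => bl G v r) (fun v ω ω' hω h => by
      rw [mem_filter] at h ⊢
      refine ⟨mem_univ _, ?_⟩
      have h7 : E v (fun p => ω p.1 p.2) = E v (fun p => ω' p.1 p.2) := by
        refine hloc v _ _ ?_
        intro p hp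
        have h8 := (mem_product.1 hp).1
        have h9 := hω p.1 h8
        change ω p.1 p.2 = ω' p.1 p.2
        rw [h9]
      rw [← h7]
      exact h.2) ((Δ + 1) ^ (2 * r)) q hq0
    (fun v => by
      refine (card_le_card ?_).trans (bl_card G Δ hG v (2 * r))
      intro w hw
      obtain ⟨_, _, hd⟩ := mem_filter.1 hw
      rw [not_disjoint_iff] at hd
      obtain ⟨z, hz1, hz2⟩ := hd
      have h6 := bl_bl G hz1 (bl_symm G hz2)
      rw [two_mul]
      exact h6) hA (by push_cast; exact h4) h5 Fintype.card_pos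
  refine ⟨fun p => f p.1 p.2, fun v hv => hf v (mem_filter.2 ⟨mem_univ _, hv⟩)⟩

end Pool.Agent.H65.GI
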