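import Pool.Agent.H65.GI.SDefs

/-!
MP_b8729f, project GI, blocks D and E: walks, holes, gadgets. Definitions.
-/

set_option autoImplicit false
set_option linter.unusedSectionVars false

namespace Pool.Agent.H65.GI

open Finset Classical

noncomputable section

/-- One node matching `N` together with the reserve matchings `R`. -/
structure Wk {V : Type} [Fintype V] (G : SimpleGraph V) {r : ℕ} (K : ℕ) (side : V → Bool)
    (D : Finset V) (N : V → V) (R : Fin r → V → V) : Prop where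
  invN : ∀ v, N (N v) = v
  invR : ∀ ρ v, R ρ (R ρ v) = v
  adjN : ∀ v, N v ≠ v → G.Adj v (N v)
  adjR : ∀ ρ v, R ρ v ≠ v → G.Adj v (R ρ v)
  sideN : ∀ v, N v ≠ v → side (N v) ≠ side v
  sideR : ∀ ρ v, R ρ v ≠ v → side (R ρ v) ≠ side v
  disR : ∀ ρ σ v, ρ ≠ σ → R ρ v ≠ v → R ρ v ≠ R σ v
  disNR : ∀ ρ v, N v ≠ v → N v ≠ R ρ v
  offN : ∀ v, v ∉ D → N v ≠ v
  offR : ∀ v, v ∉ D → ∀ ρ, R ρ v ≠ v
  one : ∀ v ρ σ, R ρ v = v → R σ v = v → ρ = σ
  few : ∀ v, ((bl G v 11).filter (fun x => x ∈ D)).card ≤ K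

section
variable {V : Type} {r : ℕ}

/-- The holes `A` of the label (the vertices of its colour class). -/
structure Hol (N : V → V) (R : Fin r → V → V) (A : V → Prop) : Prop where
  n1 : ∀ a, A a → ¬ A (N a)
  rn : ∀ a ρ, A a → ¬ A (R ρ (N a))
  nr : ∀ a ρ, A a → ¬ A (N (R ρ a))
  nrn : ∀ a ρ, A a → ¬ A (N (R ρ (N a)))
  fn : ∀ a, A a → N a ≠ a
  fr : ∀ a ρ, A a → R ρ (N a) ≠ N a
  fnr : ∀ a ρ, A a → N (R ρ (N a)) ≠ R ρ (N a)

/-- The tests. -/
structure Tst [Fintype V] (N : V → V) (R : Fin r → V → V) (A : V → Prop) (pb e4 e2 : ℝ) :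
    Prop where
  t4 : ∀ v, |(((TY N R 4 v).filter A).card : ℝ) - pb * ((TY N R 4 v).card : ℝ)| ≤ e4
  t2 : ∀ v, |(((TY N R 2 v).filter A).card : ℝ) - pb * ((TY N R 2 v).card : ℝ)| ≤ e2
  x2 : ∀ v, |(((TX N R 2 v).filter A).card : ℝ) - pb * ((TX N R 2 v).card : ℝ)| ≤ e2

/-- last vertex of the walk -/
def en (N : V → V) (R : Fin r → V → V) (a : V) (f : Fin 4 → Fin r) : V := N (xs N R f a 4)

/-- the reversed word -/
def rv (f : Fin 4 → Fin r) : Fin 4 → Fin r := fun i => f (Fin.rev i)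

/-- a moving walk without inner vertices in `A` -/
def Cl (N : V → V) (R : Fin r → V → V) (A : V → Prop) (a : V) (f : Fin 4 → Fin r) : Prop :=
  mvg N R f a 4 ∧ (∀ i, 1 ≤ i → i ≤ 4 → ¬ A (xs N R f a i)) ∧ ∀ i ≤ 3, ¬ A (N (xs N R f a i))

/-- Gadgets: start vertex (on the side `true`) and word; the ends are in `A` or in the reserve set
`Q`, not both in `Q`. -/
def Val (side : V → Bool) (N : V → V) (R : Fin r → V → V) (A Q : V → Prop)
    (p : V × (Fin 4 → Fin r)) : Prop :=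
  side p.1 = true ∧ Cl N R A p.1 p.2 ∧ (A p.1 ∨ Q p.1) ∧
    (A (en N R p.1 p.2) ∨ Q (en N R p.1 p.2)) ∧ (A p.1 ∨ A (en N R p.1 p.2))

/-- the type of the gadgets -/
abbrev Gd (side : V → Bool) (N : V → V) (R : Fin r → V → V) (A Q : V → Prop) : Type :=
  {p : V × (Fin 4 → Fin r) // Val side N R A Q p}

/-- the vertices `x_i` of a gadget -/
def gx (N : V → V) (R : Fin r → V → V) (p : V × (Fin 4 → Fin r)) (i : ℕ) : V := xs N R p.2 p.1 i

/-- the vertices `y_i` of a gadget -/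
def gy (N : V → V) (R : Fin r → V → V) (p : V × (Fin 4 → Fin r)) (i : ℕ) : V :=
  N (xs N R p.2 p.1 i)

/-- `v` is in one of the three middle nodes -/
def mdl (N : V → V) (R : Fin r → V → V) (v : V) (p : V × (Fin 4 → Fin r)) : Prop :=
  ∃ i, 1 ≤ i ∧ i ≤ 3 ∧ (gx N R p i = v ∨ gy N R p i = v)

end

/-- conflicts: gadgets of different labels with a common reserve edge -/
def cfl {V : Type} {s w r : ℕ} (N : Fin s × Fin w → V → V) (R : Fin r → V → V)
    (α : Fin s × Fin w) (p : V × (Fin 4 → Fin r)) (α' : Fin s × Fin w)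
    (p' : V × (Fin 4 → Fin r)) : Prop :=
  α ≠ α' ∧ ∃ i i' : Fin 4, p.2 i = p'.2 i' ∧ gy (N α) R p i = gy (N α') R p' i'

/-- The outcome of the colouring step. -/
structure IsCol {V : Type} [Fintype V] (G : SimpleGraph V) (s w r K : ℕ) (side : V → Bool)
    (D : Finset V) (N : Fin s × Fin w → V → V) (R : Fin r → V → V) (f : V → Fin s)
    (pb e4 e2 X : ℝ) : Prop where
  base : IsBase G s w r K side D N R
  prop : ∀ u v, G.Adj u v → f u ≠ f v
  hol : ∀ a, Hol (N a) R (fun v => f v = a.1)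
  tst : ∀ a, Tst (N a) R (fun v => f v = a.1) pb e4 e2
  fr1 : ∀ v c, ((univ.filter (fun ρ : Fin r => f (R ρ v) = c)).card : ℝ) ≤ X
  fr2 : ∀ v a, ((univ.filter (fun ρ : Fin r => f (N a (R ρ v)) = a.1)).card : ℝ) ≤ X
  fr3 : ∀ v, ((univ.filter (fun a : Fin s × Fin w => f (N a v) = a.1)).card : ℝ) ≤ X

/-- The reserve sets of the labels. -/
structure IsRes {V : Type} [Fintype V] (G : SimpleGraph V) {s w r : ℕ} (D : Finset V)
    (N : Fin s × Fin w → V → V) (R : Fin r → V → V) (f : V → Fin s)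
    (Q : Fin s × Fin w → V → Prop) (mR BR X : ℝ) : Prop where
  uni : ∀ a b v, Q a v → Q b v → a = b
  ind : ∀ a b u v, Q a u → Q b v → ¬ G.Adj u v
  offD : ∀ a v, Q a v → v ∉ D ∧ ∀ d ∈ D, ¬ G.Adj v d
  offA : ∀ a v, Q a v → f v ≠ a.1 ∧ f (N a v) ≠ a.1
  low : ∀ a v, f v = a.1 →
    mR ≤ ((univ.filter (fun g : Fin 4 → Fin r => Cl (N a) R (fun v => f v = a.1) v g ∧
      Q a (en (N a) R v g))).card : ℝ)
  upp : ∀ a v, ((univ.filter (fun g : Fin 4 → Fin r => mvg (N a) R g v 4 ∧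
      Q a (en (N a) R v g))).card : ℝ) ≤ BR
  fr2 : ∀ v a, ((univ.filter (fun ρ : Fin r => Q a (N a (R ρ v)))).card : ℝ) ≤ X
  fr3 : ∀ v, ((univ.filter (fun a : Fin s × Fin w => Q a (N a v))).card : ℝ) ≤ X

end

end Pool.Agent.H65.GI
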