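/-
Targets of the blocks (to be proved in the files of the blocks; this file is only the interface).
Block A (base), block R (girth and regularisation), block B (nibble).
-/
import Pool.Agent.H65.GI.Defs
import Pool.Agent.H70.HY.Defs

set_option autoImplicit false

namespace Pool.Agent.H65.GI.Top

open Finset Classical

/-- Block R1. -/
def TlOfGirth : Prop := ∀ (V : Type) [Fintype V] (G : SimpleGraph V) (k : ℕ),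
  ((2 * k + 1 : ℕ) : ℕ∞) ≤ G.egirth → TL G k

/-- Block R2: embedding into a `Δ`-regular graph of the same girth. -/
def Regul : Prop := ∀ (V : Type) [Fintype V] (G : SimpleGraph V) (Δ g : ℕ),
  (∀ v, (univ.filter (fun u => G.Adj v u)).card ≤ Δ) → (g : ℕ∞) ≤ G.egirth →
  ∃ (W : Type) (_ : Fintype W) (G' : SimpleGraph W) (φ : V → W), Function.Injective φ ∧
    (∀ u v, G.Adj u v → G'.Adj (φ u) (φ v)) ∧ Reg G' Δ ∧ (g : ℕ∞) ≤ G'.egirth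

/-- Block A: the exact base. -/
def Base : Prop := ∀ w : ℕ, 1 ≤ w → ∃ K Δ0 : ℕ, ∀ Δ, Δ0 ≤ Δ →
  ∀ (V : Type) [Fintype V] (G : SimpleGraph V), Reg G Δ → TL G 33 →
  ∃ (side : V → Bool) (D : Finset V) (N : Fin (Δ / (8 * w)) × Fin w → V → V)
    (R : Fin (Δ / 8) → V → V), IsBase G (Δ / (8 * w)) w (Δ / 8) K side D N R

/-- Block B: the exactly uniform nibble. -/
def Nibble : Prop := ∀ c : ℕ, 1 ≤ c → ∃ Δ0 : ℕ, ∀ Δ, Δ0 ≤ Δ →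
  ∀ (V : Type) [Fintype V] (G : SimpleGraph V), Reg G Δ → ∀ s : ℕ, Δ ≤ c * s → s ≤ Δ →
  ∀ (C : Fin s → V → Finset V), IsSys G C (c * Δ) → Parts G C c c →
  ∀ Fb : V → Finset (Fin s), (∀ v, (Fb v).card ≤ c) →
  ∀ (Tt Ff : Type) [Fintype Tt] [Fintype Ff], Fintype.card Tt ≤ c * Δ →
  Fintype.card Ff ≤ c * Δ →
  ∀ (T : Tt → V → Finset V) (gr : Tt → V → V → V) (col : Tt → Fin s) (g : Tt → ℕ),
  (∀ τ, 1 ≤ g τ ∧ g τ ≤ Δ ^ 3) → (∀ τ v, IsTest G C v (T τ v) (gr τ v) Δ (g τ)) →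
  (∀ τ v, ∀ x ∈ T τ v, Fb x = ∅) →
  ∀ (F : Ff → V → Finset (V × Fin s)),
  (∀ φ v, (F φ v).card ≤ c * Δ ∧ ∀ p ∈ F φ v, p.1 ∈ bl G v 9) →
  ∃ pb : ℝ, 1 / (8 * (c : ℝ) ^ 2) / Δ ≤ pb ∧ pb ≤ (Δ : ℝ) ^ (1 / 100 : ℝ) / Δ ∧
  ∃ f : V → Fin s, (∀ v, f v ∉ Fb v) ∧ (∀ v, ∀ z ∈ C (f v) v, f z ≠ f v) ∧
    (∀ τ v, |(((T τ v).filter (fun x => f x = col τ)).card : ℝ) - pb * (T τ v).card| ≤
      (Δ : ℝ) ^ (1 / 100 : ℝ) * Real.sqrt (g τ)) ∧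
    ∀ φ v, (((F φ v).filter (fun p => f p.1 = p.2)).card : ℝ) ≤ (Δ : ℝ) ^ (1 / 100 : ℝ)

/-- The final theorem. -/
def Final : Prop := ∀ p : ℕ, 1 ≤ p → ∃ Δ0 : ℕ, ∀ (V : Type) [Fintype V] (G : SimpleGraph V) (Δ : ℕ),
  Δ0 ≤ Δ → (∀ v, (univ.filter (fun u => G.Adj v u)).card ≤ Δ) → (67 : ℕ∞) ≤ G.egirth →
  Pool.Agent.H70.HY.HYLab G Δ p

end Pool.Agent.H65.GI.Top
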