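/-
Targets of block D (colouring theorem) and block E (from the colouring to the matchings).
This file is only the interface.
-/
import Pool.Agent.H65.GI.EDefs
import Pool.Agent.H65.GI.Top

set_option autoImplicit false

namespace Pool.Agent.H65.GI.Top

open Finset Classical

/-- Block D: base and colouring. -/
def Colr : Prop := ∀ w : ℕ, 1 ≤ w → ∃ K Δ0 : ℕ, ∀ Δ, Δ0 ≤ Δ →
  ∀ (V : Type) [Fintype V] (G : SimpleGraph V), Reg G Δ → TL G 33 →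
  ∃ (side : V → Bool) (D : Finset V) (N : Fin (Δ / (8 * w)) × Fin w → V → V)
    (R : Fin (Δ / 8) → V → V) (f : V → Fin (Δ / (8 * w))) (pb : ℝ),
    1 / ((Δ : ℝ) ^ (1 / 50 : ℝ) * Δ) ≤ pb ∧ pb ≤ (Δ : ℝ) ^ (1 / 50 : ℝ) / Δ ∧
    IsCol G (Δ / (8 * w)) w (Δ / 8) K side D N R f pb
      ((Δ : ℝ) ^ (38 / 25 : ℝ)) ((Δ : ℝ) ^ (13 / 25 : ℝ)) ((Δ : ℝ) ^ (1 / 50 : ℝ))

/-- Block E: the matchings of the labels. The exceptional vertices `S` (points of `D` and reserve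
vertices) are independent. -/
def Mats : Prop := ∀ w : ℕ, 1 ≤ w → ∃ Δ0 : ℕ, ∀ Δ, Δ0 ≤ Δ →
  ∀ (V : Type) [Fintype V] (G : SimpleGraph V), Reg G Δ → TL G 33 →
  ∃ (f : V → Fin (Δ / (8 * w))) (S : V → Prop) (M : Fin (Δ / (8 * w)) × Fin w → V → V),
    (∀ u v, G.Adj u v → f u ≠ f v) ∧ (∀ u v, S u → S v → ¬ G.Adj u v) ∧
    (∀ a v, M a (M a v) = v) ∧ (∀ a v, M a v ≠ v → G.Adj v (M a v)) ∧
    (∀ a b v, a ≠ b → M a v ≠ v → M a v ≠ M b v) ∧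
    (∀ a v, f v = a.1 → M a v = v) ∧
    (∀ v, ¬ S v → (univ.filter (fun a : Fin (Δ / (8 * w)) × Fin w => M a v = v)).card ≤ w) ∧
    ∀ v, (univ.filter (fun a : Fin (Δ / (8 * w)) × Fin w => M a v = v)).card ≤ w + 1

end Pool.Agent.H65.GI.Top
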