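/-
ROW Fnl. From the matchings to the labelling.
PROOF. Let `p ≥ 1`, `w = 2p-1`; `Δ0` = maximum of that of `Mats w` and `8 w`. `Regul` with `g = 67`: `G'` on `W`, `φ`, `Reg G' Δ`, `67 ≤ egirth`; `TlOfGirth` with `k = 33`: `TL G' 33` (`2*33+1 = 67`). `Mats`: `f`, `S`, `M`; `s = Δ/(8w) ≥ 1`.
`H71.DX.final2` for `G'` with `L = w * s`, `k' = w * (s-1) + p`, `c v = w * f v + (p-1)` (`f v ≤ s - 1`, so `c v < k'`; `k' + p - 1 = w (s-1) + 2p - 1 = w s`; `w s ≤ Δ`), `mm ℓ v = if h : ℓ < w * s then M (⟨ℓ / w, _⟩, ⟨ℓ % w, _⟩) v else v`.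
`hinv, hadj` clear; `hdis`: different `ℓ < L` give different pairs `(ℓ / w, ℓ % w)`. `hfix`: `w f v + p - 1 < ℓ + p` and `ℓ < w f v + 2p - 1`, so `w f v ≤ ℓ < w (f v + 1)`, `ℓ / w = f v`. `hd`: `dg G' v = Δ` (`Reg`; `dg` unfolds to the same filter) and the number of `ℓ < L` with `mm ℓ v = v` is the number of labels `a` with `M a v = v`
(the map `ℓ ↦ (ℓ/w, ℓ%w)` is injective on `range L`; `≤` is enough) `≤ w + 1 = 2p`. `hind`: equality `Δ + 2p` at `a` and `b` means `w + 1` fixed labels, so `S a`, `S b` (third last clause), impossible for adjacent vertices. `hprop`: `f u ≠ f v`.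
Restriction along `φ`: `fV u := fV' (φ u)`, `fE e := fE' (e.map φ)`; the five clauses follow because `φ` is injective and preserves adjacency.
-/
import Pool.Agent.H65.GI.Top2
import Pool.Agent.H71.DX.Fn2

set_option autoImplicit false

namespace Pool.Agent.H65.GI

open Finset Classical

theorem Fnl_restrict {V W : Type} (G : SimpleGraph V) (G' : SimpleGraph W) (φ : V → W)
    (hφ : Function.Injective φ) (hGG : ∀ u v, G.Adj u v → G'.Adj (φ u) (φ v)) (n p : ℕ)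
    (h : H70.HY.HYLab G' n p) : H70.HY.HYLab G n p := by
  obtain ⟨fV, fE, a1, a2, a3, a4, a5⟩ := h
  refine ⟨fun u => fV (φ u), fun e => fE (e.map φ), fun v => a1 _, ?_, fun u v huv =>
    a3 _ _ (hGG u v huv), ?_, ?_⟩
  · intro e he
    induction e using Sym2.ind with
    | _ x y =>
      have h1 : G.Adj x y := he
      have h2 := a2 s(φ x, φ y) (hGG x y h1)
      simpa using h2
  · intro u v huv
    have h2 := a4 (φ u) (φ v) (hGG u v huv)
    simpa using h2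
  · intro u v x huv hux hvx
    have h2 := a5 (φ u) (φ v) (φ x) (hGG u v huv) (hGG u x hux) (fun h => hvx (hφ h))
    simpa using h2

theorem Fnl_key {W : Type} [Fintype W] (G' : SimpleGraph W) (Δ p w s : ℕ) (hp : 1 ≤ p)
    (hw : w = 2 * p - 1) (hs : 1 ≤ s) (hsΔ : w * s ≤ Δ) (hreg : Reg G' Δ)
    (f : W → Fin s) (S : W → Prop) (M : Fin s × Fin w → W → W)
    (hprop : ∀ u v, G'.Adj u v → f u ≠ f v) (hS : ∀ u v, S u → S v → ¬ G'.Adj u v)
    (hinv : ∀ a v, M a (M a v) = v) (hadj : ∀ a v, M a v ≠ v → G'.Adj v (M a v))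
    (hdis : ∀ a b v, a ≠ b → M a v ≠ v → M a v ≠ M b v)
    (hfx : ∀ a v, f v = a.1 → M a v = v)
    (hc1 : ∀ v, ¬ S v → (univ.filter (fun a : Fin s × Fin w => M a v = v)).card ≤ w)
    (hc2 : ∀ v, (univ.filter (fun a : Fin s × Fin w => M a v = v)).card ≤ w + 1) :
    H70.HY.HYLab G' Δ p := by
  have hw1 : 0 < w := by omega
  have hs0 : 0 < s := hs
  obtain ⟨g, hg⟩ : ∃ g : ℕ → Fin s × Fin w, ∀ ℓ,
      g ℓ = (⟨(ℓ / w) % s, Nat.mod_lt _ hs0⟩, ⟨ℓ % w, Nat.mod_lt _ hw1⟩) := ⟨_, fun _ => rfl⟩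
  have hg1 : ∀ ℓ < w * s, ((g ℓ).1 : ℕ) = ℓ / w := by
    intro ℓ hℓ
    rw [hg]
    exact Nat.mod_eq_of_lt (Nat.div_lt_of_lt_mul hℓ)
  have hg2 : ∀ ℓ, ((g ℓ).2 : ℕ) = ℓ % w := by
    intro ℓ
    rw [hg]
  have hginj : ∀ a < w * s, ∀ b < w * s, g a = g b → a = b := by
    intro a ha b hb hab
    have e1 : a / w = b / w := by rw [← hg1 a ha, ← hg1 b hb, hab]
    have e2 : a % w = b % w := by rw [← hg2 a, ← hg2 b, hab]
    rw [← Nat.div_add_mod a w, ← Nat.div_add_mod b w, e1, e2]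
  have hcount : ∀ v, ((range (w * s)).filter fun ℓ => M (g ℓ) v = v).card ≤
      (univ.filter (fun a : Fin s × Fin w => M a v = v)).card := by
    intro v
    apply Finset.card_le_card_of_injOn g
    · intro ℓ hℓ
      simp only [Finset.coe_filter, Finset.mem_range, Set.mem_ofPred_eq] at hℓ
      simp only [Finset.coe_filter, Finset.mem_univ, true_and, Set.mem_ofPred_eq]
      exact hℓ.2
    · intro a ha b hb hab
      simp only [Finset.coe_filter, Finset.mem_range, Set.mem_ofPred_eq] at ha hb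
      exact hginj a ha.1 b hb.1 hab
  have hdg : ∀ v, H71.DN.dg G' v = Δ := fun v => hreg v
  have hms : w * (s - 1) + w = w * s := by
    obtain ⟨t, rfl⟩ : ∃ t, s = t + 1 := ⟨s - 1, by omega⟩
    simp [Nat.mul_succ]
  have hfb : ∀ v, w * (f v : ℕ) ≤ w * (s - 1) := by
    intro v
    have := (f v).2
    exact Nat.mul_le_mul_left _ (by omega)
  refine H71.DX.final2 G' Δ p (w * (s - 1) + p) (w * s) hp (by omega) (by omega)
    (fun v => w * (f v : ℕ) + (p - 1)) ?_ ?_ (fun ℓ => M (g ℓ)) ?_ ?_ ?_ ?_ ?_ ?_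
  · intro v
    have := hfb v
    show w * (f v : ℕ) + (p - 1) < _
    omega
  · intro u v huv h
    have h' : w * (f u : ℕ) + (p - 1) = w * (f v : ℕ) + (p - 1) := h
    have h'' : w * (f u : ℕ) = w * (f v : ℕ) := by omega
    exact hprop u v huv (Fin.ext (Nat.eq_of_mul_eq_mul_left hw1 h''))
  · intro ℓ _ v
    exact hinv _ _
  · intro ℓ _ v hv
    exact hadj _ _ hv
  · intro ℓ hℓ ℓ' hℓ' hne v hv
    exact hdis _ _ v (fun h => hne (hginj _ hℓ _ hℓ' h)) hv
  · intro ℓ hℓ v h1 h2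
    have h1' : w * (f v : ℕ) + (p - 1) < ℓ + p := h1
    have h2' : ℓ < w * (f v : ℕ) + (p - 1) + p := h2
    apply hfx
    apply Fin.ext
    rw [hg1 ℓ hℓ]
    symm
    have h3 : w * (f v : ℕ) ≤ ℓ := by omega
    have h4 : ℓ < w * (f v : ℕ) + w := by omega
    apply Nat.div_eq_of_lt_le
    · rw [mul_comm]; exact h3
    · rw [mul_comm, Nat.mul_succ]; exact h4
  · intro v
    rw [hdg v]
    have := (hcount v).trans (hc2 v)
    omega
  · intro a b hab ha hb
    exfalso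
    have key : ∀ v, H71.DN.dg G' v +
        ((range (w * s)).filter fun ℓ => M (g ℓ) v = v).card = Δ + 2 * p → S v := by
      intro v hv
      by_contra hSv
      rw [hdg v] at hv
      have := (hcount v).trans (hc1 v hSv)
      omega
    exact hS a b (key a ha) (key b hb) hab

theorem fnl (h1 : Top.TlOfGirth) (h2 : Top.Regul) (h3 : Top.Mats) : Top.Final := by
  intro p hp
  obtain ⟨Δ0, hM⟩ := h3 (2 * p - 1) (by omega)
  refine ⟨max Δ0 (8 * (2 * p - 1)), fun V _ G Δ hΔ hdeg hg => ?_⟩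
  obtain ⟨W, instW, G', φ, hφ, hGG, hreg, hgir⟩ := h2 V G Δ 67 hdeg (by simpa using hg)
  have hTL : TL G' 33 := h1 W G' 33 (by simpa using hgir)
  obtain ⟨f, S, M, hprop, hS, hinv, hadj, hdis, hfx, hc1, hc2⟩ :=
    hM Δ ((le_max_left _ _).trans hΔ) W G' hreg hTL
  have hs : 1 ≤ Δ / (8 * (2 * p - 1)) :=
    Nat.div_pos ((le_max_right _ _).trans hΔ) (by omega)
  have hsΔ : (2 * p - 1) * (Δ / (8 * (2 * p - 1))) ≤ Δ := by
    have h := Nat.div_mul_le_self Δ (8 * (2 * p - 1))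
    calc (2 * p - 1) * (Δ / (8 * (2 * p - 1)))
        ≤ (8 * (2 * p - 1)) * (Δ / (8 * (2 * p - 1))) := Nat.mul_le_mul_right _ (by omega)
      _ ≤ Δ := by rw [mul_comm]; exact h
  exact Fnl_restrict G G' φ hφ hGG Δ p (Fnl_key G' Δ p (2 * p - 1) _ hp rfl hs hsΔ hreg f S M
    hprop hS hinv hadj hdis hfx hc1 hc2)

end Pool.Agent.H65.GI
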