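/-
ROW Tri. The joint law of activations and survivals at a vertex.
PROOF. `pr_coord`: `pr (fun ω : I → κ => Q (ω i)) = pr Q` (the fibres of `ω ↦ ω i` have equal size; or count with `card_box` of `H67/HY/Box.lean`; or `ex_mul`-free: `Fintype.card (I → κ) = card κ * card ({j // j ≠ i} → κ)`).
Hence `pr (act ω v c) = pr (fun x : Fin b × Perm => x.1 = 0) = 1/b` (`act_pr`), same for dummies, and `pr (P (pm ω v)) = pr P` (`pm_pr`).
Colour block: `cb c = univ.filter (fun i : Ix V s n => ∃ z j, i = (z, some (c, j)))`; `act ω v c`, `sv C Y L ω c v` are `Loc` on `cb c` (`loc_act`, `loc_sv`); blocks of different colours are disjoint and do not contain `(v, none)`.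
`sv_pr`: `sv ω c v` is the conjunction of `¬ act ω z c` for the `nn` elements `z` of `(C c v).filter (z ∈ Y ∧ c ∈ L z)` and of `¬ dum ω v c i` for the `n - nn` indices `i : Fin n` with `nn + i < n` (here `nn ≤ n` is used);
these are conditions on `n` distinct coordinates, each with probability `1 - 1/b`: `pr_forall` over `J = (that filter).image (fun z => (z, some (c, 0))) ∪ (...).image (fun i => (v, some (c, i.succ)))`.
`svact_pr`: `act ω v c` is a condition on the coordinate `(v, some (c, 0))` which is not among those (because `v ∉ C c v`): `pr_and`.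
`law2`: `B ⊆ L v`. The event `Sv = B ∧ (∀ c ∈ B, ¬ act ω v c) ∧ P (pm ω v)` is `(∀ c ∈ L v, E c ω) ∧ P (pm ω v)` with `E c = sv ∧ ¬ act` for `c ∈ B`, `¬ sv` for `c ∉ B`. `pr_and` (sets `(L v).biUnion cb` and `{(v, none)}`), `pr_forall`, and
`∏ = (kap (1-1/b))^|B| (1-kap)^(|L v| - |B|)` (`Finset.prod_ite`, filters). `pr (¬ sv) = 1 - kap`. `law1` the same with `E c = act ∧ sv` for `c ∈ B` (probability `kap / b`), its negation for `c ∉ B`.
-/
import Pool.Agent.H65.GI.Cnd

set_option autoImplicit false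

namespace Pool.Agent.H65.GI

open Finset Classical

private theorem Tri_equiv {α β : Type} [Fintype α] [Fintype β] (e : α ≃ β) (P : β → Prop) :
    pr (fun a => P (e a)) = pr P := by
  rw [ex_ind, ex_ind P]
  unfold ex
  rw [Fintype.card_congr e]
  congr 1
  exact Fintype.sum_equiv e _ _ (fun _ => rfl)

private theorem Tri_fst {α β : Type} [Fintype α] [Fintype β] [Nonempty β] (P : α → Prop) :
    pr (fun x : α × β => P x.1) = pr P := by
  have hN : (Fintype.card β : ℝ) ≠ 0 := by
    have : 0 < Fintype.card β := Fintype.card_pos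
    exact_mod_cast this.ne'
  have key : ∀ f : α → ℝ, ∑ x : α × β, f x.1 = (Fintype.card β : ℝ) * ∑ a, f a := by
    intro f
    rw [Fintype.sum_prod_type]
    simp only [Finset.sum_const, Finset.card_univ, nsmul_eq_mul]
    rw [← Finset.mul_sum]
  have h : ∑ x : α × β, (if P x.1 then (1 : ℝ) else 0) =
      (Fintype.card β : ℝ) * ∑ a, (if P a then (1 : ℝ) else 0) :=
    key (fun a => if P a then (1 : ℝ) else 0)
  rw [ex_ind, ex_ind P]
  unfold ex
  rw [h, Fintype.card_prod, Nat.cast_mul, mul_comm (Fintype.card α : ℝ),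
    mul_div_mul_left _ _ hN]

private theorem Tri_snd {α β : Type} [Fintype α] [Fintype β] [Nonempty α] (P : β → Prop) :
    pr (fun x : α × β => P x.2) = pr P := by
  rw [← Tri_fst (β := α) P]
  exact Tri_equiv (Equiv.prodComm α β) (fun x : β × α => P x.1)

theorem pr_coord {I κ : Type} [Fintype I] [Fintype κ] [Nonempty κ] (i : I) (Q : κ → Prop) :
    pr (fun ω : I → κ => Q (ω i)) = pr Q := by
  rw [← Tri_fst (β := ({j // j ≠ i} → κ)) Q]
  exact Tri_equiv (Equiv.funSplitAt i κ) (fun x : κ × ({j // j ≠ i} → κ) => Q x.1)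

section
variable {V : Type} [Fintype V] {s n b : ℕ}

/-- the coordinates of the colour `c` -/
noncomputable def cb (V : Type) [Fintype V] {s : ℕ} (n : ℕ) (c : Fin s) : Finset (Ix V s n) :=
  univ.filter (fun i => ∃ z j, i = (z, some (c, j)))

omit [Fintype V] in
private theorem Tri_coord {I κ : Type} [Fintype I] [Fintype κ] [Nonempty κ] [F : Fintype (I → κ)]
    (i : I) (Q : κ → Prop) : pr (fun ω : I → κ => Q (ω i)) = pr Q := by
  have h := Subsingleton.elim F (Pi.instFintype : Fintype (I → κ))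
  subst h
  exact pr_coord i Q

omit [Fintype V] in
private theorem Tri_and {I κ : Type} [Fintype I] [Fintype κ] [Nonempty κ] [F : Fintype (I → κ)]
    (A B : (I → κ) → Prop) (S T : Finset I) (hA : Loc A S) (hB : Loc B T) (hd : Disjoint S T) :
    pr (fun ω => A ω ∧ B ω) = pr A * pr B := by
  have h := Subsingleton.elim F (Pi.instFintype : Fintype (I → κ))
  subst h
  exact pr_and A B S T hA hB hd

omit [Fintype V] in
private theorem Tri_forall {I κ ι : Type} [Fintype I] [Fintype κ] [Nonempty κ]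
    [F : Fintype (I → κ)] (J : Finset ι)
    (A : ι → (I → κ) → Prop) (S : ι → Finset I) (hS : ∀ i ∈ J, Loc (A i) (S i))
    (hd : ∀ i ∈ J, ∀ j ∈ J, i ≠ j → Disjoint (S i) (S j)) :
    pr (fun ω => ∀ i ∈ J, A i ω) = ∏ i ∈ J, pr (A i) := by
  have h := Subsingleton.elim F (Pi.instFintype : Fintype (I → κ))
  subst h
  exact pr_forall J A S hS hd

private theorem Tri_mem_cb (z : V) (c : Fin s) (j : Fin (n + 1)) :
    ((z, some (c, j)) : Ix V s n) ∈ cb V n c :=
  Finset.mem_filter.2 ⟨Finset.mem_univ _, z, j, rfl⟩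

private theorem Tri_act_eq {ω ω' : Ix V s n → Cn s b} {z : V} {c : Fin s}
    (h : ω (z, some (c, 0)) = ω' (z, some (c, 0))) : act ω z c = act ω' z c := by
  unfold act
  rw [h]

private theorem Tri_dum_eq {ω ω' : Ix V s n → Cn s b} {z : V} {c : Fin s} {i : Fin n}
    (h : ω (z, some (c, i.succ)) = ω' (z, some (c, i.succ))) : dum ω z c i = dum ω' z c i := by
  unfold dum
  rw [h]

private theorem Tri_loc_and {I κ : Type} {A B : (I → κ) → Prop} {S : Finset I} (hA : Loc A S)
    (hB : Loc B S) : Loc (fun ω => A ω ∧ B ω) S := by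
  intro ω ω' h
  have e1 : A ω = A ω' := hA ω ω' h
  have e2 : B ω = B ω' := hB ω ω' h
  simp only [e1, e2]

private theorem Tri_loc_not {I κ : Type} {A : (I → κ) → Prop} {S : Finset I} (hA : Loc A S) :
    Loc (fun ω => ¬ A ω) S := by
  intro ω ω' h
  have e1 : A ω = A ω' := hA ω ω' h
  simp only [e1]

theorem loc_act (v : V) (c : Fin s) : Loc (fun ω : Ix V s n → Cn s b => act ω v c) (cb V n c) := by
  intro ω ω' h
  exact Tri_act_eq (h _ (Tri_mem_cb v c 0))

theorem loc_sv (C : Fin s → V → Finset V) (Y : Finset V) (L : V → Finset (Fin s)) (v : V)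
    (c : Fin s) : Loc (fun ω : Ix V s n → Cn s b => sv C Y L ω c v) (cb V n c) := by
  intro ω ω' h
  have h1 : ∀ z, act ω z c = act ω' z c := fun z => Tri_act_eq (h _ (Tri_mem_cb z c 0))
  have h2 : ∀ i : Fin n, dum ω v c i = dum ω' v c i := fun i =>
    Tri_dum_eq (h _ (Tri_mem_cb v c i.succ))
  change sv C Y L ω c v = sv C Y L ω' c v
  unfold sv
  simp only [h1, h2]

theorem cb_disj (c d : Fin s) (h : c ≠ d) : Disjoint (cb V n c) (cb V n d) := by
  rw [Finset.disjoint_left]
  intro i hi hj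
  obtain ⟨_, z, j, e1⟩ := Finset.mem_filter.1 hi
  obtain ⟨_, z', j', e2⟩ := Finset.mem_filter.1 hj
  rw [e1] at e2
  have e3 := (Prod.mk.inj e2).2
  have e4 := Option.some.inj e3
  exact h (Prod.mk.inj e4).1

private theorem Tri_fin [NeZero b] : pr (fun x : Fin b => (x : ℕ) = 0) = 1 / (b : ℝ) := by
  unfold pr
  rw [Fintype.card_fin]
  congr 1
  rw [← Nat.cast_one]
  congr 1
  rw [Finset.card_eq_one]
  refine ⟨0, ?_⟩
  ext x
  simp only [Finset.mem_filter, Finset.mem_univ, true_and, Finset.mem_singleton]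
  exact Fin.val_eq_zero_iff

private theorem Tri_coin [NeZero b] (i : Ix V s n) :
    pr (fun ω : Ix V s n → Cn s b => ((ω i).1 : ℕ) = 0) = 1 / (b : ℝ) := by
  have : Nonempty (Cn s b) := ⟨(0, 1)⟩
  rw [← Tri_fin, ← Tri_fst (β := Equiv.Perm (Fin s)) (fun x : Fin b => (x : ℕ) = 0)]
  exact Tri_coord i (fun x : Cn s b => (x.1 : ℕ) = 0)

theorem act_pr [NeZero b] (v : V) (c : Fin s) :
    pr (fun ω : Ix V s n → Cn s b => act ω v c) = 1 / (b : ℝ) := by
  exact Tri_coin (v, some (c, 0))

theorem dum_pr [NeZero b] (v : V) (c : Fin s) (i : Fin n) :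
    pr (fun ω : Ix V s n → Cn s b => dum ω v c i) = 1 / (b : ℝ) := by
  exact Tri_coin (v, some (c, i.succ))

theorem pm_pr [NeZero b] (v : V) (P : Equiv.Perm (Fin s) → Prop) :
    pr (fun ω : Ix V s n → Cn s b => P (pm ω v)) = pr P := by
  have : Nonempty (Cn s b) := ⟨(0, 1)⟩
  have : Nonempty (Fin b) := ⟨0⟩
  rw [← Tri_snd (α := Fin b) P]
  exact Tri_coord (v, none) (fun x : Cn s b => P x.2)

private noncomputable def Tri_J (n : ℕ) (C : Fin s → V → Finset V) (Y : Finset V)
    (L : V → Finset (Fin s)) (v : V) (c : Fin s) : Finset (Ix V s n) :=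
  ((C c v).filter (fun z => z ∈ Y ∧ c ∈ L z)).image (fun z => (z, some (c, 0))) ∪
    (univ.filter (fun i : Fin n => nn C Y L c v + i.1 < n)).image
      (fun i => (v, some (c, i.succ)))

private theorem Tri_J_iff (C : Fin s → V → Finset V) (Y : Finset V) (L : V → Finset (Fin s))
    (v : V) (c : Fin s) (ω : Ix V s n → Cn s b) :
    sv C Y L ω c v ↔ ∀ i ∈ Tri_J n C Y L v c, ¬ ((ω i).1 : ℕ) = 0 := by
  constructor
  · rintro ⟨h1, h2⟩ i hi
    rcases Finset.mem_union.1 hi with hi | hi
    · obtain ⟨z, hz, rfl⟩ := Finset.mem_image.1 hi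
      obtain ⟨a1, a2, a3⟩ := Finset.mem_filter.1 hz
      exact h1 z a1 a2 a3
    · obtain ⟨k, hk, rfl⟩ := Finset.mem_image.1 hi
      exact h2 k (Finset.mem_filter.1 hk).2
  · intro h
    refine ⟨fun z a1 a2 a3 => ?_, fun k hk => ?_⟩
    · exact h _ (Finset.mem_union_left _ (Finset.mem_image.2
        ⟨z, Finset.mem_filter.2 ⟨a1, a2, a3⟩, rfl⟩))
    · exact h _ (Finset.mem_union_right _ (Finset.mem_image.2
        ⟨k, Finset.mem_filter.2 ⟨Finset.mem_univ _, hk⟩, rfl⟩))

private theorem Tri_J_card (C : Fin s → V → Finset V) (Y : Finset V) (L : V → Finset (Fin s))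
    (v : V) (c : Fin s) (hn : nn C Y L c v ≤ n) : (Tri_J n C Y L v c).card = n := by
  unfold Tri_J
  rw [Finset.card_union_of_disjoint, Finset.card_image_of_injective, Finset.card_image_of_injective]
  · have h1 : ((C c v).filter (fun z => z ∈ Y ∧ c ∈ L z)).card = nn C Y L c v := rfl
    rw [h1]
    have h2 : (univ.filter (fun i : Fin n => nn C Y L c v + i.1 < n)).card =
        n - nn C Y L c v := by
      rw [← Finset.card_map Fin.valEmbedding]
      have h3 : (univ.filter (fun i : Fin n => nn C Y L c v + i.1 < n)).map Fin.valEmbedding =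
          range (n - nn C Y L c v) := by
        ext x
        simp only [Finset.mem_map, Finset.mem_filter, Finset.mem_univ, true_and,
          Fin.valEmbedding_apply, Finset.mem_range]
        constructor
        · rintro ⟨i, hi, rfl⟩
          omega
        · intro hx
          exact ⟨⟨x, by omega⟩, by simp only; omega, rfl⟩
      rw [h3, Finset.card_range]
    rw [h2]
    omega
  · intro i j h
    have e3 := (Prod.mk.inj h).2
    have e4 := Option.some.inj e3
    exact Fin.succ_injective n (Prod.mk.inj e4).2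
  · intro i j h
    exact (Prod.mk.inj h).1
  · rw [Finset.disjoint_left]
    intro i hi hj
    obtain ⟨z, _, e1⟩ := Finset.mem_image.1 hi
    obtain ⟨k, _, e2⟩ := Finset.mem_image.1 hj
    rw [← e1] at e2
    have e3 := (Prod.mk.inj e2).2
    have e4 := Option.some.inj e3
    exact Fin.succ_ne_zero k (Prod.mk.inj e4).2

private theorem Tri_J_loc (C : Fin s → V → Finset V) (Y : Finset V) (L : V → Finset (Fin s))
    (v : V) (c : Fin s) :
    Loc (fun ω : Ix V s n → Cn s b => sv C Y L ω c v) (Tri_J n C Y L v c) := by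
  intro ω ω' h
  change sv C Y L ω c v = sv C Y L ω' c v
  rw [Tri_J_iff, Tri_J_iff]
  refine propext ⟨fun k i hi => ?_, fun k i hi => ?_⟩
  · rw [← h i hi]; exact k i hi
  · rw [h i hi]; exact k i hi

theorem sv_pr [NeZero b] (C : Fin s → V → Finset V) (Y : Finset V) (L : V → Finset (Fin s)) (v : V)
    (c : Fin s) (hn : nn C Y L c v ≤ n) :
    pr (fun ω : Ix V s n → Cn s b => sv C Y L ω c v) = kap b n := by
  have : Nonempty (Cn s b) := ⟨(0, 1)⟩
  have h1 : (fun ω : Ix V s n → Cn s b => sv C Y L ω c v) =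
      (fun ω => ∀ i ∈ Tri_J n C Y L v c, ¬ ((ω i).1 : ℕ) = 0) := by
    funext ω
    exact propext (Tri_J_iff C Y L v c ω)
  rw [h1]
  have h2 := Tri_forall (I := Ix V s n) (κ := Cn s b) (Tri_J n C Y L v c)
    (fun i ω => ¬ ((ω i).1 : ℕ) = 0) (fun i => {i})
    (by
      intro i _ ω ω' h
      have e := h i (Finset.mem_singleton_self i)
      simp only [e])
    (by
      intro i _ j _ hij
      rw [Finset.disjoint_singleton]
      exact hij)
  rw [h2]
  have h3 : ∀ i ∈ Tri_J n C Y L v c,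
      pr (fun ω : Ix V s n → Cn s b => ¬ ((ω i).1 : ℕ) = 0) = 1 - 1 / (b : ℝ) := by
    intro i _
    rw [pr_not, Tri_coin]
  rw [Finset.prod_congr rfl h3, Finset.prod_const, Tri_J_card C Y L v c hn]
  rfl

theorem svact_pr [NeZero b] (C : Fin s → V → Finset V) (hirr : ∀ c v, v ∉ C c v) (Y : Finset V)
    (L : V → Finset (Fin s)) (v : V) (c : Fin s) (hn : nn C Y L c v ≤ n) :
    pr (fun ω : Ix V s n → Cn s b => act ω v c ∧ sv C Y L ω c v) = kap b n / b ∧
    pr (fun ω : Ix V s n → Cn s b => ¬ act ω v c ∧ sv C Y L ω c v) =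
      kap b n * (1 - 1 / (b : ℝ)) := by
  have : Nonempty (Cn s b) := ⟨(0, 1)⟩
  have hd : Disjoint ({((v, some (c, 0)) : Ix V s n)} : Finset (Ix V s n))
      (Tri_J n C Y L v c) := by
    rw [Finset.disjoint_singleton_left]
    intro hi
    rcases Finset.mem_union.1 hi with hi | hi
    · obtain ⟨z, hz, e⟩ := Finset.mem_image.1 hi
      have e1 : z = v := (Prod.mk.inj e).1
      rw [e1] at hz
      exact hirr c v (Finset.mem_filter.1 hz).1
    · obtain ⟨k, _, e⟩ := Finset.mem_image.1 hi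
      have e3 := (Prod.mk.inj e).2
      have e4 := Option.some.inj e3
      exact Fin.succ_ne_zero k (Prod.mk.inj e4).2
  have hl : Loc (fun ω : Ix V s n → Cn s b => act ω v c) {((v, some (c, 0)) : Ix V s n)} :=
    fun ω ω' h => Tri_act_eq (h _ (Finset.mem_singleton_self _))
  constructor
  · rw [Tri_and _ _ _ _ hl (Tri_J_loc C Y L v c) hd, act_pr, sv_pr C Y L v c hn]
    ring
  · rw [Tri_and _ _ _ _ (Tri_loc_not hl) (Tri_J_loc C Y L v c) hd, pr_not, act_pr,
      sv_pr C Y L v c hn]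
    ring

private theorem Tri_prod [NeZero b] (A1 A0 : Fin s → (Ix V s n → Cn s b) → Prop)
    (h1 : ∀ c, Loc (A1 c) (cb V n c)) (h0 : ∀ c, Loc (A0 c) (cb V n c)) (M B : Finset (Fin s))
    (hB : B ⊆ M) (x y : ℝ) (hx : ∀ c ∈ B, pr (A1 c) = x)
    (hy : ∀ c ∈ M, c ∉ B → pr (A0 c) = y) (P : Equiv.Perm (Fin s) → Prop) (v : V) :
    pr (fun ω : Ix V s n → Cn s b =>
      (∀ c ∈ M, if c ∈ B then A1 c ω else A0 c ω) ∧ P (pm ω v)) =
      x ^ B.card * y ^ (M.card - B.card) * pr P := by
  have : Nonempty (Cn s b) := ⟨(0, 1)⟩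
  have hE : ∀ c, Loc (fun ω : Ix V s n → Cn s b => if c ∈ B then A1 c ω else A0 c ω)
      (cb V n c) := by
    intro c ω ω' h
    have e1 : A1 c ω = A1 c ω' := h1 c ω ω' h
    have e2 : A0 c ω = A0 c ω' := h0 c ω ω' h
    simp only [e1, e2]
  have hL1 : Loc (fun ω : Ix V s n → Cn s b => ∀ c ∈ M, if c ∈ B then A1 c ω else A0 c ω)
      (M.biUnion (cb V n)) := by
    intro ω ω' h
    refine propext ⟨fun k c hc => ?_, fun k c hc => ?_⟩
    · have e : (if c ∈ B then A1 c ω else A0 c ω) = (if c ∈ B then A1 c ω' else A0 c ω') :=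
        hE c ω ω' (fun i hi => h i (Finset.mem_biUnion.2 ⟨c, hc, hi⟩))
      rw [← e]; exact k c hc
    · have e : (if c ∈ B then A1 c ω else A0 c ω) = (if c ∈ B then A1 c ω' else A0 c ω') :=
        hE c ω ω' (fun i hi => h i (Finset.mem_biUnion.2 ⟨c, hc, hi⟩))
      rw [e]; exact k c hc
  have hL2 : Loc (fun ω : Ix V s n → Cn s b => P (pm ω v)) {((v, none) : Ix V s n)} := by
    intro ω ω' h
    have e := h (v, none) (Finset.mem_singleton_self _)
    simp only [pm, e]
  have hd : Disjoint (M.biUnion (cb V n)) ({((v, none) : Ix V s n)} : Finset (Ix V s n)) := by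
    rw [Finset.disjoint_singleton_right]
    intro hi
    obtain ⟨c, _, hc⟩ := Finset.mem_biUnion.1 hi
    obtain ⟨_, z, j, e⟩ := Finset.mem_filter.1 hc
    exact absurd (Prod.mk.inj e).2 (Option.some_ne_none _).symm
  rw [Tri_and _ _ _ _ hL1 hL2 hd, pm_pr,
    Tri_forall M (fun c (ω : Ix V s n → Cn s b) => if c ∈ B then A1 c ω else A0 c ω)
      (cb V n) (fun c _ => hE c) (fun c _ d _ hcd => cb_disj c d hcd)]
  have h3 : ∀ c ∈ M, pr (fun ω : Ix V s n → Cn s b => if c ∈ B then A1 c ω else A0 c ω) =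
      if c ∈ B then x else y := by
    intro c hc
    by_cases h : c ∈ B
    · simp only [if_pos h]
      exact hx c h
    · simp only [if_neg h]
      exact hy c hc h
  rw [Finset.prod_congr rfl h3, Finset.prod_ite, Finset.prod_const, Finset.prod_const]
  have h4 : (M.filter (fun c => c ∈ B)) = B := by
    ext c
    rw [Finset.mem_filter]
    exact ⟨fun h => h.2, fun h => ⟨hB h, h⟩⟩
  have h5 : (M.filter (fun c => c ∉ B)).card = M.card - B.card := by
    rw [← Finset.card_sdiff_of_subset hB]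
    congr 1
    ext c
    rw [Finset.mem_filter, Finset.mem_sdiff]
  rw [h4, h5]

theorem law2 [NeZero b] (C : Fin s → V → Finset V) (hirr : ∀ c v, v ∉ C c v) (Y : Finset V)
    (L : V → Finset (Fin s)) (v : V) (hn : ∀ c ∈ L v, nn C Y L c v ≤ n) (B : Finset (Fin s))
    (hB : B ⊆ L v) (P : Equiv.Perm (Fin s) → Prop) :
    pr (fun ω : Ix V s n → Cn s b => Sv C Y L ω v = B ∧ (∀ c ∈ B, ¬ act ω v c) ∧ P (pm ω v)) =
      (kap b n * (1 - 1 / (b : ℝ))) ^ B.card * (1 - kap b n) ^ ((L v).card - B.card) * pr P := by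
  have hiff : (fun ω : Ix V s n → Cn s b =>
      Sv C Y L ω v = B ∧ (∀ c ∈ B, ¬ act ω v c) ∧ P (pm ω v)) =
      (fun ω => (∀ c ∈ L v, if c ∈ B then (¬ act ω v c ∧ sv C Y L ω c v)
        else ¬ sv C Y L ω c v) ∧ P (pm ω v)) := by
    funext ω
    refine propext ⟨?_, ?_⟩
    · rintro ⟨h1, h2, h3⟩
      refine ⟨fun c hc => ?_, h3⟩
      by_cases h : c ∈ B
      · rw [if_pos h]
        refine ⟨h2 c h, ?_⟩
        rw [← h1] at h
        exact (Finset.mem_filter.1 h).2
      · rw [if_neg h]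
        intro hs
        exact h (h1 ▸ Finset.mem_filter.2 ⟨hc, hs⟩)
    · rintro ⟨h1, h3⟩
      refine ⟨?_, fun c hc => ?_, h3⟩
      · ext c
        constructor
        · intro h
          obtain ⟨a1, a2⟩ := Finset.mem_filter.1 h
          by_contra hcB
          have h4 := h1 c a1
          rw [if_neg hcB] at h4
          exact h4 a2
        · intro h
          have h4 := h1 c (hB h)
          rw [if_pos h] at h4
          exact Finset.mem_filter.2 ⟨hB h, h4.2⟩
      · have h4 := h1 c (hB hc)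
        rw [if_pos hc] at h4
        exact h4.1
  have : Nonempty (Cn s b) := ⟨(0, 1)⟩
  rw [hiff]
  exact Tri_prod (fun c ω => ¬ act ω v c ∧ sv C Y L ω c v) (fun c ω => ¬ sv C Y L ω c v)
    (fun c => Tri_loc_and (Tri_loc_not (loc_act v c)) (loc_sv C Y L v c))
    (fun c => Tri_loc_not (loc_sv C Y L v c)) (L v) B hB _ _
    (fun c hc => (svact_pr C hirr Y L v c (hn c (hB hc))).2)
    (fun c hc _ => by rw [pr_not, sv_pr C Y L v c (hn c hc)]) P v

theorem law1 [NeZero b] (C : Fin s → V → Finset V) (hirr : ∀ c v, v ∉ C c v) (Y : Finset V)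
    (L : V → Finset (Fin s)) (v : V) (hn : ∀ c ∈ L v, nn C Y L c v ≤ n) (B : Finset (Fin s))
    (hB : B ⊆ L v) (P : Equiv.Perm (Fin s) → Prop) :
    pr (fun ω : Ix V s n → Cn s b =>
      (Sv C Y L ω v).filter (fun c => act ω v c) = B ∧ P (pm ω v)) =
      (kap b n / b) ^ B.card * (1 - kap b n / b) ^ ((L v).card - B.card) * pr P := by
  have hiff : (fun ω : Ix V s n → Cn s b =>
      (Sv C Y L ω v).filter (fun c => act ω v c) = B ∧ P (pm ω v)) =
      (fun ω => (∀ c ∈ L v, if c ∈ B then (act ω v c ∧ sv C Y L ω c v)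
        else ¬ (act ω v c ∧ sv C Y L ω c v)) ∧ P (pm ω v)) := by
    funext ω
    refine propext ⟨?_, ?_⟩
    · rintro ⟨h1, h3⟩
      refine ⟨fun c hc => ?_, h3⟩
      by_cases h : c ∈ B
      · rw [if_pos h]
        rw [← h1] at h
        obtain ⟨a1, a2⟩ := Finset.mem_filter.1 h
        exact ⟨a2, (Finset.mem_filter.1 a1).2⟩
      · rw [if_neg h]
        rintro ⟨ha, hs⟩
        exact h (h1 ▸ Finset.mem_filter.2 ⟨Finset.mem_filter.2 ⟨hc, hs⟩, ha⟩)
    · rintro ⟨h1, h3⟩
      refine ⟨?_, h3⟩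
      ext c
      constructor
      · intro h
        obtain ⟨a1, a2⟩ := Finset.mem_filter.1 h
        obtain ⟨a3, a4⟩ := Finset.mem_filter.1 a1
        by_contra hcB
        have h4 := h1 c a3
        rw [if_neg hcB] at h4
        exact h4 ⟨a2, a4⟩
      · intro h
        have h4 := h1 c (hB h)
        rw [if_pos h] at h4
        exact Finset.mem_filter.2 ⟨Finset.mem_filter.2 ⟨hB h, h4.2⟩, h4.1⟩
  have : Nonempty (Cn s b) := ⟨(0, 1)⟩
  rw [hiff]
  exact Tri_prod (fun c ω => act ω v c ∧ sv C Y L ω c v)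
    (fun c ω => ¬ (act ω v c ∧ sv C Y L ω c v))
    (fun c => Tri_loc_and (loc_act v c) (loc_sv C Y L v c))
    (fun c => Tri_loc_not (Tri_loc_and (loc_act v c) (loc_sv C Y L v c))) (L v) B hB _ _
    (fun c hc => (svact_pr C hirr Y L v c (hn c (hB hc))).1)
    (fun c hc _ => by rw [pr_not, (svact_pr C hirr Y L v c (hn c hc)).1]) P v

end

end Pool.Agent.H65.GI
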