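/-
ROW Fit. From a fractional matching to a matching.
PROOF. Let `A = {v // side v = true ∧ ∑ u, wt v u = 1}`, `B = {v // side v = false}`: `hall_dummy` (H67/HY/HM) with `E a b := wt a b ≠ 0`, the weights `wt`, `ε = 0`, `own = id`-like (any map, e.g. `own : A → Unit`), `D = 0`: rows: for `a ∈ A` the sum over `B` is the whole sum (`wt a v = 0` if `side v = true`, `hb`) `= 1`; columns `≤ 1` (`hs`, `h1`).
It gives an injective choice `m1 : A → B` (never `none`, by the last clause with `D = 0`). In the same way `m2` for `A' = {v // side v = false ∧ ∑ = 1}` into `B' = {v // side v = true}`. `mendelsohn_dulmage` on the types `{v // side v = true}`, `{v // side v = false}` (extend `m1`, `m2` by `none`): a partial injection `m` with support in `wt ≠ 0` that covers all `v` with sum `1` on both sides.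
Involution: `μ v = b` if `side v = true` and `m v = some b`; `μ v = a` if `side v = false` and `m a = some v` (unique `a`); otherwise `μ v = v`.
-/
import Pool.Agent.H65.GI.Defs
import Pool.Agent.H67.HY.HM

set_option autoImplicit false

namespace Pool.Agent.H65.GI

open Finset Classical

theorem Fit_half {V : Type} [Fintype V] (side : V → Bool) (wt : V → V → ℝ)
    (h0 : ∀ u v, 0 ≤ wt u v) (hs : ∀ u v, wt u v = wt v u)
    (h1 : ∀ u, ∑ v, wt u v ≤ 1) (c : Bool) :
    ∃ m : V → Option V, (∀ a b, m a = some b → side a = c ∧ wt a b ≠ 0) ∧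
      (∀ a a' b, m a = some b → m a' = some b → a = a') ∧
      ∀ a, side a = c → ∑ u, wt a u = 1 → m a ≠ none := by
  obtain ⟨m, hm1, hm2, hm3⟩ := Pool.Agent.H67.HY.hall_dummy
    (A := {v : V // side v = c ∧ ∑ u, wt v u = 1}) (B := V) (V := Unit)
    (fun a b => wt a.1 b ≠ 0) (fun a b => wt a.1 b) (fun a b => h0 _ _)
    (fun a b h => not_not.1 h) 0 le_rfl
    (fun a => by rw [sub_zero]; exact a.2.2.ge)
    (fun b => by
      have e1 : ∑ a : {v : V // side v = c ∧ ∑ u, wt v u = 1}, wt a.1 b =
          ∑ a ∈ univ.filter (fun v => side v = c ∧ ∑ u, wt v u = 1), wt a b := by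
        rw [← Finset.sum_subtype_eq_sum_filter (s := univ) (f := fun a => wt a b)
          (p := fun v => side v = c ∧ ∑ u, wt v u = 1)]
        apply Finset.sum_congr
        · ext x
          simp
        · intro x _
          rfl
      rw [e1]
      refine le_trans (Finset.sum_le_sum_of_subset_of_nonneg (Finset.filter_subset _ _)
        (fun x _ _ => h0 _ _)) ?_
      rw [Finset.sum_congr rfl (fun x _ => hs x b)]
      exact h1 b)
    (fun _ => ()) (fun _ => 0) (fun v => by rw [zero_mul]; exact_mod_cast le_rfl)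
  have hne : ∀ a, m a ≠ none := by
    intro a ha
    have h2 := hm3 ()
    rw [Nat.le_zero, Finset.card_eq_zero] at h2
    exact Finset.eq_empty_iff_forall_notMem.1 h2 a (by simp [ha])
  refine ⟨fun a => if h : side a = c ∧ ∑ u, wt a u = 1 then m ⟨a, h⟩ else none, ?_, ?_, ?_⟩
  · intro a b h
    by_cases ha : side a = c ∧ ∑ u, wt a u = 1
    · simp only [dif_pos ha] at h
      exact ⟨ha.1, hm1 _ _ h⟩
    · simp only [dif_neg ha] at h
      exact absurd h (by simp)
  · intro a a' b h h'
    by_cases ha : side a = c ∧ ∑ u, wt a u = 1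
    · by_cases ha' : side a' = c ∧ ∑ u, wt a' u = 1
      · simp only [dif_pos ha] at h
        simp only [dif_pos ha'] at h'
        exact congrArg Subtype.val (hm2 _ _ _ h h')
      · simp only [dif_neg ha'] at h'
        exact absurd h' (by simp)
    · simp only [dif_neg ha] at h
      exact absurd h (by simp)
  · intro a ha1 ha2
    have ha : side a = c ∧ ∑ u, wt a u = 1 := ⟨ha1, ha2⟩
    simp only [dif_pos ha]
    exact hne _

theorem frac_match {V : Type} [Fintype V] (side : V → Bool) (wt : V → V → ℝ)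
    (h0 : ∀ u v, 0 ≤ wt u v) (hs : ∀ u v, wt u v = wt v u)
    (hb : ∀ u v, wt u v ≠ 0 → side u ≠ side v) (h1 : ∀ u, ∑ v, wt u v ≤ 1) :
    ∃ m : V → V, (∀ v, m (m v) = v) ∧ (∀ v, m v ≠ v → wt v (m v) ≠ 0) ∧
      ∀ v, ∑ u, wt v u = 1 → m v ≠ v := by
  obtain ⟨m1, a1, a2, a3⟩ := Fit_half side wt h0 hs h1 true
  obtain ⟨m2, b1, b2, b3⟩ := Fit_half side wt h0 hs h1 false
  obtain ⟨m, c1, c2, c3, c4⟩ := Pool.Agent.H67.HY.mendelsohn_dulmage
    (fun a b : V => side a = true ∧ side b = false ∧ wt a b ≠ 0) m1 m2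
    (fun a b h => by
      obtain ⟨h2, h3⟩ := a1 a b h
      have h4 := hb a b h3
      rw [h2] at h4
      refine ⟨h2, ?_, h3⟩
      cases h5 : side b
      · rfl
      · rw [h5] at h4
        exact absurd rfl h4)
    a2
    (fun b a h => by
      obtain ⟨h2, h3⟩ := b1 b a h
      have h4 := hb b a h3
      rw [h2] at h4
      refine ⟨?_, h2, ?_⟩
      · cases h5 : side a
        · rw [h5] at h4
          exact absurd rfl h4
        · rfl
      · rw [hs a b]
        exact h3)
    b2
  have hne : ∀ v w : V, side v = true → side w = false → v ≠ w := by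
    intro v w hv hw h
    rw [h, hw] at hv
    exact absurd hv (by simp)
  let μ : V → V := fun v => if side v = true then (m v).getD v
    else if h : ∃ a, m a = some v then h.choose else v
  have μ1 : ∀ v b, m v = some b → μ v = b ∧ μ b = v := by
    intro v b h
    obtain ⟨h2, h3, h4⟩ := c1 v b h
    constructor
    · simp only [μ, if_pos h2, h, Option.getD_some]
    · have h5 : ∃ a, m a = some b := ⟨v, h⟩
      have h6 : ¬ side b = true := by rw [h3]; simp
      simp only [μ, if_neg h6, dif_pos h5]
      exact c2 _ _ _ h5.choose_spec h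
  have μ2 : ∀ v, m v = none → (¬ ∃ a, m a = some v) → μ v = v := by
    intro v h h'
    by_cases hv : side v = true
    · simp only [μ, if_pos hv, h, Option.getD_none]
    · simp only [μ, if_neg hv, dif_neg h']
  have cases3 : ∀ v, (∃ b, m v = some b) ∨ (∃ a, m a = some v) ∨
      (m v = none ∧ ¬ ∃ a, m a = some v) := by
    intro v
    by_cases h : ∃ b, m v = some b
    · exact Or.inl h
    · by_cases h' : ∃ a, m a = some v
      · exact Or.inr (Or.inl h')
      · refine Or.inr (Or.inr ⟨?_, h'⟩)
        by_contra h2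
        exact h (Option.ne_none_iff_exists'.1 h2)
  refine ⟨μ, ?_, ?_, ?_⟩
  · intro v
    rcases cases3 v with ⟨b, h⟩ | ⟨a, h⟩ | ⟨h, h'⟩
    · rw [(μ1 v b h).1, (μ1 v b h).2]
    · rw [(μ1 a v h).2, (μ1 a v h).1]
    · rw [μ2 v h h', μ2 v h h']
  · intro v hv
    rcases cases3 v with ⟨b, h⟩ | ⟨a, h⟩ | ⟨h, h'⟩
    · rw [(μ1 v b h).1]
      exact (c1 v b h).2.2
    · rw [(μ1 a v h).2, hs]
      exact (c1 a v h).2.2
    · exact absurd (μ2 v h h') hv
  · intro v hv
    cases hsv : side v
    · obtain ⟨a, ha⟩ := c4 v (b3 v hsv hv)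
      rw [(μ1 a v ha).2]
      exact hne a v (c1 a v ha).1 hsv
    · obtain ⟨b, hb'⟩ := Option.ne_none_iff_exists'.1 (c3 v (a3 v hsv hv))
      rw [(μ1 v b hb').1]
      exact (hne v b hsv (c1 v b hb').2.1).symm

end Pool.Agent.H65.GI
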