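/-
ROW Hof. Hoeffding's inequality for functions of disjoint coordinate sets, also truncated.
PROOF. (1) `hoef_one`: for every `t > 0`, with `g i = f i - ex (f i)`: `|g i| ≤ 2 c`, `ex (g i) = 0`. For `|x| ≤ 2 c`: `exp (lam x) ≤ cosh (2 c lam) + (x / (2 c)) sinh (2 c lam)`
(convexity; see `Hoe_cvx` in `Pool/Agent/H71/MA/Hoe.lean`, copy it), so `ex (exp (lam g i)) ≤ cosh (2 c lam) ≤ exp (2 c^2 lam^2)` (`Real.cosh_le_exp_half_sq`). By `ex_prod` (for `fun ω => exp (lam * g i ω)`, `Loc` on `S i`)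
`ex (exp (lam ∑ g i)) ≤ exp (2 n c^2 lam^2)` for `#J ≤ n`. Markov: `pr (t < ∑ g i) ≤ exp (2 n c^2 lam^2 - lam t)`; `lam = t / (4 n c^2)`: `exp (-(t^2 / (8 n c^2)))`. The same for `-f`; union.
(`c = 0` : then all `g i = 0`, the left side is `pr (t < 0) = 0`.) `n ≥ 1` because of the hypothesis.
(2) `hoefT`: `F i ω = if |f i ω| ≤ c then f i ω else 0`; `Loc`, `|F i| ≤ c`; `|ex (f i) - ex (F i)| ≤ M pr (|f i| > c) ≤ M p`; if no `|f i ω| > c` (union bound `n p`) then `∑ f i = ∑ F i`, so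
`|∑ f i - ∑ ex (f i)| ≤ |∑ F i - ∑ ex (F i)| + n M p`.
-/
import Pool.Agent.H65.GI.Cnd

set_option autoImplicit false

namespace Pool.Agent.H65.GI

open Finset Classical

theorem Hof_cvx (lam r x : ℝ) (hr : 0 < r) (hx : |x| ≤ r) :
    Real.exp (lam * x) ≤ Real.cosh (lam * r) + (x / r) * Real.sinh (lam * r) := by
  have h1 : x / r ≤ 1 := by rw [div_le_one hr]; exact (abs_le.1 hx).2
  have h2 : -1 ≤ x / r := by rw [le_div_iff₀ hr]; linarith [(abs_le.1 hx).1]
  have h3 := convexOn_exp.2 (Set.mem_univ (lam * r)) (Set.mem_univ (-(lam * r)))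
    (by linarith : (0 : ℝ) ≤ (1 + x / r) / 2) (by linarith : (0 : ℝ) ≤ (1 - x / r) / 2) (by ring)
  rw [smul_eq_mul, smul_eq_mul, smul_eq_mul, smul_eq_mul] at h3
  have h4 : (1 + x / r) / 2 * (lam * r) + (1 - x / r) / 2 * (-(lam * r)) = lam * x := by
    field_simp
    ring
  rw [h4] at h3
  refine h3.trans (le_of_eq ?_)
  rw [Real.cosh_eq, Real.sinh_eq]
  ring

theorem Hof_one {I κ ι : Type} [Fintype I] [Fintype κ] [Nonempty κ] (J : Finset ι)
    (g : ι → (I → κ) → ℝ) (S : ι → Finset I) (hS : ∀ i ∈ J, Loc (g i) (S i))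
    (hd : ∀ i ∈ J, ∀ j ∈ J, i ≠ j → Disjoint (S i) (S j)) (n : ℕ) (hn1 : 1 ≤ n) (hn : J.card ≤ n)
    (r : ℝ) (hr : 0 < r) (hg0 : ∀ i ∈ J, ex (g i) = 0) (hg : ∀ i ∈ J, ∀ ω, |g i ω| ≤ r)
    (t : ℝ) (ht : 0 < t) :
    pr (fun ω => t < ∑ i ∈ J, g i ω) ≤ Real.exp (-(t ^ 2 / (2 * n * r ^ 2))) := by
  have hn' : (0 : ℝ) < n := by exact_mod_cast hn1
  obtain ⟨lam, hlam⟩ : ∃ lam : ℝ, lam = t / (n * r ^ 2) := ⟨_, rfl⟩
  have hl0 : 0 < lam := by rw [hlam]; positivity
  have h1 : ∀ i ∈ J, ex (fun ω => Real.exp (lam * g i ω)) ≤ Real.exp ((lam * r) ^ 2 / 2) := by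
    intro i hi
    have h2 : ex (fun ω => Real.exp (lam * g i ω)) ≤
        ex (fun ω => Real.cosh (lam * r) + (Real.sinh (lam * r) / r) * g i ω) := by
      apply ex_mono
      intro ω
      have := Hof_cvx lam r (g i ω) hr (hg i hi ω)
      have h3 : g i ω / r * Real.sinh (lam * r) = Real.sinh (lam * r) / r * g i ω := by ring
      rw [h3] at this
      exact this
    have h3 : ex (fun ω => Real.cosh (lam * r) + (Real.sinh (lam * r) / r) * g i ω) =
        Real.cosh (lam * r) := by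
      rw [ex_add (fun _ => Real.cosh (lam * r)) (fun ω => (Real.sinh (lam * r) / r) * g i ω),
        ex_const, ex_smul, hg0 i hi]
      ring
    rw [h3] at h2
    exact h2.trans (Real.cosh_le_exp_half_sq _)
  have h2 : ex (fun ω => Real.exp (lam * ∑ i ∈ J, g i ω)) =
      ∏ i ∈ J, ex (fun ω => Real.exp (lam * g i ω)) := by
    rw [← ex_prod J (fun i ω => Real.exp (lam * g i ω)) S
      (fun i hi ω ω' h => by
        have := hS i hi ω ω' h
        show Real.exp (lam * g i ω) = Real.exp (lam * g i ω')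
        rw [this]) hd]
    congr 1
    funext ω
    rw [Finset.mul_sum, Real.exp_sum]
  have h3 : ∏ i ∈ J, ex (fun ω => Real.exp (lam * g i ω)) ≤
      Real.exp (n * ((lam * r) ^ 2 / 2)) := by
    refine (Finset.prod_le_prod (g := fun _ => Real.exp ((lam * r) ^ 2 / 2)) (fun i _ => ?_)
      h1).trans ?_
    · have h4 := ex_mono (Ω := I → κ) (f := fun _ => (0 : ℝ))
        (g := fun ω => Real.exp (lam * g i ω)) (fun ω => (Real.exp_pos _).le)
      rwa [ex_const] at h4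
    · rw [Finset.prod_const, ← Real.exp_nat_mul, Real.exp_le_exp]
      have h6 : (J.card : ℝ) ≤ n := by exact_mod_cast hn
      exact mul_le_mul_of_nonneg_right h6 (by positivity)
  have h4 : Real.exp (lam * t) * pr (fun ω => t < ∑ i ∈ J, g i ω) ≤
      ex (fun ω => Real.exp (lam * ∑ i ∈ J, g i ω)) := by
    rw [ex_ind, ← ex_smul]
    apply ex_mono
    intro ω
    by_cases h : t < ∑ i ∈ J, g i ω
    · rw [if_pos h, mul_one, Real.exp_le_exp]
      exact mul_le_mul_of_nonneg_left h.le hl0.le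
    · rw [if_neg h, mul_zero]
      exact (Real.exp_pos _).le
  rw [h2] at h4
  have h5 := h4.trans h3
  have h6 : pr (fun ω => t < ∑ i ∈ J, g i ω) ≤
      Real.exp (-(lam * t)) * Real.exp (n * ((lam * r) ^ 2 / 2)) := by
    have h7 := mul_le_mul_of_nonneg_left h5 (Real.exp_pos (-(lam * t))).le
    rwa [← mul_assoc, ← Real.exp_add, neg_add_cancel, Real.exp_zero, one_mul] at h7
  refine h6.trans (le_of_eq ?_)
  rw [← Real.exp_add]
  congr 1
  rw [hlam]
  field_simp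
  ring

theorem hoef {I κ ι : Type} [Fintype I] [Fintype κ] [Nonempty κ] (J : Finset ι)
    (f : ι → (I → κ) → ℝ) (S : ι → Finset I) (hS : ∀ i ∈ J, Loc (f i) (S i))
    (hd : ∀ i ∈ J, ∀ j ∈ J, i ≠ j → Disjoint (S i) (S j)) (n : ℕ) (hn1 : 1 ≤ n) (hn : J.card ≤ n)
    (c : ℝ) (hc : 0 ≤ c) (hf : ∀ i ∈ J, ∀ ω, |f i ω| ≤ c) (t : ℝ) (ht : 0 < t) :
    pr (fun ω => t < |∑ i ∈ J, f i ω - ∑ i ∈ J, ex (f i)|) ≤
      2 * Real.exp (-(t ^ 2 / (8 * n * c ^ 2))) := by
  rcases hc.eq_or_lt with h0 | h0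
  · subst h0
    have h1 : 2 * Real.exp (-(t ^ 2 / (8 * n * (0 : ℝ) ^ 2))) = 2 := by simp
    rw [h1]
    exact (pr_le_one _).trans (by norm_num)
  · have hg0 : ∀ i, ex (fun ω => f i ω - ex (f i)) = 0 := by
      intro i
      have h1 := ex_add (f i) (fun _ : I → κ => -ex (f i))
      rw [ex_const] at h1
      have h2 : (fun ω => f i ω - ex (f i)) = fun ω => f i ω + -ex (f i) := by
        funext ω; ring
      rw [h2, h1]; ring
    have hgr : ∀ i ∈ J, ∀ ω, |f i ω - ex (f i)| ≤ 2 * c := by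
      intro i hi ω
      have h1 : |ex (f i)| ≤ c := by
        refine (ex_abs (f i)).trans ?_
        refine (ex_mono (g := fun _ => c) (fun ω => hf i hi ω)).trans ?_
        rw [ex_const]
      have h2 := hf i hi ω
      calc |f i ω - ex (f i)| ≤ |f i ω| + |ex (f i)| := abs_sub _ _
        _ ≤ 2 * c := by linarith
    have hgl : ∀ i ∈ J, Loc (fun ω => f i ω - ex (f i)) (S i) := by
      intro i hi ω ω' h
      have := hS i hi ω ω' h
      show f i ω - ex (f i) = f i ω' - ex (f i)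
      rw [this]
    have hA := Hof_one J (fun i ω => f i ω - ex (f i)) S hgl hd n hn1 hn (2 * c) (by linarith)
      (fun i _ => hg0 i) hgr t ht
    have hB := Hof_one J (fun i ω => -(f i ω - ex (f i))) S
      (fun i hi ω ω' h => by
        have := hgl i hi ω ω' h
        show -(f i ω - ex (f i)) = -(f i ω' - ex (f i))
        exact congrArg Neg.neg this) hd n hn1 hn (2 * c) (by linarith)
      (fun i _ => by
        have h1 := ex_smul (-1) (fun ω => f i ω - ex (f i))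
        rw [hg0 i] at h1
        have h2 : (fun ω => -(f i ω - ex (f i))) = fun ω => (-1) * (f i ω - ex (f i)) := by
          funext ω; ring
        rw [h2, h1]; ring)
      (fun i hi ω => by rw [abs_neg]; exact hgr i hi ω) t ht
    have hk : -(t ^ 2 / (2 * n * (2 * c) ^ 2)) = -(t ^ 2 / (8 * n * c ^ 2)) := by
      congr 2; ring
    rw [hk] at hA hB
    have hC : pr (fun ω => t < |∑ i ∈ J, f i ω - ∑ i ∈ J, ex (f i)|) ≤
        pr (fun ω => (t < ∑ i ∈ J, (f i ω - ex (f i))) ∨ t < ∑ i ∈ J, -(f i ω - ex (f i))) := by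
      apply pr_mono
      intro ω h
      rw [Finset.sum_neg_distrib, Finset.sum_sub_distrib]
      exact lt_abs.1 h
    refine (hC.trans (pr_or _ _)).trans ?_
    linarith

theorem hoefT {I κ ι : Type} [Fintype I] [Fintype κ] [Nonempty κ] (J : Finset ι)
    (f : ι → (I → κ) → ℝ) (S : ι → Finset I) (hS : ∀ i ∈ J, Loc (f i) (S i))
    (hd : ∀ i ∈ J, ∀ j ∈ J, i ≠ j → Disjoint (S i) (S j)) (n : ℕ) (hn1 : 1 ≤ n) (hn : J.card ≤ n)
    (c M p : ℝ) (hc : 0 ≤ c) (hM : 0 ≤ M) (hf : ∀ i ∈ J, ∀ ω, |f i ω| ≤ M)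
    (hp0 : 0 ≤ p) (hp : ∀ i ∈ J, pr (fun ω => c < |f i ω|) ≤ p) (t : ℝ) (ht : 0 < t) :
    pr (fun ω => t + n * (M * p) < |∑ i ∈ J, f i ω - ∑ i ∈ J, ex (f i)|) ≤
      2 * Real.exp (-(t ^ 2 / (8 * n * c ^ 2))) + n * p := by
  obtain ⟨F, hF⟩ : ∃ F : ι → (I → κ) → ℝ, F = fun i ω => if |f i ω| ≤ c then f i ω else 0 :=
    ⟨_, rfl⟩
  have hFl : ∀ i ∈ J, Loc (F i) (S i) := by
    intro i hi ω ω' h
    have h1 := hS i hi ω ω' h
    rw [hF]
    show (if |f i ω| ≤ c then f i ω else 0) = (if |f i ω'| ≤ c then f i ω' else 0)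
    rw [h1]
  have hFc : ∀ i ∈ J, ∀ ω, |F i ω| ≤ c := by
    intro i _ ω
    rw [hF]
    show |(if |f i ω| ≤ c then f i ω else 0)| ≤ c
    split_ifs with h
    · exact h
    · rw [abs_zero]; exact hc
  have hdiff : ∀ i ∈ J, |ex (f i) - ex (F i)| ≤ M * p := by
    intro i hi
    have h1 : ex (f i) - ex (F i) = ex (fun ω => f i ω + -1 * F i ω) := by
      rw [ex_add (f i) (fun ω => -1 * F i ω), ex_smul]; ring
    rw [h1]
    refine (ex_abs _).trans ?_
    refine (ex_mono (g := fun ω => M * (if c < |f i ω| then (1 : ℝ) else 0)) ?_).trans ?_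
    · intro ω
      show |f i ω + -1 * F i ω| ≤ M * (if c < |f i ω| then (1 : ℝ) else 0)
      by_cases h : |f i ω| ≤ c
      · have h2 : F i ω = f i ω := by rw [hF]; exact if_pos h
        rw [h2, if_neg (not_lt.2 h)]
        simp
      · have h2 : F i ω = 0 := by rw [hF]; exact if_neg h
        rw [h2, if_pos (not_le.1 h)]
        simpa using hf i hi ω
    · rw [ex_smul, ← ex_ind]
      exact mul_le_mul_of_nonneg_left (hp i hi) hM
  have hJn : (J.card : ℝ) ≤ n := by exact_mod_cast hn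
  have hsum : |∑ i ∈ J, ex (F i) - ∑ i ∈ J, ex (f i)| ≤ n * (M * p) := by
    rw [← Finset.sum_sub_distrib]
    refine (Finset.abs_sum_le_sum_abs _ _).trans ?_
    refine (Finset.sum_le_sum (g := fun _ => M * p) fun i hi => ?_).trans ?_
    · rw [abs_sub_comm]; exact hdiff i hi
    · rw [Finset.sum_const, nsmul_eq_mul]
      exact mul_le_mul_of_nonneg_right hJn (mul_nonneg hM hp0)
  have h1 : pr (fun ω => t + n * (M * p) < |∑ i ∈ J, f i ω - ∑ i ∈ J, ex (f i)|) ≤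
      pr (fun ω => (t < |∑ i ∈ J, F i ω - ∑ i ∈ J, ex (F i)|) ∨ ∃ i ∈ J, c < |f i ω|) := by
    apply pr_mono
    intro ω h
    by_contra h2
    rw [not_or] at h2
    obtain ⟨h3, h4⟩ := h2
    have h5 : ∀ i ∈ J, F i ω = f i ω := by
      intro i hi
      rw [hF]
      exact if_pos (not_lt.1 fun h6 => h4 ⟨i, hi, h6⟩)
    have h6 : ∑ i ∈ J, f i ω = ∑ i ∈ J, F i ω := Finset.sum_congr rfl fun i hi => (h5 i hi).symm
    have h7 : ∑ i ∈ J, f i ω - ∑ i ∈ J, ex (f i) =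
        (∑ i ∈ J, F i ω - ∑ i ∈ J, ex (F i)) + (∑ i ∈ J, ex (F i) - ∑ i ∈ J, ex (f i)) := by
      rw [h6]; ring
    have h8 := abs_add_le (∑ i ∈ J, F i ω - ∑ i ∈ J, ex (F i))
      (∑ i ∈ J, ex (F i) - ∑ i ∈ J, ex (f i))
    rw [← h7] at h8
    have h9 := not_lt.1 h3
    linarith
  have h2 := hoef J F S hFl hd n hn1 hn c hc hFc t ht
  have h3 := pr_ex J (fun i ω => c < |f i ω|) p hp
  have h4 : (J.card : ℝ) * p ≤ n * p := mul_le_mul_of_nonneg_right hJn hp0
  refine (h1.trans (pr_or _ _)).trans ?_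
  linarith

end Pool.Agent.H65.GI
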