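/-
ROW Cfc. Numbers of gadgets through a reserve edge or a middle node.
Only the involutions are used. `U a` is the set of the possible ends for the label `a` (holes or reserve vertices).
PROOF. Fix a label with matching `N` and the set `U`. `thr_cnt`: the pairs `(a, f)` with `U a`, `U (en a f)`, `f i = ρ`, `y_i = u` (`i : Fin 4`). The pair is determined by `f` (given `u`, `i`): `x_i = N u`, `y_{i-1} = R (f (i-1)) x_i`, `x_{i-1} = N y_{i-1}`, ..., down to `a = x_0`. (`x_{i+1} = R (f i) y_i` gives `y_i = R (f i) x_{i+1}`.) So count words `f`: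
`i = 0`: `a = N u` must be in `U`; `f 0 = ρ`; `y_4 = N (R (f 3) y_3)` where `y_3` is determined by `u, f 0, f 1, f 2`: at most `κ` values of `f 3` (`h2`), so `≤ [U (N u)] r^2 κ`.
`i = 1`: `a = N (R (f 0) x_1)`, `x_1 = N u`: at most `κ` values of `f 0`; `f 1 = ρ`; `f 2` free, at most `κ` values of `f 3`: `≤ κ r κ`.
`i = 2`: `x_2 = N u`; `f 1` free, `x_1 = N (R (f 1) x_2)`, at most `κ` values of `f 0`; `f 2 = ρ`; `y_3 = N (R ρ u)` fixed, at most `κ` values of `f 3`: `≤ r κ κ`.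
`i = 3`: `f 2, f 1` free, at most `κ` values of `f 0`; `f 3 = ρ`, `y_4 = N (R ρ u)` must be in `U`: `≤ r^2 κ [U (N (R ρ u))]`.
`edg_cnt`: sum over the labels and the four positions: `i = 0`: `#{a : U a (N a u)} r^2 κ ≤ κ^2 r^2` (`h3`), `i = 1, 2`: `|P| r κ^2` each, `i = 3`: `κ^2 r^2` (`h3` for the vertex `R ρ u`).
`cfl_cnt`: a gadget in conflict with `p` has a pair `(f' i', y'_i') = (f i, y_i)` for one of the four `i`: `4` times `edg_cnt` (over all labels, `Finset.card` of a sigma type = sum).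
`mid_cnt`: for `i ∈ {1,2,3}` and `x_i = v`: `(a, f)` is determined by `f`; `y_{i-1} = R (f (i-1)) v`, ..., `a = N (R (f 0) x_1)`: `f 1, .., f (i-1)` free, at most `κ` values of `f 0` : `r^(i-1) κ`; forward: `y_i = N v`, `f i, ..., f 2` free, at most `κ` values of `f 3`: `r^(3-i) κ`; product `κ^2 r^2`. `y_i = v`: the same for `x_i = N v`. Total `6 κ^2 r^2`.
(A convenient tool: if for every value of the other coordinates at most `κ` values of the coordinate `j` are allowed, and the coordinates in a set `J` are fixed, the number of words is at most `κ r^..`. For two restricted coordinates `f 0`, `f 3` note that the restriction on `f 0` only involves `f 1, f 2` and the one on `f 3` only `f 0.. f 2` or `f 1, f 2`.)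
-/
import Pool.Agent.H65.GI.EDefs

set_option autoImplicit false

namespace Pool.Agent.H65.GI

open Finset Classical

section
variable {V : Type} [Fintype V] {r : ℕ}

theorem Cfc_word (B : Finset (Fin r × Fin r)) (P Q : Fin r → Fin r → Fin r → Prop) (κ₁ κ₂ : ℕ)
    (hP : ∀ b c, (univ.filter (fun x => P b c x)).card ≤ κ₁)
    (hQ : ∀ b c, (univ.filter (fun x => Q b c x)).card ≤ κ₂) :
    (univ.filter (fun f : Fin 4 → Fin r => (f 1, f 2) ∈ B ∧ P (f 1) (f 2) (f 0) ∧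
      Q (f 1) (f 2) (f 3))).card ≤ B.card * (κ₁ * κ₂) := by
  rw [mul_comm]
  refine Finset.card_le_mul_card_image_of_maps_to
    (f := fun f : Fin 4 → Fin r => (f 1, f 2)) (fun f hf => (Finset.mem_filter.1 hf).2.1)
    (κ₁ * κ₂) ?_
  rintro ⟨b, c⟩ -
  have h1 : ((univ.filter (fun x => P b c x)) ×ˢ (univ.filter (fun x => Q b c x))).card ≤
      κ₁ * κ₂ := by
    rw [Finset.card_product]
    exact Nat.mul_le_mul (hP b c) (hQ b c)
  refine le_trans ?_ h1
  refine Finset.card_le_card_of_injOn (fun f => (f 0, f 3)) ?_ ?_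
  · intro f hf
    obtain ⟨h2, h3⟩ := Finset.mem_filter.1 hf
    obtain ⟨-, -, h4, h5⟩ := Finset.mem_filter.1 h2
    have hb : f 1 = b := congrArg Prod.fst h3
    have hc : f 2 = c := congrArg Prod.snd h3
    rw [hb, hc] at h4 h5
    exact Finset.mem_product.2 ⟨Finset.mem_filter.2 ⟨Finset.mem_univ _, h4⟩,
      Finset.mem_filter.2 ⟨Finset.mem_univ _, h5⟩⟩
  · intro f hf g hg hfg
    obtain ⟨-, h3⟩ := Finset.mem_filter.1 hf
    obtain ⟨-, h3'⟩ := Finset.mem_filter.1 hg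
    have h12 := h3.trans h3'.symm
    have e0 : f 0 = g 0 := congrArg Prod.fst hfg
    have e3 : f 3 = g 3 := congrArg Prod.snd hfg
    have e1 : f 1 = g 1 := congrArg Prod.fst h12
    have e2 : f 2 = g 2 := congrArg Prod.snd h12
    funext i
    fin_cases i
    · exact e0
    · exact e1
    · exact e2
    · exact e3

theorem Cfc_one {P : Fin r → Prop} {ρ : Fin r} (h : ∀ x, P x → x = ρ) :
    (univ.filter (fun x => P x)).card ≤ 1 := by
  refine Finset.card_le_one.2 fun a ha b hb => ?_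
  rw [h a (Finset.mem_filter.1 ha).2, h b (Finset.mem_filter.1 hb).2]

omit [Fintype V] in
theorem Cfc_XY (N : V → V) (R : Fin r → V → V) (hN : ∀ v, N (N v) = v)
    (hR : ∀ ρ v, R ρ (R ρ v) = v) {i : ℕ} (hi1 : 1 ≤ i) (hi3 : i ≤ 3) (v : V) :
    ∃ X Y : Fin r → Fin r → V, ∀ a f, xs N R f a i = v → a = N (R (f 0) (X (f 1) (f 2))) ∧
      en N R a f = N (R (f 3) (Y (f 1) (f 2))) := by
  have key : ∀ (a : V) (f : Fin 4 → Fin r), N (R (f 0) (xs N R f a 1)) = a ∧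
      N (R (f 1) (xs N R f a 2)) = xs N R f a 1 ∧ N (R (f 2) (xs N R f a 3)) = xs N R f a 2 ∧
      en N R a f = N (R (f 3) (N (xs N R f a 3))) ∧
      xs N R f a 3 = R (f 2) (N (xs N R f a 2)) ∧ xs N R f a 2 = R (f 1) (N (xs N R f a 1)) := by
    intro a f
    have r1 : xs N R f a 1 = R (f 0) (N a) := rfl
    have r2 : xs N R f a 2 = R (f 1) (N (xs N R f a 1)) := rfl
    have r3 : xs N R f a 3 = R (f 2) (N (xs N R f a 2)) := rfl
    have r4 : en N R a f = N (R (f 3) (N (xs N R f a 3))) := rfl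
    refine ⟨?_, ?_, ?_, r4, r3, r2⟩
    · rw [r1, hR, hN]
    · rw [r2, hR, hN]
    · rw [r3, hR, hN]
  have hi : i = 1 ∨ i = 2 ∨ i = 3 := by omega
  rcases hi with rfl | rfl | rfl
  · refine ⟨fun _ _ => v, fun b c => N (R c (N (R b (N v)))), fun a f h => ?_⟩
    obtain ⟨k1, k2, k3, k4, k5, k6⟩ := key a f
    refine ⟨?_, ?_⟩
    · rw [← h, k1]
    · rw [k4, k5, k6, h]
  · refine ⟨fun b _ => N (R b v), fun _ c => N (R c (N v)), fun a f h => ?_⟩
    obtain ⟨k1, k2, k3, k4, k5, k6⟩ := key a f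
    refine ⟨?_, ?_⟩
    · show a = N (R (f 0) (N (R (f 1) v)))
      rw [← h, k2, k1]
    · rw [k4, k5, h]
  · refine ⟨fun b c => N (R b (N (R c v))), fun _ _ => N v, fun a f h => ?_⟩
    obtain ⟨k1, k2, k3, k4, k5, k6⟩ := key a f
    refine ⟨?_, ?_⟩
    · show a = N (R (f 0) (N (R (f 1) (N (R (f 2) v)))))
      rw [← h, k3, k2, k1]
    · rw [k4, h]

theorem Cfc_mid (N : V → V) (R : Fin r → V → V) (hN : ∀ v, N (N v) = v)
    (hR : ∀ ρ v, R ρ (R ρ v) = v) (U : V → Prop) (κ : ℕ)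
    (h2 : ∀ v, (univ.filter (fun ρ : Fin r => U (N (R ρ v)))).card ≤ κ) {i : ℕ} (hi1 : 1 ≤ i)
    (hi3 : i ≤ 3) (v : V) (B : Finset (Fin r × Fin r)) :
    (univ.filter (fun p : V × (Fin 4 → Fin r) => U p.1 ∧ U (en N R p.1 p.2) ∧
      (p.2 1, p.2 2) ∈ B ∧ xs N R p.2 p.1 i = v)).card ≤ B.card * (κ * κ) := by
  obtain ⟨X, Y, hXY⟩ := Cfc_XY N R hN hR hi1 hi3 v
  refine le_trans ?_ (Cfc_word B (fun b c x => U (N (R x (X b c))))
    (fun b c x => U (N (R x (Y b c)))) κ κ (fun b c => h2 _) (fun b c => h2 _))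
  refine Finset.card_le_card_of_injOn (fun p => p.2) ?_ ?_
  · intro p hp
    obtain ⟨-, h3, h4, h5, h6⟩ := Finset.mem_filter.1 hp
    obtain ⟨h7, h8⟩ := hXY p.1 p.2 h6
    refine Finset.mem_filter.2 ⟨Finset.mem_univ _, h5, ?_, ?_⟩
    · rw [← h7]
      exact h3
    · rw [← h8]
      exact h4
  · intro p hp p' hp' h
    obtain ⟨-, -, -, -, h6⟩ := Finset.mem_filter.1 hp
    obtain ⟨-, -, -, -, h6'⟩ := Finset.mem_filter.1 hp'
    obtain ⟨h7, -⟩ := hXY p.1 p.2 h6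
    obtain ⟨h7', -⟩ := hXY p'.1 p'.2 h6'
    have h' : p.2 = p'.2 := h
    refine Prod.ext ?_ h'
    rw [h7, h7', h']

/-- The first position. -/
theorem Cfc_thr0 (N : V → V) (R : Fin r → V → V) (hN : ∀ v, N (N v) = v)
    (U : V → Prop) (κ : ℕ)
    (h2 : ∀ v, (univ.filter (fun ρ : Fin r => U (N (R ρ v)))).card ≤ κ) (u : V) (ρ : Fin r) :
    (univ.filter (fun p : V × (Fin 4 → Fin r) => U p.1 ∧ U (en N R p.1 p.2) ∧
      p.2 0 = ρ ∧ N p.1 = u)).card ≤ if U (N u) then r ^ 2 * κ else 0 := by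
  split_ifs with hU
  · obtain ⟨P, hP⟩ : ∃ P : Fin r → Fin r → Fin r → Prop, P = fun _ _ x => x = ρ := ⟨_, rfl⟩
    have h3 := Cfc_word (univ : Finset (Fin r × Fin r)) P
      (fun b c x => U (N (R x (N (R c (N (R b (N (R ρ u))))))))) 1 κ
      (fun b c => Cfc_one (by rw [hP]; intro x hx; exact hx)) (fun b c => h2 _)
    rw [Finset.card_univ, Fintype.card_prod, Fintype.card_fin, one_mul, ← sq] at h3
    refine le_trans ?_ h3
    refine Finset.card_le_card_of_injOn (fun p => p.2) ?_ ?_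
    · intro p hp
      obtain ⟨-, h3, h4, h5, h6⟩ := Finset.mem_filter.1 hp
      refine Finset.mem_filter.2 ⟨Finset.mem_univ _, Finset.mem_univ _, by rw [hP]; exact h5, ?_⟩
      have h7 : en N R p.1 p.2 = N (R (p.2 3) (N (R (p.2 2) (N (R (p.2 1)
        (N (R (p.2 0) (N p.1)))))))) := rfl
      rw [h7, h6, h5] at h4
      exact h4
    · intro p hp p' hp' h
      obtain ⟨-, -, -, -, h6⟩ := Finset.mem_filter.1 hp
      obtain ⟨-, -, -, -, h6'⟩ := Finset.mem_filter.1 hp'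
      have h' : p.2 = p'.2 := h
      refine Prod.ext ?_ h'
      rw [← hN p.1, ← hN p'.1, h6, h6']
  · rw [Nat.le_zero, Finset.card_eq_zero, Finset.filter_eq_empty_iff]
    rintro p - ⟨h3, -, -, h6⟩
    apply hU
    rw [← h6, hN]
    exact h3

/-- The last position. -/
theorem Cfc_thr3 (N : V → V) (R : Fin r → V → V) (hN : ∀ v, N (N v) = v)
    (hR : ∀ ρ v, R ρ (R ρ v) = v) (U : V → Prop) (κ : ℕ)
    (h2 : ∀ v, (univ.filter (fun ρ : Fin r => U (N (R ρ v)))).card ≤ κ) (u : V) (ρ : Fin r) :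
    (univ.filter (fun p : V × (Fin 4 → Fin r) => U p.1 ∧ U (en N R p.1 p.2) ∧
      p.2 3 = ρ ∧ xs N R p.2 p.1 3 = N u)).card ≤ if U (N (R ρ u)) then r ^ 2 * κ else 0 := by
  split_ifs with hU
  · obtain ⟨X, Y, hXY⟩ := Cfc_XY N R hN hR (i := 3) (by norm_num) le_rfl (N u)
    obtain ⟨P, hP⟩ : ∃ P : Fin r → Fin r → Fin r → Prop, P = fun _ _ x => x = ρ := ⟨_, rfl⟩
    have h3 := Cfc_word (univ : Finset (Fin r × Fin r)) (fun b c x => U (N (R x (X b c))))
      P κ 1 (fun b c => h2 _) (fun b c => Cfc_one (by rw [hP]; intro x hx; exact hx))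
    rw [Finset.card_univ, Fintype.card_prod, Fintype.card_fin, mul_one, ← sq] at h3
    refine le_trans ?_ h3
    refine Finset.card_le_card_of_injOn (fun p => p.2) ?_ ?_
    · intro p hp
      obtain ⟨-, h3, h4, h5, h6⟩ := Finset.mem_filter.1 hp
      obtain ⟨h7, -⟩ := hXY p.1 p.2 h6
      refine Finset.mem_filter.2 ⟨Finset.mem_univ _, Finset.mem_univ _, ?_, by rw [hP]; exact h5⟩
      rw [← h7]
      exact h3
    · intro p hp p' hp' h
      obtain ⟨-, -, -, -, h6⟩ := Finset.mem_filter.1 hp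
      obtain ⟨-, -, -, -, h6'⟩ := Finset.mem_filter.1 hp'
      obtain ⟨h7, -⟩ := hXY p.1 p.2 h6
      obtain ⟨h7', -⟩ := hXY p'.1 p'.2 h6'
      have h' : p.2 = p'.2 := h
      refine Prod.ext ?_ h'
      rw [h7, h7', h']
  · rw [Nat.le_zero, Finset.card_eq_zero, Finset.filter_eq_empty_iff]
    rintro p - ⟨-, h4, h5, h6⟩
    apply hU
    have h7 : en N R p.1 p.2 = N (R (p.2 3) (N (xs N R p.2 p.1 3))) := rfl
    rw [h7, h6, h5, hN] at h4
    exact h4

theorem thr_cnt (N : V → V) (R : Fin r → V → V) (hN : ∀ v, N (N v) = v)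
    (hR : ∀ ρ v, R ρ (R ρ v) = v) (U : V → Prop) (κ : ℕ)
    (h2 : ∀ v, (univ.filter (fun ρ : Fin r => U (N (R ρ v)))).card ≤ κ) (u : V) (ρ : Fin r) :
    (univ.filter (fun p : V × (Fin 4 → Fin r) => U p.1 ∧ U (en N R p.1 p.2) ∧
      ∃ i : Fin 4, p.2 i = ρ ∧ gy N R p i = u)).card ≤
      (if U (N u) then r ^ 2 * κ else 0) + (if U (N (R ρ u)) then r ^ 2 * κ else 0) +
        2 * (r * κ ^ 2) := by
  have c0 := Cfc_thr0 N R hN U κ h2 u ρ
  have c3 := Cfc_thr3 N R hN hR U κ h2 u ρ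
  have c1 := Cfc_mid N R hN hR U κ h2 (i := 1) le_rfl (by norm_num) (N u)
    (univ.image (fun c : Fin r => (ρ, c)))
  have c2 := Cfc_mid N R hN hR U κ h2 (i := 2) (by norm_num) (by norm_num) (N u)
    (univ.image (fun b : Fin r => (b, ρ)))
  have k1 : (univ.image (fun c : Fin r => (ρ, c))).card ≤ r := by
    refine Finset.card_image_le.trans ?_
    rw [Finset.card_univ, Fintype.card_fin]
  have k2 : (univ.image (fun b : Fin r => (b, ρ))).card ≤ r := by
    refine Finset.card_image_le.trans ?_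
    rw [Finset.card_univ, Fintype.card_fin]
  have d1 := c1.trans (Nat.mul_le_mul_right (κ * κ) k1)
  have d2 := c2.trans (Nat.mul_le_mul_right (κ * κ) k2)
  rw [← sq] at d1 d2
  obtain ⟨S0, hS0⟩ : ∃ S : Finset (V × (Fin 4 → Fin r)), S =
    (univ.filter (fun p : V × (Fin 4 → Fin r) => U p.1 ∧ U (en N R p.1 p.2) ∧
      p.2 0 = ρ ∧ N p.1 = u)) := ⟨_, rfl⟩
  obtain ⟨S1, hS1⟩ : ∃ S : Finset (V × (Fin 4 → Fin r)), S =
    (univ.filter (fun p : V × (Fin 4 → Fin r) => U p.1 ∧ U (en N R p.1 p.2) ∧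
      (p.2 1, p.2 2) ∈ univ.image (fun c : Fin r => (ρ, c)) ∧ xs N R p.2 p.1 1 = N u)) := ⟨_, rfl⟩
  obtain ⟨S2, hS2⟩ : ∃ S : Finset (V × (Fin 4 → Fin r)), S =
    (univ.filter (fun p : V × (Fin 4 → Fin r) => U p.1 ∧ U (en N R p.1 p.2) ∧
      (p.2 1, p.2 2) ∈ univ.image (fun b : Fin r => (b, ρ)) ∧ xs N R p.2 p.1 2 = N u)) := ⟨_, rfl⟩
  obtain ⟨S3, hS3⟩ : ∃ S : Finset (V × (Fin 4 → Fin r)), S =
    (univ.filter (fun p : V × (Fin 4 → Fin r) => U p.1 ∧ U (en N R p.1 p.2) ∧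
      p.2 3 = ρ ∧ xs N R p.2 p.1 3 = N u)) := ⟨_, rfl⟩
  rw [← hS0] at c0
  rw [← hS1] at d1
  rw [← hS2] at d2
  rw [← hS3] at c3
  have hsub : (univ.filter (fun p : V × (Fin 4 → Fin r) => U p.1 ∧ U (en N R p.1 p.2) ∧
      ∃ i : Fin 4, p.2 i = ρ ∧ gy N R p i = u)) ⊆ (S0 ∪ S3) ∪ (S1 ∪ S2) := by
    intro p hp
    obtain ⟨-, h3, h4, i, h5, h6⟩ := Finset.mem_filter.1 hp
    rw [Finset.mem_union, Finset.mem_union, Finset.mem_union, hS0, hS1, hS2, hS3]
    have hx : ∀ j : ℕ, gy N R p j = u → xs N R p.2 p.1 j = N u := by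
      intro j hj
      rw [← hj]
      exact (hN _).symm
    fin_cases i
    · left; left
      exact Finset.mem_filter.2 ⟨Finset.mem_univ _, h3, h4, h5, h6⟩
    · right; left
      exact Finset.mem_filter.2 ⟨Finset.mem_univ _, h3, h4,
        Finset.mem_image.2 ⟨p.2 2, Finset.mem_univ _, Prod.ext h5.symm rfl⟩, hx 1 h6⟩
    · right; right
      exact Finset.mem_filter.2 ⟨Finset.mem_univ _, h3, h4,
        Finset.mem_image.2 ⟨p.2 1, Finset.mem_univ _, Prod.ext rfl h5.symm⟩, hx 2 h6⟩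
    · left; right
      exact Finset.mem_filter.2 ⟨Finset.mem_univ _, h3, h4, h5, hx 3 h6⟩
  have h1 := (Finset.card_le_card hsub).trans ((Finset.card_union_le _ _).trans
    (Nat.add_le_add (Finset.card_union_le _ _) (Finset.card_union_le _ _)))
  refine h1.trans ?_
  rw [two_mul]
  exact Nat.add_le_add (Nat.add_le_add c0 c3) (Nat.add_le_add d1 d2)

theorem mid_cnt (N : V → V) (R : Fin r → V → V) (hN : ∀ v, N (N v) = v)
    (hR : ∀ ρ v, R ρ (R ρ v) = v) (U : V → Prop) (κ : ℕ)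
    (h2 : ∀ v, (univ.filter (fun ρ : Fin r => U (N (R ρ v)))).card ≤ κ) (v : V) :
    (univ.filter (fun p : V × (Fin 4 → Fin r) => U p.1 ∧ U (en N R p.1 p.2) ∧
      mdl N R v p)).card ≤ 6 * κ ^ 2 * r ^ 2 := by
  have hsub : (univ.filter (fun p : V × (Fin 4 → Fin r) => U p.1 ∧ U (en N R p.1 p.2) ∧
      mdl N R v p)) ⊆ (Finset.Icc 1 3 ×ˢ ({v, N v} : Finset V)).biUnion (fun z : ℕ × V =>
      univ.filter (fun p : V × (Fin 4 → Fin r) => U p.1 ∧ U (en N R p.1 p.2) ∧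
      (p.2 1, p.2 2) ∈ (univ : Finset (Fin r × Fin r)) ∧ xs N R p.2 p.1 z.1 = z.2)) := by
    intro p hp
    obtain ⟨-, h3, h4, i, hi1, hi3, h5⟩ := Finset.mem_filter.1 hp
    rw [Finset.mem_biUnion]
    rcases h5 with h5 | h5
    · exact ⟨(i, v), Finset.mem_product.2 ⟨Finset.mem_Icc.2 ⟨hi1, hi3⟩,
        Finset.mem_insert_self _ _⟩, Finset.mem_filter.2 ⟨Finset.mem_univ _, h3, h4,
        Finset.mem_univ _, h5⟩⟩
    · refine ⟨(i, N v), Finset.mem_product.2 ⟨Finset.mem_Icc.2 ⟨hi1, hi3⟩,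
        Finset.mem_insert_of_mem (Finset.mem_singleton_self _)⟩,
        Finset.mem_filter.2 ⟨Finset.mem_univ _, h3, h4, Finset.mem_univ _, ?_⟩⟩
      have h6 : N (xs N R p.2 p.1 i) = v := h5
      show xs N R p.2 p.1 i = N v
      rw [← h6, hN]
  have h1 := (Finset.card_le_card hsub).trans (Finset.card_biUnion_le_card_mul _ _
    (r ^ 2 * (κ * κ)) (fun z hz => by
      obtain ⟨h3, -⟩ := Finset.mem_product.1 hz
      obtain ⟨h4, h5⟩ := Finset.mem_Icc.1 h3
      have h6 := Cfc_mid N R hN hR U κ h2 h4 h5 z.2 (univ : Finset (Fin r × Fin r))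
      rw [Finset.card_univ, Fintype.card_prod, Fintype.card_fin, ← sq] at h6
      exact h6))
  refine h1.trans ?_
  have h3 : (Finset.Icc 1 3 ×ˢ ({v, N v} : Finset V)).card ≤ 6 := by
    rw [Finset.card_product, Nat.card_Icc]
    have h4 : ({v, N v} : Finset V).card ≤ 2 := Finset.card_le_two
    omega
  calc _ ≤ 6 * (r ^ 2 * (κ * κ)) := Nat.mul_le_mul_right _ h3
    _ = 6 * κ ^ 2 * r ^ 2 := by ring

variable {s w : ℕ}

theorem edg_cnt (N : Fin s × Fin w → V → V) (R : Fin r → V → V) (hN : ∀ a v, N a (N a v) = v)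
    (hR : ∀ ρ v, R ρ (R ρ v) = v) (U : Fin s × Fin w → V → Prop) (κ : ℕ)
    (h2 : ∀ a v, (univ.filter (fun ρ : Fin r => U a (N a (R ρ v)))).card ≤ κ)
    (h3 : ∀ v, (univ.filter (fun a => U a (N a v))).card ≤ κ) (u : V) (ρ : Fin r) :
    ∑ a, (univ.filter (fun p : V × (Fin 4 → Fin r) => U a p.1 ∧ U a (en (N a) R p.1 p.2) ∧
      ∃ i : Fin 4, p.2 i = ρ ∧ gy (N a) R p i = u)).card ≤
      κ ^ 2 * (2 * r ^ 2 + 2 * (s * w) * r) := by
  have h1 : ∀ v, ∑ a, (if U a (N a v) then r ^ 2 * κ else 0) ≤ κ * (r ^ 2 * κ) := by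
    intro v
    rw [← Finset.sum_filter, Finset.sum_const, smul_eq_mul]
    exact Nat.mul_le_mul_right _ (h3 v)
  refine (Finset.sum_le_sum fun a _ => thr_cnt (N a) R (hN a) hR (U a) κ (h2 a) u ρ).trans ?_
  rw [Finset.sum_add_distrib, Finset.sum_add_distrib, Finset.sum_const, Finset.card_univ,
    Fintype.card_prod, Fintype.card_fin, Fintype.card_fin, smul_eq_mul]
  refine (Nat.add_le_add (Nat.add_le_add (h1 u) (h1 (R ρ u))) le_rfl).trans (le_of_eq ?_)
  ring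

theorem cfl_cnt (N : Fin s × Fin w → V → V) (R : Fin r → V → V) (hN : ∀ a v, N a (N a v) = v)
    (hR : ∀ ρ v, R ρ (R ρ v) = v) (U : Fin s × Fin w → V → Prop) (κ : ℕ)
    (h2 : ∀ a v, (univ.filter (fun ρ : Fin r => U a (N a (R ρ v)))).card ≤ κ)
    (h3 : ∀ v, (univ.filter (fun a => U a (N a v))).card ≤ κ) (b : Fin s × Fin w)
    (q : V × (Fin 4 → Fin r)) :
    ∑ a, (univ.filter (fun p : V × (Fin 4 → Fin r) => U a p.1 ∧ U a (en (N a) R p.1 p.2) ∧
      cfl N R b q a p)).card ≤ 4 * (κ ^ 2 * (2 * r ^ 2 + 2 * (s * w) * r)) := by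
  have h1 : ∀ a, (univ.filter (fun p : V × (Fin 4 → Fin r) => U a p.1 ∧ U a (en (N a) R p.1 p.2) ∧
      cfl N R b q a p)).card ≤ ∑ i : Fin 4, (univ.filter (fun p : V × (Fin 4 → Fin r) =>
        U a p.1 ∧ U a (en (N a) R p.1 p.2) ∧
        ∃ i' : Fin 4, p.2 i' = q.2 i ∧ gy (N a) R p i' = gy (N b) R q i)).card := by
    intro a
    refine (Finset.card_le_card ?_).trans Finset.card_biUnion_le
    intro p hp
    obtain ⟨-, h3, h4, -, i, i', h5, h6⟩ := Finset.mem_filter.1 hp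
    rw [Finset.mem_biUnion]
    exact ⟨i, Finset.mem_univ _, Finset.mem_filter.2 ⟨Finset.mem_univ _, h3, h4, i', h5.symm,
      h6.symm⟩⟩
  refine (Finset.sum_le_sum fun a _ => h1 a).trans ?_
  rw [Finset.sum_comm]
  refine (Finset.sum_le_sum fun (i : Fin 4) _ => edg_cnt N R hN hR U κ h2 h3 (gy (N b) R q i) (q.2 i)).trans ?_
  rw [Finset.sum_const, Finset.card_univ, Fintype.card_fin, smul_eq_mul]

end

end Pool.Agent.H65.GI
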