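/-
ROW Cne. Cones: what is near a vertex deep in a cone stays in the cone.
PROOF. `cn_up`: induction on `j`, for all `z`. `j = 0`: `z = x`. Step: `z ∈ bl G x (j+1)`: either `z ∈ bl G x j` (induction) or `z` is adjacent to `z' ∈ bl G x j`; by induction `Nb G p q k y' z'` with `n ≤ k + j`, `k ≤ n + j`; `j + 1 ≤ n` gives `k ≥ 1`, so (inversion) `k = k' + 1` and `Nb G p q k' y'' y'`
(the walk ends with the edge `y' z'`). If `z = y'` take `k'`; else `Nb.step` gives `k + 1`.
`nb_cat`: induction on the second walk.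
`nb_uni`: by `nb_cat` and `TL.uniq` `n + k = n + k'`, so `k = k'`; induction on `k` (for all `y z y' ...`): `k = 0`: `Nb G p q 0 y z` means `y = p`, `z = q`, similarly `y' = p'`, `z = q'`, and `y = y'` by `TL.uniq`. `k + 1`: the walks are `Nb G p q k x y`, `Nb G p' q' k x' y'` plus a step to `z`; `y = y'` by `TL.uniq`; induction.
`nb_disj`: if `z` is in both balls then `cn_up` (twice) and `nb_uni`.
`cone_sub`: `cone` is the set of the `x` with `Nb G a b n y x`, `n < k`; induction on `n`: `Nb G a b n y x → x ∈ bl G a (n + 1)`, then `bl_mono`.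
-/
import Pool.Agent.H65.GI.EDefs
import Pool.Agent.H65.GI.Lll

set_option autoImplicit false

namespace Pool.Agent.H65.GI

open Finset Classical

section
variable {V : Type} [Fintype V] {G : SimpleGraph V}

theorem Cne_inv {p q : V} {k : ℕ} {y x : V} (h : Nb G p q (k + 1) y x) :
    ∃ z, Nb G p q k z y ∧ G.Adj y x ∧ x ≠ z := by
  cases h with
  | step h1 h2 h3 => exact ⟨_, h1, h2, h3⟩

theorem Cne_zero {p q : V} {y x : V} (h : Nb G p q 0 y x) : y = p ∧ x = q := by
  cases h with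
  | base h1 => exact ⟨rfl, rfl⟩

theorem cn_up {p q : V} {n : ℕ} {y x : V} (h : Nb G p q n y x) (j : ℕ) (hj : j ≤ n) (z : V)
    (hz : z ∈ bl G x j) : ∃ k y', Nb G p q k y' z ∧ n ≤ k + j ∧ k ≤ n + j := by
  induction j generalizing z with
  | zero =>
    rw [bl, Finset.mem_singleton] at hz
    subst hz
    exact ⟨n, y, h, le_refl _, le_refl _⟩
  | succ j ih =>
    rw [bl, Finset.mem_filter] at hz
    rcases hz.2 with hz | ⟨z', hz', hadj⟩
    · obtain ⟨k, y', h1, h2, h3⟩ := ih (by omega) z hz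
      exact ⟨k, y', h1, by omega, by omega⟩
    · obtain ⟨k, y', h1, h2, h3⟩ := ih (by omega) z' hz'
      by_cases hzy : z = y'
      · obtain ⟨k', rfl⟩ : ∃ k', k = k' + 1 := ⟨k - 1, by omega⟩
        obtain ⟨y'', h4, -, -⟩ := Cne_inv h1
        rw [hzy]
        exact ⟨k', y'', h4, by omega, by omega⟩
      · exact ⟨k + 1, z', Nb.step h1 hadj hzy, by omega, by omega⟩

theorem nb_cat {a b p q y x : V} {n k : ℕ} (h : Nb G a b n p q) (h' : Nb G p q k y x) :
    Nb G a b (n + k) y x := by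
  induction h' with
  | base _ => exact h
  | step _ hadj hne ih => exact Nb.step ih hadj hne

theorem Cne_uni {M : ℕ} (ht : TL G M) {a b b' p q p' q' : V} {n : ℕ}
    (h1 : Nb G a b n p q) (h2 : Nb G a b' n p' q') (k : ℕ) (hk : n + k < M) :
    ∀ y y' z : V, Nb G p q k y z → Nb G p' q' k y' z → p = p' ∧ q = q' := by
  induction k with
  | zero =>
    intro y y' z h3 h4
    obtain ⟨-, -, hy⟩ := ht.uniq a b b' _ _ y y' z hk hk (nb_cat h1 h3) (nb_cat h2 h4)
    obtain ⟨e1, e2⟩ := Cne_zero h3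
    obtain ⟨e3, e4⟩ := Cne_zero h4
    exact ⟨by rw [← e1, ← e3, hy], by rw [← e2, ← e4]⟩
  | succ k ih =>
    intro y y' z h3 h4
    obtain ⟨-, -, hy⟩ := ht.uniq a b b' _ _ y y' z hk hk (nb_cat h1 h3) (nb_cat h2 h4)
    obtain ⟨w, h5, -, -⟩ := Cne_inv h3
    obtain ⟨w', h6, -, -⟩ := Cne_inv h4
    rw [← hy] at h6
    exact ih (by omega) w w' y h5 h6

theorem nb_uni {M : ℕ} (ht : TL G M) {a b b' p q p' q' y y' z : V} {n k k' : ℕ}
    (h1 : Nb G a b n p q) (h2 : Nb G a b' n p' q') (h3 : Nb G p q k y z) (h4 : Nb G p' q' k' y' z)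
    (hk : n + k < M) (hk' : n + k' < M) : p = p' ∧ q = q' := by
  obtain ⟨hkk, -, -⟩ := ht.uniq a b b' _ _ y y' z hk hk' (nb_cat h1 h3) (nb_cat h2 h4)
  obtain rfl : k = k' := by omega
  exact Cne_uni ht h1 h2 k hk y y' z h3 h4

/-- Two vertices `j` steps beyond different edges of the same level have disjoint `j`-balls. -/
theorem nb_disj {M : ℕ} (ht : TL G M) {a b b' p q p' q' y y' x x' : V} {n k : ℕ}
    (h1 : Nb G a b n p q) (h2 : Nb G a b' n p' q') (h3 : Nb G p q k y x) (h4 : Nb G p' q' k y' x')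
    (hne : q ≠ q') (j : ℕ) (hj : j ≤ k) (hM : n + k + j < M) :
    Disjoint (bl G x j) (bl G x' j) := by
  rw [Finset.disjoint_left]
  intro z hz hz'
  obtain ⟨k1, y1, e1, e2, e3⟩ := cn_up h3 j hj z hz
  obtain ⟨k2, y2, f1, f2, f3⟩ := cn_up h4 j hj z hz'
  exact hne (nb_uni ht h1 h2 e1 f1 (by omega) (by omega)).2

theorem nb_bl {a b y x : V} {n : ℕ} (h : Nb G a b n y x) : x ∈ bl G a (n + 1) := by
  induction h with
  | base hadj =>
    rw [bl, Finset.mem_filter]
    refine ⟨Finset.mem_univ _, Or.inr ⟨a, ?_, hadj⟩⟩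
    rw [bl, Finset.mem_singleton]
  | step _ hadj _ ih =>
    rw [bl, Finset.mem_filter]
    exact ⟨Finset.mem_univ _, Or.inr ⟨_, ih, hadj⟩⟩

theorem cone_sub (a b : V) (k : ℕ) : cone G a b k ⊆ bl G a k := by
  intro x hx
  rw [cone, Finset.mem_filter] at hx
  obtain ⟨-, n, hn, y, h⟩ := hx
  exact bl_mono G a (by omega) (nb_bl h)

end

end Pool.Agent.H65.GI
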