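/-
ROW Wkl. Walks along `N` and `R`.
PROOF. `isb_wk`: from `IsBase` (`one` from `on`: two different `ρ` with `R ρ v = v` would give cardinality `≥ 2`).
`xs_step`: unfold. `wk_side`: induction on `i`: `N` and `R` change the side when they move (`Bool`).
`wk_bl`: induction; `N u` and `R ρ u` are `u` or adjacent to `u` (`bl_adj`, `bl_mono`).
`wk_nb`: induction on `i`: start `Nb.base`; from `Nb G a (N a) (2i) (x_i) (y_i)`: `x_{i+1} = R ρ y_i` is adjacent to `y_i` (`adjR`, moving) and `≠ x_i = N y_i` (`disNR` at `y_i`: `N y_i = x_i ≠ y_i`); from `Nb .. (2i+1) (y_i) (x_{i+1})`: `y_{i+1} = N x_{i+1}` is adjacent to `x_{i+1}` and `≠ y_i = R ρ x_{i+1}` (`disNR`).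
`wk_inj`: `x_j = x_j'`; by `TL.uniq` for the walks of length `2j` (index `2(j-1)+1`) the vertices before are equal: `y_{j-1} = y_{j-1}'`, so `x_{j-1}` are equal (`N` injective), and `R (f (j-1)) y = R (g (j-1)) y ≠ y`, so `f (j-1) = g (j-1)` by `disR`. Induction on `j` (statement for all `j ≤ 4`; `mvg` for `j` implies `mvg` for `j-1`: `mvg_mono`).
`wk_ne`: `x_i ≠ x_i'` for `i < i'`: if `i = 0`: `TL.ne`; else both are ends of walks `Nb` from `a` of the different indices `2i-1`, `2i'-1`: `TL.uniq`. `x_i ≠ y_i'`: the sides are different.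
`rv_xs`: only the involutions: `x'_0 = y_4`; `N x'_0 = x_4`, `x'_1 = R (f 3) x_4 = R (f 3) (R (f 3) y_3) = y_3` and so on (`i = 0,...,4`; `rv f 0 = f 3`, ...; `Fin.ofNat 4 i` evaluates). `rv_en`: `i = 4` and `N`. `rv_mvg`, `rv_cl`: translate by `rv_xs`: `N x'_i = x_{4-i}`.
-/
import Pool.Agent.H65.GI.Cne

set_option autoImplicit false

namespace Pool.Agent.H65.GI

open Finset Classical

private theorem Wkl_bool {x y : Bool} (h : x ≠ y) : x = !y := by
  cases x <;> cases y <;> simp_all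

theorem isb_wk {V : Type} [Fintype V] {G : SimpleGraph V} {s w r K : ℕ} {side : V → Bool}
    {D : Finset V} {N : Fin s × Fin w → V → V} {R : Fin r → V → V}
    (h : IsBase G s w r K side D N R) (α : Fin s × Fin w) : Wk G K side D (N α) R where
  invN := h.invN α
  invR := h.invR
  adjN := h.adjN α
  adjR := h.adjR
  sideN := h.sideN α
  sideR := h.sideR
  disR := h.disR
  disNR := h.disNR α
  offN := fun v hv => (h.off v hv).1 α
  offR := fun v hv => (h.off v hv).2
  one := by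
    intro v ρ σ hρ hσ
    have h1 : (univ.filter (fun ρ => R ρ v = v)).card ≤ 1 := by
      have h2 := h.on v
      omega
    exact Finset.card_le_one.1 h1 ρ (Finset.mem_filter.2 ⟨Finset.mem_univ _, hρ⟩) σ
      (Finset.mem_filter.2 ⟨Finset.mem_univ _, hσ⟩)
  few := h.few

section
variable {V : Type} [Fintype V] {G : SimpleGraph V} {r K : ℕ} {side : V → Bool} {D : Finset V}
  {N : V → V} {R : Fin r → V → V}

private theorem Wkl_succ (f : Fin 4 → Fin r) (a : V) (i : ℕ) :
    xs N R f a (i + 1) = R (f (Fin.ofNat 4 i)) (N (xs N R f a i)) := rfl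

private theorem Wkl_zero (f : Fin 4 → Fin r) (a : V) : xs N R f a 0 = a := rfl

theorem mvg_mono {f : Fin 4 → Fin r} {a : V} {i j : ℕ} (hij : i ≤ j) (h : mvg N R f a j) :
    mvg N R f a i :=
  ⟨fun k hk => h.1 k (hk.trans hij), fun k hk => h.2 k (lt_of_lt_of_le hk hij)⟩

theorem wk_side (h : Wk G K side D N R) (f : Fin 4 → Fin r) (a : V) (j : ℕ)
    (hm : mvg N R f a j) (i : ℕ) (hi : i ≤ j) :
    side (xs N R f a i) = side a ∧ side (N (xs N R f a i)) = !side a := by
  induction i with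
  | zero =>
    refine ⟨rfl, ?_⟩
    exact Wkl_bool (h.sideN _ (hm.1 0 hi))
  | succ i ih =>
    obtain ⟨_, h2⟩ := ih (by omega)
    have h3 := hm.2 i (by omega)
    have h4 : side (xs N R f a (i + 1)) ≠ side (N (xs N R f a i)) := by
      rw [Wkl_succ] at h3 ⊢
      exact h.sideR _ _ h3
    have h5 : side (xs N R f a (i + 1)) = side a := by
      rw [Wkl_bool h4, h2, Bool.not_not]
    refine ⟨h5, ?_⟩
    rw [Wkl_bool (h.sideN _ (hm.1 (i + 1) hi)), h5]

private theorem Wkl_blm {v x : V} {k : ℕ} (hx : x ∈ bl G v k) : x ∈ bl G v (k + 1) :=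
  Finset.mem_filter.2 ⟨Finset.mem_univ _, Or.inl hx⟩

private theorem Wkl_bla {v x y : V} {k : ℕ} (hx : x ∈ bl G v k) (ha : G.Adj x y) :
    y ∈ bl G v (k + 1) :=
  Finset.mem_filter.2 ⟨Finset.mem_univ _, Or.inr ⟨x, hx, ha⟩⟩

private theorem Wkl_blN (h : Wk G K side D N R) {v x : V} {k : ℕ} (hx : x ∈ bl G v k) :
    N x ∈ bl G v (k + 1) := by
  by_cases h1 : N x = x
  · rw [h1]
    exact Wkl_blm hx
  · exact Wkl_bla hx (h.adjN x h1)

private theorem Wkl_blR (h : Wk G K side D N R) (ρ : Fin r) {v x : V} {k : ℕ}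
    (hx : x ∈ bl G v k) : R ρ x ∈ bl G v (k + 1) := by
  by_cases h1 : R ρ x = x
  · rw [h1]
    exact Wkl_blm hx
  · exact Wkl_bla hx (h.adjR ρ x h1)

/-- also for walks that do not move -/
theorem wk_bl (h : Wk G K side D N R) (f : Fin 4 → Fin r) (a : V) (i : ℕ) :
    xs N R f a i ∈ bl G a (2 * i) ∧ N (xs N R f a i) ∈ bl G a (2 * i + 1) := by
  induction i with
  | zero =>
    have h0 : xs N R f a 0 ∈ bl G a (2 * 0) := by
      rw [Wkl_zero]
      exact Finset.mem_singleton_self a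
    exact ⟨h0, Wkl_blN h h0⟩
  | succ i ih =>
    have h1 : xs N R f a (i + 1) ∈ bl G a (2 * (i + 1)) := Wkl_blR h _ ih.2
    exact ⟨h1, Wkl_blN h h1⟩

private theorem Wkl_step1 (h : Wk G K side D N R) (f : Fin 4 → Fin r) (a : V) (j i : ℕ)
    (hm : mvg N R f a j) (hi : i < j)
    (h1 : Nb G a (N a) (2 * i) (xs N R f a i) (N (xs N R f a i))) :
    Nb G a (N a) (2 * i + 1) (N (xs N R f a i)) (xs N R f a (i + 1)) := by
  have h2 := hm.2 i hi
  have h3 := hm.1 i hi.le
  refine Nb.step h1 ?_ ?_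
  · rw [Wkl_succ] at h2 ⊢
    exact h.adjR _ _ h2
  · have h4 := h.disNR (f (Fin.ofNat 4 i)) (N (xs N R f a i)) (by
      rw [h.invN]
      exact h3.symm)
    rw [h.invN] at h4
    rw [Wkl_succ]
    exact h4.symm

private theorem Wkl_step2 (h : Wk G K side D N R) (f : Fin 4 → Fin r) (a : V) (j i : ℕ)
    (hm : mvg N R f a j) (hi : i < j)
    (h1 : Nb G a (N a) (2 * i + 1) (N (xs N R f a i)) (xs N R f a (i + 1))) :
    Nb G a (N a) (2 * (i + 1)) (xs N R f a (i + 1)) (N (xs N R f a (i + 1))) := by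
  have h3 := hm.1 (i + 1) hi
  refine Nb.step h1 (h.adjN _ h3) ?_
  have h4 := h.disNR (f (Fin.ofNat 4 i)) (xs N R f a (i + 1)) h3
  have h5 : R (f (Fin.ofNat 4 i)) (xs N R f a (i + 1)) = N (xs N R f a i) := by
    rw [Wkl_succ, h.invR]
  rw [h5] at h4
  exact h4

theorem wk_nb (h : Wk G K side D N R) (f : Fin 4 → Fin r) (a : V) (j : ℕ)
    (hm : mvg N R f a j) :
    (∀ i ≤ j, Nb G a (N a) (2 * i) (xs N R f a i) (N (xs N R f a i))) ∧
    ∀ i < j, Nb G a (N a) (2 * i + 1) (N (xs N R f a i)) (xs N R f a (i + 1)) := by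
  have h1 : ∀ i ≤ j, Nb G a (N a) (2 * i) (xs N R f a i) (N (xs N R f a i)) := by
    intro i
    induction i with
    | zero =>
      intro hi
      exact Nb.base (h.adjN a (hm.1 0 hi))
    | succ i ih =>
      intro hi
      exact Wkl_step2 h f a j i hm (by omega) (Wkl_step1 h f a j i hm (by omega) (ih (by omega)))
  exact ⟨h1, fun i hi => Wkl_step1 h f a j i hm hi (h1 i hi.le)⟩

theorem wk_inj (ht : TL G 33) (h : Wk G K side D N R) (f g : Fin 4 → Fin r) (a : V) (j : ℕ)
    (hj : j ≤ 4) (hf : mvg N R f a j) (hg : mvg N R g a j)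
    (he : xs N R f a j = xs N R g a j) :
    (∀ i < j, f (Fin.ofNat 4 i) = g (Fin.ofNat 4 i)) ∧ ∀ i ≤ j, xs N R f a i = xs N R g a i := by
  induction j with
  | zero =>
    refine ⟨fun i hi => absurd hi (Nat.not_lt_zero i), fun i hi => ?_⟩
    obtain rfl : i = 0 := by omega
    rfl
  | succ j ih =>
    have n1 := (wk_nb h f a (j + 1) hf).2 j (by omega)
    have n2 := (wk_nb h g a (j + 1) hg).2 j (by omega)
    rw [← he] at n2
    obtain ⟨_, _, h3⟩ := ht.uniq a (N a) (N a) (2 * j + 1) (2 * j + 1) _ _ _ (by omega) (by omega)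
      n1 n2
    have h4 : xs N R f a j = xs N R g a j := by
      have h5 := congrArg N h3
      rwa [h.invN, h.invN] at h5
    obtain ⟨e1, e2⟩ := ih (by omega) (mvg_mono (by omega) hf) (mvg_mono (by omega) hg) h4
    have h6 : f (Fin.ofNat 4 j) = g (Fin.ofNat 4 j) := by
      by_contra hne
      have h7 := hf.2 j (by omega)
      rw [Wkl_succ] at h7
      refine h.disR _ _ _ hne h7 ?_
      rw [Wkl_succ, Wkl_succ, ← h3] at he
      exact he
    refine ⟨fun i hi => ?_, fun i hi => ?_⟩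
    · rcases Nat.lt_succ_iff_lt_or_eq.1 hi with hi | rfl
      · exact e1 i hi
      · exact h6
    · rcases Nat.le_succ_iff.1 hi with hi | rfl
      · exact e2 i hi
      · exact he

private theorem Wkl_ne (ht : TL G 33) (h : Wk G K side D N R) (f : Fin 4 → Fin r) (a : V) (j : ℕ)
    (hj : j ≤ 4) (hf : mvg N R f a j) (i i' : ℕ) (hi' : i' ≤ j) (hlt : i < i') :
    xs N R f a i ≠ xs N R f a i' := by
  intro he
  obtain ⟨k', rfl⟩ : ∃ k', i' = k' + 1 := ⟨i' - 1, by omega⟩
  have n1 := (wk_nb h f a j hf).2 k' (by omega)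
  rcases Nat.eq_zero_or_pos i with rfl | hi
  · rw [Wkl_zero] at he
    exact ht.ne a (N a) (2 * k' + 1) _ _ (by omega) n1 he.symm
  · obtain ⟨k, rfl⟩ : ∃ k, i = k + 1 := ⟨i - 1, by omega⟩
    have n2 := (wk_nb h f a j hf).2 k (by omega)
    rw [he] at n2
    obtain ⟨h3, _, _⟩ := ht.uniq a (N a) (N a) (2 * k' + 1) (2 * k + 1) _ _ _ (by omega) (by omega)
      n1 n2
    omega

theorem wk_ne (ht : TL G 33) (h : Wk G K side D N R) (f : Fin 4 → Fin r) (a : V) (j : ℕ)
    (hj : j ≤ 4) (hf : mvg N R f a j) :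
    (∀ i ≤ j, ∀ i' ≤ j, i ≠ i' → xs N R f a i ≠ xs N R f a i') ∧
    ∀ i ≤ j, ∀ i' ≤ j, xs N R f a i ≠ N (xs N R f a i') := by
  constructor
  · intro i hi i' hi' hne
    rcases lt_or_gt_of_ne hne with hlt | hlt
    · exact Wkl_ne ht h f a j hj hf i i' hi' hlt
    · exact (Wkl_ne ht h f a j hj hf i' i hi hlt).symm
  · intro i hi i' hi' he
    have h1 := (wk_side h f a j hf i hi).1
    have h2 := (wk_side h f a j hf i' hi').2
    rw [he, h2] at h1
    revert h1
    cases side a <;> simp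

private theorem Wkl_rev (i : ℕ) (hi : i ≤ 3) : Fin.rev (Fin.ofNat 4 i) = Fin.ofNat 4 (3 - i) := by
  interval_cases i <;> rfl

theorem rv_xs (h : Wk G K side D N R) (f : Fin 4 → Fin r) (a : V) (i : ℕ) (hi : i ≤ 4) :
    xs N R (rv f) (en N R a f) i = N (xs N R f a (4 - i)) := by
  induction i with
  | zero => rfl
  | succ i ih =>
    rw [Wkl_succ, ih (by omega), h.invN]
    unfold rv
    rw [Wkl_rev i (by omega)]
    have e : 4 - i = (3 - i) + 1 := by omega
    have e' : 4 - (i + 1) = 3 - i := by omega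
    rw [e, e', Wkl_succ, h.invR]

theorem rv_en (h : Wk G K side D N R) (f : Fin 4 → Fin r) (a : V) :
    en N R (en N R a f) (rv f) = a := by
  have h1 := rv_xs h f a 4 le_rfl
  have h2 : en N R (en N R a f) (rv f) = N (xs N R (rv f) (en N R a f) 4) := rfl
  rw [h2, h1, h.invN]
  rfl

theorem rv_mvg (h : Wk G K side D N R) (f : Fin 4 → Fin r) (a : V) (hm : mvg N R f a 4) :
    mvg N R (rv f) (en N R a f) 4 := by
  constructor
  · intro i hi
    rw [rv_xs h f a i hi, h.invN]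
    exact (hm.1 (4 - i) (by omega)).symm
  · intro i hi
    rw [rv_xs h f a i hi.le, rv_xs h f a (i + 1) hi, h.invN]
    have h1 := hm.2 (4 - (i + 1)) (by omega)
    have e : 4 - (i + 1) + 1 = 4 - i := by omega
    rw [e] at h1
    exact h1.symm

theorem rv_cl (h : Wk G K side D N R) (A : V → Prop) (f : Fin 4 → Fin r) (a : V)
    (hm : Cl N R A a f) : Cl N R A (en N R a f) (rv f) := by
  refine ⟨rv_mvg h f a hm.1, fun i h1 h4 => ?_, fun i h3 => ?_⟩
  · rw [rv_xs h f a i h4]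
    exact hm.2.2 (4 - i) (by omega)
  · rw [rv_xs h f a i (by omega), h.invN]
    exact hm.2.1 (4 - i) (by omega) (by omega)

end

end Pool.Agent.H65.GI
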