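/-
ROW Gbp. The bipartite graph of the gadgets of one label.
PROOF. `GB`: `lf e = e.1.1`, `rt e = en N R e.1.1 e.1.2`, `nr = A`. `hl`: `Val`. `hr`: `wk_side` (`j = i = 4`: the side of `N (xs 4)` is the opposite of the side of the start). `inj`: equal ends: `N (xs f a 4) = N (xs g a 4)`, `N` injective, `wk_inj` with `j = 4`: `f = g` on all four coordinates. `one`: `Val`.
`gb_true` (`side v = true`): `rt e = v` is impossible; the edges at `v` correspond to the words `f` with `Val (v, f)` (`e ↦ e.1.2`). `gb_false` (`side v = false`): the edges at `v` are those with `rt e = v`; map `e ↦ rv e.1.2`; by `rv_en`, `rv_cl` this is a bijection onto the words `f` with `Cl N R A v f`, the other end is `en N R v f` (`rt e = v`, `lf e = en v (rv f)`).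
So in both cases: with `W v P` = number of words `f` with `Cl N R A v f ∧ P (en N R v f)`: for `A v`: `inN` corresponds to the words with `A (en)`, `inR` to those with `¬ A (en) ∧ Q (en)`; for `¬ A v`: `inc S v` injects into the words with `A (en)` (then `Q v`), and `inN = ∅`.
`nE S e` means: both ends are in `A`.
-/
import Pool.Agent.H65.GI.Wkl

set_option autoImplicit false

namespace Pool.Agent.H65.GI

open Finset Classical

noncomputable section

private theorem Gbp_rv {r : ℕ} (f : Fin 4 → Fin r) : rv (rv f) = f := by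
  funext i
  show f (Fin.rev (Fin.rev i)) = f i
  rw [Fin.rev_rev]

private theorem Gbp_side {V : Type} [Fintype V] {G : SimpleGraph V} {r K : ℕ} {side : V → Bool}
    {D : Finset V} {N : V → V} {R : Fin r → V → V} (h : Wk G K side D N R) {a : V}
    {f : Fin 4 → Fin r} (hm : mvg N R f a 4) : side (en N R a f) = !side a :=
  (wk_side h f a 4 hm 4 le_rfl).2

private theorem Gbp_word {V : Type} [Fintype V] {G : SimpleGraph V} {r K : ℕ} {side : V → Bool}
    {D : Finset V} {N : V → V} {R : Fin r → V → V} (ht : TL G 33) (h : Wk G K side D N R) {a : V}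
    {f g : Fin 4 → Fin r} (hf : mvg N R f a 4) (hg : mvg N R g a 4)
    (he : en N R a f = en N R a g) : f = g := by
  have h1 : xs N R f a 4 = xs N R g a 4 := by
    have h2 := congrArg N he
    unfold en at h2
    rwa [h.invN, h.invN] at h2
  have h3 := (wk_inj ht h f g a 4 le_rfl hf hg h1).1
  funext i
  have h4 := h3 i.1 i.2
  have h5 : Fin.ofNat 4 i.1 = i := by
    apply Fin.ext
    show i.1 % 4 = i.1
    exact Nat.mod_eq_of_lt i.2
  rwa [h5] at h4

/-- The bipartite graph of the gadgets. -/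
def GB {V : Type} [Fintype V] {G : SimpleGraph V} {r K : ℕ} {side : V → Bool} {D : Finset V}
    {N : V → V} {R : Fin r → V → V} (ht : TL G 33) (h : Wk G K side D N R) (A Q : V → Prop) :
    Bip V (Gd side N R A Q) where
  lf := fun e => e.1.1
  rt := fun e => en N R e.1.1 e.1.2
  side := side
  nr := A
  hl := fun e => e.2.1
  hr := by
    intro e
    rw [Gbp_side h e.2.2.1.1, e.2.1]
    rfl
  inj := by
    rintro ⟨⟨a, f⟩, hv⟩ ⟨⟨b, g⟩, hw⟩ h1 h2
    simp only at h1 h2
    subst h1
    have h3 : f = g := Gbp_word ht h hv.2.1.1 hw.2.1.1 h2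
    subst h3
    rfl
  one := fun e => e.2.2.2.2.2

section
variable {V : Type} [Fintype V] {G : SimpleGraph V} {r K : ℕ} {side : V → Bool} {D : Finset V}
  {N : V → V} {R : Fin r → V → V} (ht : TL G 33) (h : Wk G K side D N R) (A Q : V → Prop)

/-- the edges at `v` whose other end has the property `P`, as words -/
private theorem Gbp_card (v : V) (P : V → Prop) (S : Finset (Gd side N R A Q))
    (T : Finset (Fin 4 → Fin r))
    (hS : ∀ e, e ∈ S ↔ e ∈ inc (GB ht h A Q) v ∧ P (oth (GB ht h A Q) v e))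
    (hT : ∀ f, f ∈ T ↔ Cl N R A v f ∧ (A v ∨ Q v) ∧
      (A (en N R v f) ∨ Q (en N R v f)) ∧ (A v ∨ A (en N R v f)) ∧ P (en N R v f)) :
    S.card = T.card := by
  rcases hs : side v with _ | _
  · -- the edges with right end `v`
    have hrt : ∀ e ∈ inc (GB ht h A Q) v, e.1.1 ≠ v ∧ en N R e.1.1 e.1.2 = v := by
      intro e he
      have h0 : e.1.1 ≠ v := by
        intro h0
        have h1 := e.2.1
        rw [h0, hs] at h1
        exact Bool.false_ne_true h1
      have h1 : e.1.1 = v ∨ en N R e.1.1 e.1.2 = v := (mem_filter.1 he).2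
      exact ⟨h0, h1.resolve_left h0⟩
    have hoth : ∀ e ∈ inc (GB ht h A Q) v, oth (GB ht h A Q) v e = e.1.1 := by
      intro e he
      have h1 : oth (GB ht h A Q) v e = if e.1.1 = v then en N R e.1.1 e.1.2 else e.1.1 := rfl
      rw [h1, if_neg (hrt e he).1]
    refine card_bij (fun e _ => rv e.1.2) ?_ ?_ ?_
    · intro e he
      obtain ⟨h1, h2⟩ := (hS e).1 he
      obtain ⟨h3, h4⟩ := hrt e h1
      rw [hoth e h1] at h2
      have h5 : Cl N R A v (rv e.1.2) := by
        have h6 := rv_cl h A e.1.2 e.1.1 e.2.2.1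
        rwa [h4] at h6
      have h6 : en N R v (rv e.1.2) = e.1.1 := by
        have h7 := rv_en h e.1.2 e.1.1
        rwa [h4] at h7
      have h7 := e.2.2.2
      rw [h4] at h7
      refine (hT _).2 ⟨h5, h7.2.1, ?_, ?_, ?_⟩
      · rw [h6]
        exact h7.1
      · rw [h6]
        exact h7.2.2.symm
      · rw [h6]
        exact h2
    · intro e he e' he' hee
      obtain ⟨h1, _⟩ := (hS e).1 he
      obtain ⟨h1', _⟩ := (hS e').1 he'
      obtain ⟨_, h4⟩ := hrt e h1
      obtain ⟨_, h4'⟩ := hrt e' h1'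
      have h5 : e.1.2 = e'.1.2 := by
        have h6 := congrArg rv hee
        simp only [Gbp_rv] at h6
        exact h6
      have h6 : en N R v (rv e.1.2) = e.1.1 := by
        have h7 := rv_en h e.1.2 e.1.1
        rwa [h4] at h7
      have h6' : en N R v (rv e'.1.2) = e'.1.1 := by
        have h7 := rv_en h e'.1.2 e'.1.1
        rwa [h4'] at h7
      apply Subtype.ext
      apply Prod.ext
      · rw [← h6, ← h6', h5]
      · exact h5
    · intro f hf
      obtain ⟨h1, h2, h3, h4, h5⟩ := (hT f).1 hf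
      have h6 : side (en N R v f) = true := by
        rw [Gbp_side h h1.1, hs]
        rfl
      have h7 : en N R (en N R v f) (rv f) = v := rv_en h f v
      have hval : Val side N R A Q (en N R v f, rv f) := by
        refine ⟨h6, rv_cl h A f v h1, h3, ?_, ?_⟩
        · show A (en N R (en N R v f) (rv f)) ∨ Q (en N R (en N R v f) (rv f))
          rw [h7]
          exact h2
        · show A (en N R v f) ∨ A (en N R (en N R v f) (rv f))
          rw [h7]
          exact h4.symm
      have hmem : (⟨(en N R v f, rv f), hval⟩ : Gd side N R A Q) ∈ inc (GB ht h A Q) v :=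
        mem_filter.2 ⟨mem_univ _, Or.inr h7⟩
      refine ⟨⟨(en N R v f, rv f), hval⟩, (hS _).2 ⟨hmem, ?_⟩, Gbp_rv f⟩
      rw [hoth _ hmem]
      exact h5
  · -- the edges with left end `v`
    have hlf : ∀ e ∈ inc (GB ht h A Q) v, e.1.1 = v := by
      intro e he
      have h1 : e.1.1 = v ∨ en N R e.1.1 e.1.2 = v := (mem_filter.1 he).2
      rcases h1 with h1 | h1
      · exact h1
      · exfalso
        have h2 := Gbp_side h e.2.2.1.1
        rw [h1, hs, e.2.1] at h2
        exact Bool.noConfusion h2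
    have hoth : ∀ e ∈ inc (GB ht h A Q) v, oth (GB ht h A Q) v e = en N R v e.1.2 := by
      intro e he
      have h1 : oth (GB ht h A Q) v e = if e.1.1 = v then en N R e.1.1 e.1.2 else e.1.1 := rfl
      rw [h1, if_pos (hlf e he), hlf e he]
    refine card_bij (fun e _ => e.1.2) ?_ ?_ ?_
    · intro e he
      obtain ⟨h1, h2⟩ := (hS e).1 he
      have h3 := hlf e h1
      rw [hoth e h1] at h2
      have h4 := e.2.2
      rw [h3] at h4
      exact (hT _).2 ⟨h4.1, h4.2.1, h4.2.2.1, h4.2.2.2, h2⟩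
    · intro e he e' he' hee
      obtain ⟨h1, _⟩ := (hS e).1 he
      obtain ⟨h1', _⟩ := (hS e').1 he'
      apply Subtype.ext
      apply Prod.ext
      · rw [hlf e h1, hlf e' h1']
      · exact hee
    · intro f hf
      obtain ⟨h1, h2, h3, h4, h5⟩ := (hT f).1 hf
      have hval : Val side N R A Q (v, f) := ⟨hs, h1, h2, h3, h4⟩
      have hmem : (⟨(v, f), hval⟩ : Gd side N R A Q) ∈ inc (GB ht h A Q) v :=
        mem_filter.2 ⟨mem_univ _, Or.inl rfl⟩
      refine ⟨⟨(v, f), hval⟩, (hS _).2 ⟨hmem, ?_⟩, rfl⟩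
      rw [hoth _ hmem]
      exact h5

/-- both ends of an edge at `v` are in `A` -/
private theorem Gbp_nE (v : V) (e : Gd side N R A Q) (he : e ∈ inc (GB ht h A Q) v) :
    nE (GB ht h A Q) e ↔ A v ∧ A (oth (GB ht h A Q) v e) := by
  have h1 : oth (GB ht h A Q) v e = if e.1.1 = v then en N R e.1.1 e.1.2 else e.1.1 := rfl
  have h2 : nE (GB ht h A Q) e ↔ A e.1.1 ∧ A (en N R e.1.1 e.1.2) := Iff.rfl
  have h3 : e.1.1 = v ∨ en N R e.1.1 e.1.2 = v := (mem_filter.1 he).2
  rw [h1, h2]
  by_cases h4 : e.1.1 = v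
  · rw [if_pos h4, h4]
  · rw [if_neg h4, h3.resolve_left h4]
    exact and_comm

theorem gb_inN (v : V) (hv : A v) : (inN (GB ht h A Q) v).card =
    (univ.filter (fun f : Fin 4 → Fin r => Cl N R A v f ∧ A (en N R v f))).card := by
  refine Gbp_card ht h A Q v A _ _ (fun e => ?_) (fun f => ?_)
  · refine mem_filter.trans (and_congr_right fun he => ?_)
    rw [Gbp_nE ht h A Q v e he]
    exact ⟨fun h2 => h2.2, fun h2 => ⟨hv, h2⟩⟩
  · refine mem_filter.trans ⟨fun h2 => ⟨h2.2.1, Or.inl hv, Or.inl h2.2.2, Or.inl hv, h2.2.2⟩,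
      fun h2 => ⟨mem_univ _, h2.1, h2.2.2.2.2⟩⟩

theorem gb_inR (v : V) (hv : A v) : (inR (GB ht h A Q) v).card =
    (univ.filter (fun f : Fin 4 → Fin r => Cl N R A v f ∧ ¬ A (en N R v f) ∧
      Q (en N R v f))).card := by
  refine Gbp_card ht h A Q v (fun x => ¬ A x) _ _ (fun e => ?_) (fun f => ?_)
  · refine mem_filter.trans (and_congr_right fun he => ?_)
    rw [Gbp_nE ht h A Q v e he]
    exact ⟨fun h2 h3 => h2 ⟨hv, h3⟩, fun h2 h3 => h2 h3.2⟩
  · refine mem_filter.trans
      ⟨fun h2 => ⟨h2.2.1, Or.inl hv, Or.inr h2.2.2.2, Or.inl hv, h2.2.2.1⟩,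
      fun h2 => ⟨mem_univ _, h2.1, h2.2.2.2.2, h2.2.2.1.resolve_left h2.2.2.2.2⟩⟩

theorem gb_res (v : V) (hv : ¬ A v) : (inR (GB ht h A Q) v).card ≤
    (univ.filter (fun f : Fin 4 → Fin r => Cl N R A v f ∧ A (en N R v f))).card := by
  refine (card_le_card (filter_subset _ _)).trans ?_
  refine (le_of_eq (Gbp_card ht h A Q v (fun _ => True) (inc (GB ht h A Q) v)
    (univ.filter (fun f : Fin 4 → Fin r => Cl N R A v f ∧ (A v ∨ Q v) ∧
      (A (en N R v f) ∨ Q (en N R v f)) ∧ (A v ∨ A (en N R v f)) ∧ True))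
    (fun e => ?_) (fun f => ?_))).trans ?_
  · exact ⟨fun he => ⟨he, trivial⟩, fun he => he.1⟩
  · exact mem_filter.trans ⟨fun h2 => h2.2, fun h2 => ⟨mem_univ _, h2⟩⟩
  · apply card_le_card
    intro f hf
    obtain ⟨_, h2, _, _, h5, _⟩ := mem_filter.1 hf
    exact mem_filter.2 ⟨mem_univ _, h2, h5.resolve_left hv⟩

end

end

end Pool.Agent.H65.GI
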