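/-
ROW Wts. The weights of one label.
Setting: `N`, `R` as in `Wk`; holes `A`, reserve set `Q`; `k`: the kept gadgets; `y` the weights of the gadgets.
`ndl v` (node load) `= ∑ e, if (∃ i ≤ 4, gx e i = v ∨ gy e i = v) then y e else 0`;
`wt u v = (if v = N u ∧ u ≠ v then 1 - ndl u else 0) + ∑ e, if (∃ i < 4, (gy e i = u ∧ gx e (i+1) = v) ∨ (gy e i = v ∧ gx e (i+1) = u)) then y e else 0`.
PROOF. All vertices `gx e 0, gy e 0, ..., gx e 4, gy e 4` of a gadget are different (`wk_ne`), `gy e i = N (gx e i) ≠ gx e i`, and `gx e (i+1) = R (f i) (gy e i) ≠ gy e i`. `ndl (N v) = ndl v` (the condition is symmetric).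
`ndl_le`: `ndl v ≤ 1`. (a) `A v`: a gadget with the node of `v`: `i ∈ {1,2,3}` is impossible (`gx e i` or `gy e i` would be `v ∈ A`; `Cl`); `i = 0`: `gx e 0 = v`, or `gy e 0 = v`, then `gx e 0 = N v ∈ A ∪ Q` by `Val`, impossible (`hol.n1`, `hAQ`); `i = 4` in the same way `gy e 4 = v`. So `e ∈ inc (GB ..) v`, each edge of `inc` once: `ndl v ≤ ∑ e ∈ inc v, y e ≤ 1`.
(b) `Q v`, `¬ A v`: `N v ∉ A` (`hQ`), `N v ∉ Q` (`hQQ`); so `i ∈ {0, 4}` gives `e ∈ inc v`; `i ∈ {1,2,3}`: `mdl v e`: `ndl v ≤ 1/2 + #{e : mdl v e ∧ k e} b ≤ 1`. (c) `N v ∈ A ∪ Q`: use `ndl (N v)`. (d) neither: only middle nodes: `≤ 1/2`.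
(w2) nonnegativity. (w1) symmetry: `v = N u ∧ u ≠ v` iff `u = N v ∧ v ≠ u`, `ndl (N u) = ndl u`. (w3) if `wt u v ≠ 0`, one of the two terms is `≠ 0`; `y e ≠ 0` implies `k e`.
(w4-6) sum over `v`: for fixed `e, u`: the number of `v` with the condition of the second term is `[∃ i < 4, gy e i = u] + [∃ i < 4, gx e (i+1) = u]` (the vertices are different: for given `u` at most one `i`, and not both) `= [∃ i ≤ 4, gx e i = u ∨ gy e i = u] - [gx e 0 = u] - [gy e 4 = u]`. So if `N u ≠ u`: `∑ v, wt u v = 1 - ndl u + ndl u - ∑ e, y e ([gx e 0 = u] + [gy e 4 = u])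
= 1 - ∑ e ∈ inc u, y e` (`gx e 0 = lf e`, `gy e 4 = rt e`, never both). If `N u = u`: no gadget meets `u` (moving: `N (gx e i) ≠ gx e i`, `N (gy e i) ≠ gy e i`), the sum is `0`. Then: `A u`: `0` (`N u ≠ u` by `hol.fn`); `Q u`: `≤ 1`; else `inc u = ∅` (`Val`): `1` if `N u ≠ u`.
(side): `v = N u ≠ u` or an edge `R`: the sides are different.
-/
import Pool.Agent.H65.GI.Gbp

set_option autoImplicit false

namespace Pool.Agent.H65.GI

open Finset Classical

section
variable {V : Type} [Fintype V] {G : SimpleGraph V} {r K : ℕ} {side : V → Bool} {D : Finset V}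
  {N : V → V} {R : Fin r → V → V}

/-- the node of `v` is met by the gadget -/
def Wts_nd (N : V → V) (R : Fin r → V → V) (p : V × (Fin 4 → Fin r)) (v : V) : Prop :=
  ∃ i ≤ 4, gx N R p i = v ∨ gy N R p i = v

/-- `u v` is a reserve edge of the gadget -/
def Wts_ed (N : V → V) (R : Fin r → V → V) (p : V × (Fin 4 → Fin r)) (u v : V) : Prop :=
  ∃ i < 4, (gy N R p i = u ∧ gx N R p (i + 1) = v) ∨ (gy N R p i = v ∧ gx N R p (i + 1) = u)

theorem Wts_ne (ht : TL G 33) (h : Wk G K side D N R) {A Q : V → Prop} (e : Gd side N R A Q) :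
    (∀ i ≤ 4, ∀ j ≤ 4, gx N R e.1 i = gx N R e.1 j → i = j) ∧
    (∀ i ≤ 4, ∀ j ≤ 4, gy N R e.1 i = gy N R e.1 j → i = j) ∧
    (∀ i ≤ 4, ∀ j ≤ 4, gx N R e.1 i ≠ gy N R e.1 j) := by
  obtain ⟨h1, h2⟩ := wk_ne ht h e.1.2 e.1.1 4 le_rfl e.2.2.1.1
  refine ⟨fun i hi j hj he => ?_, fun i hi j hj he => ?_, fun i hi j hj => h2 i hi j hj⟩
  · by_contra hne
    exact h1 i hi j hj hne he
  · by_contra hne
    refine h1 i hi j hj hne ?_
    have h3 := congrArg N he
    unfold gy at h3
    rwa [h.invN, h.invN] at h3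

theorem Wts_cnt (ht : TL G 33) (h : Wk G K side D N R) {A Q : V → Prop} (e : Gd side N R A Q)
    (u : V) :
    (univ.filter (fun v => Wts_ed N R e.1 u v)).card + (if gx N R e.1 0 = u then 1 else 0) +
      (if gy N R e.1 4 = u then 1 else 0) = if Wts_nd N R e.1 u then 1 else 0 := by
  obtain ⟨hx, hy, hxy⟩ := Wts_ne ht h e
  by_cases hn : Wts_nd N R e.1 u
  · rw [if_pos hn]
    obtain ⟨i, hi, hi' | hi'⟩ := hn
    · have h4 : gy N R e.1 4 ≠ u := by
        rw [← hi']
        exact (hxy i hi 4 le_rfl).symm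
      rw [if_neg h4]
      rcases i with _ | i
      · rw [if_pos hi']
        have h5 : univ.filter (fun v => Wts_ed N R e.1 u v) = ∅ := by
          rw [Finset.filter_eq_empty_iff]
          rintro v _ ⟨j, hj, ⟨h6, _⟩ | ⟨_, h6⟩⟩
          · exact hxy 0 (by omega) j (by omega) (hi'.trans h6.symm)
          · have h7 := hx 0 (by omega) (j + 1) (by omega) (hi'.trans h6.symm)
            omega
        rw [h5, Finset.card_empty]
      · have h5 : gx N R e.1 0 ≠ u := by
          intro h6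
          have h7 := hx 0 (by omega) (i + 1) hi (h6.trans hi'.symm)
          omega
        rw [if_neg h5]
        have h6 : univ.filter (fun v => Wts_ed N R e.1 u v) = {gy N R e.1 i} := by
          ext v
          rw [Finset.mem_filter, Finset.mem_singleton]
          constructor
          · rintro ⟨_, j, hj, ⟨h6, _⟩ | ⟨h7, h6⟩⟩
            · exact absurd (hi'.trans h6.symm) (hxy (i + 1) hi j (by omega))
            · have h8 := hx (j + 1) (by omega) (i + 1) hi (h6.trans hi'.symm)
              obtain rfl : j = i := by omega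
              exact h7.symm
          · intro hv
            exact ⟨Finset.mem_univ _, i, by omega, Or.inr ⟨hv.symm, hi'⟩⟩
        rw [h6, Finset.card_singleton]
    · have h4 : gx N R e.1 0 ≠ u := by
        rw [← hi']
        exact hxy 0 (by omega) i hi
      rw [if_neg h4]
      by_cases hi4 : i = 4
      · subst hi4
        rw [if_pos hi']
        have h5 : univ.filter (fun v => Wts_ed N R e.1 u v) = ∅ := by
          rw [Finset.filter_eq_empty_iff]
          rintro v _ ⟨j, hj, ⟨h6, _⟩ | ⟨_, h6⟩⟩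
          · have h7 := hy j (by omega) 4 le_rfl (h6.trans hi'.symm)
            omega
          · exact hxy (j + 1) (by omega) 4 le_rfl (h6.trans hi'.symm)
        rw [h5, Finset.card_empty]
      · have h5 : gy N R e.1 4 ≠ u := by
          intro h6
          have h7 := hy 4 le_rfl i hi (h6.trans hi'.symm)
          omega
        rw [if_neg h5]
        have h6 : univ.filter (fun v => Wts_ed N R e.1 u v) = {gx N R e.1 (i + 1)} := by
          ext v
          rw [Finset.mem_filter, Finset.mem_singleton]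
          constructor
          · rintro ⟨_, j, hj, ⟨h6, h7⟩ | ⟨_, h6⟩⟩
            · have h8 := hy j (by omega) i hi (h6.trans hi'.symm)
              subst h8
              exact h7.symm
            · exact absurd (h6.trans hi'.symm) (hxy (j + 1) (by omega) i hi)
          · intro hv
            exact ⟨Finset.mem_univ _, i, by omega, Or.inl ⟨hi', hv.symm⟩⟩
        rw [h6, Finset.card_singleton]
  · rw [if_neg hn]
    have h4 : gx N R e.1 0 ≠ u := fun h6 => hn ⟨0, by omega, Or.inl h6⟩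
    have h5 : gy N R e.1 4 ≠ u := fun h6 => hn ⟨4, le_rfl, Or.inr h6⟩
    have h6 : univ.filter (fun v => Wts_ed N R e.1 u v) = ∅ := by
      rw [Finset.filter_eq_empty_iff]
      rintro v _ ⟨j, hj, ⟨h6, _⟩ | ⟨_, h6⟩⟩
      · exact hn ⟨j, by omega, Or.inr h6⟩
      · exact hn ⟨j + 1, by omega, Or.inl h6⟩
    rw [if_neg h4, if_neg h5, h6, Finset.card_empty]

theorem Wts_mem (ht : TL G 33) (h : Wk G K side D N R) (A Q : V → Prop) (v : V)
    (e : Gd side N R A Q) :
    e ∈ inc (GB ht h A Q) v ↔ gx N R e.1 0 = v ∨ gy N R e.1 4 = v := by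
  unfold inc
  rw [Finset.mem_filter]
  constructor
  · intro h1
    exact h1.2
  · intro h1
    exact ⟨Finset.mem_univ _, h1⟩

/-- the node load -/
noncomputable def Wts_l {A Q : V → Prop} (y : Gd side N R A Q → ℝ) (v : V) : ℝ :=
  ∑ e, if Wts_nd N R e.1 v then y e else 0

theorem Wts_lN (h : Wk G K side D N R) {A Q : V → Prop} (y : Gd side N R A Q → ℝ) (v : V) :
    Wts_l y (N v) = Wts_l y v := by
  unfold Wts_l
  refine Finset.sum_congr rfl fun e _ => ?_
  have h1 : Wts_nd N R e.1 (N v) ↔ Wts_nd N R e.1 v := by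
    constructor
    · rintro ⟨i, hi, h1 | h1⟩
      · refine ⟨i, hi, Or.inr ?_⟩
        have h2 : gy N R e.1 i = N (gx N R e.1 i) := rfl
        rw [h2, h1, h.invN]
      · refine ⟨i, hi, Or.inl ?_⟩
        have h2 : gx N R e.1 i = N (gy N R e.1 i) := (h.invN _).symm
        rw [h2, h1, h.invN]
    · rintro ⟨i, hi, h1 | h1⟩
      · refine ⟨i, hi, Or.inr ?_⟩
        have h2 : gy N R e.1 i = N (gx N R e.1 i) := rfl
        rw [h2, h1]
      · refine ⟨i, hi, Or.inl ?_⟩
        have h2 : gx N R e.1 i = N (gy N R e.1 i) := (h.invN _).symm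
        rw [h2, h1]
  by_cases h2 : Wts_nd N R e.1 v
  · rw [if_pos h2, if_pos (h1.2 h2)]
  · rw [if_neg h2, if_neg (fun h3 => h2 (h1.1 h3))]

/-- the sum over the reserve edges at `u` -/
theorem Wts_sum (ht : TL G 33) (h : Wk G K side D N R) (A Q : V → Prop)
    (y : Gd side N R A Q → ℝ) (u : V) :
    ∑ v, (∑ e : Gd side N R A Q, if Wts_ed N R e.1 u v then y e else 0) =
      Wts_l y u - ∑ e ∈ inc (GB ht h A Q) u, y e := by
  rw [Finset.sum_comm]
  have h1 : ∑ e ∈ inc (GB ht h A Q) u, y e =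
      ∑ e : Gd side N R A Q, ((if gx N R e.1 0 = u then y e else 0) +
        (if gy N R e.1 4 = u then y e else 0)) := by
    have h2 : ∑ e ∈ inc (GB ht h A Q) u, y e =
        ∑ e : Gd side N R A Q, if e ∈ inc (GB ht h A Q) u then y e else 0 := by
      rw [← Finset.sum_filter]
      congr 1
      ext e
      simp
    rw [h2]
    refine Finset.sum_congr rfl fun e _ => ?_
    have hne := (Wts_ne ht h e).2.2 0 (by omega) 4 le_rfl
    by_cases h3 : gx N R e.1 0 = u
    · have h4 : gy N R e.1 4 ≠ u := fun h5 => hne (h3.trans h5.symm)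
      rw [if_pos ((Wts_mem ht h A Q u e).2 (Or.inl h3)), if_pos h3, if_neg h4, add_zero]
    · by_cases h4 : gy N R e.1 4 = u
      · rw [if_pos ((Wts_mem ht h A Q u e).2 (Or.inr h4)), if_neg h3, if_pos h4, zero_add]
      · rw [if_neg (fun h5 => ((Wts_mem ht h A Q u e).1 h5).elim h3 h4), if_neg h3, if_neg h4,
          add_zero]
  rw [h1]
  unfold Wts_l
  rw [← Finset.sum_sub_distrib]
  refine Finset.sum_congr rfl fun e _ => ?_
  have h2 := Wts_cnt ht h e u
  have h3 : ∑ v, (if Wts_ed N R e.1 u v then y e else 0) =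
      ((univ.filter (fun v => Wts_ed N R e.1 u v)).card : ℝ) * y e := by
    rw [← Finset.sum_filter, Finset.sum_const, nsmul_eq_mul]
  rw [h3]
  have h4 : ((univ.filter (fun v => Wts_ed N R e.1 u v)).card : ℝ) +
      (if gx N R e.1 0 = u then 1 else 0) + (if gy N R e.1 4 = u then 1 else 0) =
      if Wts_nd N R e.1 u then 1 else 0 := by
    have h5 := congrArg (fun n : ℕ => (n : ℝ)) h2
    simp only [Nat.cast_add, Nat.cast_ite, Nat.cast_one, Nat.cast_zero] at h5
    exact h5
  have h5 : (if gx N R e.1 0 = u then y e else 0) = (if gx N R e.1 0 = u then 1 else 0) * y e := by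
    split_ifs <;> ring
  have h6 : (if gy N R e.1 4 = u then y e else 0) = (if gy N R e.1 4 = u then 1 else 0) * y e := by
    split_ifs <;> ring
  have h7 : (if Wts_nd N R e.1 u then y e else 0) = (if Wts_nd N R e.1 u then 1 else 0) * y e := by
    split_ifs <;> ring
  rw [h5, h6, h7, ← h4]
  ring

theorem Wts_cov {A Q : V → Prop} (k : Gd side N R A Q → Prop) (y : Gd side N R A Q → ℝ) (b : ℝ)
    (hy0 : ∀ e, 0 ≤ y e) (hyk : ∀ e, ¬ k e → y e = 0) (hyb : ∀ e, y e ≤ b)
    (v : V) (S : Finset (Gd side N R A Q))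
    (hc : ∀ e, Wts_nd N R e.1 v → e ∈ S ∨ mdl N R v e.1)
    (hm : ((univ.filter (fun e : Gd side N R A Q => mdl N R v e.1 ∧ k e)).card : ℝ) * b ≤
      1 / 2) : Wts_l y v ≤ ∑ e ∈ S, y e + 1 / 2 := by
  have h1 : ∑ e ∈ S, y e = ∑ e, if e ∈ S then y e else 0 := by
    rw [← Finset.sum_filter]
    congr 1
    ext e
    simp
  have h2 : ∑ e ∈ univ.filter (fun e : Gd side N R A Q => mdl N R v e.1 ∧ k e), y e ≤ 1 / 2 := by
    refine le_trans ?_ hm
    rw [← nsmul_eq_mul]
    exact Finset.sum_le_card_nsmul _ _ _ fun e _ => hyb e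
  have h3 : Wts_l y v ≤ ∑ e, ((if e ∈ S then y e else 0) +
      (if mdl N R v e.1 ∧ k e then y e else 0)) := by
    unfold Wts_l
    refine Finset.sum_le_sum fun e _ => ?_
    have h0 := hy0 e
    by_cases hn : Wts_nd N R e.1 v
    · rw [if_pos hn]
      rcases hc e hn with h4 | h4
      · rw [if_pos h4]
        split_ifs <;> linarith
      · by_cases hk : k e
        · rw [if_pos (⟨h4, hk⟩ : mdl N R v e.1 ∧ k e)]
          split_ifs <;> linarith
        · rw [hyk e hk]
          simp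
    · rw [if_neg hn]
      split_ifs <;> linarith
  refine h3.trans ?_
  rw [Finset.sum_add_distrib, ← h1, ← Finset.sum_filter]
  linarith

theorem wts (ht : TL G 33) (h : Wk G K side D N R) (A Q : V → Prop) (hol : Hol N R A)
    (hAQ : ∀ v, A v → ¬ Q v ∧ ¬ Q (N v)) (hQ : ∀ v, Q v → ¬ A (N v)) (hQQ : ∀ v, Q v → ¬ Q (N v))
    (k : Gd side N R A Q → Prop) (y : Gd side N R A Q → ℝ) (b : ℝ) (hb0 : 0 ≤ b)
    (hy0 : ∀ e, 0 ≤ y e) (hyk : ∀ e, ¬ k e → y e = 0) (hyb : ∀ e, y e ≤ b)
    (hyA : ∀ v, A v → ∑ e ∈ inc (GB ht h A Q) v, y e = 1)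
    (hyQ : ∀ v, ¬ A v → ∑ e ∈ inc (GB ht h A Q) v, y e ≤ 1 / 2)
    (hm : ∀ v, ((univ.filter (fun e : Gd side N R A Q => mdl N R v e.1 ∧ k e)).card : ℝ) * b ≤
      1 / 2) :
    ∃ wt : V → V → ℝ, (∀ u v, wt u v = wt v u) ∧ (∀ u v, 0 ≤ wt u v) ∧
      (∀ u v, wt u v ≠ 0 → side u ≠ side v) ∧
      (∀ u v, wt u v ≠ 0 → (v = N u ∧ u ≠ v) ∨ ∃ e : Gd side N R A Q, k e ∧ ∃ i : Fin 4,
        (gy N R e.1 i = u ∧ v = R (e.1.2 i) u) ∨ (gy N R e.1 i = v ∧ u = R (e.1.2 i) v)) ∧
      (∀ u, ∑ v, wt u v ≤ 1) ∧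
      (∀ u, N u ≠ u → ¬ A u → ¬ Q u → ∑ v, wt u v = 1) ∧
      ∀ u, A u → ∑ v, wt u v = 0 := by
  classical
  have hend : ∀ e : Gd side N R A Q, (A (gx N R e.1 0) ∨ Q (gx N R e.1 0)) ∧
      (A (gy N R e.1 4) ∨ Q (gy N R e.1 4)) := fun e => ⟨e.2.2.2.1, e.2.2.2.2.1⟩
  have hNx : ∀ (e : Gd side N R A Q) i, N (gx N R e.1 i) = gy N R e.1 i := fun e i => rfl
  have hNy : ∀ (e : Gd side N R A Q) i, N (gy N R e.1 i) = gx N R e.1 i := fun e i => h.invN _
  -- the node loads
  have hmid : ∀ (e : Gd side N R A Q) (v : V) (i : ℕ), i ≤ 4 → (gx N R e.1 i = v ∨ gy N R e.1 i = v) →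
      i ≠ 0 → i ≠ 4 → mdl N R v e.1 := by
    intro e v i hi h1 h2 h3
    exact ⟨i, by omega, by omega, h1⟩
  have hldA : ∀ v, A v → Wts_l y v ≤ 1 := by
    intro v hv
    have h1 : Wts_l y v ≤ ∑ e ∈ inc (GB ht h A Q) v, y e := by
      have h2 : ∑ e ∈ inc (GB ht h A Q) v, y e =
          ∑ e : Gd side N R A Q, if e ∈ inc (GB ht h A Q) v then y e else 0 := by
        rw [← Finset.sum_filter]
        congr 1
        ext e
        simp
      rw [h2]
      unfold Wts_l
      refine Finset.sum_le_sum fun e _ => ?_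
      by_cases hn : Wts_nd N R e.1 v
      · have h3 : e ∈ inc (GB ht h A Q) v := by
          rw [Wts_mem]
          obtain ⟨i, hi, h4 | h4⟩ := hn
          · by_cases hi0 : i = 0
            · subst hi0
              exact Or.inl h4
            · exfalso
              refine e.2.2.1.2.1 i (by omega) hi ?_
              have h5 : xs N R e.1.2 e.1.1 i = v := h4
              rw [h5]
              exact hv
          · by_cases hi4 : i = 4
            · subst hi4
              exact Or.inr h4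
            · exfalso
              refine e.2.2.1.2.2 i (by omega) ?_
              have h5 : N (xs N R e.1.2 e.1.1 i) = v := h4
              rw [h5]
              exact hv
        rw [if_pos hn, if_pos h3]
      · rw [if_neg hn]
        split_ifs
        · exact hy0 e
        · exact le_rfl
    rw [hyA v hv] at h1
    exact h1
  have hldB : ∀ v, ¬ A v → ¬ A (N v) → ¬ Q (N v) → Wts_l y v ≤ 1 := by
    intro v hv hv1 hv2
    have h1 := Wts_cov k y b hy0 hyk hyb v (inc (GB ht h A Q) v) (by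
      rintro e ⟨i, hi, h4⟩
      by_cases hi0 : i = 0
      · subst hi0
        rcases h4 with h4 | h4
        · exact Or.inl ((Wts_mem ht h A Q v e).2 (Or.inl h4))
        · exfalso
          have h5 := (hend e).1
          rw [← hNy, h4] at h5
          exact h5.elim hv1 hv2
      · by_cases hi4 : i = 4
        · subst hi4
          rcases h4 with h4 | h4
          · exfalso
            have h5 := (hend e).2
            rw [← hNx, h4] at h5
            exact h5.elim hv1 hv2
          · exact Or.inl ((Wts_mem ht h A Q v e).2 (Or.inr h4))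
        · exact Or.inr (hmid e v i hi h4 hi0 hi4)) (hm v)
    have h2 := hyQ v hv
    linarith
  have hld : ∀ v, Wts_l y v ≤ 1 := by
    intro v
    by_cases hv : A v
    · exact hldA v hv
    · by_cases hv1 : A (N v)
      · rw [← Wts_lN h y v]
        exact hldA _ hv1
      · by_cases hv2 : Q (N v)
        · rw [← Wts_lN h y v]
          refine hldB _ hv1 ?_ ?_
          · rw [h.invN]
            exact hv
          · exact hQQ _ hv2
        · exact hldB v hv hv1 hv2
  have hl0 : ∀ v, N v = v → Wts_l y v = 0 := by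
    intro v hv
    unfold Wts_l
    refine Finset.sum_eq_zero fun e _ => ?_
    rw [if_neg]
    rintro ⟨i, hi, h4 | h4⟩
    · have h5 := e.2.2.1.1.1 i hi
      have h6 : xs N R e.1.2 e.1.1 i = v := h4
      rw [h6] at h5
      exact h5 hv
    · have h5 := e.2.2.1.1.1 i hi
      have h6 : N (xs N R e.1.2 e.1.1 i) = v := h4
      rw [← h.invN (xs N R e.1.2 e.1.1 i), h6, hv] at h5
      exact h5 hv
  have hinc0 : ∀ v, N v = v → ∑ e ∈ inc (GB ht h A Q) v, y e = 0 := by
    intro v hv
    refine Finset.sum_eq_zero fun e he => ?_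
    exfalso
    rw [Wts_mem] at he
    rcases he with h4 | h4
    · have h5 := e.2.2.1.1.1 0 (by omega)
      have h6 : xs N R e.1.2 e.1.1 0 = v := h4
      rw [h6] at h5
      exact h5 hv
    · have h5 := e.2.2.1.1.1 4 le_rfl
      have h6 : N (xs N R e.1.2 e.1.1 4) = v := h4
      rw [← h.invN (xs N R e.1.2 e.1.1 4), h6, hv] at h5
      exact h5 hv
  have hsum : ∀ u, ∑ v, ((if v = N u ∧ u ≠ v then 1 - Wts_l y u else 0) +
      ∑ e : Gd side N R A Q, if Wts_ed N R e.1 u v then y e else 0) =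
      if N u = u then 0 else 1 - ∑ e ∈ inc (GB ht h A Q) u, y e := by
    intro u
    rw [Finset.sum_add_distrib, Wts_sum ht h A Q y u]
    by_cases hu : N u = u
    · rw [if_pos hu, hl0 u hu, hinc0 u hu, sub_self, add_zero]
      refine Finset.sum_eq_zero fun v _ => ?_
      rw [if_neg]
      rintro ⟨h1, h2⟩
      exact h2 (by rw [h1, hu])
    · rw [if_neg hu]
      have h1 : ∑ v, (if v = N u ∧ u ≠ v then 1 - Wts_l y u else 0) = 1 - Wts_l y u := by
        rw [Finset.sum_eq_single (N u)]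
        · rw [if_pos ⟨rfl, fun h2 => hu h2.symm⟩]
        · intro v _ hv
          rw [if_neg (fun h2 => hv h2.1)]
        · intro h2
          exact absurd (Finset.mem_univ _) h2
      rw [h1]
      ring
  have hsnn : ∀ u v, 0 ≤ ∑ e : Gd side N R A Q, if Wts_ed N R e.1 u v then y e else 0 := by
    intro u v
    refine Finset.sum_nonneg fun e _ => ?_
    split_ifs
    · exact hy0 e
    · exact le_rfl
  have hstr : ∀ u v, (if v = N u ∧ u ≠ v then 1 - Wts_l y u else 0) +
      (∑ e : Gd side N R A Q, if Wts_ed N R e.1 u v then y e else 0) ≠ 0 →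
      (v = N u ∧ u ≠ v) ∨ ∃ e : Gd side N R A Q, k e ∧ Wts_ed N R e.1 u v := by
    intro u v hne
    by_cases h1 : v = N u ∧ u ≠ v
    · exact Or.inl h1
    · right
      rw [if_neg h1, zero_add] at hne
      obtain ⟨e, _, he⟩ := Finset.exists_ne_zero_of_sum_ne_zero hne
      by_cases h2 : Wts_ed N R e.1 u v
      · rw [if_pos h2] at he
        refine ⟨e, ?_, h2⟩
        by_contra h3
        exact he (hyk e h3)
      · rw [if_neg h2] at he
        exact absurd rfl he
  refine ⟨fun u v => (if v = N u ∧ u ≠ v then 1 - Wts_l y u else 0) +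
    ∑ e : Gd side N R A Q, if Wts_ed N R e.1 u v then y e else 0, ?_, ?_, ?_, ?_, ?_, ?_, ?_⟩
  · intro u v
    show (if v = N u ∧ u ≠ v then 1 - Wts_l y u else 0) + _ =
      (if u = N v ∧ v ≠ u then 1 - Wts_l y v else 0) + _
    congr 1
    · by_cases h1 : v = N u ∧ u ≠ v
      · have h2 : u = N v ∧ v ≠ u := ⟨by rw [h1.1, h.invN], h1.2.symm⟩
        rw [if_pos h1, if_pos h2]
        have h3 : Wts_l y v = Wts_l y u := by
          rw [h1.1]
          exact Wts_lN h y u
        rw [h3]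
      · have h2 : ¬ (u = N v ∧ v ≠ u) := fun h3 => h1 ⟨by rw [h3.1, h.invN], h3.2.symm⟩
        rw [if_neg h1, if_neg h2]
    · refine Finset.sum_congr rfl fun e _ => ?_
      have h1 : Wts_ed N R e.1 u v ↔ Wts_ed N R e.1 v u := by
        constructor
        · rintro ⟨i, hi, h2 | h2⟩
          · exact ⟨i, hi, Or.inr h2⟩
          · exact ⟨i, hi, Or.inl h2⟩
        · rintro ⟨i, hi, h2 | h2⟩
          · exact ⟨i, hi, Or.inr h2⟩
          · exact ⟨i, hi, Or.inl h2⟩
      by_cases h2 : Wts_ed N R e.1 v u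
      · rw [if_pos h2, if_pos (h1.2 h2)]
      · rw [if_neg h2, if_neg (fun h3 => h2 (h1.1 h3))]
  · intro u v
    refine add_nonneg ?_ (hsnn u v)
    split_ifs
    · have := hld u
      linarith
    · exact le_rfl
  · intro u v hne
    rcases hstr u v hne with h1 | ⟨e, _, i, hi, h1⟩
    · rw [h1.1]
      refine (h.sideN u ?_).symm
      intro h2
      exact h1.2 (by rw [h1.1, h2])
    · have h2 := e.2.2.1.1.2 i hi
      have h3 : xs N R e.1.2 e.1.1 (i + 1) =
          R (e.1.2 (Fin.ofNat 4 i)) (N (xs N R e.1.2 e.1.1 i)) := rfl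
      rw [h3] at h2
      have h4 := h.sideR _ _ h2
      rcases h1 with ⟨h5, h6⟩ | ⟨h5, h6⟩
      · rw [← h5, ← h6]
        exact h4.symm
      · rw [← h5, ← h6]
        exact h4
  · intro u v hne
    rcases hstr u v hne with h1 | ⟨e, hk, i, hi, h1⟩
    · exact Or.inl h1
    · right
      refine ⟨e, hk, Fin.ofNat 4 i, ?_⟩
      have h2 : ((Fin.ofNat 4 i : Fin 4) : ℕ) = i := Nat.mod_eq_of_lt hi
      rw [h2]
      rcases h1 with ⟨h5, h6⟩ | ⟨h5, h6⟩
      · left
        refine ⟨h5, ?_⟩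
        rw [← h6, ← h5]
        rfl
      · right
        refine ⟨h5, ?_⟩
        rw [← h6, ← h5]
        rfl
  · intro u
    rw [hsum u]
    split_ifs
    · exact zero_le_one
    · have h1 : 0 ≤ ∑ e ∈ inc (GB ht h A Q) u, y e := Finset.sum_nonneg fun e _ => hy0 e
      linarith
  · intro u hu hA hQ'
    rw [hsum u, if_neg hu]
    have h1 : ∑ e ∈ inc (GB ht h A Q) u, y e = 0 := by
      refine Finset.sum_eq_zero fun e he => ?_
      exfalso
      rw [Wts_mem] at he
      rcases he with h4 | h4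
      · have h5 := (hend e).1
        rw [h4] at h5
        exact h5.elim hA hQ'
      · have h5 := (hend e).2
        rw [h4] at h5
        exact h5.elim hA hQ'
    rw [h1, sub_zero]
  · intro u hu
    rw [hsum u, if_neg (hol.fn u hu), hyA u hu, sub_self]

end

end Pool.Agent.H65.GI
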