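/-
ROW Lbl. The matchings of all labels.
PROOF. For every label `a` apply `wts` (`Wk`: `isb_wk`; `A = {f = a.1}`, `Hol`: `IsCol.hol`; `hAQ`: `IsRes.offA` (`Q a v → f v ≠ a.1 ∧ f (N a v) ≠ a.1`; for `Q a (N a v)`: `N a (N a v) = v`); `hQ`: `offA`; `hQQ`: if `Q a v` and `Q a (N a v)`: `v ∉ D` so `N a v ≠ v` is adjacent to `v`, contradiction to `ind`) and then `frac_match`: `M a`.
adjacency: `M a v ≠ v` gives `wt v (M a v) ≠ 0`: either `M a v = N a v` (`adjN`) or `M a v = R ρ v` or `v = R ρ (M a v)` (`adjR`, `invR`, `M a v ≠ v`).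
disjointness: suppose `a ≠ b`, `u = M a v ≠ v` and `M b v = u`. If both are `N`-edges: `disN`; one `N`-edge and one `R`-edge (`u = R ρ v` in both orientations, `invR`): `disNR`. Both `R`-edges: gadgets `e`, `e'` (kept, labels `a`, `b`), `gy e i` and `gy e' i'` are both the end of `u v` with `side = false` (`gy` has the side opposite to `e.1.1`, which has `side = true`; `wk_side`), hence equal,
and the other end is `R (f i)` resp. `R (f' i')` of it: `f i = f' i'` by `disR`. So `cfl N R a e.1 b e'.1`, contradiction to `hex`.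
holes: `f v = a.1`: `∑ u, wt v u = 0` with nonnegative terms, so `wt v (M a v) = 0`, so `M a v = v`.
`S v := v ∈ D ∨ ∃ a, Q a v`: independent: `sep` (and irreflexivity), `ind`, `offD`. Counting: if `M a v = v` then (`frac_match`) the sum is not `1`, so `N a v = v` or `f v = a.1` or `Q a v`. `#{a : a.1 = f v} = w`; `#{a : N a v = v} ≤ 1` (`on`) and `= 0` if `v ∉ D` (`off`); `#{a : Q a v} ≤ 1` (`uni`), and `Q a v` implies `v ∉ D` (`offD`).
-/
import Pool.Agent.H65.GI.Wts
import Pool.Agent.H65.GI.Fit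

set_option autoImplicit false

namespace Pool.Agent.H65.GI

open Finset Classical

private theorem Lbl_w {s w : ℕ} (c : Fin s) :
    (univ.filter (fun a : Fin s × Fin w => c = a.1)).card ≤ w := by
  have h1 : (univ.filter (fun a : Fin s × Fin w => c = a.1)) ⊆
      univ.image (fun j : Fin w => (c, j)) := by
    intro a ha
    rw [Finset.mem_filter] at ha
    exact Finset.mem_image.2 ⟨a.2, Finset.mem_univ _, by rw [ha.2]⟩
  refine (Finset.card_le_card h1).trans (Finset.card_image_le.trans ?_)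
  rw [Finset.card_univ, Fintype.card_fin]

private theorem Lbl_sum {V : Type} [Fintype V] (g : V → ℝ) (h0 : ∀ u, 0 ≤ g u)
    (h : ∑ u, g u = 0) (u : V) : g u = 0 :=
  (Finset.sum_eq_zero_iff_of_nonneg (fun u _ => h0 u)).1 h u (Finset.mem_univ u)

section
variable {V : Type} [Fintype V] {G : SimpleGraph V} {s w r K : ℕ} {side : V → Bool}
  {D : Finset V} {N : Fin s × Fin w → V → V} {R : Fin r → V → V} {f : V → Fin s}
  {pb e4 e2 X mR BR X' : ℝ} {Q : Fin s × Fin w → V → Prop}

/-- the gadgets of the label `a` -/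
abbrev GE (side : V → Bool) (N : Fin s × Fin w → V → V) (R : Fin r → V → V) (f : V → Fin s)
    (Q : Fin s × Fin w → V → Prop) (a : Fin s × Fin w) : Type :=
  Gd side (N a) R (fun v => f v = a.1) (Q a)

private theorem Lbl_side (h : IsBase G s w r K side D N R) (a : Fin s × Fin w)
    (e : GE side N R f Q a) (i : Fin 4) : side (gy (N a) R e.1 i) = false := by
  have h1 := (wk_side (isb_wk h a) e.1.2 e.1.1 4 e.2.2.1.1 i (by omega)).2
  rw [e.2.1] at h1
  exact h1

/-- the edges of a label -/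
private theorem Lbl_edge (h : IsBase G s w r K side D N R) {a : Fin s × Fin w} {u v : V}
    (k : GE side N R f Q a → Prop) (_ : u ≠ v)
    (hw : (u = N a v ∧ v ≠ u) ∨ ∃ e : GE side N R f Q a, k e ∧ ∃ i : Fin 4,
      (gy (N a) R e.1 i = v ∧ u = R (e.1.2 i) v) ∨
        (gy (N a) R e.1 i = u ∧ v = R (e.1.2 i) u)) :
    u = N a v ∨ ∃ e : GE side N R f Q a, k e ∧ ∃ i : Fin 4, u = R (e.1.2 i) v ∧
      (gy (N a) R e.1 i = v ∨ gy (N a) R e.1 i = u) := by
  rcases hw with hw | ⟨e, he, i, hw | hw⟩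
  · exact Or.inl hw.1
  · exact Or.inr ⟨e, he, i, hw.2, Or.inl hw.1⟩
  · refine Or.inr ⟨e, he, i, ?_, Or.inr hw.1⟩
    have h1 := congrArg (R (e.1.2 i)) hw.2
    rw [h.invR] at h1
    exact h1.symm

private theorem Lbl_dis (h : IsBase G s w r K side D N R) (k : ∀ a, GE side N R f Q a → Prop)
    (hex : ∀ a b (e : GE side N R f Q a) (e' : GE side N R f Q b), cfl N R a e.1 b e'.1 →
      ¬ (k a e ∧ k b e')) {a b : Fin s × Fin w} (hab : a ≠ b) {u v : V} (hne : u ≠ v)
    (hs : side v ≠ side u)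
    (ha : u = N a v ∨ ∃ e : GE side N R f Q a, k a e ∧ ∃ i : Fin 4, u = R (e.1.2 i) v ∧
      (gy (N a) R e.1 i = v ∨ gy (N a) R e.1 i = u))
    (hb : u = N b v ∨ ∃ e : GE side N R f Q b, k b e ∧ ∃ i : Fin 4, u = R (e.1.2 i) v ∧
      (gy (N b) R e.1 i = v ∨ gy (N b) R e.1 i = u)) : False := by
  rcases ha with ha | ⟨e, he, i, hi, hgi⟩
  · rcases hb with hb | ⟨e', he', i', hi', hgi'⟩
    · exact h.disN a b v hab (by rw [← ha]; exact hne) (ha.symm.trans hb)
    · exact h.disNR a (e'.1.2 i') v (by rw [← ha]; exact hne) (ha.symm.trans hi')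
  · rcases hb with hb | ⟨e', he', i', hi', hgi'⟩
    · exact h.disNR b (e.1.2 i) v (by rw [← hb]; exact hne) (hb.symm.trans hi)
    · have h1 := Lbl_side h a e i
      have h2 := Lbl_side h b e' i'
      have h3 : e.1.2 i = e'.1.2 i' := by
        by_contra hcon
        exact h.disR _ _ v hcon (by rw [← hi]; exact hne) (hi.symm.trans hi')
      have h4 : gy (N a) R e.1 i = gy (N b) R e'.1 i' := by
        rcases hgi with hgi | hgi
        · rcases hgi' with hgi' | hgi'
          · rw [hgi, hgi']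
          · rw [hgi] at h1
            rw [hgi'] at h2
            exact absurd (h1.trans h2.symm) hs
        · rcases hgi' with hgi' | hgi'
          · rw [hgi] at h1
            rw [hgi'] at h2
            exact absurd (h2.trans h1.symm) hs
          · rw [hgi, hgi']
      exact hex a b e e' ⟨hab, i, i', h3, h4⟩ ⟨he, he'⟩

theorem lbl (ht : TL G 33) (h : IsCol G s w r K side D N R f pb e4 e2 X)
    (hR : IsRes G D N R f Q mR BR X') (k : ∀ a, GE side N R f Q a → Prop)
    (hex : ∀ a b (e : GE side N R f Q a) (e' : GE side N R f Q b), cfl N R a e.1 b e'.1 →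
      ¬ (k a e ∧ k b e'))
    (y : ∀ a, GE side N R f Q a → ℝ) (b : ℝ) (hb0 : 0 ≤ b) (hy0 : ∀ a e, 0 ≤ y a e)
    (hyk : ∀ a e, ¬ k a e → y a e = 0) (hyb : ∀ a e, y a e ≤ b)
    (hyA : ∀ a v, f v = a.1 →
      ∑ e ∈ inc (GB ht (isb_wk h.base a) (fun v => f v = a.1) (Q a)) v, y a e = 1)
    (hyQ : ∀ a v, f v ≠ a.1 →
      ∑ e ∈ inc (GB ht (isb_wk h.base a) (fun v => f v = a.1) (Q a)) v, y a e ≤ 1 / 2)
    (hm : ∀ a v, ((univ.filter (fun e : GE side N R f Q a =>
      mdl (N a) R v e.1 ∧ k a e)).card : ℝ) * b ≤ 1 / 2) :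
    ∃ (S : V → Prop) (M : Fin s × Fin w → V → V),
      (∀ u v, S u → S v → ¬ G.Adj u v) ∧
      (∀ a v, M a (M a v) = v) ∧ (∀ a v, M a v ≠ v → G.Adj v (M a v)) ∧
      (∀ a b v, a ≠ b → M a v ≠ v → M a v ≠ M b v) ∧
      (∀ a v, f v = a.1 → M a v = v) ∧
      (∀ v, ¬ S v → (univ.filter (fun a : Fin s × Fin w => M a v = v)).card ≤ w) ∧
      ∀ v, (univ.filter (fun a : Fin s × Fin w => M a v = v)).card ≤ w + 1 := by
  have hb := h.base
  have hN : ∀ a, ∃ m : V → V, (∀ v, m (m v) = v) ∧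
      (∀ v, m v ≠ v → side v ≠ side (m v) ∧ (m v = N a v ∨ ∃ e : GE side N R f Q a, k a e ∧
        ∃ i : Fin 4, m v = R (e.1.2 i) v ∧
          (gy (N a) R e.1 i = v ∨ gy (N a) R e.1 i = m v))) ∧
      (∀ v, f v = a.1 → m v = v) ∧
      ∀ v, m v = v → N a v = v ∨ f v = a.1 ∨ Q a v := by
    intro a
    have hAQ : ∀ v, f v = a.1 → ¬ Q a v ∧ ¬ Q a (N a v) := by
      intro v hv
      refine ⟨fun hq => (hR.offA a v hq).1 hv, fun hq => ?_⟩
      have h1 := (hR.offA a _ hq).2
      rw [hb.invN] at h1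
      exact h1 hv
    have hQ : ∀ v, Q a v → ¬ f (N a v) = a.1 := fun v hv => (hR.offA a v hv).2
    have hQQ : ∀ v, Q a v → ¬ Q a (N a v) := by
      intro v hv hv'
      have h1 := (hb.off v (hR.offD a v hv).1).1 a
      exact hR.ind a a v (N a v) hv hv' (hb.adjN a v h1)
    obtain ⟨wt, w1, w2, w7, w3, w4, w5, w6⟩ := wts ht (isb_wk hb a) (fun v => f v = a.1) (Q a)
      (h.hol a) hAQ hQ hQQ (k a) (y a) b hb0 (hy0 a) (hyk a) (hyb a) (hyA a) (hyQ a) (hm a)
    obtain ⟨m, m1, m2, m3⟩ := frac_match side wt w2 w1 w7 w4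
    refine ⟨m, m1, fun v hv => ?_, fun v hv => ?_, fun v hv => ?_⟩
    · have h1 := m2 v hv
      exact ⟨w7 v (m v) h1, Lbl_edge hb (k a) hv (w3 v (m v) h1)⟩
    · by_contra hne
      exact m2 v hne (Lbl_sum _ (w2 v) (w6 v hv) _)
    · by_contra hcon
      rw [not_or, not_or] at hcon
      exact m3 v (w5 v hcon.1 hcon.2.1 hcon.2.2) hv
  choose M hM1 hM2 hM3 hM4 using hN
  refine ⟨fun v => v ∈ D ∨ ∃ a, Q a v, M, ?_, hM1, ?_, ?_, ?_, ?_, ?_⟩
  · rintro u v (hu | ⟨a, hu⟩) (hv | ⟨c, hv⟩) hadj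
    · by_cases huv : u = v
      · rw [huv] at hadj
        exact G.loopless.irrefl v hadj
      · exact (hb.sep u hu v hv huv).1 hadj
    · exact (hR.offD c v hv).2 u hu hadj.symm
    · exact (hR.offD a u hu).2 v hv hadj
    · exact hR.ind a c u v hu hv hadj
  · intro a v hv
    obtain ⟨-, h1 | ⟨e, -, i, h1, -⟩⟩ := hM2 a v hv
    · rw [h1] at hv ⊢
      exact hb.adjN a v hv
    · rw [h1] at hv ⊢
      exact hb.adjR _ v hv
  · intro a c v hac hv heq
    obtain ⟨h1, h2⟩ := hM2 a v hv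
    have hv' : M c v ≠ v := by
      rw [← heq]
      exact hv
    obtain ⟨h3, h4⟩ := hM2 c v hv'
    rw [← heq] at h4
    exact Lbl_dis hb k hex hac hv h1 h2 h4
  · intro a v hv
    exact hM3 a v hv
  · intro v hv
    refine (Finset.card_le_card ?_).trans (Lbl_w (s := s) (w := w) (f v))
    intro a ha
    rw [Finset.mem_filter] at ha ⊢
    refine ⟨Finset.mem_univ _, ?_⟩
    rcases hM4 a v ha.2 with h1 | h1 | h1
    · exact absurd h1 ((hb.off v fun hD => hv (Or.inl hD)).1 a)
    · exact h1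
    · exact absurd (Or.inr ⟨a, h1⟩) hv
  · intro v
    have h1 : univ.filter (fun a : Fin s × Fin w => M a v = v) ⊆
        univ.filter (fun a : Fin s × Fin w => f v = a.1) ∪
          (univ.filter (fun a : Fin s × Fin w => N a v = v) ∪
            univ.filter (fun a : Fin s × Fin w => Q a v)) := by
      intro a ha
      rw [Finset.mem_filter] at ha
      rw [Finset.mem_union, Finset.mem_union, Finset.mem_filter, Finset.mem_filter,
        Finset.mem_filter]
      rcases hM4 a v ha.2 with h1 | h1 | h1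
      · exact Or.inr (Or.inl ⟨Finset.mem_univ _, h1⟩)
      · exact Or.inl ⟨Finset.mem_univ _, h1⟩
      · exact Or.inr (Or.inr ⟨Finset.mem_univ _, h1⟩)
    have h2 : (univ.filter (fun a : Fin s × Fin w => N a v = v) ∪
        univ.filter (fun a : Fin s × Fin w => Q a v)).card ≤ 1 := by
      by_cases hD : v ∈ D
      · have h3 : univ.filter (fun a : Fin s × Fin w => Q a v) = ∅ := by
          rw [Finset.filter_eq_empty_iff]
          intro a _ hq
          exact (hR.offD a v hq).1 hD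
        rw [h3, Finset.union_empty]
        have h4 := hb.on v
        omega
      · have h3 : univ.filter (fun a : Fin s × Fin w => N a v = v) = ∅ := by
          rw [Finset.filter_eq_empty_iff]
          intro a _ hq
          exact (hb.off v hD).1 a hq
        rw [h3, Finset.empty_union, Finset.card_le_one]
        intro a ha c hc
        rw [Finset.mem_filter] at ha hc
        exact hR.uni a c v ha.2 hc.2
    have h3 := Lbl_w (s := s) (w := w) (f v)
    exact (Finset.card_le_card h1).trans ((Finset.card_union_le _ _).trans (by omega))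

end

end Pool.Agent.H65.GI
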