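/-
ROW Tsz. Counting words: sets of end points and numbers of walks; lost walks.
PROOF. `fib`: the restriction of a word to the coordinates `≥ j` (i.e. the map to `{i : Fin 4 // j ≤ i} → Fin r`, or recursively) is injective on the set; `r^(4-j)`.
`ty_cnt`: partition the words on the left by the value `x = N (xs f a j)`, i.e. `∑ x ∈ (TY N R j a).filter P` of the number of words with `mvg .. j` and `N (xs ..) = x`; for every `x ∈ TY` this number is exactly `r^(4-j)`: fix one such word `f0`; `g` is such a word iff it agrees with `f0` on the coordinates `< j`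
(`wk_inj`; conversely `xs g a i = xs f0 a i` for `i ≤ j` if `g` agrees with `f0` on the coordinates `< j`, lemma `xs_cgr`). `tx_cnt`: the same with `xs f a j`.
`los4`: let `f` be a word without `mvg f a 4`, `r ≥ 1` (for `r = 0` there are no words). There is a first failure: either (a) an `i ≤ 4` with `N x_i = x_i` and `mvg`-conditions before: all `N x_{i'} ≠ x_{i'}` for `i' < i`, `x_{i'+1} ≠ y_{i'}` for `i' < i`; or (b) an `i < 4` with `x_{i+1} = y_i`, i.e. `R (f i) y_i = y_i`, and all conditions before, including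
`N x_i ≠ x_i`, i.e. `mvg f a i`. By the hypotheses (a) has `i ≥ 2`, (b) has `i ≥ 1`. In case (a) `x_i ∈ D` (`offN`) lies in `bl G a 11` (`wk_bl`), in case (b) `y_i ∈ D` (`offR`). For given `i` and `d ∈ D ∩ bl G a 11` (at most `K`) the words of case (a) with `x_i = d` agree on the coordinates `< i`: they satisfy `mvg f a (i-1)`, and `x_i = R (f (i-1)) y_{i-1}` with
`x_i ≠ y_{i-1}`: by `TL.uniq` (the walk to `y_{i-1}` of `wk_nb` extended by the step to `x_i`, `i ≥ 1`: `x_i` is adjacent to `y_{i-1}` and `≠ x_{i-1}` by `disNR`) `y_{i-1}` is determined, so `x_{i-1}`, and `f (i-1)` by `disR`; then `wk_inj` for `i - 1`. So `≤ r^(4-i)` words (`fib`). The words of case (b) with `y_i = d` agree on the coordinates `< i` (`wk_inj`, `mvg f a i`) and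
on the coordinate `i` (`Wk.one`): `≤ r^(4-(i+1))`. Total `K (r^2 + r + 1) + K (r^2 + r + 1) ≤ 6 K r^2`.
`los2`: the same with `j = 2`: (a) `i ∈ {1, 2}`: `K r^3 + K r^2`; (b) `i = 0`: one value of `f 0`: `r^3`; `i = 1`: `K r^2`. Total `≤ (3 K + 1) r^3`.
`ty4_sz`: `ty_cnt` with `P = True`: `|TY 4| = r^4 - #lost`. `ty2_sz`, `tx2_sz`: `r^2 |TY 2| = r^4 - #lost`, divide by `r^2`.
-/
import Pool.Agent.H65.GI.Wkl

set_option autoImplicit false

namespace Pool.Agent.H65.GI

open Finset Classical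

theorem Tsz_agr {r : ℕ} (f0 : Fin 4 → Fin r) (j : ℕ) (hj : j ≤ 4) :
    (univ.filter (fun g : Fin 4 → Fin r =>
      ∀ i < j, f0 (Fin.ofNat 4 i) = g (Fin.ofNat 4 i))).card = r ^ (4 - j) := by
  have h1 : univ.filter (fun g : Fin 4 → Fin r => ∀ i < j, f0 (Fin.ofNat 4 i) = g (Fin.ofNat 4 i)) =
      Fintype.piFinset (fun i : Fin 4 => if i.val < j then {f0 i} else univ) := by
    ext g
    rw [Finset.mem_filter, Fintype.mem_piFinset]
    constructor
    · intro hg i
      by_cases hi : i.val < j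
      · rw [if_pos hi, Finset.mem_singleton]
        have h2 := hg.2 i.val hi
        have h3 : Fin.ofNat 4 i.val = i := Fin.ext (Nat.mod_eq_of_lt i.isLt)
        rw [h3] at h2
        exact h2.symm
      · rw [if_neg hi]
        exact Finset.mem_univ _
    · intro hg
      refine ⟨Finset.mem_univ _, fun i hi => ?_⟩
      have h2 := hg (Fin.ofNat 4 i)
      have h3 : (Fin.ofNat 4 i).val = i := Nat.mod_eq_of_lt (by omega)
      rw [if_pos (by rw [h3]; exact hi), Finset.mem_singleton] at h2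
      exact h2.symm
  rw [h1, Fintype.card_piFinset]
  interval_cases j <;> simp [Fin.prod_univ_four] <;> ring

theorem fib {r : ℕ} (S : Finset (Fin 4 → Fin r)) (j : ℕ) (hj : j ≤ 4)
    (h : ∀ f ∈ S, ∀ g ∈ S, ∀ i < j, f (Fin.ofNat 4 i) = g (Fin.ofNat 4 i)) :
    S.card ≤ r ^ (4 - j) := by
  rcases S.eq_empty_or_nonempty with rfl | ⟨f0, hf0⟩
  · rw [Finset.card_empty]
    exact Nat.zero_le _
  · rw [← Tsz_agr f0 j hj]
    exact Finset.card_le_card fun g hg => Finset.mem_filter.2 ⟨Finset.mem_univ _, h f0 hf0 g hg⟩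

theorem xs_cgr {V : Type} {r : ℕ} (N : V → V) (R : Fin r → V → V) (f g : Fin 4 → Fin r) (a : V)
    (j : ℕ) (h : ∀ i < j, f (Fin.ofNat 4 i) = g (Fin.ofNat 4 i)) :
    ∀ i ≤ j, xs N R f a i = xs N R g a i := by
  intro i
  induction i with
  | zero =>
    intro _
    rfl
  | succ i ih =>
    intro hi
    show R (f (Fin.ofNat 4 i)) (N (xs N R f a i)) = R (g (Fin.ofNat 4 i)) (N (xs N R g a i))
    rw [ih (by omega), h i (by omega)]

section
variable {V : Type} [Fintype V] {G : SimpleGraph V} {r K : ℕ} {side : V → Bool} {D : Finset V}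
  {N : V → V} {R : Fin r → V → V}

theorem Tsz_mcg {f g : Fin 4 → Fin r} {a : V} {j : ℕ}
    (h : ∀ i < j, f (Fin.ofNat 4 i) = g (Fin.ofNat 4 i)) (hf : mvg N R f a j) :
    mvg N R g a j := by
  have h1 := xs_cgr N R f g a j h
  refine ⟨fun i hi => ?_, fun i hi => ?_⟩
  · rw [← h1 i hi]
    exact hf.1 i hi
  · rw [← h1 i hi.le, ← h1 (i + 1) hi]
    exact hf.2 i hi

theorem Tsz_cnt (ht : TL G 33) (h : Wk G K side D N R) (a : V) (j : ℕ) (hj : j ≤ 4) (φ : V → V)
    (hφ : ∀ x y, φ x = φ y → x = y) (P : V → Prop) :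
    (univ.filter (fun f : Fin 4 → Fin r => mvg N R f a j ∧ P (φ (xs N R f a j)))).card =
      r ^ (4 - j) * ((univ.filter (fun x => ∃ f : Fin 4 → Fin r,
        mvg N R f a j ∧ φ (xs N R f a j) = x)).filter P).card := by
  rw [Finset.card_eq_sum_card_fiberwise (f := fun f : Fin 4 → Fin r => φ (xs N R f a j))
    (t := (univ.filter (fun x => ∃ f : Fin 4 → Fin r,
        mvg N R f a j ∧ φ (xs N R f a j) = x)).filter P)]
  · rw [Finset.sum_const_nat (m := r ^ (4 - j)), mul_comm]
    intro x hx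
    rw [Finset.mem_filter, Finset.mem_filter] at hx
    obtain ⟨⟨_, f0, hm0, hx0⟩, hP⟩ := hx
    rw [← Tsz_agr f0 j hj]
    congr 1
    ext g
    simp only [Finset.mem_filter, Finset.mem_univ, true_and]
    constructor
    · rintro ⟨⟨hm, _⟩, he⟩
      exact (wk_inj ht h f0 g a j hj hm0 hm (hφ _ _ (hx0.trans he.symm))).1
    · intro hg
      have h1 := xs_cgr N R f0 g a j hg j le_rfl
      refine ⟨⟨Tsz_mcg hg hm0, ?_⟩, ?_⟩
      · rw [← h1, hx0]
        exact hP
      · rw [← h1]
        exact hx0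
  · intro f hf
    rw [Finset.mem_coe, Finset.mem_filter] at hf
    rw [Finset.mem_coe, Finset.mem_filter, Finset.mem_filter]
    exact ⟨⟨Finset.mem_univ _, f, hf.2.1, rfl⟩, hf.2.2⟩

theorem ty_cnt (ht : TL G 33) (h : Wk G K side D N R) (a : V) (j : ℕ) (hj : j ≤ 4) (P : V → Prop) :
    (univ.filter (fun f : Fin 4 → Fin r => mvg N R f a j ∧ P (N (xs N R f a j)))).card =
      r ^ (4 - j) * ((TY N R j a).filter P).card :=
  Tsz_cnt ht h a j hj N (fun x y e => by rw [← h.invN x, e, h.invN]) P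

theorem tx_cnt (ht : TL G 33) (h : Wk G K side D N R) (a : V) (j : ℕ) (hj : j ≤ 4) (P : V → Prop) :
    (univ.filter (fun f : Fin 4 → Fin r => mvg N R f a j ∧ P (xs N R f a j))).card =
      r ^ (4 - j) * ((TX N R j a).filter P).card :=
  Tsz_cnt ht h a j hj (fun x => x) (fun _ _ e => e) P

/-- the first failure -/
theorem Tsz_fail {f : Fin 4 → Fin r} {a : V} (ha : N a ≠ a) (j : ℕ) (hn : ¬ mvg N R f a j) :
    ∃ i < j, mvg N R f a i ∧ (xs N R f a (i + 1) = N (xs N R f a i) ∨
      (xs N R f a (i + 1) ≠ N (xs N R f a i) ∧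
        N (xs N R f a (i + 1)) = xs N R f a (i + 1))) := by
  induction j with
  | zero =>
    exfalso
    refine hn ⟨fun i hi => ?_, fun i hi => absurd hi (Nat.not_lt_zero i)⟩
    obtain rfl : i = 0 := by omega
    exact ha
  | succ j ih =>
    by_cases hm : mvg N R f a j
    · refine ⟨j, Nat.lt_succ_self j, hm, ?_⟩
      by_cases h1 : xs N R f a (j + 1) = N (xs N R f a j)
      · exact Or.inl h1
      · refine Or.inr ⟨h1, ?_⟩
        by_contra h2
        refine hn ⟨fun i hi => ?_, fun i hi => ?_⟩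
        · rcases Nat.le_succ_iff.1 hi with hi | rfl
          · exact hm.1 i hi
          · exact h2
        · rcases Nat.lt_succ_iff_lt_or_eq.1 hi with hi | rfl
          · exact hm.2 i hi
          · exact h1
    · obtain ⟨i, hi, h1⟩ := ih hm
      exact ⟨i, by omega, h1⟩

theorem Tsz_nb (h : Wk G K side D N R) {f : Fin 4 → Fin r} {a : V} {i : ℕ}
    (hm : mvg N R f a i) (h2 : xs N R f a (i + 1) ≠ N (xs N R f a i)) :
    Nb G a (N a) (2 * i + 1) (N (xs N R f a i)) (xs N R f a (i + 1)) := by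
  have h1 := (wk_nb h f a i hm).1 i le_rfl
  have h3 := hm.1 i le_rfl
  have e : xs N R f a (i + 1) = R (f (Fin.ofNat 4 i)) (N (xs N R f a i)) := rfl
  refine Nb.step h1 ?_ ?_
  · rw [e] at h2 ⊢
    exact h.adjR _ _ h2
  · have h4 := h.disNR (f (Fin.ofNat 4 i)) (N (xs N R f a i)) (by
      rw [h.invN]
      exact h3.symm)
    rw [h.invN] at h4
    rw [e]
    exact h4.symm

theorem Tsz_A (ht : TL G 33) (h : Wk G K side D N R) (a : V) (i : ℕ) (hi : i ≤ 3) :
    (univ.filter (fun f : Fin 4 → Fin r => mvg N R f a i ∧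
      xs N R f a (i + 1) ≠ N (xs N R f a i) ∧
        N (xs N R f a (i + 1)) = xs N R f a (i + 1))).card ≤ K * r ^ (4 - (i + 1)) := by
  have h1 := Finset.card_le_mul_card_image_of_maps_to
    (s := univ.filter (fun f : Fin 4 → Fin r => mvg N R f a i ∧
      xs N R f a (i + 1) ≠ N (xs N R f a i) ∧
        N (xs N R f a (i + 1)) = xs N R f a (i + 1)))
    (t := (bl G a 11).filter (fun x => x ∈ D)) (f := fun f => xs N R f a (i + 1)) (by
      intro f hf
      rw [Finset.mem_filter] at hf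
      rw [Finset.mem_filter]
      refine ⟨bl_mono G a (by omega) (wk_bl h f a (i + 1)).1, ?_⟩
      by_contra hD
      exact h.offN _ hD hf.2.2.2) (r ^ (4 - (i + 1))) (by
      intro d _
      refine fib _ (i + 1) (by omega) ?_
      intro f hf g hg
      rw [Finset.mem_filter, Finset.mem_filter] at hf hg
      obtain ⟨⟨_, hf1, hf2, _⟩, hfd⟩ := hf
      obtain ⟨⟨_, hg1, hg2, _⟩, hgd⟩ := hg
      have n1 := Tsz_nb h hf1 hf2
      have n2 := Tsz_nb h hg1 hg2
      have hfd' : xs N R f a (i + 1) = d := hfd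
      have hgd' : xs N R g a (i + 1) = d := hgd
      rw [hgd', ← hfd'] at n2
      obtain ⟨_, _, h3⟩ := ht.uniq a (N a) (N a) (2 * i + 1) (2 * i + 1) _ _ _ (by omega)
        (by omega) n1 n2
      have h4 : xs N R f a i = xs N R g a i := by
        have h5 := congrArg N h3
        rwa [h.invN, h.invN] at h5
      obtain ⟨e1, _⟩ := wk_inj ht h f g a i (by omega) hf1 hg1 h4
      have h6 : f (Fin.ofNat 4 i) = g (Fin.ofNat 4 i) := by
        by_contra hne
        refine h.disR _ _ _ hne hf2 ?_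
        have e2 : R (g (Fin.ofNat 4 i)) (N (xs N R f a i)) = xs N R g a (i + 1) := by
          rw [h4]
          rfl
        rw [e2, hgd', ← hfd']
        rfl
      intro k hk
      rcases Nat.lt_succ_iff_lt_or_eq.1 hk with hk | rfl
      · exact e1 k hk
      · exact h6)
  refine h1.trans ?_
  rw [mul_comm]
  exact Nat.mul_le_mul_right _ (h.few a)

theorem Tsz_B (ht : TL G 33) (h : Wk G K side D N R) (a : V) (i : ℕ) (hi : i ≤ 3) :
    (univ.filter (fun f : Fin 4 → Fin r => mvg N R f a i ∧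
      xs N R f a (i + 1) = N (xs N R f a i))).card ≤ K * r ^ (4 - (i + 1)) := by
  have h1 := Finset.card_le_mul_card_image_of_maps_to
    (s := univ.filter (fun f : Fin 4 → Fin r => mvg N R f a i ∧
      xs N R f a (i + 1) = N (xs N R f a i)))
    (t := (bl G a 11).filter (fun x => x ∈ D)) (f := fun f => N (xs N R f a i)) (by
      intro f hf
      rw [Finset.mem_filter] at hf
      rw [Finset.mem_filter]
      refine ⟨bl_mono G a (by omega) (wk_bl h f a i).2, ?_⟩
      by_contra hD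
      exact h.offR _ hD _ hf.2.2) (r ^ (4 - (i + 1))) (by
      intro d _
      refine fib _ (i + 1) (by omega) ?_
      intro f hf g hg
      rw [Finset.mem_filter, Finset.mem_filter] at hf hg
      obtain ⟨⟨_, hf1, hf2⟩, hfd⟩ := hf
      obtain ⟨⟨_, hg1, hg2⟩, hgd⟩ := hg
      have hfd' : N (xs N R f a i) = d := hfd
      have hgd' : N (xs N R g a i) = d := hgd
      have h4 : xs N R f a i = xs N R g a i := by
        have h5 := congrArg N (hfd'.trans hgd'.symm)
        rwa [h.invN, h.invN] at h5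
      obtain ⟨e1, _⟩ := wk_inj ht h f g a i (by omega) hf1 hg1 h4
      have e2 : R (f (Fin.ofNat 4 i)) (N (xs N R f a i)) = N (xs N R f a i) := hf2
      have e3 : R (g (Fin.ofNat 4 i)) (N (xs N R g a i)) = N (xs N R g a i) := hg2
      rw [hfd'] at e2
      rw [hgd'] at e3
      have h6 := h.one d _ _ e2 e3
      intro k hk
      rcases Nat.lt_succ_iff_lt_or_eq.1 hk with hk | rfl
      · exact e1 k hk
      · exact h6)
  refine h1.trans ?_
  rw [mul_comm]
  exact Nat.mul_le_mul_right _ (h.few a)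

theorem los4 (ht : TL G 33) (h : Wk G K side D N R) (a : V) (ha : N a ≠ a)
    (hr : ∀ ρ, R ρ (N a) ≠ N a) (hnr : ∀ ρ, N (R ρ (N a)) ≠ R ρ (N a)) :
    (univ.filter (fun f : Fin 4 → Fin r => ¬ mvg N R f a 4)).card ≤ 6 * K * r ^ 2 := by
  rcases Nat.eq_zero_or_pos r with hr0 | hr0
  · subst hr0
    have h0 : (univ : Finset (Fin 4 → Fin 0)) = ∅ :=
      Finset.univ_eq_empty_iff.2 ⟨fun f => (f 0).elim0⟩
    rw [h0, Finset.filter_empty, Finset.card_empty]
    exact Nat.zero_le _
  · have a1 := Tsz_A ht h a 1 (by omega)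
    have a2 := Tsz_A ht h a 2 (by omega)
    have a3 := Tsz_A ht h a 3 (by omega)
    have b1 := Tsz_B ht h a 1 (by omega)
    have b2 := Tsz_B ht h a 2 (by omega)
    have b3 := Tsz_B ht h a 3 (by omega)
    set A1 := univ.filter (fun f : Fin 4 → Fin r => mvg N R f a 1 ∧
      xs N R f a (1 + 1) ≠ N (xs N R f a 1) ∧ N (xs N R f a (1 + 1)) = xs N R f a (1 + 1)) with hA1
    set A2 := univ.filter (fun f : Fin 4 → Fin r => mvg N R f a 2 ∧
      xs N R f a (2 + 1) ≠ N (xs N R f a 2) ∧ N (xs N R f a (2 + 1)) = xs N R f a (2 + 1)) with hA2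
    set A3 := univ.filter (fun f : Fin 4 → Fin r => mvg N R f a 3 ∧
      xs N R f a (3 + 1) ≠ N (xs N R f a 3) ∧ N (xs N R f a (3 + 1)) = xs N R f a (3 + 1)) with hA3
    set B1 := univ.filter (fun f : Fin 4 → Fin r => mvg N R f a 1 ∧
      xs N R f a (1 + 1) = N (xs N R f a 1)) with hB1
    set B2 := univ.filter (fun f : Fin 4 → Fin r => mvg N R f a 2 ∧
      xs N R f a (2 + 1) = N (xs N R f a 2)) with hB2
    set B3 := univ.filter (fun f : Fin 4 → Fin r => mvg N R f a 3 ∧
      xs N R f a (3 + 1) = N (xs N R f a 3)) with hB3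
    have hsub : univ.filter (fun f : Fin 4 → Fin r => ¬ mvg N R f a 4) ⊆
        ((A1 ∪ A2) ∪ A3) ∪ ((B1 ∪ B2) ∪ B3) := by
      intro f hf
      obtain ⟨i, hi, hm, h1⟩ := Tsz_fail ha 4 (Finset.mem_filter.1 hf).2
      simp only [Finset.mem_union]
      have hi' : i = 0 ∨ i = 1 ∨ i = 2 ∨ i = 3 := by omega
      rcases hi' with rfl | rfl | rfl | rfl
      · exfalso
        rcases h1 with h1 | ⟨_, h1⟩
        · exact hr _ h1
        · exact hnr _ h1
      · rcases h1 with h1 | h1
        · exact Or.inr (Or.inl (Or.inl (Finset.mem_filter.2 ⟨Finset.mem_univ _, hm, h1⟩)))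
        · exact Or.inl (Or.inl (Or.inl (Finset.mem_filter.2 ⟨Finset.mem_univ _, hm, h1⟩)))
      · rcases h1 with h1 | h1
        · exact Or.inr (Or.inl (Or.inr (Finset.mem_filter.2 ⟨Finset.mem_univ _, hm, h1⟩)))
        · exact Or.inl (Or.inl (Or.inr (Finset.mem_filter.2 ⟨Finset.mem_univ _, hm, h1⟩)))
      · rcases h1 with h1 | h1
        · exact Or.inr (Or.inr (Finset.mem_filter.2 ⟨Finset.mem_univ _, hm, h1⟩))
        · exact Or.inl (Or.inr (Finset.mem_filter.2 ⟨Finset.mem_univ _, hm, h1⟩))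
    have hc := Finset.card_le_card hsub
    have c1 := Finset.card_union_le ((A1 ∪ A2) ∪ A3) ((B1 ∪ B2) ∪ B3)
    have c2 := Finset.card_union_le (A1 ∪ A2) A3
    have c3 := Finset.card_union_le A1 A2
    have c4 := Finset.card_union_le (B1 ∪ B2) B3
    have c5 := Finset.card_union_le B1 B2
    have e1 : r ^ (4 - (1 + 1)) = r ^ 2 := rfl
    have e2 : r ^ (4 - (2 + 1)) ≤ r ^ 2 := Nat.pow_le_pow_right hr0 (by omega)
    have e3 : r ^ (4 - (3 + 1)) ≤ r ^ 2 := Nat.pow_le_pow_right hr0 (by omega)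
    have f2 := Nat.mul_le_mul_left K e2
    have f3 := Nat.mul_le_mul_left K e3
    rw [e1] at a1 b1
    have e4 : 6 * K * r ^ 2 = 6 * (K * r ^ 2) := by ring
    omega

theorem los2 (ht : TL G 33) (h : Wk G K side D N R) (a : V) (ha : N a ≠ a) :
    (univ.filter (fun f : Fin 4 → Fin r => ¬ mvg N R f a 2)).card ≤ (3 * K + 1) * r ^ 3 := by
  rcases Nat.eq_zero_or_pos r with hr0 | hr0
  · subst hr0
    have h0 : (univ : Finset (Fin 4 → Fin 0)) = ∅ :=
      Finset.univ_eq_empty_iff.2 ⟨fun f => (f 0).elim0⟩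
    rw [h0, Finset.filter_empty, Finset.card_empty]
    exact Nat.zero_le _
  · have a0 := Tsz_A ht h a 0 (by omega)
    have a1 := Tsz_A ht h a 1 (by omega)
    have b1 := Tsz_B ht h a 1 (by omega)
    set A0 := univ.filter (fun f : Fin 4 → Fin r => mvg N R f a 0 ∧
      xs N R f a (0 + 1) ≠ N (xs N R f a 0) ∧ N (xs N R f a (0 + 1)) = xs N R f a (0 + 1)) with hA0
    set A1 := univ.filter (fun f : Fin 4 → Fin r => mvg N R f a 1 ∧
      xs N R f a (1 + 1) ≠ N (xs N R f a 1) ∧ N (xs N R f a (1 + 1)) = xs N R f a (1 + 1)) with hA1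
    set B0 := univ.filter (fun f : Fin 4 → Fin r => mvg N R f a 0 ∧
      xs N R f a (0 + 1) = N (xs N R f a 0)) with hB0
    set B1 := univ.filter (fun f : Fin 4 → Fin r => mvg N R f a 1 ∧
      xs N R f a (1 + 1) = N (xs N R f a 1)) with hB1
    have b0 : B0.card ≤ r ^ 3 := by
      refine fib B0 1 (by omega) ?_
      intro f hf g hg i hi
      obtain rfl : i = 0 := by omega
      have e2 : R (f (Fin.ofNat 4 0)) (N a) = N a := (Finset.mem_filter.1 hf).2.2
      have e3 : R (g (Fin.ofNat 4 0)) (N a) = N a := (Finset.mem_filter.1 hg).2.2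
      exact h.one (N a) _ _ e2 e3
    have hsub : univ.filter (fun f : Fin 4 → Fin r => ¬ mvg N R f a 2) ⊆
        (A0 ∪ A1) ∪ (B0 ∪ B1) := by
      intro f hf
      obtain ⟨i, hi, hm, h1⟩ := Tsz_fail ha 2 (Finset.mem_filter.1 hf).2
      simp only [Finset.mem_union]
      have hi' : i = 0 ∨ i = 1 := by omega
      rcases hi' with rfl | rfl
      · rcases h1 with h1 | h1
        · exact Or.inr (Or.inl (Finset.mem_filter.2 ⟨Finset.mem_univ _, hm, h1⟩))
        · exact Or.inl (Or.inl (Finset.mem_filter.2 ⟨Finset.mem_univ _, hm, h1⟩))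
      · rcases h1 with h1 | h1
        · exact Or.inr (Or.inr (Finset.mem_filter.2 ⟨Finset.mem_univ _, hm, h1⟩))
        · exact Or.inl (Or.inr (Finset.mem_filter.2 ⟨Finset.mem_univ _, hm, h1⟩))
    have hc := Finset.card_le_card hsub
    have c1 := Finset.card_union_le (A0 ∪ A1) (B0 ∪ B1)
    have c2 := Finset.card_union_le A0 A1
    have c3 := Finset.card_union_le B0 B1
    have e0 : r ^ (4 - (0 + 1)) = r ^ 3 := rfl
    have e1 : r ^ (4 - (1 + 1)) ≤ r ^ 3 := Nat.pow_le_pow_right hr0 (by omega)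
    have f1 := Nat.mul_le_mul_left K e1
    rw [e0] at a0
    have e4 : (3 * K + 1) * r ^ 3 = 3 * (K * r ^ 3) + r ^ 3 := by ring
    omega

theorem Tsz_all (a : V) (j : ℕ) :
    (univ.filter (fun f : Fin 4 → Fin r => mvg N R f a j)).card +
      (univ.filter (fun f : Fin 4 → Fin r => ¬ mvg N R f a j)).card = r ^ 4 := by
  rw [Finset.card_filter_add_card_filter_not, Finset.card_univ]
  simp

theorem Tsz_y (ht : TL G 33) (h : Wk G K side D N R) (a : V) (j : ℕ) (hj : j ≤ 4) :
    (univ.filter (fun f : Fin 4 → Fin r => mvg N R f a j)).card =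
      r ^ (4 - j) * (TY N R j a).card ∧
    (univ.filter (fun f : Fin 4 → Fin r => mvg N R f a j)).card =
      r ^ (4 - j) * (TX N R j a).card := by
  have h1 := ty_cnt ht h a j hj (fun _ => True)
  have h2 := tx_cnt ht h a j hj (fun _ => True)
  simp only [and_true, Finset.filter_true] at h1 h2
  exact ⟨h1, h2⟩

theorem ty4_sz (ht : TL G 33) (h : Wk G K side D N R) (a : V) (ha : N a ≠ a)
    (hr : ∀ ρ, R ρ (N a) ≠ N a) (hnr : ∀ ρ, N (R ρ (N a)) ≠ R ρ (N a)) :
    (TY N R 4 a).card ≤ r ^ 4 ∧ r ^ 4 ≤ (TY N R 4 a).card + 6 * K * r ^ 2 := by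
  have h1 := (Tsz_y ht h a 4 le_rfl).1
  have h2 := Tsz_all (N := N) (R := R) a 4
  have h3 := los4 ht h a ha hr hnr
  rw [Nat.sub_self, pow_zero, one_mul] at h1
  rw [h1] at h2
  omega

/-- upper bounds, without hypotheses on `a` -/
theorem tyx_le (ht : TL G 33) (h : Wk G K side D N R) (a : V) (j : ℕ) (hj : j ≤ 4) :
    (TY N R j a).card ≤ r ^ j ∧ (TX N R j a).card ≤ r ^ j := by
  rcases Nat.eq_zero_or_pos r with hr0 | hr0
  · subst hr0
    have hY : TY N R j a = ∅ := by
      ext x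
      simp only [TY, Finset.mem_filter, Finset.notMem_empty, iff_false, not_and, not_exists]
      intro _ f
      exact (f 0).elim0
    have hX : TX N R j a = ∅ := by
      ext x
      simp only [TX, Finset.mem_filter, Finset.notMem_empty, iff_false, not_and, not_exists]
      intro _ f
      exact (f 0).elim0
    rw [hY, hX, Finset.card_empty]
    exact ⟨Nat.zero_le _, Nat.zero_le _⟩
  · obtain ⟨h1, h2⟩ := Tsz_y ht h a j hj
    have h3 := Tsz_all (N := N) (R := R) a j
    have e : r ^ 4 = r ^ (4 - j) * r ^ j := by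
      rw [← pow_add, Nat.sub_add_cancel hj]
    have hp : 0 < r ^ (4 - j) := pow_pos hr0 _
    constructor
    · refine Nat.le_of_mul_le_mul_left ?_ hp
      rw [← e, ← h1]
      omega
    · refine Nat.le_of_mul_le_mul_left ?_ hp
      rw [← e, ← h2]
      omega

theorem ty2_sz (ht : TL G 33) (h : Wk G K side D N R) (a : V) (ha : N a ≠ a) :
    r ^ 2 ≤ (TY N R 2 a).card + (3 * K + 1) * r ∧ r ^ 2 ≤ (TX N R 2 a).card + (3 * K + 1) * r := by
  rcases Nat.eq_zero_or_pos r with hr0 | hr0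
  · subst hr0
    simp
  · obtain ⟨h1, h2⟩ := Tsz_y ht h a 2 (by omega)
    have h3 := Tsz_all (N := N) (R := R) a 2
    have h4 := los2 ht h a ha
    have hp : 0 < r ^ 2 := pow_pos hr0 _
    have e0 : r ^ (4 - 2) = r ^ 2 := rfl
    rw [e0] at h1 h2
    constructor
    · refine Nat.le_of_mul_le_mul_left ?_ hp
      have e1 : r ^ 2 * ((TY N R 2 a).card + (3 * K + 1) * r) =
          r ^ 2 * (TY N R 2 a).card + (3 * K + 1) * r ^ 3 := by ring
      have e2 : r ^ 2 * r ^ 2 = r ^ 4 := by ring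
      rw [e1, e2, ← h1]
      omega
    · refine Nat.le_of_mul_le_mul_left ?_ hp
      have e1 : r ^ 2 * ((TX N R 2 a).card + (3 * K + 1) * r) =
          r ^ 2 * (TX N R 2 a).card + (3 * K + 1) * r ^ 3 := by ring
      have e2 : r ^ 2 * r ^ 2 = r ^ 4 := by ring
      rw [e1, e2, ← h2]
      omega

end

end Pool.Agent.H65.GI
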