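/-
ROW Mct. The number of gadgets at a hole.
PROOF. `cl_iff`: for `A a`: `x_1 = R ρ (N a) ∉ A` (`rn`), `y_0 = N a ∉ A` (`n1`), `y_1 = N (R ρ (N a)) ∉ A` (`nrn`). With `A y_4`: `x_4 = N y_4 ∉ A` (`n1`), `y_3 = R ρ x_4 = R ρ (N y_4) ∉ A` (`rn`), `x_3 = N y_3 = N (R ρ (N y_4)) ∉ A` (`nrn`). (`N`, `R` involutions.) Remain `x_2`, `y_2`.
`x_2` and `y_2` are not both in `A` (`n1`).
`mct`: the number of words with `mvg 4 ∧ A y_4` is `|TY 4 ∩ A|` (`ty_cnt`, `j = 4`). The words with `mvg 4 ∧ A y_4 ∧ A x_2`: map `f` to `(x_2, y_4)`: a bijection onto the pairs `(x, z)`, `x ∈ TX 2 a ∩ A`, `z ∈ TY 2 x ∩ A`: with `g = ![f 2, f 3, _, _]` `xs g x_2 i = xs f a (2+i)` (`i ≤ 2`), and `mvg f a 4` iff `mvg f a 2 ∧ mvg g x_2 2`.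
(Injective: `x_2` determines `f 0, f 1` (`wk_inj`, `j = 2`) and `(x_2, z)` determines `g 0 = f 2`, `g 1 = f 3`. Surjective: choose words `f'` for `x`, `g` for `z`, take `f = ![f' 0, f' 1, g 0, g 1]`.) Same for `A y_2`: pairs `(y, z)`, `y = y_2 ∈ TY 2 a ∩ A`, `z ∈ TY 2 (N y) ∩ A` (`N y_2 = x_2`).
So the number of words with `mvg 4, A y_4, ¬A x_2, ¬A y_2` is the difference.
`mct2`: write `u = pb (3K+1) r`, `e = e2 + u`. For every `x` with `N x ≠ x`: `| |TY 2 x ∩ A| - pb r^2 | ≤ e` (`Tst.t2`, `ty2_sz`, `tyx_le`), also for `TX 2`. Every `x ∈ TX 2 a` has `N x ≠ x` (from `mvg`), and `y ∈ A` has `N (N y) = y ≠ N y`. Both sums lie between `(pb r^2 - e)(pb r^2 - e)` and `(pb r^2 + e)^2` in the following sense: a sum of `k` numbers in `[b - e, b + e]`, `k ∈ [b-e, b+e]`,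
`b = pb r^2 ≥ 0`: `|sum - b^2| ≤ |k - b| b + k e ≤ e b + (b + e) e = 2 b e + e^2`. Two sums: `4 b e + 2 e^2`. First term: `| |TY 4 a ∩ A| - pb r^4 | ≤ e4 + pb 6 K r^2` (`Tst.t4`, `ty4_sz`). Total.
`mct_le`: words with `mvg 4 ∧ A y_4`: `ty_cnt`, `t4`, `tyx_le`.
-/
import Pool.Agent.H65.GI.Tsz

set_option autoImplicit false

namespace Pool.Agent.H65.GI

open Finset Classical

theorem Mct_up {V : Type} {r : ℕ} {N : V → V} {R : Fin r → V → V} {a x : V}
    {f' g : Fin 4 → Fin r} (hf : mvg N R f' a 2) (hx : xs N R f' a 2 = x) (hg : mvg N R g x 2) :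
    ∃ f : Fin 4 → Fin r, mvg N R f a 4 ∧ xs N R f a 2 = x ∧ xs N R f a 4 = xs N R g x 2 := by
  obtain ⟨f, hf0, hf1, hf2, hf3⟩ : ∃ f : Fin 4 → Fin r,
      f (Fin.ofNat 4 0) = f' (Fin.ofNat 4 0) ∧ f (Fin.ofNat 4 1) = f' (Fin.ofNat 4 1) ∧
      f (Fin.ofNat 4 2) = g (Fin.ofNat 4 0) ∧ f (Fin.ofNat 4 3) = g (Fin.ofNat 4 1) :=
    ⟨![f' 0, f' 1, g 0, g 1], rfl, rfl, rfl, rfl⟩
  have x1 : xs N R f a 1 = xs N R f' a 1 := by
    show R (f (Fin.ofNat 4 0)) (N a) = R (f' (Fin.ofNat 4 0)) (N a)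
    rw [hf0]
  have x2 : xs N R f a 2 = x := by
    rw [← hx]
    show R (f (Fin.ofNat 4 1)) (N (xs N R f a 1)) = R (f' (Fin.ofNat 4 1)) (N (xs N R f' a 1))
    rw [hf1, x1]
  have x3 : xs N R f a 3 = xs N R g x 1 := by
    show R (f (Fin.ofNat 4 2)) (N (xs N R f a 2)) = R (g (Fin.ofNat 4 0)) (N x)
    rw [hf2, x2]
  have x4 : xs N R f a 4 = xs N R g x 2 := by
    show R (f (Fin.ofNat 4 3)) (N (xs N R f a 3)) = R (g (Fin.ofNat 4 1)) (N (xs N R g x 1))
    rw [hf3, x3]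
  refine ⟨f, ⟨?_, ?_⟩, x2, x4⟩
  · intro i hi
    interval_cases i
    · exact hf.1 0 (by omega)
    · rw [x1]
      exact hf.1 1 (by omega)
    · rw [x2, ← hx]
      exact hf.1 2 (by omega)
    · rw [x3]
      exact hg.1 1 (by omega)
    · rw [x4]
      exact hg.1 2 (by omega)
  · intro i hi
    interval_cases i
    · rw [x1]
      exact hf.2 0 (by omega)
    · show xs N R f a 2 ≠ N (xs N R f a 1)
      rw [x2, x1, ← hx]
      exact hf.2 1 (by omega)
    · show xs N R f a 3 ≠ N (xs N R f a 2)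
      rw [x3, x2]
      exact hg.2 0 (by omega)
    · show xs N R f a 4 ≠ N (xs N R f a 3)
      rw [x4, x3]
      exact hg.2 1 (by omega)

theorem Mct_dn {V : Type} {r : ℕ} {N : V → V} {R : Fin r → V → V} {a x : V}
    {f : Fin 4 → Fin r} (hf : mvg N R f a 4) (hx : xs N R f a 2 = x) :
    ∃ g : Fin 4 → Fin r, mvg N R g x 2 ∧ xs N R g x 2 = xs N R f a 4 := by
  obtain ⟨g, hg0, hg1⟩ : ∃ g : Fin 4 → Fin r,
      g (Fin.ofNat 4 0) = f (Fin.ofNat 4 2) ∧ g (Fin.ofNat 4 1) = f (Fin.ofNat 4 3) :=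
    ⟨![f 2, f 3, f 0, f 1], rfl, rfl⟩
  have x3 : xs N R g x 1 = xs N R f a 3 := by
    show R (g (Fin.ofNat 4 0)) (N x) = R (f (Fin.ofNat 4 2)) (N (xs N R f a 2))
    rw [hg0, hx]
  have x4 : xs N R g x 2 = xs N R f a 4 := by
    show R (g (Fin.ofNat 4 1)) (N (xs N R g x 1)) = R (f (Fin.ofNat 4 3)) (N (xs N R f a 3))
    rw [hg1, x3]
  refine ⟨g, ⟨?_, ?_⟩, x4⟩
  · intro i hi
    interval_cases i
    · show N x ≠ x
      rw [← hx]
      exact hf.1 2 (by omega)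
    · rw [x3]
      exact hf.1 3 (by omega)
    · rw [x4]
      exact hf.1 4 (by omega)
  · intro i hi
    interval_cases i
    · show xs N R g x 1 ≠ N x
      rw [x3, ← hx]
      exact hf.2 2 (by omega)
    · show xs N R g x 2 ≠ N (xs N R g x 1)
      rw [x4, x3]
      exact hf.2 3 (by omega)

section
variable {V : Type} [Fintype V] {G : SimpleGraph V} {r K : ℕ} {side : V → Bool} {D : Finset V}
  {N : V → V} {R : Fin r → V → V} {A : V → Prop}

theorem Mct_fib (ht : TL G 33) (h : Wk G K side D N R) (a x : V) {f' : Fin 4 → Fin r}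
    (hf : mvg N R f' a 2) (hx : xs N R f' a 2 = x) :
    (univ.filter (fun f : Fin 4 → Fin r =>
      (mvg N R f a 4 ∧ A (N (xs N R f a 4))) ∧ xs N R f a 2 = x)).card =
      ((TY N R 2 x).filter A).card := by
  refine Finset.card_bij (fun f _ => N (xs N R f a 4)) ?_ ?_ ?_
  · intro f hf1
    obtain ⟨_, ⟨h1, h2⟩, h3⟩ := Finset.mem_filter.1 hf1
    obtain ⟨g, hg, hgx⟩ := Mct_dn h1 h3
    refine Finset.mem_filter.2 ⟨Finset.mem_filter.2 ⟨Finset.mem_univ _, g, hg, ?_⟩, h2⟩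
    rw [hgx]
  · intro f1 hf1 f2 hf2 he
    obtain ⟨_, ⟨h1, _⟩, _⟩ := Finset.mem_filter.1 hf1
    obtain ⟨_, ⟨h2, _⟩, _⟩ := Finset.mem_filter.1 hf2
    have he' : xs N R f1 a 4 = xs N R f2 a 4 := by
      have h3 := congrArg N he
      simpa only [h.invN] using h3
    obtain ⟨h4, _⟩ := wk_inj ht h f1 f2 a 4 le_rfl h1 h2 he'
    funext i
    have h5 := h4 i.1 i.2
    have h6 : Fin.ofNat 4 i.1 = i := by
      apply Fin.ext
      simp [Fin.ofNat, Nat.mod_eq_of_lt i.2]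
    rwa [h6] at h5
  · intro z hz
    obtain ⟨hz1, hz2⟩ := Finset.mem_filter.1 hz
    obtain ⟨_, g, hg, hgz⟩ := Finset.mem_filter.1 hz1
    obtain ⟨f, h1, h2, h3⟩ := Mct_up hf hx hg
    refine ⟨f, Finset.mem_filter.2 ⟨Finset.mem_univ _, ⟨h1, ?_⟩, h2⟩, ?_⟩
    · rw [h3, hgz]
      exact hz2
    · show N (xs N R f a 4) = z
      rw [h3, hgz]

theorem Mct_sumX (ht : TL G 33) (h : Wk G K side D N R) (a : V) :
    (univ.filter (fun f : Fin 4 → Fin r =>
      (mvg N R f a 4 ∧ A (N (xs N R f a 4))) ∧ A (xs N R f a 2))).card =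
      ∑ x ∈ (TX N R 2 a).filter A, ((TY N R 2 x).filter A).card := by
  rw [Finset.card_eq_sum_card_fiberwise (f := fun f => xs N R f a 2)
    (t := (TX N R 2 a).filter A)]
  · refine Finset.sum_congr rfl fun x hx => ?_
    obtain ⟨hx1, hx2⟩ := Finset.mem_filter.1 hx
    obtain ⟨_, f', hf', hfx⟩ := Finset.mem_filter.1 hx1
    rw [← Mct_fib ht h a x hf' hfx (A := A), Finset.filter_filter]
    congr 1
    apply Finset.filter_congr
    intro f _
    constructor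
    · rintro ⟨⟨h1, _⟩, h2⟩
      exact ⟨h1, h2⟩
    · rintro ⟨h1, h2⟩
      exact ⟨⟨h1, by rw [h2]; exact hx2⟩, h2⟩
  · intro f hf
    obtain ⟨_, ⟨h1, _⟩, h2⟩ := Finset.mem_filter.1 (Finset.mem_coe.1 hf)
    exact Finset.mem_coe.2 (Finset.mem_filter.2
      ⟨Finset.mem_filter.2 ⟨Finset.mem_univ _, f, mvg_mono (by omega) h1, rfl⟩, h2⟩)

theorem Mct_sumY (ht : TL G 33) (h : Wk G K side D N R) (a : V) :
    (univ.filter (fun f : Fin 4 → Fin r =>
      (mvg N R f a 4 ∧ A (N (xs N R f a 4))) ∧ A (N (xs N R f a 2)))).card =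
      ∑ y ∈ (TY N R 2 a).filter A, ((TY N R 2 (N y)).filter A).card := by
  rw [Finset.card_eq_sum_card_fiberwise (f := fun f => N (xs N R f a 2))
    (t := (TY N R 2 a).filter A)]
  · refine Finset.sum_congr rfl fun y hy => ?_
    obtain ⟨hy1, hy2⟩ := Finset.mem_filter.1 hy
    obtain ⟨_, f', hf', hfy⟩ := Finset.mem_filter.1 hy1
    have hfx : xs N R f' a 2 = N y := by rw [← hfy, h.invN]
    rw [← Mct_fib ht h a (N y) hf' hfx (A := A), Finset.filter_filter]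
    congr 1
    apply Finset.filter_congr
    intro f _
    constructor
    · rintro ⟨⟨h1, _⟩, h2⟩
      exact ⟨h1, by rw [← h2, h.invN]⟩
    · rintro ⟨h1, h2⟩
      have h3 : N (xs N R f a 2) = y := by rw [h2, h.invN]
      exact ⟨⟨h1, by rw [h3]; exact hy2⟩, h3⟩
  · intro f hf
    obtain ⟨_, ⟨h1, _⟩, h2⟩ := Finset.mem_filter.1 (Finset.mem_coe.1 hf)
    exact Finset.mem_coe.2 (Finset.mem_filter.2
      ⟨Finset.mem_filter.2 ⟨Finset.mem_univ _, f, mvg_mono (by omega) h1, rfl⟩, h2⟩)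

theorem Mct_ty4 (ht : TL G 33) (h : Wk G K side D N R) (a : V) :
    (univ.filter (fun f : Fin 4 → Fin r => mvg N R f a 4 ∧ A (N (xs N R f a 4)))).card =
      ((TY N R 4 a).filter A).card := by
  rw [ty_cnt ht h a 4 le_rfl A]
  simp

theorem Mct_two {S : Finset V} {g : V → ℕ} {b e : ℝ} (hb : 0 ≤ b) (he : 0 ≤ e)
    (hS : |(S.card : ℝ) - b| ≤ e) (hg : ∀ x ∈ S, |(g x : ℝ) - b| ≤ e) :
    |∑ x ∈ S, (g x : ℝ) - b ^ 2| ≤ 2 * b * e + e ^ 2 := by
  have h1 : |∑ x ∈ S, (g x : ℝ) - S.card * b| ≤ S.card * e := by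
    have h2 : ∑ x ∈ S, (g x : ℝ) - S.card * b = ∑ x ∈ S, ((g x : ℝ) - b) := by
      rw [Finset.sum_sub_distrib, Finset.sum_const, nsmul_eq_mul]
    rw [h2]
    refine (Finset.abs_sum_le_sum_abs _ _).trans ?_
    refine (Finset.sum_le_sum hg).trans ?_
    rw [Finset.sum_const, nsmul_eq_mul]
  have h3 := abs_le.1 h1
  have h4 := abs_le.1 hS
  have h5 : (S.card : ℝ) * e ≤ (b + e) * e := mul_le_mul_of_nonneg_right (by linarith) he
  have h6 : ((S.card : ℝ) - b) * b ≤ e * b := mul_le_mul_of_nonneg_right h4.2 hb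
  have h7 : -e * b ≤ ((S.card : ℝ) - b) * b := mul_le_mul_of_nonneg_right h4.1 hb
  rw [abs_le]
  constructor
  · nlinarith [h3.1]
  · nlinarith [h3.2]

end

section
variable {V : Type} [Fintype V] {G : SimpleGraph V} {r K : ℕ} {side : V → Bool} {D : Finset V}
  {N : V → V} {R : Fin r → V → V} {A : V → Prop}

theorem cl_iff (h : Wk G K side D N R) (hA : Hol N R A) (a : V) (ha : A a) (f : Fin 4 → Fin r) :
    (Cl N R A a f ∧ A (en N R a f)) ↔ (mvg N R f a 4 ∧ A (N (xs N R f a 4)) ∧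
      ¬ A (xs N R f a 2) ∧ ¬ A (N (xs N R f a 2))) := by
  constructor
  · rintro ⟨⟨h1, h2, h3⟩, h4⟩
    exact ⟨h1, h4, h2 2 (by omega) (by omega), h3 2 (by omega)⟩
  · rintro ⟨h1, h4, h2, h3⟩
    obtain ⟨z, hz⟩ : ∃ z, z = N (xs N R f a 4) := ⟨_, rfl⟩
    rw [← hz] at h4
    have hx4 : xs N R f a 4 = N z := by rw [hz, h.invN]
    have hy3 : N (xs N R f a 3) = R (f (Fin.ofNat 4 3)) (N z) := by
      rw [← hx4]
      show N (xs N R f a 3) = R (f (Fin.ofNat 4 3)) (R (f (Fin.ofNat 4 3)) (N (xs N R f a 3)))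
      rw [h.invR]
    have hx3 : xs N R f a 3 = N (R (f (Fin.ofNat 4 3)) (N z)) := by
      rw [← hy3, h.invN]
    refine ⟨⟨h1, ?_, ?_⟩, ?_⟩
    · intro i hi1 hi4
      interval_cases i
      · exact hA.rn a _ ha
      · exact h2
      · rw [hx3]
        exact hA.nrn z _ h4
      · rw [hx4]
        exact hA.n1 z h4
    · intro i hi3
      interval_cases i
      · exact hA.n1 a ha
      · exact hA.nrn a _ ha
      · exact h3
      · rw [hy3]
        exact hA.rn z _ h4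
    · show A (N (xs N R f a 4))
      rw [← hz]
      exact h4

theorem mct (ht : TL G 33) (h : Wk G K side D N R) (hA : Hol N R A) (a : V) (ha : A a) :
    ((univ.filter (fun f : Fin 4 → Fin r => Cl N R A a f ∧ A (en N R a f))).card : ℝ) =
      ((TY N R 4 a).filter A).card - ∑ x ∈ (TX N R 2 a).filter A, (((TY N R 2 x).filter A).card : ℝ)
        - ∑ y ∈ (TY N R 2 a).filter A, (((TY N R 2 (N y)).filter A).card : ℝ) := by
  obtain ⟨W, hW⟩ : ∃ W : Finset (Fin 4 → Fin r), W = univ.filter (fun f : Fin 4 → Fin r =>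
      mvg N R f a 4 ∧ A (N (xs N R f a 4))) := ⟨_, rfl⟩
  have e1 : univ.filter (fun f : Fin 4 → Fin r => Cl N R A a f ∧ A (en N R a f)) =
      W.filter (fun f => ¬ (A (xs N R f a 2) ∨ A (N (xs N R f a 2)))) := by
    rw [hW, Finset.filter_filter]
    apply Finset.filter_congr
    intro f _
    rw [cl_iff h hA a ha f]
    tauto
  have e2 : ((W.filter (fun f => A (xs N R f a 2) ∨ A (N (xs N R f a 2)))).card : ℝ) +
      (W.filter (fun f => ¬ (A (xs N R f a 2) ∨ A (N (xs N R f a 2))))).card = W.card := by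
    exact_mod_cast Finset.card_filter_add_card_filter_not _
  have e3 : (W.filter (fun f => A (xs N R f a 2) ∨ A (N (xs N R f a 2)))).card =
      (W.filter (fun f => A (xs N R f a 2))).card + (W.filter (fun f => A (N (xs N R f a 2)))).card := by
    rw [Finset.filter_or, Finset.card_union_of_disjoint]
    rw [Finset.disjoint_filter]
    intro f _ h1 h2
    exact hA.n1 _ h1 h2
  have e4 : (W.filter (fun f => A (xs N R f a 2))).card =
      ∑ x ∈ (TX N R 2 a).filter A, ((TY N R 2 x).filter A).card := by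
    rw [← Mct_sumX ht h a, hW, Finset.filter_filter]
  have e5 : (W.filter (fun f => A (N (xs N R f a 2)))).card =
      ∑ y ∈ (TY N R 2 a).filter A, ((TY N R 2 (N y)).filter A).card := by
    rw [← Mct_sumY ht h a, hW, Finset.filter_filter]
  have e6 : W.card = ((TY N R 4 a).filter A).card := by
    rw [hW, Mct_ty4 ht h a]
  rw [e3, e4, e5, e6] at e2
  push_cast at e2
  rw [e1]
  linarith

theorem mct2 (ht : TL G 33) (h : Wk G K side D N R) (hA : Hol N R A) (pb e4 e2 : ℝ)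
    (hT : Tst N R A pb e4 e2) (hpb : 0 ≤ pb) (he2 : 0 ≤ e2) (a : V) (ha : A a) :
    |((univ.filter (fun f : Fin 4 → Fin r => Cl N R A a f ∧ A (en N R a f))).card : ℝ) -
      pb * (1 - 2 * pb) * r ^ 4| ≤ e4 + 6 * K * pb * r ^ 2 +
        4 * pb * r ^ 2 * (e2 + pb * ((3 * K + 1) * r)) + 2 * (e2 + pb * ((3 * K + 1) * r)) ^ 2 := by
  rw [mct ht h hA a ha]
  obtain ⟨b, hb⟩ : ∃ b : ℝ, b = pb * r ^ 2 := ⟨_, rfl⟩
  obtain ⟨e, he⟩ : ∃ e : ℝ, e = e2 + pb * ((3 * K + 1) * r) := ⟨_, rfl⟩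
  have hr0 : (0 : ℝ) ≤ r := Nat.cast_nonneg r
  have hK0 : (0 : ℝ) ≤ K := Nat.cast_nonneg K
  have hb0 : 0 ≤ b := by rw [hb]; positivity
  have he0 : 0 ≤ e := by
    rw [he]
    have : 0 ≤ pb * ((3 * K + 1) * r) := by positivity
    linarith
  have hty : ∀ x, N x ≠ x → |(((TY N R 2 x).filter A).card : ℝ) - b| ≤ e := by
    intro x hx
    have h1 := abs_le.1 (hT.t2 x)
    have h2 : ((r : ℝ)) ^ 2 ≤ (TY N R 2 x).card + (3 * K + 1) * r := by
      exact_mod_cast (ty2_sz ht h x hx).1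
    have h3 : ((TY N R 2 x).card : ℝ) ≤ (r : ℝ) ^ 2 := by
      exact_mod_cast (tyx_le ht h x 2 (by omega)).1
    have h4 := mul_le_mul_of_nonneg_left h2 hpb
    have h5 := mul_le_mul_of_nonneg_left h3 hpb
    have h6 : 0 ≤ pb * ((3 * K + 1) * r) := by positivity
    rw [mul_add] at h4
    rw [abs_le, hb, he]
    constructor <;> linarith [h1.1, h1.2]
  have htx : |(((TX N R 2 a).filter A).card : ℝ) - b| ≤ e := by
    have h1 := abs_le.1 (hT.x2 a)
    have h2 : ((r : ℝ)) ^ 2 ≤ (TX N R 2 a).card + (3 * K + 1) * r := by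
      exact_mod_cast (ty2_sz ht h a (hA.fn a ha)).2
    have h3 : ((TX N R 2 a).card : ℝ) ≤ (r : ℝ) ^ 2 := by
      exact_mod_cast (tyx_le ht h a 2 (by omega)).2
    have h4 := mul_le_mul_of_nonneg_left h2 hpb
    have h5 := mul_le_mul_of_nonneg_left h3 hpb
    have h6 : 0 ≤ pb * ((3 * K + 1) * r) := by positivity
    rw [mul_add] at h4
    rw [abs_le, hb, he]
    constructor <;> linarith [h1.1, h1.2]
  have h4a : |(((TY N R 4 a).filter A).card : ℝ) - pb * r ^ 4| ≤ e4 + 6 * K * pb * r ^ 2 := by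
    have h1 := abs_le.1 (hT.t4 a)
    obtain ⟨h2', h3'⟩ := ty4_sz ht h a (hA.fn a ha) (fun ρ => hA.fr a ρ ha) (fun ρ => hA.fnr a ρ ha)
    have h2 : ((TY N R 4 a).card : ℝ) ≤ (r : ℝ) ^ 4 := by exact_mod_cast h2'
    have h3 : (r : ℝ) ^ 4 ≤ (TY N R 4 a).card + 6 * K * r ^ 2 := by exact_mod_cast h3'
    have h4 := mul_le_mul_of_nonneg_left h2 hpb
    have h5 := mul_le_mul_of_nonneg_left h3 hpb
    have h6 : 0 ≤ 6 * K * pb * (r : ℝ) ^ 2 := by positivity
    rw [abs_le]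
    constructor <;> nlinarith [h1.1, h1.2]
  have hS1 := Mct_two (S := (TX N R 2 a).filter A) (g := fun x => ((TY N R 2 x).filter A).card)
    hb0 he0 htx (by
      intro x hx
      obtain ⟨hx1, _⟩ := Finset.mem_filter.1 hx
      obtain ⟨_, f, hf, hfx⟩ := Finset.mem_filter.1 hx1
      apply hty
      rw [← hfx]
      exact hf.1 2 le_rfl)
  have hS2 := Mct_two (S := (TY N R 2 a).filter A) (g := fun y => ((TY N R 2 (N y)).filter A).card)
    hb0 he0 (hty a (hA.fn a ha)) (by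
      intro y hy
      apply hty
      rw [h.invN]
      exact (hA.fn y (Finset.mem_filter.1 hy).2).symm)
  rw [abs_le] at hS1 hS2 h4a ⊢
  have e1 : pb * (1 - 2 * pb) * r ^ 4 = pb * r ^ 4 - 2 * b ^ 2 := by rw [hb]; ring
  have e2' : 4 * pb * r ^ 2 * (e2 + pb * ((3 * K + 1) * r)) = 4 * b * e := by rw [hb, he]; ring
  rw [e1, e2', ← he]
  constructor
  · linarith [hS1.2, hS2.2, h4a.1]
  · linarith [hS1.1, hS2.1, h4a.2]

theorem mct_le (ht : TL G 33) (h : Wk G K side D N R) (pb e4 e2 : ℝ)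
    (hT : Tst N R A pb e4 e2) (hpb : 0 ≤ pb) (a : V) :
    ((univ.filter (fun f : Fin 4 → Fin r => Cl N R A a f ∧ A (en N R a f))).card : ℝ) ≤
      pb * r ^ 4 + e4 := by
  have h0 : (univ.filter (fun f : Fin 4 → Fin r => Cl N R A a f ∧ A (en N R a f))).card ≤
      ((TY N R 4 a).filter A).card := by
    rw [← Mct_ty4 ht h a]
    apply Finset.card_le_card
    intro f hf
    obtain ⟨_, h1, h2⟩ := Finset.mem_filter.1 hf
    exact Finset.mem_filter.2 ⟨Finset.mem_univ _, h1.1, h2⟩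
  have h1 : ((univ.filter (fun f : Fin 4 → Fin r => Cl N R A a f ∧ A (en N R a f))).card : ℝ) ≤
      ((TY N R 4 a).filter A).card := by exact_mod_cast h0
  have h2 := abs_le.1 (hT.t4 a)
  have h3 : ((TY N R 4 a).card : ℝ) ≤ (r : ℝ) ^ 4 := by
    exact_mod_cast (tyx_le ht h a 4 le_rfl).1
  have h4 := mul_le_mul_of_nonneg_left h3 hpb
  linarith [h2.2]

end

end Pool.Agent.H65.GI
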