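import Pool.Agent.H65.GI.EDefs

/-!
MP_b8729f, project GI, block E: the numerical conditions.
-/

set_option autoImplicit false

namespace Pool.Agent.H65.GI

/-- The numerical conditions of block E. -/
structure Nums (Δ w K s r : ℕ) (pb e4 e2 X lam : ℝ) (B1 M C B K2 κ : ℕ) (m η D ρ : ℝ) : Prop where
  sw : 1 ≤ s * w
  r4 : 7 * K * (r : ℝ) ^ 2 + 8 * X * r ^ 3 ≤ (r : ℝ) ^ 4 / 2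
  B1p : 1 ≤ B1
  B1a : 2 * Δ ≤ B1
  B1b : r ≤ B1 * (s * w)
  lam1 : 1 ≤ lam
  low : 64 * lam ≤ (r : ℝ) ^ 4 / (B1 * (s * w))
  lll1 : 4 * ((3 * (s * w) + 1) * Real.exp (-lam)) * ((Δ : ℝ) + 1) ^ (2 * 10) ≤ 1
  M1 : 1 ≤ M
  BM : B = M * 2 ^ C
  K2a : 1 ≤ K2
  pb0 : 0 ≤ pb
  e20 : 0 ≤ e2
  mdef : m = pb * (1 - 2 * pb) * r ^ 4
  DB : D = m / B
  mpos : 0 < m
  η0 : 0 ≤ η
  err : e4 + 6 * K * pb * r ^ 2 + 4 * pb * r ^ 2 * (e2 + pb * ((3 * K + 1) * r)) +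
    2 * (e2 + pb * ((3 * K + 1) * r)) ^ 2 ≤ η * m
  D1 : 2000 * lam ≤ D
  eta1 : η + 3 * D / m ≤ 1 / 4
  eta2 : D * (η + 3 * D / m) ≤ Real.sqrt (D * lam)
  KD : (K2 : ℝ) ^ 2 ≤ lam * D
  BR : 3 * ((r : ℝ) ^ 4 / (B1 * (s * w))) + 2 * lam ≤ B
  mR : 32 * lam ≤ D * ((r : ℝ) ^ 4 / (8 * (B1 * (s * w)))) / B
  res : pb * r ^ 4 + e4 ≤ 2 * m
  hK : 8 * D * m * (2 * D / B) ^ K2 ≤ Real.exp (-lam)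
  hρ : 130 * K2 * lam / Real.sqrt D + (4 * D ^ 2 + 1) * (2 * K2 * (3 * Real.exp (-lam))) +
      16 * D * (η + 3 * D / m) + 16 * D * Real.exp (-(D / 2)) +
      8 * (K2 : ℝ) ^ 2 * (24 * D ^ 4 / m + 2 * lam) / D ^ 2 ≤ ρ
  ρ0 : 0 ≤ ρ
  ν1 : 2 * (3 + 2 * lam) ≤ D * ((r : ℝ) ^ 4 / (8 * (B1 * (s * w)))) / (4 * B)
  ν2 : 136 * (3 + 2 * lam) * ρ ≤ D * ((r : ℝ) ^ 4 / (8 * (B1 * (s * w)))) / (4 * B)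
  ν3 : 252 * D * ρ ≤ D * ((r : ℝ) ^ 4 / (8 * (B1 * (s * w)))) / (4 * B)
  kap : X + 4 + 2 * lam ≤ κ
  lll2 : 4 * (((s * w : ℕ) : ℝ) * ((14 + 4 * m + 12 * D ^ 2) * Real.exp (-lam)) +
    ((s * w : ℕ) : ℝ) * ((r ^ 4 : ℕ) : ℝ) *
      (((4 * (κ ^ 2 * (2 * r ^ 2 + 2 * (s * w) * r)) : ℕ) : ℝ) * (1 / M)) ^ (C + 1) +
    ((s * w : ℕ) : ℝ) * Real.exp (-lam)) * ((Δ : ℝ) + 1) ^ (2 * 45) ≤ 1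
  mid : (3 * (((6 * κ ^ 2 * r ^ 2 : ℕ) : ℝ) / B) + 2 * lam) * (2 / D) ≤ 1 / 2

end Pool.Agent.H65.GI
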