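import Pool.Agent.H65.GI.Defs

/-!
MP_b8729f, project GI, block C: a random sparse subgraph of a nearly regular bipartite graph has a
nearly perfect fractional matching, the small rest being absorbed by a sparse set of reserve nodes.
Definitions.
-/

set_option autoImplicit false
set_option linter.unusedSectionVars false

namespace Pool.Agent.H65.GI

open Finset Classical

noncomputable section

/-- A simple bipartite graph with nodes `X` and edges `E`; `nr`: the normal nodes (the others are
reserve nodes); every edge has a normal end. -/
structure Bip (X E : Type) where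
  lf : E → X
  rt : E → X
  side : X → Bool
  nr : X → Prop
  hl : ∀ e, side (lf e) = true
  hr : ∀ e, side (rt e) = false
  inj : ∀ e e', lf e = lf e' → rt e = rt e' → e = e'
  one : ∀ e, nr (lf e) ∨ nr (rt e)

section
variable {X E : Type} [Fintype E] (S : Bip X E)

/-- the edges at `v` -/
def inc (v : X) : Finset E := univ.filter (fun e => S.lf e = v ∨ S.rt e = v)

/-- the other end -/
def oth (v : X) (e : E) : X := if S.lf e = v then S.rt e else S.lf e

/-- both ends are normal -/
def nE (e : E) : Prop := S.nr (S.lf e) ∧ S.nr (S.rt e)

/-- the edges at `v` with both ends normal -/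
def inN (v : X) : Finset E := (inc S v).filter (fun e => nE S e)

/-- the edges at `v` with a reserve end -/
def inR (v : X) : Finset E := (inc S v).filter (fun e => ¬ nE S e)

/-- number of kept normal edges at `v` -/
def dn (k : E → Prop) (v : X) : ℕ := ((inN S v).filter (fun e => k e)).card

/-- number of kept edges at `v` with a reserve end -/
def rd (k : E → Prop) (v : X) : ℕ := ((inR S v).filter (fun e => k e)).card

/-- the relative error of the degree -/
def qe (k : E → Prop) (D : ℝ) (v : X) : ℝ := D / dn S k v - 1

/-- average of `qe` over the kept neighbours of `w`, except along `e` -/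
def av (k : E → Prop) (D : ℝ) (w : X) (e : E) : ℝ :=
  (∑ f ∈ ((inN S w).filter (fun f => k f)).erase e, qe S k D (oth S w f)) /
    ((dn S k w : ℝ) - 1)

/-- the residual at `v` -/
def res (k : E → Prop) (D : ℝ) (v : X) : ℝ :=
  ∑ e ∈ (inN S v).filter (fun e => k e), av S k D (oth S v e) e

/-- number of kept 2-paths from `v` to reserve nodes -/
def n2 (k : E → Prop) (v : X) : ℕ := ∑ e ∈ (inN S v).filter (fun e => k e), rd S k (oth S v e)

/-- The local failures at `v`. -/
def Bad (k : E → Prop) (D lam ρ ν : ℝ) (v : X) : Prop :=
  (S.nr v ∧ (4 * Real.sqrt (D * lam) < |(dn S k v : ℝ) - D| ∨ ρ < |res S k D v| ∨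
    (n2 S k v : ℝ) < ν ∨ 3 + 2 * lam < (rd S k v : ℝ))) ∨
  (¬ S.nr v ∧ 7 * D < (rd S k v : ℝ))

end

/-- kept edges in the model with independent coins -/
def kc {E : Type} {B : ℕ} (ω : E → Fin B) (e : E) : Prop := ((ω e : ℕ)) = 0

end

end Pool.Agent.H65.GI
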