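/-
ROW Sid. Binomial identities for independent coins.
PROOF. `J : Finset E`, coins `ω : E → Fin B`, `N ω = #{e ∈ J : ω e = 0}`, `n = |J|`, `p = 1/B`. `pr (N = k) = choose n k p^k (1-p)^(n-k)` (sum over the `k`-subsets, `pr_forall` on single coordinates). Then
`ex (1/(1+N)) = ∑_k choose n k p^k (1-p)^(n-k)/(k+1) = (1/((n+1)p)) ∑_k choose (n+1) (k+1) p^(k+1) (1-p)^(n-k) = (1 - (1-p)^(n+1))/((n+1)p)` (`Nat.succ_mul_choose_eq`, `add_pow`).
`ex (1/((1+N)(2+N))) = (1/((n+1)(n+2)p^2)) ∑_k choose (n+2) (k+2) p^(k+2) (1-p)^(n-k) ≤ 1/((n+1)(n+2)p^2)`.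
Alternative proof without the distribution: induction on `J` for `F_J(z) = ex (z^N) = (1-p+pz)^n` is not needed. (Any proof is fine.)
`sid3`: `D/(a+N) - 1` for `a ≥ 1`: `|ex (D/(a+N)) - 1| ≤ |ex (D/(1+N)) - 1| + (a-1) ex (D/((1+N)(2+N)))*2`: for `a ≥ 1`: `1/(1+N) - 1/(a+N) = (a-1)/((1+N)(a+N)) ≤ 2(a-1)/((1+N)(2+N))` (for `a ≥ 2`: `a+N ≥ 2+N`; fine with factor 1).
With `D = m/B`: `ex (D/(1+N)) = (m/(n+1))(1 - (1-1/B)^(n+1))`, `(1-1/B)^(n+1) ≤ exp (-(n+1)/B)`.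
-/
import Pool.Agent.H65.GI.SDefs
import Pool.Agent.H65.GI.Hof

set_option autoImplicit false

namespace Pool.Agent.H65.GI

open Finset Classical

theorem kc_pr {E : Type} [Fintype E] {B : ℕ} [NeZero B] (e : E) :
    pr (fun ω : E → Fin B => kc ω e) = 1 / (B : ℝ) := by
  have hB : 0 < B := Nat.pos_of_ne_zero (NeZero.ne B)
  have hB' : (B : ℝ) ≠ 0 := by exact_mod_cast hB.ne'
  have h1 : (univ.filter (fun ω : E → Fin B => kc ω e)).card = B ^ (Fintype.card E - 1) := by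
    have h2 := Fintype.card_filter_piFinset_const_eq_of_mem (univ : Finset (Fin B)) e
      (Finset.mem_univ (0 : Fin B))
    rw [Fintype.piFinset_univ, Finset.card_univ, Fintype.card_fin] at h2
    rw [← h2]
    congr 1
    ext ω
    rw [Finset.mem_filter, Finset.mem_filter]
    unfold kc
    rw [Fin.ext_iff]
    rfl
  unfold pr
  rw [h1, Fintype.card_fun, Fintype.card_fin]
  obtain ⟨k, hk⟩ : ∃ k, Fintype.card E = k + 1 :=
    Nat.exists_eq_succ_of_ne_zero (Fintype.card_pos_iff.2 ⟨e⟩).ne'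
  rw [hk, Nat.add_sub_cancel, pow_succ]
  push_cast
  field_simp

theorem Sid_loc {E : Type} {B : ℕ} (J : Finset E) (h : ℕ → ℝ) :
    Loc (fun ω : E → Fin B => h ((J.filter (fun e => kc ω e)).card)) J := by
  intro ω ω' hω
  have : J.filter (fun e => kc ω e) = J.filter (fun e => kc ω' e) := by
    apply Finset.filter_congr
    intro e he
    unfold kc
    rw [hω e he]
  simp only [this]

theorem Sid_step {E : Type} [Fintype E] {B : ℕ} [NeZero B] (a : E) (s : Finset E) (ha : a ∉ s)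
    (h : ℕ → ℝ) :
    ex (fun ω : E → Fin B => h (((insert a s).filter (fun e => kc ω e)).card)) =
      (1 - 1 / (B : ℝ)) * ex (fun ω : E → Fin B => h ((s.filter (fun e => kc ω e)).card)) +
      (1 / (B : ℝ)) * ex (fun ω : E → Fin B => h ((s.filter (fun e => kc ω e)).card + 1)) := by
  have hl1 : Loc (fun ω : E → Fin B => if kc ω a then (1 : ℝ) else 0) {a} := by
    intro ω ω' hω
    have : kc ω a ↔ kc ω' a := by
      unfold kc
      rw [hω a (Finset.mem_singleton_self a)]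
    simp only [this]
  have hl2 : Loc (fun ω : E → Fin B => if ¬ kc ω a then (1 : ℝ) else 0) {a} := by
    intro ω ω' hω
    have : kc ω a ↔ kc ω' a := by
      unfold kc
      rw [hω a (Finset.mem_singleton_self a)]
    simp only [this]
  have hd : Disjoint ({a} : Finset E) s := Finset.disjoint_singleton_left.2 ha
  have e1 : (fun ω : E → Fin B => h (((insert a s).filter (fun e => kc ω e)).card)) =
      fun ω => (if ¬ kc ω a then (1 : ℝ) else 0) * h ((s.filter (fun e => kc ω e)).card) +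
        (if kc ω a then (1 : ℝ) else 0) * h ((s.filter (fun e => kc ω e)).card + 1) := by
    funext ω
    rw [Finset.filter_insert]
    by_cases hk : kc ω a
    · rw [if_pos hk, if_pos hk, if_neg (not_not.2 hk), Finset.card_insert_of_notMem, zero_mul,
        one_mul, zero_add]
      intro hm
      exact ha (Finset.mem_filter.1 hm).1
    · rw [if_neg hk, if_neg hk, if_pos hk, zero_mul, one_mul, add_zero]
  have e2 : ex (fun ω : E → Fin B => if ¬ kc ω a then (1 : ℝ) else 0) = 1 - 1 / (B : ℝ) := by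
    rw [← kc_pr (E := E) a, ← pr_not, ex_ind]
    congr 1
    funext ω
    by_cases hk : kc ω a <;> simp [hk]
  rw [e1, ex_add, ex_mul _ _ {a} s hl2 (Sid_loc s h) hd,
    ex_mul _ _ {a} s hl1 (Sid_loc s (fun k => h (k + 1))) hd, ← ex_ind, e2, kc_pr]

theorem Sid_bin {E : Type} [Fintype E] {B : ℕ} [NeZero B] (J : Finset E) :
    ∀ h : ℕ → ℝ, ex (fun ω : E → Fin B => h ((J.filter (fun e => kc ω e)).card)) =
      ∑ ij ∈ antidiagonal J.card, (J.card.choose ij.1 : ℝ) *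
        ((1 / (B : ℝ)) ^ ij.1 * (1 - 1 / (B : ℝ)) ^ ij.2 * h ij.1) := by
  induction J using Finset.induction_on with
  | empty =>
    intro h
    simp only [Finset.filter_empty, Finset.card_empty]
    rw [ex_const]
    simp
  | insert a s ha ih =>
    intro h
    rw [Sid_step a s ha h, ih h, ih (fun k => h (k + 1)), Finset.card_insert_of_notMem ha,
      Finset.sum_antidiagonal_choose_succ_mul
        (fun i j => (1 / (B : ℝ)) ^ i * (1 - 1 / (B : ℝ)) ^ j * h i), Finset.mul_sum,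
      Finset.mul_sum]
    congr 1
    · apply Finset.sum_congr rfl
      intro ij _
      ring
    · apply Finset.sum_congr rfl
      intro ij hij
      rw [HasAntidiagonal.mem_antidiagonal] at hij
      have : s.card.choose ij.2 = s.card.choose ij.1 := by
        rw [← hij, Nat.choose_symm_add]
      rw [this]
      ring

theorem Sid_sum (n : ℕ) (p q : ℝ) (hpq : p + q = 1) :
    ∑ ij ∈ antidiagonal n, (n.choose ij.1 : ℝ) * (p ^ ij.1 * q ^ ij.2) = 1 := by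
  have := Commute.add_pow' (Commute.all p q) n
  rw [hpq, one_pow] at this
  rw [this]
  apply Finset.sum_congr rfl
  intro ij _
  rw [nsmul_eq_mul]

theorem Sid_B {B : ℕ} [NeZero B] : (0 : ℝ) < 1 / (B : ℝ) ∧ (0 : ℝ) ≤ 1 - 1 / (B : ℝ) := by
  have hB : 1 ≤ B := Nat.one_le_iff_ne_zero.2 (NeZero.ne B)
  have hB' : (1 : ℝ) ≤ B := by exact_mod_cast hB
  constructor
  · positivity
  · rw [sub_nonneg, div_le_one (by linarith)]
    exact hB'

theorem Sid_c1 (n : ℕ) (p q : ℝ) (hpq : p + q = 1) (hp : p ≠ 0) :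
    ∑ ij ∈ antidiagonal n, (n.choose ij.1 : ℝ) * (p ^ ij.1 * q ^ ij.2 * (1 / (1 + (ij.1 : ℝ)))) =
      (1 - q ^ (n + 1)) / ((n + 1) * p) := by
  have h1 := Sid_sum (n + 1) p q hpq
  rw [Finset.Nat.sum_antidiagonal_succ] at h1
  simp only [Nat.choose_zero_right, Nat.cast_one, pow_zero, one_mul] at h1
  have h2 : 1 - q ^ (n + 1) =
      ∑ ij ∈ antidiagonal n, ((n + 1).choose (ij.1 + 1) : ℝ) * (p ^ (ij.1 + 1) * q ^ ij.2) := by
    linarith
  rw [h2, Finset.sum_div]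
  apply Finset.sum_congr rfl
  intro ij _
  have h3 : ((n : ℝ) + 1) * (n.choose ij.1 : ℝ) = ((n + 1).choose (ij.1 + 1) : ℝ) * (ij.1 + 1) := by
    exact_mod_cast Nat.add_one_mul_choose_eq n ij.1
  have h4 : (1 : ℝ) + (ij.1 : ℝ) ≠ 0 := by positivity
  have h5 : (n : ℝ) + 1 ≠ 0 := by positivity
  rw [mul_one_div, mul_div_assoc', div_eq_div_iff h4 (mul_ne_zero h5 hp), pow_succ]
  linear_combination (p ^ ij.1 * q ^ ij.2 * p) * h3

theorem Sid_c2 (n : ℕ) (p q : ℝ) (hpq : p + q = 1) (hp : 0 < p) (hq : 0 ≤ q) :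
    ∑ ij ∈ antidiagonal n, (n.choose ij.1 : ℝ) * (p ^ ij.1 * q ^ ij.2 *
      (1 / ((1 + (ij.1 : ℝ)) * (2 + (ij.1 : ℝ))))) ≤ 1 / (p ^ 2 * ((n + 1) * (n + 2))) := by
  have h1 := Sid_sum (n + 2) p q hpq
  rw [Finset.Nat.sum_antidiagonal_succ, Finset.Nat.sum_antidiagonal_succ] at h1
  have h2 : ∑ ij ∈ antidiagonal n,
      ((n + 2).choose (ij.1 + 2) : ℝ) * (p ^ (ij.1 + 2) * q ^ ij.2) ≤ 1 := by
    have h3 : (0 : ℝ) ≤ ((n + 2).choose (0, n + 1 + 1).1 : ℝ) *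
      (p ^ (0, n + 1 + 1).1 * q ^ (0, n + 1 + 1).2) := by positivity
    have h4 : (0 : ℝ) ≤ ((n + 2).choose ((0, n + 1).1 + 1) : ℝ) *
      (p ^ ((0, n + 1).1 + 1) * q ^ (0, n + 1).2) := by positivity
    have h5 : ∑ ij ∈ antidiagonal n,
      ((n + 2).choose (ij.1 + 2) : ℝ) * (p ^ (ij.1 + 2) * q ^ ij.2) =
      ∑ ij ∈ antidiagonal n,
      ((n + 2).choose (ij.1 + 1 + 1) : ℝ) * (p ^ (ij.1 + 1 + 1) * q ^ ij.2) := rfl
    rw [h5]
    linarith
  have e : ∑ ij ∈ antidiagonal n, (n.choose ij.1 : ℝ) * (p ^ ij.1 * q ^ ij.2 *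
      (1 / ((1 + (ij.1 : ℝ)) * (2 + (ij.1 : ℝ))))) =
      (1 / (p ^ 2 * ((n + 1) * (n + 2)))) * ∑ ij ∈ antidiagonal n,
      ((n + 2).choose (ij.1 + 2) : ℝ) * (p ^ (ij.1 + 2) * q ^ ij.2) := by
    rw [Finset.mul_sum]
    apply Finset.sum_congr rfl
    intro ij _
    have h3 : ((n : ℝ) + 1) * (n.choose ij.1 : ℝ) =
        ((n + 1).choose (ij.1 + 1) : ℝ) * (ij.1 + 1) := by
      exact_mod_cast Nat.add_one_mul_choose_eq n ij.1
    have h4 : ((n : ℝ) + 2) * ((n + 1).choose (ij.1 + 1) : ℝ) =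
        ((n + 2).choose (ij.1 + 2) : ℝ) * (ij.1 + 2) := by
      have := Nat.add_one_mul_choose_eq (n + 1) (ij.1 + 1)
      have h : (((n + 1 + 1 : ℕ) : ℝ)) * ((n + 1).choose (ij.1 + 1) : ℝ) =
        ((n + 1 + 1).choose (ij.1 + 1 + 1) : ℝ) * ((ij.1 + 1 + 1 : ℕ) : ℝ) := by
        exact_mod_cast this
      have e1 : ((n + 1 + 1 : ℕ) : ℝ) = n + 2 := by push_cast; ring
      have e2 : ((ij.1 + 1 + 1 : ℕ) : ℝ) = ij.1 + 2 := by push_cast; ring
      rw [e1, e2] at h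
      exact h
    have h5 : (1 : ℝ) + (ij.1 : ℝ) ≠ 0 := by positivity
    have h6 : (2 : ℝ) + (ij.1 : ℝ) ≠ 0 := by positivity
    have h7 : (n : ℝ) + 1 ≠ 0 := by positivity
    have h8 : (n : ℝ) + 2 ≠ 0 := by positivity
    have hp' : p ≠ 0 := hp.ne'
    have h9 : (n.choose ij.1 : ℝ) = ((n + 2).choose (ij.1 + 2) : ℝ) * ((ij.1 + 1) * (ij.1 + 2)) /
        (((n : ℝ) + 1) * (n + 2)) := by
      rw [eq_div_iff (mul_ne_zero h7 h8)]
      linear_combination ((n : ℝ) + 2) * h3 + ((ij.1 : ℝ) + 1) * h4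
    rw [h9, pow_add]
    field_simp
    ring
  rw [e]
  have h10 : (0 : ℝ) ≤ 1 / (p ^ 2 * ((n + 1) * (n + 2))) := by positivity
  calc _ ≤ (1 / (p ^ 2 * (((n : ℝ) + 1) * (n + 2)))) * 1 := mul_le_mul_of_nonneg_left h2 h10
    _ = _ := mul_one _


theorem sid1 {E : Type} [Fintype E] {B : ℕ} [NeZero B] (J : Finset E) :
    ex (fun ω : E → Fin B => 1 / (1 + ((J.filter (fun e => kc ω e)).card : ℝ))) =
      (1 - (1 - 1 / (B : ℝ)) ^ (J.card + 1)) / ((J.card + 1) / B) := by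
  have hB := Sid_B (B := B)
  rw [Sid_bin J (fun k => 1 / (1 + (k : ℝ))),
    Sid_c1 J.card (1 / (B : ℝ)) (1 - 1 / (B : ℝ)) (by ring) hB.1.ne', mul_one_div]

theorem sid2 {E : Type} [Fintype E] {B : ℕ} [NeZero B] (J : Finset E) :
    ex (fun ω : E → Fin B => 1 / ((1 + ((J.filter (fun e => kc ω e)).card : ℝ)) *
      (2 + ((J.filter (fun e => kc ω e)).card : ℝ)))) ≤
      (B : ℝ) ^ 2 / ((J.card + 1) * (J.card + 2)) := by
  have hB := Sid_B (B := B)
  have hB' : (B : ℝ) ≠ 0 := by exact_mod_cast NeZero.ne B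
  rw [Sid_bin J (fun k => 1 / ((1 + (k : ℝ)) * (2 + (k : ℝ))))]
  refine le_trans (Sid_c2 J.card (1 / (B : ℝ)) (1 - 1 / (B : ℝ)) (by ring) hB.1 hB.2) (le_of_eq ?_)
  have h7 : (J.card : ℝ) + 1 ≠ 0 := by positivity
  have h8 : (J.card : ℝ) + 2 ≠ 0 := by positivity
  field_simp

/-- The mean of `D/(a+N) - 1` is small. -/
theorem sid3 {E : Type} [Fintype E] {B : ℕ} [NeZero B] (J : Finset E) (a : ℕ) (ha : 1 ≤ a)
    (m η : ℝ) (hη0 : 0 ≤ η) (hη : η ≤ 1 / 2) (hm : 0 < m)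
    (h1 : m * (1 - η) ≤ J.card + 1) (h2 : (J.card : ℝ) + 1 ≤ m * (1 + η)) :
    |ex (fun ω : E → Fin B => (m / B) / (a + ((J.filter (fun e => kc ω e)).card : ℝ)) - 1)| ≤
      2 * η + 2 * Real.exp (-(m / (2 * B))) + 4 * (a - 1) * (B / m) := by
  have hB := Sid_B (B := B)
  have hB' : (0 : ℝ) < (B : ℝ) := by exact_mod_cast Nat.pos_of_ne_zero (NeZero.ne B)
  have ha' : (1 : ℝ) ≤ a := by exact_mod_cast ha
  have hmB : 0 < m / B := by positivity
  obtain ⟨n, hn⟩ : ∃ n : ℝ, n = J.card := ⟨_, rfl⟩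
  have hn0 : 0 ≤ n := by rw [hn]; positivity
  rw [← hn] at h1 h2
  have hnm : m / 2 ≤ n + 1 := by nlinarith
  -- the three expectations
  obtain ⟨X, hX⟩ : ∃ X, X = ex (fun ω : E → Fin B =>
    (m / B) / (a + ((J.filter (fun e => kc ω e)).card : ℝ)) - 1) := ⟨_, rfl⟩
  obtain ⟨Y, hY⟩ : ∃ Y, Y = ex (fun ω : E → Fin B =>
    1 / (1 + ((J.filter (fun e => kc ω e)).card : ℝ))) := ⟨_, rfl⟩
  obtain ⟨Z, hZ⟩ : ∃ Z, Z = ex (fun ω : E → Fin B =>
    1 / ((1 + ((J.filter (fun e => kc ω e)).card : ℝ)) *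
      (2 + ((J.filter (fun e => kc ω e)).card : ℝ)))) := ⟨_, rfl⟩
  have hZ2 : Z ≤ (B : ℝ) ^ 2 / ((n + 1) * (n + 2)) := by rw [hZ, hn]; exact sid2 J
  have hY2 : Y = (1 - (1 - 1 / (B : ℝ)) ^ (J.card + 1)) / ((n + 1) / B) := by
    rw [hY, hn]; exact sid1 J
  have hXY : X ≤ (m / B) * Y + (-1) := by
    rw [hX, hY, ← ex_smul]
    nth_rewrite 1 [← ex_const (Ω := E → Fin B) (-1 : ℝ)]
    rw [← ex_add]
    apply ex_mono
    intro ω
    have hN : (0 : ℝ) ≤ ((J.filter (fun e => kc ω e)).card : ℝ) := by positivity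
    have : (m / B) / (a + ((J.filter (fun e => kc ω e)).card : ℝ)) ≤
        (m / B) * (1 / (1 + ((J.filter (fun e => kc ω e)).card : ℝ))) := by
      rw [mul_one_div]
      apply div_le_div_of_nonneg_left hmB.le (by positivity)
      linarith
    linarith
  have hYX : (m / B) * Y + (-1) ≤ X + ((a - 1) * (m / B)) * Z := by
    rw [hX, hY, hZ, ← ex_smul, ← ex_smul, ← ex_add]
    nth_rewrite 1 [← ex_const (Ω := E → Fin B) (-1 : ℝ)]
    rw [← ex_add]
    apply ex_mono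
    intro ω
    obtain ⟨N, hN⟩ : ∃ N, N = (J.filter (fun e => kc ω e)).card := ⟨_, rfl⟩
    rw [← hN]
    have hN0 : (0 : ℝ) ≤ (N : ℝ) := by positivity
    have h5 : 1 / (1 + (N : ℝ)) ≤ 1 / (a + (N : ℝ)) + (a - 1) * (1 / ((1 + (N : ℝ)) * (2 + N))) := by
      rcases Nat.lt_or_ge a 2 with h | h
      · have : a = 1 := by omega
        subst this
        simp
      · have h' : (2 : ℝ) ≤ a := by exact_mod_cast h
        have e : 1 / (1 + (N : ℝ)) = 1 / (a + (N : ℝ)) + (a - 1) * (1 / ((1 + (N : ℝ)) * (a + N))) := by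
          have : (a : ℝ) + N ≠ 0 := by positivity
          have : (1 : ℝ) + N ≠ 0 := by positivity
          field_simp
          ring
        rw [e]
        have h6 : 1 / ((1 + (N : ℝ)) * (a + N)) ≤ 1 / ((1 + (N : ℝ)) * (2 + N)) := by
          apply div_le_div_of_nonneg_left (by norm_num) (by positivity)
          apply mul_le_mul_of_nonneg_left _ (by positivity)
          linarith
        have h7 := mul_le_mul_of_nonneg_left h6 (by linarith : (0 : ℝ) ≤ (a : ℝ) - 1)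
        linarith
    have h8 := mul_le_mul_of_nonneg_left h5 hmB.le
    have e1 : (m / B) / (a + (N : ℝ)) = (m / B) * (1 / (a + (N : ℝ))) := by rw [mul_one_div]
    rw [e1]
    linarith
  -- bounds
  have hq : (1 - 1 / (B : ℝ)) ^ (J.card + 1) ≤ Real.exp (-(m / (2 * B))) := by
    have h5 : 1 - 1 / (B : ℝ) ≤ Real.exp (-(1 / (B : ℝ))) := by
      have := Real.add_one_le_exp (-(1 / (B : ℝ)))
      linarith
    calc (1 - 1 / (B : ℝ)) ^ (J.card + 1) ≤ Real.exp (-(1 / (B : ℝ))) ^ (J.card + 1) :=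
          pow_le_pow_left₀ hB.2 h5 _
      _ = Real.exp (((J.card + 1 : ℕ) : ℝ) * (-(1 / (B : ℝ)))) := by rw [Real.exp_nat_mul]
      _ ≤ Real.exp (-(m / (2 * B))) := by
          apply Real.exp_le_exp.2
          have e : ((J.card + 1 : ℕ) : ℝ) = n + 1 := by rw [hn]; push_cast; ring
          have e2 : m / (2 * (B : ℝ)) = (m / 2) * (1 / B) := by field_simp
          rw [e, e2]
          have := mul_le_mul_of_nonneg_right hnm hB.1.le
          linarith
  obtain ⟨Q, hQ⟩ : ∃ Q, Q = (1 - 1 / (B : ℝ)) ^ (J.card + 1) := ⟨_, rfl⟩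
  have hQ0 : 0 ≤ Q := by rw [hQ]; exact pow_nonneg hB.2 _
  rw [← hQ] at hq hY2
  have hn1 : 0 < n + 1 := by linarith
  have e3 : (m / B) * Y = (m / (n + 1)) * (1 - Q) := by
    rw [hY2]
    field_simp
  obtain ⟨r, hr⟩ : ∃ r, r = m / (n + 1) := ⟨_, rfl⟩
  have hr0 : 0 < r := by rw [hr]; positivity
  have hr2 : r ≤ 2 := by
    rw [hr, div_le_iff₀ hn1]
    linarith
  have hr3 : r ≤ 1 + 2 * η := by
    rw [hr, div_le_iff₀ hn1]
    nlinarith [mul_nonneg hη0 hm.le, mul_nonneg (mul_nonneg hη0 hm.le) (by linarith : 0 ≤ 1 / 2 - η)]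
  have hr4 : 1 - 2 * η ≤ r := by
    rw [hr, le_div_iff₀ hn1]
    nlinarith [mul_nonneg hη0 hm.le, mul_nonneg (mul_nonneg hη0 hm.le) hη0,
      mul_nonneg (by linarith : 0 ≤ 1 - 2 * η) (by linarith : 0 ≤ m * (1 + η) - (n + 1))]
  have hZ3 : ((a - 1) * (m / B)) * Z ≤ 4 * (a - 1) * (B / m) := by
    have h5 : ((a - 1) * (m / B)) * Z ≤ ((a - 1) * (m / B)) * ((B : ℝ) ^ 2 / ((n + 1) * (n + 2))) :=
      mul_le_mul_of_nonneg_left hZ2 (mul_nonneg (by linarith) hmB.le)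
    have h6 : (m / B) * ((B : ℝ) ^ 2 / ((n + 1) * (n + 2))) ≤ 4 * (B / m) := by
      have e : (m / B) * ((B : ℝ) ^ 2 / ((n + 1) * (n + 2))) = (B * m) / ((n + 1) * (n + 2)) := by
        field_simp
      rw [e, mul_div_assoc', div_le_div_iff₀ (by positivity) hm]
      have h7 : m * m ≤ 4 * ((n + 1) * (n + 2)) := by nlinarith
      nlinarith
    have h7 := mul_le_mul_of_nonneg_left h6 (by linarith : (0 : ℝ) ≤ (a : ℝ) - 1)
    linarith
  rw [← hX]
  rw [← hr] at e3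
  rw [e3] at hXY hYX
  have h9 : r * Q ≤ 2 * Real.exp (-(m / (2 * B))) :=
    mul_le_mul hr2 hq hQ0 (by norm_num)
  have h10 : 0 ≤ r * Q := mul_nonneg hr0.le hQ0
  have h11 : 0 ≤ 4 * ((a : ℝ) - 1) * (B / m) := by
    have : (0 : ℝ) ≤ (a : ℝ) - 1 := by linarith
    positivity
  rw [abs_le]
  constructor
  · linarith
  · linarith

end Pool.Agent.H65.GI
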