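/-
ROW Sa. Degrees in the random subgraph.
PROOF. `kc ω e` looks at the coordinate `e`, probability `1/B` (`kc_pr`), distinct edges are independent (`pr_forall`, coordinate sets `{e}`).
`cnt_dev`: `μ = |J|/B`, `D(1-η) ≤ μ ≤ D(1+η)`, `D = m/B`. `chernoff_upper` (H67/HY/GC, `w = 1`, `m = 1`, `y = 1/B`) with `t = 2 sqrt (μ lam)`: `min (t^2/(4μ)) (t/2) ≥ lam` since `μ ≥ lam`; `chernoff_lower` with the same `t ≤ μ` (`μ ≥ 4 lam`). So with probability `≥ 1 - 2 exp (-lam)`:
`|N - μ| ≤ 2 sqrt (μ lam) ≤ 2.5 sqrt (D lam)`, `|μ - D| ≤ Dη ≤ sqrt (D lam)`. (Strict/non-strict: use `chernoff` with `≤`; `4 sqrt < |N - D|` implies `μ + t ≤ N` or `N ≤ μ - t`.)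
`rd_nor`: `ch_up` with `μ = 1`. `rd_res`: `ch_up` with `μ = 2D`: `6D + 2 lam ≤ 7D`.
`n2_low`: condition on the coordinates in `inN S v` (`cond_pr'`): for fixed `ω0` with `D/2 ≤ dn ω0 v` let `J = ((inN v).filter (kc ω0)).biUnion (fun e => inR S (oth S v e))`: the `oth S v e` are different (simple graph: `Bip.inj`, `hl`, `hr`), on the same side, so the `inR` are disjoint, `|J| ≥ (D/2) mR`, and `J` is disjoint from `inN S v`
(`inR` and `inN` edges are different). `n2 = #{f ∈ J : kc ω f}` (`Finset.card_biUnion`). `ch_lo` with `μ = (D/2) mR / B`: `pr (N ≤ μ/2) ≤ exp (-μ/16)`. (If `dn ω0 v < D/2` the event is empty.)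
-/
import Pool.Agent.H65.GI.Sid
import Pool.Agent.H65.GI.Chf

set_option autoImplicit false

namespace Pool.Agent.H65.GI

open Finset Classical

theorem Sa_loc {E : Type} {B : ℕ} (e : E) : Loc (fun ω : E → Fin B => kc ω e) {e} := by
  intro ω ω' h
  have h1 := h e (Finset.mem_singleton_self e)
  simp only [kc, h1]

theorem Sa_dis {E : Type} (e e' : E) (h : e ≠ e') : Disjoint ({e} : Finset E) {e'} :=
  Finset.disjoint_singleton.2 h

theorem Sa_prod {E : Type} [Fintype E] {B : ℕ} [NeZero B] (J : Finset E) :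
    pr (fun ω : E → Fin B => ∀ e ∈ J, kc ω e) = ∏ _e ∈ J, (1 / (B : ℝ)) := by
  rw [pr_forall J (fun e ω => kc ω e) (fun e => {e}) (fun e _ => Sa_loc e)
    (fun e _ e' _ h => Sa_dis e e' h)]
  exact Finset.prod_congr rfl fun e _ => kc_pr e

theorem Sa_prod' {E : Type} [Fintype E] {B : ℕ} [NeZero B] (J : Finset E) :
    pr (fun ω : E → Fin B => ∀ e ∈ J, ¬ kc ω e) = ∏ _e ∈ J, (1 - 1 / (B : ℝ)) := by
  rw [pr_forall J (fun e ω => ¬ kc ω e) (fun e => {e}) (fun e _ => ?_)
    (fun e _ e' _ h => Sa_dis e e' h)]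
  · refine Finset.prod_congr rfl fun e _ => ?_
    rw [pr_not, kc_pr]
  · intro ω ω' h'
    have := Sa_loc (B := B) e ω ω' h'
    simp only [this]

theorem Sa_card {Ω : Type} [Fintype Ω] [Nonempty Ω] (A : Ω → Prop) :
    ((univ.filter A).card : ℝ) = pr A * Fintype.card Ω := by
  unfold pr
  have h : (Fintype.card Ω : ℝ) ≠ 0 := by exact_mod_cast Fintype.card_ne_zero
  field_simp

theorem Sa_up {E : Type} [Fintype E] {B : ℕ} [NeZero B] (J : Finset E) (μ t : ℝ)
    (hμ : μ = (J.card : ℝ) / B) (hμ0 : 0 < μ) (ht : 0 ≤ t) :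
    pr (fun ω : E → Fin B => μ + t ≤ ((J.filter (fun e => kc ω e)).card : ℝ)) ≤
      Real.exp (-(min (t ^ 2 / (4 * μ)) (t / 2))) := by
  have hB : (0 : ℝ) < B := by exact_mod_cast Nat.pos_of_ne_zero (NeZero.ne B)
  have h := Pool.Agent.H67.HY.chernoff_upper (Ω := E → Fin B) J (fun e ω => kc ω e)
    (fun _ => 1) (fun _ => 1 / (B : ℝ)) 1 μ t one_pos (fun _ _ => zero_le_one)
    (fun _ _ => le_rfl) (fun _ _ => by positivity) (fun J' _ => by
      have h1 := (Sa_card (fun ω : E → Fin B => ∀ e ∈ J', kc ω e)).le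
      rw [Sa_prod J'] at h1
      refine le_trans (le_of_eq (congrArg (Nat.cast : ℕ → ℝ) (congrArg Finset.card ?_))) h1
      ext ω
      simp only [Finset.mem_filter]) (by
      rw [Finset.sum_const, nsmul_eq_mul, hμ]
      exact le_of_eq (by ring)) hμ0 ht
  rw [Sa_card] at h
  have hc : (0 : ℝ) < Fintype.card (E → Fin B) := by exact_mod_cast Fintype.card_pos
  have h2 := le_of_mul_le_mul_right h hc
  have e1 : t ^ 2 / (4 * 1 * μ) = t ^ 2 / (4 * μ) := by rw [mul_one]
  have e2 : t / (2 * 1) = t / 2 := by rw [mul_one]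
  rw [e1, e2] at h2
  refine le_trans (le_of_eq ?_) h2
  congr 1
  funext ω
  rw [Finset.sum_boole]

theorem Sa_lo {E : Type} [Fintype E] {B : ℕ} [NeZero B] (J : Finset E) (μ t : ℝ)
    (hμ : μ = (J.card : ℝ) / B) (hμ0 : 0 < μ) (ht : 0 ≤ t) (ht2 : t ≤ μ) :
    pr (fun ω : E → Fin B => ((J.filter (fun e => kc ω e)).card : ℝ) ≤ μ - t) ≤
      Real.exp (-(t ^ 2 / (4 * μ))) := by
  have hB := Sid_B (B := B)
  have h := Pool.Agent.H67.HY.chernoff_lower (Ω := E → Fin B) J (fun e ω => kc ω e)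
    (fun _ => 1) (fun _ => 1 / (B : ℝ)) 1 μ t one_pos (fun _ _ => zero_le_one)
    (fun _ _ => le_rfl) (fun _ _ => hB.1.le) (fun _ _ => by linarith [hB.2]) (fun J' _ => by
      have h1 := (Sa_card (fun ω : E → Fin B => ∀ e ∈ J', ¬ kc ω e)).le
      rw [Sa_prod' J'] at h1
      refine le_trans (le_of_eq (congrArg (Nat.cast : ℕ → ℝ) (congrArg Finset.card ?_))) h1
      ext ω
      simp only [Finset.mem_filter]) (by
      rw [Finset.sum_const, nsmul_eq_mul, hμ]
      exact le_of_eq (by ring)) hμ0 ht ht2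
  rw [Sa_card] at h
  have hc : (0 : ℝ) < Fintype.card (E → Fin B) := by exact_mod_cast Fintype.card_pos
  have h2 := le_of_mul_le_mul_right h hc
  have e1 : t ^ 2 / (4 * 1 * μ) = t ^ 2 / (4 * μ) := by rw [mul_one]
  rw [e1] at h2
  refine le_trans (le_of_eq ?_) h2
  congr 1
  funext ω
  rw [Finset.sum_boole]

theorem cnt_dev {E : Type} [Fintype E] {B : ℕ} [NeZero B] (J : Finset E) (m η lam : ℝ)
    (hm : 0 < m) (hη0 : 0 ≤ η) (hη : η ≤ 1 / 2) (hlam : 0 < lam) (hD : 8 * lam ≤ m / B)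
    (hDη : m / B * η ≤ Real.sqrt (m / B * lam))
    (h1 : m * (1 - η) ≤ J.card) (h2 : (J.card : ℝ) ≤ m * (1 + η)) :
    pr (fun ω : E → Fin B => 4 * Real.sqrt (m / B * lam) <
      |((J.filter (fun e => kc ω e)).card : ℝ) - m / B|) ≤ 2 * Real.exp (-lam) := by
  have hB : (0 : ℝ) < B := by exact_mod_cast Nat.pos_of_ne_zero (NeZero.ne B)
  obtain ⟨D, hDd⟩ : ∃ D, D = m / (B : ℝ) := ⟨_, rfl⟩
  obtain ⟨μ, hμ⟩ : ∃ μ, μ = (J.card : ℝ) / B := ⟨_, rfl⟩
  rw [← hDd] at hD hDη ⊢
  have hμ1 : D * (1 - η) ≤ μ := by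
    rw [hμ, hDd, div_mul_eq_mul_div]
    exact div_le_div_of_nonneg_right h1 hB.le
  have hμ2 : μ ≤ D * (1 + η) := by
    rw [hμ, hDd, div_mul_eq_mul_div]
    exact div_le_div_of_nonneg_right h2 hB.le
  have hD0 : 0 < D := by linarith
  have hμ3 : 4 * lam ≤ μ := by nlinarith
  have hμ4 : μ ≤ 3 / 2 * D := by nlinarith
  have hμ0 : 0 < μ := by linarith
  obtain ⟨s, hs⟩ : ∃ s, s = Real.sqrt (D * lam) := ⟨_, rfl⟩
  obtain ⟨r, hr⟩ : ∃ r, r = Real.sqrt (μ * lam) := ⟨_, rfl⟩
  have hs0 : 0 ≤ s := by rw [hs]; exact Real.sqrt_nonneg _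
  have hr0 : 0 ≤ r := by rw [hr]; exact Real.sqrt_nonneg _
  have hs2 : s ^ 2 = D * lam := by rw [hs]; exact Real.sq_sqrt (by positivity)
  have hr2 : r ^ 2 = μ * lam := by rw [hr]; exact Real.sq_sqrt (by positivity)
  rw [← hs] at hDη ⊢
  have hrs : r ≤ 3 / 2 * s := by
    refine le_of_sq_le_sq ?_ (by positivity)
    rw [hr2, mul_pow, hs2]
    nlinarith [mul_pos hD0 hlam]
  have hrl : lam ≤ r := by
    refine le_of_sq_le_sq ?_ hr0
    rw [hr2]
    nlinarith
  have hrμ : 2 * r ≤ μ := by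
    refine le_of_sq_le_sq ?_ hμ0.le
    rw [mul_pow, hr2]
    nlinarith
  have ht2 : (2 * r) ^ 2 / (4 * μ) = lam := by
    rw [mul_pow, hr2]
    field_simp
    ring
  have hup := Sa_up J μ (2 * r) hμ hμ0 (by positivity)
  have hlo := Sa_lo J μ (2 * r) hμ hμ0 (by positivity) hrμ
  rw [ht2] at hup hlo
  have e3 : min lam (2 * r / 2) = lam := by
    rw [min_eq_left]
    linarith
  rw [e3] at hup
  have hmono : pr (fun ω : E → Fin B => 4 * s <
      |((J.filter (fun e => kc ω e)).card : ℝ) - D|) ≤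
      pr (fun ω : E → Fin B => μ + 2 * r ≤ ((J.filter (fun e => kc ω e)).card : ℝ) ∨
        ((J.filter (fun e => kc ω e)).card : ℝ) ≤ μ - 2 * r) := by
    apply pr_mono
    intro ω hω
    rcases lt_abs.1 hω with h | h
    · left
      nlinarith
    · right
      nlinarith
  have hor := pr_or (fun ω : E → Fin B => μ + 2 * r ≤ ((J.filter (fun e => kc ω e)).card : ℝ))
    (fun ω : E → Fin B => ((J.filter (fun e => kc ω e)).card : ℝ) ≤ μ - 2 * r)
  linarith

section
variable {X E : Type} [Fintype E] (S : Bip X E) {B : ℕ} [NeZero B]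

theorem rd_nor (v : X) (lam : ℝ) (hlam : 0 ≤ lam) (h : (inR S v).card ≤ B) :
    pr (fun ω : E → Fin B => 3 + 2 * lam < (rd S (fun e => kc ω e) v : ℝ)) ≤ Real.exp (-lam) := by
  have hB : (0 : ℝ) < B := by exact_mod_cast Nat.pos_of_ne_zero (NeZero.ne B)
  have h' : ((inR S v).card : ℝ) ≤ B := by exact_mod_cast h
  refine le_trans (pr_mono fun ω hω => ?_) (ch_up (inR S v) (fun e (ω : E → Fin B) => kc ω e)
    (fun e => {e}) (fun e _ => Sa_loc e) (fun e _ e' _ h => Sa_dis e e' h) (fun _ => 1 / (B : ℝ))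
    (fun e _ => (kc_pr e).le) 1 lam ?_ hlam)
  · have : (3 : ℝ) + 2 * lam < ((inR S v).filter (fun e => kc ω e)).card := hω
    linarith
  · rw [Finset.sum_const, nsmul_eq_mul, mul_one_div, div_le_one hB]
    exact h'

theorem rd_res (v : X) (m lam : ℝ) (hlam : 0 ≤ lam) (hD : 2 * lam ≤ m / B)
    (h : ((inR S v).card : ℝ) ≤ 2 * m) :
    pr (fun ω : E → Fin B => 7 * (m / B) < (rd S (fun e => kc ω e) v : ℝ)) ≤
      Real.exp (-lam) := by
  have hB : (0 : ℝ) < B := by exact_mod_cast Nat.pos_of_ne_zero (NeZero.ne B)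
  refine le_trans (pr_mono fun ω hω => ?_) (ch_up (inR S v) (fun e (ω : E → Fin B) => kc ω e)
    (fun e => {e}) (fun e _ => Sa_loc e) (fun e _ e' _ h => Sa_dis e e' h) (fun _ => 1 / (B : ℝ))
    (fun e _ => (kc_pr e).le) (2 * (m / B)) lam ?_ hlam)
  · have : 7 * (m / B) < (((inR S v).filter (fun e => kc ω e)).card : ℝ) := hω
    linarith
  · rw [Finset.sum_const, nsmul_eq_mul, mul_one_div, ← mul_div_assoc]
    exact div_le_div_of_nonneg_right h hB.le

omit [NeZero B] in
theorem Sa_side (v : X) (e : E) (he : e ∈ inc S v) : S.side (oth S v e) = !S.side v := by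
  unfold inc at he
  rw [Finset.mem_filter] at he
  unfold oth
  by_cases h : S.lf e = v
  · rw [if_pos h, S.hr, ← h, S.hl]
    rfl
  · rw [if_neg h, S.hl]
    rcases he.2 with h' | h'
    · exact absurd h' h
    · rw [← h', S.hr]
      rfl

omit [NeZero B] in
theorem Sa_inj (v : X) (e e' : E) (he : e ∈ inc S v) (he' : e' ∈ inc S v)
    (h : oth S v e = oth S v e') : e = e' := by
  have h1 := he
  have h1' := he'
  unfold inc at he he'
  rw [Finset.mem_filter] at he he'
  unfold oth at h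
  by_cases ha : S.lf e = v
  · by_cases hb : S.lf e' = v
    · rw [if_pos ha, if_pos hb] at h
      exact S.inj e e' (ha.trans hb.symm) h
    · exfalso
      rcases he'.2 with h' | h'
      · exact hb h'
      · have e1 := S.hl e
        have e2 := S.hr e'
        rw [ha] at e1
        rw [h', e1] at e2
        exact Bool.noConfusion e2
  · have ha' : S.rt e = v := he.2.resolve_left ha
    by_cases hb : S.lf e' = v
    · exfalso
      have e1 := S.hl e'
      have e2 := S.hr e
      rw [hb] at e1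
      rw [ha', e1] at e2
      exact Bool.noConfusion e2
    · have hb' : S.rt e' = v := he'.2.resolve_left hb
      rw [if_neg ha, if_neg hb] at h
      exact S.inj e e' h (ha'.trans hb'.symm)

omit [NeZero B] in
theorem Sa_inR (x x' : X) (hx : S.side x = S.side x') (hne : x ≠ x') :
    Disjoint (inR S x) (inR S x') := by
  rw [Finset.disjoint_left]
  intro f hf hf'
  unfold inR inc at hf hf'
  rw [Finset.mem_filter, Finset.mem_filter] at hf hf'
  rcases hf.1.2 with h | h
  · rcases hf'.1.2 with h' | h'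
    · exact hne (h.symm.trans h')
    · have e1 := S.hl f
      have e2 := S.hr f
      rw [h] at e1
      rw [h', ← hx, e1] at e2
      exact Bool.noConfusion e2
  · rcases hf'.1.2 with h' | h'
    · have e1 := S.hl f
      have e2 := S.hr f
      rw [h'] at e1
      rw [h, hx, e1] at e2
      exact Bool.noConfusion e2
    · exact hne (h.symm.trans h')

theorem n2_low (v : X) (D mR : ℝ) (hD : 0 < D) (hmR : 0 ≤ mR)
    (h : ∀ e ∈ inN S v, mR ≤ ((inR S (oth S v e)).card : ℝ)) :
    pr (fun ω : E → Fin B => D / 2 ≤ (dn S (fun e => kc ω e) v : ℝ) ∧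
      (n2 S (fun e => kc ω e) v : ℝ) < D * mR / (4 * B)) ≤ Real.exp (-(D * mR / (32 * B))) := by
  have hB : (0 : ℝ) < B := by exact_mod_cast Nat.pos_of_ne_zero (NeZero.ne B)
  refine cond_pr' (inN S v) _ _ fun ω0 => ?_
  set F : Finset E := (inN S v).filter (fun e => kc ω0 e) with hF
  have hFeq : ∀ ω : E → Fin B, (inN S v).filter (fun e => kc (ov (inN S v) ω0 ω) e) = F := by
    intro ω
    rw [hF]
    refine Finset.filter_congr fun e he => ?_
    unfold kc ov
    rw [if_pos he]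
  have hRne : ∀ (ω : E → Fin B) (x : X), (inR S x).filter (fun e => kc (ov (inN S v) ω0 ω) e)
      = (inR S x).filter (fun e => kc ω e) := by
    intro ω x
    refine Finset.filter_congr fun e he => ?_
    have hne : e ∉ inN S v := by
      intro he'
      unfold inR at he
      unfold inN at he'
      rw [Finset.mem_filter] at he he'
      exact he.2 he'.2
    unfold kc ov
    rw [if_neg hne]
  have hFinc : ∀ e ∈ F, e ∈ inc S v := fun e he => by
    rw [hF, Finset.mem_filter] at he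
    have h1 := he.1
    unfold inN at h1
    exact (Finset.mem_filter.1 h1).1
  by_cases hdn : D / 2 ≤ (F.card : ℝ)
  · set J : Finset E := F.biUnion (fun e => inR S (oth S v e)) with hJ
    have hdis : ∀ e ∈ F, ∀ e' ∈ F, e ≠ e' →
        Disjoint (inR S (oth S v e)) (inR S (oth S v e')) := by
      intro e he e' he' hne
      refine Sa_inR S _ _ ?_ fun heq => hne (Sa_inj S v e e' (hFinc e he) (hFinc e' he') heq)
      rw [Sa_side S v e (hFinc e he), Sa_side S v e' (hFinc e' he')]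
    have hJc : (J.card : ℝ) = ∑ e ∈ F, ((inR S (oth S v e)).card : ℝ) := by
      rw [hJ, Finset.card_biUnion hdis]
      push_cast
      rfl
    have hJc2 : D / 2 * mR ≤ J.card := by
      rw [hJc]
      calc D / 2 * mR ≤ F.card * mR := mul_le_mul_of_nonneg_right hdn hmR
        _ = ∑ _e ∈ F, mR := by rw [Finset.sum_const, nsmul_eq_mul]
        _ ≤ _ := Finset.sum_le_sum fun e he => h e (by
            rw [hF, Finset.mem_filter] at he
            exact he.1)
    have hn2 : ∀ ω : E → Fin B, (n2 S (fun e => kc (ov (inN S v) ω0 ω) e) v : ℝ) =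
        ((J.filter (fun e => kc ω e)).card : ℝ) := by
      intro ω
      unfold n2
      rw [hFeq ω, hJ, Finset.filter_biUnion, Finset.card_biUnion]
      · push_cast
        refine Finset.sum_congr rfl fun e _ => ?_
        unfold rd
        rw [hRne]
      · intro e he e' he' hne
        exact Finset.disjoint_filter_filter (hdis e he e' he' hne)
    have hlo := ch_lo J (fun e (ω : E → Fin B) => kc ω e)
      (fun e => {e}) (fun e _ => Sa_loc e) (fun e _ e' _ h => Sa_dis e e' h)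
      (fun _ => 1 / (B : ℝ)) (fun _ _ => by positivity) (fun e _ => (kc_pr e).ge)
      (D / 2 * mR / B) (by
        rw [Finset.sum_const, nsmul_eq_mul, mul_one_div]
        exact div_le_div_of_nonneg_right hJc2 hB.le)
    have e1 : D / 2 * mR / B / 16 = D * mR / (32 * B) := by
      field_simp
      ring
    have e2 : D / 2 * mR / B / 2 = D * mR / (4 * B) := by
      field_simp
      ring
    rw [e1, e2] at hlo
    refine le_trans (pr_mono fun ω hω => ?_) hlo
    rw [← hn2]
    exact hω.2.le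
  · refine le_trans (pr_mono (B := fun _ => False) fun ω hω => ?_) ?_
    · have h1 := hω.1
      unfold dn at h1
      rw [hFeq ω] at h1
      exact hdn h1
    · have h2 : pr (fun _ : E → Fin B => False) = 0 := by
        simp [pr]
      rw [h2]
      exact (Real.exp_pos _).le

end

end Pool.Agent.H65.GI
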