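/-
ROW Sb. Exposing the edges at `v` and at its kept neighbours.
`Aex S ω v`: the edges at `v` and at the kept normal neighbours of `v`. `aa S k v v'`: number of kept normal edges from `v'` to kept neighbours of `v`.
PROOF. `aex_stop`: the set `Aex` is determined by the coins of the edges at `v`, which are in `Aex`.
`aex_good`: `GoodEx` fails with probability `≤ (2 + 2 * 2 m + 1 + 1) exp (-lam)`-type bound, as follows. (1) `dn v > 2D`: `cnt_dev` for `J = inN v` (`D + 4 sqrt (D lam) ≤ 2D` by `hD`). (2) for each of the `≤ 2m` edges `e ∈ inN v` the degree of `oth S v e` is outside `[D/2 + 1, 2D]` with probability `≤ 2 exp (-lam)` (`cnt_dev`, `4 sqrt (D lam) + 1 ≤ D/2`).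
(3) `∃ v' ≠ v, K ≤ aa v v'` while `dn v ≤ 2D`: condition on the coins in `inc S v` (`cond_pr'`): the kept neighbours `W` are fixed, `|W| ≤ 2D`. For `v' ≠ v` with an edge to `W`: `J_{v'} = {f ∈ inN v' : oth v' f ∈ W}` has `≤ |W| ≤ 2D` elements (simple graph), none of them in `inc S v` (if `f ∈ inc v` then, as `v'` and `v` ... `f` joins `v'` to `W`; it is in
`inc v` only if `v = v'` or `v ∈ W`; `v ∈ W` is impossible because `W` is on the other side of `v`; if `v'` is on the side of `W`, then `f` has both ends on one side: impossible, so `J_{v'} = ∅`). `few_le`: `pr (K ≤ #kept in J_{v'}) ≤ (2D/B)^K`. Number of such `v'`: at most the number of normal edges at `W`, `≤ 2D * 2m`. Union bound: hypothesis `hK`.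
(4) `#{v' ≠ v : 2 ≤ aa v v'}`: again given `W`: the events `2 ≤ #kept in J_{v'}` for different `v'` depend on disjoint edge sets; probability `≤ (|J_{v'}|/B)^2` (`few_le`, `K = 2`), sum `≤ (2D) (∑ |J_{v'}|)/B^2 ≤ 2D * (2D * 2m)/B^2 = 8 D^4/m` (as `B = m/D`; `∑_{v'} |J_{v'}|` = number of normal edges at `W` `≤ 2D * m(1+η)`). `ch_up` with `μ = 8D^4/m`:
`pr (24 D^4/m + 2 lam ≤ #..) ≤ exp (-lam)`.
The set of `v'` in (3), (4) may be an infinite type `X`; use the image `(univ.filter ..).image` of edges under `S.lf`/`S.rt`, i.e. `Finset` of ends of edges (`ends`).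
-/
import Pool.Agent.H65.GI.Sa

set_option autoImplicit false

namespace Pool.Agent.H65.GI

open Finset Classical

section
variable {X E : Type} [Fintype E] (S : Bip X E)

/-- all ends of edges -/
noncomputable def ends : Finset X := (univ : Finset E).image S.lf ∪ (univ : Finset E).image S.rt

/-- the exposed edges -/
noncomputable def Aex {B : ℕ} (v : X) (ω : E → Fin B) : Finset E :=
  inc S v ∪ ((inN S v).filter (fun e => kc ω e)).biUnion (fun e => inc S (oth S v e))

/-- number of kept normal edges from `v'` to kept neighbours of `v` -/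
noncomputable def aa (k : E → Prop) (v v' : X) : ℕ :=
  ((inN S v').filter (fun f => k f ∧ ∃ e ∈ inN S v, k e ∧ oth S v' f = oth S v e)).card

/-- the exposed part is fine -/
def GoodEx (k : E → Prop) (v : X) (D : ℝ) (K : ℕ) (N2 : ℝ) : Prop :=
  (dn S k v : ℝ) ≤ 2 * D ∧
  (∀ e ∈ inN S v, k e → D / 2 + 1 ≤ (dn S k (oth S v e) : ℝ) ∧ (dn S k (oth S v e) : ℝ) ≤ 2 * D) ∧
  (∀ v' ∈ ends S, v' ≠ v → aa S k v v' ≤ K) ∧
  (((ends S).filter (fun v' => v' ≠ v ∧ 2 ≤ aa S k v v')).card : ℝ) ≤ N2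

theorem aex_stop {B : ℕ} (v : X) (ω ω' : E → Fin B) (h : ∀ e ∈ Aex S v ω, ω' e = ω e) :
    Aex S v ω' = Aex S v ω := by
  have h1 : (inN S v).filter (fun e => kc ω' e) = (inN S v).filter (fun e => kc ω e) := by
    apply Finset.filter_congr
    intro e he
    have h2 : e ∈ inc S v := (Finset.mem_filter.1 he).1
    have h3 := h e (Finset.mem_union_left _ h2)
    unfold kc
    rw [h3]
  unfold Aex
  rw [h1]

theorem Sb_pr0 {Ω : Type} [Fintype Ω] (A : Ω → Prop) (h : ∀ ω, ¬ A ω) : pr A = 0 := by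
  unfold pr
  rw [Finset.filter_false_of_mem fun ω _ => h ω]
  simp

theorem Sb_side (v : X) (e : E) (h : e ∈ inc S v) : S.side (oth S v e) = !(S.side v) := by
  unfold inc at h
  rw [Finset.mem_filter] at h
  unfold oth
  by_cases h1 : S.lf e = v
  · rw [if_pos h1, ← h1, S.hl, S.hr]; rfl
  · rw [if_neg h1]
    have h2 := h.2.resolve_left h1
    rw [← h2, S.hl, S.hr]; rfl

theorem Sb_snd (v : X) (f : E) (h : f ∈ inc S v) :
    v = if S.side v = true then S.lf f else S.rt f := by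
  unfold inc at h
  rw [Finset.mem_filter] at h
  rcases h.2 with h1 | h1
  · have h2 : S.side v = true := by rw [← h1]; exact S.hl f
    rw [if_pos h2]; exact h1.symm
  · have h2 : S.side v = false := by rw [← h1]; exact S.hr f
    rw [if_neg (by rw [h2]; simp)]; exact h1.symm

theorem Sb_oinj (v : X) (f g : E) (hf : f ∈ inc S v) (hg : g ∈ inc S v)
    (h : oth S v f = oth S v g) : f = g := by
  have h1 := Sb_snd S v f hf
  have h2 := Sb_snd S v g hg
  by_cases hs : S.side v = true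
  · rw [if_pos hs] at h1 h2
    have h3 : oth S v f = S.rt f := if_pos h1.symm
    have h4 : oth S v g = S.rt g := if_pos h2.symm
    exact S.inj f g (h1.symm.trans h2) (by rw [← h3, ← h4, h])
  · rw [if_neg hs] at h1 h2
    have h5 : ∀ k, v = S.rt k → oth S v k = S.lf k := by
      intro k _
      refine if_neg ?_
      intro h6
      exact hs (by rw [← h6]; exact S.hl k)
    exact S.inj f g (by rw [← h5 f h1, ← h5 g h2, h]) (h1.symm.trans h2)

theorem Sb_moth (v : X) (f : E) (h : f ∈ inN S v) : f ∈ inN S (oth S v f) := by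
  unfold inN at h ⊢
  rw [Finset.mem_filter] at h ⊢
  refine ⟨?_, h.2⟩
  refine Finset.mem_filter.2 ⟨Finset.mem_univ _, ?_⟩
  unfold oth
  by_cases h2 : S.lf f = v
  · rw [if_pos h2]; exact Or.inr rfl
  · rw [if_neg h2]; exact Or.inl rfl

theorem Sb_nr (v : X) (f : E) (h : f ∈ inN S v) : S.nr (oth S v f) := by
  have h1 := (Finset.mem_filter.1 h).2
  unfold oth
  by_cases h2 : S.lf f = v
  · rw [if_pos h2]; exact h1.2
  · rw [if_neg h2]; exact h1.1

/-- the normal edges from `u` to `W` -/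
noncomputable def Sb_J (W : Finset X) (u : X) : Finset E :=
  (inN S u).filter (fun f => oth S u f ∈ W)

theorem Sb_det (v : X) (W : Finset X) (hW : ∀ w ∈ W, S.side w = !(S.side v)) (u : X) (f : E)
    (hf : f ∈ Sb_J S W u) : u = if S.side v = true then S.lf f else S.rt f := by
  have h1 := Finset.mem_filter.1 hf
  have h2 : f ∈ inc S u := (Finset.mem_filter.1 h1.1).1
  have h3 := Sb_side S u f h2
  rw [hW _ h1.2] at h3
  have h4 : S.side v = S.side u := by
    cases hv : S.side v <;> cases hu : S.side u <;> simp_all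
  rw [h4]
  exact Sb_snd S u f h2

theorem Sb_Jdis (v : X) (W : Finset X) (hW : ∀ w ∈ W, S.side w = !(S.side v)) (u u' : X)
    (hu : u ≠ u') : Disjoint (Sb_J S W u) (Sb_J S W u') := by
  rw [Finset.disjoint_left]
  intro f h1 h2
  exact hu ((Sb_det S v W hW u f h1).trans (Sb_det S v W hW u' f h2).symm)

theorem Sb_Jcard (W : Finset X) (u : X) : (Sb_J S W u).card ≤ W.card := by
  refine Finset.card_le_card_of_injOn (oth S u) (fun f hf => (Finset.mem_filter.1 hf).2) ?_
  intro f hf g hg h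
  have h1 : f ∈ inc S u := (Finset.mem_filter.1 (Finset.mem_filter.1 hf).1).1
  have h2 : g ∈ inc S u := (Finset.mem_filter.1 (Finset.mem_filter.1 hg).1).1
  exact Sb_oinj S u f g h1 h2 h

theorem Sb_sum (v : X) (W : Finset X) (hW : ∀ w ∈ W, S.side w = !(S.side v)) (U : Finset X)
    (M : ℝ) (hM : ∀ w ∈ W, ((inN S w).card : ℝ) ≤ M) :
    ∑ u ∈ U, ((Sb_J S W u).card : ℝ) ≤ W.card * M := by
  have h1 : (U.biUnion (Sb_J S W)).card = ∑ u ∈ U, (Sb_J S W u).card :=
    Finset.card_biUnion fun u _ u' _ h => Sb_Jdis S v W hW u u' h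
  have h2 : U.biUnion (Sb_J S W) ⊆ W.biUnion (inN S) := by
    intro f hf
    obtain ⟨u, _, hu⟩ := Finset.mem_biUnion.1 hf
    have h3 := Finset.mem_filter.1 hu
    exact Finset.mem_biUnion.2 ⟨_, h3.2, Sb_moth S u f h3.1⟩
  have h3 : (∑ u ∈ U, (Sb_J S W u).card) ≤ ∑ w ∈ W, (inN S w).card := by
    rw [← h1]
    exact (Finset.card_le_card h2).trans Finset.card_biUnion_le
  have h4 : ∑ u ∈ U, ((Sb_J S W u).card : ℝ) ≤ ∑ w ∈ W, ((inN S w).card : ℝ) := by
    exact_mod_cast h3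
  refine h4.trans ((Finset.sum_le_sum hM).trans ?_)
  rw [Finset.sum_const, nsmul_eq_mul]

/-- the kept neighbours of `v` -/
noncomputable def Sb_W {B : ℕ} (v : X) (ω0 : E → Fin B) : Finset X :=
  ((inN S v).filter (fun e => kc ω0 e)).image (oth S v)

theorem Sb_Wside {B : ℕ} (v : X) (ω0 : E → Fin B) :
    ∀ w ∈ Sb_W S v ω0, S.side w = !(S.side v) := by
  intro w hw
  obtain ⟨e, he, rfl⟩ := Finset.mem_image.1 hw
  exact Sb_side S v e (Finset.mem_filter.1 (Finset.mem_filter.1 he).1).1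

theorem Sb_Wnr {B : ℕ} (v : X) (ω0 : E → Fin B) : ∀ w ∈ Sb_W S v ω0, S.nr w := by
  intro w hw
  obtain ⟨e, he, rfl⟩ := Finset.mem_image.1 hw
  exact Sb_nr S v e (Finset.mem_filter.1 he).1

theorem Sb_kin {B : ℕ} (v : X) (ω0 ω : E → Fin B) (e : E) (he : e ∈ inc S v) :
    kc (ov (inc S v) ω0 ω) e ↔ kc ω0 e := by
  unfold kc ov
  rw [if_pos he]

theorem Sb_kout {B : ℕ} (v : X) (ω0 ω : E → Fin B) (e : E) (he : e ∉ inc S v) :
    kc (ov (inc S v) ω0 ω) e ↔ kc ω e := by
  unfold kc ov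
  rw [if_neg he]

theorem Sb_dn {B : ℕ} (v : X) (ω0 ω : E → Fin B) :
    dn S (fun e => kc (ov (inc S v) ω0 ω) e) v = dn S (fun e => kc ω0 e) v := by
  unfold dn
  congr 1
  apply Finset.filter_congr
  intro e he
  exact Sb_kin S v ω0 ω e (Finset.mem_filter.1 he).1

theorem Sb_aa {B : ℕ} (v u : X) (hu : u ≠ v) (ω0 ω : E → Fin B) :
    aa S (fun e => kc (ov (inc S v) ω0 ω) e) v u =
      ((Sb_J S (Sb_W S v ω0) u).filter (fun f => kc ω f)).card := by
  unfold aa Sb_J
  congr 1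
  ext f
  rw [Finset.mem_filter, Finset.mem_filter, Finset.mem_filter]
  have h0 : ∀ e, f ∈ inN S u → e ∈ inN S v → oth S u f = oth S v e → f ∉ inc S v := by
    intro e hf he h hc
    have h1 : f ∈ inc S u := (Finset.mem_filter.1 hf).1
    have h2 := Sb_side S u f h1
    have h3 := Sb_side S v e (Finset.mem_filter.1 he).1
    rw [h, h3] at h2
    have h4 : S.side v = S.side u := by
      cases hv : S.side v <;> cases hu : S.side u <;> simp_all
    have h5 := Sb_snd S u f h1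
    have h6 := Sb_snd S v f hc
    rw [h4] at h6
    exact hu (h5.trans h6.symm)
  constructor
  · rintro ⟨hf, hk, e, he, hke, h⟩
    refine ⟨⟨hf, ?_⟩, ?_⟩
    · rw [h]
      refine Finset.mem_image_of_mem _ (Finset.mem_filter.2 ⟨he, ?_⟩)
      exact (Sb_kin S v ω0 ω e (Finset.mem_filter.1 he).1).1 hke
    · exact (Sb_kout S v ω0 ω f (h0 e hf he h)).1 hk
  · rintro ⟨⟨hf, hw⟩, hk⟩
    obtain ⟨e, he, h⟩ := Finset.mem_image.1 hw
    have he1 := Finset.mem_filter.1 he
    refine ⟨hf, (Sb_kout S v ω0 ω f (h0 e hf he1.1 h.symm)).2 hk, e, he1.1, ?_, h.symm⟩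
    exact (Sb_kin S v ω0 ω e (Finset.mem_filter.1 he1.1).1).2 he1.2

theorem Sb_few {B : ℕ} [NeZero B] (J : Finset E) (n : ℕ) (K : ℕ) (hn : J.card ≤ n) :
    pr (fun ω : E → Fin B => K ≤ (J.filter (fun f => kc ω f)).card) ≤
      (n * (1 / (B : ℝ))) ^ K :=
  few_le J (fun f (ω : E → Fin B) => kc ω f) (fun f => {f})
    (fun f _ ω ω' h => by
      have h1 := h f (Finset.mem_singleton_self f)
      show ((ω f : ℕ) = 0) = ((ω' f : ℕ) = 0)
      rw [h1])
    (fun f _ g _ hfg => by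
      rw [Finset.disjoint_singleton]
      exact hfg)
    (1 / (B : ℝ)) (by positivity) (fun f _ => (kc_pr f).le) n K hn

/-- the nodes other than `v` with an edge to `W` -/
noncomputable def Sb_U (v : X) (W : Finset X) : Finset X :=
  (ends S).filter (fun u => u ≠ v ∧ (Sb_J S W u).Nonempty)

theorem Sb_Ucard (v : X) (W : Finset X) (hW : ∀ w ∈ W, S.side w = !(S.side v))
    (M : ℝ) (hM : ∀ w ∈ W, ((inN S w).card : ℝ) ≤ M) :
    ((Sb_U S v W).card : ℝ) ≤ W.card * M := by
  refine le_trans ?_ (Sb_sum S v W hW (Sb_U S v W) M hM)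
  have h1 : ((Sb_U S v W).card : ℝ) = ∑ u ∈ Sb_U S v W, (1 : ℝ) := by
    rw [Finset.sum_const, nsmul_eq_mul, mul_one]
  rw [h1]
  refine Finset.sum_le_sum fun u hu => ?_
  have h2 := (Finset.mem_filter.1 hu).2.2
  exact_mod_cast h2.card_pos

/-- no node sees many kept neighbours of `v` -/
theorem Sb_c {B : ℕ} [NeZero B] (v : X) (D M q : ℝ) (K : ℕ) (hD : 0 < D) (hM0 : 0 ≤ M)
    (hM : ∀ w, S.nr w → ((inN S w).card : ℝ) ≤ M)
    (hK : 2 * D * M * (2 * D / B) ^ K ≤ q) (hq : 0 ≤ q) :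
    pr (fun ω : E → Fin B => (dn S (fun e => kc ω e) v : ℝ) ≤ 2 * D ∧
      ∃ u ∈ ends S, u ≠ v ∧ K < aa S (fun e => kc ω e) v u) ≤ q := by
  apply cond_pr' (inc S v)
  intro ω0
  have hBpos : (0 : ℝ) < B := by exact_mod_cast Nat.pos_of_ne_zero (NeZero.ne B)
  by_cases hd : (dn S (fun e => kc ω0 e) v : ℝ) ≤ 2 * D
  · have hWc : ((Sb_W S v ω0).card : ℝ) ≤ 2 * D := by
      refine le_trans ?_ hd
      exact_mod_cast Finset.card_image_le
    have hU := Sb_Ucard S v (Sb_W S v ω0) (Sb_Wside S v ω0) M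
      (fun w hw => hM w (Sb_Wnr S v ω0 w hw))
    have h1 := pr_ex (Sb_U S v (Sb_W S v ω0)) (fun u (ω : E → Fin B) =>
      K ≤ ((Sb_J S (Sb_W S v ω0) u).filter (fun f => kc ω f)).card) ((2 * D / B) ^ K)
      (fun u _ => by
        refine (Sb_few (Sb_J S (Sb_W S v ω0) u) _ K le_rfl).trans ?_
        refine pow_le_pow_left₀ (by positivity) ?_ K
        rw [mul_one_div]
        refine div_le_div_of_nonneg_right ?_ hBpos.le
        refine le_trans ?_ hWc
        exact_mod_cast Sb_Jcard S _ u)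
    refine (pr_mono fun ω h => ?_).trans (h1.trans ?_)
    · obtain ⟨_, u, hu, huv, h2⟩ := h
      rw [Sb_aa S v u huv] at h2
      refine ⟨u, Finset.mem_filter.2 ⟨hu, huv, ?_⟩, h2.le⟩
      have h3 : 0 < ((Sb_J S (Sb_W S v ω0) u).filter (fun f => kc ω f)).card :=
        lt_of_le_of_lt (Nat.zero_le _) h2
      obtain ⟨f, hf⟩ := Finset.card_pos.1 h3
      exact ⟨f, (Finset.mem_filter.1 hf).1⟩
    · refine le_trans ?_ hK
      refine mul_le_mul_of_nonneg_right ?_ (by positivity)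
      exact hU.trans (mul_le_mul_of_nonneg_right hWc hM0)
  · rw [Sb_pr0 _ (fun ω h => hd (by
      have h2 := h.1
      rw [Sb_dn] at h2
      exact h2))]
    exact hq

/-- two kept edges from `u` to `W` -/
def Sb_two {B : ℕ} (W : Finset X) (u : X) (ω : E → Fin B) : Prop :=
  2 ≤ ((Sb_J S W u).filter (fun f => kc ω f)).card

/-- few nodes see two kept neighbours of `v` -/
theorem Sb_d {B : ℕ} [NeZero B] (v : X) (D M μ lam : ℝ) (hD : 0 < D) (hM0 : 0 ≤ M)
    (hM : ∀ w, S.nr w → ((inN S w).card : ℝ) ≤ M) (hlam : 0 ≤ lam)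
    (hμ : 2 * D * (2 * D * M) / (B : ℝ) ^ 2 ≤ μ) :
    pr (fun ω : E → Fin B => (dn S (fun e => kc ω e) v : ℝ) ≤ 2 * D ∧
      3 * μ + 2 * lam < (((ends S).filter (fun u => u ≠ v ∧
        2 ≤ aa S (fun e => kc ω e) v u)).card : ℝ)) ≤ Real.exp (-lam) := by
  apply cond_pr' (inc S v)
  intro ω0
  have hBpos : (0 : ℝ) < B := by exact_mod_cast Nat.pos_of_ne_zero (NeZero.ne B)
  by_cases hd : (dn S (fun e => kc ω0 e) v : ℝ) ≤ 2 * D
  · have hWc : ((Sb_W S v ω0).card : ℝ) ≤ 2 * D := by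
      refine le_trans ?_ hd
      exact_mod_cast Finset.card_image_le
    have h1 := ch_up (Sb_U S v (Sb_W S v ω0)) (fun u (ω : E → Fin B) =>
      Sb_two S (Sb_W S v ω0) u ω)
      (fun u => Sb_J S (Sb_W S v ω0) u)
      (fun u _ ω ω' h => by
        have h2 : (Sb_J S (Sb_W S v ω0) u).filter (fun f => kc ω f) =
            (Sb_J S (Sb_W S v ω0) u).filter (fun f => kc ω' f) := by
          apply Finset.filter_congr
          intro f hf
          unfold kc
          rw [h f hf]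
        show (2 ≤ ((Sb_J S (Sb_W S v ω0) u).filter (fun f => kc ω f)).card) =
          (2 ≤ ((Sb_J S (Sb_W S v ω0) u).filter (fun f => kc ω' f)).card)
        rw [h2])
      (fun u _ u' _ h => Sb_Jdis S v _ (Sb_Wside S v ω0) u u' h)
      (fun u => (((Sb_J S (Sb_W S v ω0) u).card : ℝ) * (1 / (B : ℝ))) ^ 2)
      (fun u _ => Sb_few (Sb_J S (Sb_W S v ω0) u) _ 2 le_rfl) μ lam
      (by
        refine le_trans ?_ hμ
        have h3 : ∀ u ∈ Sb_U S v (Sb_W S v ω0),
            (((Sb_J S (Sb_W S v ω0) u).card : ℝ) * (1 / (B : ℝ))) ^ 2 ≤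
            2 * D / (B : ℝ) ^ 2 * ((Sb_J S (Sb_W S v ω0) u).card : ℝ) := by
          intro u _
          have h4 : ((Sb_J S (Sb_W S v ω0) u).card : ℝ) ≤ 2 * D := by
            refine le_trans ?_ hWc
            exact_mod_cast Sb_Jcard S _ u
          have h5 : (((Sb_J S (Sb_W S v ω0) u).card : ℝ) * (1 / (B : ℝ))) ^ 2 =
              ((Sb_J S (Sb_W S v ω0) u).card : ℝ) / (B : ℝ) ^ 2 *
                ((Sb_J S (Sb_W S v ω0) u).card : ℝ) := by
            field_simp
          rw [h5]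
          exact mul_le_mul_of_nonneg_right
            (div_le_div_of_nonneg_right h4 (by positivity)) (Nat.cast_nonneg _)
        refine (Finset.sum_le_sum h3).trans ?_
        rw [← Finset.mul_sum]
        have h6 := Sb_sum S v (Sb_W S v ω0) (Sb_Wside S v ω0) (Sb_U S v (Sb_W S v ω0)) M
          (fun w hw => hM w (Sb_Wnr S v ω0 w hw))
        have h7 : ∑ u ∈ Sb_U S v (Sb_W S v ω0), ((Sb_J S (Sb_W S v ω0) u).card : ℝ) ≤
            2 * D * M := h6.trans (mul_le_mul_of_nonneg_right hWc hM0)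
        refine (mul_le_mul_of_nonneg_left h7 (by positivity)).trans (le_of_eq ?_)
        ring) hlam
    refine (pr_mono fun ω h => ?_).trans h1
    obtain ⟨_, h2⟩ := h
    refine h2.le.trans ?_
    refine Nat.cast_le.2 (Finset.card_le_card fun u hu => ?_)
    obtain ⟨hu1, huv, hu2⟩ := Finset.mem_filter.1 hu
    rw [Sb_aa S v u huv] at hu2
    rw [Finset.mem_filter]
    refine ⟨Finset.mem_filter.2 ⟨hu1, huv, ?_⟩, hu2⟩
    have h3 : 0 < ((Sb_J S (Sb_W S v ω0) u).filter (fun f => kc ω f)).card :=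
      lt_of_lt_of_le (by norm_num) hu2
    obtain ⟨f, hf⟩ := Finset.card_pos.1 h3
    exact ⟨f, (Finset.mem_filter.1 hf).1⟩
  · rw [Sb_pr0 _ (fun ω h => hd (by
      have h2 := h.1
      rw [Sb_dn] at h2
      exact h2))]
    exact (Real.exp_pos _).le

theorem aex_good {B : ℕ} [NeZero B] (v : X) (hv : S.nr v) (m η lam D : ℝ) (K : ℕ) (hDB : D = m / B)
    (hm : 0 < m) (hη0 : 0 ≤ η) (hη : η ≤ 1 / 2) (hlam : 1 ≤ lam) (hD : 400 * lam ≤ D)
    (hDη : D * η ≤ Real.sqrt (D * lam))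
    (hdeg : ∀ w, S.nr w → m * (1 - η) ≤ ((inN S w).card : ℝ) ∧ ((inN S w).card : ℝ) ≤ m * (1 + η))
    (hK : 8 * D * m * (2 * D / B) ^ K ≤ Real.exp (-lam)) :
    pr (fun ω : E → Fin B => ¬ GoodEx S (fun e => kc ω e) v D K (24 * D ^ 4 / m + 2 * lam)) ≤
      (4 + 4 * m) * Real.exp (-lam) := by
  have hBpos : (0 : ℝ) < B := by exact_mod_cast Nat.pos_of_ne_zero (NeZero.ne B)
  have hl0 : 0 < lam := by linarith
  have hD400 : 400 ≤ D := by nlinarith
  have hD0 : 0 < D := by linarith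
  have hM : ∀ w, S.nr w → ((inN S w).card : ℝ) ≤ m * (3 / 2) := by
    intro w hw
    refine (hdeg w hw).2.trans ?_
    exact mul_le_mul_of_nonneg_left (by linarith) hm.le
  have hsq : 4 * Real.sqrt (D * lam) ≤ D / 5 := by
    have h1 : Real.sqrt (D * lam) ≤ D / 20 := by
      rw [Real.sqrt_le_left (by positivity)]
      have h2 : D * lam ≤ D * (D / 400) := mul_le_mul_of_nonneg_left (by linarith) hD0.le
      nlinarith
    linarith
  -- deviation of one degree
  have hdev : ∀ w, S.nr w → pr (fun ω : E → Fin B =>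
      ¬ (D / 2 + 1 ≤ (dn S (fun e => kc ω e) w : ℝ) ∧
        (dn S (fun e => kc ω e) w : ℝ) ≤ 2 * D)) ≤ 2 * Real.exp (-lam) := by
    intro w hw
    have h1 := cnt_dev (B := B) (inN S w) m η lam hm hη0 hη hl0
      (by rw [← hDB]; linarith) (by rw [← hDB]; exact hDη) (hdeg w hw).1 (hdeg w hw).2
    rw [← hDB] at h1
    refine (pr_mono fun ω h => ?_).trans h1
    by_contra h2
    apply h
    have h3 := abs_le.1 (not_lt.1 h2)
    have h4 : (dn S (fun e => kc ω e) w : ℝ) =
      (((inN S w).filter (fun e => kc ω e)).card : ℝ) := rfl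
    rw [h4]
    constructor <;> linarith [h3.1, h3.2]
  have hA := hdev v hv
  have hB' : pr (fun ω : E → Fin B => ∃ e ∈ inN S v,
      ¬ (D / 2 + 1 ≤ (dn S (fun e => kc ω e) (oth S v e) : ℝ) ∧
        (dn S (fun e => kc ω e) (oth S v e) : ℝ) ≤ 2 * D)) ≤ 3 * m * Real.exp (-lam) := by
    refine (pr_ex (inN S v) (fun e (ω : E → Fin B) =>
      ¬ (D / 2 + 1 ≤ (dn S (fun e => kc ω e) (oth S v e) : ℝ) ∧
        (dn S (fun e => kc ω e) (oth S v e) : ℝ) ≤ 2 * D)) (2 * Real.exp (-lam))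
      (fun e he => hdev _ (Sb_nr S v e he))).trans ?_
    have h2 := mul_le_mul_of_nonneg_right (hM v hv)
      (by positivity : (0 : ℝ) ≤ 2 * Real.exp (-lam))
    refine h2.trans (le_of_eq ?_)
    ring
  have hC := Sb_c S (B := B) v D (m * (3 / 2)) (Real.exp (-lam)) K hD0 (by positivity) hM
    (by
      refine le_trans ?_ hK
      refine mul_le_mul_of_nonneg_right ?_ (by positivity)
      have h2 : 0 < D * m := mul_pos hD0 hm
      nlinarith) (Real.exp_pos _).le
  have hE := Sb_d S (B := B) v D (m * (3 / 2)) (8 * D ^ 4 / m) lam hD0 (by positivity) hM hl0.le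
    (by
      have h2 : (B : ℝ) = m / D := by
        rw [hDB]; field_simp
      rw [h2]
      have h3 : 2 * D * (2 * D * (m * (3 / 2))) / (m / D) ^ 2 = 6 * D ^ 4 / m := by
        field_simp
        ring
      rw [h3]
      refine div_le_div_of_nonneg_right ?_ hm.le
      have h4 : 0 ≤ D ^ 4 := by positivity
      linarith)
  have h1 : pr (fun ω : E → Fin B =>
      ¬ GoodEx S (fun e => kc ω e) v D K (24 * D ^ 4 / m + 2 * lam)) ≤
      pr (fun ω : E → Fin B =>
        (¬ (D / 2 + 1 ≤ (dn S (fun e => kc ω e) v : ℝ) ∧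
          (dn S (fun e => kc ω e) v : ℝ) ≤ 2 * D)) ∨
        (∃ e ∈ inN S v, ¬ (D / 2 + 1 ≤ (dn S (fun e => kc ω e) (oth S v e) : ℝ) ∧
          (dn S (fun e => kc ω e) (oth S v e) : ℝ) ≤ 2 * D)) ∨
        ((dn S (fun e => kc ω e) v : ℝ) ≤ 2 * D ∧
          ∃ u ∈ ends S, u ≠ v ∧ K < aa S (fun e => kc ω e) v u) ∨
        ((dn S (fun e => kc ω e) v : ℝ) ≤ 2 * D ∧
          3 * (8 * D ^ 4 / m) + 2 * lam < (((ends S).filter (fun u => u ≠ v ∧
            2 ≤ aa S (fun e => kc ω e) v u)).card : ℝ))) := by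
    apply pr_mono
    intro ω h
    by_contra h2
    rw [not_or, not_or, not_or] at h2
    obtain ⟨a1, a2, a3, a4⟩ := h2
    have b1 := not_not.1 a1
    apply h
    refine ⟨b1.2, ?_, ?_, ?_⟩
    · intro e he _
      by_contra h3
      exact a2 ⟨e, he, h3⟩
    · intro u hu huv
      by_contra h3
      exact a3 ⟨b1.2, u, hu, huv, not_le.1 h3⟩
    · by_contra h3
      refine a4 ⟨b1.2, ?_⟩
      have h4 := not_le.1 h3
      have h5 : 3 * (8 * D ^ 4 / m) + 2 * lam = 24 * D ^ 4 / m + 2 * lam := by ring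
      rw [h5]
      exact h4
  refine h1.trans ((pr_or _ _).trans ?_)
  have h2 := (pr_or (fun ω : E → Fin B => ∃ e ∈ inN S v,
      ¬ (D / 2 + 1 ≤ (dn S (fun e => kc ω e) (oth S v e) : ℝ) ∧
        (dn S (fun e => kc ω e) (oth S v e) : ℝ) ≤ 2 * D))
      (fun ω => ((dn S (fun e => kc ω e) v : ℝ) ≤ 2 * D ∧
          ∃ u ∈ ends S, u ≠ v ∧ K < aa S (fun e => kc ω e) v u) ∨
        ((dn S (fun e => kc ω e) v : ℝ) ≤ 2 * D ∧
          3 * (8 * D ^ 4 / m) + 2 * lam < (((ends S).filter (fun u => u ≠ v ∧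
            2 ≤ aa S (fun e => kc ω e) v u)).card : ℝ))))
  have h3 := (pr_or (fun ω : E → Fin B => (dn S (fun e => kc ω e) v : ℝ) ≤ 2 * D ∧
          ∃ u ∈ ends S, u ≠ v ∧ K < aa S (fun e => kc ω e) v u)
      (fun ω => (dn S (fun e => kc ω e) v : ℝ) ≤ 2 * D ∧
          3 * (8 * D ^ 4 / m) + 2 * lam < (((ends S).filter (fun u => u ≠ v ∧
            2 ≤ aa S (fun e => kc ω e) v u)).card : ℝ)))
  have h4 : 0 < m * Real.exp (-lam) := mul_pos hm (Real.exp_pos _)
  linarith

end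

end Pool.Agent.H65.GI
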