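/-
ROW Sc. The residual, given good exposed edges; the tail of the residual.
PROOF. `sc1`: fix `ω0` with `GoodEx` and write `k = kc ω0`, `A = Aex S v ω0`, `ω1 = ov A ω0 ω`, `W` = kept normal neighbours of `v` (for `ω0` and `ω1` the same, also `dn` of `w ∈ W` is the same: all edges at `W` are in `A`). Regroup `res` by the far end: `res S (kc ω1) D v = ∑_{v' ∈ ends, v' ≠ v, aa v v' ≥ 1} c_{v'} (D/dn ω1 v' - 1)`,
`c_{v'} = ∑_{f ∈ inN v', kept, oth v' f = w ∈ W} 1/(dn w - 1)`, `0 ≤ c_{v'} ≤ aa v v' * (2/D)` (`dn w - 1 ≥ D/2`). (In `av ω1 w e` the erased edge `e` is the edge to `v`; every other kept normal edge at `w` leads to some `v' ≠ v` because the graph is simple.)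
For such `v'` (on the side of `v`): `dn ω1 v' = a + b(ω)`, `a = aa v v'` (the kept normal edges of `v'` that lie in `A` are exactly those to `W`: an edge `f` at `v' ≠ v` in `A` is at some `w ∈ W`; not in `inc v` since it would join `v'` to `v`, same side), `b(ω) = #{f ∈ J_{v'} : kc ω f}`, `J_{v'} = inN v' \ A`; the `J_{v'}` are disjoint for different `v'` (same side).
`|J_{v'}| ≥ |inN v'| - |W| ≥ m(1-η) - 2D`, so with `η' = η + 3 D/m ≤ 1/2`: `m(1-η') ≤ |J| ≤ m(1+η')` and also for `|J| + 1` (`1 ≤ D`).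
`hoefT` over the `v'` (`n = ⌈4D^2⌉`: their number is `≤ ∑_{w ∈ W} dn w ≤ (2D)^2`), `f_{v'} ω = c_{v'} (D/(a+b) - 1)`, `|f| ≤ M = 2K` (`a ≥ 1`, `D ≥ 1`: `|D/(a+b) - 1| ≤ D`, `c ≤ 2K/D`), `c := (2K/D) * 10 sqrt (lam/D)`, `p = 3 exp (-lam)`: by `cnt_dev` for `J_{v'}` (`η'`), with probability `≥ 1 - 2 exp (-lam)` `|b - D| ≤ 4 sqrt (D lam)`,
then `|a + b - D| ≤ 4 sqrt (D lam) + K ≤ 5 sqrt (D lam)` (hypothesis `K^2 ≤ lam D`) and `a+b ≥ D/2`, so `|D/(a+b) - 1| ≤ 10 sqrt (lam/D)`. `t = sqrt (8 n lam) c ≤ sqrt (8 * 5 D^2 lam) (20 K/D) sqrt (lam/D) ≤ 127 K lam/sqrt D`. Means: `sid3` with `η'`, `|ex f_{v'}| ≤ c_{v'} (2η' + 2 exp (-D/2) + 4(a-1)/D)`, and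
`∑ c_{v'} ≤ (2/D) ∑ a ≤ (2/D) 4D^2 = 8D`, `∑ c_{v'} (a-1) ≤ (2/D) K^2 N2`. So the sum of the means is `≤ 16 D η' + 16 D exp (-D/2) + 8 K^2 N2/D^2`. All together `≤ ρ` by `hρ`.
`sc2`: `pr (ρ < |res|) ≤ pr (¬ GoodEx) + pr (GoodEx ∧ ρ < |res|)`; the second by `cond_pr` with the stopping set `Aex` (`GoodEx` for `ω1` is equivalent to `GoodEx` for `ω0`: it only looks at edges in `A`), `sc1`; the first by `aex_good`.
-/
import Pool.Agent.H65.GI.Sb

set_option autoImplicit false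

namespace Pool.Agent.H65.GI

open Finset Classical

section Sc_geo
variable {X E : Type} [Fintype E] (S : Bip X E)

theorem Sc_mem_inc {v : X} {e : E} : e ∈ inc S v ↔ (S.lf e = v ∨ S.rt e = v) := by
  simp [inc]

theorem Sc_inc_oth {v : X} {e : E} (h : e ∈ inc S v) : e ∈ inc S (oth S v e) := by
  rw [Sc_mem_inc] at h ⊢
  unfold oth
  by_cases h1 : S.lf e = v
  · rw [if_pos h1]
    exact Or.inr rfl
  · rw [if_neg h1]
    exact Or.inl rfl

theorem Sc_side {v : X} {e : E} (h : e ∈ inc S v) : S.side (oth S v e) = !S.side v := by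
  rw [Sc_mem_inc] at h
  unfold oth
  by_cases h1 : S.lf e = v
  · rw [if_pos h1, S.hr, ← h1, S.hl]
    rfl
  · rw [if_neg h1, S.hl, ← h.resolve_left h1, S.hr]
    rfl

theorem Sc_eq {v w : X} {f : E} (h : f ∈ inc S v) (h' : f ∈ inc S w) (hne : v ≠ w) :
    oth S v f = w := by
  rw [Sc_mem_inc] at h h'
  unfold oth
  by_cases h1 : S.lf f = v
  · rw [if_pos h1]
    rcases h' with h2 | h2
    · exact absurd (h1.symm.trans h2) hne
    · exact h2
  · rw [if_neg h1]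
    have h2 := h.resolve_left h1
    rcases h' with h3 | h3
    · exact h3
    · exact absurd (h2.symm.trans h3) hne

theorem Sc_ne {v : X} {e : E} (h : e ∈ inc S v) : oth S v e ≠ v := by
  intro h1
  have h2 := Sc_side S h
  rw [h1] at h2
  cases h3 : S.side v <;> simp [h3] at h2

theorem Sc_oth2 {v : X} {e : E} (h : e ∈ inc S v) : oth S (oth S v e) e = v :=
  Sc_eq S (Sc_inc_oth S h) h (Sc_ne S h)

theorem Sc_inj {v : X} {e e' : E} (h : e ∈ inc S v) (h' : e' ∈ inc S v)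
    (ho : oth S v e = oth S v e') : e = e' := by
  rw [Sc_mem_inc] at h h'
  unfold oth at ho
  by_cases h1 : S.lf e = v
  · by_cases h2 : S.lf e' = v
    · rw [if_pos h1, if_pos h2] at ho
      exact S.inj e e' (h1.trans h2.symm) ho
    · exfalso
      have h3 := h'.resolve_left h2
      have h4 := S.hl e
      rw [h1, ← h3, S.hr] at h4
      exact Bool.false_ne_true h4
  · by_cases h2 : S.lf e' = v
    · exfalso
      have h3 := h.resolve_left h1
      have h4 := S.hl e'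
      rw [h2, ← h3, S.hr] at h4
      exact Bool.false_ne_true h4
    · rw [if_neg h1, if_neg h2] at ho
      exact S.inj e e' ho ((h.resolve_left h1).trans (h'.resolve_left h2).symm)

theorem Sc_inN {v : X} {e : E} : e ∈ inN S v ↔ e ∈ inc S v ∧ nE S e := by
  simp [inN]

theorem Sc_inN_oth {v : X} {e : E} (h : e ∈ inN S v) : e ∈ inN S (oth S v e) := by
  rw [Sc_inN] at h ⊢
  exact ⟨Sc_inc_oth S h.1, h.2⟩

theorem Sc_nr {v : X} {e : E} (h : e ∈ inN S v) : S.nr v := by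
  rw [Sc_inN, Sc_mem_inc] at h
  rcases h.1 with h1 | h1
  · rw [← h1]
    exact h.2.1
  · rw [← h1]
    exact h.2.2

theorem Sc_ends {v : X} {e : E} (h : e ∈ inc S v) : v ∈ ends S := by
  rw [Sc_mem_inc] at h
  unfold ends
  rcases h with h1 | h1
  · exact mem_union_left _ (mem_image.2 ⟨e, mem_univ _, h1⟩)
  · exact mem_union_right _ (mem_image.2 ⟨e, mem_univ _, h1⟩)

/-- pairs of a kept edge at `v` and a further kept edge at its end -/
noncomputable def Sc_P (k : E → Prop) (v : X) : Finset ((_ : E) × E) :=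
  ((inN S v).filter (fun e => k e)).sigma
    (fun e => ((inN S (oth S v e)).filter (fun f => k f)).erase e)

noncomputable def Sc_g (v : X) (p : (_ : E) × E) : X := oth S (oth S v p.1) p.2

noncomputable def Sc_V (k : E → Prop) (v : X) : Finset X := (Sc_P S k v).image (Sc_g S v)

noncomputable def Sc_c (k : E → Prop) (v v' : X) : ℝ :=
  ∑ p ∈ (Sc_P S k v).filter (fun p => Sc_g S v p = v'), 1 / ((dn S k (oth S v p.1) : ℝ) - 1)

theorem Sc_res1 (k : E → Prop) (D : ℝ) (v : X) :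
    res S k D v = ∑ v' ∈ Sc_V S k v, Sc_c S k v v' * qe S k D v' := by
  have h1 : res S k D v = ∑ p ∈ Sc_P S k v,
      1 / ((dn S k (oth S v p.1) : ℝ) - 1) * qe S k D (Sc_g S v p) := by
    unfold res av Sc_P
    rw [Finset.sum_sigma]
    refine Finset.sum_congr rfl fun e _ => ?_
    rw [div_eq_mul_one_div, mul_comm, Finset.mul_sum]
    rfl
  rw [h1, ← Finset.sum_fiberwise_of_maps_to (g := Sc_g S v) (t := Sc_V S k v)
    (fun p hp => mem_image_of_mem _ hp)]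
  refine Finset.sum_congr rfl fun v' _ => ?_
  unfold Sc_c
  rw [Finset.sum_mul]
  refine Finset.sum_congr rfl fun p hp => ?_
  rw [(mem_filter.1 hp).2]

theorem Sc_memP {k : E → Prop} {v : X} {p : (_ : E) × E} : p ∈ Sc_P S k v ↔
    p.1 ∈ inN S v ∧ k p.1 ∧ p.2 ≠ p.1 ∧ p.2 ∈ inN S (oth S v p.1) ∧ k p.2 := by
  unfold Sc_P
  rw [Finset.mem_sigma, mem_filter, mem_erase, mem_filter]
  tauto

/-- properties of the second end -/
theorem Sc_prop {k : E → Prop} {v v' : X} {p : (_ : E) × E} (hp : p ∈ Sc_P S k v)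
    (hg : Sc_g S v p = v') : v' ≠ v ∧ S.side v' = S.side v ∧ S.nr v' ∧ v' ∈ ends S ∧
    p.2 ∈ inN S v' ∧ oth S v' p.2 = oth S v p.1 := by
  obtain ⟨h1, h2, h3, h4, h5⟩ := (Sc_memP S).1 hp
  have h6 := ((Sc_inN S).1 h1).1
  have h7 := ((Sc_inN S).1 h4).1
  unfold Sc_g at hg
  have h8 := Sc_inN_oth S h4
  rw [hg] at h8
  have h9 := ((Sc_inN S).1 h8).1
  have h10 : oth S v' p.2 = oth S v p.1 := by
    rw [← hg]
    exact Sc_oth2 S h7
  refine ⟨?_, ?_, Sc_nr S h8, Sc_ends S h9, h8, h10⟩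
  · intro h11
    apply h3
    apply Sc_inj S h7 (Sc_inc_oth S h6)
    rw [hg, h11]
    exact (Sc_oth2 S h6).symm
  · rw [← hg, Sc_side S h7, Sc_side S h6, Bool.not_not]

theorem Sc_fib (k : E → Prop) (v v' : X) :
    ((Sc_P S k v).filter (fun p => Sc_g S v p = v')).card ≤ aa S k v v' := by
  unfold aa
  refine Finset.card_le_card_of_injOn (fun p => p.2) ?_ ?_
  · intro p hp
    have hp := Finset.mem_coe.1 hp
    obtain ⟨hp1, hp2⟩ := mem_filter.1 hp
    obtain ⟨h1, h2, h3, h4, h5⟩ := (Sc_memP S).1 hp1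
    obtain ⟨-, -, -, -, g5, g6⟩ := Sc_prop S hp1 hp2
    exact Finset.mem_coe.2 (mem_filter.2 ⟨g5, h5, p.1, h1, h2, g6⟩)
  · intro p hp q hq hpq
    have hp := Finset.mem_coe.1 hp
    have hq := Finset.mem_coe.1 hq
    obtain ⟨hp1, hp2⟩ := mem_filter.1 hp
    obtain ⟨hq1, hq2⟩ := mem_filter.1 hq
    obtain ⟨-, -, -, -, -, g6⟩ := Sc_prop S hp1 hp2
    obtain ⟨-, -, -, -, -, g7⟩ := Sc_prop S hq1 hq2
    have hpq' : p.2 = q.2 := hpq
    rw [← hpq'] at g7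
    have h1 : p.1 = q.1 := Sc_inj S ((Sc_inN S).1 ((Sc_memP S).1 hp1).1).1
      ((Sc_inN S).1 ((Sc_memP S).1 hq1).1).1 (g6.symm.trans g7)
    rcases p with ⟨a, b⟩
    rcases q with ⟨a', b'⟩
    simp only at h1 hpq'
    rw [h1, hpq']

theorem Sc_cpos {k : E → Prop} {v v' : X} {D : ℝ} {K : ℕ} {N2 : ℝ} (hD : 0 < D)
    (hg : GoodEx S k v D K N2) : 0 ≤ Sc_c S k v v' ∧ Sc_c S k v v' ≤ aa S k v v' * (2 / D) := by
  have h1 : ∀ p ∈ Sc_P S k v, 0 ≤ 1 / ((dn S k (oth S v p.1) : ℝ) - 1) ∧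
      1 / ((dn S k (oth S v p.1) : ℝ) - 1) ≤ 2 / D := by
    intro p hp
    obtain ⟨h1, h2, -, -, -⟩ := (Sc_memP S).1 hp
    have h3 := (hg.2.1 p.1 h1 h2).1
    have h4 : 0 < D / 2 := by positivity
    have h5 : D / 2 ≤ (dn S k (oth S v p.1) : ℝ) - 1 := by linarith
    refine ⟨one_div_nonneg.2 (h4.le.trans h5), ?_⟩
    have h6 : 2 / D = 1 / (D / 2) := by field_simp
    rw [h6]
    exact one_div_le_one_div_of_le h4 h5
  constructor
  · unfold Sc_c
    exact Finset.sum_nonneg fun p hp => (h1 p (mem_filter.1 hp).1).1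
  · unfold Sc_c
    calc ∑ p ∈ (Sc_P S k v).filter (fun p => Sc_g S v p = v'),
          1 / ((dn S k (oth S v p.1) : ℝ) - 1)
        ≤ ((Sc_P S k v).filter (fun p => Sc_g S v p = v')).card • (2 / D) :=
          Finset.sum_le_card_nsmul _ _ _ fun p hp => (h1 p (mem_filter.1 hp).1).2
      _ ≤ aa S k v v' * (2 / D) := by
          rw [nsmul_eq_mul]
          have h2 : (((Sc_P S k v).filter (fun p => Sc_g S v p = v')).card : ℝ) ≤
              aa S k v v' := by exact_mod_cast Sc_fib S k v v'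
          exact mul_le_mul_of_nonneg_right h2 (by positivity)

theorem Sc_Pcard {k : E → Prop} {v : X} {D : ℝ} {K : ℕ} {N2 : ℝ} (hD : 0 < D)
    (hg : GoodEx S k v D K N2) : ((Sc_P S k v).card : ℝ) ≤ 4 * D ^ 2 := by
  unfold Sc_P
  rw [Finset.card_sigma]
  push_cast
  calc ∑ e ∈ (inN S v).filter (fun e => k e),
        ((((inN S (oth S v e)).filter (fun f => k f)).erase e).card : ℝ)
      ≤ ((inN S v).filter (fun e => k e)).card • (2 * D) := by
        refine Finset.sum_le_card_nsmul _ _ _ fun e he => ?_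
        obtain ⟨he1, he2⟩ := mem_filter.1 he
        have h1 := (hg.2.1 e he1 he2).2
        have h2 : (((inN S (oth S v e)).filter (fun f => k f)).erase e).card ≤
            dn S k (oth S v e) := Finset.card_erase_le
        have h3 : ((((inN S (oth S v e)).filter (fun f => k f)).erase e).card : ℝ) ≤
            dn S k (oth S v e) := by exact_mod_cast h2
        exact h3.trans h1
    _ = (dn S k v : ℝ) * (2 * D) := by rw [nsmul_eq_mul]; rfl
    _ ≤ 2 * D * (2 * D) := mul_le_mul_of_nonneg_right hg.1 (by positivity)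
    _ = 4 * D ^ 2 := by ring

theorem Sc_csum {k : E → Prop} {v : X} {D : ℝ} {K : ℕ} {N2 : ℝ} (hD : 0 < D)
    (hg : GoodEx S k v D K N2) : ∑ v' ∈ Sc_V S k v, Sc_c S k v v' ≤ 8 * D := by
  unfold Sc_c
  rw [Finset.sum_fiberwise_of_maps_to (g := Sc_g S v) (t := Sc_V S k v)
    (fun p hp => mem_image_of_mem _ hp)]
  calc ∑ p ∈ Sc_P S k v, 1 / ((dn S k (oth S v p.1) : ℝ) - 1)
      ≤ (Sc_P S k v).card • (2 / D) := by
        refine Finset.sum_le_card_nsmul _ _ _ fun p hp => ?_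
        obtain ⟨h1, h2, -, -, -⟩ := (Sc_memP S).1 hp
        have h3 := (hg.2.1 p.1 h1 h2).1
        have h4 : 0 < D / 2 := by positivity
        have h5 : D / 2 ≤ (dn S k (oth S v p.1) : ℝ) - 1 := by linarith
        have h6 : 2 / D = 1 / (D / 2) := by field_simp
        rw [h6]
        exact one_div_le_one_div_of_le h4 h5
    _ = ((Sc_P S k v).card : ℝ) * (2 / D) := nsmul_eq_mul _ _
    _ ≤ 4 * D ^ 2 * (2 / D) := mul_le_mul_of_nonneg_right (Sc_Pcard S hD hg) (by positivity)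
    _ = 8 * D := by
        field_simp
        ring

theorem Sc_csum2 {k : E → Prop} {v : X} {D : ℝ} {K : ℕ} {N2 : ℝ} (hD : 0 < D)
    (hg : GoodEx S k v D K N2) :
    ∑ v' ∈ Sc_V S k v, Sc_c S k v v' * ((aa S k v v' : ℝ) - 1) ≤
      2 / D * ((K : ℝ) ^ 2 * N2) := by
  have hV : ∀ v' ∈ Sc_V S k v, v' ≠ v ∧ v' ∈ ends S ∧ 1 ≤ aa S k v v' := by
    intro v' hv'
    obtain ⟨p, hp, hgp⟩ := mem_image.1 hv'
    obtain ⟨g1, -, -, g4, -, -⟩ := Sc_prop S hp hgp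
    refine ⟨g1, g4, ?_⟩
    refine le_trans ?_ (Sc_fib S k v v')
    exact Finset.card_pos.2 ⟨p, mem_filter.2 ⟨hp, hgp⟩⟩
  calc ∑ v' ∈ Sc_V S k v, Sc_c S k v v' * ((aa S k v v' : ℝ) - 1)
      ≤ ∑ v' ∈ Sc_V S k v, 2 / D * (K : ℝ) ^ 2 * (if 2 ≤ aa S k v v' then 1 else 0) := by
        refine Finset.sum_le_sum fun v' hv' => ?_
        obtain ⟨g1, g2, g3⟩ := hV v' hv'
        have g4 := hg.2.2.1 v' g2 g1
        obtain ⟨c1, c2⟩ := Sc_cpos S (v' := v') hD hg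
        by_cases h : 2 ≤ aa S k v v'
        · rw [if_pos h, mul_one]
          have h1 : (2 : ℝ) ≤ aa S k v v' := by exact_mod_cast h
          have h2 : (aa S k v v' : ℝ) ≤ K := by exact_mod_cast g4
          calc Sc_c S k v v' * ((aa S k v v' : ℝ) - 1)
              ≤ aa S k v v' * (2 / D) * ((aa S k v v' : ℝ) - 1) :=
                mul_le_mul_of_nonneg_right c2 (by linarith)
            _ = 2 / D * ((aa S k v v' : ℝ) * ((aa S k v v' : ℝ) - 1)) := by ring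
            _ ≤ 2 / D * (K : ℝ) ^ 2 := by
                refine mul_le_mul_of_nonneg_left ?_ (by positivity)
                nlinarith
        · rw [if_neg h, mul_zero]
          have h1 : aa S k v v' = 1 := by omega
          rw [h1]
          simp
    _ = 2 / D * (K : ℝ) ^ 2 * (((Sc_V S k v).filter (fun v' => 2 ≤ aa S k v v')).card : ℝ) := by
        rw [← Finset.mul_sum, Finset.sum_boole]
    _ ≤ 2 / D * (K : ℝ) ^ 2 * N2 := by
        refine mul_le_mul_of_nonneg_left ?_ (by positivity)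
        refine le_trans ?_ hg.2.2.2
        have h1 : ((Sc_V S k v).filter (fun v' => 2 ≤ aa S k v v')).card ≤
            ((ends S).filter (fun v' => v' ≠ v ∧ 2 ≤ aa S k v v')).card := by
          refine Finset.card_le_card ?_
          intro v' hv'
          obtain ⟨h1, h2⟩ := mem_filter.1 hv'
          obtain ⟨g1, g2, -⟩ := hV v' h1
          exact mem_filter.2 ⟨g2, g1, h2⟩
        exact_mod_cast h1
    _ = 2 / D * ((K : ℝ) ^ 2 * N2) := by ring

section expo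
variable {B : ℕ}

theorem Sc_kin {A : Finset E} {ω0 ω : E → Fin B} {f : E} (h : f ∈ A) :
    kc (ov A ω0 ω) f ↔ kc ω0 f := by
  unfold kc ov
  rw [if_pos h]

theorem Sc_kout {A : Finset E} {ω0 ω : E → Fin B} {f : E} (h : f ∉ A) :
    kc (ov A ω0 ω) f ↔ kc ω f := by
  unfold kc ov
  rw [if_neg h]

theorem Sc_A1 {v : X} {ω0 : E → Fin B} {e : E} (h : e ∈ inc S v) : e ∈ Aex S v ω0 :=
  mem_union_left _ h

theorem Sc_A2 {v : X} {ω0 : E → Fin B} {e f : E} (h : e ∈ inN S v) (hk : kc ω0 e)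
    (hf : f ∈ inc S (oth S v e)) : f ∈ Aex S v ω0 :=
  mem_union_right _ (mem_biUnion.2 ⟨e, mem_filter.2 ⟨h, hk⟩, hf⟩)

theorem Sc_A3 {v : X} {ω0 : E → Fin B} {f : E} (h : f ∈ Aex S v ω0) :
    f ∈ inc S v ∨ ∃ e ∈ inN S v, kc ω0 e ∧ f ∈ inc S (oth S v e) := by
  rcases mem_union.1 h with h | h
  · exact Or.inl h
  · obtain ⟨e, he, hf⟩ := mem_biUnion.1 h
    exact Or.inr ⟨e, (mem_filter.1 he).1, (mem_filter.1 he).2, hf⟩

variable (v : X) (ω0 ω : E → Fin B)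

theorem Sc_k1 {e : E} (he : e ∈ inN S v) : kc (ov (Aex S v ω0) ω0 ω) e ↔ kc ω0 e :=
  Sc_kin (Sc_A1 S ((Sc_inN S).1 he).1)

theorem Sc_f1 : (inN S v).filter (fun e => kc (ov (Aex S v ω0) ω0 ω) e) =
    (inN S v).filter (fun e => kc ω0 e) :=
  Finset.filter_congr fun _ he => Sc_k1 S v ω0 ω he

theorem Sc_f2 {e : E} (he : e ∈ inN S v) (hk : kc ω0 e) :
    (inN S (oth S v e)).filter (fun e => kc (ov (Aex S v ω0) ω0 ω) e) =
    (inN S (oth S v e)).filter (fun e => kc ω0 e) :=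
  Finset.filter_congr fun _ hf => Sc_kin (Sc_A2 S he hk ((Sc_inN S).1 hf).1)

theorem Sc_dn1 : dn S (fun e => kc (ov (Aex S v ω0) ω0 ω) e) v = dn S (fun e => kc ω0 e) v := by
  unfold dn
  exact congrArg Finset.card (Sc_f1 S v ω0 ω)

theorem Sc_dn2 {e : E} (he : e ∈ inN S v) (hk : kc ω0 e) :
    dn S (fun e => kc (ov (Aex S v ω0) ω0 ω) e) (oth S v e) =
      dn S (fun e => kc ω0 e) (oth S v e) := by
  unfold dn
  exact congrArg Finset.card (Sc_f2 S v ω0 ω he hk)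

theorem Sc_Pov : Sc_P S (fun e => kc (ov (Aex S v ω0) ω0 ω) e) v =
    Sc_P S (fun e => kc ω0 e) v := by
  ext p
  rw [Sc_memP, Sc_memP]
  constructor
  · rintro ⟨h1, h2, h3, h4, h5⟩
    have h6 := (Sc_k1 S v ω0 ω h1).1 h2
    exact ⟨h1, h6, h3, h4, (Sc_kin (Sc_A2 S h1 h6 ((Sc_inN S).1 h4).1)).1 h5⟩
  · rintro ⟨h1, h2, h3, h4, h5⟩
    exact ⟨h1, (Sc_k1 S v ω0 ω h1).2 h2, h3, h4,
      (Sc_kin (Sc_A2 S h1 h2 ((Sc_inN S).1 h4).1)).2 h5⟩

theorem Sc_Vov : Sc_V S (fun e => kc (ov (Aex S v ω0) ω0 ω) e) v =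
    Sc_V S (fun e => kc ω0 e) v := by
  unfold Sc_V
  rw [Sc_Pov]

theorem Sc_cov (v' : X) : Sc_c S (fun e => kc (ov (Aex S v ω0) ω0 ω) e) v v' =
    Sc_c S (fun e => kc ω0 e) v v' := by
  unfold Sc_c
  rw [Sc_Pov]
  refine Finset.sum_congr rfl fun p hp => ?_
  obtain ⟨h1, h2, -, -, -⟩ := (Sc_memP S).1 (mem_filter.1 hp).1
  rw [Sc_dn2 S v ω0 ω h1 h2]

theorem Sc_aov (v' : X) : aa S (fun e => kc (ov (Aex S v ω0) ω0 ω) e) v v' =
    aa S (fun e => kc ω0 e) v v' := by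
  unfold aa
  refine congrArg Finset.card (Finset.filter_congr fun f hf => ?_)
  have hf1 := ((Sc_inN S).1 hf).1
  constructor
  · rintro ⟨h1, e, he, h2, h3⟩
    have h4 := (Sc_k1 S v ω0 ω he).1 h2
    have h5 : f ∈ inc S (oth S v e) := by
      rw [← h3]
      exact Sc_inc_oth S hf1
    exact ⟨(Sc_kin (Sc_A2 S he h4 h5)).1 h1, e, he, h4, h3⟩
  · rintro ⟨h1, e, he, h2, h3⟩
    have h5 : f ∈ inc S (oth S v e) := by
      rw [← h3]
      exact Sc_inc_oth S hf1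
    exact ⟨(Sc_kin (Sc_A2 S he h2 h5)).2 h1, e, he, (Sc_k1 S v ω0 ω he).2 h2, h3⟩

theorem Sc_good (D : ℝ) (K : ℕ) (N2 : ℝ)
    (h : GoodEx S (fun e => kc (ov (Aex S v ω0) ω0 ω) e) v D K N2) :
    GoodEx S (fun e => kc ω0 e) v D K N2 := by
  obtain ⟨h1, h2, h3, h4⟩ := h
  rw [Sc_dn1] at h1
  refine ⟨h1, ?_, ?_, ?_⟩
  · intro e he hk
    have h5 := h2 e he ((Sc_k1 S v ω0 ω he).2 hk)
    rw [Sc_dn2 S v ω0 ω he hk] at h5
    exact h5
  · intro v' hv' hne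
    have h5 := h3 v' hv' hne
    rw [Sc_aov] at h5
    exact h5
  · simp only [Sc_aov] at h4
    exact h4

/-- the edges of `v'` in the exposed set -/
theorem Sc_aiff {v' : X} (hs : S.side v' = S.side v) (hne : v' ≠ v) {f : E} (hf : f ∈ inN S v') :
    f ∈ Aex S v ω0 ↔ ∃ e ∈ inN S v, kc ω0 e ∧ oth S v' f = oth S v e := by
  have hf1 := ((Sc_inN S).1 hf).1
  constructor
  · intro h
    rcases Sc_A3 S h with h1 | ⟨e, he, hk, h1⟩
    · exfalso
      have h2 := Sc_eq S hf1 h1 hne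
      have h3 := Sc_side S hf1
      rw [h2, hs] at h3
      cases h4 : S.side v <;> simp [h4] at h3
    · refine ⟨e, he, hk, ?_⟩
      refine Sc_eq S hf1 h1 ?_
      intro h2
      have h3 := Sc_side S ((Sc_inN S).1 he).1
      rw [← h2, hs] at h3
      cases h4 : S.side v <;> simp [h4] at h3
  · rintro ⟨e, he, hk, h1⟩
    refine Sc_A2 S he hk ?_
    rw [← h1]
    exact Sc_inc_oth S hf1

theorem Sc_split {v' : X} (hs : S.side v' = S.side v) (hne : v' ≠ v) :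
    dn S (fun e => kc (ov (Aex S v ω0) ω0 ω) e) v' = aa S (fun e => kc ω0 e) v v' +
      ((inN S v' \ Aex S v ω0).filter (fun e => kc ω e)).card := by
  unfold dn aa
  rw [← Finset.card_union_of_disjoint]
  · congr 1
    ext f
    rw [mem_union, mem_filter, mem_filter, mem_filter, mem_sdiff]
    constructor
    · rintro ⟨h1, h2⟩
      by_cases hA : f ∈ Aex S v ω0
      · left
        refine ⟨h1, (Sc_kin hA).1 h2, ?_⟩
        exact (Sc_aiff S v ω0 hs hne h1).1 hA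
      · right
        exact ⟨⟨h1, hA⟩, (Sc_kout hA).1 h2⟩
    · rintro (⟨h1, h2, h3⟩ | ⟨⟨h1, hA⟩, h2⟩)
      · exact ⟨h1, (Sc_kin ((Sc_aiff S v ω0 hs hne h1).2 h3)).2 h2⟩
      · exact ⟨h1, (Sc_kout hA).2 h2⟩
  · rw [Finset.disjoint_left]
    intro f h1 h2
    obtain ⟨g1, g2, g3⟩ := mem_filter.1 h1
    obtain ⟨g4, g5⟩ := mem_filter.1 h2
    exact (mem_sdiff.1 g4).2 ((Sc_aiff S v ω0 hs hne g1).2 g3)

/-- few edges of `v'` are exposed -/
theorem Sc_Jcard {v' : X} (hs : S.side v' = S.side v) (hne : v' ≠ v) :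
    (inN S v').card ≤ (inN S v' \ Aex S v ω0).card + dn S (fun e => kc ω0 e) v := by
  rw [← Finset.card_sdiff_add_card_inter (inN S v') (Aex S v ω0)]
  refine Nat.add_le_add_left ?_ _
  have h1 : (inN S v' ∩ Aex S v ω0).card = ((inN S v' ∩ Aex S v ω0).image (oth S v')).card := by
    refine (Finset.card_image_of_injOn ?_).symm
    intro f hf f' hf' h
    exact Sc_inj S ((Sc_inN S).1 (mem_inter.1 (Finset.mem_coe.1 hf)).1).1
      ((Sc_inN S).1 (mem_inter.1 (Finset.mem_coe.1 hf')).1).1 h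
  have h2 : (inN S v' ∩ Aex S v ω0).image (oth S v') ⊆
      ((inN S v).filter (fun e => kc ω0 e)).image (oth S v) := by
    intro x hx
    obtain ⟨f, hf, hfx⟩ := mem_image.1 hx
    obtain ⟨hf1, hf2⟩ := mem_inter.1 hf
    obtain ⟨e, he, hk, h3⟩ := (Sc_aiff S v ω0 hs hne hf1).1 hf2
    exact mem_image.2 ⟨e, mem_filter.2 ⟨he, hk⟩, by rw [← h3, hfx]⟩
  rw [h1]
  exact (Finset.card_le_card h2).trans Finset.card_image_le

theorem Sc_disj {v' v'' : X} (hs : S.side v' = S.side v) (hs' : S.side v'' = S.side v)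
    (hne : v' ≠ v'') : Disjoint (inN S v' \ Aex S v ω0) (inN S v'' \ Aex S v ω0) := by
  rw [Finset.disjoint_left]
  intro f h1 h2
  have g1 := ((Sc_inN S).1 (mem_sdiff.1 h1).1).1
  have g2 := ((Sc_inN S).1 (mem_sdiff.1 h2).1).1
  have h3 := Sc_eq S g1 g2 hne
  have h4 := Sc_side S g1
  rw [h3, hs, hs'] at h4
  cases h5 : S.side v <;> simp [h5] at h4

end expo

end Sc_geo

section Sc_prob
variable {X E : Type} [Fintype E] (S : Bip X E) {B : ℕ} [NeZero B]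

theorem Sc_sqrt {D lam : ℝ} (hlam : 0 < lam) (hD : 400 * lam ≤ D) :
    Real.sqrt (D * lam) ≤ D / 20 ∧ Real.sqrt (D * lam) = D * Real.sqrt (lam / D) := by
  have hD0 : 0 < D := by linarith
  constructor
  · refine Real.sqrt_le_iff.2 ⟨by positivity, ?_⟩
    nlinarith [mul_le_mul_of_nonneg_left hD hD0.le]
  · have h1 : D * lam = D ^ 2 * (lam / D) := by field_simp
    rw [h1, Real.sqrt_mul (by positivity), Real.sqrt_sq hD0.le]

theorem Sc_dev (J : Finset E) (a K : ℕ) (c m η' lam D : ℝ) (hDB : D = m / B) (hm : 0 < m)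
    (hη0 : 0 ≤ η') (hη : η' ≤ 1 / 2) (hlam : 1 ≤ lam) (hD : 400 * lam ≤ D)
    (hDη : D * η' ≤ Real.sqrt (D * lam)) (hKD : (K : ℝ) ^ 2 ≤ lam * D) (ha : a ≤ K) (hc0 : 0 ≤ c)
    (hc : c ≤ 2 * K / D) (h1 : m * (1 - η') ≤ J.card) (h2 : (J.card : ℝ) ≤ m * (1 + η')) :
    pr (fun ω : E → Fin B => 2 * K / D * (10 * Real.sqrt (lam / D)) <
      |c * (D / (a + ((J.filter (fun e => kc ω e)).card : ℝ)) - 1)|) ≤ 2 * Real.exp (-lam) := by
  have hD0 : 0 < D := by linarith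
  have hlam0 : 0 < lam := by linarith
  obtain ⟨s1, s2⟩ := Sc_sqrt hlam0 hD
  refine (pr_mono ?_).trans (cnt_dev (B := B) J m η' lam hm hη0 hη hlam0
    (by rw [← hDB]; linarith) (by rw [← hDB]; exact hDη) h1 h2)
  intro ω hω
  rw [← hDB]
  by_contra hcon
  push Not at hcon
  obtain ⟨b, hb⟩ : ∃ b : ℝ, b = ((J.filter (fun e => kc ω e)).card : ℝ) := ⟨_, rfl⟩
  rw [← hb] at hω hcon
  obtain ⟨s, hs⟩ : ∃ s, s = Real.sqrt (D * lam) := ⟨_, rfl⟩
  rw [← hs] at s1 s2 hcon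
  have hs0 : 0 ≤ s := by rw [hs]; exact Real.sqrt_nonneg _
  have hKs : (K : ℝ) ≤ s := by
    rw [hs]
    refine Real.le_sqrt_of_sq_le ?_
    rw [mul_comm]
    exact hKD
  have haK : (a : ℝ) ≤ K := by exact_mod_cast ha
  have ha0 : (0 : ℝ) ≤ a := Nat.cast_nonneg a
  obtain ⟨u1, u2⟩ := abs_le.1 hcon
  have hx : D / 2 ≤ a + b := by linarith
  have hx0 : 0 < a + b := by linarith
  have h3 : |D / (a + b) - 1| ≤ 10 * Real.sqrt (lam / D) := by
    have e1 : D / (a + b) - 1 = (D - (a + b)) / (a + b) := by field_simp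
    rw [e1, abs_div, abs_of_pos hx0, div_le_iff₀ hx0]
    have h4 : |D - (a + b)| ≤ 5 * s := by
      rw [abs_le]
      constructor <;> linarith
    refine h4.trans ?_
    have h5 : 0 ≤ Real.sqrt (lam / D) := Real.sqrt_nonneg _
    calc 5 * s = 10 * Real.sqrt (lam / D) * (D / 2) := by rw [s2]; ring
      _ ≤ 10 * Real.sqrt (lam / D) * (a + b) := mul_le_mul_of_nonneg_left hx (by positivity)
  have h6 : |c * (D / (a + b) - 1)| ≤ 2 * K / D * (10 * Real.sqrt (lam / D)) := by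
    rw [abs_mul, abs_of_nonneg hc0]
    exact mul_le_mul hc h3 (abs_nonneg _) (by positivity)
  linarith

theorem Sc_mean (J : Finset E) (a : ℕ) (c m η' D : ℝ) (ha : 1 ≤ a) (hDB : D = m / B) (hm : 0 < m)
    (hη0 : 0 ≤ η') (hη : η' ≤ 1 / 2) (hc0 : 0 ≤ c)
    (h1 : m * (1 - η') ≤ J.card + 1) (h2 : (J.card : ℝ) + 1 ≤ m * (1 + η')) :
    |ex (fun ω : E → Fin B => c * (D / (a + ((J.filter (fun e => kc ω e)).card : ℝ)) - 1))| ≤
      c * (2 * η' + 2 * Real.exp (-(D / 2)) + 4 * ((a : ℝ) - 1) / D) := by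
  have hB0 : (0 : ℝ) < B := by exact_mod_cast Nat.pos_of_ne_zero (NeZero.ne B)
  rw [ex_smul c (fun ω : E → Fin B => D / (a + ((J.filter (fun e => kc ω e)).card : ℝ)) - 1),
    abs_mul, abs_of_nonneg hc0]
  refine mul_le_mul_of_nonneg_left ?_ hc0
  have h3 := sid3 (B := B) J a ha m η' hη0 hη hm h1 h2
  have e1 : m / (2 * B) = D / 2 := by
    rw [hDB]
    field_simp
  have e2 : 4 * ((a : ℝ) - 1) * (B / m) = 4 * ((a : ℝ) - 1) / D := by
    rw [hDB]
    field_simp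
  rw [e1, e2, ← hDB] at h3
  exact h3

theorem Sc_num {n : ℕ} {D lam c0 : ℝ} {K : ℕ} (hlam : 1 ≤ lam) (hD : 400 * lam ≤ D)
    (hK1 : 1 ≤ K) (hn : (n : ℝ) ≤ 4 * D ^ 2 + 1) (hn1 : 1 ≤ n)
    (hc0 : c0 = 2 * K / D * (10 * Real.sqrt (lam / D))) :
    0 < c0 ∧ 0 < Real.sqrt (8 * n * lam) * c0 ∧
      (Real.sqrt (8 * n * lam) * c0) ^ 2 / (8 * n * c0 ^ 2) = lam ∧
      Real.sqrt (8 * n * lam) * c0 ≤ 130 * K * lam / Real.sqrt D := by
  have hD0 : 0 < D := by linarith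
  have hlam0 : 0 < lam := by linarith
  have hK0 : (0 : ℝ) < K := by exact_mod_cast hK1
  have hn0 : (0 : ℝ) < n := by exact_mod_cast hn1
  have hc : 0 < c0 := by
    rw [hc0]
    have h1 : 0 < Real.sqrt (lam / D) := Real.sqrt_pos.2 (by positivity)
    positivity
  have hs : 0 < Real.sqrt (8 * n * lam) := Real.sqrt_pos.2 (by positivity)
  refine ⟨hc, mul_pos hs hc, ?_, ?_⟩
  · rw [mul_pow, Real.sq_sqrt (by positivity)]
    field_simp
  · have h1 : Real.sqrt (8 * n * lam) ≤ 13 / 2 * D * Real.sqrt lam := by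
      have h2 : 8 * (n : ℝ) * lam ≤ (13 / 2 * D) ^ 2 * lam := by
        refine mul_le_mul_of_nonneg_right ?_ hlam0.le
        nlinarith
      calc Real.sqrt (8 * n * lam) ≤ Real.sqrt ((13 / 2 * D) ^ 2 * lam) := Real.sqrt_le_sqrt h2
        _ = 13 / 2 * D * Real.sqrt lam := by
          rw [Real.sqrt_mul (by positivity), Real.sqrt_sq (by positivity)]
    have h3 : Real.sqrt (lam / D) = Real.sqrt lam / Real.sqrt D := Real.sqrt_div hlam0.le D
    have hsD : 0 < Real.sqrt D := Real.sqrt_pos.2 hD0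
    calc Real.sqrt (8 * n * lam) * c0 ≤ 13 / 2 * D * Real.sqrt lam * c0 :=
          mul_le_mul_of_nonneg_right h1 hc.le
      _ = 130 * K * (Real.sqrt lam * Real.sqrt lam) / Real.sqrt D := by
          rw [hc0, h3]
          field_simp
          ring
      _ = 130 * K * lam / Real.sqrt D := by rw [Real.mul_self_sqrt hlam0.le]

end Sc_prob

section
variable {X E : Type} [Fintype E] (S : Bip X E) {B : ℕ} [NeZero B]

theorem sc1 (v : X) (hv : S.nr v) (m η lam D ρ : ℝ) (K : ℕ) (hK1 : 1 ≤ K) (hDB : D = m / B)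
    (hm : 0 < m) (hη0 : 0 ≤ η) (hlam : 1 ≤ lam) (hD : 400 * lam ≤ D)
    (hη : η + 3 * D / m ≤ 1 / 4) (hDη : D * (η + 3 * D / m) ≤ Real.sqrt (D * lam))
    (hKD : (K : ℝ) ^ 2 ≤ lam * D)
    (hdeg : ∀ w, S.nr w → m * (1 - η) ≤ ((inN S w).card : ℝ) ∧ ((inN S w).card : ℝ) ≤ m * (1 + η))
    (hρ : 130 * K * lam / Real.sqrt D + (4 * D ^ 2 + 1) * (2 * K * (3 * Real.exp (-lam))) +
      16 * D * (η + 3 * D / m) + 16 * D * Real.exp (-(D / 2)) +
      8 * (K : ℝ) ^ 2 * (24 * D ^ 4 / m + 2 * lam) / D ^ 2 ≤ ρ)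
    (ω0 : E → Fin B) (hg : GoodEx S (fun e => kc ω0 e) v D K (24 * D ^ 4 / m + 2 * lam)) :
    pr (fun ω : E → Fin B => ρ < |res S (fun e => kc (ov (Aex S v ω0) ω0 ω) e) D v|) ≤
      2 * Real.exp (-lam) + (4 * D ^ 2 + 1) * (3 * Real.exp (-lam)) := by
  have hD0 : 0 < D := by linarith
  have hlam0 : 0 < lam := by linarith
  have hK0 : (0 : ℝ) < K := by exact_mod_cast hK1
  obtain ⟨η', hη'⟩ : ∃ η' : ℝ, η' = η + 3 * D / m := ⟨_, rfl⟩
  rw [← hη'] at hη hDη hρ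
  have hη'0 : 0 ≤ η' := by
    rw [hη']
    positivity
  have hη2 : η' ≤ 1 / 2 := by linarith
  have hm3 : m * η' = m * η + 3 * D := by
    rw [hη']
    field_simp
  obtain ⟨N2, hN2⟩ : ∃ N2 : ℝ, N2 = 24 * D ^ 4 / m + 2 * lam := ⟨_, rfl⟩
  rw [← hN2] at hg hρ
  obtain ⟨V, hVd⟩ : ∃ V, V = Sc_V S (fun e => kc ω0 e) v := ⟨_, rfl⟩
  have hV : ∀ v' ∈ V, v' ≠ v ∧ S.side v' = S.side v ∧ S.nr v' ∧
      1 ≤ aa S (fun e => kc ω0 e) v v' ∧ aa S (fun e => kc ω0 e) v v' ≤ K := by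
    intro v' hv'
    rw [hVd] at hv'
    obtain ⟨p, hp, hgp⟩ := mem_image.1 hv'
    obtain ⟨g1, g2, g3, g4, -, -⟩ := Sc_prop S hp hgp
    refine ⟨g1, g2, g3, ?_, hg.2.2.1 v' g4 g1⟩
    refine le_trans ?_ (Sc_fib S _ v v')
    exact Finset.card_pos.2 ⟨p, mem_filter.2 ⟨hp, hgp⟩⟩
  have hJ : ∀ v' ∈ V, m * (1 - η') ≤ ((inN S v' \ Aex S v ω0).card : ℝ) ∧
      ((inN S v' \ Aex S v ω0).card : ℝ) + 1 ≤ m * (1 + η') := by
    intro v' hv'
    obtain ⟨g1, g2, g3, -, -⟩ := hV v' hv'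
    have h2 : ((inN S v').card : ℝ) ≤ ((inN S v' \ Aex S v ω0).card : ℝ) +
        dn S (fun e => kc ω0 e) v := by exact_mod_cast Sc_Jcard S v ω0 g2 g1
    have h3 := hdeg v' g3
    have h4 := hg.1
    have h5 : ((inN S v' \ Aex S v ω0).card : ℝ) ≤ ((inN S v').card : ℝ) := by
      exact_mod_cast Finset.card_le_card Finset.sdiff_subset
    constructor
    · nlinarith [h3.1]
    · nlinarith [h3.2]
  have hcb : ∀ v' ∈ V, 0 ≤ Sc_c S (fun e => kc ω0 e) v v' ∧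
      Sc_c S (fun e => kc ω0 e) v v' ≤ 2 * K / D := by
    intro v' hv'
    obtain ⟨c1, c2⟩ := Sc_cpos S (v' := v') hD0 hg
    refine ⟨c1, c2.trans ?_⟩
    have h1 : (aa S (fun e => kc ω0 e) v v' : ℝ) ≤ K := by exact_mod_cast (hV v' hv').2.2.2.2
    calc (aa S (fun e => kc ω0 e) v v' : ℝ) * (2 / D) ≤ K * (2 / D) :=
          mul_le_mul_of_nonneg_right h1 (by positivity)
      _ = 2 * K / D := by ring
  obtain ⟨f, hf⟩ : ∃ f : X → (E → Fin B) → ℝ, f = fun v' ω => Sc_c S (fun e => kc ω0 e) v v' *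
      (D / ((aa S (fun e => kc ω0 e) v v' : ℝ) +
        (((inN S v' \ Aex S v ω0).filter (fun e => kc ω e)).card : ℝ)) - 1) := ⟨_, rfl⟩
  have hres : ∀ ω : E → Fin B, res S (fun e => kc (ov (Aex S v ω0) ω0 ω) e) D v =
      ∑ v' ∈ V, f v' ω := by
    intro ω
    rw [Sc_res1, Sc_Vov, hf, hVd]
    refine Finset.sum_congr rfl fun v' hv' => ?_
    rw [← hVd] at hv'
    obtain ⟨g1, g2, -, -, -⟩ := hV v' hv'
    rw [Sc_cov]
    unfold qe
    rw [Sc_split S v ω0 ω g2 g1]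
    push_cast
    rfl
  have hloc : ∀ v' ∈ V, Loc (f v') (inN S v' \ Aex S v ω0) := by
    intro v' _ ω ω' h
    have h1 : (inN S v' \ Aex S v ω0).filter (fun e => kc ω e) =
        (inN S v' \ Aex S v ω0).filter (fun e => kc ω' e) :=
      Finset.filter_congr fun e he => by
        unfold kc
        rw [h e he]
    rw [hf]
    simp only [h1]
  have hdis : ∀ v' ∈ V, ∀ v'' ∈ V, v' ≠ v'' →
      Disjoint (inN S v' \ Aex S v ω0) (inN S v'' \ Aex S v ω0) := by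
    intro v' h' v'' h'' hne
    exact Sc_disj S v ω0 (hV v' h').2.1 (hV v'' h'').2.1 hne
  obtain ⟨n, hn⟩ : ∃ n : ℕ, n = ⌈4 * D ^ 2⌉₊ := ⟨_, rfl⟩
  have hn1 : 1 ≤ n := by
    rw [hn]
    exact Nat.ceil_pos.2 (by positivity)
  have hn2 : (n : ℝ) ≤ 4 * D ^ 2 + 1 := by
    rw [hn]
    exact (Nat.ceil_lt_add_one (by positivity)).le
  have hVn : V.card ≤ n := by
    have h1 : V.card ≤ (Sc_P S (fun e => kc ω0 e) v).card := by
      rw [hVd]
      exact Finset.card_image_le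
    have h2 := Sc_Pcard S hD0 hg
    have h3 : ((Sc_P S (fun e => kc ω0 e) v).card : ℝ) ≤ n := by
      rw [hn]
      exact h2.trans (Nat.le_ceil _)
    exact h1.trans (by exact_mod_cast h3)
  obtain ⟨c0, hc0⟩ : ∃ c0 : ℝ, c0 = 2 * K / D * (10 * Real.sqrt (lam / D)) := ⟨_, rfl⟩
  obtain ⟨q1, q2, q3, q4⟩ := Sc_num hlam hD hK1 hn2 hn1 hc0
  obtain ⟨t, ht⟩ : ∃ t : ℝ, t = Real.sqrt (8 * n * lam) * c0 := ⟨_, rfl⟩
  rw [← ht] at q2 q3 q4
  have hexp : 0 < Real.exp (-lam) := Real.exp_pos _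
  have hfM : ∀ v' ∈ V, ∀ ω, |f v' ω| ≤ 2 * (K : ℝ) := by
    intro v' hv' ω
    obtain ⟨c1, c2⟩ := hcb v' hv'
    have h1 : (1 : ℝ) ≤ aa S (fun e => kc ω0 e) v v' := by exact_mod_cast (hV v' hv').2.2.2.1
    rw [hf]
    simp only
    obtain ⟨b, hb⟩ : ∃ b : ℝ, b = (((inN S v' \ Aex S v ω0).filter (fun e => kc ω e)).card : ℝ) :=
      ⟨_, rfl⟩
    rw [← hb]
    have hb0 : 0 ≤ b := by
      rw [hb]
      exact Nat.cast_nonneg _
    obtain ⟨x, hx⟩ : ∃ x : ℝ, x = (aa S (fun e => kc ω0 e) v v' : ℝ) + b := ⟨_, rfl⟩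
    rw [← hx]
    have hx1 : 1 ≤ x := by
      rw [hx]
      linarith
    have h2 : |D / x - 1| ≤ D := by
      have h3 : 0 ≤ D / x := by positivity
      have h4 : D / x ≤ D := div_le_self hD0.le hx1
      rw [abs_le]
      constructor <;> linarith
    rw [abs_mul, abs_of_nonneg c1]
    calc Sc_c S (fun e => kc ω0 e) v v' * |D / x - 1| ≤ 2 * K / D * D :=
          mul_le_mul c2 h2 (abs_nonneg _) (by positivity)
      _ = 2 * K := by field_simp
  have hdev : ∀ v' ∈ V, pr (fun ω => c0 < |f v' ω|) ≤ 3 * Real.exp (-lam) := by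
    intro v' hv'
    obtain ⟨c1, c2⟩ := hcb v' hv'
    obtain ⟨j1, j2⟩ := hJ v' hv'
    have h1 := Sc_dev (B := B) (inN S v' \ Aex S v ω0) (aa S (fun e => kc ω0 e) v v') K
      (Sc_c S (fun e => kc ω0 e) v v') m η' lam D hDB hm hη'0 hη2 hlam hD hDη hKD
      (hV v' hv').2.2.2.2 c1 c2 j1 (by linarith)
    rw [← hc0] at h1
    rw [hf]
    refine h1.trans ?_
    linarith
  have hH := hoefT V f (fun v' => inN S v' \ Aex S v ω0) hloc hdis n hn1 hVn c0 (2 * K)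
    (3 * Real.exp (-lam)) q1.le (by positivity) hfM (by positivity) hdev t q2
  rw [q3] at hH
  have hmean : |∑ v' ∈ V, ex (f v')| ≤
      16 * D * η' + 16 * D * Real.exp (-(D / 2)) + 8 * (K : ℝ) ^ 2 * N2 / D ^ 2 := by
    have s1 := Sc_csum S hD0 hg
    have s2 := Sc_csum2 S hD0 hg
    rw [← hVd] at s1 s2
    have h1 : ∀ v' ∈ V, |ex (f v')| ≤ Sc_c S (fun e => kc ω0 e) v v' *
        (2 * η' + 2 * Real.exp (-(D / 2)) + 4 * ((aa S (fun e => kc ω0 e) v v' : ℝ) - 1) / D) := by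
      intro v' hv'
      obtain ⟨c1, c2⟩ := hcb v' hv'
      obtain ⟨j1, j2⟩ := hJ v' hv'
      rw [hf]
      exact Sc_mean (B := B) (inN S v' \ Aex S v ω0) (aa S (fun e => kc ω0 e) v v')
        (Sc_c S (fun e => kc ω0 e) v v') m η' D (hV v' hv').2.2.2.1 hDB hm hη'0 hη2 c1
        (by linarith) j2
    have hE : 0 < Real.exp (-(D / 2)) := Real.exp_pos _
    calc |∑ v' ∈ V, ex (f v')| ≤ ∑ v' ∈ V, |ex (f v')| := Finset.abs_sum_le_sum_abs _ _
      _ ≤ ∑ v' ∈ V, Sc_c S (fun e => kc ω0 e) v v' * (2 * η' + 2 * Real.exp (-(D / 2)) +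
          4 * ((aa S (fun e => kc ω0 e) v v' : ℝ) - 1) / D) := Finset.sum_le_sum h1
      _ = (2 * η' + 2 * Real.exp (-(D / 2))) * ∑ v' ∈ V, Sc_c S (fun e => kc ω0 e) v v' +
          4 / D * ∑ v' ∈ V, Sc_c S (fun e => kc ω0 e) v v' *
            ((aa S (fun e => kc ω0 e) v v' : ℝ) - 1) := by
          rw [Finset.mul_sum, Finset.mul_sum, ← Finset.sum_add_distrib]
          refine Finset.sum_congr rfl fun v' _ => ?_
          ring
      _ ≤ (2 * η' + 2 * Real.exp (-(D / 2))) * (8 * D) +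
          4 / D * (2 / D * ((K : ℝ) ^ 2 * N2)) := by
          refine add_le_add (mul_le_mul_of_nonneg_left s1 (by positivity))
            (mul_le_mul_of_nonneg_left s2 (by positivity))
      _ = 16 * D * η' + 16 * D * Real.exp (-(D / 2)) + 8 * (K : ℝ) ^ 2 * N2 / D ^ 2 := by
          field_simp
          ring
  refine (pr_mono ?_).trans (hH.trans ?_)
  · intro ω hω
    rw [hres] at hω
    have h1 : |∑ v' ∈ V, f v' ω| ≤ |∑ v' ∈ V, f v' ω - ∑ v' ∈ V, ex (f v')| +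
        |∑ v' ∈ V, ex (f v')| := by
      have h2 := abs_add_le (∑ v' ∈ V, f v' ω - ∑ v' ∈ V, ex (f v')) (∑ v' ∈ V, ex (f v'))
      rwa [sub_add_cancel] at h2
    have h3 : (n : ℝ) * (2 * K * (3 * Real.exp (-lam))) ≤
        (4 * D ^ 2 + 1) * (2 * K * (3 * Real.exp (-lam))) :=
      mul_le_mul_of_nonneg_right hn2 (by positivity)
    linarith
  · have h3 : (n : ℝ) * (3 * Real.exp (-lam)) ≤ (4 * D ^ 2 + 1) * (3 * Real.exp (-lam)) :=
      mul_le_mul_of_nonneg_right hn2 (by positivity)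
    linarith

theorem sc2 (v : X) (hv : S.nr v) (m η lam D ρ : ℝ) (K : ℕ) (hK1 : 1 ≤ K) (hDB : D = m / B)
    (hm : 0 < m) (hη0 : 0 ≤ η) (hlam : 1 ≤ lam) (hD : 400 * lam ≤ D)
    (hη : η + 3 * D / m ≤ 1 / 4) (hDη : D * (η + 3 * D / m) ≤ Real.sqrt (D * lam))
    (hKD : (K : ℝ) ^ 2 ≤ lam * D)
    (hdeg : ∀ w, S.nr w → m * (1 - η) ≤ ((inN S w).card : ℝ) ∧ ((inN S w).card : ℝ) ≤ m * (1 + η))
    (hK : 8 * D * m * (2 * D / B) ^ K ≤ Real.exp (-lam))
    (hρ : 130 * K * lam / Real.sqrt D + (4 * D ^ 2 + 1) * (2 * K * (3 * Real.exp (-lam))) +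
      16 * D * (η + 3 * D / m) + 16 * D * Real.exp (-(D / 2)) +
      8 * (K : ℝ) ^ 2 * (24 * D ^ 4 / m + 2 * lam) / D ^ 2 ≤ ρ) :
    pr (fun ω : E → Fin B => ρ < |res S (fun e => kc ω e) D v|) ≤
      (9 + 4 * m + 12 * D ^ 2) * Real.exp (-lam) := by
  have hD0 : 0 < D := by linarith
  have hexp : 0 < Real.exp (-lam) := Real.exp_pos _
  have h3D : 0 ≤ 3 * D / m := by positivity
  have h1 := aex_good (B := B) S v hv m η lam D K hDB hm hη0 (by linarith) hlam hD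
    ((mul_le_mul_of_nonneg_left (by linarith : η ≤ η + 3 * D / m) hD0.le).trans hDη) hdeg hK
  have h2 : pr (fun ω : E → Fin B =>
      GoodEx S (fun e => kc ω e) v D K (24 * D ^ 4 / m + 2 * lam) ∧
        ρ < |res S (fun e => kc ω e) D v|) ≤
      2 * Real.exp (-lam) + (4 * D ^ 2 + 1) * (3 * Real.exp (-lam)) := by
    refine cond_pr (Aex S v) (fun ω ω' h => aex_stop S v ω ω' h) _ _ ?_
    intro ω0
    by_cases hg : GoodEx S (fun e => kc ω0 e) v D K (24 * D ^ 4 / m + 2 * lam)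
    · refine (pr_mono ?_).trans (sc1 S v hv m η lam D ρ K hK1 hDB hm hη0 hlam hD hη hDη hKD hdeg
        hρ ω0 hg)
      intro ω hω
      exact hω.2
    · have h3 : pr (fun ω : E → Fin B =>
          GoodEx S (fun e => kc (ov (Aex S v ω0) ω0 ω) e) v D K (24 * D ^ 4 / m + 2 * lam) ∧
          ρ < |res S (fun e => kc (ov (Aex S v ω0) ω0 ω) e) D v|) ≤
          pr (fun _ : E → Fin B => False) := by
        refine pr_mono ?_
        intro ω hω
        exact hg (Sc_good S v ω0 ω _ _ _ hω.1)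
      refine h3.trans ?_
      have h4 : pr (fun _ : E → Fin B => False) = 0 := by simp [pr]
      rw [h4]
      positivity
  have h5 : pr (fun ω : E → Fin B => ρ < |res S (fun e => kc ω e) D v|) ≤
      pr (fun ω : E → Fin B =>
        ¬ GoodEx S (fun e => kc ω e) v D K (24 * D ^ 4 / m + 2 * lam) ∨
        (GoodEx S (fun e => kc ω e) v D K (24 * D ^ 4 / m + 2 * lam) ∧
          ρ < |res S (fun e => kc ω e) D v|)) := by
    refine pr_mono ?_
    intro ω hω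
    by_cases hg : GoodEx S (fun e => kc ω e) v D K (24 * D ^ 4 / m + 2 * lam)
    · exact Or.inr ⟨hg, hω⟩
    · exact Or.inl hg
  refine h5.trans ((pr_or _ _).trans ?_)
  refine (add_le_add h1 h2).trans (le_of_eq ?_)
  ring

end

end Pool.Agent.H65.GI
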