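/-
ROW Se. The probability of a local failure.
PROOF. `v` normal: (a) `4 sqrt (D lam) < |dn - D|`: `cnt_dev` with `J = inN S v` (`≤ 2 exp (-lam)`); (b) `ρ < |res|`: `sc2`; (c) `n2 < ν`: then `dn < D/2` (contained in (a): `4 sqrt (D lam) ≤ D/5 < D/2`) or the event of `n2_low` (`mR ≤ |inR (oth v e)|` holds as `oth v e` is normal for `e ∈ inN S v`), probability `≤ exp (-(D mR/(32 B))) ≤ exp (-lam)` by `hmR2`;
(d) `rd_nor`. Sum: `2 + (9 + 4m + 12 D^2) + 1 + 1`. `v` not normal: `rd_res`. Union bound `pr_or`.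
-/
import Pool.Agent.H65.GI.Sc

set_option autoImplicit false

namespace Pool.Agent.H65.GI

open Finset Classical

theorem se {X E : Type} [Fintype E] (S : Bip X E) {B : ℕ} [NeZero B]
    (v : X) (m η lam D ρ mR : ℝ) (K : ℕ) (hK1 : 1 ≤ K) (hDB : D = m / B)
    (hm : 0 < m) (hη0 : 0 ≤ η) (hlam : 1 ≤ lam) (hD : 400 * lam ≤ D)
    (hη : η + 3 * D / m ≤ 1 / 4) (hDη : D * (η + 3 * D / m) ≤ Real.sqrt (D * lam))
    (hKD : (K : ℝ) ^ 2 ≤ lam * D)
    (hdeg : ∀ w, S.nr w → m * (1 - η) ≤ ((inN S w).card : ℝ) ∧ ((inN S w).card : ℝ) ≤ m * (1 + η))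
    (hmR0 : 0 ≤ mR) (hmR : ∀ w, S.nr w → mR ≤ ((inR S w).card : ℝ) ∧ (inR S w).card ≤ B)
    (hmR2 : 32 * lam ≤ D * mR / B)
    (hres : ∀ w, ¬ S.nr w → ((inR S w).card : ℝ) ≤ 2 * m)
    (hK : 8 * D * m * (2 * D / B) ^ K ≤ Real.exp (-lam))
    (hρ : 130 * K * lam / Real.sqrt D + (4 * D ^ 2 + 1) * (2 * K * (3 * Real.exp (-lam))) +
      16 * D * (η + 3 * D / m) + 16 * D * Real.exp (-(D / 2)) +
      8 * (K : ℝ) ^ 2 * (24 * D ^ 4 / m + 2 * lam) / D ^ 2 ≤ ρ) :
    pr (fun ω : E → Fin B => Bad S (fun e => kc ω e) D lam ρ (D * mR / (4 * B)) v) ≤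
      (14 + 4 * m + 12 * D ^ 2) * Real.exp (-lam) := by
  have hE : (0 : ℝ) < Real.exp (-lam) := Real.exp_pos _
  have hD0 : 0 < D := by linarith
  have h3 : 0 ≤ 3 * D / m := by positivity
  have hη1 : η ≤ 1 / 4 := by linarith
  by_cases hv : S.nr v
  · have hsq : 4 * Real.sqrt (D * lam) < D / 2 := by
      have h4 : D * lam ≤ (D / 20) ^ 2 := by nlinarith
      have h5 : Real.sqrt (D * lam) ≤ D / 20 := Real.sqrt_le_iff.2 ⟨by linarith, h4⟩
      linarith
    have ha : pr (fun ω : E → Fin B => 4 * Real.sqrt (D * lam) <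
        |(dn S (fun e => kc ω e) v : ℝ) - D|) ≤ 2 * Real.exp (-lam) := by
      have h6 := cnt_dev (B := B) (inN S v) m η lam hm hη0 (by linarith) (by linarith)
        (by rw [← hDB]; linarith) (by
          rw [← hDB]
          refine le_trans ?_ hDη
          exact mul_le_mul_of_nonneg_left (by linarith) hD0.le) (hdeg v hv).1 (hdeg v hv).2
      rw [← hDB] at h6
      exact h6
    have hb := sc2 S (B := B) v hv m η lam D ρ K hK1 hDB hm hη0 hlam hD hη hDη hKD hdeg hK hρ
    have hc : pr (fun ω : E → Fin B => D / 2 ≤ (dn S (fun e => kc ω e) v : ℝ) ∧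
        (n2 S (fun e => kc ω e) v : ℝ) < D * mR / (4 * B)) ≤ Real.exp (-lam) := by
      refine (n2_low S v D mR hD0 hmR0 ?_).trans ?_
      · intro e he
        have h7 : nE S e := (Finset.mem_filter.1 he).2
        refine (hmR _ ?_).1
        unfold oth
        split_ifs
        · exact h7.2
        · exact h7.1
      · refine Real.exp_le_exp.2 (neg_le_neg ?_)
        have h8 : D * mR / (32 * B) = D * mR / B / 32 := by
          rw [div_div, mul_comm (32 : ℝ) (B : ℝ)]
        rw [h8]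
        linarith
    have hd := rd_nor S (B := B) v lam (by linarith) (hmR v hv).2
    have hall : pr (fun ω : E → Fin B => Bad S (fun e => kc ω e) D lam ρ (D * mR / (4 * B)) v) ≤
        pr (fun ω : E → Fin B => (4 * Real.sqrt (D * lam) < |(dn S (fun e => kc ω e) v : ℝ) - D|) ∨
          (ρ < |res S (fun e => kc ω e) D v| ∨
            ((D / 2 ≤ (dn S (fun e => kc ω e) v : ℝ) ∧
              (n2 S (fun e => kc ω e) v : ℝ) < D * mR / (4 * B)) ∨
              3 + 2 * lam < (rd S (fun e => kc ω e) v : ℝ)))) := by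
      refine pr_mono fun ω h => ?_
      rcases h with ⟨_, h⟩ | ⟨h, _⟩
      · rcases h with h | h | h | h
        · exact Or.inl h
        · exact Or.inr (Or.inl h)
        · rcases le_or_gt (D / 2) (dn S (fun e => kc ω e) v : ℝ) with h9 | h9
          · exact Or.inr (Or.inr (Or.inl ⟨h9, h⟩))
          · refine Or.inl (hsq.trans ?_)
            rw [abs_sub_comm]
            refine lt_of_lt_of_le ?_ (le_abs_self _)
            linarith
        · exact Or.inr (Or.inr (Or.inr h))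
      · exact absurd hv h
    have o1 := pr_or (fun ω : E → Fin B => 4 * Real.sqrt (D * lam) <
        |(dn S (fun e => kc ω e) v : ℝ) - D|)
      (fun ω : E → Fin B => ρ < |res S (fun e => kc ω e) D v| ∨
            ((D / 2 ≤ (dn S (fun e => kc ω e) v : ℝ) ∧
              (n2 S (fun e => kc ω e) v : ℝ) < D * mR / (4 * B)) ∨
              3 + 2 * lam < (rd S (fun e => kc ω e) v : ℝ)))
    have o2 := pr_or (fun ω : E → Fin B => ρ < |res S (fun e => kc ω e) D v|)
      (fun ω : E → Fin B => (D / 2 ≤ (dn S (fun e => kc ω e) v : ℝ) ∧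
              (n2 S (fun e => kc ω e) v : ℝ) < D * mR / (4 * B)) ∨
              3 + 2 * lam < (rd S (fun e => kc ω e) v : ℝ))
    have o3 := pr_or (fun ω : E → Fin B => D / 2 ≤ (dn S (fun e => kc ω e) v : ℝ) ∧
              (n2 S (fun e => kc ω e) v : ℝ) < D * mR / (4 * B))
      (fun ω : E → Fin B => 3 + 2 * lam < (rd S (fun e => kc ω e) v : ℝ))
    have h10 : (14 + 4 * m + 12 * D ^ 2) * Real.exp (-lam) = 2 * Real.exp (-lam) +
        ((9 + 4 * m + 12 * D ^ 2) * Real.exp (-lam) + (Real.exp (-lam) + Real.exp (-lam))) +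
        Real.exp (-lam) := by ring
    linarith
  · have h11 : pr (fun ω : E → Fin B => Bad S (fun e => kc ω e) D lam ρ (D * mR / (4 * B)) v) ≤
        pr (fun ω : E → Fin B => 7 * (m / B) < (rd S (fun e => kc ω e) v : ℝ)) := by
      refine pr_mono fun ω h => ?_
      rw [← hDB]
      rcases h with ⟨h, _⟩ | ⟨_, h⟩
      · exact absurd h hv
      · exact h
    have h12 := rd_res S (B := B) v m lam (by linarith) (by rw [← hDB]; linarith) (hres v hv)
    refine h11.trans (h12.trans ?_)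
    have h13 : (1 : ℝ) ≤ 14 + 4 * m + 12 * D ^ 2 := by nlinarith [sq_nonneg D]
    nlinarith

end Pool.Agent.H65.GI
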