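/-
ROW Sy. The weights before routing: sums and size (deterministic).
`xe S k D e = qe (lf e) + qe (rt e) - av (lf e) e - av (rt e) e`.
PROOF. For `e ∈ inN S v` the two ends are `v` and `oth S v e`, so `xe e = qe v + qe (oth v e) - av v e - av (oth v e) e`. Sum over the `d = dn v ≥ 2` kept `e ∈ inN S v`: `∑ qe v = d (D/d - 1) = D - d`; `∑_e av v e = (1/(d-1)) ∑_e ∑_{f ≠ e} qe (oth v f) = ∑_f qe (oth v f)` (each `f` occurs for `d-1` values of `e`), which cancels with
`∑_e qe (oth v e)`; `∑_e av (oth v e) e = res v`. (`sum_xe`.)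
`xe_le`: for kept normal `e` both ends `a` are normal with `|dn a - D| ≤ 4 sqrt (D lam) ≤ D/11` (`2000 lam ≤ D`), so `|qe a| = |D - dn a|/dn a ≤ (4 sqrt (D lam))/(10 D/11) = 4.4 sqrt (lam/D) ≤ 4.4/44 = 1/10`; the same for all far ends of kept normal edges (they are normal), an average of numbers of absolute value `≤ 1/10` is `≤ 1/10`
(`(dn - 1)` terms over `dn - 1`). So `|xe| ≤ 4/10 ≤ 1/2`.
-/
import Pool.Agent.H65.GI.SDefs

set_option autoImplicit false

namespace Pool.Agent.H65.GI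

open Finset Classical

section
variable {X E : Type} [Fintype E] (S : Bip X E)

noncomputable def xe (k : E → Prop) (D : ℝ) (e : E) : ℝ :=
  qe S k D (S.lf e) + qe S k D (S.rt e) - av S k D (S.lf e) e - av S k D (S.rt e) e

theorem Sy_xe (k : E → Prop) (D : ℝ) (v : X) (e : E) (he : e ∈ inc S v) :
    xe S k D e = qe S k D v + qe S k D (oth S v e) - av S k D v e - av S k D (oth S v e) e := by
  unfold inc at he
  rw [Finset.mem_filter] at he
  unfold xe oth
  by_cases h : S.lf e = v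
  · rw [if_pos h, h]
  · have h2 : S.rt e = v := he.2.resolve_left h
    rw [if_neg h, h2]
    ring

theorem sum_xe (k : E → Prop) (D : ℝ) (v : X) (h : 2 ≤ dn S k v) :
    ∑ e ∈ (inN S v).filter (fun e => k e), xe S k D e = D - dn S k v - res S k D v := by
  have h1 : ∀ e ∈ (inN S v).filter (fun e => k e), xe S k D e =
      qe S k D v + qe S k D (oth S v e) - av S k D v e - av S k D (oth S v e) e := by
    intro e he
    apply Sy_xe
    rw [Finset.mem_filter] at he
    unfold inN at he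
    exact (Finset.mem_filter.1 he.1).1
  have hd : (2 : ℝ) ≤ dn S k v := by exact_mod_cast h
  have h2 : ∑ e ∈ (inN S v).filter (fun e => k e), av S k D v e =
      ∑ f ∈ (inN S v).filter (fun e => k e), qe S k D (oth S v f) := by
    have h3 : ∀ e ∈ (inN S v).filter (fun e => k e), av S k D v e =
        (∑ f ∈ (inN S v).filter (fun f => k f), qe S k D (oth S v f) - qe S k D (oth S v e)) /
          ((dn S k v : ℝ) - 1) := by
      intro e he
      unfold av
      rw [Finset.sum_erase_eq_sub he]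
    rw [Finset.sum_congr rfl h3, ← Finset.sum_div, Finset.sum_sub_distrib, Finset.sum_const,
      nsmul_eq_mul]
    have h4 : ((#((inN S v).filter (fun e => k e)) : ℕ) : ℝ) = dn S k v := rfl
    rw [h4, div_eq_iff (by linarith)]
    ring
  rw [Finset.sum_congr rfl h1, Finset.sum_sub_distrib, Finset.sum_sub_distrib,
    Finset.sum_add_distrib, h2, Finset.sum_const, nsmul_eq_mul]
  have h4 : ((#((inN S v).filter (fun e => k e)) : ℕ) : ℝ) = dn S k v := rfl
  have h5 : ∑ e ∈ (inN S v).filter (fun e => k e), av S k D (oth S v e) e = res S k D v := rfl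
  rw [h4, h5]
  unfold qe
  have h6 : (dn S k v : ℝ) * (D / dn S k v - 1) = D - dn S k v := by
    rw [mul_sub, mul_div_cancel₀ _ (by linarith : (dn S k v : ℝ) ≠ 0), mul_one]
  rw [h6]
  ring

theorem Sy_dn (D lam d : ℝ) (hlam : 1 ≤ lam) (hD : 2000 * lam ≤ D)
    (h : |d - D| ≤ 4 * Real.sqrt (D * lam)) : 10 * D / 11 ≤ d ∧ |D / d - 1| ≤ 1 / 10 := by
  have hD0 : 0 < D := by linarith
  have h1 : 4 * Real.sqrt (D * lam) ≤ D / 11 := by
    have h2 : Real.sqrt (D * lam) ≤ D / 44 := by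
      apply Real.sqrt_le_iff.2
      refine ⟨by positivity, ?_⟩
      nlinarith
    linarith
  have h2 := abs_le.1 (h.trans h1)
  have h3 : 10 * D / 11 ≤ d := by linarith [h2.1]
  refine ⟨h3, ?_⟩
  have hd : 0 < d := by linarith
  have h4 : D / d - 1 = (D - d) / d := by rw [sub_div, div_self hd.ne']
  rw [h4, abs_div, abs_of_pos hd, div_le_iff₀ hd, abs_sub_comm]
  have h5 : |d - D| ≤ D / 11 := h.trans h1
  linarith

theorem Sy_qe (k : E → Prop) (D lam : ℝ) (hlam : 1 ≤ lam) (hD : 2000 * lam ≤ D)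
    (h : ∀ v, S.nr v → |(dn S k v : ℝ) - D| ≤ 4 * Real.sqrt (D * lam)) (w : X) (hw : S.nr w) :
    |qe S k D w| ≤ 1 / 10 := (Sy_dn D lam _ hlam hD (h w hw)).2

theorem Sy_av (k : E → Prop) (D lam : ℝ) (hlam : 1 ≤ lam) (hD : 2000 * lam ≤ D)
    (h : ∀ v, S.nr v → |(dn S k v : ℝ) - D| ≤ 4 * Real.sqrt (D * lam)) (w : X) (hw : S.nr w)
    (e : E) (he : e ∈ inN S w) (hk : k e) : |av S k D w e| ≤ 1 / 10 := by
  have hdn := (Sy_dn D lam _ hlam hD (h w hw)).1
  have h1 : (1 : ℝ) < dn S k w := by linarith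
  have hm : e ∈ (inN S w).filter (fun f => k f) := Finset.mem_filter.2 ⟨he, hk⟩
  have hc : ((#(((inN S w).filter (fun f => k f)).erase e) : ℕ) : ℝ) = (dn S k w : ℝ) - 1 := by
    rw [Finset.card_erase_of_mem hm, Nat.cast_sub (Finset.card_pos.2 ⟨e, hm⟩), Nat.cast_one]
    rfl
  unfold av
  rw [abs_div, abs_of_pos (by linarith : (0 : ℝ) < (dn S k w : ℝ) - 1),
    div_le_iff₀ (by linarith)]
  refine (Finset.abs_sum_le_sum_abs _ _).trans ?_
  refine (Finset.sum_le_sum (g := fun _ => (1 : ℝ) / 10) fun f hf => ?_).trans ?_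
  · apply Sy_qe S k D lam hlam hD h
    have hf1 := (Finset.mem_filter.1 (Finset.mem_of_mem_erase hf)).1
    unfold inN at hf1
    have hf2 := (Finset.mem_filter.1 hf1).2
    unfold oth
    split_ifs
    · exact hf2.2
    · exact hf2.1
  · rw [Finset.sum_const, nsmul_eq_mul, hc]
    linarith

theorem xe_le (k : E → Prop) (D lam : ℝ) (hlam : 1 ≤ lam) (hD : 2000 * lam ≤ D)
    (h : ∀ v, S.nr v → |(dn S k v : ℝ) - D| ≤ 4 * Real.sqrt (D * lam)) (e : E) (he : nE S e)
    (hk : k e) : |xe S k D e| ≤ 1 / 2 := by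
  have hl : e ∈ inN S (S.lf e) := by
    unfold inN inc
    rw [Finset.mem_filter, Finset.mem_filter]
    exact ⟨⟨Finset.mem_univ _, Or.inl rfl⟩, he⟩
  have hr : e ∈ inN S (S.rt e) := by
    unfold inN inc
    rw [Finset.mem_filter, Finset.mem_filter]
    exact ⟨⟨Finset.mem_univ _, Or.inr rfl⟩, he⟩
  have h1 := abs_le.1 (Sy_qe S k D lam hlam hD h _ he.1)
  have h2 := abs_le.1 (Sy_qe S k D lam hlam hD h _ he.2)
  have h3 := abs_le.1 (Sy_av S k D lam hlam hD h _ he.1 e hl hk)
  have h4 := abs_le.1 (Sy_av S k D lam hlam hD h _ he.2 e hr hk)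
  unfold xe
  rw [abs_le]
  constructor
  · linarith [h1.1, h2.1, h3.2, h4.2]
  · linarith [h1.2, h2.2, h3.1, h4.1]

end

end Pool.Agent.H65.GI
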