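/-
ROW Sr. Routing of the residuals to the reserve nodes; the fractional matching (deterministic).
Write `N v` = kept normal edges at `v`, `rd v`, `n2 v = ∑_{e ∈ N v} rd (oth v e)`, `KR = 3 + 2 lam`, `n3 v = ∑_{e ∈ N v} (n2 (oth v e) - rd v)` (number of kept 3-paths `v - w - u - x`, `u ≠ v`, `x` a reserve node, `w, u` normal).
PROOF. For every normal `v` (all others: 0) `R v = res v / D`, `|R v| ≤ ρ/D`; `α v = R v / n2 v` if `R v < 0`, else `0`; `β v = R v / n3 v` if `R v > 0`, else `0`. By the hypotheses: `n2 v ≥ ν > 0`, `n3 v ≥ (D/2)(ν - KR) ≥ D ν/4`, `n2 v ≤ 2D KR`, `dn v ≤ 2D`. So `-(ρ/D)/ν ≤ α ≤ 0`, `0 ≤ β ≤ (ρ/D)/(D ν/4) = 4ρ/(D^2 ν)`.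
Define `y e = 0` if `¬ k e`; for a kept normal edge `e` with ends `a = lf e`, `b = rt e`:
`y e = (1 + xe e)/D + α a * rd b + α b * rd a + β a (n2 b - rd a) + β b (n2 a - rd b) - (∑_{f ∈ (N a).erase e} β (oth a f)) rd b - (∑_{f ∈ (N b).erase e} β (oth b f)) rd a`;
for a kept edge `e` with a reserve end and normal end `w`: `y e = - ∑_{f ∈ N w} α (oth w f) + ∑_{f ∈ N w} ∑_{g ∈ (N (oth w f)).erase f} β (oth (oth w f) g)`.
Sum at a normal `v`: `∑_{e ∈ N v} (1 + xe e)/D = (D - res v)/D = 1 - R v` (`sum_xe`). Terms with `v` as first vertex: `α v n2 v + β v n3 v = R v`. `v` as second vertex of 2-paths: `∑_{e ∈ N v} α (oth v e) rd v - rd v ∑_{e ∈ N v} α (oth v e) = 0`. `v` as second vertex of 3-paths: `∑_{e ∈ N v} β (oth v e)(n2 v - rd (oth v e)) - ∑_{e ∈ N v} (∑_{f ∈ (N v).erase e} β (oth v f)) rd (oth v e) = 0`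
(`n2 v - rd (oth v e) = ∑_{f ∈ (N v).erase e} rd (oth v f)`; exchange the order of summation). `v` as third vertex: `- ∑_{e ∈ N v} (∑_{g ∈ (N (oth v e)).erase e} β (oth (oth v e) g)) rd v + rd v * (the same double sum) = 0`. Total `1`.
Size: kept normal `e`: `(1 + xe)/D ∈ [1/(2D), 3/(2D)]` (`xe_le`); the other terms in absolute value `≤ 2 (ρ/(Dν)) KR + 2 (4ρ/(D^2ν)) 2D KR + 2 (2D)(4ρ/(D^2 ν)) KR = 34 KR ρ/(D ν) ≤ 1/(4D)` by `hν2`. So `1/(4D) ≤ y e ≤ 2/D`. Reserve edge: `0 ≤ y e ≤ 2D ρ/(Dν) + (2D)^2 4ρ/(D^2ν) = 18 ρ/ν ≤ 1/(14 D)` by `hν3`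
(`252 D ρ ≤ ν`). Sum at a reserve node `x`: all edges at `x` have a reserve end; `≤ rd x * 18ρ/ν ≤ 7D * 18 ρ/ν = 126 D ρ/ν ≤ 1/2`. (Every edge has a normal end, so at a reserve node the other end is normal.) `inc S v` = `inN S v` plus `inR S v`.
-/
import Pool.Agent.H65.GI.Sy

set_option autoImplicit false

namespace Pool.Agent.H65.GI

open Finset Classical

section
variable {X E : Type} [Fintype E] (S : Bip X E)

/-- the kept normal edges at `v` -/
private noncomputable def Sr_N (k : E → Prop) (v : X) : Finset E :=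
  (inN S v).filter (fun e => k e)

private theorem Sr_ne (e : E) : S.lf e ≠ S.rt e := by
  intro h
  have h1 := S.hl e
  rw [h, S.hr e] at h1
  exact absurd h1 (by simp)

private theorem Sr_oth {v : X} {e : E} (he : e ∈ inN S v) :
    e ∈ inN S (oth S v e) ∧ oth S (oth S v e) e = v ∧ S.nr v ∧ S.nr (oth S v e) := by
  unfold inN at he
  rw [Finset.mem_filter] at he
  obtain ⟨he1, he2⟩ := he
  unfold inc at he1
  rw [Finset.mem_filter] at he1
  have hne := Sr_ne S e
  by_cases h : S.lf e = v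
  · have h1 : oth S v e = S.rt e := by
      unfold oth
      rw [if_pos h]
    have h2 : oth S (S.rt e) e = S.lf e := by
      unfold oth
      rw [if_neg hne]
    rw [h1, h2]
    refine ⟨?_, h, h ▸ he2.1, he2.2⟩
    unfold inN inc
    rw [Finset.mem_filter, Finset.mem_filter]
    exact ⟨⟨Finset.mem_univ _, Or.inr rfl⟩, he2⟩
  · have h0 : S.rt e = v := he1.2.resolve_left h
    have h1 : oth S v e = S.lf e := by
      unfold oth
      rw [if_neg h]
    have h2 : oth S (S.lf e) e = S.rt e := by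
      unfold oth
      rw [if_pos rfl]
    rw [h1, h2]
    refine ⟨?_, h0, h0 ▸ he2.2, he2.1⟩
    unfold inN inc
    rw [Finset.mem_filter, Finset.mem_filter]
    exact ⟨⟨Finset.mem_univ _, Or.inl rfl⟩, he2⟩

private theorem Sr_mem (k : E → Prop) {v : X} {e : E} (he : e ∈ Sr_N S k v) :
    e ∈ Sr_N S k (oth S v e) ∧ oth S (oth S v e) e = v ∧ S.nr v ∧ S.nr (oth S v e) := by
  unfold Sr_N at he ⊢
  rw [Finset.mem_filter] at he
  obtain ⟨h1, h2, h3, h4⟩ := Sr_oth S he.1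
  exact ⟨Finset.mem_filter.2 ⟨h1, he.2⟩, h2, h3, h4⟩

private theorem Sr_sym {v : X} {e : E} (he : e ∈ inc S v) (F : X → E → ℝ) :
    F (S.lf e) e + F (S.rt e) e = F v e + F (oth S v e) e := by
  unfold inc at he
  rw [Finset.mem_filter] at he
  unfold oth
  by_cases h : S.lf e = v
  · rw [if_pos h, h]
  · have h2 : S.rt e = v := he.2.resolve_left h
    rw [if_neg h, h2]
    ring

private theorem Sr_swap (N : Finset E) (b r : E → ℝ) :
    ∑ e ∈ N, (∑ f ∈ N.erase e, b f) * r e = ∑ e ∈ N, b e * (∑ f ∈ N, r f - r e) := by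
  have h1 : ∑ e ∈ N, (∑ f ∈ N.erase e, b f) * r e = ∑ e ∈ N, (∑ f ∈ N, b f - b e) * r e :=
    Finset.sum_congr rfl fun e he => by rw [Finset.sum_erase_eq_sub he]
  rw [h1]
  simp only [sub_mul, mul_sub, Finset.sum_sub_distrib, ← Finset.mul_sum, ← Finset.sum_mul]

/-- the contribution of `v` to the weight of `e` -/
private noncomputable def Sr_T (k : E → Prop) (α β : X → ℝ) (v : X) (e : E) : ℝ :=
  α v * rd S k (oth S v e) + β v * ((n2 S k (oth S v e) : ℝ) - rd S k v) -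
    (∑ f ∈ (Sr_N S k v).erase e, β (oth S v f)) * rd S k (oth S v e)

/-- the weight of a reserve edge at the normal vertex `w` -/
private noncomputable def Sr_Z (k : E → Prop) (α β : X → ℝ) (w : X) : ℝ :=
  -(∑ f ∈ Sr_N S k w, α (oth S w f)) +
    ∑ f ∈ Sr_N S k w, ∑ g ∈ (Sr_N S k (oth S w f)).erase f, β (oth S (oth S w f) g)

private theorem Sr_sum (k : E → Prop) (D : ℝ) (hD : 0 < D) (α β : X → ℝ) (v : X)
    (hd : 2 ≤ dn S k v)
    (hab : α v * n2 S k v + β v * ∑ e ∈ Sr_N S k v, ((n2 S k (oth S v e) : ℝ) - rd S k v) =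
      res S k D v / D) :
    ∑ e ∈ Sr_N S k v, ((1 + xe S k D e) / D + (Sr_T S k α β v e + Sr_T S k α β (oth S v e) e)) +
      rd S k v * Sr_Z S k α β v = 1 := by
  have h1 : ∑ e ∈ Sr_N S k v, (1 + xe S k D e) / D = 1 - res S k D v / D := by
    rw [← Finset.sum_div, Finset.sum_add_distrib]
    have h2 : ∑ e ∈ Sr_N S k v, xe S k D e = D - dn S k v - res S k D v := sum_xe S k D v hd
    have h3 : ∑ _e ∈ Sr_N S k v, (1 : ℝ) = dn S k v := by
      rw [Finset.sum_const, nsmul_eq_mul, mul_one]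
      rfl
    rw [h2, h3]
    field_simp
    ring
  have hn2 : (n2 S k v : ℝ) = ∑ e ∈ Sr_N S k v, (rd S k (oth S v e) : ℝ) := by
    unfold n2
    push_cast
    rfl
  have h4 : ∑ e ∈ Sr_N S k v, Sr_T S k α β v e = res S k D v / D -
      ∑ e ∈ Sr_N S k v, (∑ f ∈ (Sr_N S k v).erase e, β (oth S v f)) * rd S k (oth S v e) := by
    rw [← hab]
    unfold Sr_T
    rw [Finset.sum_sub_distrib, Finset.sum_add_distrib, ← Finset.mul_sum, ← Finset.mul_sum, hn2]
  have h5 : ∑ e ∈ Sr_N S k v, Sr_T S k α β (oth S v e) e =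
      (∑ e ∈ Sr_N S k v, α (oth S v e)) * rd S k v +
      ∑ e ∈ Sr_N S k v, β (oth S v e) * (∑ f ∈ Sr_N S k v, (rd S k (oth S v f) : ℝ) -
        rd S k (oth S v e)) -
      (∑ e ∈ Sr_N S k v, ∑ g ∈ (Sr_N S k (oth S v e)).erase e, β (oth S (oth S v e) g)) *
        rd S k v := by
    have h6 : ∀ e ∈ Sr_N S k v, Sr_T S k α β (oth S v e) e = α (oth S v e) * rd S k v +
        β (oth S v e) * (∑ f ∈ Sr_N S k v, (rd S k (oth S v f) : ℝ) - rd S k (oth S v e)) -
        (∑ g ∈ (Sr_N S k (oth S v e)).erase e, β (oth S (oth S v e) g)) * rd S k v := by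
      intro e he
      obtain ⟨-, h7, -, -⟩ := Sr_mem S k he
      unfold Sr_T
      rw [h7, hn2]
    rw [Finset.sum_congr rfl h6, Finset.sum_sub_distrib, Finset.sum_add_distrib,
      ← Finset.sum_mul, ← Finset.sum_mul]
  rw [Finset.sum_add_distrib, Finset.sum_add_distrib, h1, h4, h5, Sr_swap]
  unfold Sr_Z
  ring

end

theorem sr {X E : Type} [Fintype E] (S : Bip X E) (k : E → Prop) (D lam ρ ν : ℝ)
    (hlam : 1 ≤ lam) (hD : 2000 * lam ≤ D) (hρ : 0 ≤ ρ) (hν1 : 2 * (3 + 2 * lam) ≤ ν)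
    (hν2 : 136 * (3 + 2 * lam) * ρ ≤ ν) (hν3 : 252 * D * ρ ≤ ν)
    (h : ∀ v, ¬ Bad S k D lam ρ ν v) :
    ∃ y : E → ℝ, (∀ e, 0 ≤ y e) ∧ (∀ e, ¬ k e → y e = 0) ∧ (∀ e, y e ≤ 2 / D) ∧
      (∀ v, S.nr v → ∑ e ∈ inc S v, y e = 1) ∧
      (∀ v, ¬ S.nr v → ∑ e ∈ inc S v, y e ≤ 1 / 2) := by
  have hD0 : 0 < D := by linarith
  have hν0 : 0 < ν := by linarith
  obtain ⟨KR, hKR⟩ : ∃ KR : ℝ, KR = 3 + 2 * lam := ⟨_, rfl⟩
  rw [← hKR] at hν1 hν2
  have hKR0 : 0 < KR := by linarith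
  -- the hypotheses
  have hdn : ∀ v, S.nr v → |(dn S k v : ℝ) - D| ≤ 4 * Real.sqrt (D * lam) := by
    intro v hv
    by_contra hc
    exact h v (Or.inl ⟨hv, Or.inl (not_le.1 hc)⟩)
  have hres : ∀ v, S.nr v → |res S k D v| ≤ ρ := by
    intro v hv
    by_contra hc
    exact h v (Or.inl ⟨hv, Or.inr (Or.inl (not_le.1 hc))⟩)
  have hn2 : ∀ v, S.nr v → ν ≤ (n2 S k v : ℝ) := by
    intro v hv
    by_contra hc
    exact h v (Or.inl ⟨hv, Or.inr (Or.inr (Or.inl (not_le.1 hc)))⟩)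
  have hrd : ∀ v, S.nr v → (rd S k v : ℝ) ≤ KR := by
    intro v hv
    by_contra hc
    rw [hKR] at hc
    exact h v (Or.inl ⟨hv, Or.inr (Or.inr (Or.inr (not_le.1 hc)))⟩)
  have hrd7 : ∀ v, ¬ S.nr v → (rd S k v : ℝ) ≤ 7 * D := by
    intro v hv
    by_contra hc
    exact h v (Or.inr ⟨hv, not_le.1 hc⟩)
  have hd1 : ∀ v, S.nr v → D / 2 ≤ (dn S k v : ℝ) ∧ (dn S k v : ℝ) ≤ 2 * D := by
    intro v hv
    have h1 := (Sy_dn D lam _ hlam hD (hdn v hv)).1
    refine ⟨by linarith, ?_⟩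
    have h2 := (abs_le.1 (hdn v hv)).2
    have h3 : 4 * Real.sqrt (D * lam) ≤ D := by
      have h4 : Real.sqrt (D * lam) ≤ D / 4 := by
        apply Real.sqrt_le_iff.2
        refine ⟨by positivity, ?_⟩
        nlinarith
      linarith
    linarith
  have hcard : ∀ v, ((Sr_N S k v).card : ℝ) = dn S k v := fun v => rfl
  have hn2u : ∀ v, (n2 S k v : ℝ) ≤ 2 * D * KR ∨ ¬ S.nr v := by
    intro v
    by_cases hv : S.nr v
    · left
      have e1 : (n2 S k v : ℝ) = ∑ e ∈ Sr_N S k v, (rd S k (oth S v e) : ℝ) := by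
        unfold n2
        push_cast
        rfl
      rw [e1]
      calc ∑ e ∈ Sr_N S k v, (rd S k (oth S v e) : ℝ) ≤ ∑ e ∈ Sr_N S k v, KR :=
            Finset.sum_le_sum fun e he => hrd _ (Sr_mem S k he).2.2.2
        _ = dn S k v * KR := by rw [Finset.sum_const, nsmul_eq_mul, hcard]
        _ ≤ 2 * D * KR := mul_le_mul_of_nonneg_right (hd1 v hv).2 hKR0.le
    · exact Or.inr hv
  -- the numbers of 3-paths
  obtain ⟨n3, hn3⟩ : ∃ n3 : X → ℝ, ∀ v, n3 v =
      ∑ e ∈ Sr_N S k v, ((n2 S k (oth S v e) : ℝ) - rd S k v) := ⟨_, fun _ => rfl⟩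
  have hn3l : ∀ v, S.nr v → D * ν / 4 ≤ n3 v := by
    intro v hv
    rw [hn3]
    have h1 : ∑ e ∈ Sr_N S k v, ν / 2 ≤
        ∑ e ∈ Sr_N S k v, ((n2 S k (oth S v e) : ℝ) - rd S k v) := by
      refine Finset.sum_le_sum fun e he => ?_
      have h2 := hn2 _ (Sr_mem S k he).2.2.2
      have h3 := hrd v hv
      linarith
    refine le_trans ?_ h1
    rw [Finset.sum_const, nsmul_eq_mul, hcard]
    have h2 := (hd1 v hv).1
    nlinarith
  -- the coefficients
  obtain ⟨α, hα⟩ : ∃ α : X → ℝ, ∀ v, α v =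
      if S.nr v ∧ res S k D v < 0 then res S k D v / D / n2 S k v else 0 := ⟨_, fun _ => rfl⟩
  obtain ⟨β, hβ⟩ : ∃ β : X → ℝ, ∀ v, β v =
      if S.nr v ∧ 0 < res S k D v then res S k D v / D / n3 v else 0 := ⟨_, fun _ => rfl⟩
  have hα1 : ∀ v, α v ≤ 0 ∧ -(ρ / (D * ν)) ≤ α v := by
    intro v
    rw [hα]
    split_ifs with hc
    · have h1 := hn2 v hc.1
      have h2 := (abs_le.1 (hres v hc.1)).1
      have h3 : 0 < (n2 S k v : ℝ) := by linarith
      refine ⟨?_, ?_⟩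
      · exact div_nonpos_of_nonpos_of_nonneg
          (div_nonpos_of_nonpos_of_nonneg hc.2.le hD0.le) h3.le
      · rw [div_div, ← neg_div, div_le_div_iff₀ (by positivity) (by positivity)]
        have h4 : ρ * (D * ν) ≤ ρ * (D * n2 S k v) := by gcongr
        have h5 : (-ρ) * (D * ν) ≤ res S k D v * (D * ν) :=
          mul_le_mul_of_nonneg_right h2 (by positivity)
        linarith
    · exact ⟨le_refl _, by
        have : 0 ≤ ρ / (D * ν) := by positivity
        linarith⟩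
  have hβ1 : ∀ v, 0 ≤ β v ∧ β v ≤ 4 * ρ / (D ^ 2 * ν) := by
    intro v
    rw [hβ]
    split_ifs with hc
    · have h1 := hn3l v hc.1
      have h2 := (abs_le.1 (hres v hc.1)).2
      have h3 : 0 < n3 v := lt_of_lt_of_le (by positivity) h1
      refine ⟨?_, ?_⟩
      · exact div_nonneg (div_nonneg hc.2.le hD0.le) h3.le
      · rw [div_div, div_le_div_iff₀ (by positivity) (by positivity)]
        have h4 : 4 * ρ * (D * (D * ν / 4)) ≤ 4 * ρ * (D * n3 v) := by gcongr
        have h5 : res S k D v * (D ^ 2 * ν) ≤ ρ * (D ^ 2 * ν) :=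
          mul_le_mul_of_nonneg_right h2 (by positivity)
        linarith
    · exact ⟨le_refl _, by positivity⟩
  have hab : ∀ v, S.nr v → α v * n2 S k v + β v * n3 v = res S k D v / D := by
    intro v hv
    have h1 := hn2 v hv
    have h2 : (n2 S k v : ℝ) ≠ 0 := by linarith
    have h3 : n3 v ≠ 0 := (lt_of_lt_of_le (by positivity) (hn3l v hv)).ne'
    rw [hα, hβ]
    rcases lt_trichotomy (res S k D v) 0 with h4 | h4 | h4
    · rw [if_pos ⟨hv, h4⟩, if_neg (fun hc => absurd hc.2 (not_lt.2 h4.le)), zero_mul, add_zero,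
        div_mul_cancel₀ _ h2]
    · rw [if_neg (fun hc => absurd hc.2 (not_lt.2 h4.ge)),
        if_neg (fun hc => absurd hc.2 (not_lt.2 h4.le)), h4]
      simp
    · rw [if_neg (fun hc => absurd hc.2 (not_lt.2 h4.le)), if_pos ⟨hv, h4⟩, zero_mul, zero_add,
        div_mul_cancel₀ _ h3]
  -- bounds
  have hA : (0 : ℝ) ≤ ρ / (D * ν) := by positivity
  have hB : (0 : ℝ) ≤ 4 * ρ / (D ^ 2 * ν) := by positivity
  have hsumβ : ∀ (v : X) (e : E), S.nr v →
      0 ≤ ∑ f ∈ (Sr_N S k v).erase e, β (oth S v f) ∧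
      ∑ f ∈ (Sr_N S k v).erase e, β (oth S v f) ≤ 2 * D * (4 * ρ / (D ^ 2 * ν)) := by
    intro v e hv
    refine ⟨Finset.sum_nonneg fun f _ => (hβ1 _).1, ?_⟩
    calc ∑ f ∈ (Sr_N S k v).erase e, β (oth S v f) ≤
          ∑ f ∈ (Sr_N S k v).erase e, 4 * ρ / (D ^ 2 * ν) :=
          Finset.sum_le_sum fun f _ => (hβ1 _).2
      _ = ((Sr_N S k v).erase e).card * (4 * ρ / (D ^ 2 * ν)) := by
          rw [Finset.sum_const, nsmul_eq_mul]
      _ ≤ 2 * D * (4 * ρ / (D ^ 2 * ν)) := by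
          refine mul_le_mul_of_nonneg_right ?_ hB
          have h1 : (((Sr_N S k v).erase e).card : ℝ) ≤ (Sr_N S k v).card := by
            exact_mod_cast Finset.card_le_card (Finset.erase_subset _ _)
          rw [hcard] at h1
          exact h1.trans (hd1 v hv).2
  have hT : ∀ (v : X) (e : E), S.nr v → S.nr (oth S v e) → e ∈ Sr_N S k (oth S v e) →
      oth S (oth S v e) e = v → |Sr_T S k α β v e| ≤ 17 * KR * (ρ / (D * ν)) := by
    intro v e hv hw hm ho
    have r0 : (0 : ℝ) ≤ rd S k (oth S v e) := Nat.cast_nonneg _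
    have r1 := hrd _ hw
    have a1 := hα1 v
    have b1 := hβ1 v
    have s1 := hsumβ v e hv
    have m0 : (0 : ℝ) ≤ (n2 S k (oth S v e) : ℝ) - rd S k v := by
      have h2 := hn2 _ hw
      have h3 := hrd v hv
      linarith
    have m1 : (n2 S k (oth S v e) : ℝ) - rd S k v ≤ 2 * D * KR := by
      have h2 := (hn2u (oth S v e)).resolve_right (fun hc => hc hw)
      have h3 : (0 : ℝ) ≤ rd S k v := Nat.cast_nonneg _
      linarith
    unfold Sr_T
    have t1 : |α v * rd S k (oth S v e)| ≤ ρ / (D * ν) * KR := by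
      rw [abs_mul, abs_of_nonneg r0]
      refine mul_le_mul ?_ r1 r0 hA
      rw [abs_of_nonpos a1.1]
      linarith [a1.2]
    have t2 : |β v * ((n2 S k (oth S v e) : ℝ) - rd S k v)| ≤
        4 * ρ / (D ^ 2 * ν) * (2 * D * KR) := by
      rw [abs_mul, abs_of_nonneg m0, abs_of_nonneg b1.1]
      exact mul_le_mul b1.2 m1 m0 hB
    have t3 : |(∑ f ∈ (Sr_N S k v).erase e, β (oth S v f)) * rd S k (oth S v e)| ≤
        2 * D * (4 * ρ / (D ^ 2 * ν)) * KR := by
      rw [abs_mul, abs_of_nonneg r0, abs_of_nonneg s1.1]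
      exact mul_le_mul s1.2 r1 r0 (by positivity)
    have e1 : ρ / (D * ν) * KR + 4 * ρ / (D ^ 2 * ν) * (2 * D * KR) +
        2 * D * (4 * ρ / (D ^ 2 * ν)) * KR = 17 * KR * (ρ / (D * ν)) := by
      field_simp
      ring
    rw [← e1]
    refine (abs_sub _ _).trans ?_
    exact add_le_add ((abs_add_le _ _).trans (add_le_add t1 t2)) t3
  have hZ : ∀ w, S.nr w → 0 ≤ Sr_Z S k α β w ∧ Sr_Z S k α β w ≤ 18 * ρ / ν := by
    intro w hw
    have z1 : -(∑ f ∈ Sr_N S k w, α (oth S w f)) ≤ 2 * D * (ρ / (D * ν)) := by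
      rw [← Finset.sum_neg_distrib]
      calc ∑ f ∈ Sr_N S k w, -α (oth S w f) ≤ ∑ f ∈ Sr_N S k w, ρ / (D * ν) :=
            Finset.sum_le_sum fun f _ => by linarith [(hα1 (oth S w f)).2]
        _ = dn S k w * (ρ / (D * ν)) := by rw [Finset.sum_const, nsmul_eq_mul, hcard]
        _ ≤ 2 * D * (ρ / (D * ν)) := mul_le_mul_of_nonneg_right (hd1 w hw).2 hA
    have z0 : 0 ≤ -(∑ f ∈ Sr_N S k w, α (oth S w f)) := by
      rw [← Finset.sum_neg_distrib]
      exact Finset.sum_nonneg fun f _ => by linarith [(hα1 (oth S w f)).1]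
    have z2 : ∑ f ∈ Sr_N S k w, ∑ g ∈ (Sr_N S k (oth S w f)).erase f,
        β (oth S (oth S w f) g) ≤ 2 * D * (2 * D * (4 * ρ / (D ^ 2 * ν))) := by
      calc ∑ f ∈ Sr_N S k w, ∑ g ∈ (Sr_N S k (oth S w f)).erase f, β (oth S (oth S w f) g) ≤
            ∑ f ∈ Sr_N S k w, 2 * D * (4 * ρ / (D ^ 2 * ν)) :=
            Finset.sum_le_sum fun f hf => (hsumβ _ f (Sr_mem S k hf).2.2.2).2
        _ = dn S k w * (2 * D * (4 * ρ / (D ^ 2 * ν))) := by
            rw [Finset.sum_const, nsmul_eq_mul, hcard]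
        _ ≤ 2 * D * (2 * D * (4 * ρ / (D ^ 2 * ν))) :=
            mul_le_mul_of_nonneg_right (hd1 w hw).2 (by positivity)
    have z3 : 0 ≤ ∑ f ∈ Sr_N S k w, ∑ g ∈ (Sr_N S k (oth S w f)).erase f,
        β (oth S (oth S w f) g) :=
      Finset.sum_nonneg fun f hf => (hsumβ _ f (Sr_mem S k hf).2.2.2).1
    have e1 : 2 * D * (ρ / (D * ν)) + 2 * D * (2 * D * (4 * ρ / (D ^ 2 * ν))) = 18 * ρ / ν := by
      field_simp
      ring
    unfold Sr_Z
    exact ⟨add_nonneg z0 z3, by rw [← e1]; exact add_le_add z1 z2⟩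
  have hZ14 : 18 * ρ / ν ≤ 1 / (14 * D) := by
    rw [div_le_div_iff₀ hν0 (by positivity)]
    linarith
  -- the weights
  obtain ⟨y, hy⟩ : ∃ y : E → ℝ, ∀ e, y e = if k e then (if nE S e then (1 + xe S k D e) / D +
      (Sr_T S k α β (S.lf e) e + Sr_T S k α β (S.rt e) e) else
        Sr_Z S k α β (if S.nr (S.lf e) then S.lf e else S.rt e)) else 0 := ⟨_, fun _ => rfl⟩
  have hyn : ∀ e, k e → nE S e → y e = (1 + xe S k D e) / D +
      (Sr_T S k α β (S.lf e) e + Sr_T S k α β (S.rt e) e) := by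
    intro e hk hn
    rw [hy, if_pos hk, if_pos hn]
  have hyr : ∀ e, k e → ¬ nE S e → ∃ w, S.nr w ∧ (S.lf e = w ∨ S.rt e = w) ∧
      y e = Sr_Z S k α β w := by
    intro e hk hn
    by_cases hl : S.nr (S.lf e)
    · exact ⟨S.lf e, hl, Or.inl rfl, by rw [hy, if_pos hk, if_neg hn, if_pos hl]⟩
    · exact ⟨S.rt e, (S.one e).resolve_left hl, Or.inr rfl, by
        rw [hy, if_pos hk, if_neg hn, if_neg hl]⟩
  have hybn : ∀ e, k e → nE S e → 0 ≤ y e ∧ y e ≤ 2 / D := by
    intro e hk hn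
    have hl : e ∈ inN S (S.lf e) := by
      unfold inN inc
      rw [Finset.mem_filter, Finset.mem_filter]
      exact ⟨⟨Finset.mem_univ _, Or.inl rfl⟩, hn⟩
    have hr : e ∈ inN S (S.rt e) := by
      unfold inN inc
      rw [Finset.mem_filter, Finset.mem_filter]
      exact ⟨⟨Finset.mem_univ _, Or.inr rfl⟩, hn⟩
    have hl' : e ∈ Sr_N S k (S.lf e) := Finset.mem_filter.2 ⟨hl, hk⟩
    have hr' : e ∈ Sr_N S k (S.rt e) := Finset.mem_filter.2 ⟨hr, hk⟩
    obtain ⟨l1, l2, l3, l4⟩ := Sr_mem S k hl'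
    obtain ⟨r1, r2, r3, r4⟩ := Sr_mem S k hr'
    have t1 := hT _ e l3 l4 l1 l2
    have t2 := hT _ e r3 r4 r1 r2
    have x1 := abs_le.1 (xe_le S k D lam hlam hD hdn e hn hk)
    have e1 : 17 * KR * (ρ / (D * ν)) ≤ 1 / (8 * D) := by
      rw [mul_div_assoc', div_le_div_iff₀ (by positivity) (by positivity)]
      have : 136 * KR * ρ * D ≤ ν * D := mul_le_mul_of_nonneg_right hν2 hD0.le
      linarith
    have t1' := abs_le.1 (t1.trans e1)
    have t2' := abs_le.1 (t2.trans e1)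
    rw [hyn e hk hn]
    have x2 : 1 / 2 / D ≤ (1 + xe S k D e) / D :=
      div_le_div_of_nonneg_right (by linarith [x1.1]) hD0.le
    have x3 : (1 + xe S k D e) / D ≤ 3 / 2 / D :=
      div_le_div_of_nonneg_right (by linarith [x1.2]) hD0.le
    have e2 : 1 / 2 / D = 4 * (1 / (8 * D)) := by field_simp; norm_num
    have e3 : 3 / 2 / D = 12 * (1 / (8 * D)) := by field_simp; norm_num
    have e4 : 2 / D = 16 * (1 / (8 * D)) := by field_simp; norm_num
    have e5 : 0 < 1 / (8 * D) := by positivity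
    rw [e2] at x2
    rw [e3] at x3
    rw [e4]
    constructor
    · linarith [t1'.1, t2'.1]
    · linarith [t1'.2, t2'.2]
  have hybr : ∀ e, k e → ¬ nE S e → 0 ≤ y e ∧ y e ≤ 18 * ρ / ν := by
    intro e hk hn
    obtain ⟨w, hw, -, he⟩ := hyr e hk hn
    rw [he]
    exact hZ w hw
  have h14 : 18 * ρ / ν ≤ 2 / D := by
    refine hZ14.trans ?_
    rw [div_le_div_iff₀ (by positivity) hD0]
    linarith
  have hy0 : ∀ e, ¬ k e → y e = 0 := by
    intro e hk
    rw [hy, if_neg hk]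
  -- splitting
  have hsplit : ∀ v, ∑ e ∈ inc S v, y e = ∑ e ∈ Sr_N S k v, y e +
      ∑ e ∈ (inR S v).filter (fun e => k e), y e := by
    intro v
    rw [← Finset.sum_filter_add_sum_filter_not (inc S v) (fun e => nE S e)]
    have q : ∀ (F : Finset E), ∑ e ∈ F, y e = ∑ e ∈ F.filter (fun e => k e), y e := by
      intro F
      rw [← Finset.sum_filter_add_sum_filter_not F (fun e => k e)]
      rw [Finset.sum_eq_zero (s := F.filter (fun e => ¬ k e)), add_zero]
      intro e he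
      exact hy0 e (Finset.mem_filter.1 he).2
    rw [q ((inc S v).filter (fun e => nE S e)), q ((inc S v).filter (fun e => ¬ nE S e))]
    rfl
  refine ⟨y, ?_, hy0, ?_, ?_, ?_⟩
  · intro e
    by_cases hk : k e
    · by_cases hn : nE S e
      · exact (hybn e hk hn).1
      · exact (hybr e hk hn).1
    · rw [hy0 e hk]
  · intro e
    by_cases hk : k e
    · by_cases hn : nE S e
      · exact (hybn e hk hn).2
      · exact (hybr e hk hn).2.trans h14
    · rw [hy0 e hk]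
      positivity
  · intro v hv
    rw [hsplit]
    have hd2 : 2 ≤ dn S k v := by
      have h1 := (hd1 v hv).1
      have h2 : (2 : ℝ) ≤ dn S k v := by linarith
      exact_mod_cast h2
    rw [← Sr_sum S k D hD0 α β v hd2 (by rw [← hn3]; exact hab v hv)]
    congr 1
    · refine Finset.sum_congr rfl fun e he => ?_
      have he1 := Finset.mem_filter.1 he
      have he2 := he1.1
      unfold inN at he2
      have he3 := Finset.mem_filter.1 he2
      rw [hyn e he1.2 he3.2, Sr_sym S he3.1 (Sr_T S k α β)]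
    · have h1 : ∀ e ∈ (inR S v).filter (fun e => k e), y e = Sr_Z S k α β v := by
        intro e he
        have he1 := Finset.mem_filter.1 he
        have he2 := he1.1
        unfold inR inc at he2
        rw [Finset.mem_filter, Finset.mem_filter] at he2
        obtain ⟨⟨-, he3⟩, he4⟩ := he2
        obtain ⟨w, hw, hwe, hyw⟩ := hyr e he1.2 he4
        have hwv : w = v := by
          rcases hwe with hwe | hwe <;> rcases he3 with he3 | he3
          · rw [← hwe, he3]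
          · exact absurd ⟨hwe ▸ hw, he3 ▸ hv⟩ he4
          · exact absurd ⟨he3 ▸ hv, hwe ▸ hw⟩ he4
          · rw [← hwe, he3]
        rw [hyw, hwv]
      rw [Finset.sum_congr rfl h1, Finset.sum_const, nsmul_eq_mul]
      rfl
  · intro v hv
    rw [hsplit]
    have h0 : Sr_N S k v = ∅ := by
      rw [Finset.eq_empty_iff_forall_notMem]
      intro e he
      exact hv (Sr_mem S k he).2.2.1
    rw [h0, Finset.sum_empty, zero_add]
    calc ∑ e ∈ (inR S v).filter (fun e => k e), y e ≤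
          ∑ e ∈ (inR S v).filter (fun e => k e), 18 * ρ / ν := by
          refine Finset.sum_le_sum fun e he => ?_
          have he1 := Finset.mem_filter.1 he
          have he2 := he1.1
          unfold inR at he2
          exact (hybr e he1.2 (Finset.mem_filter.1 he2).2).2
      _ = rd S k v * (18 * ρ / ν) := by
          rw [Finset.sum_const, nsmul_eq_mul]
          rfl
      _ ≤ 7 * D * (1 / (14 * D)) :=
          mul_le_mul (hrd7 v hv) hZ14 (by positivity) (by positivity)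
      _ = 1 / 2 := by
          field_simp
          norm_num

end Pool.Agent.H65.GI
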