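/-
ROW Gdc. Good ends of the gadget walks.
Write `A = {f = a.1}` for the label `a`, `gd a z := z ∉ D ∧ (∀ d ∈ D, ¬ G.Adj z d) ∧ f z ≠ a.1 ∧ f (N a z) ≠ a.1`.
PROOF. (0) `en_dis`: for a moving word `g` (`mvg .. 4`) from `v` and another moving word `g' ≠ g` the balls `bl G (en v g) 1` and `bl G (en v g') 1` are disjoint: by `wk_inj` the `x_4` are different (`j = 4`); `nb_disj` with the edges `y_3 → x_4` (walks of `wk_nb`, index `7`), `k = 1`, `j = 1`.
(1) `gd_cnt`: let `f v = a.1`. Words `g` for which `Cl v g ∧ gd a (en v g)` fails: not moving: `≤ 6 K r^2` (`los4`; the hypotheses from `Hol.fn`, `Hol.fr`, `Hol.fnr`); moving, `en v g ∈ D` or adjacent to a point of `D`: a point `d ∈ D ∩ bl G v 11` lies in `bl G (en v g) 1`; by (0) at most one `g` for each `d`: `≤ K`;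
`f x_i = a.1` for an `i ∈ {1,..,4}`: `x_i = R (g (i-1)) y_{i-1}` and `y_{i-1}` only depends on the coordinates `< i-1`: at most `X` values of `g (i-1)` for fixed other coordinates (`fr1`): `≤ X r^3` words; `f y_i = a.1` for `i ∈ {1,..,4}`: `y_i = N a (R (g (i-1)) y_{i-1})`: `≤ X r^3` (`fr2`); `y_0 = N a v` is not in `A` (`Hol.n1`). `N a (en v g) = x_4`.
Total `≤ 6 K r^2 + K + 8 X r^3 ≤ 7 K r^2 + 8 X r^3` (`r ≥ 1`). So at least `r^4/2` words are good by `hr4`.
-/

import Pool.Agent.H65.GI.Tsz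

set_option autoImplicit false

namespace Pool.Agent.H65.GI

open Finset Classical

section
variable {V : Type} [Fintype V] {G : SimpleGraph V} {s w r K : ℕ} {side : V → Bool}
  {D : Finset V} {N : Fin s × Fin w → V → V} {R : Fin r → V → V} {f : V → Fin s}
  {pb e4 e2 X : ℝ}

theorem en_dis (ht : TL G 33) (h : IsBase G s w r K side D N R) (a : Fin s × Fin w) (v : V)
    (g g' : Fin 4 → Fin r) (hg : mvg (N a) R g v 4) (hg' : mvg (N a) R g' v 4) (hne : g ≠ g') :
    Disjoint (bl G (en (N a) R v g) 1) (bl G (en (N a) R v g') 1) := by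
  have hw := isb_wk h a
  have hx : xs (N a) R g v 4 ≠ xs (N a) R g' v 4 := by
    intro he
    obtain ⟨h1, -⟩ := wk_inj ht hw g g' v 4 le_rfl hg hg' he
    refine hne (funext fun i => ?_)
    have h2 := h1 i.val i.isLt
    have h3 : Fin.ofNat 4 i.val = i := Fin.ext (Nat.mod_eq_of_lt i.isLt)
    rwa [h3] at h2
  have n1 := wk_nb hw g v 4 hg
  have n2 := wk_nb hw g' v 4 hg'
  have e1 : ∀ k : Fin 4 → Fin r, mvg (N a) R k v 4 →
      Nb G (N a (xs (N a) R k v 3)) (xs (N a) R k v 4) 1 (xs (N a) R k v 4)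
        (en (N a) R v k) := by
    intro k hk
    have m := wk_nb hw k v 4 hk
    obtain ⟨z, m1, m2, m3⟩ := Cne_inv (m.1 4 le_rfl)
    obtain ⟨z', m4, m5, m6⟩ := Cne_inv m1
    have m7 := m.2 3 (by norm_num)
    obtain ⟨-, -, m8⟩ := ht.uniq v (N a v) (N a v) 7 7 _ _ _ (by norm_num) (by norm_num) m1 m7
    refine Nb.step (Nb.base ?_) m2 ?_
    · rw [← m8]
      exact m5
    · rw [← m8]
      exact m3
  exact nb_disj ht (n1.2 3 (by norm_num)) (n2.2 3 (by norm_num)) (e1 g hg) (e1 g' hg') hx 1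
    le_rfl (by norm_num)

theorem Gdc_slice (P : (Fin 4 → Fin r) → Prop) [DecidablePred P] (i : Fin 4) (Y : ℝ)
    (hP : ∀ q : Fin 3 → Fin r, ((univ.filter (fun ρ : Fin r =>
      P (i.insertNth (α := fun _ => Fin r) ρ q))).card : ℝ) ≤ Y) :
    ((univ.filter P).card : ℝ) ≤ Y * (r : ℝ) ^ 3 := by
  have h1 : (univ.filter P).card = ∑ q : Fin 3 → Fin r, (univ.filter (fun ρ : Fin r =>
      P (i.insertNth (α := fun _ => Fin r) ρ q))).card := by
    rw [Finset.card_filter]
    rw [← Equiv.sum_comp (Fin.insertNthEquiv (fun _ => Fin r) i)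
      (fun g => if P g then 1 else 0)]
    rw [Fintype.sum_prod_type, Finset.sum_comm]
    refine Finset.sum_congr rfl fun q _ => ?_
    rw [Finset.card_filter]
    rfl
  rw [h1, Nat.cast_sum]
  refine (Finset.sum_le_card_nsmul _ _ Y fun q _ => hP q).trans ?_
  rw [nsmul_eq_mul, Finset.card_univ, Fintype.card_fun, Fintype.card_fin, Fintype.card_fin,
    mul_comm, Nat.cast_pow]

omit [Fintype V] in
theorem Gdc_xs (M : V → V) (k : ℕ) (hk : k < 4) (v : V) (q : Fin 3 → Fin r) (ρ ρ0 : Fin r) :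
    xs M R ((Fin.ofNat 4 k).insertNth (α := fun _ => Fin r) ρ q) v k =
      xs M R ((Fin.ofNat 4 k).insertNth (α := fun _ => Fin r) ρ0 q) v k := by
  refine xs_cgr M R _ _ v k (fun i hi => ?_) k le_rfl
  have hne : Fin.ofNat 4 i ≠ Fin.ofNat 4 k := by
    intro he
    have h1 := congrArg Fin.val he
    have h2 : (Fin.ofNat 4 i).val = i := Nat.mod_eq_of_lt (by omega)
    have h3 : (Fin.ofNat 4 k).val = k := Nat.mod_eq_of_lt (by omega)
    omega
  obtain ⟨j, hj⟩ := Fin.exists_succAbove_eq hne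
  rw [← hj, Fin.insertNth_apply_succAbove, Fin.insertNth_apply_succAbove]

theorem Gdc_cx (h : IsCol G s w r K side D N R f pb e4 e2 X) (a : Fin s × Fin w) (v : V) (k : ℕ)
    (hk : k < 4) :
    ((univ.filter (fun g : Fin 4 → Fin r => f (xs (N a) R g v (k + 1)) = a.1)).card : ℝ) ≤
      X * (r : ℝ) ^ 3 := by
  refine Gdc_slice _ (Fin.ofNat 4 k) X fun q => ?_
  by_cases hr : Nonempty (Fin r)
  · obtain ⟨ρ0⟩ := hr
    refine le_trans (le_of_eq ?_) (h.fr1 (N a (xs (N a) R
      ((Fin.ofNat 4 k).insertNth (α := fun _ => Fin r) ρ0 q) v k)) a.1)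
    congr 2
    ext ρ
    simp only [Finset.mem_filter, Finset.mem_univ, true_and]
    have e : xs (N a) R ((Fin.ofNat 4 k).insertNth (α := fun _ => Fin r) ρ q) v (k + 1) =
        R (((Fin.ofNat 4 k).insertNth (α := fun _ => Fin r) ρ q) (Fin.ofNat 4 k)) (N a (xs (N a) R
          ((Fin.ofNat 4 k).insertNth (α := fun _ => Fin r) ρ q) v k)) := rfl
    rw [e, Fin.insertNth_apply_same, Gdc_xs (N a) k hk v q ρ ρ0]
  · have h0 : (univ.filter (fun ρ : Fin r => f (xs (N a) R
        ((Fin.ofNat 4 k).insertNth (α := fun _ => Fin r) ρ q) v (k + 1)) = a.1)) = ∅ := by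
      ext ρ
      exact (hr ⟨ρ⟩).elim
    rw [h0, Finset.card_empty, Nat.cast_zero]
    exact (Nat.cast_nonneg _).trans (h.fr1 v a.1)

theorem Gdc_cy (h : IsCol G s w r K side D N R f pb e4 e2 X) (a : Fin s × Fin w) (v : V) (k : ℕ)
    (hk : k < 4) :
    ((univ.filter (fun g : Fin 4 → Fin r => f (N a (xs (N a) R g v (k + 1))) = a.1)).card : ℝ) ≤
      X * (r : ℝ) ^ 3 := by
  refine Gdc_slice _ (Fin.ofNat 4 k) X fun q => ?_
  by_cases hr : Nonempty (Fin r)
  · obtain ⟨ρ0⟩ := hr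
    refine le_trans (le_of_eq ?_) (h.fr2 (N a (xs (N a) R
      ((Fin.ofNat 4 k).insertNth (α := fun _ => Fin r) ρ0 q) v k)) a)
    congr 2
    ext ρ
    simp only [Finset.mem_filter, Finset.mem_univ, true_and]
    have e : xs (N a) R ((Fin.ofNat 4 k).insertNth (α := fun _ => Fin r) ρ q) v (k + 1) =
        R (((Fin.ofNat 4 k).insertNth (α := fun _ => Fin r) ρ q) (Fin.ofNat 4 k)) (N a (xs (N a) R
          ((Fin.ofNat 4 k).insertNth (α := fun _ => Fin r) ρ q) v k)) := rfl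
    rw [e, Fin.insertNth_apply_same, Gdc_xs (N a) k hk v q ρ ρ0]
  · have h0 : (univ.filter (fun ρ : Fin r => f (N a (xs (N a) R
        ((Fin.ofNat 4 k).insertNth (α := fun _ => Fin r) ρ q) v (k + 1))) = a.1)) = ∅ := by
      ext ρ
      exact (hr ⟨ρ⟩).elim
    rw [h0, Finset.card_empty, Nat.cast_zero]
    exact (Nat.cast_nonneg _).trans (h.fr2 v a)

theorem Gdc_nd (ht : TL G 33) (h : IsBase G s w r K side D N R) (a : Fin s × Fin w) (v : V) :
    (univ.filter (fun g : Fin 4 → Fin r => mvg (N a) R g v 4 ∧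
      ∃ d ∈ D, d ∈ bl G (en (N a) R v g) 1)).card ≤ K := by
  refine le_trans ?_ (h.few v)
  have h1 : ∀ g : Fin 4 → Fin r, g ∈ univ.filter (fun g : Fin 4 → Fin r => mvg (N a) R g v 4 ∧
      ∃ d ∈ D, d ∈ bl G (en (N a) R v g) 1) → ∃ d, d ∈ D ∧ d ∈ bl G (en (N a) R v g) 1 := by
    intro g hg
    obtain ⟨-, -, d, h2, h3⟩ := Finset.mem_filter.1 hg
    exact ⟨d, h2, h3⟩
  have hne : Nonempty V := ⟨v⟩
  choose! φ hφ using h1
  refine Finset.card_le_card_of_injOn φ ?_ ?_
  · intro g hg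
    have h2 := hφ g hg
    rw [Finset.mem_coe, Finset.mem_filter]
    refine ⟨?_, h2.1⟩
    have h3 := (wk_bl (isb_wk h a) g v 4).2
    have h4 := bl_bl G h3 (l := 1) h2.2
    exact bl_mono G v (by norm_num) h4
  · intro g hg g' hg' he
    by_contra hne
    have h2 := hφ g hg
    have h3 := hφ g' hg'
    have h4 := (Finset.mem_filter.1 (Finset.mem_coe.1 hg)).2.1
    have h5 := (Finset.mem_filter.1 (Finset.mem_coe.1 hg')).2.1
    have h6 := en_dis ht h a v g g' h4 h5 hne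
    rw [Finset.disjoint_left] at h6
    refine h6 h2.2 ?_
    have he' : φ g = φ g' := he
    rw [he']
    exact h3.2

theorem gd_cnt (ht : TL G 33) (h : IsCol G s w r K side D N R f pb e4 e2 X)
    (hr4 : 7 * K * (r : ℝ) ^ 2 + 8 * X * r ^ 3 ≤ (r : ℝ) ^ 4 / 2) (a : Fin s × Fin w) (v : V)
    (hv : f v = a.1) :
    (r : ℝ) ^ 4 / 2 ≤ ((univ.filter (fun g : Fin 4 → Fin r =>
      Cl (N a) R (fun v => f v = a.1) v g ∧ en (N a) R v g ∉ D ∧
      (∀ d ∈ D, ¬ G.Adj (en (N a) R v g) d) ∧ f (en (N a) R v g) ≠ a.1 ∧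
      f (N a (en (N a) R v g)) ≠ a.1)).card : ℝ) := by
  rcases Nat.eq_zero_or_pos r with hr0 | hr0
  · subst hr0
    have h0 : ((0 : ℕ) : ℝ) ^ 4 / 2 = 0 := by norm_num
    rw [h0]
    exact Nat.cast_nonneg _
  have hw := isb_wk h.base a
  have hh := h.hol a
  set S := univ.filter (fun g : Fin 4 → Fin r =>
      Cl (N a) R (fun v => f v = a.1) v g ∧ en (N a) R v g ∉ D ∧
      (∀ d ∈ D, ¬ G.Adj (en (N a) R v g) d) ∧ f (en (N a) R v g) ≠ a.1 ∧
      f (N a (en (N a) R v g)) ≠ a.1) with hS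
  set L := univ.filter (fun g : Fin 4 → Fin r => ¬ mvg (N a) R g v 4) with hL
  set E := univ.filter (fun g : Fin 4 → Fin r => mvg (N a) R g v 4 ∧
      ∃ d ∈ D, d ∈ bl G (en (N a) R v g) 1) with hE
  set Xs := fun k : ℕ => univ.filter (fun g : Fin 4 → Fin r =>
    f (xs (N a) R g v (k + 1)) = a.1) with hXs
  set Ys := fun k : ℕ => univ.filter (fun g : Fin 4 → Fin r =>
    f (N a (xs (N a) R g v (k + 1))) = a.1) with hYs
  have hcov : (univ : Finset (Fin 4 → Fin r)) ⊆ (S ∪ (L ∪ E)) ∪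
      ((range 4).biUnion Xs ∪ (range 4).biUnion Ys) := by
    intro g _
    simp only [Finset.mem_union, Finset.mem_biUnion, Finset.mem_range]
    by_cases h1 : mvg (N a) R g v 4
    · by_cases h2 : ∃ d ∈ D, d ∈ bl G (en (N a) R v g) 1
      · exact Or.inl (Or.inr (Or.inr (Finset.mem_filter.2 ⟨Finset.mem_univ _, h1, h2⟩)))
      · by_cases h3 : ∃ k, k < 4 ∧ g ∈ Xs k
        · exact Or.inr (Or.inl h3)
        · by_cases h4 : ∃ k, k < 4 ∧ g ∈ Ys k
          · exact Or.inr (Or.inr h4)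
          · refine Or.inl (Or.inl (Finset.mem_filter.2 ⟨Finset.mem_univ _, ?_⟩))
            have h5 : ∀ k, k < 4 → f (xs (N a) R g v (k + 1)) ≠ a.1 := fun k hk h6 =>
              h3 ⟨k, hk, Finset.mem_filter.2 ⟨Finset.mem_univ _, h6⟩⟩
            have h6 : ∀ k, k < 4 → f (N a (xs (N a) R g v (k + 1))) ≠ a.1 := fun k hk h6 =>
              h4 ⟨k, hk, Finset.mem_filter.2 ⟨Finset.mem_univ _, h6⟩⟩
            refine ⟨⟨h1, ?_, ?_⟩, ?_, ?_, ?_, ?_⟩
            · intro i hi1 hi4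
              obtain ⟨k, rfl⟩ : ∃ k, i = k + 1 := ⟨i - 1, by omega⟩
              exact h5 k (by omega)
            · intro i hi3
              rcases Nat.eq_zero_or_pos i with rfl | hi0
              · exact hh.n1 v hv
              · obtain ⟨k, rfl⟩ : ∃ k, i = k + 1 := ⟨i - 1, by omega⟩
                exact h6 k (by omega)
            · intro hD
              exact h2 ⟨_, hD, bl_self G _ 1⟩
            · intro d hd hadj
              refine h2 ⟨d, hd, ?_⟩
              exact bl_adj G (bl_self G _ 0) hadj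
            · exact h6 3 (by norm_num)
            · have e : N a (en (N a) R v g) = xs (N a) R g v 4 := hw.invN _
              rw [e]
              exact h5 3 (by norm_num)
    · exact Or.inl (Or.inr (Or.inl (Finset.mem_filter.2 ⟨Finset.mem_univ _, h1⟩)))
  have hc0 : (univ : Finset (Fin 4 → Fin r)).card = r ^ 4 := by
    rw [Finset.card_univ, Fintype.card_fun, Fintype.card_fin, Fintype.card_fin]
  have hc1 := Finset.card_le_card hcov
  rw [hc0] at hc1
  have c1 := Finset.card_union_le (S ∪ (L ∪ E)) ((range 4).biUnion Xs ∪ (range 4).biUnion Ys)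
  have c2 := Finset.card_union_le S (L ∪ E)
  have c3 := Finset.card_union_le L E
  have c4 := Finset.card_union_le ((range 4).biUnion Xs) ((range 4).biUnion Ys)
  have c5 : (((range 4).biUnion Xs).card : ℝ) ≤ 4 * (X * (r : ℝ) ^ 3) := by
    have h1 := Finset.card_biUnion_le (s := range 4) (t := Xs)
    have h2 : (((range 4).biUnion Xs).card : ℝ) ≤ ∑ k ∈ range 4, ((Xs k).card : ℝ) := by
      exact_mod_cast h1
    refine h2.trans ?_
    refine (Finset.sum_le_card_nsmul _ _ (X * (r : ℝ) ^ 3) fun k hk =>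
      Gdc_cx h a v k (Finset.mem_range.1 hk)).trans ?_
    rw [nsmul_eq_mul, Finset.card_range]
    norm_num
  have c6 : (((range 4).biUnion Ys).card : ℝ) ≤ 4 * (X * (r : ℝ) ^ 3) := by
    have h1 := Finset.card_biUnion_le (s := range 4) (t := Ys)
    have h2 : (((range 4).biUnion Ys).card : ℝ) ≤ ∑ k ∈ range 4, ((Ys k).card : ℝ) := by
      exact_mod_cast h1
    refine h2.trans ?_
    refine (Finset.sum_le_card_nsmul _ _ (X * (r : ℝ) ^ 3) fun k hk =>
      Gdc_cy h a v k (Finset.mem_range.1 hk)).trans ?_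
    rw [nsmul_eq_mul, Finset.card_range]
    norm_num
  have c7 : L.card ≤ 6 * K * r ^ 2 := los4 ht hw v (hh.fn v hv) (fun ρ => hh.fr v ρ hv)
    (fun ρ => hh.fnr v ρ hv)
  have c8 : E.card ≤ K := Gdc_nd ht h.base a v
  have c9 : K ≤ K * r ^ 2 := Nat.le_mul_of_pos_right K (pow_pos hr0 2)
  have c10 : (r : ℝ) ^ 4 ≤ (S.card : ℝ) + L.card + E.card +
      ((range 4).biUnion Xs).card + ((range 4).biUnion Ys).card := by
    have : r ^ 4 ≤ S.card + L.card + E.card + ((range 4).biUnion Xs).card +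
      ((range 4).biUnion Ys).card := by omega
    exact_mod_cast this
  have c11 : (L.card : ℝ) ≤ 6 * K * (r : ℝ) ^ 2 := by exact_mod_cast c7
  have c12 : (E.card : ℝ) ≤ K * (r : ℝ) ^ 2 := by exact_mod_cast c8.trans c9
  linarith

end

end Pool.Agent.H65.GI
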