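import Pool.Agent.H65.GI.EDefs
import Pool.Agent.H65.GI.Lll

/-!
MP_b8729f, project GI: sampling of the gadgets and resolution of the conflicts. Definitions.
-/

set_option autoImplicit false
set_option linter.unusedSectionVars false

namespace Pool.Agent.H65.GI

open Finset Classical

noncomputable section

/-- all gadgets of all labels -/
abbrev AE {P : Type} (E : P → Type) : Type := Σ a, E a

/-- index set of the coins: `(e, none)`: sampling; `(e, some (inl i))`: own coins;
`(e, some (inr e'))`: the coin of a pair -/
abbrev Jx {P : Type} (E : P → Type) (C : ℕ) : Type := AE E × Option (Fin C ⊕ AE E)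

section
variable {P : Type} [Fintype P] {E : P → Type} [∀ a, Fintype (E a)] {C M : ℕ}

/-- a fixed order of the gadgets -/
def od (e : AE E) : ℕ := (Fintype.equivFin (AE E) e : ℕ)

/-- `e` is sampled -/
def smp (ω : Jx E C → Fin M × Bool) (e : AE E) : Prop := ((ω (e, none)).1 : ℕ) = 0

/-- the sampled gadgets in conflict with `e` -/
def cfs (cf : AE E → AE E → Prop) (ω : Jx E C → Fin M × Bool) (e : AE E) : Finset (AE E) :=
  univ.filter (fun e' => cf e e' ∧ smp ω e')

/-- `e` wins the coin against `e'` -/
def wn (ω : Jx E C → Fin M × Bool) (e e' : AE E) : Prop :=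
  if od e < od e' then (ω (e, some (Sum.inr e'))).2 = true
  else (ω (e', some (Sum.inr e))).2 = false

/-- `e` is kept: sampled and winner of its `C` coins, namely the pair coins with the first `C`
sampled gadgets in conflict with `e`, and own coins instead of the missing ones -/
def kp (cf : AE E → AE E → Prop) (ω : Jx E C → Fin M × Bool) (e : AE E) : Prop :=
  smp ω e ∧ (∀ e' ∈ cfs cf ω e,
    ((cfs cf ω e).filter (fun x => od x < od e')).card < C → wn ω e e') ∧
    ∀ i : Fin C, (cfs cf ω e).card ≤ (i : ℕ) → (ω (e, some (Sum.inl i))).2 = true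

end

end

end Pool.Agent.H65.GI
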