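/-
ROW Kpl. Kept gadgets: exclusivity, locality, few conflicts; the local lemma with locations.
PROOF. `kp_excl`: both are sampled, so `e' ∈ cfs e`, `e ∈ cfs e'`; the rank of an element (number of smaller elements) is less than the cardinality `≤ C`, so `wn ω e e'` and `wn ω e' e`; `od` is injective and `e ≠ e'` (labels), say `od e < od e'`: the same coin is `true` and `false`.
`kp_loc`: `cfs cf ω e` looks at `(e', none)` with `cf e e'`; `wn ω e e'` for `e' ∈ cfs` at a coordinate with first component `e` or `e'`.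
`cfs_few`: `few_le` with `J = {e' : cf e e'}`, events `smp ω e'` on the coordinate `(e', none)`, probability `1/M` (count: `pr_co1`; or direct).
`lll_loc`: like `lll_bl` (file Lll.lean), directly from `Pool.Agent.H28.local_lemma` with the coordinates `I`, the events indexed by `V` and `N v = {i : loc i ∈ bl G v r}`: if `N v`, `N v'` meet then `v' ∈ bl G v (2 r)` (`bl_symm`, `bl_bl`), at most `(Δ+1)^(2r)` (`bl_card`).
-/
import Pool.Agent.H65.GI.Thd
import Pool.Agent.H65.GI.Chf

set_option autoImplicit false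

namespace Pool.Agent.H65.GI

open Finset Classical

private theorem Kpl_few {I κ ι : Type} [Fintype I] [Fintype κ] [Nonempty κ] [F : Fintype (I → κ)]
    (J : Finset ι) (A : ι → (I → κ) → Prop) (S : ι → Finset I) (hS : ∀ i ∈ J, Loc (A i) (S i))
    (hd : ∀ i ∈ J, ∀ j ∈ J, i ≠ j → Disjoint (S i) (S j)) (p : ℝ) (hp0 : 0 ≤ p)
    (hp : ∀ i ∈ J, pr (A i) ≤ p) (n K : ℕ) (hn : J.card ≤ n) :
    pr (fun ω => K ≤ (J.filter (fun i => A i ω)).card) ≤ (n * p) ^ K := by
  have h := Subsingleton.elim F (Pi.instFintype : Fintype (I → κ))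
  subst h
  exact few_le J A S hS hd p hp0 hp n K hn

private theorem Kpl_coord {I κ : Type} [Fintype κ] [Nonempty κ] [F : Fintype (I → κ)]
    (i : I) (Q : κ → Prop) : pr (fun ω : I → κ => Q (ω i)) = pr Q := by
  let e := Equiv.funSplitAt i κ
  let F2 : Fintype ({j // j ≠ i} → κ) := by
    have h1 : Finite (κ × ({j // j ≠ i} → κ)) := Finite.of_equiv (I → κ) e
    have h2 : Finite ({j // j ≠ i} → κ) := Finite.prod_right κ
    exact Fintype.ofFinite _
  have h1 : (univ.filter (fun ω : I → κ => Q (ω i))).card =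
      (univ.filter Q).card * Fintype.card ({j // j ≠ i} → κ) := by
    rw [← Finset.card_univ (α := ({j // j ≠ i} → κ)), ← card_product]
    refine card_nbij' e e.symm ?_ ?_ ?_ ?_
    · intro w hw
      have h2 := (mem_filter.1 (mem_coe.1 hw)).2
      exact mem_coe.2 (mem_product.2 ⟨mem_filter.2 ⟨mem_univ _, h2⟩, mem_univ _⟩)
    · intro x hx
      have h2 := (mem_filter.1 (mem_product.1 (mem_coe.1 hx)).1).2
      refine mem_coe.2 (mem_filter.2 ⟨mem_univ _, ?_⟩)
      have h3 : (e.symm x) i = x.1 := by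
        have h4 := congrArg Prod.fst (e.apply_symm_apply x)
        exact h4
      rw [h3]
      exact h2
    · intro w _
      exact e.symm_apply_apply w
    · intro x _
      exact e.apply_symm_apply x
  have h2 : Fintype.card (I → κ) = Fintype.card κ * Fintype.card ({j // j ≠ i} → κ) := by
    rw [Fintype.card_congr e, Fintype.card_prod]
  unfold pr
  have h5 : Nonempty ({j // j ≠ i} → κ) := inferInstance
  have h6 : (Fintype.card ({j // j ≠ i} → κ) : ℝ) ≠ 0 := by
    have h7 : 0 < Fintype.card ({j // j ≠ i} → κ) := Fintype.card_pos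
    exact_mod_cast h7.ne'
  rw [h1, h2, Nat.cast_mul, Nat.cast_mul, mul_div_mul_right _ _ h6]

private theorem Kpl_pr {M : ℕ} [NeZero M] (Q : Fin M × Bool → Prop) (hQ : ∀ x, Q x ↔ (x.1 : ℕ) = 0) :
    pr Q = 1 / (M : ℝ) := by
  have h1 : univ.filter Q = ({0} : Finset (Fin M)) ×ˢ (univ : Finset Bool) := by
    ext x
    rw [mem_filter, mem_product, mem_singleton, Fin.ext_iff, hQ]
    simp
  have hM : (M : ℝ) ≠ 0 := Nat.cast_ne_zero.2 (NeZero.ne M)
  unfold pr
  rw [h1, card_product, card_singleton, Finset.card_univ, Fintype.card_prod, Fintype.card_bool,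
    Fintype.card_fin]
  push_cast
  field_simp

section
variable {P : Type} [Fintype P] {E : P → Type} [∀ a, Fintype (E a)] {C M : ℕ}

theorem kp_excl (cf : AE E → AE E → Prop) (hs : ∀ e e', cf e e' → cf e' e)
    (hcf : ∀ e e', cf e e' → e.1 ≠ e'.1) (ω : Jx E C → Fin M × Bool) (e e' : AE E)
    (h : cf e e') (h1 : (cfs cf ω e).card ≤ C) (h2 : (cfs cf ω e').card ≤ C) :
    ¬ (kp cf ω e ∧ kp cf ω e') := by
  rintro ⟨⟨s1, w1, -⟩, ⟨s2, w2, -⟩⟩
  have m1 : e' ∈ cfs cf ω e := mem_filter.2 ⟨mem_univ _, h, s2⟩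
  have m2 : e ∈ cfs cf ω e' := mem_filter.2 ⟨mem_univ _, hs _ _ h, s1⟩
  have r1 : ((cfs cf ω e).filter (fun x => od x < od e')).card < C := by
    refine lt_of_lt_of_le (card_lt_card ?_) h1
    refine ⟨filter_subset _ _, fun hss => ?_⟩
    exact lt_irrefl _ (mem_filter.1 (hss m1)).2
  have r2 : ((cfs cf ω e').filter (fun x => od x < od e)).card < C := by
    refine lt_of_lt_of_le (card_lt_card ?_) h2
    refine ⟨filter_subset _ _, fun hss => ?_⟩
    exact lt_irrefl _ (mem_filter.1 (hss m2)).2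
  have a1 := w1 e' m1 r1
  have a2 := w2 e m2 r2
  have hne : od e ≠ od e' := by
    intro h0
    have h3 : e = e' := (Fintype.equivFin (AE E)).injective (Fin.ext h0)
    exact hcf e e' h (congrArg Sigma.fst h3)
  unfold wn at a1 a2
  rcases lt_or_gt_of_ne hne with hlt | hlt
  · rw [if_pos hlt] at a1
    rw [if_neg (not_lt.2 hlt.le), a1] at a2
    exact Bool.false_ne_true a2.symm
  · rw [if_neg (not_lt.2 hlt.le)] at a1
    rw [if_pos hlt, a1] at a2
    exact Bool.false_ne_true a2

private theorem Kpl_cfs (cf : AE E → AE E → Prop) (e : AE E) (ω ω' : Jx E C → Fin M × Bool)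
    (h : ∀ e', cf e e' → ω (e', none) = ω' (e', none)) : cfs cf ω e = cfs cf ω' e := by
  refine filter_congr fun e' _ => ?_
  refine and_congr_right fun h1 => ?_
  unfold smp
  rw [h e' h1]

theorem kp_loc (cf : AE E → AE E → Prop) (e : AE E) :
    Loc (fun ω : Jx E C → Fin M × Bool => kp cf ω e)
      (univ.filter (fun i : Jx E C => i.1 = e ∨ cf e i.1)) := by
  intro ω ω' hω
  have g1 : ∀ o, ω (e, o) = ω' (e, o) := fun o => hω _ (mem_filter.2 ⟨mem_univ _, Or.inl rfl⟩)
  have g2 : ∀ e' o, cf e e' → ω (e', o) = ω' (e', o) :=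
    fun e' o h => hω _ (mem_filter.2 ⟨mem_univ _, Or.inr h⟩)
  have h1 := Kpl_cfs cf e ω ω' (fun e' h => g2 e' none h)
  change kp cf ω e = kp cf ω' e
  have h2 : smp ω e = smp ω' e := by
    unfold smp
    rw [g1]
  have h3 : ∀ e' ∈ cfs cf ω' e, wn ω e e' = wn ω' e e' := by
    intro e' he'
    have h4 := (mem_filter.1 he').2.1
    unfold wn
    rw [g1, g2 e' _ h4]
  unfold kp
  rw [h1, h2]
  simp only [g1]
  refine propext (and_congr_right fun _ => and_congr_left fun _ => forall₂_congr fun e' he' => ?_)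
  rw [h3 e' he']

theorem cfs_loc (cf : AE E → AE E → Prop) (e : AE E) :
    Loc (fun ω : Jx E C → Fin M × Bool => cfs cf ω e)
      (univ.filter (fun i : Jx E C => cf e i.1)) := by
  intro ω ω' hω
  exact Kpl_cfs cf e ω ω' (fun e' h => hω _ (mem_filter.2 ⟨mem_univ _, h⟩))

theorem cfs_few [NeZero M] (cf : AE E → AE E → Prop) (e : AE E) (n : ℕ)
    (hn : (univ.filter (fun e' => cf e e')).card ≤ n) :
    pr (fun ω : Jx E C → Fin M × Bool => C + 1 ≤ (cfs cf ω e).card) ≤
      ((n : ℝ) * (1 / M)) ^ (C + 1) := by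
  have hne : Nonempty (Fin M × Bool) := ⟨(0, true)⟩
  have h := Kpl_few (univ.filter (fun e' => cf e e'))
    (fun e' (ω : Jx E C → Fin M × Bool) => smp ω e') (fun e' => {((e', none) : Jx E C)})
    (fun e' _ ω ω' hω => by
      have h1 := hω _ (mem_singleton_self _)
      change smp ω e' = smp ω' e'
      unfold smp
      rw [h1])
    (fun i _ j _ hij => by
      rw [disjoint_singleton]
      intro h0
      exact hij (congrArg Prod.fst h0))
    (1 / (M : ℝ)) (by positivity)
    (fun e' _ => by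
      have h1 := Kpl_coord (κ := Fin M × Bool) ((e', none) : Jx E C)
        (fun x : Fin M × Bool => (x.1 : ℕ) = 0)
      rw [Kpl_pr _ (fun x => Iff.rfl)] at h1
      exact h1.le) n (C + 1) hn
  refine le_trans (le_of_eq ?_) h
  congr 1
  funext ω
  unfold cfs
  rw [filter_filter]

end

theorem lll_loc {V I κ : Type} [Fintype V] [Fintype I] [Fintype κ] [Nonempty κ]
    (G : SimpleGraph V) (Δ : ℕ) (hG : Reg G Δ) (loc : I → V) (r : ℕ) (E : V → (I → κ) → Prop)
    (hloc : ∀ v, Loc (E v) (univ.filter (fun i => loc i ∈ bl G v r))) (q : ℝ) (hq0 : 0 ≤ q)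
    (hq : ∀ v, pr (E v) ≤ q) (h4 : 4 * q * ((Δ : ℝ) + 1) ^ (2 * r) ≤ 1) :
    ∃ ω : I → κ, ∀ v, ¬ E v ω := by
  have h1 : (1 : ℝ) ≤ ((Δ : ℝ) + 1) ^ (2 * r) := by
    refine one_le_pow₀ ?_
    have : (0 : ℝ) ≤ Δ := Nat.cast_nonneg _
    linarith
  have h5 : 4 * q ≤ 1 := by
    refine le_trans ?_ h4
    exact le_mul_of_one_le_right (by linarith) h1
  have hpos : (0 : ℝ) < Fintype.card (I → κ) := by
    exact_mod_cast Fintype.card_pos
  have hA : ∀ v, ((univ.filter (fun w : I → κ => E v w)).card : ℝ) ≤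
      q * Fintype.card (I → κ) := by
    intro v
    have h6 := hq v
    unfold pr at h6
    exact (div_le_iff₀ hpos).1 h6
  obtain ⟨f, hf⟩ := Pool.Agent.H28.local_lemma
    (fun v => univ.filter (fun w : I → κ => E v w))
    (fun v => univ.filter (fun i => loc i ∈ bl G v r)) (fun v ω ω' hω h => by
      rw [mem_filter] at h ⊢
      refine ⟨mem_univ _, ?_⟩
      rw [← hloc v ω ω' hω]
      exact h.2) ((Δ + 1) ^ (2 * r)) q hq0
    (fun v => by
      refine (card_le_card ?_).trans (bl_card G Δ hG v (2 * r))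
      intro w hw
      obtain ⟨_, _, hd⟩ := mem_filter.1 hw
      rw [not_disjoint_iff] at hd
      obtain ⟨z, hz1, hz2⟩ := hd
      have h6 := bl_bl G (mem_filter.1 hz1).2 (bl_symm G (mem_filter.1 hz2).2)
      rw [two_mul]
      exact h6) hA (by push_cast; exact h4) h5 Fintype.card_pos
  exact ⟨f, fun v hv => hf v (mem_filter.2 ⟨mem_univ _, hv⟩)⟩

end Pool.Agent.H65.GI
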