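/-
ROW Law. The law of the kept gadgets of one label is a product of independent coins with probability `1/B`, `B = M 2^C`.
PROOF. `pr_co`: the coordinate `ω i` is uniform: `pr (B (ω i)) = #B / #κ` (count functions with a condition on one coordinate; e.g. `Fintype.piFinset` or `pr` of a product; or via `Equiv.piSplitAt`/`Fintype.card` of a pi type).
`law0`: for `T : Finset E` the event `{e : A e} = T` is `∀ e ∈ univ, (A e if e ∈ T, ¬ A e if not)`, by `pr_forall` its probability is `∏ (1/B or 1 - 1/B)` (`pr_not`). The same product for `kc` (sets `{e}`; `kc_pr` from `Sid.lean`). Sum over the `T` with `Φ (· ∈ T)`: both `pr` are the sum over `T ∈ univ.powerset` of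
`if Φ (fun e => e ∈ T) then (that product) else 0` (`univ.filter` of the outcomes is a disjoint union over the value `T ω = univ.filter (A · ω)`; `funext`/`propext` to replace `fun e => A e ω` by `fun e => e ∈ T ω`).
`law`: `cond_pr'` with the set `Aset` of all coordinates NOT in `U = {(x, o) : x.1 = a} ∪ {(x, some (inr y)) : y.1 = a}`. Fix `ω0`, `ω1 = ov Aset ω0 ω`, `F e = cfs cf ω0 ⟨a, e⟩`. For `e : E a`: `cfs cf ω1 ⟨a,e⟩ = F e` (its elements have label `≠ a`, `hcf`; their sample coordinates are in `Aset`). So `kp cf ω1 ⟨a,e⟩` is the event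
`Ae ω := smp ω ⟨a,e⟩ ∧ (∀ e' ∈ F e, rank e' < C → wn ω ⟨a,e⟩ e') ∧ (own coins i ≥ #F e)` (all these coordinates are in `U`, where `ω1 = ω`). `Loc (Ae) (S e)` with `S e = {(⟨a,e⟩, o)} ∪ {(x, some (inr ⟨a,e⟩)) : x.1 ≠ a}`, disjoint for different `e`.
`pr (Ae) = 1/B`: `Ae` is `∀ j ∈ J, B_j ω`, `J ⊆ Option (Fin C ⊕ AE E)`: `J = {none} ∪ {some (inl i) : #F e ≤ i} ∪ {some (inr e') : e' ∈ F e, rank e' < C}`, where `B_j` looks at the single coordinate `c j`: `c none = (⟨a,e⟩, none)`, `c (some (inl i)) = (⟨a,e⟩, some (inl i))`, `c (some (inr e')) = (⟨a,e⟩, some (inr e'))` if `od ⟨a,e⟩ < od e'`, else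
`(e', some (inr ⟨a,e⟩))`; `c` is injective on `J` (the labels of the `e' ∈ F e` are `≠ a`). `pr_forall` with singletons; `pr (B_none) = 1/M`, the others `1/2` (`pr_co`, `κ = Fin M × Bool`). Number of the others: `(C - #F e) + #{e' ∈ F e : rank e' < C} = (C - #F e) + min (#F e) C = C` (truncated subtraction;
`#{e' ∈ F : rank e' < C} = min (#F) C` for the rank in a linear order given by the injective `od`: lemma `rank_card`). Then `law0` for the events `Ae`.
-/
import Pool.Agent.H65.GI.Thd
import Pool.Agent.H65.GI.Sid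

set_option autoImplicit false

namespace Pool.Agent.H65.GI

open Finset Classical

theorem pr_co {I κ : Type} [Fintype I] [Fintype κ] [Nonempty κ] (i : I) (B : κ → Prop) :
    pr (fun ω : I → κ => B (ω i)) = ((univ.filter B).card : ℝ) / Fintype.card κ := by
  have h1 : (univ.filter (fun ω : I → κ => B (ω i))).card =
      ((univ.filter B) ×ˢ (univ : Finset ({j // j ≠ i} → κ))).card := by
    refine Finset.card_equiv (Equiv.funSplitAt i κ) fun ω => ?_
    simp [Equiv.funSplitAt]
  have h2 : Fintype.card (I → κ) = Fintype.card κ * Fintype.card ({j // j ≠ i} → κ) := by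
    rw [Fintype.card_congr (Equiv.funSplitAt i κ), Fintype.card_prod]
  have h3 : (Fintype.card ({j // j ≠ i} → κ) : ℝ) ≠ 0 := by
    exact_mod_cast (Fintype.card_pos (α := ({j // j ≠ i} → κ))).ne'
  unfold pr
  rw [h1, h2, card_product, card_univ]
  push_cast
  rw [mul_div_mul_right _ _ h3]

theorem Law_T {I κ E : Type} [Fintype I] [Fintype κ] [Nonempty κ] [Fintype E]
    (A : E → (I → κ) → Prop) (S : E → Finset I) (hS : ∀ e, Loc (A e) (S e))
    (hd : ∀ e e', e ≠ e' → Disjoint (S e) (S e')) (p : ℝ) (hp : ∀ e, pr (A e) = p)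
    (Φ : (E → Prop) → Prop) :
    pr (fun ω : I → κ => Φ (fun e => A e ω)) = ∑ T : Finset E,
      (if Φ (fun e => e ∈ T) then (1 : ℝ) else 0) * ∏ e : E, (if e ∈ T then p else 1 - p) := by
  obtain ⟨Q, hQ⟩ : ∃ Q : Finset E → (I → κ) → Prop, ∀ T ω, Q T ω ↔
      ∀ e ∈ (univ : Finset E), (e ∈ T ↔ A e ω) := ⟨_, fun _ _ => Iff.rfl⟩
  have h1 : (fun ω : I → κ => if Φ (fun e => A e ω) then (1 : ℝ) else 0) = fun ω =>
      ∑ T : Finset E, (if Φ (fun e => e ∈ T) then (1 : ℝ) else 0) *
        (if Q T ω then (1 : ℝ) else 0) := by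
    funext ω
    rw [Finset.sum_eq_single (univ.filter (fun e => A e ω))]
    · have h2 : (fun e => e ∈ univ.filter (fun e => A e ω)) = fun e => A e ω := by
        funext e
        simp
      rw [h2, if_pos ((hQ _ _).2 (fun e _ => by simp)), mul_one]
    · intro T _ hT
      have h3 : ¬ Q T ω := by
        intro h
        rw [hQ] at h
        apply hT
        ext e
        rw [h e (mem_univ e)]
        simp
      rw [if_neg h3, mul_zero]
    · intro h
      exact absurd (mem_univ _) h
  rw [ex_ind, h1, ex_sum]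
  refine Finset.sum_congr rfl fun T _ => ?_
  rw [ex_smul]
  congr 1
  rw [← ex_ind]
  have h3 : Q T = fun ω => ∀ e ∈ (univ : Finset E), (e ∈ T ↔ A e ω) := by
    funext ω
    exact propext (hQ T ω)
  rw [h3, pr_forall univ (fun e ω => (e ∈ T ↔ A e ω)) S
    (fun e _ ω ω' h => by simp only [hS e ω ω' h]) (fun e _ e' _ h => hd e e' h)]
  refine Finset.prod_congr rfl fun e _ => ?_
  by_cases he : e ∈ T
  · simp only [he, if_true, true_iff]
    exact hp e
  · simp only [he, if_false, false_iff]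
    rw [pr_not, hp e]

theorem law0 {I κ E : Type} [Fintype I] [Fintype κ] [Nonempty κ] [Fintype E] {B : ℕ} [NeZero B]
    (A : E → (I → κ) → Prop) (S : E → Finset I) (hS : ∀ e, Loc (A e) (S e))
    (hd : ∀ e e', e ≠ e' → Disjoint (S e) (S e')) (hp : ∀ e, pr (A e) = 1 / (B : ℝ))
    (Φ : (E → Prop) → Prop) :
    pr (fun ω : I → κ => Φ (fun e => A e ω)) = pr (fun ω : E → Fin B => Φ (fun e => kc ω e)) := by
  rw [Law_T A S hS hd (1 / (B : ℝ)) hp Φ,
    Law_T (fun e (ω : E → Fin B) => kc ω e) (fun e => {e}) ?_ ?_ (1 / (B : ℝ)) (fun e => kc_pr e) Φ]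
  · intro e ω ω' h
    have h1 : ω e = ω' e := h e (mem_singleton_self e)
    unfold kc
    simp only [h1]
  · intro e e' h
    exact disjoint_singleton.2 h

theorem rank_card {α : Type} (F : Finset α) (od : α → ℕ) (ho : Function.Injective od) (C : ℕ) :
    (F.filter (fun e' => (F.filter (fun x => od x < od e')).card < C)).card = min F.card C := by
  have hr : ∀ e ∈ F, (F.filter (fun x => od x < od e)).card < F.card := by
    intro e he
    refine card_lt_card ((filter_ssubset).2 ⟨e, he, lt_irrefl _⟩)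
  have hlt : ∀ e ∈ F, ∀ e' ∈ F, od e < od e' →
      (F.filter (fun x => od x < od e)).card < (F.filter (fun x => od x < od e')).card := by
    intro e he e' _ h
    refine card_lt_card (Finset.ssubset_iff_subset_ne.2 ⟨?_, ?_⟩)
    · intro x hx
      obtain ⟨h1, h2⟩ := mem_filter.1 hx
      exact mem_filter.2 ⟨h1, h2.trans h⟩
    · intro h1
      have h2 : e ∈ F.filter (fun x => od x < od e') := mem_filter.2 ⟨he, h⟩
      rw [← h1] at h2
      exact lt_irrefl _ (mem_filter.1 h2).2
  have hinj : Set.InjOn (fun e => (F.filter (fun x => od x < od e)).card) F := by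
    intro e he e' he' h
    by_contra hne
    rcases lt_trichotomy (od e) (od e') with h1 | h1 | h1
    · exact absurd h (hlt e he e' he' h1).ne
    · exact hne (ho h1)
    · exact absurd h (hlt e' he' e he h1).ne'
  have himg : F.image (fun e => (F.filter (fun x => od x < od e)).card) = range F.card := by
    apply Finset.eq_of_subset_of_card_le
    · intro k hk
      obtain ⟨e, he, rfl⟩ := mem_image.1 hk
      exact mem_range.2 (hr e he)
    · rw [card_range, card_image_of_injOn hinj]
  have h1 : (F.filter (fun e' => (F.filter (fun x => od x < od e')).card < C)).card =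
      ((F.image (fun e => (F.filter (fun x => od x < od e)).card)).filter (fun k => k < C)).card := by
    rw [Finset.filter_image, card_image_of_injOn (hinj.mono (by
      intro x hx
      exact (mem_filter.1 hx).1))]
  rw [h1, himg]
  have h2 : (range F.card).filter (fun k => k < C) = range (min F.card C) := by
    ext k
    simp only [mem_filter, mem_range]
    omega
  rw [h2, card_range]

theorem Law_cs {κ : Type} [Fintype κ] (B : κ → Prop) (S : Finset κ) (h : ∀ k, B k ↔ k ∈ S) :
    (univ.filter B).card = S.card := by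
  congr 1
  ext k
  rw [mem_filter, h k]
  exact and_iff_right (mem_univ k)

/-- `pr` with the instance of the general theorems -/
noncomputable def Law_p {I κ : Type} [Fintype I] [Fintype κ] (A : (I → κ) → Prop) : ℝ := pr A

theorem Law_eq {I κ : Type} [Fintype I] [Fintype κ] (inst : Fintype (I → κ))
    (A : (I → κ) → Prop) : @pr (I → κ) inst A = Law_p A := by
  unfold Law_p
  congr 1
  exact Subsingleton.elim _ _

theorem Law_cond {I κ : Type} [Fintype I] [Fintype κ] [Nonempty κ] (A : Finset I)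
    (B : (I → κ) → Prop) (p : ℝ) (h : ∀ ω0, Law_p (fun ω => B (ov A ω0 ω)) ≤ p) : Law_p B ≤ p :=
  cond_pr' A B p h

theorem Law_and {I κ : Type} [Fintype I] [Fintype κ] [Nonempty κ] (A B : (I → κ) → Prop)
    (S T : Finset I) (hA : Loc A S) (hB : Loc B T) (hd : Disjoint S T) :
    Law_p (fun ω => A ω ∧ B ω) = Law_p A * Law_p B := pr_and A B S T hA hB hd

theorem Law_forall {I κ ι : Type} [Fintype I] [Fintype κ] [Nonempty κ] (J : Finset ι)
    (A : ι → (I → κ) → Prop) (S : ι → Finset I) (hS : ∀ i ∈ J, Loc (A i) (S i))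
    (hd : ∀ i ∈ J, ∀ j ∈ J, i ≠ j → Disjoint (S i) (S j)) :
    Law_p (fun ω => ∀ i ∈ J, A i ω) = ∏ i ∈ J, Law_p (A i) := pr_forall J A S hS hd

theorem Law_l0 {I κ E : Type} [Fintype I] [Fintype κ] [Nonempty κ] [Fintype E] {B : ℕ} [NeZero B]
    (A : E → (I → κ) → Prop) (S : E → Finset I) (hS : ∀ e, Loc (A e) (S e))
    (hd : ∀ e e', e ≠ e' → Disjoint (S e) (S e')) (hp : ∀ e, Law_p (A e) = 1 / (B : ℝ))
    (Φ : (E → Prop) → Prop) :
    Law_p (fun ω : I → κ => Φ (fun e => A e ω)) = pr (fun ω : E → Fin B => Φ (fun e => kc ω e)) :=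
  law0 A S hS hd hp Φ

theorem Law_s {I : Type} [Fintype I] {M : ℕ} [NeZero M] (i : I) :
    Law_p (fun ω : I → Fin M × Bool => ((ω i).1 : ℕ) = 0) = 1 / (M : ℝ) := by
  refine (pr_co i (fun k : Fin M × Bool => (k.1 : ℕ) = 0)).trans ?_
  rw [Law_cs _ (({0} : Finset (Fin M)) ×ˢ (univ : Finset Bool)) ?_]
  · have hM : (M : ℝ) ≠ 0 := by exact_mod_cast NeZero.ne M
    rw [card_product, card_singleton, card_univ, Fintype.card_prod, Fintype.card_fin,
      Fintype.card_bool]
    push_cast
    field_simp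
  · rintro ⟨x, y⟩
    simp only [mem_product, mem_singleton, mem_univ, and_true]
    rw [Fin.ext_iff]
    rfl

theorem Law_b {I : Type} [Fintype I] {M : ℕ} [NeZero M] (i : I) (b : Bool) :
    Law_p (fun ω : I → Fin M × Bool => (ω i).2 = b) = 1 / 2 := by
  refine (pr_co i (fun k : Fin M × Bool => k.2 = b)).trans ?_
  rw [Law_cs _ ((univ : Finset (Fin M)) ×ˢ ({b} : Finset Bool)) ?_]
  · have hM : (M : ℝ) ≠ 0 := by exact_mod_cast NeZero.ne M
    rw [card_product, card_singleton, card_univ, Fintype.card_prod, Fintype.card_fin,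
      Fintype.card_bool]
    push_cast
    field_simp
  · rintro ⟨x, y⟩
    simp only [mem_product, mem_singleton, mem_univ, true_and]

/-- the coordinate of the pair coin -/
noncomputable def Law_c {P : Type} [Fintype P] {E : P → Type} [∀ a, Fintype (E a)] {C : ℕ}
    (g e' : AE E) : Jx E C :=
  if od g < od e' then (g, some (Sum.inr e')) else (e', some (Sum.inr g))

theorem Law_w {P : Type} [Fintype P] {E : P → Type} [∀ a, Fintype (E a)] {C M : ℕ}
    (g e' : AE E) : Loc (fun ω : Jx E C → Fin M × Bool => wn ω g e') {Law_c g e'} := by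
  intro ω ω' h
  have h1 : ω (Law_c g e') = ω' (Law_c g e') := h _ (mem_singleton_self _)
  change wn ω g e' = wn ω' g e'
  unfold wn
  unfold Law_c at h1
  by_cases h2 : od g < od e'
  · rw [if_pos h2] at h1
    rw [if_pos h2, if_pos h2, h1]
  · rw [if_neg h2] at h1
    rw [if_neg h2, if_neg h2, h1]

theorem Law_wp {P : Type} [Fintype P] {E : P → Type} [∀ a, Fintype (E a)] {C M : ℕ} [NeZero M]
    (g e' : AE E) : Law_p (fun ω : Jx E C → Fin M × Bool => wn ω g e') = 1 / 2 := by
  by_cases h2 : od g < od e'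
  · have h3 : (fun ω : Jx E C → Fin M × Bool => wn ω g e') =
        fun ω => (ω (g, some (Sum.inr e'))).2 = true := by
      funext ω
      unfold wn
      rw [if_pos h2]
    rw [h3]
    exact Law_b _ _
  · have h3 : (fun ω : Jx E C → Fin M × Bool => wn ω g e') =
        fun ω => (ω (e', some (Sum.inr g))).2 = false := by
      funext ω
      unfold wn
      rw [if_neg h2]
    rw [h3]
    exact Law_b _ _

/-- the probability to be kept, if the sampled gadgets in conflict are `F` -/
theorem Law_k {P : Type} [Fintype P] {E : P → Type} [∀ a, Fintype (E a)] {C M : ℕ} [NeZero M]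
    (g : AE E) (F : Finset (AE E)) (hF : ∀ x ∈ F, x.1 ≠ g.1) :
    Law_p (fun ω : Jx E C → Fin M × Bool => smp ω g ∧
      ((∀ e' ∈ F, (F.filter (fun x => od x < od e')).card < C → wn ω g e') ∧
      ∀ i : Fin C, F.card ≤ (i : ℕ) → (ω (g, some (Sum.inl i))).2 = true)) =
      1 / (M : ℝ) * ((1 / 2) ^ (min F.card C) * (1 / 2) ^ (C - F.card)) := by
  have hod : Function.Injective (od : AE E → ℕ) := by
    intro x y h
    exact (Fintype.equivFin (AE E)).injective (Fin.ext h)
  have hgF : ∀ x ∈ F, x ≠ g := fun x hx h => hF x hx (by rw [h])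
  have hX : Loc (fun ω : Jx E C → Fin M × Bool => smp ω g) {(g, none)} := by
    intro ω ω' h
    have h1 : ω (g, none) = ω' (g, none) := h _ (mem_singleton_self _)
    change smp ω g = smp ω' g
    unfold smp
    rw [h1]
  have hY : Loc (fun ω : Jx E C → Fin M × Bool =>
      ∀ e' ∈ F, (F.filter (fun x => od x < od e')).card < C → wn ω g e') (F.image (Law_c g)) := by
    intro ω ω' h
    apply propext
    refine forall_congr' fun e' => forall_congr' fun he' => forall_congr' fun _ => ?_
    have := Law_w (M := M) g e' ω ω' (fun i hi => h i (by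
      rw [mem_singleton.1 hi]
      exact mem_image_of_mem _ he'))
    exact iff_of_eq this
  have hZ : Loc (fun ω : Jx E C → Fin M × Bool =>
      ∀ i : Fin C, F.card ≤ (i : ℕ) → (ω (g, some (Sum.inl i))).2 = true)
      (univ.image (fun i : Fin C => ((g, some (Sum.inl i)) : Jx E C))) := by
    intro ω ω' h
    apply propext
    refine forall_congr' fun i => forall_congr' fun _ => ?_
    rw [h _ (mem_image_of_mem _ (mem_univ i))]
  have hc : ∀ x ∈ F, ∀ i : Fin C, (Law_c g x : Jx E C) ≠ (g, some (Sum.inl i)) := by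
    intro x hx i h
    unfold Law_c at h
    split_ifs at h <;> simp at h
  have hc0 : ∀ x ∈ F, (Law_c g x : Jx E C) ≠ (g, none) := by
    intro x hx h
    unfold Law_c at h
    split_ifs at h <;> simp at h
  have hYZ : Disjoint (F.image (Law_c g))
      (univ.image (fun i : Fin C => ((g, some (Sum.inl i)) : Jx E C))) := by
    rw [disjoint_left]
    intro x hx hx'
    obtain ⟨y, hy, rfl⟩ := mem_image.1 hx
    obtain ⟨i, _, hi⟩ := mem_image.1 hx'
    exact hc y hy i hi.symm
  have hYZl : Loc (fun ω : Jx E C → Fin M × Bool =>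
      (∀ e' ∈ F, (F.filter (fun x => od x < od e')).card < C → wn ω g e') ∧
      ∀ i : Fin C, F.card ≤ (i : ℕ) → (ω (g, some (Sum.inl i))).2 = true)
      (F.image (Law_c g) ∪ univ.image (fun i : Fin C => ((g, some (Sum.inl i)) : Jx E C))) := by
    intro ω ω' h
    have h1 := hY ω ω' (fun i hi => h i (mem_union_left _ hi))
    have h2 := hZ ω ω' (fun i hi => h i (mem_union_right _ hi))
    exact congrArg₂ And h1 h2
  have hXd : Disjoint ({(g, none)} : Finset (Jx E C))
      (F.image (Law_c g) ∪ univ.image (fun i : Fin C => ((g, some (Sum.inl i)) : Jx E C))) := by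
    rw [disjoint_singleton_left, mem_union, not_or]
    constructor
    · intro h
      obtain ⟨y, hy, h1⟩ := mem_image.1 h
      exact hc0 y hy h1
    · intro h
      obtain ⟨i, _, h1⟩ := mem_image.1 h
      simp at h1
  rw [Law_and _ _ _ _ hX hYZl hXd, Law_and _ _ _ _ hY hZ hYZ]
  congr 1
  · exact Law_s _
  congr 1
  · have h1 : (fun ω : Jx E C → Fin M × Bool =>
        ∀ e' ∈ F, (F.filter (fun x => od x < od e')).card < C → wn ω g e') =
        fun ω => ∀ e' ∈ F.filter (fun e' => (F.filter (fun x => od x < od e')).card < C),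
          wn ω g e' := by
      funext ω
      apply propext
      simp only [mem_filter, and_imp]
    rw [h1, Law_forall _ (fun e' ω => wn ω g e') (fun e' => {Law_c g e'}) (fun e' _ => Law_w g e') ?_]
    · rw [prod_congr rfl (fun e' _ => Law_wp g e'), prod_const, rank_card F od hod C]
    · intro x hx y hy hxy
      rw [disjoint_singleton]
      have hx := hgF x (mem_filter.1 hx).1
      have hy := hgF y (mem_filter.1 hy).1
      unfold Law_c
      split_ifs <;> simp [hxy, hx, hy.symm]
  · have h1 : (fun ω : Jx E C → Fin M × Bool =>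
        ∀ i : Fin C, F.card ≤ (i : ℕ) → (ω (g, some (Sum.inl i))).2 = true) =
        fun ω => ∀ i ∈ univ.filter (fun i : Fin C => F.card ≤ (i : ℕ)),
          (ω (g, some (Sum.inl i))).2 = true := by
      funext ω
      apply propext
      simp only [mem_filter, mem_univ, true_and]
    rw [h1, Law_forall _ (fun (i : Fin C) (ω : Jx E C → Fin M × Bool) =>
      (ω (g, some (Sum.inl i))).2 = true) (fun i => {(g, some (Sum.inl i))}) ?_ ?_]
    · rw [prod_congr rfl (fun i _ => Law_b _ _), prod_const]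
      congr 1
      have h2 : (univ.filter (fun i : Fin C => F.card ≤ (i : ℕ))).card =
          ((range C).filter (fun i => F.card ≤ i)).card := by
        rw [← card_image_of_injective _ Fin.val_injective]
        congr 1
        ext k
        simp only [mem_image, mem_filter, mem_univ, true_and, mem_range]
        constructor
        · rintro ⟨i, hi, rfl⟩
          exact ⟨i.2, hi⟩
        · rintro ⟨h3, h4⟩
          exact ⟨⟨k, h3⟩, h4, rfl⟩
      rw [h2]
      have h3 : (range C).filter (fun i => F.card ≤ i) = (range C) \ range F.card := by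
        ext k
        simp only [mem_filter, mem_range, mem_sdiff, not_lt]
      rw [h3]
      rcases le_total F.card C with h4 | h4
      · rw [card_sdiff_of_subset (range_subset_range.2 h4), card_range, card_range]
      · rw [sdiff_eq_empty_iff_subset.2 (range_subset_range.2 h4), card_empty]
        omega
    · intro i _ ω ω' h
      have h3 : ω (g, some (Sum.inl i)) = ω' (g, some (Sum.inl i)) := h _ (mem_singleton_self _)
      change ((ω (g, some (Sum.inl i))).2 = true) = ((ω' (g, some (Sum.inl i))).2 = true)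
      rw [h3]
    · intro i _ j _ hij
      rw [disjoint_singleton]
      intro h
      simp at h
      exact hij h

theorem law {P : Type} [Fintype P] {E : P → Type} [∀ a, Fintype (E a)] {C M B : ℕ} [NeZero M]
    [NeZero B] (hB : B = M * 2 ^ C) (cf : AE E → AE E → Prop)
    (hcf : ∀ e e', cf e e' → e.1 ≠ e'.1) (a : P) (Φ : (E a → Prop) → Prop) (p : ℝ)
    (h : pr (fun ω : E a → Fin B => Φ (fun e => kc ω e)) ≤ p) :
    pr (fun ω : Jx E C → Fin M × Bool => Φ (fun e : E a => kp cf ω ⟨a, e⟩)) ≤ p := by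
  rw [Law_eq]
  refine Law_cond (univ.filter (fun x : Jx E C => ¬ (x.1.1 = a ∨ ∃ y : AE E, y.1 = a ∧
    x.2 = some (Sum.inr y)))) _ p fun ω0 => ?_
  refine le_trans (le_of_eq ?_) h
  have hkp : ∀ (ω : Jx E C → Fin M × Bool) (e : E a),
      kp cf (ov (univ.filter (fun x : Jx E C => ¬ (x.1.1 = a ∨ ∃ y : AE E, y.1 = a ∧
        x.2 = some (Sum.inr y)))) ω0 ω) ⟨a, e⟩ ↔
      (smp ω ⟨a, e⟩ ∧ ((∀ e' ∈ cfs cf ω0 ⟨a, e⟩,
        ((cfs cf ω0 ⟨a, e⟩).filter (fun x => od x < od e')).card < C → wn ω ⟨a, e⟩ e') ∧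
      ∀ i : Fin C, (cfs cf ω0 ⟨a, e⟩).card ≤ (i : ℕ) →
        (ω (⟨a, e⟩, some (Sum.inl i))).2 = true)) := by
    intro ω e
    set ω1 := ov (univ.filter (fun x : Jx E C => ¬ (x.1.1 = a ∨ ∃ y : AE E, y.1 = a ∧
        x.2 = some (Sum.inr y)))) ω0 ω with hω1
    have ho1 : ∀ x : Jx E C, (x.1.1 = a ∨ ∃ y : AE E, y.1 = a ∧ x.2 = some (Sum.inr y)) →
        ω1 x = ω x := by
      intro x hx
      rw [hω1]
      unfold ov
      rw [if_neg]
      intro h1
      exact (mem_filter.1 h1).2 hx
    have ho2 : ∀ y : AE E, y.1 ≠ a → ω1 (y, none) = ω0 (y, none) := by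
      intro y hy
      rw [hω1]
      unfold ov
      rw [if_pos]
      refine mem_filter.2 ⟨mem_univ _, ?_⟩
      rintro (h1 | ⟨z, _, h1⟩)
      · exact hy h1
      · simp at h1
    have h1 : cfs cf ω1 ⟨a, e⟩ = cfs cf ω0 ⟨a, e⟩ := by
      unfold cfs
      refine filter_congr fun y _ => ?_
      refine and_congr_right fun hy => ?_
      unfold smp
      rw [ho2 y (fun hh => hcf _ _ hy hh.symm)]
    have h2 : smp ω1 ⟨a, e⟩ ↔ smp ω ⟨a, e⟩ := by
      unfold smp
      rw [ho1 _ (Or.inl rfl)]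
    have h3 : ∀ e', wn ω1 ⟨a, e⟩ e' ↔ wn ω ⟨a, e⟩ e' := by
      intro e'
      unfold wn
      rw [ho1 (⟨a, e⟩, some (Sum.inr e')) (Or.inl rfl),
        ho1 (e', some (Sum.inr ⟨a, e⟩)) (Or.inr ⟨⟨a, e⟩, rfl, rfl⟩)]
    unfold kp
    rw [h1, h2]
    simp only [h3]
    have h4 : ∀ i : Fin C, ω1 (⟨a, e⟩, some (Sum.inl i)) = ω (⟨a, e⟩, some (Sum.inl i)) :=
      fun i => ho1 _ (Or.inl rfl)
    simp only [h4]
  have e1 : (fun ω : Jx E C → Fin M × Bool => Φ (fun e : E a =>
      kp cf (ov (univ.filter (fun x : Jx E C => ¬ (x.1.1 = a ∨ ∃ y : AE E, y.1 = a ∧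
        x.2 = some (Sum.inr y)))) ω0 ω) ⟨a, e⟩)) = fun ω => Φ (fun e : E a =>
      (smp ω ⟨a, e⟩ ∧ ((∀ e' ∈ cfs cf ω0 ⟨a, e⟩,
        ((cfs cf ω0 ⟨a, e⟩).filter (fun x => od x < od e')).card < C → wn ω ⟨a, e⟩ e') ∧
      ∀ i : Fin C, (cfs cf ω0 ⟨a, e⟩).card ≤ (i : ℕ) →
        (ω (⟨a, e⟩, some (Sum.inl i))).2 = true))) := by
    funext ω
    simp only [hkp]
  rw [e1]
  have hcfs : ∀ e : E a, ∀ x ∈ cfs cf ω0 ⟨a, e⟩, x.1 ≠ a := by
    intro e x hx
    exact fun hh => hcf _ _ (mem_filter.1 hx).2.1 hh.symm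
  refine Law_l0 (fun (e : E a) (ω : Jx E C → Fin M × Bool) => (smp ω ⟨a, e⟩ ∧
      ((∀ e' ∈ cfs cf ω0 ⟨a, e⟩,
        ((cfs cf ω0 ⟨a, e⟩).filter (fun x => od x < od e')).card < C → wn ω ⟨a, e⟩ e') ∧
      ∀ i : Fin C, (cfs cf ω0 ⟨a, e⟩).card ≤ (i : ℕ) →
        (ω (⟨a, e⟩, some (Sum.inl i))).2 = true)))
    (fun e => univ.filter (fun x : Jx E C => x.1 = ⟨a, e⟩ ∨
      (x.1.1 ≠ a ∧ x.2 = some (Sum.inr ⟨a, e⟩)))) ?_ ?_ ?_ Φ
  · intro e ω ω' hω
    have h1 : ∀ o, ω (⟨a, e⟩, o) = ω' (⟨a, e⟩, o) :=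
      fun o => hω _ (mem_filter.2 ⟨mem_univ _, Or.inl rfl⟩)
    have h2 : ∀ y : AE E, y.1 ≠ a → ω (y, some (Sum.inr ⟨a, e⟩)) = ω' (y, some (Sum.inr ⟨a, e⟩)) :=
      fun y hy => hω _ (mem_filter.2 ⟨mem_univ _, Or.inr ⟨hy, rfl⟩⟩)
    apply propext
    unfold smp
    refine and_congr (by rw [h1]) (and_congr ?_ ?_)
    · refine forall_congr' fun e' => forall_congr' fun he' => forall_congr' fun _ => ?_
      unfold wn
      rw [h1, h2 e' (hcfs e e' he')]
    · refine forall_congr' fun i => forall_congr' fun _ => ?_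
      rw [h1]
  · intro e e' hne
    rw [disjoint_left]
    intro x hx hx'
    have hne' : (⟨a, e⟩ : AE E) ≠ ⟨a, e'⟩ := by
      intro hh
      exact hne (eq_of_heq (Sigma.mk.inj hh).2)
    rcases (mem_filter.1 hx).2 with h1 | ⟨h1, h2⟩
    · rcases (mem_filter.1 hx').2 with h1' | ⟨h1', h2'⟩
      · exact hne' (h1.symm.trans h1')
      · exact h1' (by rw [h1])
    · rcases (mem_filter.1 hx').2 with h1' | ⟨h1', h2'⟩
      · exact h1 (by rw [h1'])
      · rw [h2] at h2'
        exact hne' (Sum.inr.inj (Option.some.inj h2'))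
  · intro e
    rw [Law_k ⟨a, e⟩ (cfs cf ω0 ⟨a, e⟩) (hcfs e), ← pow_add]
    have h1 : min (cfs cf ω0 (⟨a, e⟩ : AE E)).card C + (C - (cfs cf ω0 (⟨a, e⟩ : AE E)).card) = C := by
      omega
    rw [h1, hB]
    push_cast
    rw [one_div_pow, one_div_mul_one_div]

end Pool.Agent.H65.GI
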