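/-
ROW St1. First stage: the reserve sets.
Write `A = {f = a.1}` for the label `a`, `gd a z := z ∉ D ∧ (∀ d ∈ D, ¬ G.Adj z d) ∧ f z ≠ a.1 ∧ f (N a z) ≠ a.1`. `(0)`, `(1)` are `en_dis`, `gd_cnt` of the file Gdc.lean.
PROOF. (2) Coins: `rs : V → Fin B1 × (Fin s × Fin w)`, `Q a z := (rs z).1 = 0 ∧ (rs z).2 = a ∧ (∀ z', G.Adj z z' → (rs z').1 ≠ 0) ∧ gd a z` (`(.. : ℕ)`-casts of `Fin B1`: `((rs z).1 : ℕ) = 0`). Events at `v` (`lll_loc`, `I = V`, `loc = id`, radius `10`):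
 low(a) for `f v = a.1`: `#{g : Cl v g ∧ Q a (en v g)} ≤ r^4/(8 B1 s w)`: let `J` be the good words of (1), events `A_g := (rs (en v g)).1 = 0 ∧ (..).2 = a ∧ neighbours not preselected`, on the disjoint sets `bl G (en v g) 1` (0); probability `1/(B1 s w) (1 - 1/B1)^Δ ≥ 1/(2 B1 s w)` (`pr_forall`, `pr_co` (Law.lean), Bernoulli `one_add_mul_le_pow`, `2Δ ≤ B1`).
 `ch_lo` with `μ = r^4/(4 B1 s w)`: failure probability `≤ exp (-(μ/16)) ≤ exp (-lam)` (`hlow`).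
 upp(a): `3 r^4/(B1 s w) + 2 lam ≤ #{g : mvg ∧ (rs (en v g)) = (0, a)}`: `ch_up`, different words have different ends (`wk_inj`), `μ = r^4/(B1 s w)`.
 fr2(a): `3 + 2 lam ≤ #{ρ : R ρ v ≠ v ∧ rs (N a (R ρ v)) = (0, a)}`: different `ρ` with `R ρ v ≠ v` give different vertices (`disR`, `N a` injective); `μ = 1` (`r ≤ B1 s w`, `hr1`). At most one `ρ` has `R ρ v = v`: `≤ 1 + ..`.
 fr3: `3 + 2 lam ≤ #{a : N a v ≠ v ∧ rs (N a v) = (0, a)}`: different vertices (`disN`); each with probability `1/(B1 s w)`, `μ = 1`. At most one label fixes `v` (`IsBase.on`).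
 Total probability at `v` `≤ (3 s w + 1) exp (-lam)`; all events look at `bl G v 10` (`wk_bl`: the ends are in `bl G v 9`).
(3) `IsRes`: `uni`: `(rs v).2`; `ind`: `Q b v` gives `(rs v).1 = 0` but `u ~ v` and `Q a u` forbid it; `offD`, `offA` from `gd`; `low`, `upp`, `fr2`, `fr3` from the failures of the events (`X' = 4 + 2 lam`).
-/
import Pool.Agent.H65.GI.Gdc
import Pool.Agent.H65.GI.Kpl
import Pool.Agent.H65.GI.Law

set_option autoImplicit false

namespace Pool.Agent.H65.GI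

open Finset Classical

section
variable {V : Type} [Fintype V] {G : SimpleGraph V} {s w r K : ℕ} {side : V → Bool}
  {D : Finset V} {N : Fin s × Fin w → V → V} {R : Fin r → V → V} {f : V → Fin s}
  {pb e4 e2 X : ℝ}

/-- `z` is preselected for the label `a` -/
def St1_sel {B1 : ℕ} (ω : V → Fin B1 × (Fin s × Fin w)) (a : Fin s × Fin w) (z : V) : Prop :=
  ((ω z).1 : ℕ) = 0 ∧ (ω z).2 = a

/-- no neighbour of `z` is preselected -/
def St1_iso (G : SimpleGraph V) {B1 : ℕ} (ω : V → Fin B1 × (Fin s × Fin w)) (z : V) : Prop :=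
  ∀ z', G.Adj z z' → ((ω z').1 : ℕ) ≠ 0

/-- `z` is preselected, its neighbours are not -/
def St1_A (G : SimpleGraph V) {B1 : ℕ} (ω : V → Fin B1 × (Fin s × Fin w)) (a : Fin s × Fin w)
    (z : V) : Prop := St1_sel ω a z ∧ St1_iso G ω z

/-- the reserve sets -/
def St1_Q (G : SimpleGraph V) (D : Finset V) (N : Fin s × Fin w → V → V) (f : V → Fin s) {B1 : ℕ}
    (ω : V → Fin B1 × (Fin s × Fin w)) (a : Fin s × Fin w) (z : V) : Prop :=
  St1_A G ω a z ∧ z ∉ D ∧ (∀ d ∈ D, ¬ G.Adj z d) ∧ f z ≠ a.1 ∧ f (N a z) ≠ a.1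

private theorem St1_co {κ : Type} [Fintype κ] [Nonempty κ] (i : V) (B : κ → Prop) (S : Finset κ)
    (hS : ∀ x, x ∈ S ↔ B x) : pr (fun ω : V → κ => B (ω i)) = (S.card : ℝ) / Fintype.card κ := by
  rw [pr_co]
  congr 3
  ext x
  rw [mem_filter, hS]
  simp

private theorem St1_ps {B1 : ℕ} [NeZero B1] (a : Fin s × Fin w) (z : V) :
    pr (fun ω : V → Fin B1 × (Fin s × Fin w) => St1_sel ω a z) =
      1 / ((B1 : ℝ) * ((s : ℝ) * (w : ℝ))) := by
  have hne : Nonempty (Fin B1 × (Fin s × Fin w)) := ⟨(0, a)⟩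
  have h1 := St1_co z (fun x : Fin B1 × (Fin s × Fin w) => (x.1 : ℕ) = 0 ∧ x.2 = a) {(0, a)}
    (fun x => by
      rw [mem_singleton, Prod.ext_iff, Fin.ext_iff]
      simp only [Fin.val_zero])
  rw [card_singleton, Fintype.card_prod, Fintype.card_prod, Fintype.card_fin,
    Fintype.card_fin, Fintype.card_fin] at h1
  push_cast at h1
  exact h1

private theorem St1_pn {B1 : ℕ} [NeZero B1] (hsw : 1 ≤ s * w) (z : V) :
    pr (fun ω : V → Fin B1 × (Fin s × Fin w) => ((ω z).1 : ℕ) ≠ 0) = 1 - 1 / (B1 : ℝ) := by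
  have hs : 0 < s := Nat.pos_of_ne_zero (by rintro rfl; simp at hsw)
  have hw : 0 < w := Nat.pos_of_ne_zero (by rintro rfl; simp at hsw)
  have hne : Nonempty (Fin B1 × (Fin s × Fin w)) := ⟨(0, (⟨0, hs⟩, ⟨0, hw⟩))⟩
  have h1 := St1_co z (fun x : Fin B1 × (Fin s × Fin w) => (x.1 : ℕ) = 0)
    (({0} : Finset (Fin B1)) ×ˢ (univ : Finset (Fin s × Fin w)))
    (fun x => by
      rw [mem_product, mem_singleton, Fin.ext_iff]
      simp)
  have h5 : Fintype.card (Fin s × Fin w) = s * w := by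
    rw [Fintype.card_prod, Fintype.card_fin, Fintype.card_fin]
  rw [card_product, card_singleton, Finset.card_univ, Fintype.card_prod (Fin B1), one_mul, h5,
    Fintype.card_fin] at h1
  have h3 := pr_not (fun ω : V → Fin B1 × (Fin s × Fin w) => ((ω z).1 : ℕ) = 0)
  have h4 : ((s * w : ℕ) : ℝ) / ((B1 * (s * w) : ℕ) : ℝ) = 1 / (B1 : ℝ) := by
    have hsw' : ((s * w : ℕ) : ℝ) ≠ 0 := by
      have : s * w ≠ 0 := by omega
      exact_mod_cast this
    rw [Nat.cast_mul B1, div_mul_cancel_right₀ hsw', one_div]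
  rw [h1, h4] at h3
  exact h3

private theorem St1_pi {B1 : ℕ} [NeZero B1] (Δ : ℕ) (hG : Reg G Δ) (hsw : 1 ≤ s * w)
    (hB1 : 2 * Δ ≤ B1) (z : V) :
    1 / 2 ≤ pr (fun ω : V → Fin B1 × (Fin s × Fin w) => St1_iso G ω z) := by
  have hs : 0 < s := Nat.pos_of_ne_zero (by rintro rfl; simp at hsw)
  have hw : 0 < w := Nat.pos_of_ne_zero (by rintro rfl; simp at hsw)
  have hne : Nonempty (Fin B1 × (Fin s × Fin w)) := ⟨(0, (⟨0, hs⟩, ⟨0, hw⟩))⟩
  have h1 := pr_forall (univ.filter (fun u => G.Adj z u))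
    (fun u (ω : V → Fin B1 × (Fin s × Fin w)) => ((ω u).1 : ℕ) ≠ 0) (fun u => {u})
    (fun u _ ω ω' hω => by
      have h2 := hω u (mem_singleton_self _)
      change (((ω u).1 : ℕ) ≠ 0) = (((ω' u).1 : ℕ) ≠ 0)
      rw [h2])
    (fun i _ j _ hij => by rwa [disjoint_singleton])
  have h2 : (fun ω : V → Fin B1 × (Fin s × Fin w) => St1_iso G ω z) =
      (fun ω => ∀ u ∈ univ.filter (fun u => G.Adj z u), ((ω u).1 : ℕ) ≠ 0) := by
    funext ω
    simp only [St1_iso, mem_filter, mem_univ, true_and]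
  rw [h2, h1, prod_congr rfl (fun u _ => St1_pn hsw u), prod_const, hG z]
  have hB : (0 : ℝ) < (B1 : ℝ) := Nat.cast_pos.2 (Nat.pos_of_ne_zero (NeZero.ne B1))
  have hB' : (1 : ℝ) ≤ (B1 : ℝ) := by
    exact_mod_cast (Nat.one_le_iff_ne_zero.2 (NeZero.ne B1))
  have hB2 : (1 : ℝ) / B1 ≤ 1 := by
    rw [div_le_one hB]
    exact hB'
  have h3 := one_add_mul_le_pow (a := -(1 / (B1 : ℝ))) (by linarith) Δ
  have h4 : (2 : ℝ) * Δ ≤ B1 := by exact_mod_cast hB1
  have h5 : (Δ : ℝ) * (1 / B1) ≤ 1 / 2 := by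
    rw [mul_one_div, div_le_div_iff₀ hB two_pos]
    linarith
  have h6 : (1 : ℝ) + -(1 / (B1 : ℝ)) = 1 - 1 / (B1 : ℝ) := by ring
  rw [h6] at h3
  linarith

private theorem St1_pa {B1 : ℕ} [NeZero B1] (Δ : ℕ) (hG : Reg G Δ) (hsw : 1 ≤ s * w)
    (hB1 : 2 * Δ ≤ B1) (a : Fin s × Fin w) (z : V) :
    1 / (2 * ((B1 : ℝ) * ((s : ℝ) * (w : ℝ)))) ≤
      pr (fun ω : V → Fin B1 × (Fin s × Fin w) => St1_sel ω a z ∧ St1_iso G ω z) := by
  have hne : Nonempty (Fin B1 × (Fin s × Fin w)) := ⟨(0, a)⟩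
  have h1 := pr_and (fun ω : V → Fin B1 × (Fin s × Fin w) => St1_sel ω a z)
    (fun ω => St1_iso G ω z) {z} (univ.filter (fun u => G.Adj z u))
    (fun ω ω' hω => by
      have h2 := hω z (mem_singleton_self _)
      change St1_sel ω a z = St1_sel ω' a z
      unfold St1_sel
      rw [h2])
    (fun ω ω' hω => by
      change St1_iso G ω z = St1_iso G ω' z
      unfold St1_iso
      refine forall_congr fun u => ?_
      refine propext (imp_congr_right fun hu => ?_)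
      rw [hω u (mem_filter.2 ⟨mem_univ _, hu⟩)])
    (by
      rw [disjoint_singleton_left, mem_filter]
      rintro ⟨_, h⟩
      exact G.loopless.irrefl z h)
  rw [h1, St1_ps]
  have h2 := St1_pi (s := s) (w := w) (B1 := B1) Δ hG hsw hB1 z
  have h3 : (0 : ℝ) ≤ 1 / ((B1 : ℝ) * ((s : ℝ) * (w : ℝ))) := by positivity
  calc 1 / (2 * ((B1 : ℝ) * ((s : ℝ) * (w : ℝ)))) = 1 / ((B1 : ℝ) * ((s : ℝ) * (w : ℝ))) * (1 / 2) := by
        rw [div_mul_div_comm, one_mul, mul_comm (2 : ℝ)]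
    _ ≤ _ := mul_le_mul_of_nonneg_left h2 h3

private theorem St1_low (ht : TL G 33) (h : IsCol G s w r K side D N R f pb e4 e2 X) (Δ : ℕ)
    (hG : Reg G Δ) (hsw : 1 ≤ s * w) (hr4 : 7 * K * (r : ℝ) ^ 2 + 8 * X * r ^ 3 ≤ (r : ℝ) ^ 4 / 2)
    (B1 : ℕ) [NeZero B1] (hB1 : 2 * Δ ≤ B1) (lam : ℝ)
    (hlow : 64 * lam ≤ (r : ℝ) ^ 4 / (B1 * (s * w))) (a : Fin s × Fin w) (v : V)
    (hv : f v = a.1) :
    pr (fun ω : V → Fin B1 × (Fin s × Fin w) =>
      (((univ.filter (fun g : Fin 4 → Fin r =>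
      Cl (N a) R (fun v => f v = a.1) v g ∧ en (N a) R v g ∉ D ∧
      (∀ d ∈ D, ¬ G.Adj (en (N a) R v g) d) ∧ f (en (N a) R v g) ≠ a.1 ∧
      f (N a (en (N a) R v g)) ≠ a.1)).filter (fun g => St1_A G ω a (en (N a) R v g))).card : ℝ) ≤ (r : ℝ) ^ 4 / (8 * (B1 * (s * w)))) ≤
      Real.exp (-lam) := by
  have hne : Nonempty (Fin B1 × (Fin s × Fin w)) := ⟨(0, a)⟩
  have h1 := gd_cnt ht h hr4 a v hv
  generalize hJ : (univ.filter (fun g : Fin 4 → Fin r =>
      Cl (N a) R (fun v => f v = a.1) v g ∧ en (N a) R v g ∉ D ∧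
      (∀ d ∈ D, ¬ G.Adj (en (N a) R v g) d) ∧ f (en (N a) R v g) ≠ a.1 ∧
      f (N a (en (N a) R v g)) ≠ a.1)) = J at h1 ⊢
  have hm : ∀ g ∈ J, mvg (N a) R g v 4 := by
    intro g hg
    rw [← hJ] at hg
    exact (mem_filter.1 hg).2.1.1
  have h2 := ch_lo J (fun g (ω : V → Fin B1 × (Fin s × Fin w)) => St1_A G ω a (en (N a) R v g))
    (fun g => bl G (en (N a) R v g) 1)
    (fun g _ ω ω' hω => by
      have h3 : ω (en (N a) R v g) = ω' (en (N a) R v g) := hω _ (bl_self G _ 1)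
      have h4 : ∀ u, G.Adj (en (N a) R v g) u → ω u = ω' u := fun u hu =>
        hω u (bl_adj G (bl_self G _ 0) hu)
      change St1_A G ω a (en (N a) R v g) = St1_A G ω' a (en (N a) R v g)
      unfold St1_A St1_sel St1_iso
      rw [h3]
      refine congrArg _ (forall_congr fun u => ?_)
      refine propext (imp_congr_right fun hu => ?_)
      rw [h4 u hu])
    (fun i hi j hj hij => en_dis ht h.base a v i j (hm i hi) (hm j hj) hij)
    (fun _ => 1 / (2 * ((B1 : ℝ) * ((s : ℝ) * (w : ℝ)))))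
    (fun _ _ => by positivity) (fun g _ => St1_pa Δ hG hsw hB1 a _)
    ((r : ℝ) ^ 4 / (4 * ((B1 : ℝ) * ((s : ℝ) * (w : ℝ)))))
    (by
      rw [sum_const, nsmul_eq_mul]
      have h5 : (0 : ℝ) ≤ 1 / (2 * ((B1 : ℝ) * ((s : ℝ) * (w : ℝ)))) := by positivity
      calc (r : ℝ) ^ 4 / (4 * ((B1 : ℝ) * ((s : ℝ) * (w : ℝ)))) =
          (r : ℝ) ^ 4 / 2 * (1 / (2 * ((B1 : ℝ) * ((s : ℝ) * (w : ℝ))))) := by
            rw [div_mul_div_comm, mul_one]
            congr 1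
            ring
        _ ≤ _ := mul_le_mul_of_nonneg_right h1 h5)
  have e1 : (r : ℝ) ^ 4 / (4 * ((B1 : ℝ) * ((s : ℝ) * (w : ℝ)))) / 2 =
      (r : ℝ) ^ 4 / (8 * ((B1 : ℝ) * ((s : ℝ) * (w : ℝ)))) := by
    rw [div_div, mul_right_comm]
    norm_num
  have e2 : (r : ℝ) ^ 4 / (4 * ((B1 : ℝ) * ((s : ℝ) * (w : ℝ)))) / 16 =
      (r : ℝ) ^ 4 / ((B1 : ℝ) * ((s : ℝ) * (w : ℝ))) / 64 := by
    rw [div_div, div_div, mul_right_comm, mul_comm (_ : ℝ) 64]
    norm_num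
  rw [e1, e2] at h2
  refine h2.trans (Real.exp_le_exp.2 ?_)
  linarith

private theorem St1_upp (ht : TL G 33) (h : IsBase G s w r K side D N R) (B1 : ℕ) [NeZero B1]
    (lam : ℝ) (hlam : 0 ≤ lam) (a : Fin s × Fin w) (v : V) :
    pr (fun ω : V → Fin B1 × (Fin s × Fin w) =>
      3 * ((r : ℝ) ^ 4 / (B1 * (s * w))) + 2 * lam ≤
      (((univ.filter (fun g : Fin 4 → Fin r => mvg (N a) R g v 4)).filter
        (fun g => St1_sel ω a (en (N a) R v g))).card : ℝ)) ≤ Real.exp (-lam) := by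
  have hne : Nonempty (Fin B1 × (Fin s × Fin w)) := ⟨(0, a)⟩
  refine ch_up _ (fun g (ω : V → Fin B1 × (Fin s × Fin w)) => St1_sel ω a (en (N a) R v g))
    (fun g => {en (N a) R v g}) (fun g _ ω ω' hω => ?_) (fun g hg g' hg' hne => ?_)
    (fun _ => 1 / ((B1 : ℝ) * ((s : ℝ) * (w : ℝ)))) (fun g _ => (St1_ps a _).le) _ lam ?_ hlam
  · have h3 : ω (en (N a) R v g) = ω' (en (N a) R v g) := hω _ (mem_singleton_self _)
    change St1_sel ω a (en (N a) R v g) = St1_sel ω' a (en (N a) R v g)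
    unfold St1_sel
    rw [h3]
  · rw [disjoint_singleton]
    intro he
    apply hne
    have h3 : xs (N a) R g v 4 = xs (N a) R g' v 4 := by
      have h4 := congrArg (N a) he
      unfold en at h4
      rwa [h.invN, h.invN] at h4
    have h4 := (wk_inj ht (isb_wk h a) g g' v 4 le_rfl (mem_filter.1 hg).2 (mem_filter.1 hg').2
      h3).1
    funext i
    have h5 := h4 i.1 i.2
    have h6 : Fin.ofNat 4 i.1 = i := by
      apply Fin.ext
      exact Nat.mod_eq_of_lt i.2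
    rwa [h6] at h5
  · rw [sum_const, nsmul_eq_mul]
    have h7 : (univ.filter (fun g : Fin 4 → Fin r => mvg (N a) R g v 4)).card ≤ r ^ 4 := by
      refine (card_le_univ _).trans ?_
      rw [Fintype.card_fun, Fintype.card_fin, Fintype.card_fin]
    have h8 : (((univ.filter (fun g : Fin 4 → Fin r => mvg (N a) R g v 4)).card : ℕ) : ℝ) ≤
        (r : ℝ) ^ 4 := by
      exact_mod_cast h7
    have h9 : (0 : ℝ) ≤ 1 / ((B1 : ℝ) * ((s : ℝ) * (w : ℝ))) := by positivity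
    exact (mul_le_mul_of_nonneg_right h8 h9).trans (le_of_eq (mul_one_div _ _))

private theorem St1_fr2 (h : IsBase G s w r K side D N R) (B1 : ℕ) [NeZero B1]
    (hr1 : r ≤ B1 * (s * w)) (lam : ℝ) (hlam : 0 ≤ lam) (a : Fin s × Fin w) (v : V) :
    pr (fun ω : V → Fin B1 × (Fin s × Fin w) => 3 * (1 : ℝ) + 2 * lam ≤
      (((univ.filter (fun ρ : Fin r => R ρ v ≠ v)).filter
        (fun ρ => St1_sel ω a (N a (R ρ v)))).card : ℝ)) ≤ Real.exp (-lam) := by
  have hne : Nonempty (Fin B1 × (Fin s × Fin w)) := ⟨(0, a)⟩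
  refine ch_up _ (fun ρ (ω : V → Fin B1 × (Fin s × Fin w)) => St1_sel ω a (N a (R ρ v)))
    (fun ρ => {N a (R ρ v)}) (fun ρ _ ω ω' hω => ?_) (fun ρ hρ σ hσ hne => ?_)
    (fun _ => 1 / ((B1 : ℝ) * ((s : ℝ) * (w : ℝ)))) (fun g _ => (St1_ps a _).le) _ lam ?_ hlam
  · have h3 : ω (N a (R ρ v)) = ω' (N a (R ρ v)) := hω _ (mem_singleton_self _)
    change St1_sel ω a (N a (R ρ v)) = St1_sel ω' a (N a (R ρ v))
    unfold St1_sel
    rw [h3]
  · rw [disjoint_singleton]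
    intro he
    have h3 := congrArg (N a) he
    rw [h.invN, h.invN] at h3
    exact h.disR ρ σ v hne (mem_filter.1 hρ).2 h3
  · rw [sum_const, nsmul_eq_mul]
    have h7 : (univ.filter (fun ρ : Fin r => R ρ v ≠ v)).card ≤ B1 * (s * w) := by
      refine (card_le_univ _).trans ?_
      rwa [Fintype.card_fin]
    have h8 : (((univ.filter (fun ρ : Fin r => R ρ v ≠ v)).card : ℕ) : ℝ) ≤
        (B1 : ℝ) * ((s : ℝ) * (w : ℝ)) := by
      exact_mod_cast h7
    rw [mul_one_div]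
    exact div_le_one_of_le₀ h8 (by positivity)

private theorem St1_fr3 (h : IsBase G s w r K side D N R) (hsw : 1 ≤ s * w) (B1 : ℕ) [NeZero B1]
    (lam : ℝ) (hlam : 0 ≤ lam) (v : V) :
    pr (fun ω : V → Fin B1 × (Fin s × Fin w) => 3 * (1 : ℝ) + 2 * lam ≤
      (((univ.filter (fun a : Fin s × Fin w => N a v ≠ v)).filter
        (fun a => St1_sel ω a (N a v))).card : ℝ)) ≤ Real.exp (-lam) := by
  have hs : 0 < s := Nat.pos_of_ne_zero (by rintro rfl; simp at hsw)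
  have hw : 0 < w := Nat.pos_of_ne_zero (by rintro rfl; simp at hsw)
  have hne : Nonempty (Fin B1 × (Fin s × Fin w)) := ⟨(0, (⟨0, hs⟩, ⟨0, hw⟩))⟩
  refine ch_up _ (fun a (ω : V → Fin B1 × (Fin s × Fin w)) => St1_sel ω a (N a v))
    (fun a => {N a v}) (fun a _ ω ω' hω => ?_) (fun a ha b hb hne => ?_)
    (fun _ => 1 / ((B1 : ℝ) * ((s : ℝ) * (w : ℝ)))) (fun a _ => (St1_ps a _).le) _ lam ?_ hlam
  · have h3 : ω (N a v) = ω' (N a v) := hω _ (mem_singleton_self _)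
    change St1_sel ω a (N a v) = St1_sel ω' a (N a v)
    unfold St1_sel
    rw [h3]
  · rw [disjoint_singleton]
    exact h.disN a b v hne (mem_filter.1 ha).2
  · rw [sum_const, nsmul_eq_mul]
    have hB' : 1 ≤ B1 := Nat.one_le_iff_ne_zero.2 (NeZero.ne B1)
    have h7 : (univ.filter (fun a : Fin s × Fin w => N a v ≠ v)).card ≤ B1 * (s * w) := by
      refine (card_le_univ _).trans ?_
      rw [Fintype.card_prod, Fintype.card_fin, Fintype.card_fin]
      exact Nat.le_mul_of_pos_left _ hB'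
    have h8 : (((univ.filter (fun a : Fin s × Fin w => N a v ≠ v)).card : ℕ) : ℝ) ≤
        (B1 : ℝ) * ((s : ℝ) * (w : ℝ)) := by
      exact_mod_cast h7
    rw [mul_one_div]
    exact div_le_one_of_le₀ h8 (by positivity)

/-- the bad event at `v` -/
def St1_E (G : SimpleGraph V) (D : Finset V) (N : Fin s × Fin w → V → V) (R : Fin r → V → V)
    (f : V → Fin s) (B1 : ℕ) (lam : ℝ) (v : V) (ω : V → Fin B1 × (Fin s × Fin w)) : Prop :=
  ((∃ a ∈ (univ : Finset (Fin s × Fin w)), f v = a.1 ∧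
    (((univ.filter (fun g : Fin 4 → Fin r =>
      Cl (N a) R (fun v => f v = a.1) v g ∧ en (N a) R v g ∉ D ∧
      (∀ d ∈ D, ¬ G.Adj (en (N a) R v g) d) ∧ f (en (N a) R v g) ≠ a.1 ∧
      f (N a (en (N a) R v g)) ≠ a.1)).filter (fun g => St1_A G ω a (en (N a) R v g))).card : ℝ) ≤ (r : ℝ) ^ 4 / (8 * (B1 * (s * w)))) ∨
  ∃ a ∈ (univ : Finset (Fin s × Fin w)), 3 * ((r : ℝ) ^ 4 / (B1 * (s * w))) + 2 * lam ≤
      (((univ.filter (fun g : Fin 4 → Fin r => mvg (N a) R g v 4)).filter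
        (fun g => St1_sel ω a (en (N a) R v g))).card : ℝ)) ∨
  ((∃ a ∈ (univ : Finset (Fin s × Fin w)), 3 * (1 : ℝ) + 2 * lam ≤
      (((univ.filter (fun ρ : Fin r => R ρ v ≠ v)).filter
        (fun ρ => St1_sel ω a (N a (R ρ v)))).card : ℝ)) ∨
  3 * (1 : ℝ) + 2 * lam ≤
      (((univ.filter (fun a : Fin s × Fin w => N a v ≠ v)).filter
        (fun a => St1_sel ω a (N a v))).card : ℝ))

private theorem St1_pE (ht : TL G 33) (h : IsCol G s w r K side D N R f pb e4 e2 X) (Δ : ℕ)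
    (hG : Reg G Δ) (hsw : 1 ≤ s * w) (hr4 : 7 * K * (r : ℝ) ^ 2 + 8 * X * r ^ 3 ≤ (r : ℝ) ^ 4 / 2)
    (B1 : ℕ) [NeZero B1] (hB1 : 2 * Δ ≤ B1) (hr1 : r ≤ B1 * (s * w)) (lam : ℝ) (hlam : 0 ≤ lam)
    (hlow : 64 * lam ≤ (r : ℝ) ^ 4 / (B1 * (s * w))) (v : V) :
    pr (St1_E G D N R f B1 lam v) ≤ (3 * (s * w) + 1) * Real.exp (-lam) := by
  have hc : (((univ : Finset (Fin s × Fin w)).card : ℕ) : ℝ) = (s : ℝ) * (w : ℝ) := by
    rw [Finset.card_univ, Fintype.card_prod, Fintype.card_fin, Fintype.card_fin]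
    push_cast
    rfl
  have i1 := pr_ex (univ : Finset (Fin s × Fin w))
    (fun a (ω : V → Fin B1 × (Fin s × Fin w)) => f v = a.1 ∧
    (((univ.filter (fun g : Fin 4 → Fin r =>
      Cl (N a) R (fun v => f v = a.1) v g ∧ en (N a) R v g ∉ D ∧
      (∀ d ∈ D, ¬ G.Adj (en (N a) R v g) d) ∧ f (en (N a) R v g) ≠ a.1 ∧
      f (N a (en (N a) R v g)) ≠ a.1)).filter (fun g => St1_A G ω a (en (N a) R v g))).card : ℝ) ≤ (r : ℝ) ^ 4 / (8 * (B1 * (s * w))))
    (Real.exp (-lam)) (fun a _ => by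
      by_cases ha : f v = a.1
      · exact (pr_mono fun ω hω => hω.2).trans
          (St1_low ht h Δ hG hsw hr4 B1 hB1 lam hlow a v ha)
      · have h0 : pr (fun ω : V → Fin B1 × (Fin s × Fin w) => f v = a.1 ∧
            (((univ.filter (fun g : Fin 4 → Fin r =>
            Cl (N a) R (fun v => f v = a.1) v g ∧ en (N a) R v g ∉ D ∧
            (∀ d ∈ D, ¬ G.Adj (en (N a) R v g) d) ∧ f (en (N a) R v g) ≠ a.1 ∧
            f (N a (en (N a) R v g)) ≠ a.1)).filter (fun g => St1_A G ω a (en (N a) R v g))).card : ℝ) ≤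
            (r : ℝ) ^ 4 / (8 * (B1 * (s * w)))) ≤
            pr (fun _ : V → Fin B1 × (Fin s × Fin w) => False) :=
          pr_mono fun ω hω => ha hω.1
        refine h0.trans ?_
        have h1 : pr (fun _ : V → Fin B1 × (Fin s × Fin w) => False) = 0 := by
          unfold pr
          rw [filter_false, card_empty, Nat.cast_zero, zero_div]
        rw [h1]
        exact (Real.exp_pos _).le)
  have i2 := pr_ex (univ : Finset (Fin s × Fin w))
    (fun a (ω : V → Fin B1 × (Fin s × Fin w)) =>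
      3 * ((r : ℝ) ^ 4 / (B1 * (s * w))) + 2 * lam ≤
      (((univ.filter (fun g : Fin 4 → Fin r => mvg (N a) R g v 4)).filter
        (fun g => St1_sel ω a (en (N a) R v g))).card : ℝ))
    (Real.exp (-lam)) (fun a _ => St1_upp ht h.base B1 lam hlam a v)
  have i3 := pr_ex (univ : Finset (Fin s × Fin w))
    (fun a (ω : V → Fin B1 × (Fin s × Fin w)) => 3 * (1 : ℝ) + 2 * lam ≤
      (((univ.filter (fun ρ : Fin r => R ρ v ≠ v)).filter
        (fun ρ => St1_sel ω a (N a (R ρ v)))).card : ℝ))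
    (Real.exp (-lam)) (fun a _ => St1_fr2 h.base B1 hr1 lam hlam a v)
  have i4 := St1_fr3 h.base hsw B1 lam hlam v
  rw [hc] at i1 i2 i3
  unfold St1_E
  refine (pr_or _ _).trans ?_
  have j1 := (pr_or (fun ω : V → Fin B1 × (Fin s × Fin w) =>
    ∃ a ∈ (univ : Finset (Fin s × Fin w)), f v = a.1 ∧
    (((univ.filter (fun g : Fin 4 → Fin r =>
      Cl (N a) R (fun v => f v = a.1) v g ∧ en (N a) R v g ∉ D ∧
      (∀ d ∈ D, ¬ G.Adj (en (N a) R v g) d) ∧ f (en (N a) R v g) ≠ a.1 ∧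
      f (N a (en (N a) R v g)) ≠ a.1)).filter (fun g => St1_A G ω a (en (N a) R v g))).card : ℝ) ≤ (r : ℝ) ^ 4 / (8 * (B1 * (s * w))))
    (fun ω => ∃ a ∈ (univ : Finset (Fin s × Fin w)),
      3 * ((r : ℝ) ^ 4 / (B1 * (s * w))) + 2 * lam ≤
      (((univ.filter (fun g : Fin 4 → Fin r => mvg (N a) R g v 4)).filter
        (fun g => St1_sel ω a (en (N a) R v g))).card : ℝ))).trans (add_le_add i1 i2)
  have j2 := (pr_or (fun ω : V → Fin B1 × (Fin s × Fin w) =>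
    ∃ a ∈ (univ : Finset (Fin s × Fin w)), 3 * (1 : ℝ) + 2 * lam ≤
      (((univ.filter (fun ρ : Fin r => R ρ v ≠ v)).filter
        (fun ρ => St1_sel ω a (N a (R ρ v)))).card : ℝ))
    (fun ω => 3 * (1 : ℝ) + 2 * lam ≤
      (((univ.filter (fun a : Fin s × Fin w => N a v ≠ v)).filter
        (fun a => St1_sel ω a (N a v))).card : ℝ))).trans (add_le_add i3 i4)
  refine (add_le_add j1 j2).trans (le_of_eq ?_)
  ring

private theorem St1_cgr {B1 : ℕ} {ω ω' : V → Fin B1 × (Fin s × Fin w)} {v : V}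
    (h : ∀ i ∈ bl G v 10, ω i = ω' i) (a : Fin s × Fin w) (z : V) (hz : z ∈ bl G v 9) :
    (St1_sel ω a z ↔ St1_sel ω' a z) ∧ (St1_iso G ω z ↔ St1_iso G ω' z) := by
  constructor
  · unfold St1_sel
    rw [h z (bl_mono G v (by norm_num) hz)]
  · unfold St1_iso
    refine forall_congr' fun u => imp_congr_right fun hu => ?_
    rw [h u (bl_adj G hz hu)]

private theorem St1_imp (h : IsBase G s w r K side D N R) {B1 : ℕ} {lam : ℝ} {v : V}
    {ω ω' : V → Fin B1 × (Fin s × Fin w)} (hω : ∀ i ∈ bl G v 10, ω i = ω' i)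
    (hE : St1_E G D N R f B1 lam v ω) : St1_E G D N R f B1 lam v ω' := by
  have hen : ∀ a (g : Fin 4 → Fin r), en (N a) R v g ∈ bl G v 9 := fun a g =>
    (wk_bl (isb_wk h a) g v 4).2
  have hN : ∀ a (z : V) (k : ℕ), z ∈ bl G v k → N a z ∈ bl G v (k + 1) := by
    intro a z k hz
    by_cases h1 : N a z = z
    · rw [h1]
      exact bl_mono G v (Nat.le_succ k) hz
    · exact bl_adj G hz (h.adjN a z h1)
  have hR : ∀ ρ (z : V) (k : ℕ), z ∈ bl G v k → R ρ z ∈ bl G v (k + 1) := by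
    intro ρ z k hz
    by_cases h1 : R ρ z = z
    · rw [h1]
      exact bl_mono G v (Nat.le_succ k) hz
    · exact bl_adj G hz (h.adjR ρ z h1)
  rcases hE with (⟨a, ha, hfv, hE⟩ | ⟨a, ha, hE⟩) | (⟨a, ha, hE⟩ | hE)
  · refine Or.inl (Or.inl ⟨a, ha, hfv, ?_⟩)
    refine le_trans (le_of_eq ?_) hE
    congr 2
    refine filter_congr fun g _ => ?_
    have h1 := St1_cgr hω a _ (hen a g)
    unfold St1_A
    rw [h1.1, h1.2]
  · refine Or.inl (Or.inr ⟨a, ha, ?_⟩)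
    refine le_trans hE (le_of_eq ?_)
    congr 2
    refine filter_congr fun g _ => ?_
    exact (St1_cgr hω a _ (hen a g)).1
  · refine Or.inr (Or.inl ⟨a, ha, ?_⟩)
    refine le_trans hE (le_of_eq ?_)
    congr 2
    refine filter_congr fun ρ _ => ?_
    exact (St1_cgr hω a _ (bl_mono G v (by norm_num) (hN a _ 1 (hR ρ v 0 (bl_self G v 0))))).1
  · refine Or.inr (Or.inr ?_)
    refine le_trans hE (le_of_eq ?_)
    congr 2
    refine filter_congr fun a _ => ?_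
    exact (St1_cgr hω a _ (bl_mono G v (by norm_num) (hN a v 0 (bl_self G v 0)))).1

theorem st1 (ht : TL G 33) (h : IsCol G s w r K side D N R f pb e4 e2 X) (Δ : ℕ)
    (hG : Reg G Δ) (hsw : 1 ≤ s * w) (hr4 : 7 * K * (r : ℝ) ^ 2 + 8 * X * r ^ 3 ≤ (r : ℝ) ^ 4 / 2)
    (B1 : ℕ) [NeZero B1] (hB1 : 2 * Δ ≤ B1) (hr1 : r ≤ B1 * (s * w)) (lam : ℝ) (hlam : 0 ≤ lam)
    (hlow : 64 * lam ≤ (r : ℝ) ^ 4 / (B1 * (s * w)))
    (hlll : 4 * ((3 * (s * w) + 1) * Real.exp (-lam)) * ((Δ : ℝ) + 1) ^ (2 * 10) ≤ 1) :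
    ∃ Q : Fin s × Fin w → V → Prop, IsRes G D N R f Q ((r : ℝ) ^ 4 / (8 * (B1 * (s * w))))
      (3 * ((r : ℝ) ^ 4 / (B1 * (s * w))) + 2 * lam) (4 + 2 * lam) := by
  have hs : 0 < s := Nat.pos_of_ne_zero (by rintro rfl; simp at hsw)
  have hw : 0 < w := Nat.pos_of_ne_zero (by rintro rfl; simp at hsw)
  have hne : Nonempty (Fin B1 × (Fin s × Fin w)) := ⟨(0, (⟨0, hs⟩, ⟨0, hw⟩))⟩
  obtain ⟨ω, hω⟩ := lll_loc (κ := Fin B1 × (Fin s × Fin w)) G Δ hG (fun v : V => v) 10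
    (fun v ω => St1_E G D N R f B1 lam v ω)
    (fun v ω ω' h1 => by
      have h2 : ∀ i ∈ bl G v 10, ω i = ω' i := fun i hi => h1 i (mem_filter.2 ⟨mem_univ _, hi⟩)
      exact propext ⟨St1_imp h.base h2, St1_imp h.base fun i hi => (h2 i hi).symm⟩)
    ((3 * (s * w) + 1) * Real.exp (-lam)) (by positivity)
    (fun v => St1_pE ht h Δ hG hsw hr4 B1 hB1 hr1 lam hlam hlow v) hlll
  unfold St1_E at hω
  push Not at hω
  refine ⟨fun a z => St1_Q G D N f ω a z, ?_⟩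
  refine ⟨?_, ?_, ?_, ?_, ?_, ?_, ?_, ?_⟩
  · intro a b v ha hb
    exact ha.1.1.2.symm.trans hb.1.1.2
  · intro a b u v ha hb huv
    exact hb.1.2 u huv.symm ha.1.1.1
  · intro a v ha
    exact ⟨ha.2.1, ha.2.2.1⟩
  · intro a v ha
    exact ha.2.2.2
  · intro a v hv
    have h1 := (hω v).1.1 a (mem_univ _) hv
    refine h1.le.trans ?_
    refine Nat.cast_le.2 (card_le_card ?_)
    intro g hg
    rw [mem_filter, mem_filter] at hg
    exact mem_filter.2 ⟨mem_univ _, hg.1.2.1, hg.2, hg.1.2.2⟩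
  · intro a v
    have h1 := (hω v).1.2 a (mem_univ _)
    refine le_trans ?_ h1.le
    refine Nat.cast_le.2 (card_le_card ?_)
    intro g hg
    rw [mem_filter] at hg
    exact mem_filter.2 ⟨mem_filter.2 ⟨mem_univ _, hg.2.1⟩, hg.2.2.1.1⟩
  · intro v a
    have h1 := (hω v).2.1 a (mem_univ _)
    have h2 : (univ.filter (fun ρ : Fin r => R ρ v = v)).card ≤ 1 := by
      have h3 := h.base.on v
      omega
    have h3 : univ.filter (fun ρ : Fin r => St1_Q G D N f ω a (N a (R ρ v))) ⊆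
        univ.filter (fun ρ : Fin r => R ρ v = v) ∪
        (univ.filter (fun ρ : Fin r => R ρ v ≠ v)).filter
        (fun ρ => St1_sel ω a (N a (R ρ v))) := by
      intro ρ hρ
      rw [mem_filter] at hρ
      rw [mem_union, mem_filter, mem_filter, mem_filter]
      by_cases h4 : R ρ v = v
      · exact Or.inl ⟨mem_univ _, h4⟩
      · exact Or.inr ⟨⟨mem_univ _, h4⟩, hρ.2.1.1⟩
    have h4 := (card_le_card h3).trans (card_union_le _ _)
    have h5 := (Nat.cast_le (α := ℝ)).2 h4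
    have h6 := (Nat.cast_le (α := ℝ)).2 h2
    push_cast at h5 h6
    linarith
  · intro v
    have h1 := (hω v).2.2
    have h2 : (univ.filter (fun a => N a v = v)).card ≤ 1 := by
      have h3 := h.base.on v
      omega
    have h3 : univ.filter (fun a : Fin s × Fin w => St1_Q G D N f ω a (N a v)) ⊆
        univ.filter (fun a => N a v = v) ∪
        (univ.filter (fun a : Fin s × Fin w => N a v ≠ v)).filter
        (fun a => St1_sel ω a (N a v)) := by
      intro a ha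
      rw [mem_filter] at ha
      rw [mem_union, mem_filter, mem_filter, mem_filter]
      by_cases h4 : N a v = v
      · exact Or.inl ⟨mem_univ _, h4⟩
      · exact Or.inr ⟨⟨mem_univ _, h4⟩, ha.2.1.1⟩
    have h4 := (card_le_card h3).trans (card_union_le _ _)
    have h5 := (Nat.cast_le (α := ℝ)).2 h4
    have h6 := (Nat.cast_le (α := ℝ)).2 h2
    push_cast at h5 h6
    linarith

end

end Pool.Agent.H65.GI
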