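/-
ROW Bdl. Locality of the local failures.
PROOF. An edge `e ∈ inc S v` has `lf e ∈ bl G v 9` (`lf e = v`, or `rt e = v ∈ bl G (lf e) 9` and `bl_symm`), and `oth S v e ∈ bl G v 9`. So `dn S k v` and `rd S k v` depend on `k e` for the `e` with `lf e ∈ bl G v 9`; `n2 S k v = ∑ rd (oth v e)`: `bl G v 18`; `qe` at a vertex `u`: `bl G u 9`; `av w e`: the edges at `w` (`bl G w 9`) and `dn` at the
other ends `u ∈ bl G w 9`: `bl G w 18`; `res v = ∑ av (oth v e) e`: `w ∈ bl G v 9`: `bl G v 27` (`bl_bl`, `bl_mono`). Prove the congruences one after the other (`Finset.filter_congr`, `Finset.sum_congr`).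
-/
import Pool.Agent.H65.GI.SDefs
import Pool.Agent.H65.GI.Lll

set_option autoImplicit false

namespace Pool.Agent.H65.GI

open Finset Classical

section
variable {X E : Type} [Fintype X] [Fintype E] (G : SimpleGraph X) (S : Bip X E)

theorem Bdl_lf (hnear : ∀ e, S.rt e ∈ bl G (S.lf e) 9) {v : X} {e : E} (he : e ∈ inc S v) :
    S.lf e ∈ bl G v 9 := by
  rcases (mem_filter.1 he).2 with h | h
  · rw [h]
    exact bl_self G v 9
  · have h1 := hnear e
    rw [h] at h1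
    exact bl_symm G h1

theorem Bdl_oth (hnear : ∀ e, S.rt e ∈ bl G (S.lf e) 9) {v : X} {e : E} (he : e ∈ inc S v) :
    oth S v e ∈ bl G v 9 := by
  unfold oth
  by_cases h : S.lf e = v
  · rw [if_pos h]
    have h1 := hnear e
    rw [h] at h1
    exact h1
  · rw [if_neg h]
    exact Bdl_lf G S hnear he

theorem Bdl_fN (hnear : ∀ e, S.rt e ∈ bl G (S.lf e) 9) (k k' : E → Prop) {v u : X} {i j : ℕ}
    (h : ∀ e, S.lf e ∈ bl G v j → (k e ↔ k' e)) (hu : u ∈ bl G v i) (hij : i + 9 ≤ j) :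
    (inN S u).filter (fun e => k e) = (inN S u).filter (fun e => k' e) := by
  apply filter_congr
  intro e he
  exact h e (bl_mono G v hij (bl_bl G hu (Bdl_lf G S hnear (mem_filter.1 he).1)))

theorem Bdl_fR (hnear : ∀ e, S.rt e ∈ bl G (S.lf e) 9) (k k' : E → Prop) {v u : X} {i j : ℕ}
    (h : ∀ e, S.lf e ∈ bl G v j → (k e ↔ k' e)) (hu : u ∈ bl G v i) (hij : i + 9 ≤ j) :
    (inR S u).filter (fun e => k e) = (inR S u).filter (fun e => k' e) := by
  apply filter_congr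
  intro e he
  exact h e (bl_mono G v hij (bl_bl G hu (Bdl_lf G S hnear (mem_filter.1 he).1)))

theorem Bdl_dn (hnear : ∀ e, S.rt e ∈ bl G (S.lf e) 9) (k k' : E → Prop) {v u : X} {i j : ℕ}
    (h : ∀ e, S.lf e ∈ bl G v j → (k e ↔ k' e)) (hu : u ∈ bl G v i) (hij : i + 9 ≤ j) :
    dn S k u = dn S k' u := by
  unfold dn
  rw [Bdl_fN G S hnear k k' h hu hij]

theorem Bdl_rd (hnear : ∀ e, S.rt e ∈ bl G (S.lf e) 9) (k k' : E → Prop) {v u : X} {i j : ℕ}
    (h : ∀ e, S.lf e ∈ bl G v j → (k e ↔ k' e)) (hu : u ∈ bl G v i) (hij : i + 9 ≤ j) :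
    rd S k u = rd S k' u := by
  unfold rd
  rw [Bdl_fR G S hnear k k' h hu hij]

theorem Bdl_n2 (hnear : ∀ e, S.rt e ∈ bl G (S.lf e) 9) (k k' : E → Prop) {v u : X} {i j : ℕ}
    (h : ∀ e, S.lf e ∈ bl G v j → (k e ↔ k' e)) (hu : u ∈ bl G v i) (hij : i + 18 ≤ j) :
    n2 S k u = n2 S k' u := by
  unfold n2
  rw [Bdl_fN G S hnear k k' h hu (by omega)]
  apply sum_congr rfl
  intro e he
  have he1 : e ∈ inc S u := (mem_filter.1 (mem_filter.1 he).1).1
  exact Bdl_rd G S hnear k k' h (bl_bl G hu (Bdl_oth G S hnear he1)) (by omega)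

theorem Bdl_qe (hnear : ∀ e, S.rt e ∈ bl G (S.lf e) 9) (k k' : E → Prop) (D : ℝ)
    {v u : X} {i j : ℕ}
    (h : ∀ e, S.lf e ∈ bl G v j → (k e ↔ k' e)) (hu : u ∈ bl G v i) (hij : i + 9 ≤ j) :
    qe S k D u = qe S k' D u := by
  unfold qe
  rw [Bdl_dn G S hnear k k' h hu hij]

theorem Bdl_av (hnear : ∀ e, S.rt e ∈ bl G (S.lf e) 9) (k k' : E → Prop) (D : ℝ) (e : E)
    {v u : X} {i j : ℕ}
    (h : ∀ e, S.lf e ∈ bl G v j → (k e ↔ k' e)) (hu : u ∈ bl G v i) (hij : i + 18 ≤ j) :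
    av S k D u e = av S k' D u e := by
  unfold av
  rw [Bdl_fN G S hnear k k' h hu (by omega), Bdl_dn G S hnear k k' h hu (by omega)]
  congr 1
  apply sum_congr rfl
  intro f hf
  have he1 : f ∈ inc S u := (mem_filter.1 (mem_filter.1 (mem_of_mem_erase hf)).1).1
  exact Bdl_qe G S hnear k k' D h (bl_bl G hu (Bdl_oth G S hnear he1)) (by omega)

theorem Bdl_res (hnear : ∀ e, S.rt e ∈ bl G (S.lf e) 9) (k k' : E → Prop) (D : ℝ)
    {v u : X} {i j : ℕ}
    (h : ∀ e, S.lf e ∈ bl G v j → (k e ↔ k' e)) (hu : u ∈ bl G v i) (hij : i + 27 ≤ j) :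
    res S k D u = res S k' D u := by
  unfold res
  rw [Bdl_fN G S hnear k k' h hu (by omega)]
  apply sum_congr rfl
  intro e he
  have he1 : e ∈ inc S u := (mem_filter.1 (mem_filter.1 he).1).1
  exact Bdl_av G S hnear k k' D e h (bl_bl G hu (Bdl_oth G S hnear he1)) (by omega)

end

theorem bad_loc {X E : Type} [Fintype X] [Fintype E] (G : SimpleGraph X) (S : Bip X E)
    (hnear : ∀ e, S.rt e ∈ bl G (S.lf e) 9) (k k' : E → Prop) (D lam ρ ν : ℝ) (v : X)
    (h : ∀ e, S.lf e ∈ bl G v 27 → (k e ↔ k' e)) :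
    Bad S k D lam ρ ν v ↔ Bad S k' D lam ρ ν v := by
  have h0 : v ∈ bl G v 0 := bl_self G v 0
  unfold Bad
  rw [Bdl_dn G S hnear k k' h h0 (by omega), Bdl_rd G S hnear k k' h h0 (by omega),
    Bdl_n2 G S hnear k k' h h0 (by omega), Bdl_res G S hnear k k' D h h0 (by omega)]

end Pool.Agent.H65.GI
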