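/-
ROW St2. Second stage: sampling and conflict resolution with the local lemma.
PROOF. Coins `ω : Jx E C → Fin M × Bool`, location of the coin `(e, o)`: `(S e.1).lf e.2`. Event at `v`: (i) `∃ a, Bad (S a) (fun e => kp cf ω ⟨a, e⟩) D lam ρ ν v`; (ii) `∃ a e, (S a).lf e = v ∧ C + 1 ≤ (cfs cf ω ⟨a, e⟩).card`; (iii) `∃ a, 3 * (nm / B) + 2 * lam ≤ #{e : md a v e ∧ kp cf ω ⟨a,e⟩}`.
Locality, radius `45`: `kp_loc`: `kp cf ω ⟨a,e⟩` looks at the coins located in `bl G (lf e) 18` (`hcn`; and at the coins of `e` itself); (i) by `bad_loc` only `e` with `lf e ∈ bl G v 27` matter: `27 + 18 = 45`; (ii) `cfs_loc`, `18`; (iii) `lf e ∈ bl G v 9` (`hmd`): `27`.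
Probability: (i) for each `a` by `law` with `Φ k = Bad (S a) k D lam ρ ν v` and `hp1`: `≤ p1`; sum over `a`: `|P| p1`. (ii) `cfs_few`: `(nc/M)^(C+1)` for each of the `≤ |P| nE` gadgets. (iii) `law` with `Φ k = (3 (nm/B) + 2 lam ≤ #{e : md a v e ∧ k e})`; in the model `E a → Fin B`: `ch_up` with `J = {e : md a v e}` (`#J ≤ nm`), events `kc ω e`
(`kc_pr`: `1/B`), `μ = nm/B`: `≤ exp (-lam)`. Union bounds: `pr_or`, `pr_ex`. `lll_loc` gives `ω`; `k a e := kp cf ω ⟨a, e⟩`; exclusivity by `kp_excl` ((ii) fails at all vertices, so `(cfs ..).card ≤ C` for all gadgets).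
-/
import Pool.Agent.H65.GI.Law
import Pool.Agent.H65.GI.Kpl
import Pool.Agent.H65.GI.Bdl

set_option autoImplicit false

namespace Pool.Agent.H65.GI

open Finset Classical

theorem st2 {V P : Type} [Fintype V] [Fintype P] (G : SimpleGraph V) (Δ : ℕ) (hG : Reg G Δ)
    (E : P → Type) [∀ a, Fintype (E a)] (S : ∀ a, Bip V (E a)) (cf : AE E → AE E → Prop)
    (hcs : ∀ e e', cf e e' → cf e' e) (hcf : ∀ e e', cf e e' → e.1 ≠ e'.1)
    (hnear : ∀ a e, (S a).rt e ∈ bl G ((S a).lf e) 9)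
    (hcn : ∀ e e', cf e e' → (S e'.1).lf e'.2 ∈ bl G ((S e.1).lf e.2) 18)
    (md : ∀ a, V → E a → Prop) (hmd : ∀ a v e, md a v e → (S a).lf e ∈ bl G v 9)
    (nE nc nm : ℕ) (hnE : ∀ a v, (univ.filter (fun e : E a => (S a).lf e = v)).card ≤ nE)
    (hnc : ∀ e, (univ.filter (fun e' => cf e e')).card ≤ nc)
    (hnm : ∀ a v, (univ.filter (fun e : E a => md a v e)).card ≤ nm)
    (C M B : ℕ) [NeZero M] [NeZero B] (hB : B = M * 2 ^ C) (D lam ρ ν p1 : ℝ) (hlam : 0 ≤ lam)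
    (hp0 : 0 ≤ p1)
    (hp1 : ∀ a v, pr (fun ω : E a → Fin B => Bad (S a) (fun e => kc ω e) D lam ρ ν v) ≤ p1)
    (hlll : 4 * (Fintype.card P * p1 + Fintype.card P * nE * ((nc : ℝ) * (1 / M)) ^ (C + 1) +
      Fintype.card P * Real.exp (-lam)) * ((Δ : ℝ) + 1) ^ (2 * 45) ≤ 1) :
    ∃ k : ∀ a, E a → Prop, (∀ a v, ¬ Bad (S a) (k a) D lam ρ ν v) ∧
      (∀ e e', cf e e' → ¬ (k e.1 e.2 ∧ k e'.1 e'.2)) ∧
      ∀ a v, ((univ.filter (fun e : E a => md a v e ∧ k a e)).card : ℝ) ≤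
        3 * ((nm : ℝ) / B) + 2 * lam := by
  obtain ⟨loc, hloc⟩ : ∃ loc : Jx E C → V, ∀ i, loc i = (S i.1.1).lf i.1.2 := ⟨_, fun _ => rfl⟩
  obtain ⟨q2, hq2⟩ : ∃ q2 : ℝ, q2 = ((nc : ℝ) * (1 / M)) ^ (C + 1) := ⟨_, rfl⟩
  have hq20 : 0 ≤ q2 := by
    rw [hq2]
    positivity
  obtain ⟨E1, hE1⟩ : ∃ E1 : V → (Jx E C → Fin M × Bool) → Prop, ∀ v ω, E1 v ω =
      ∃ a ∈ (univ : Finset P), Bad (S a) (fun e => kp cf ω ⟨a, e⟩) D lam ρ ν v :=
    ⟨_, fun _ _ => rfl⟩
  obtain ⟨E2, hE2⟩ : ∃ E2 : V → (Jx E C → Fin M × Bool) → Prop, ∀ v ω, E2 v ω =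
      ∃ a ∈ (univ : Finset P), ∃ e ∈ univ.filter (fun e : E a => (S a).lf e = v),
        C + 1 ≤ (cfs cf ω ⟨a, e⟩).card := ⟨_, fun _ _ => rfl⟩
  obtain ⟨E3, hE3⟩ : ∃ E3 : V → (Jx E C → Fin M × Bool) → Prop, ∀ v ω, E3 v ω =
      ∃ a ∈ (univ : Finset P), 3 * ((nm : ℝ) / B) + 2 * lam ≤
        ((univ.filter (fun e : E a => md a v e ∧ kp cf ω ⟨a, e⟩)).card : ℝ) :=
    ⟨_, fun _ _ => rfl⟩
  -- locality
  have hkp : ∀ (v : V) (ω ω' : Jx E C → Fin M × Bool),
      (∀ i ∈ univ.filter (fun i => loc i ∈ bl G v 45), ω i = ω' i) →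
      ∀ e : AE E, (S e.1).lf e.2 ∈ bl G v 27 → (kp cf ω e ↔ kp cf ω' e) := by
    intro v ω ω' hag e he
    refine iff_of_eq (kp_loc cf e ω ω' ?_)
    intro i hi
    apply hag
    refine mem_filter.2 ⟨mem_univ _, ?_⟩
    rw [hloc]
    rcases (mem_filter.1 hi).2 with h1 | h1
    · rw [h1]
      exact bl_mono G v (by omega) he
    · exact bl_bl G he (hcn e i.1 h1)
  have hl1 : ∀ v, Loc (fun ω => E1 v ω ∨ (E2 v ω ∨ E3 v ω))
      (univ.filter (fun i => loc i ∈ bl G v 45)) := by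
    intro v ω ω' hag
    have a1 : E1 v ω ↔ E1 v ω' := by
      rw [hE1, hE1]
      have h1 : ∀ a, Bad (S a) (fun e => kp cf ω ⟨a, e⟩) D lam ρ ν v ↔
          Bad (S a) (fun e => kp cf ω' ⟨a, e⟩) D lam ρ ν v := fun a =>
        bad_loc G (S a) (hnear a) _ _ D lam ρ ν v fun e he => hkp v ω ω' hag ⟨a, e⟩ he
      constructor
      · rintro ⟨a, ha, hb⟩
        exact ⟨a, ha, (h1 a).1 hb⟩
      · rintro ⟨a, ha, hb⟩
        exact ⟨a, ha, (h1 a).2 hb⟩
    have a2 : E2 v ω ↔ E2 v ω' := by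
      rw [hE2, hE2]
      have h1 : ∀ a (e : E a), (S a).lf e = v → cfs cf ω ⟨a, e⟩ = cfs cf ω' ⟨a, e⟩ := by
        intro a e he
        refine cfs_loc cf ⟨a, e⟩ ω ω' ?_
        intro i hi
        apply hag
        refine mem_filter.2 ⟨mem_univ _, ?_⟩
        rw [hloc]
        have h2 := hcn ⟨a, e⟩ i.1 (mem_filter.1 hi).2
        have h3 : (S i.1.1).lf i.1.2 ∈ bl G v 18 := by
          rw [← he]
          exact h2
        exact bl_mono G v (by omega) h3
      constructor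
      · rintro ⟨a, ha, e, he, hb⟩
        refine ⟨a, ha, e, he, ?_⟩
        rw [← h1 a e (mem_filter.1 he).2]
        exact hb
      · rintro ⟨a, ha, e, he, hb⟩
        refine ⟨a, ha, e, he, ?_⟩
        rw [h1 a e (mem_filter.1 he).2]
        exact hb
    have a3 : E3 v ω ↔ E3 v ω' := by
      rw [hE3, hE3]
      have h1 : ∀ a, univ.filter (fun e : E a => md a v e ∧ kp cf ω ⟨a, e⟩) =
          univ.filter (fun e : E a => md a v e ∧ kp cf ω' ⟨a, e⟩) := by
        intro a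
        apply filter_congr
        intro e _
        refine and_congr_right fun h2 => ?_
        exact hkp v ω ω' hag ⟨a, e⟩ (bl_mono G v (by omega) (hmd a v e h2))
      constructor
      · rintro ⟨a, ha, hb⟩
        refine ⟨a, ha, ?_⟩
        rw [← h1 a]
        exact hb
      · rintro ⟨a, ha, hb⟩
        refine ⟨a, ha, ?_⟩
        rw [h1 a]
        exact hb
    exact propext (or_congr a1 (or_congr a2 a3))
  -- probabilities
  have hP : ((univ : Finset P).card : ℝ) = Fintype.card P := by rw [card_univ]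
  have b1 : ∀ v, pr (fun ω => E1 v ω) ≤ Fintype.card P * p1 := by
    intro v
    simp only [hE1]
    rw [← hP]
    refine pr_ex univ _ p1 fun a _ => ?_
    exact law hB cf hcf a (fun k => Bad (S a) k D lam ρ ν v) p1 (hp1 a v)
  have b2 : ∀ v, pr (fun ω => E2 v ω) ≤ Fintype.card P * (nE * q2) := by
    intro v
    simp only [hE2]
    rw [← hP]
    refine pr_ex univ _ _ fun a _ => ?_
    refine (pr_ex _ _ q2 fun e _ => ?_).trans ?_
    · rw [hq2]
      exact cfs_few cf ⟨a, e⟩ nc (hnc ⟨a, e⟩)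
    · exact mul_le_mul_of_nonneg_right (by exact_mod_cast hnE a v) hq20
  have b3 : ∀ v, pr (fun ω => E3 v ω) ≤ Fintype.card P * Real.exp (-lam) := by
    intro v
    simp only [hE3]
    rw [← hP]
    refine pr_ex univ _ _ fun a _ => ?_
    refine law hB cf hcf a (fun k => 3 * ((nm : ℝ) / B) + 2 * lam ≤
      ((univ.filter (fun e : E a => md a v e ∧ k e)).card : ℝ)) _ ?_
    have h1 := ch_up (I := E a) (κ := Fin B) (univ.filter (fun e : E a => md a v e))
      (fun e ω => kc ω e) (fun e => {e})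
      (fun e _ => by
        intro ω ω' hag
        have h0 := hag e (mem_singleton_self e)
        simp only [kc, h0])
      (fun e _ e' _ hne => by
        rw [disjoint_singleton]
        exact hne)
      (fun _ => 1 / (B : ℝ)) (fun e _ => (kc_pr e).le) ((nm : ℝ) / B) lam
      (by
        rw [sum_const, nsmul_eq_mul, mul_one_div]
        exact div_le_div_of_nonneg_right (by exact_mod_cast hnm a v) (Nat.cast_nonneg _)) hlam
    simp only [filter_filter] at h1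
    exact h1
  obtain ⟨ω, hω⟩ := lll_loc G Δ hG loc 45 (fun v ω => E1 v ω ∨ (E2 v ω ∨ E3 v ω)) hl1
    (Fintype.card P * p1 + Fintype.card P * nE * ((nc : ℝ) * (1 / M)) ^ (C + 1) +
      Fintype.card P * Real.exp (-lam)) (by positivity)
    (fun v => by
      have h1 : pr (fun ω => E1 v ω ∨ (E2 v ω ∨ E3 v ω)) ≤
          pr (fun ω => E1 v ω) + pr (fun ω => E2 v ω ∨ E3 v ω) := pr_or _ _
      have h2 : pr (fun ω => E2 v ω ∨ E3 v ω) ≤
          pr (fun ω => E2 v ω) + pr (fun ω => E3 v ω) := pr_or _ _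
      have h3 : (Fintype.card P : ℝ) * (nE * q2) =
          Fintype.card P * nE * ((nc : ℝ) * (1 / M)) ^ (C + 1) := by rw [hq2]; ring
      have h4 : pr (fun ω => E1 v ω ∨ (E2 v ω ∨ E3 v ω)) ≤
          Fintype.card P * p1 + Fintype.card P * nE * ((nc : ℝ) * (1 / M)) ^ (C + 1) +
          Fintype.card P * Real.exp (-lam) := by
        rw [← h3]
        linarith [b1 v, b2 v, b3 v]
      have h5 : ∀ (i1 i2 : Fintype (Jx E C → Fin M × Bool))
          (F : (Jx E C → Fin M × Bool) → Prop), @pr _ i1 F = @pr _ i2 F := by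
        intro i1 i2 F
        rw [Subsingleton.elim i1 i2]
      exact (le_of_eq (h5 _ _ _)).trans h4) hlll
  have hc : ∀ e : AE E, (cfs cf ω e).card ≤ C := by
    intro e
    by_contra hcon
    apply hω ((S e.1).lf e.2)
    refine Or.inr (Or.inl ?_)
    rw [hE2]
    exact ⟨e.1, mem_univ _, e.2, mem_filter.2 ⟨mem_univ _, rfl⟩, Nat.lt_of_not_le hcon⟩
  refine ⟨fun a e => kp cf ω ⟨a, e⟩, ?_, ?_, ?_⟩
  · intro a v hb
    apply hω v
    refine Or.inl ?_
    rw [hE1]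
    exact ⟨a, mem_univ _, hb⟩
  · intro e e' h
    exact kp_excl cf hcs hcf ω e e' h (hc e) (hc e')
  · intro a v
    by_contra hcon
    push Not at hcon
    apply hω v
    refine Or.inr (Or.inr ?_)
    rw [hE3]
    exact ⟨a, mem_univ _, hcon.le⟩

end Pool.Agent.H65.GI
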