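/-
ROW Asm. Assembly of block E for one graph, given the numerical conditions.
PROOF. Write `A a v := f v = a.1`, `mR = r^4/(8 B1 s w)`. (1) `st1` (with `Nums.r4, B1a, B1b, low, lll1`): `Q`, `hR : IsRes ..`. (2) `U a v := A a v ∨ Q a v`: `#{ρ : U a (N a (R ρ v))} ≤ X + (4 + 2 lam) ≤ κ` (`IsCol.fr2`, `IsRes.fr2`, `Nums.kap`; natural numbers), `#{a : U a (N a v)} ≤ κ` (`fr3`, `fr3`).
(3) Degrees of `S a = GB ht (isb_wk h.base a) (A a) (Q a)`: for `A a v`: `gb_inN` and `mct2` (`Hol`: `h.hol a`, `Tst`: `h.tst a`, `Nums.err`): `|#inN - m| ≤ η m`. `gb_inR`: as `Q (en)` implies `¬ A (en)` (`offA`), `#inR = #{g : Cl ∧ Q a (en)} ≥ mR` (`IsRes.low`), `≤ #{g : mvg ∧ Q a (en)} ≤ BR ≤ B` (`IsRes.upp`, `Cl` contains `mvg`, `Nums.BR`).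
For `¬ A a v`: `gb_res`, `mct_le`, `Nums.res`: `#inR ≤ 2 m`. `se` for all `a`, `v` with `K = K2`: probability `≤ p1 = (14 + 4m + 12 D^2) exp (-lam)`.
(4) `st2` with `E a = GE side N R f Q a`, `S a`, `cf e e' := cfl N R e.1 e.2.1 e'.1 e'.2.1`, `md a v e := mdl (N a) R v e.1`, `nE = r^4`, `nc = 4 (κ^2 (2 r^2 + 2 (s w) r))`, `nm = 6 κ^2 r^2`, `ν = D mR/(4B)`. `hcs`, `hcf`: from the definition of `cfl`. `hnear`: `wk_bl` (`i = 4`): `bl G _ 9`. `hcn`: `gy` of both gadgets is the same vertex, in `bl G e.1 7` and `bl G e'.1 7` (`wk_bl`, `i ≤ 3`, `bl_mono`): `bl_symm`, `bl_bl`, `bl_mono`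
(`14 ≤ 18`). `hmd`: `bl G _ 7`. `hnE`: the gadgets with the first component `v` inject into the words: `Fintype.card (Fin 4 → Fin r) = r^4`. `hnc`: `#{e' : cf e e'} = ∑ a, #{e' : E a // ...}` (`Finset.card_sigma`-like; `Fintype.card` of a sigma type) `≤ ∑ a, #{p : U a p.1 ∧ U a (en p) ∧ cfl ..}` (`Val` gives `U` at both ends; `Subtype.val` injective), `cfl_cnt`. `hnm`: `mid_cnt`.
`Fintype.card (Fin s × Fin w) = s * w`. `Nums.lll2`.
(5) `sr` for each `a` (`k a`): `y a`, `b = 2/D`. (6) `lbl`: `hex` from the exclusivity (applied to `⟨a, e⟩`, `⟨b, e'⟩`), `hm` from the last clause of `st2` and `Nums.mid`. (`¬ (GB ..).nr v` is `¬ (f v = a.1)`.)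
-/
import Pool.Agent.H65.GI.Nums
import Pool.Agent.H65.GI.St1
import Pool.Agent.H65.GI.St2
import Pool.Agent.H65.GI.Cfc
import Pool.Agent.H65.GI.Mct
import Pool.Agent.H65.GI.Lbl
import Pool.Agent.H65.GI.Se
import Pool.Agent.H65.GI.Sr

set_option autoImplicit false

namespace Pool.Agent.H65.GI

open Finset Classical

theorem Asm_card {s w : ℕ} : Fintype.card (Fin s × Fin w) = s * w := by
  rw [Fintype.card_prod, Fintype.card_fin, Fintype.card_fin]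

theorem Asm_mono {ι : Type} [Fintype ι] (A B : ι → Prop) (iA : DecidablePred A)
    (iB : DecidablePred B) (h : ∀ i, A i → B i) : (univ.filter A).card ≤ (univ.filter B).card :=
  Finset.card_le_card fun i hi => mem_filter.2 ⟨mem_univ _, h i (mem_filter.1 hi).2⟩

theorem Asm_U {ι : Type} [Fintype ι] (A B C : ι → Prop) (x y : ℝ) (k : ℕ)
    (iA : DecidablePred A) (iB : DecidablePred B) (iC : DecidablePred C)
    (hC : ∀ i, C i → A i ∨ B i)
    (hA : ((univ.filter A).card : ℝ) ≤ x) (hB : ((univ.filter B).card : ℝ) ≤ y)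
    (hk : x + y ≤ k) : (univ.filter C).card ≤ k := by
  have h1 : (univ.filter C).card ≤ (univ.filter A).card + (univ.filter B).card := by
    refine le_trans (Finset.card_le_card ?_) (Finset.card_union_le _ _)
    intro i hi
    rcases hC i (mem_filter.1 hi).2 with h | h
    · exact mem_union_left _ (mem_filter.2 ⟨mem_univ _, h⟩)
    · exact mem_union_right _ (mem_filter.2 ⟨mem_univ _, h⟩)
  have h2 : ((univ.filter C).card : ℝ) ≤
      (univ.filter A).card + (univ.filter B).card := by exact_mod_cast h1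
  have h3 : ((univ.filter C).card : ℝ) ≤ k := by linarith
  exact_mod_cast h3

/-- the second stage together with the routing, for abstract bipartite graphs -/
theorem Asm_core {V P : Type} [Fintype V] [Fintype P] (G : SimpleGraph V) (Δ : ℕ) (hG : Reg G Δ)
    (E : P → Type) [∀ a, Fintype (E a)] (S : ∀ a, Bip V (E a)) (cf : AE E → AE E → Prop)
    (hcs : ∀ e e', cf e e' → cf e' e) (hcf : ∀ e e', cf e e' → e.1 ≠ e'.1)
    (hnear : ∀ a e, (S a).rt e ∈ bl G ((S a).lf e) 9)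
    (hcn : ∀ e e', cf e e' → (S e'.1).lf e'.2 ∈ bl G ((S e.1).lf e.2) 18)
    (md : ∀ a, V → E a → Prop) (hmd : ∀ a v e, md a v e → (S a).lf e ∈ bl G v 9)
    (nE nc nm : ℕ) (hnE : ∀ a v, (univ.filter (fun e : E a => (S a).lf e = v)).card ≤ nE)
    (hnc : ∀ e, (univ.filter (fun e' => cf e e')).card ≤ nc)
    (hnm : ∀ a v, (univ.filter (fun e : E a => md a v e)).card ≤ nm)
    (C M B : ℕ) [NeZero M] [NeZero B] (hB : B = M * 2 ^ C) (m η lam D ρ mR : ℝ) (K : ℕ)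
    (hK1 : 1 ≤ K) (hDB : D = m / B) (hm : 0 < m) (hη0 : 0 ≤ η) (hlam : 1 ≤ lam)
    (hD : 2000 * lam ≤ D)
    (hη : η + 3 * D / m ≤ 1 / 4) (hDη : D * (η + 3 * D / m) ≤ Real.sqrt (D * lam))
    (hKD : (K : ℝ) ^ 2 ≤ lam * D)
    (hdeg : ∀ a w, (S a).nr w → m * (1 - η) ≤ ((inN (S a) w).card : ℝ) ∧
      ((inN (S a) w).card : ℝ) ≤ m * (1 + η))
    (hmR0 : 0 ≤ mR) (hmR : ∀ a w, (S a).nr w → mR ≤ ((inR (S a) w).card : ℝ) ∧
      (inR (S a) w).card ≤ B)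
    (hmR2 : 32 * lam ≤ D * mR / B)
    (hres : ∀ a w, ¬ (S a).nr w → ((inR (S a) w).card : ℝ) ≤ 2 * m)
    (hK : 8 * D * m * (2 * D / B) ^ K ≤ Real.exp (-lam))
    (hρ : 130 * K * lam / Real.sqrt D + (4 * D ^ 2 + 1) * (2 * K * (3 * Real.exp (-lam))) +
      16 * D * (η + 3 * D / m) + 16 * D * Real.exp (-(D / 2)) +
      8 * (K : ℝ) ^ 2 * (24 * D ^ 4 / m + 2 * lam) / D ^ 2 ≤ ρ) (hρ0 : 0 ≤ ρ)
    (hν1 : 2 * (3 + 2 * lam) ≤ D * mR / (4 * B))
    (hν2 : 136 * (3 + 2 * lam) * ρ ≤ D * mR / (4 * B)) (hν3 : 252 * D * ρ ≤ D * mR / (4 * B))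
    (hlll : 4 * (Fintype.card P * ((14 + 4 * m + 12 * D ^ 2) * Real.exp (-lam)) +
      Fintype.card P * nE * ((nc : ℝ) * (1 / M)) ^ (C + 1) +
      Fintype.card P * Real.exp (-lam)) * ((Δ : ℝ) + 1) ^ (2 * 45) ≤ 1) :
    ∃ (k : ∀ a, E a → Prop) (y : ∀ a, E a → ℝ),
      (∀ e e', cf e e' → ¬ (k e.1 e.2 ∧ k e'.1 e'.2)) ∧
      (∀ a v, ((univ.filter (fun e : E a => md a v e ∧ k a e)).card : ℝ) ≤
        3 * ((nm : ℝ) / B) + 2 * lam) ∧
      (∀ a e, 0 ≤ y a e) ∧ (∀ a e, ¬ k a e → y a e = 0) ∧ (∀ a e, y a e ≤ 2 / D) ∧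
      (∀ a v, (S a).nr v → ∑ e ∈ inc (S a) v, y a e = 1) ∧
      (∀ a v, ¬ (S a).nr v → ∑ e ∈ inc (S a) v, y a e ≤ 1 / 2) := by
  have hp1 : ∀ a v, pr (fun ω : E a → Fin B => Bad (S a) (fun e => kc ω e) D lam ρ
      (D * mR / (4 * B)) v) ≤ (14 + 4 * m + 12 * D ^ 2) * Real.exp (-lam) := fun a v =>
    se (S a) v m η lam D ρ mR K hK1 hDB hm hη0 hlam (by linarith) hη hDη hKD (hdeg a) hmR0
      (hmR a) hmR2 (hres a) hK hρ
  obtain ⟨k, hk1, hk2, hk3⟩ := st2 G Δ hG E S cf hcs hcf hnear hcn md hmd nE nc nm hnE hnc hnm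
    C M B hB D lam ρ (D * mR / (4 * B)) ((14 + 4 * m + 12 * D ^ 2) * Real.exp (-lam))
    (by linarith) (by positivity) hp1 hlll
  have hsr := fun a => sr (S a) (k a) D lam ρ (D * mR / (4 * B)) hlam hD hρ0 hν1 hν2 hν3 (hk1 a)
  choose y y1 y2 y3 y4 y5 using hsr
  exact ⟨k, y, hk2, hk3, y1, y2, y3, y4, y5⟩

section
variable {V : Type} [Fintype V] {G : SimpleGraph V} {s w r K : ℕ} {side : V → Bool}
  {D0 : Finset V} {N : Fin s × Fin w → V → V} {R : Fin r → V → V} {f : V → Fin s}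
  {Q : Fin s × Fin w → V → Prop}

theorem Asm_gy (h : IsBase G s w r K side D0 N R) (a : Fin s × Fin w)
    (p : V × (Fin 4 → Fin r)) {i : ℕ} (hi : i ≤ 3) :
    gy (N a) R p i ∈ bl G p.1 7 ∧ gx (N a) R p i ∈ bl G p.1 7 := by
  have h1 := wk_bl (isb_wk h a) p.2 p.1 i
  exact ⟨bl_mono G _ (by omega) h1.2, bl_mono G _ (by omega) h1.1⟩

theorem Asm_nc (n : ℕ) (U : Fin s × Fin w → V → Prop) (hU : ∀ a v, f v = a.1 ∨ Q a v → U a v)
    (b : Fin s × Fin w) (q : V × (Fin 4 → Fin r))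
    (hc : ∑ a, (univ.filter (fun p : V × (Fin 4 → Fin r) => U a p.1 ∧
      U a (en (N a) R p.1 p.2) ∧ cfl N R b q a p)).card ≤ n) :
    (univ.filter (fun e' : AE (fun a => GE side N R f Q a) =>
      cfl N R b q e'.1 e'.2.1)).card ≤ n := by
  refine le_trans ?_ hc
  rw [← Finset.card_sigma]
  refine Finset.card_le_card_of_injOn (fun e' => (⟨e'.1, e'.2.1⟩ :
    (_ : Fin s × Fin w) × (V × (Fin 4 → Fin r)))) ?_ ?_
  · rintro ⟨a, x⟩ hx
    have h1 := (mem_filter.1 (Finset.mem_coe.1 hx)).2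
    refine Finset.mem_coe.2 (mem_sigma.2 ⟨mem_univ _, mem_filter.2 ⟨mem_univ _, ?_, ?_, h1⟩⟩)
    · exact hU a _ x.2.2.2.1
    · exact hU a _ x.2.2.2.2.1
  · rintro ⟨a, x⟩ - ⟨b, y⟩ - hxy
    obtain ⟨h1, h2⟩ := Sigma.mk.inj_iff.1 hxy
    subst h1
    have h3 : x = y := Subtype.ext (eq_of_heq h2)
    rw [h3]

theorem Asm_nm (n : ℕ) (U : V → Prop) (a : Fin s × Fin w) (hU : ∀ v, f v = a.1 ∨ Q a v → U v)
    (v : V)
    (hc : (univ.filter (fun p : V × (Fin 4 → Fin r) => U p.1 ∧ U (en (N a) R p.1 p.2) ∧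
      mdl (N a) R v p)).card ≤ n) :
    (univ.filter (fun e : GE side N R f Q a => mdl (N a) R v e.1)).card ≤ n := by
  refine le_trans ?_ hc
  refine Finset.card_le_card_of_injOn (fun e => e.1) ?_ ?_
  · intro x hx
    have h1 := (mem_filter.1 (Finset.mem_coe.1 hx)).2
    refine Finset.mem_coe.2 (mem_filter.2 ⟨mem_univ _, ?_, ?_, h1⟩)
    · exact hU _ x.2.2.2.1
    · exact hU _ x.2.2.2.2.1
  · intro x _ y _ hxy
    exact Subtype.ext hxy

theorem Asm_nE (a : Fin s × Fin w) (v : V) :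
    (univ.filter (fun e : GE side N R f Q a => e.1.1 = v)).card ≤ r ^ 4 := by
  have h1 : (univ : Finset (Fin 4 → Fin r)).card = r ^ 4 := by
    rw [Finset.card_univ, Fintype.card_fun, Fintype.card_fin, Fintype.card_fin]
  rw [← h1]
  refine Finset.card_le_card_of_injOn (fun e => e.1.2) ?_ ?_
  · intro x _
    exact Finset.mem_coe.2 (mem_univ _)
  · intro x hx y hy hxy
    have h2 := (mem_filter.1 (Finset.mem_coe.1 hx)).2
    have h3 := (mem_filter.1 (Finset.mem_coe.1 hy)).2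
    exact Subtype.ext (Prod.ext (h2.trans h3.symm) hxy)

theorem Asm_deg {pb e4 e2 X lam : ℝ} {B1 M C B K2 κ Δ : ℕ} {m η D ρ : ℝ} (ht : TL G 33)
    (h : IsCol G s w r K side D0 N R f pb e4 e2 X)
    (hn : Nums Δ w K s r pb e4 e2 X lam B1 M C B K2 κ m η D ρ)
    (a : Fin s × Fin w) (v : V) (hv : f v = a.1) :
    m * (1 - η) ≤ ((inN (GB ht (isb_wk h.base a) (fun v => f v = a.1) (Q a)) v).card : ℝ) ∧
      ((inN (GB ht (isb_wk h.base a) (fun v => f v = a.1) (Q a)) v).card : ℝ) ≤ m * (1 + η) := by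
  rw [gb_inN ht (isb_wk h.base a) (fun v => f v = a.1) (Q a) v hv]
  have h1 := mct2 ht (isb_wk h.base a) (h.hol a) pb e4 e2 (h.tst a) hn.pb0 hn.e20 v hv
  rw [← hn.mdef] at h1
  have h2 := h1.trans hn.err
  obtain ⟨h3, h4⟩ := abs_le.1 h2
  constructor
  · linarith
  · linarith

theorem Asm_res {pb e4 e2 X mR BR X' : ℝ} {B : ℕ} (ht : TL G 33)
    (h : IsCol G s w r K side D0 N R f pb e4 e2 X)
    (hR : IsRes G D0 N R f Q mR BR X') (hB : BR ≤ B)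
    (a : Fin s × Fin w) (v : V) (hv : f v = a.1) :
    mR ≤ ((inR (GB ht (isb_wk h.base a) (fun v => f v = a.1) (Q a)) v).card : ℝ) ∧
      (inR (GB ht (isb_wk h.base a) (fun v => f v = a.1) (Q a)) v).card ≤ B := by
  rw [gb_inR ht (isb_wk h.base a) (fun v => f v = a.1) (Q a) v hv]
  constructor
  · exact (hR.low a v hv).trans (Nat.cast_le.2 (Asm_mono _ _ _ _
      fun g hg => ⟨hg.1, (hR.offA a _ hg.2).1, hg.2⟩))
  · have h1 := (hR.upp a v).trans hB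
    have h2 := Nat.cast_le.1 h1
    exact (Asm_mono _ _ _ _ fun g hg => ⟨hg.1.1, hg.2.2⟩).trans h2

theorem Asm_rs {pb e4 e2 X x : ℝ} (ht : TL G 33)
    (h : IsCol G s w r K side D0 N R f pb e4 e2 X) (hpb : 0 ≤ pb) (hx : pb * r ^ 4 + e4 ≤ x)
    (a : Fin s × Fin w) (v : V) (hv : ¬ f v = a.1) :
    ((inR (GB ht (isb_wk h.base a) (fun v => f v = a.1) (Q a)) v).card : ℝ) ≤ x := by
  have h1 := gb_res ht (isb_wk h.base a) (fun v => f v = a.1) (Q a) v hv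
  have h2 := mct_le ht (isb_wk h.base a) pb e4 e2 (h.tst a) hpb v
  exact (Nat.cast_le.2 h1).trans (h2.trans hx)

end

theorem asm {V : Type} [Fintype V] {G : SimpleGraph V} {Δ s w r K : ℕ} {side : V → Bool}
    {D0 : Finset V} {N : Fin s × Fin w → V → V} {R : Fin r → V → V} {f : V → Fin s}
    {pb e4 e2 X lam : ℝ} {B1 M C B K2 κ : ℕ} {m η D ρ : ℝ} (hG : Reg G Δ) (ht : TL G 33)
    (h : IsCol G s w r K side D0 N R f pb e4 e2 X)
    (hn : Nums Δ w K s r pb e4 e2 X lam B1 M C B K2 κ m η D ρ) :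
    ∃ (S : V → Prop) (Mt : Fin s × Fin w → V → V),
      (∀ u v, S u → S v → ¬ G.Adj u v) ∧
      (∀ a v, Mt a (Mt a v) = v) ∧ (∀ a v, Mt a v ≠ v → G.Adj v (Mt a v)) ∧
      (∀ a b v, a ≠ b → Mt a v ≠ v → Mt a v ≠ Mt b v) ∧
      (∀ a v, f v = a.1 → Mt a v = v) ∧
      (∀ v, ¬ S v → (univ.filter (fun a : Fin s × Fin w => Mt a v = v)).card ≤ w) ∧
      ∀ v, (univ.filter (fun a : Fin s × Fin w => Mt a v = v)).card ≤ w + 1 := by
  have hlam0 : 0 ≤ lam := le_trans zero_le_one hn.lam1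
  have iB1 : NeZero B1 := ⟨by have := hn.B1p; omega⟩
  have iM : NeZero M := ⟨by have := hn.M1; omega⟩
  have iB : NeZero B := ⟨by
    rw [hn.BM]
    have h1 := hn.M1
    have h2 : 0 < 2 ^ C := by positivity
    exact (Nat.mul_pos h1 h2).ne'⟩
  have hD0 : 0 < D := by
    have h1 := hn.D1
    have h2 := hn.lam1
    linarith
  obtain ⟨Q, hR⟩ := st1 ht h Δ hG hn.sw hn.r4 B1 hn.B1a hn.B1b lam hlam0 hn.low hn.lll1
  obtain ⟨mR, hmR⟩ : ∃ mR : ℝ, mR = (r : ℝ) ^ 4 / (8 * (B1 * (s * w))) := ⟨_, rfl⟩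
  have nR := hn.mR
  have n1 := hn.ν1
  have n2 := hn.ν2
  have n3 := hn.ν3
  rw [← hmR] at hR nR n1 n2 n3
  have hmR0 : 0 ≤ mR := by
    rw [hmR]
    positivity
  have hkap := hn.kap
  obtain ⟨U, hU⟩ : ∃ U : Fin s × Fin w → V → Prop, ∀ a v, U a v ↔ (f v = a.1 ∨ Q a v) :=
    ⟨_, fun _ _ => Iff.rfl⟩
  have hU2 : ∀ (a : Fin s × Fin w) (v : V), (univ.filter (fun ρ : Fin r =>
      U a (N a (R ρ v)))).card ≤ κ := fun a v =>
    Asm_U _ _ _ _ _ κ _ _ _ (fun i hi => (hU _ _).1 hi) (h.fr2 v a) (hR.fr2 v a) (by linarith)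
  have hU3 : ∀ v : V, (univ.filter (fun a : Fin s × Fin w => U a (N a v))).card ≤ κ := fun v =>
    Asm_U _ _ _ _ _ κ _ _ _ (fun i hi => (hU _ _).1 hi) (h.fr3 v) (hR.fr3 v) (by linarith)
  obtain ⟨k, y, hk2, hk3, y1, y2, y3, y4, y5⟩ := Asm_core G Δ hG (fun a => GE side N R f Q a)
    (fun a => GB ht (isb_wk h.base a) (fun v => f v = a.1) (Q a))
    (fun e e' => cfl N R e.1 e.2.1 e'.1 e'.2.1)
    (fun e e' hc => by
      obtain ⟨h1, i, i', h2, h3⟩ := hc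
      exact ⟨h1.symm, i', i, h2.symm, h3.symm⟩)
    (fun e e' hc => hc.1)
    (fun a e => (wk_bl (isb_wk h.base a) e.1.2 e.1.1 4).2)
    (fun e e' hc => by
      obtain ⟨-, i, i', -, h3⟩ := hc
      have g1 := (Asm_gy h.base e.1 e.2.1 (i := (i : ℕ)) (by omega)).1
      have g2 := (Asm_gy h.base e'.1 e'.2.1 (i := (i' : ℕ)) (by omega)).1
      rw [← h3] at g2
      exact bl_mono G _ (by omega) (bl_bl G g1 (bl_symm G g2)))
    (fun a v e => mdl (N a) R v e.1)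
    (fun a v e hm => by
      obtain ⟨i, -, hi3, h3⟩ := hm
      obtain ⟨g1, g2⟩ := Asm_gy h.base a e.1 hi3
      rcases h3 with h3 | h3
      · rw [h3] at g2
        exact bl_mono G _ (by omega) (bl_symm G g2)
      · rw [h3] at g1
        exact bl_mono G _ (by omega) (bl_symm G g1))
    (r ^ 4) (4 * (κ ^ 2 * (2 * r ^ 2 + 2 * (s * w) * r))) (6 * κ ^ 2 * r ^ 2)
    (fun a v => Asm_nE a v)
    (fun e => Asm_nc _ U (fun a v hv => (hU a v).2 hv) e.1 e.2.1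
      (cfl_cnt N R h.base.invN h.base.invR U κ hU2 hU3 e.1 e.2.1))
    (fun a v => Asm_nm _ (U a) a (fun v hv => (hU a v).2 hv) v
      (mid_cnt (N a) R (h.base.invN a) h.base.invR (U a) κ (hU2 a) v))
    C M B hn.BM m η lam D ρ mR K2 hn.K2a hn.DB hn.mpos hn.η0 hn.lam1 hn.D1 hn.eta1 hn.eta2 hn.KD
    (fun a v hv => Asm_deg ht h hn a v hv) hmR0
    (fun a v hv => Asm_res ht h hR hn.BR a v hv) nR
    (fun a v hv => Asm_rs ht h hn.pb0 hn.res a v hv) hn.hK hn.hρ hn.ρ0 n1 n2 n3 (by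
      rw [Asm_card]
      exact hn.lll2)
  refine lbl ht h hR k (fun a b e e' hc => hk2 ⟨a, e⟩ ⟨b, e'⟩ hc) y (2 / D) (by positivity) y1 y2
    y3 y4 y5 ?_
  intro a v
  have h1 := hk3 a v
  exact (mul_le_mul_of_nonneg_right h1 (by positivity)).trans hn.mid

end Pool.Agent.H65.GI
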