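/-
ROW Prf. First element and first `k` elements of a set in a uniformly random order.
PROOF. `first_iff`: unfold `first` (file H67/HY/Defs): `X.image π.symm` nonempty, its `min'` is `π.symm c` for the `c ∈ X` with `π.symm c` minimal.
`pr_first`: for `c, d ∈ X` the map `π ↦ Equiv.swap c d * π` is a bijection of the permutations (`(swap c d * π).symm = π.symm * swap c d`), `X` is mapped to itself by `swap c d`, so `first (swap c d * π) X = some d ↔ first π X = some c`
(by `first_iff`). Hence `pr (first π X = some c)` is the same for all `c ∈ X`; the sum over `c ∈ X` is `1` (exactly one holds for every `π`, `X ≠ ∅`).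
`pre_card`: the elements of `X` have ranks `0, ..., |X|-1` (rank of `c` = number of `d ∈ X` with `π.symm d < π.symm c`; the rank is a bijection from `X` to `range |X|`: injective because `π.symm` is), so `min k |X|` of them have rank `< k`.
`pr_pre`: again `pr (c ∈ pre π k X)` is the same for all `c ∈ X` (same bijection), and `∑_{c ∈ X} pr (c ∈ pre π k X) = ex (card (pre π k X)) = min k |X|`. So it is `min k |X| / |X| = min 1 (k / |X|)`.
`pr_rank`: `g ∉ X`: the event is `g ∈ pre π k (insert g X)` (the filter over `insert g X` excludes `g` itself as `<` is irreflexive).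
-/
import Pool.Agent.H65.GI.Cnd

set_option autoImplicit false

namespace Pool.Agent.H65.GI

open Finset Classical
open Pool.Agent.H67.HY (first)

private theorem Prf_symm {s : ℕ} (π : Equiv.Perm (Fin s)) (c d e : Fin s) :
    (Equiv.swap c d * π).symm e = π.symm (Equiv.swap c d e) := by
  rw [Equiv.symm_apply_eq, Equiv.Perm.mul_apply, Equiv.apply_symm_apply, Equiv.swap_apply_self]

private theorem Prf_swap_mem {s : ℕ} {X : Finset (Fin s)} {c d e : Fin s} (hc : c ∈ X)
    (hd : d ∈ X) (he : e ∈ X) : Equiv.swap c d e ∈ X := by
  rcases eq_or_ne e c with rfl | h1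
  · rw [Equiv.swap_apply_left]
    exact hd
  · rcases eq_or_ne e d with rfl | h2
    · rw [Equiv.swap_apply_right]
      exact hc
    · rw [Equiv.swap_apply_of_ne_of_ne h1 h2]
      exact he

private theorem Prf_swap {s : ℕ} (X : Finset (Fin s)) (c d : Fin s)
    (A : Equiv.Perm (Fin s) → Fin s → Prop)
    (hA : ∀ π, A (Equiv.swap c d * π) d ↔ A π c) :
    pr (fun π => A π c) = pr (fun π => A π d) := by
  rw [ex_ind, ex_ind]
  unfold ex
  congr 1
  rw [← Equiv.sum_comp (Equiv.mulLeft (Equiv.swap c d))
    (fun π => if A π d then (1 : ℝ) else 0)]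
  refine Finset.sum_congr rfl fun π _ => ?_
  rw [Equiv.coe_mulLeft]
  simp only [hA]

theorem first_iff {s : ℕ} (π : Equiv.Perm (Fin s)) (X : Finset (Fin s)) (c : Fin s) :
    first π X = some c ↔ c ∈ X ∧ ∀ d ∈ X, π.symm c ≤ π.symm d := by
  unfold first
  split_ifs with h
  · rw [Option.some_inj]
    constructor
    · intro hc
      have hm := Finset.min'_mem _ h
      obtain ⟨d0, hd0, hd⟩ := Finset.mem_image.1 hm
      have e1 : d0 = c := by
        rw [← hc, ← hd, Equiv.apply_symm_apply]
      subst e1
      refine ⟨hd0, fun d hd' => ?_⟩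
      rw [hd]
      exact Finset.min'_le _ _ (Finset.mem_image_of_mem _ hd')
    · rintro ⟨hc, hmin⟩
      have e1 : (X.image π.symm).min' h = π.symm c := by
        apply le_antisymm
        · exact Finset.min'_le _ _ (Finset.mem_image_of_mem _ hc)
        · apply Finset.le_min'
          intro y hy
          obtain ⟨d, hd, rfl⟩ := Finset.mem_image.1 hy
          exact hmin d hd
      rw [e1, Equiv.apply_symm_apply]
  · constructor
    · intro hc
      cases hc
    · rintro ⟨hc, _⟩
      exact absurd ⟨_, Finset.mem_image_of_mem _ hc⟩ h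

theorem first_none_iff {s : ℕ} (π : Equiv.Perm (Fin s)) (X : Finset (Fin s)) :
    first π X = none ↔ X = ∅ := by
  unfold first
  split_ifs with h
  · constructor
    · intro hc
      cases hc
    · intro hX
      subst hX
      simp at h
  · constructor
    · intro _
      rw [Finset.image_nonempty, Finset.not_nonempty_iff_eq_empty] at h
      exact h
    · intro _
      rfl

theorem pr_first {s : ℕ} (X : Finset (Fin s)) (c : Fin s) (hc : c ∈ X) :
    pr (fun π : Equiv.Perm (Fin s) => first π X = some c) = 1 / (X.card : ℝ) := by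
  have hsw : ∀ d ∈ X, pr (fun π : Equiv.Perm (Fin s) => first π X = some d) =
      pr (fun π : Equiv.Perm (Fin s) => first π X = some c) := by
    intro d hd
    refine (Prf_swap X c d (fun π e => first π X = some e) ?_).symm
    intro π
    rw [first_iff, first_iff]
    constructor
    · rintro ⟨_, h⟩
      refine ⟨hc, fun e he => ?_⟩
      have h1 := h (Equiv.swap c d e) (Prf_swap_mem hc hd he)
      rw [Prf_symm, Prf_symm, Equiv.swap_apply_right, Equiv.swap_apply_self] at h1
      exact h1
    · rintro ⟨_, h⟩
      refine ⟨hd, fun e he => ?_⟩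
      rw [Prf_symm, Prf_symm, Equiv.swap_apply_right]
      exact h _ (Prf_swap_mem hc hd he)
  have hsum : ∑ d ∈ X, pr (fun π : Equiv.Perm (Fin s) => first π X = some d) = 1 := by
    rw [← ex_const (Ω := Equiv.Perm (Fin s)) (1 : ℝ)]
    have e1 : ∀ d ∈ X, pr (fun π : Equiv.Perm (Fin s) => first π X = some d) =
        ex (fun π : Equiv.Perm (Fin s) => if first π X = some d then (1 : ℝ) else 0) := by
      intro d _
      rw [ex_ind]
      congr 1
      funext π
      by_cases h : first π X = some d
      · rw [if_pos h, if_pos h]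
      · rw [if_neg h, if_neg h]
    rw [Finset.sum_congr rfl e1, ← ex_sum]
    congr 1
    funext π
    obtain ⟨a, ha⟩ : ∃ a, first π X = some a := by
      by_contra hcon
      have h1 : first π X = none := by
        cases h2 : first π X with
        | none => rfl
        | some a => exact absurd ⟨a, h2⟩ hcon
      rw [first_none_iff] at h1
      rw [h1] at hc
      simp at hc
    have haX := ((first_iff π X a).1 ha).1
    rw [Finset.sum_eq_single a]
    · rw [if_pos ha]
    · intro b _ hb
      rw [if_neg]
      rw [ha]
      intro h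
      exact hb (Option.some_injective _ h).symm
    · intro h
      exact absurd haX h
  rw [Finset.sum_congr rfl hsw, Finset.sum_const, nsmul_eq_mul] at hsum
  have hpos : (0 : ℝ) < X.card := by exact_mod_cast Finset.card_pos.2 ⟨c, hc⟩
  rw [eq_div_iff hpos.ne', mul_comm]
  exact hsum

theorem pre_card {s : ℕ} (π : Equiv.Perm (Fin s)) (k : ℕ) (X : Finset (Fin s)) :
    (pre π k X).card = min k X.card := by
  have hinj : Set.InjOn (fun c => (X.filter (fun d => π.symm d < π.symm c)).card) (X : Set (Fin s)) := by
    have hlt : ∀ c ∈ X, ∀ d ∈ X, π.symm c < π.symm d →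
        (X.filter (fun e => π.symm e < π.symm c)).card <
          (X.filter (fun e => π.symm e < π.symm d)).card := by
      intro c hc d hd hcd
      apply Finset.card_lt_card
      rw [Finset.ssubset_iff_of_subset]
      · refine ⟨c, Finset.mem_filter.2 ⟨hc, hcd⟩, ?_⟩
        intro h
        exact lt_irrefl _ (Finset.mem_filter.1 h).2
      · intro e he
        rw [Finset.mem_filter] at he ⊢
        exact ⟨he.1, he.2.trans hcd⟩
    intro c hc d hd hcd
    have hcd' : (X.filter (fun e => π.symm e < π.symm c)).card =
        (X.filter (fun e => π.symm e < π.symm d)).card := hcd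
    rcases lt_trichotomy (π.symm c) (π.symm d) with h | h | h
    · exact absurd hcd' (hlt c hc d hd h).ne
    · exact π.symm.injective h
    · exact absurd hcd' (hlt d hd c hc h).ne'
  have himg : X.image (fun c => (X.filter (fun d => π.symm d < π.symm c)).card) =
      Finset.range X.card := by
    apply Finset.eq_of_subset_of_card_le
    · intro y hy
      obtain ⟨c, hc, rfl⟩ := Finset.mem_image.1 hy
      rw [Finset.mem_range]
      apply Finset.card_lt_card
      rw [Finset.ssubset_iff_of_subset (Finset.filter_subset _ _)]
      exact ⟨c, hc, fun h => lt_irrefl _ (Finset.mem_filter.1 h).2⟩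
    · rw [Finset.card_range, Finset.card_image_of_injOn hinj]
  have h1 : (pre π k X).card =
      ((pre π k X).image (fun c => (X.filter (fun d => π.symm d < π.symm c)).card)).card := by
    rw [Finset.card_image_of_injOn]
    intro c hc d hd
    unfold pre at hc hd
    exact hinj (Finset.mem_filter.1 hc).1 (Finset.mem_filter.1 hd).1
  have h2 : (pre π k X).image (fun c => (X.filter (fun d => π.symm d < π.symm c)).card) =
      Finset.range (min k X.card) := by
    ext y
    constructor
    · intro hy
      obtain ⟨c, hc, rfl⟩ := Finset.mem_image.1 hy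
      unfold pre at hc
      rw [Finset.mem_filter] at hc
      have h3 : (X.filter (fun d => π.symm d < π.symm c)).card ∈ Finset.range X.card := by
        rw [← himg]
        exact Finset.mem_image_of_mem _ hc.1
      rw [Finset.mem_range] at h3 ⊢
      exact lt_min hc.2 h3
    · intro hy
      rw [Finset.mem_range, lt_min_iff] at hy
      have h3 : y ∈ Finset.range X.card := Finset.mem_range.2 hy.2
      rw [← himg] at h3
      obtain ⟨c, hc, hcy⟩ := Finset.mem_image.1 h3
      refine Finset.mem_image.2 ⟨c, ?_, hcy⟩
      unfold pre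
      rw [Finset.mem_filter]
      refine ⟨hc, ?_⟩
      have h4 : (X.filter (fun d => π.symm d < π.symm c)).card = y := hcy
      rw [h4]
      exact hy.1
  rw [h1, h2, Finset.card_range]

theorem pre_sub {s : ℕ} (π : Equiv.Perm (Fin s)) (k : ℕ) (X : Finset (Fin s)) : pre π k X ⊆ X := by
  exact Finset.filter_subset _ _

theorem pr_pre {s : ℕ} (k : ℕ) (X : Finset (Fin s)) (c : Fin s) (hc : c ∈ X) :
    pr (fun π : Equiv.Perm (Fin s) => c ∈ pre π k X) = min 1 ((k : ℝ) / X.card) := by
  have hsw : ∀ d ∈ X, pr (fun π : Equiv.Perm (Fin s) => d ∈ pre π k X) =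
      pr (fun π : Equiv.Perm (Fin s) => c ∈ pre π k X) := by
    intro d hd
    refine (Prf_swap X c d (fun π e => e ∈ pre π k X) ?_).symm
    intro π
    have hcard : (X.filter (fun e => (Equiv.swap c d * π).symm e < (Equiv.swap c d * π).symm d)).card =
        (X.filter (fun e => π.symm e < π.symm c)).card := by
      apply Finset.card_nbij' (fun e => Equiv.swap c d e) (fun e => Equiv.swap c d e)
      · intro e he
        rw [Finset.mem_coe, Finset.mem_filter] at he ⊢
        refine ⟨Prf_swap_mem hc hd he.1, ?_⟩
        have h1 := he.2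
        rw [Prf_symm, Prf_symm, Equiv.swap_apply_right] at h1
        exact h1
      · intro e he
        rw [Finset.mem_coe, Finset.mem_filter] at he ⊢
        refine ⟨Prf_swap_mem hc hd he.1, ?_⟩
        rw [Prf_symm, Prf_symm, Equiv.swap_apply_right, Equiv.swap_apply_self]
        exact he.2
      · intro e _
        exact Equiv.swap_apply_self _ _ _
      · intro e _
        exact Equiv.swap_apply_self _ _ _
    unfold pre
    rw [Finset.mem_filter, Finset.mem_filter, hcard]
    exact ⟨fun h => ⟨hc, h.2⟩, fun h => ⟨hd, h.2⟩⟩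
  have hsum : ∑ d ∈ X, pr (fun π : Equiv.Perm (Fin s) => d ∈ pre π k X) =
      ((min k X.card : ℕ) : ℝ) := by
    rw [← ex_const (Ω := Equiv.Perm (Fin s)) ((min k X.card : ℕ) : ℝ)]
    have e1 : ∀ d ∈ X, pr (fun π : Equiv.Perm (Fin s) => d ∈ pre π k X) =
        ex (fun π : Equiv.Perm (Fin s) => if d ∈ pre π k X then (1 : ℝ) else 0) := by
      intro d _
      rw [ex_ind]
      congr 1
      funext π
      by_cases h : d ∈ pre π k X
      · rw [if_pos h, if_pos h]
      · rw [if_neg h, if_neg h]
    rw [Finset.sum_congr rfl e1, ← ex_sum]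
    congr 1
    funext π
    rw [Finset.sum_boole]
    congr 1
    rw [← pre_card π k X]
    congr 1
    ext e
    rw [Finset.mem_filter]
    exact ⟨fun h => h.2, fun h => ⟨pre_sub π k X h, h⟩⟩
  rw [Finset.sum_congr rfl hsw, Finset.sum_const, nsmul_eq_mul] at hsum
  have hpos : (0 : ℝ) < X.card := by exact_mod_cast Finset.card_pos.2 ⟨c, hc⟩
  have h1 : pr (fun π : Equiv.Perm (Fin s) => c ∈ pre π k X) =
      ((min k X.card : ℕ) : ℝ) / X.card := by
    rw [eq_div_iff hpos.ne', mul_comm]
    exact hsum
  rw [h1, Nat.cast_min, ← min_div_div_right hpos.le, div_self hpos.ne', min_comm]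

theorem pr_rank {s : ℕ} (k : ℕ) (X : Finset (Fin s)) (g : Fin s) (hg : g ∉ X) :
    pr (fun π : Equiv.Perm (Fin s) => (X.filter (fun d => π.symm d < π.symm g)).card < k) =
      min 1 ((k : ℝ) / (X.card + 1)) := by
  have h1 : (fun π : Equiv.Perm (Fin s) => (X.filter (fun d => π.symm d < π.symm g)).card < k) =
      (fun π : Equiv.Perm (Fin s) => g ∈ pre π k (insert g X)) := by
    funext π
    have e1 : (insert g X).filter (fun d => π.symm d < π.symm g) =
        X.filter (fun d => π.symm d < π.symm g) := by
      ext e
      rw [Finset.mem_filter, Finset.mem_filter, Finset.mem_insert]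
      constructor
      · rintro ⟨h | h, h2⟩
        · rw [h] at h2
          exact absurd h2 (lt_irrefl _)
        · exact ⟨h, h2⟩
      · rintro ⟨h, h2⟩
        exact ⟨Or.inr h, h2⟩
    unfold pre
    rw [Finset.mem_filter, e1]
    exact propext ⟨fun h => ⟨Finset.mem_insert_self _ _, h⟩, fun h => h.2⟩
  rw [h1, pr_pre k (insert g X) g (Finset.mem_insert_self _ _), Finset.card_insert_of_notMem hg]
  push_cast
  rfl

end Pool.Agent.H65.GI
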