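/-
ROW Det. One round preserves the structural invariants (deterministic).
PROOF. Facts: `nw ω v = some c → c ∈ L v ∧ sv ω c v ∧ act ω v c` (`first_iff`); `nl ω v ⊆ Sv ω v ⊆ L v` (`pre_sub`), `|nl ω v| = min l' |Sv ω v|` (`pre_card`).
`un`: `v ∈ nY` means `v ∈ Y`, `nw = none`, so `nf v = nw = none`. `co`: `v ∉ nY`: if `v ∈ Y` then `nf v = nw ≠ none`, else `nf v = f v ≠ none` (`co`). `fb`: new colours are in `L v` (`Lfb`), old ones by `fb`. `Lfb`: `nl ⊆ L`.
`prop`: `nf v = some c`, `z ∈ C c v`; suppose `nf z = some c`. (i) `v, z ∈ Y`: `nw v = some c`, `nw z = some c`: `c ∈ L z`, `act z c`, but `sv c v` says `¬ act z c`. (ii) `v ∈ Y`, `z ∉ Y`: `c ∈ L v`, `f z = some c`: contradicts `Lc v`. (iii) `v ∉ Y`, `z ∈ Y`: `c ∈ L z`, `v ∈ C c z` (`symm`), `f v = some c`: `Lc z`.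
(iv) both `∉ Y`: old `prop`. `Lc`: `v ∈ nY`, `c ∈ nl v ⊆ Sv v`, `z ∈ C c v`, `nf z = some c`: `z ∉ Y`: `Lc`; `z ∈ Y`: `c ∈ L z`, `act z c`, contradiction with `sv c v`. `le`, `ge`, `eq`: `|nl ω v| = l'` as `l' ≤ |Sv ω v|`. `deg`: hypothesis `hD`.
`nf_CT`: `nf x = some c` iff (`x ∈ Y` and `nw x = some c`) or (`x ∉ Y` and `f x = some c`); for `x ∈ Y` `f x = none`. So the two filters are disjoint and the counts add. `nf_FT`: pairs with `nf = some` are old ones or have `act`.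
-/
import Pool.Agent.H65.GI.Prf

set_option autoImplicit false

namespace Pool.Agent.H65.GI

open Finset Classical

section
variable {V : Type} [Fintype V] {s n b : ℕ}

theorem nw_some (C : Fin s → V → Finset V) (Y : Finset V) (L : V → Finset (Fin s))
    (ω : Ix V s n → Cn s b) (v : V) (c : Fin s) (h : nw C Y L ω v = some c) :
    c ∈ L v ∧ sv C Y L ω c v ∧ act ω v c := by
  unfold nw at h
  rw [first_iff] at h
  obtain ⟨h1, -⟩ := h
  rw [mem_filter] at h1
  obtain ⟨h2, h3⟩ := h1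
  unfold Sv at h2
  rw [mem_filter] at h2
  exact ⟨h2.1, h2.2, h3⟩

theorem det (G : SimpleGraph V) (C : Fin s → V → Finset V) (n0 : ℕ) (hC : IsSys G C n0)
    (Fb : V → Finset (Fin s)) (Z : Finset V) (K0 l n1 : ℕ) (Y : Finset V) (L : V → Finset (Fin s))
    (f : V → Option (Fin s)) (hok : Ok C Fb Z K0 l n1 Y L f) (l' n' : ℕ)
    (ω : Ix V s n → Cn s b)
    (hS : ∀ v ∈ nY C Y L ω, l' ≤ (Sv C Y L ω v).card)
    (hD : ∀ v ∈ nY C Y L ω, ∀ c ∈ nl C Y L l' ω v, nn C (nY C Y L ω) (nl C Y L l' ω) c v ≤ n') :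
    Ok C Fb ∅ K0 l' n' (nY C Y L ω) (nl C Y L l' ω) (nf C Y L f ω) := by
  have hnl : ∀ v c, c ∈ nl C Y L l' ω v → c ∈ L v ∧ sv C Y L ω c v := by
    intro v c hc
    have h1 := pre_sub _ _ _ hc
    unfold Sv at h1
    rw [mem_filter] at h1
    exact h1
  have hcard : ∀ v ∈ nY C Y L ω, (nl C Y L l' ω v).card = l' := by
    intro v hv
    unfold nl
    rw [pre_card]
    exact min_eq_left (hS v hv)
  have hnY : ∀ v, v ∈ nY C Y L ω ↔ v ∈ Y ∧ nw C Y L ω v = none := by
    intro v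
    unfold nY
    rw [mem_filter]
  have hY : ∀ v, v ∈ Y → nf C Y L f ω v = nw C Y L ω v := by
    intro v hv
    unfold nf
    rw [if_pos hv]
  have hY' : ∀ v, v ∉ Y → nf C Y L f ω v = f v := by
    intro v hv
    unfold nf
    rw [if_neg hv]
  refine ⟨?_, ?_, ?_, ?_, ?_, ?_, ?_, ?_, ?_, ?_⟩
  · intro v hv
    obtain ⟨h1, h2⟩ := (hnY v).mp hv
    rw [hY v h1, h2]
  · intro v hv
    by_cases h1 : v ∈ Y
    · rw [hY v h1]
      intro h2
      exact hv ((hnY v).mpr ⟨h1, h2⟩)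
    · rw [hY' v h1]
      exact hok.co v h1
  · intro v c hc
    by_cases h1 : v ∈ Y
    · rw [hY v h1] at hc
      exact hok.Lfb v h1 c (nw_some C Y L ω v c hc).1
    · rw [hY' v h1] at hc
      exact hok.fb v c hc
  · intro v hv c hc
    exact hok.Lfb v ((hnY v).mp hv).1 c (hnl v c hc).1
  · intro v c hc z hz hz2
    by_cases h1 : v ∈ Y
    · rw [hY v h1] at hc
      obtain ⟨a1, a2, a3⟩ := nw_some C Y L ω v c hc
      by_cases h2 : z ∈ Y
      · rw [hY z h2] at hz2
        obtain ⟨b1, b2, b3⟩ := nw_some C Y L ω z c hz2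
        exact a2.1 z hz h2 b1 b3
      · rw [hY' z h2] at hz2
        exact hok.Lc v h1 c a1 z hz hz2
    · rw [hY' v h1] at hc
      by_cases h2 : z ∈ Y
      · rw [hY z h2] at hz2
        obtain ⟨b1, b2, b3⟩ := nw_some C Y L ω z c hz2
        exact hok.Lc z h2 c b1 v (hC.symm c v z hz) hc
      · rw [hY' z h2] at hz2
        exact hok.prop v c hc z hz hz2
  · intro v hv c hc z hz hz2
    obtain ⟨a1, a2⟩ := hnl v c hc
    obtain ⟨h1, -⟩ := (hnY v).mp hv
    by_cases h2 : z ∈ Y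
    · rw [hY z h2] at hz2
      obtain ⟨b1, b2, b3⟩ := nw_some C Y L ω z c hz2
      exact a2.1 z hz h2 b1 b3
    · rw [hY' z h2] at hz2
      exact hok.Lc v h1 c a1 z hz hz2
  · intro v hv
    exact (hcard v hv).le
  · intro v hv
    rw [hcard v hv]
    exact Nat.le_add_right _ _
  · intro v hv _
    exact hcard v hv
  · intro v hv c hc
    exact hD v hv c hc

theorem nf_CT (C : Fin s → V → Finset V) (Y : Finset V) (L : V → Finset (Fin s))
    (f : V → Option (Fin s)) (hun : ∀ v ∈ Y, f v = none) (ω : Ix V s n → Cn s b) (T : Finset V)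
    (c : Fin s) :
    CT T (nf C Y L f ω) c = CT T f c + (T.filter (fun x => x ∈ Y ∧ nw C Y L ω x = some c)).card := by
  unfold CT
  rw [← card_union_of_disjoint]
  · congr 1
    ext x
    rw [mem_union, mem_filter, mem_filter, mem_filter]
    unfold nf
    by_cases h : x ∈ Y
    · rw [if_pos h, hun x h]
      simp [h]
    · rw [if_neg h]
      simp [h]
  · rw [disjoint_left]
    intro x hx hx2
    rw [mem_filter] at hx hx2
    rw [hun x hx2.2.1] at hx
    exact absurd hx.2 (by simp)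

theorem nf_FT (C : Fin s → V → Finset V) (Y : Finset V) (L : V → Finset (Fin s))
    (f : V → Option (Fin s)) (ω : Ix V s n → Cn s b) (F : Finset (V × Fin s)) :
    FT F (nf C Y L f ω) ≤ FT F f + (F.filter (fun p => act ω p.1 p.2)).card := by
  unfold FT
  refine le_trans (card_le_card ?_) (card_union_le _ _)
  intro p hp
  rw [mem_filter] at hp
  rw [mem_union, mem_filter, mem_filter]
  obtain ⟨h1, h2⟩ := hp
  by_cases h : p.1 ∈ Y
  · right
    have h3 : nw C Y L ω p.1 = some p.2 := by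
      unfold nf at h2
      rwa [if_pos h] at h2
    exact ⟨h1, (nw_some C Y L ω p.1 p.2 h3).2.2⟩
  · left
    unfold nf at h2
    rw [if_neg h] at h2
    exact ⟨h1, h2⟩

end

end Pool.Agent.H65.GI
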