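/-
ROW Lw. The probabilities of getting a colour and of keeping a colour.
PROOF. `nw_pr`: `nw ω v = some c` iff for `B = (Sv ω v).filter act`: `first (pm ω v) B = some c`; `c ∈ B` then (`first_iff`). Sum over all `B ⊆ L v` with `c ∈ B` of `law1` with `P π = (first π B = some c)`, `pr P = 1/|B|` (`pr_first`):
with `x = kap/b`, `l = |L v|`: `∑_{B ∋ c} x^|B| (1-x)^(l-|B|) / |B|`. The number of `B ⊆ L v` with `c ∈ B`, `|B| = k+1` is `(l-1).choose k` (`B ↦ B.erase c`, `Finset.sum_powerset_apply_card`), so this is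
`∑_{k<l} choose (l-1) k x^(k+1) (1-x)^(l-1-k) / (k+1) = (1/l) ∑_{k<l} choose l (k+1) x^(k+1) (1-x)^(l-(k+1))` (`Nat.succ_mul_choose_eq`: `l choose(l-1,k) = choose(l,k+1)(k+1)`) `= (1/l) ((x+1-x)^l - (1-x)^l) = cc` (`add_pow`, `Finset.sum_range_succ'`).
(The event is the disjoint union over `B`: use `pr A = ∑_B pr (A ∧ stuff = B)`, from `ex_ind`, `ex_sum` or `Finset.card_eq_sum_card_fiberwise`.)
`nl_pr`: `nw ω v = none` iff `(Sv ω v).filter act = ∅` (`first_none_iff`) iff no `c ∈ Sv ω v` is activated. Sum over `B = Sv ω v ∋ c` of `law2` with `P π = (c ∈ pre π l' B)`, `pr P = min 1 (l'/|B|)` (`pr_pre`), grouped by `|B| = k+1`: this is `qq`.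
`none_pr`: `law1` with `B = ∅`, `P = True` (`pr True = 1`).
-/
import Pool.Agent.H65.GI.Tri
import Pool.Agent.H65.GI.Prf

set_option autoImplicit false

namespace Pool.Agent.H65.GI

open Finset Classical

private theorem Lw_fib {Ω β : Type} [Fintype Ω] (F : Ω → β) (A : Ω → Prop) (T : Finset β)
    (h : ∀ ω, A ω → F ω ∈ T) : pr A = ∑ B ∈ T, pr (fun ω => F ω = B ∧ A ω) := by
  unfold pr
  rw [← Finset.sum_div]
  congr 1
  rw [Finset.card_eq_sum_card_fiberwise (f := F) (t := T)
    (fun ω hω => h ω (Finset.mem_filter.1 hω).2)]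
  rw [Nat.cast_sum]
  refine Finset.sum_congr rfl fun B _ => ?_
  congr 2
  ext ω
  simp only [Finset.mem_filter, Finset.mem_univ, true_and]
  exact and_comm

private theorem Lw_sum {s : ℕ} (X : Finset (Fin s)) (c : Fin s) (hc : c ∈ X) (g : ℕ → ℝ) :
    ∑ B ∈ X.powerset.filter (fun B => c ∈ B), g B.card =
      ∑ k ∈ range X.card, ((X.card - 1).choose k : ℝ) * g (k + 1) := by
  have h1 : ∑ B ∈ X.powerset.filter (fun B => c ∈ B), g B.card =
      ∑ B ∈ (X.erase c).powerset, g (B.card + 1) := by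
    apply Finset.sum_nbij' (fun B => B.erase c) (fun B => insert c B)
    · intro B hB
      obtain ⟨a1, a2⟩ := Finset.mem_filter.1 hB
      exact Finset.mem_powerset.2 (Finset.erase_subset_erase c (Finset.mem_powerset.1 a1))
    · intro B hB
      refine Finset.mem_filter.2 ⟨Finset.mem_powerset.2 ?_, Finset.mem_insert_self _ _⟩
      exact Finset.insert_subset hc ((Finset.mem_powerset.1 hB).trans (Finset.erase_subset _ _))
    · intro B hB
      exact Finset.insert_erase (Finset.mem_filter.1 hB).2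
    · intro B hB
      apply Finset.erase_insert
      intro h
      exact (Finset.mem_erase.1 ((Finset.mem_powerset.1 hB) h)).1 rfl
    · intro B hB
      rw [Finset.card_erase_add_one (Finset.mem_filter.1 hB).2]
  rw [h1, Finset.sum_powerset_apply_card (fun k => g (k + 1)), Finset.card_erase_of_mem hc,
    Nat.sub_add_cancel (Finset.card_pos.2 ⟨c, hc⟩)]
  exact Finset.sum_congr rfl fun k _ => by rw [nsmul_eq_mul]

private theorem Lw_cc (x : ℝ) (l : ℕ) (hl : 0 < l) :
    ∑ k ∈ range l, ((l - 1).choose k : ℝ) *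
      (x ^ (k + 1) * (1 - x) ^ (l - (k + 1)) * (1 / ((k + 1 : ℕ) : ℝ))) =
      (1 - (1 - x) ^ l) / l := by
  obtain ⟨m, rfl⟩ : ∃ m, l = m + 1 := ⟨l - 1, by omega⟩
  have hm : ((m + 1 : ℕ) : ℝ) ≠ 0 := Nat.cast_ne_zero.2 (by omega)
  rw [eq_div_iff hm, Finset.sum_mul, Nat.add_sub_cancel]
  have h2 : ∀ k ∈ range (m + 1), (m.choose k : ℝ) *
      (x ^ (k + 1) * (1 - x) ^ (m + 1 - (k + 1)) * (1 / ((k + 1 : ℕ) : ℝ))) * ((m + 1 : ℕ) : ℝ) =
      x ^ (k + 1) * (1 - x) ^ (m + 1 - (k + 1)) * ((m + 1).choose (k + 1) : ℝ) := by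
    intro k _
    have hk : ((k + 1 : ℕ) : ℝ) ≠ 0 := Nat.cast_ne_zero.2 (by omega)
    have h3 : ((m + 1 : ℕ) : ℝ) * (m.choose k : ℝ) =
        ((m + 1).choose (k + 1) : ℝ) * ((k + 1 : ℕ) : ℝ) := by
      exact_mod_cast Nat.add_one_mul_choose_eq m k
    field_simp
    linear_combination (x ^ (k + 1) * (1 - x) ^ (m + 1 - (k + 1))) * h3
  rw [Finset.sum_congr rfl h2]
  have h4 := add_pow x (1 - x) (m + 1)
  rw [Finset.sum_range_succ'] at h4
  have h5 : x + (1 - x) = 1 := by ring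
  rw [h5, one_pow] at h4
  simp only [pow_zero, Nat.sub_zero, Nat.choose_zero_right, Nat.cast_one, one_mul, mul_one] at h4
  linarith

private theorem Lw_none_iff {V : Type} [Fintype V] {s n b : ℕ} (C : Fin s → V → Finset V)
    (Y : Finset V) (L : V → Finset (Fin s)) (ω : Ix V s n → Cn s b) (v : V) :
    nw C Y L ω v = none ↔ (Sv C Y L ω v).filter (fun c => act ω v c) = ∅ := by
  unfold nw
  exact first_none_iff _ _

section
variable {V : Type} [Fintype V] {s n b : ℕ}

theorem nw_pr [NeZero b] (C : Fin s → V → Finset V) (hirr : ∀ c v, v ∉ C c v) (Y : Finset V)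
    (L : V → Finset (Fin s)) (v : V) (l : ℕ) (hl : (L v).card = l)
    (hn : ∀ c ∈ L v, nn C Y L c v ≤ n) (c : Fin s) (hc : c ∈ L v) :
    pr (fun ω : Ix V s n → Cn s b => nw C Y L ω v = some c) = cc b n l := by
  have hfib := Lw_fib (Ω := Ix V s n → Cn s b)
    (fun ω => (Sv C Y L ω v).filter (fun c => act ω v c))
    (fun ω => nw C Y L ω v = some c) ((L v).powerset.filter (fun B => c ∈ B))
    (by
      intro ω hω
      have h1 := ((first_iff _ _ _).1 (show Pool.Agent.H67.HY.first (pm ω v)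
        ((Sv C Y L ω v).filter (fun c => act ω v c)) = some c from hω)).1
      refine Finset.mem_filter.2 ⟨Finset.mem_powerset.2 ?_, h1⟩
      exact (Finset.filter_subset _ _).trans (Finset.filter_subset _ _))
  rw [hfib]
  have h2 : ∀ B ∈ (L v).powerset.filter (fun B => c ∈ B),
      pr (fun ω : Ix V s n → Cn s b => (Sv C Y L ω v).filter (fun c => act ω v c) = B ∧
        nw C Y L ω v = some c) =
      (kap b n / b) ^ B.card * (1 - kap b n / b) ^ (l - B.card) * (1 / (B.card : ℝ)) := by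
    intro B hB
    obtain ⟨hB1, hB2⟩ := Finset.mem_filter.1 hB
    have h3 : (fun ω : Ix V s n → Cn s b => (Sv C Y L ω v).filter (fun c => act ω v c) = B ∧
        nw C Y L ω v = some c) = (fun ω : Ix V s n → Cn s b =>
        (Sv C Y L ω v).filter (fun c => act ω v c) = B ∧
          Pool.Agent.H67.HY.first (pm ω v) B = some c) := by
      funext ω
      refine propext (and_congr_right fun h => ?_)
      unfold nw
      rw [h]
    rw [h3, law1 C hirr Y L v hn B (Finset.mem_powerset.1 hB1)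
      (fun π => Pool.Agent.H67.HY.first π B = some c), pr_first B c hB2, hl]
  rw [Finset.sum_congr rfl h2, Lw_sum (L v) c hc
    (fun k => (kap b n / b) ^ k * (1 - kap b n / b) ^ (l - k) * (1 / (k : ℝ))), hl,
    Lw_cc _ l (by rw [← hl]; exact Finset.card_pos.2 ⟨c, hc⟩)]
  rfl

theorem nl_pr [NeZero b] (C : Fin s → V → Finset V) (hirr : ∀ c v, v ∉ C c v) (Y : Finset V)
    (L : V → Finset (Fin s)) (v : V) (l l' : ℕ) (hl : (L v).card = l)
    (hn : ∀ c ∈ L v, nn C Y L c v ≤ n) (c : Fin s) (hc : c ∈ L v) :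
    pr (fun ω : Ix V s n → Cn s b => nw C Y L ω v = none ∧ c ∈ nl C Y L l' ω v) =
      qq b n l l' := by
  have hsub : ∀ ω : Ix V s n → Cn s b, Sv C Y L ω v ⊆ L v := fun ω => Finset.filter_subset _ _
  have hfib := Lw_fib (Ω := Ix V s n → Cn s b) (fun ω => Sv C Y L ω v)
    (fun ω => nw C Y L ω v = none ∧ c ∈ nl C Y L l' ω v)
    ((L v).powerset.filter (fun B => c ∈ B))
    (by
      intro ω hω
      exact Finset.mem_filter.2 ⟨Finset.mem_powerset.2 (hsub ω), pre_sub _ _ _ hω.2⟩)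
  rw [hfib]
  have h2 : ∀ B ∈ (L v).powerset.filter (fun B => c ∈ B),
      pr (fun ω : Ix V s n → Cn s b => Sv C Y L ω v = B ∧
        nw C Y L ω v = none ∧ c ∈ nl C Y L l' ω v) =
      (kap b n * (1 - 1 / (b : ℝ))) ^ B.card * (1 - kap b n) ^ (l - B.card) *
        min 1 ((l' : ℝ) / B.card) := by
    intro B hB
    obtain ⟨hB1, hB2⟩ := Finset.mem_filter.1 hB
    have h3 : (fun ω : Ix V s n → Cn s b => Sv C Y L ω v = B ∧
        nw C Y L ω v = none ∧ c ∈ nl C Y L l' ω v) = (fun ω : Ix V s n → Cn s b =>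
        Sv C Y L ω v = B ∧ (∀ c ∈ B, ¬ act ω v c) ∧ c ∈ pre (pm ω v) l' B) := by
      funext ω
      refine propext (and_congr_right fun h => ?_)
      rw [Lw_none_iff, h, Finset.filter_eq_empty_iff]
      unfold nl
      rw [h]
    rw [h3, law2 C hirr Y L v hn B (Finset.mem_powerset.1 hB1)
      (fun π => c ∈ pre π l' B), pr_pre l' B c hB2, hl]
  rw [Finset.sum_congr rfl h2, Lw_sum (L v) c hc
    (fun k => (kap b n * (1 - 1 / (b : ℝ))) ^ k * (1 - kap b n) ^ (l - k) *
      min 1 ((l' : ℝ) / k)), hl]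
  unfold qq
  refine Finset.sum_congr rfl fun k _ => ?_
  have h4 : l - (k + 1) = l - 1 - k := by omega
  rw [h4]
  push_cast
  ring

theorem none_pr [NeZero b] (C : Fin s → V → Finset V) (hirr : ∀ c v, v ∉ C c v) (Y : Finset V)
    (L : V → Finset (Fin s)) (v : V) (hn : ∀ c ∈ L v, nn C Y L c v ≤ n) :
    pr (fun ω : Ix V s n → Cn s b => nw C Y L ω v = none) = (1 - kap b n / b) ^ (L v).card := by
  have h3 : (fun ω : Ix V s n → Cn s b => nw C Y L ω v = none) =
      (fun ω : Ix V s n → Cn s b => (Sv C Y L ω v).filter (fun c => act ω v c) = ∅ ∧ True) := by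
    funext ω
    rw [Lw_none_iff, and_true]
  have h4 : pr (fun _ : Equiv.Perm (Fin s) => True) = 1 := by
    rw [ex_ind]
    simp only [if_true]
    exact ex_const 1
  rw [h3, law1 C hirr Y L v hn ∅ (Finset.empty_subset _) (fun _ => True), h4]
  simp

end

end Pool.Agent.H65.GI
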