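/-
ROW Nbd. Elementary bounds for `kap`, `cc`, `qq`.
PROOF. `0 ≤ 1 - 1/b ≤ 1` for `b ≥ 1`. `kap_quarter`: `(1-1/n)^n` is `≥ 1/4` for `n ≥ 2`: `(1 - 1/n)^n = ((1-1/n)^(n/2))^2`-style or: by Bernoulli `(1-1/n)^(n-1) = 1/(1+1/(n-1))^(n-1) ≥ 1/e`...; simplest: for `n ≥ 2` and `x = 1/n ≤ 1/2`:
`1 - x ≥ exp (-x - x^2)` (`Real.add_one_le_exp`-type; or `log (1-x) ≥ -x/(1-x)`: `Real.one_sub_inv_le_log_of_pos`: `log (1 - 1/n) ≥ 1 - 1/(1-1/n) = -1/(n-1)`), so `(1-1/n)^n ≥ exp (-n/(n-1))`, which is `≥ exp (-4/3) > 1/4` for `n ≥ 4` (`exp (4/3) < 4`); `n = 2`: `1/4`;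
`n = 3`: `8/27 ≥ 1/4`.
`kap_lin`: Bernoulli (`one_add_mul_le_pow`): `(1 - 1/b)^n ≥ 1 - n/b`.
`cc`: with `x = kap/b ∈ [0,1]`: `0 ≤ 1-(1-x)^l ≤ min 1 (l x)` (Bernoulli), `x ≤ 1/b`; `cc_ge`: `(1-x)^l ≤ exp (-(x l))`.
`qq`: `0 ≤ qq` termwise; `qq ≤ l'/l`: `min 1 (l'/(k+1)) ≤ l'/(k+1)`, `choose (l-1) k / (k+1) = choose l (k+1) / l`; with `p = kap (1-1/b)`, `z = 1 - kap`, `∑_{k<l} choose l (k+1) p^(k+1) z^(l-(k+1)) ≤ (p+z)^l ≤ 1` (`add_pow`, terms nonnegative).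
-/
import Pool.Agent.H65.GI.Defs

set_option autoImplicit false

namespace Pool.Agent.H65.GI

open Finset Classical

private theorem Nbd_base (b : ℕ) (hb : 1 ≤ b) : 0 ≤ 1 - 1 / (b : ℝ) ∧ 1 - 1 / (b : ℝ) ≤ 1 := by
  have hb' : (1 : ℝ) ≤ b := by exact_mod_cast hb
  have h1 : 1 / (b : ℝ) ≤ 1 := by
    rw [div_le_one (by linarith)]
    exact hb'
  have h2 : 0 ≤ 1 / (b : ℝ) := by positivity
  exact ⟨by linarith, by linarith⟩

theorem kap_nonneg (b n : ℕ) (hb : 1 ≤ b) : 0 ≤ kap b n := pow_nonneg (Nbd_base b hb).1 n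

theorem kap_le_one (b n : ℕ) (hb : 1 ≤ b) : kap b n ≤ 1 :=
  pow_le_one₀ (Nbd_base b hb).1 (Nbd_base b hb).2

theorem kap_pos (b n : ℕ) (hb : 2 ≤ b) : 0 < kap b n := by
  refine pow_pos ?_ n
  have hb' : (2 : ℝ) ≤ b := by exact_mod_cast hb
  have h1 : 1 / (b : ℝ) < 1 := by
    rw [div_lt_one (by linarith)]
    linarith
  linarith

theorem kap_quarter (n : ℕ) (hn : 2 ≤ n) : 1 / 4 ≤ kap n n := by
  have hn' : (2 : ℝ) ≤ n := by exact_mod_cast hn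
  have hn0 : (0 : ℝ) < n := by linarith
  have h0 := (Nbd_base n (by omega)).1
  have h1 : (-1 : ℝ) ≤ -(1 / (n : ℝ)) := by linarith
  have h2 := one_add_mul_self_le_rpow_one_add h1 (p := (n : ℝ) / 2) (by linarith)
  have h3 : 1 + (n : ℝ) / 2 * -(1 / (n : ℝ)) = 1 / 2 := by
    field_simp
    norm_num
  rw [h3, ← sub_eq_add_neg] at h2
  have h4 : kap n n = ((1 - 1 / (n : ℝ)) ^ ((n : ℝ) / 2)) ^ 2 := by
    rw [← Real.rpow_natCast, ← Real.rpow_mul h0, kap, ← Real.rpow_natCast]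
    congr 1
    push_cast
    ring
  rw [h4]
  nlinarith

theorem kap_lin (b n : ℕ) (hb : 1 ≤ b) : 1 - (n : ℝ) / b ≤ kap b n := by
  have h0 := (Nbd_base b hb).1
  have h1 := one_add_mul_le_pow (a := -(1 / (b : ℝ))) (by linarith) n
  calc 1 - (n : ℝ) / b = 1 + (n : ℝ) * -(1 / (b : ℝ)) := by ring
    _ ≤ (1 + -(1 / (b : ℝ))) ^ n := h1
    _ = kap b n := by rw [kap, sub_eq_add_neg]

private theorem Nbd_x (b n : ℕ) (hb : 1 ≤ b) :
    0 ≤ kap b n / b ∧ kap b n / b ≤ 1 / b ∧ kap b n / b ≤ 1 := by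
  have hb' : (1 : ℝ) ≤ b := by exact_mod_cast hb
  have h1 := kap_nonneg b n hb
  have h2 := kap_le_one b n hb
  have h3 := (Nbd_base b hb).1
  have h4 : kap b n / b ≤ 1 / b := div_le_div_of_nonneg_right h2 (by linarith)
  exact ⟨by positivity, h4, by linarith⟩

theorem cc_nonneg (b n l : ℕ) (hb : 1 ≤ b) : 0 ≤ cc b n l := by
  obtain ⟨h1, h2, h3⟩ := Nbd_x b n hb
  unfold cc
  have h4 : (1 - kap b n / b) ^ l ≤ 1 := pow_le_one₀ (by linarith) (by linarith)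
  exact div_nonneg (by linarith) (Nat.cast_nonneg l)

theorem cc_le (b n l : ℕ) (hb : 1 ≤ b) (hl : 1 ≤ l) : cc b n l ≤ 1 / l ∧ cc b n l ≤ 1 / b := by
  obtain ⟨h1, h2, h3⟩ := Nbd_x b n hb
  have hl' : (1 : ℝ) ≤ l := by exact_mod_cast hl
  have h4 : 0 ≤ (1 - kap b n / b) ^ l := pow_nonneg (by linarith) l
  unfold cc
  constructor
  · exact div_le_div_of_nonneg_right (by linarith) (by linarith)
  · rw [div_le_iff₀ (by linarith)]
    have h5 := one_add_mul_le_pow (a := -(kap b n / b)) (by linarith) l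
    rw [← sub_eq_add_neg] at h5
    have h6 : (l : ℝ) * (kap b n / b) ≤ l * (1 / b) := mul_le_mul_of_nonneg_left h2 (by linarith)
    linarith

theorem cc_ge (b n l : ℕ) (hb : 1 ≤ b) (hl : 1 ≤ l) :
    (1 - Real.exp (-(kap b n * l / b))) / l ≤ cc b n l := by
  obtain ⟨h1, h2, h3⟩ := Nbd_x b n hb
  have hl' : (1 : ℝ) ≤ l := by exact_mod_cast hl
  unfold cc
  refine div_le_div_of_nonneg_right ?_ (by linarith)
  have h4 : (1 - kap b n / b) ^ l ≤ Real.exp (-(kap b n * l / b)) := by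
    calc (1 - kap b n / b) ^ l ≤ (Real.exp (-(kap b n / b))) ^ l := by
          refine pow_le_pow_left₀ (by linarith) ?_ l
          have := Real.add_one_le_exp (-(kap b n / b))
          linarith
      _ = Real.exp (-(kap b n * l / b)) := by
          rw [← Real.exp_nat_mul]
          congr 1
          ring
  linarith

theorem qq_nonneg (b n l l' : ℕ) (hb : 1 ≤ b) : 0 ≤ qq b n l l' := by
  have h1 := kap_nonneg b n hb
  have h2 := kap_le_one b n hb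
  have h3 := (Nbd_base b hb).1
  unfold qq
  refine Finset.sum_nonneg fun k _ => ?_
  have h4 : (0 : ℝ) ≤ min 1 ((l' : ℝ) / (k + 1)) := le_min zero_le_one (by positivity)
  have h5 : 0 ≤ (kap b n * (1 - 1 / (b : ℝ))) ^ (k + 1) := pow_nonneg (mul_nonneg h1 h3) _
  have h6 : 0 ≤ (1 - kap b n) ^ (l - 1 - k) := pow_nonneg (by linarith) _
  positivity

theorem qq_le (b n l l' : ℕ) (hb : 1 ≤ b) (hl : 1 ≤ l) : qq b n l l' ≤ (l' : ℝ) / l := by
  have h1 := kap_nonneg b n hb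
  have h2 := kap_le_one b n hb
  have h3 := Nbd_base b hb
  obtain ⟨m, rfl⟩ : ∃ m, l = m + 1 := ⟨l - 1, by omega⟩
  set p : ℝ := kap b n * (1 - 1 / (b : ℝ)) with hp
  set z : ℝ := 1 - kap b n with hz
  have hp0 : 0 ≤ p := mul_nonneg h1 h3.1
  have hz0 : 0 ≤ z := by linarith
  have hpz : p + z ≤ 1 := by
    have : p ≤ kap b n := by
      calc p ≤ kap b n * 1 := mul_le_mul_of_nonneg_left h3.2 h1
        _ = kap b n := mul_one _
    linarith
  have hm : (0 : ℝ) < (m : ℝ) + 1 := by positivity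
  have hterm : ∀ k ∈ range (m + 1), ((m + 1 - 1).choose k : ℝ) * p ^ (k + 1) *
      z ^ (m + 1 - 1 - k) * min 1 ((l' : ℝ) / (k + 1)) ≤
      ((l' : ℝ) / (m + 1)) * (p ^ (k + 1) * z ^ (m + 1 - (k + 1)) * ((m + 1).choose (k + 1) : ℝ)) := by
    intro k _
    have hk : (0 : ℝ) < (k : ℝ) + 1 := by positivity
    have e1 : m + 1 - 1 = m := rfl
    have e2 : m + 1 - (k + 1) = m - k := by omega
    rw [e1, e2]
    have e3 : ((m : ℝ) + 1) * (m.choose k : ℝ) = ((m + 1).choose (k + 1) : ℝ) * ((k : ℝ) + 1) := by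
      have := Nat.add_one_mul_choose_eq m k
      exact_mod_cast this
    have e4 : (m.choose k : ℝ) * ((l' : ℝ) / (k + 1)) =
        ((l' : ℝ) / (m + 1)) * ((m + 1).choose (k + 1) : ℝ) := by
      field_simp
      linear_combination (l' : ℝ) * e3
    calc (m.choose k : ℝ) * p ^ (k + 1) * z ^ (m - k) * min 1 ((l' : ℝ) / (k + 1))
        ≤ (m.choose k : ℝ) * p ^ (k + 1) * z ^ (m - k) * ((l' : ℝ) / (k + 1)) :=
          mul_le_mul_of_nonneg_left (min_le_right _ _) (by positivity)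
      _ = p ^ (k + 1) * z ^ (m - k) * ((m.choose k : ℝ) * ((l' : ℝ) / (k + 1))) := by ring
      _ = ((l' : ℝ) / (m + 1)) * (p ^ (k + 1) * z ^ (m - k) * ((m + 1).choose (k + 1) : ℝ)) := by
          rw [e4]; ring
  unfold qq
  rw [← hp, ← hz]
  calc _ ≤ ∑ k ∈ range (m + 1),
        ((l' : ℝ) / (m + 1)) * (p ^ (k + 1) * z ^ (m + 1 - (k + 1)) * ((m + 1).choose (k + 1) : ℝ)) :=
        Finset.sum_le_sum hterm
    _ = ((l' : ℝ) / (m + 1)) * ∑ k ∈ range (m + 1),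
        p ^ (k + 1) * z ^ (m + 1 - (k + 1)) * ((m + 1).choose (k + 1) : ℝ) := by
        rw [Finset.mul_sum]
    _ ≤ ((l' : ℝ) / (m + 1)) * 1 := by
        refine mul_le_mul_of_nonneg_left ?_ (by positivity)
        have h5 : (p + z) ^ (m + 1) ≤ 1 := pow_le_one₀ (by positivity) hpz
        rw [add_pow, Finset.sum_range_succ'] at h5
        have h6 : 0 ≤ p ^ 0 * z ^ (m + 1 - 0) * ((m + 1).choose 0 : ℝ) := by positivity
        linarith
    _ = (l' : ℝ) / ((m + 1 : ℕ) : ℝ) := by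
        push_cast
        ring

end Pool.Agent.H65.GI
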