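/-
ROW Iob. Upper bound for the probability of the private event `Io`.
PROOF. Let `W = (L e).filter (c ∉ k ∧ c ≠ g)`; `|W| ≥ |L e| - |k| - 1 ≥ l - K0 - k0 - 2 =: N1`. Choose `W' ⊆ W` ... not needed. Facts: `svp ω c e` and `act ω e c` are `Loc` on the colour block `cb V n c`; for every `c ∈ L e`: `kap ≤ pr (svp ω c e)` (it is implied by `sv ω c e`, which
has probability `kap` by `sv_pr`), and `act ω e c`, `svp ω c e` are independent (`e ∉ C c e`), `pr (act ∧ svp) ≥ kap / b`. For `g`: `svp ω g e` is the conjunction of `¬ act` at the `n_P` vertices `z ∈ C g e ∩ P ∩ Y`, `g ∈ L z`, and of `n - nn` dummies, with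
`n_P ≥ nn - h0` (hypothesis `hout`), so `pr (svp ω g e) = (1-1/b)^(n_P + n - nn) ≤ (1-1/b)^(n - h0) ≤ kap b n / (1-1/b)^h0` (if `n_P + n - nn + h0 ≥ n`).
Let `R ω = W.filter (svp ω c e)`, `M0 = kap N1 - sqrt (8 l lam) > 0`. `Io ω ⊆ (svp ω g e) ∧ [(∀ c ∈ R ω, ¬ act ω e c) ∧ rank]`, `rank := #{c ∈ R ω : π⁻¹ c < π⁻¹ g} < l'`, `π = pm ω e`. The two brackets depend on disjoint coordinates (`cb g`; `W.biUnion cb ∪ {(e, none)}`), so `pr Io ≤ pr (svp g) * Q`,
`Q = pr ([no act in R] ∧ rank) ≤ pr ([no act in R] ∧ |R| ≥ M0 ∧ rank) + pr (|R| < M0)`. Second term: `hoef` as in `lst` for the indicators of `svp ω c e`, `c ∈ W`, means `≥ kap`, sum of means `≥ kap N1`, `≤ 2 exp (-lam)`. First term: sum over the values `B` of `R ω` with `|B| ≥ M0`: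
`pr (R = B ∧ no act in B) * pr_π (rank < l' for B) ≤ pr (R = B ∧ no act in B) * l'/M0` (`pr_and`, `pr_rank`: `min 1 (l'/(|B|+1)) ≤ l'/M0`), and `∑_B pr (R = B ∧ no act in B) = pr (no act in R) = pr (∀ c ∈ W, ¬ (act ω e c ∧ svp ω c e)) = ∏ (1 - pr (act ∧ svp)) ≤ (1 - kap/b)^|W| ≤ (1-kap/b)^N1`.
Multiply: this is `qp` (there the product is written `... ^ N1 * l' / M0 + 2 exp (-lam)`).
-/
import Pool.Agent.H65.GI.Lw
import Pool.Agent.H65.GI.Hof
import Pool.Agent.H65.GI.Nbd

set_option autoImplicit false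

namespace Pool.Agent.H65.GI

open Finset Classical


private theorem Iob_part {Ω β : Type} [Fintype Ω] (T : Finset β) (R : Ω → β) (A : Ω → Prop)
    (hR : ∀ ω, A ω → R ω ∈ T) : pr A = ∑ B ∈ T, pr (fun ω => A ω ∧ R ω = B) := by
  rw [ex_ind, Finset.sum_congr rfl (fun B _ => ex_ind (fun ω => A ω ∧ R ω = B)), ← ex_sum]
  congr 1
  funext ω
  by_cases h : A ω
  · rw [if_pos h]
    simp only [h, true_and]
    rw [Finset.sum_ite_eq, if_pos (hR ω h)]
  · simp only [h, false_and, if_false, Finset.sum_const_zero]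

section
variable {V : Type} [Fintype V] {s n b : ℕ}

omit [Fintype V] in
private theorem Iob_act {ω ω' : Ix V s n → Cn s b} (z : V) (c : Fin s)
    (h : ω (z, some (c, 0)) = ω' (z, some (c, 0))) : act ω z c = act ω' z c := by
  unfold act
  rw [h]

omit [Fintype V] in
private theorem Iob_dum {ω ω' : Ix V s n → Cn s b} (z : V) (c : Fin s) (i : Fin n)
    (h : ω (z, some (c, i.succ)) = ω' (z, some (c, i.succ))) : dum ω z c i = dum ω' z c i := by
  unfold dum
  rw [h]

omit [Fintype V] in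
private theorem Iob_ins {Ω : Type} (P : Fintype Ω → Prop) {i j : Fintype Ω} (h : P i) : P j :=
  Subsingleton.elim i j ▸ h

private theorem Iob_and [NeZero b] (A B : (Ix V s n → Cn s b) → Prop)
    (S T : Finset (Ix V s n)) (hA : Loc A S) (hB : Loc B T) (hd : Disjoint S T) :
    pr (fun ω => A ω ∧ B ω) = pr A * pr B :=
  Iob_ins (fun i => @pr _ i (fun ω => A ω ∧ B ω) = @pr _ i A * @pr _ i B)
    (pr_and A B S T hA hB hd)

private theorem Iob_forall [NeZero b] {ι : Type} (J : Finset ι)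
    (A : ι → (Ix V s n → Cn s b) → Prop) (S : ι → Finset (Ix V s n))
    (hS : ∀ i ∈ J, Loc (A i) (S i))
    (hd : ∀ i ∈ J, ∀ j ∈ J, i ≠ j → Disjoint (S i) (S j)) :
    pr (fun ω => ∀ i ∈ J, A i ω) = ∏ i ∈ J, pr (A i) := by
  exact Iob_ins (fun ii => @pr _ ii (fun ω => ∀ i ∈ J, A i ω) = ∏ i ∈ J, @pr _ ii (A i))
    (pr_forall J A S hS hd)

private theorem Iob_hoef [NeZero b] {ι : Type} (J : Finset ι)
    (f : ι → (Ix V s n → Cn s b) → ℝ) (S : ι → Finset (Ix V s n))
    (hS : ∀ i ∈ J, Loc (f i) (S i))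
    (hd : ∀ i ∈ J, ∀ j ∈ J, i ≠ j → Disjoint (S i) (S j)) (m : ℕ) (hn1 : 1 ≤ m)
    (hn : J.card ≤ m) (c : ℝ) (hc : 0 ≤ c) (hf : ∀ i ∈ J, ∀ ω, |f i ω| ≤ c) (t : ℝ)
    (ht : 0 < t) :
    pr (fun ω => t < |∑ i ∈ J, f i ω - ∑ i ∈ J, ex (f i)|) ≤
      2 * Real.exp (-(t ^ 2 / (8 * m * c ^ 2))) := by
  exact Iob_ins (fun ii => @pr _ ii (fun ω => t < |∑ i ∈ J, f i ω - ∑ i ∈ J, @ex _ ii (f i)|) ≤
    2 * Real.exp (-(t ^ 2 / (8 * m * c ^ 2)))) (hoef J f S hS hd m hn1 hn c hc hf t ht)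

omit [Fintype V] in
private theorem Iob_locs (C : Fin s → V → Finset V) (Y : Finset V) (L : V → Finset (Fin s))
    (P : Finset V) (c : Fin s) (e : V) :
    Loc (fun ω : Ix V s n → Cn s b => svp C Y L P ω c e)
      ((P.image (fun z => ((z, some (c, 0)) : Ix V s n))) ∪
        (univ.image (fun i : Fin n => ((e, some (c, i.succ)) : Ix V s n)))) := by
  intro ω ω' h
  have h1 : ∀ z ∈ P, act ω z c = act ω' z c := fun z hz =>
    Iob_act z c (h _ (Finset.mem_union_left _ (Finset.mem_image_of_mem _ hz)))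
  have h2 : ∀ i : Fin n, dum ω e c i = dum ω' e c i := fun i =>
    Iob_dum e c i (h _ (Finset.mem_union_right _ (Finset.mem_image_of_mem _ (Finset.mem_univ i))))
  show svp C Y L P ω c e = svp C Y L P ω' c e
  unfold svp
  rw [eq_iff_iff]
  constructor
  · rintro ⟨h3, h4⟩
    exact ⟨fun z hz hP hY hL => by rw [← h1 z hP]; exact h3 z hz hP hY hL,
      fun i hi => by rw [← h2 i]; exact h4 i hi⟩
  · rintro ⟨h3, h4⟩
    exact ⟨fun z hz hP hY hL => by rw [h1 z hP]; exact h3 z hz hP hY hL,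
      fun i hi => by rw [h2 i]; exact h4 i hi⟩

private theorem Iob_sub (P : Finset V) (c : Fin s) (e : V) :
    ((P.image (fun z => ((z, some (c, 0)) : Ix V s n))) ∪
        (univ.image (fun i : Fin n => ((e, some (c, i.succ)) : Ix V s n)))) ⊆ cb V n c := by
  intro i hi
  unfold cb
  rw [Finset.mem_filter]
  refine ⟨Finset.mem_univ _, ?_⟩
  rcases Finset.mem_union.1 hi with h | h
  · obtain ⟨z, _, rfl⟩ := Finset.mem_image.1 h
    exact ⟨z, 0, rfl⟩
  · obtain ⟨j, _, rfl⟩ := Finset.mem_image.1 h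
    exact ⟨e, j.succ, rfl⟩

private theorem Iob_mono {I κ α : Type} {f : (I → κ) → α} {S T : Finset I} (h : Loc f S)
    (hST : S ⊆ T) : Loc f T := fun ω ω' h' => h ω ω' fun i hi => h' i (hST hi)

private theorem Iob_loc (C : Fin s → V → Finset V) (Y : Finset V) (L : V → Finset (Fin s))
    (P : Finset V) (c : Fin s) (e : V) :
    Loc (fun ω : Ix V s n → Cn s b => svp C Y L P ω c e) (cb V n c) :=
  Iob_mono (Iob_locs C Y L P c e) (Iob_sub P c e)

omit [Fintype V] in
private theorem Iob_sv {C : Fin s → V → Finset V} {Y : Finset V} {L : V → Finset (Fin s)}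
    (P : Finset V) {c : Fin s} {e : V} {ω : Ix V s n → Cn s b} (h : sv C Y L ω c e) :
    svp C Y L P ω c e := ⟨fun z hz _ hY hL => h.1 z hz hY hL, h.2⟩

private theorem Iob_one (hb : 2 ≤ b) : (0 : ℝ) < 1 - 1 / (b : ℝ) ∧ 1 - 1 / (b : ℝ) ≤ 1 := by
  have h0 : (2 : ℝ) ≤ b := by exact_mod_cast hb
  have h1 : (1 : ℝ) / b ≤ 1 / 2 := one_div_le_one_div_of_le (by norm_num) h0
  have h2 : (0 : ℝ) ≤ 1 / b := by positivity
  constructor <;> linarith

/-- the probability of private survival of `g` -/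
private theorem Iob_g [NeZero b] (hb : 2 ≤ b) (C : Fin s → V → Finset V) (Y : Finset V)
    (L : V → Finset (Fin s)) (P : Finset V) (h0 : ℕ) (g : Fin s) (e : V)
    (hn : nn C Y L g e ≤ n)
    (hout : ((C g e).filter (fun z => z ∉ P ∧ z ∈ Y ∧ g ∈ L z)).card ≤ h0) :
    pr (fun ω : Ix V s n → Cn s b => svp C Y L P ω g e) ≤
      kap b n / (1 - 1 / (b : ℝ)) ^ h0 := by
  obtain ⟨hp, hp1⟩ := Iob_one hb
  set O : Finset V := (C g e).filter (fun z => z ∉ P ∧ z ∈ Y ∧ g ∈ L z) with hO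
  have hlocO : ∀ z ∈ O, Loc (fun ω : Ix V s n → Cn s b => ¬ act ω z g)
      ({((z, some (g, 0)) : Ix V s n)} : Finset (Ix V s n)) := by
    intro z _ ω ω' h
    have := Iob_act (ω := ω) (ω' := ω') z g (h _ (Finset.mem_singleton_self _))
    show (¬ act ω z g) = (¬ act ω' z g)
    rw [this]
  have hdisO : ∀ z ∈ O, ∀ z' ∈ O, z ≠ z' →
      Disjoint ({((z, some (g, 0)) : Ix V s n)} : Finset (Ix V s n))
        ({((z', some (g, 0)) : Ix V s n)} : Finset (Ix V s n)) := by
    intro z _ z' _ hne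
    rw [Finset.disjoint_singleton]
    intro h
    exact hne (congrArg Prod.fst h)
  have hOpr : pr (fun ω : Ix V s n → Cn s b => ∀ z ∈ O, ¬ act ω z g) =
      (1 - 1 / (b : ℝ)) ^ O.card := by
    rw [Iob_forall O (fun z (ω : Ix V s n → Cn s b) => ¬ act ω z g)
      (fun z => ({((z, some (g, 0)) : Ix V s n)} : Finset (Ix V s n))) hlocO hdisO]
    rw [Finset.prod_congr rfl (g := fun _ => 1 - 1 / (b : ℝ)) (fun z _ => by
      rw [pr_not, act_pr]), Finset.prod_const]
  have hlocO' : Loc (fun ω : Ix V s n → Cn s b => ∀ z ∈ O, ¬ act ω z g)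
      (O.image (fun z => ((z, some (g, 0)) : Ix V s n))) := by
    intro ω ω' h
    show (∀ z ∈ O, ¬ act ω z g) = (∀ z ∈ O, ¬ act ω' z g)
    have h1 : ∀ z ∈ O, act ω z g = act ω' z g := fun z hz =>
      Iob_act z g (h _ (Finset.mem_image_of_mem _ hz))
    rw [eq_iff_iff]
    exact ⟨fun h2 z hz => by rw [← h1 z hz]; exact h2 z hz,
      fun h2 z hz => by rw [h1 z hz]; exact h2 z hz⟩
  have hdis : Disjoint ((P.image (fun z => ((z, some (g, 0)) : Ix V s n))) ∪
        (univ.image (fun i : Fin n => ((e, some (g, i.succ)) : Ix V s n))))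
      (O.image (fun z => ((z, some (g, 0)) : Ix V s n))) := by
    rw [Finset.disjoint_left]
    intro i hi hi'
    obtain ⟨z, hz, rfl⟩ := Finset.mem_image.1 hi'
    rcases Finset.mem_union.1 hi with h | h
    · obtain ⟨z', hz', h2⟩ := Finset.mem_image.1 h
      have h3 : z' = z := congrArg Prod.fst h2
      rw [hO, Finset.mem_filter] at hz
      exact hz.2.1 (h3 ▸ hz')
    · obtain ⟨j, _, h2⟩ := Finset.mem_image.1 h
      have h3 : some (g, j.succ) = some (g, (0 : Fin (n + 1))) := congrArg Prod.snd h2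
      have h4 : (g, j.succ) = (g, (0 : Fin (n + 1))) := Option.some.inj h3
      have h5 : j.succ = (0 : Fin (n + 1)) := congrArg Prod.snd h4
      exact (Fin.succ_ne_zero j) h5
  have hand := Iob_and (fun ω : Ix V s n → Cn s b => svp C Y L P ω g e)
    (fun ω => ∀ z ∈ O, ¬ act ω z g) _ _ (Iob_locs C Y L P g e) hlocO' hdis
  have hle : kap b n = pr (fun ω : Ix V s n → Cn s b => svp C Y L P ω g e) *
      (1 - 1 / (b : ℝ)) ^ O.card := by
    rw [← hOpr, ← hand, ← sv_pr C Y L e g hn]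
    congr 1
    funext ω
    rw [eq_iff_iff]
    constructor
    · intro h
      refine ⟨Iob_sv P h, fun z hz => ?_⟩
      rw [hO, Finset.mem_filter] at hz
      exact h.1 z hz.1 hz.2.2.1 hz.2.2.2
    · rintro ⟨h1, h2⟩
      refine ⟨fun z hz hY hL => ?_, h1.2⟩
      by_cases hP : z ∈ P
      · exact h1.1 z hz hP hY hL
      · exact h2 z (by rw [hO, Finset.mem_filter]; exact ⟨hz, hP, hY, hL⟩)
  rw [le_div_iff₀ (pow_pos hp _), hle]
  exact mul_le_mul_of_nonneg_left (pow_le_pow_of_le_one hp.le hp1 hout) (pr_nonneg _)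

/-- no colour of `W` that survives privately is activated -/
private theorem Iob_no [NeZero b] (hb : 2 ≤ b) (C : Fin s → V → Finset V)
    (hirr : ∀ c v, v ∉ C c v) (Y : Finset V) (L : V → Finset (Fin s)) (P : Finset V) (e : V)
    (W : Finset (Fin s)) (hW : ∀ c ∈ W, nn C Y L c e ≤ n) (N : ℕ) (hN : N ≤ W.card) :
    pr (fun ω : Ix V s n → Cn s b => ∀ c ∈ W, ¬ (act ω e c ∧ svp C Y L P ω c e)) ≤
      (1 - kap b n / b) ^ N := by
  have hb1 : 1 ≤ b := by omega
  have hbr : (1 : ℝ) ≤ b := by exact_mod_cast hb1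
  have hk0 := kap_nonneg b n hb1
  have hk1 := kap_le_one b n hb1
  have hx0 : 0 ≤ kap b n / b := by positivity
  have hx1 : kap b n / b ≤ 1 := by
    rw [div_le_one (by linarith)]; linarith
  rw [Iob_forall W (fun c (ω : Ix V s n → Cn s b) => ¬ (act ω e c ∧ svp C Y L P ω c e))
    (fun c => cb V n c) (fun c _ ω ω' h => by
      have h1 : act ω e c = act ω' e c := loc_act e c ω ω' h
      have h2 : svp C Y L P ω c e = svp C Y L P ω' c e := Iob_loc C Y L P c e ω ω' h
      show (¬ (act ω e c ∧ svp C Y L P ω c e)) = (¬ (act ω' e c ∧ svp C Y L P ω' c e))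
      rw [h1, h2]) (fun c _ d _ hcd => cb_disj c d hcd)]
  refine (Finset.prod_le_prod (g := fun _ => 1 - kap b n / b) (fun c _ => pr_nonneg _)
    (fun c hc => ?_)).trans ?_
  · rw [pr_not]
    have h1 := (svact_pr (b := b) C hirr Y L e c (hW c hc)).1
    have h2 : pr (fun ω : Ix V s n → Cn s b => act ω e c ∧ sv C Y L ω c e) ≤
        pr (fun ω : Ix V s n → Cn s b => act ω e c ∧ svp C Y L P ω c e) :=
      pr_mono fun ω h => ⟨h.1, Iob_sv P h.2⟩
    linarith
  · rw [Finset.prod_const]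
    exact pow_le_pow_of_le_one (by linarith) (by linarith) hN

/-- many colours of `W` survive -/
private theorem Iob_few [NeZero b] (hb : 2 ≤ b) (C : Fin s → V → Finset V)
    (Y : Finset V) (L : V → Finset (Fin s)) (P : Finset V) (e : V)
    (W : Finset (Fin s)) (hW : ∀ c ∈ W, nn C Y L c e ≤ n) (N l : ℕ) (hN : N ≤ W.card)
    (hl : W.card ≤ l) (hl1 : 1 ≤ l) (lam : ℝ) (hlam : 0 < lam) :
    pr (fun ω : Ix V s n → Cn s b =>
      ((W.filter (fun c => svp C Y L P ω c e)).card : ℝ) < kap b n * N - Real.sqrt (8 * l * lam)) ≤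
      2 * Real.exp (-lam) := by
  have hb1 : 1 ≤ b := by omega
  have hlr : (1 : ℝ) ≤ l := by exact_mod_cast hl1
  have hk0 := kap_nonneg b n hb1
  have ht : 0 < Real.sqrt (8 * l * lam) := Real.sqrt_pos.2 (by positivity)
  have h := Iob_hoef (V := V) (s := s) (n := n) (b := b) W
    (fun c ω => if svp C Y L P ω c e then (1 : ℝ) else 0)
    (fun c => cb V n c) (fun c _ ω ω' h => by
      have h2 : svp C Y L P ω c e = svp C Y L P ω' c e := Iob_loc C Y L P c e ω ω' h
      show (if svp C Y L P ω c e then (1 : ℝ) else 0) = (if svp C Y L P ω' c e then (1 : ℝ) else 0)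
      simp only [h2]) (fun c _ d _ hcd => cb_disj c d hcd) l hl1 hl 1 zero_le_one
      (fun c _ ω => by
        show |(if svp C Y L P ω c e then (1 : ℝ) else 0)| ≤ 1
        split_ifs <;> norm_num) (Real.sqrt (8 * l * lam)) ht
  have hexp : -(Real.sqrt (8 * l * lam) ^ 2 / (8 * l * (1 : ℝ) ^ 2)) = -lam := by
    rw [Real.sq_sqrt (by positivity)]
    field_simp
  rw [hexp] at h
  refine le_trans (pr_mono fun ω hω => ?_) h
  have h1 : ∑ c ∈ W, (if svp C Y L P ω c e then (1 : ℝ) else 0) =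
      ((W.filter (fun c => svp C Y L P ω c e)).card : ℝ) := by
    rw [Finset.sum_boole]
  have h2 : kap b n * N ≤ ∑ c ∈ W,
      ex (fun ω : Ix V s n → Cn s b => if svp C Y L P ω c e then (1 : ℝ) else 0) := by
    have h3 : ∀ c ∈ W, kap b n ≤
        ex (fun ω : Ix V s n → Cn s b => if svp C Y L P ω c e then (1 : ℝ) else 0) := by
      intro c hc
      rw [← ex_ind, ← sv_pr C Y L e c (hW c hc)]
      exact pr_mono fun ω h => Iob_sv P h
    have h4 := Finset.card_nsmul_le_sum W _ (kap b n) h3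
    rw [nsmul_eq_mul] at h4
    have h5 : (N : ℝ) ≤ W.card := by exact_mod_cast hN
    calc kap b n * N ≤ W.card * kap b n := by nlinarith
      _ ≤ _ := h4
  show Real.sqrt (8 * l * lam) < |∑ c ∈ W, (if svp C Y L P ω c e then (1 : ℝ) else 0) -
    ∑ c ∈ W, ex (fun ω : Ix V s n → Cn s b => if svp C Y L P ω c e then (1 : ℝ) else 0)|
  rw [h1, lt_abs]
  right
  linarith

end

theorem iob {V : Type} [Fintype V] {s n b : ℕ} [NeZero b] (hb : 2 ≤ b)
    (C : Fin s → V → Finset V) (hirr : ∀ c v, v ∉ C c v) (Y : Finset V)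
    (L : V → Finset (Fin s)) (P : Finset V) (l l' K0 h0 k0 : ℕ) (k : Finset (Fin s)) (g : Fin s)
    (e : V) (hl : (L e).card ≤ l) (hl1 : 1 ≤ l) (hlK : l ≤ (L e).card + K0)
    (hn : ∀ c ∈ L e, nn C Y L c e ≤ n) (hg : g ∈ L e) (hk : k.card ≤ k0 + 1)
    (hout : ((C g e).filter (fun z => z ∉ P ∧ z ∈ Y ∧ g ∈ L z)).card ≤ h0)
    (lam : ℝ) (hlam : 0 < lam)
    (hM0 : Real.sqrt (8 * l * lam) < kap b n * (l - K0 - k0 - 2 : ℕ)) :
    pr (fun ω : Ix V s n → Cn s b => Io C Y L P l' k g ω e) ≤ qp b n l l' K0 h0 k0 lam := by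
  have hb1 : 1 ≤ b := by omega
  have hbr : (1 : ℝ) ≤ b := by exact_mod_cast hb1
  have hk0 := kap_nonneg b n hb1
  have hk1 := kap_le_one b n hb1
  obtain ⟨hp, hp1⟩ := Iob_one hb
  obtain ⟨N, hNdef⟩ : ∃ N : ℕ, N = l - K0 - k0 - 2 := ⟨_, rfl⟩
  obtain ⟨M, hMdef⟩ : ∃ M : ℝ, M = kap b n * N - Real.sqrt (8 * l * lam) := ⟨_, rfl⟩
  rw [← hNdef] at hM0
  have hMpos : 0 < M := by rw [hMdef]; linarith
  set W : Finset (Fin s) := (L e).filter (fun c => c ∉ k ∧ c ≠ g) with hWdef
  have hWL : W ⊆ L e := Finset.filter_subset _ _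
  have hgW : g ∉ W := by
    rw [hWdef, Finset.mem_filter]
    rintro ⟨_, _, h⟩
    exact h rfl
  have hWl : W.card ≤ l := (Finset.card_le_card hWL).trans hl
  have hWN : N ≤ W.card := by
    have h1 : L e ⊆ W ∪ (insert g k) := by
      intro c hc
      by_cases h2 : c ∈ k
      · exact Finset.mem_union_right _ (Finset.mem_insert_of_mem h2)
      · by_cases h3 : c = g
        · exact Finset.mem_union_right _ (by rw [h3]; exact Finset.mem_insert_self _ _)
        · exact Finset.mem_union_left _ (by rw [hWdef, Finset.mem_filter]; exact ⟨hc, h2, h3⟩)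
    have h2 := (Finset.card_le_card h1).trans (Finset.card_union_le _ _)
    have h3 := Finset.card_insert_le g k
    omega
  have hWn : ∀ c ∈ W, nn C Y L c e ≤ n := fun c hc => hn c (hWL hc)
  -- the random set
  obtain ⟨R, hR⟩ : ∃ R : (Ix V s n → Cn s b) → Finset (Fin s),
    R = fun ω => W.filter (fun c => svp C Y L P ω c e) := ⟨_, rfl⟩
  have hRW : ∀ ω, R ω ⊆ W := fun ω => by rw [hR]; exact Finset.filter_subset _ _
  obtain ⟨NA, hNA⟩ : ∃ NA : (Ix V s n → Cn s b) → Prop,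
    NA = fun ω => ∀ c ∈ W, ¬ (act ω e c ∧ svp C Y L P ω c e) := ⟨_, rfl⟩
  obtain ⟨RK, hRK⟩ : ∃ RK : Finset (Fin s) → Equiv.Perm (Fin s) → Prop,
    RK = fun X π => (X.filter (fun d => π.symm d < π.symm g)).card < l' := ⟨_, rfl⟩
  -- localities
  have hcb : ∀ c ∈ W, cb V n c ⊆ W.biUnion (fun c => cb V n c) := fun c hc =>
    Finset.subset_biUnion_of_mem (fun c => cb V n c) hc
  have hlocR : Loc R (W.biUnion (fun c => cb V n c)) := by
    intro ω ω' h
    rw [hR]
    show W.filter (fun c => svp C Y L P ω c e) = W.filter (fun c => svp C Y L P ω' c e)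
    refine Finset.filter_congr fun c hc => ?_
    have h2 : svp C Y L P ω c e = svp C Y L P ω' c e :=
      Iob_loc C Y L P c e ω ω' fun i hi => h i (hcb c hc hi)
    rw [h2]
  have hlocN : Loc NA (W.biUnion (fun c => cb V n c)) := by
    intro ω ω' h
    rw [hNA]
    show (∀ c ∈ W, ¬ (act ω e c ∧ svp C Y L P ω c e)) =
      (∀ c ∈ W, ¬ (act ω' e c ∧ svp C Y L P ω' c e))
    rw [eq_iff_iff]
    have h2 : ∀ c ∈ W, svp C Y L P ω c e = svp C Y L P ω' c e := fun c hc =>
      Iob_loc C Y L P c e ω ω' fun i hi => h i (hcb c hc hi)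
    have h3 : ∀ c ∈ W, act ω e c = act ω' e c := fun c hc =>
      loc_act e c ω ω' fun i hi => h i (hcb c hc hi)
    constructor
    · intro h4 c hc
      rw [← h2 c hc, ← h3 c hc]; exact h4 c hc
    · intro h4 c hc
      rw [h2 c hc, h3 c hc]; exact h4 c hc
  have hlocP : ∀ X : Finset (Fin s), Loc (fun ω : Ix V s n → Cn s b => RK X (pm ω e))
      ({((e, none) : Ix V s n)} : Finset (Ix V s n)) := by
    intro X ω ω' h
    have h1 : pm ω e = pm ω' e := by
      unfold pm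
      rw [h _ (Finset.mem_singleton_self _)]
    show RK X (pm ω e) = RK X (pm ω' e)
    rw [h1]
  have hcbn : ∀ c : Fin s, Disjoint (cb V n c) ({((e, none) : Ix V s n)} : Finset (Ix V s n)) := by
    intro c
    rw [Finset.disjoint_singleton_right]
    unfold cb
    rw [Finset.mem_filter]
    rintro ⟨_, z, j, h⟩
    have h1 : (none : Option (Fin s × Fin (n + 1))) = some (c, j) := congrArg Prod.snd h
    exact absurd h1 (by simp)
  have hdis1 : Disjoint (W.biUnion (fun c => cb V n c))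
      ({((e, none) : Ix V s n)} : Finset (Ix V s n)) := by
    rw [Finset.disjoint_biUnion_left]
    intro c _
    exact hcbn c
  -- the first term
  have hT1 : pr (fun ω : Ix V s n → Cn s b => NA ω ∧ M ≤ ((R ω).card : ℝ) ∧ RK (R ω) (pm ω e)) ≤
      (1 - kap b n / b) ^ N * l' / M := by
    have h1 := Iob_part W.powerset R
      (fun ω : Ix V s n → Cn s b => NA ω ∧ M ≤ ((R ω).card : ℝ) ∧ RK (R ω) (pm ω e))
      (fun ω _ => Finset.mem_powerset.2 (hRW ω))
    have h2 := Iob_part W.powerset R NA (fun ω _ => Finset.mem_powerset.2 (hRW ω))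
    have h3 : ∀ B ∈ W.powerset,
        pr (fun ω : Ix V s n → Cn s b =>
          (NA ω ∧ M ≤ ((R ω).card : ℝ) ∧ RK (R ω) (pm ω e)) ∧ R ω = B) ≤
        (l' : ℝ) / M * pr (fun ω => NA ω ∧ R ω = B) := by
      intro B hB
      have hBW := Finset.mem_powerset.1 hB
      by_cases hMB : M ≤ (B.card : ℝ)
      · have h4 : pr (fun ω : Ix V s n → Cn s b =>
            (NA ω ∧ M ≤ ((R ω).card : ℝ) ∧ RK (R ω) (pm ω e)) ∧ R ω = B) ≤
            pr (fun ω : Ix V s n → Cn s b => (NA ω ∧ R ω = B) ∧ RK B (pm ω e)) := by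
          refine pr_mono fun ω h => ⟨⟨h.1.1, h.2⟩, ?_⟩
          have := h.1.2.2
          rwa [h.2] at this
        have h5 := Iob_and (fun ω : Ix V s n → Cn s b => NA ω ∧ R ω = B)
          (fun ω => RK B (pm ω e)) (W.biUnion (fun c => cb V n c))
          ({((e, none) : Ix V s n)} : Finset (Ix V s n))
          (fun ω ω' h => by
            show (NA ω ∧ R ω = B) = (NA ω' ∧ R ω' = B)
            rw [hlocN ω ω' h, hlocR ω ω' h]) (hlocP B) hdis1
        have h6 : pr (fun ω : Ix V s n → Cn s b => RK B (pm ω e)) ≤ (l' : ℝ) / M := by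
          rw [pm_pr e (RK B)]
          have h7 := pr_rank l' B g (fun h => hgW (hBW h))
          have h8 : pr (RK B) = min 1 ((l' : ℝ) / (B.card + 1)) := by
            rw [← h7, hRK]
          rw [h8]
          refine (min_le_right _ _).trans ?_
          exact div_le_div_of_nonneg_left (Nat.cast_nonneg _) hMpos (by linarith)
        rw [h5] at h4
        refine h4.trans ?_
        rw [mul_comm]
        exact mul_le_mul_of_nonneg_right h6 (pr_nonneg _)
      · have h4 : pr (fun ω : Ix V s n → Cn s b =>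
            (NA ω ∧ M ≤ ((R ω).card : ℝ) ∧ RK (R ω) (pm ω e)) ∧ R ω = B) ≤
            pr (fun _ : Ix V s n → Cn s b => False) := by
          refine pr_mono fun ω h => hMB ?_
          have := h.1.2.1
          rwa [h.2] at this
        have h5 : pr (fun _ : Ix V s n → Cn s b => False) = 0 := by
          unfold pr
          simp
        rw [h5] at h4
        refine h4.trans (mul_nonneg (div_nonneg (Nat.cast_nonneg _) hMpos.le) (pr_nonneg _))
    rw [h1]
    refine (Finset.sum_le_sum h3).trans ?_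
    rw [← Finset.mul_sum, ← h2]
    have h4 : pr NA ≤ (1 - kap b n / b) ^ N := by
      rw [hNA]
      exact Iob_no hb C hirr Y L P e W hWn N hWN
    calc (l' : ℝ) / M * pr NA ≤ (l' : ℝ) / M * (1 - kap b n / b) ^ N :=
          mul_le_mul_of_nonneg_left h4 (div_nonneg (Nat.cast_nonneg _) hMpos.le)
      _ = (1 - kap b n / b) ^ N * l' / M := by ring
  -- the second term
  have hT2 : pr (fun ω : Ix V s n → Cn s b => ((R ω).card : ℝ) < M) ≤ 2 * Real.exp (-lam) := by
    rw [hR, hMdef]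
    exact Iob_few hb C Y L P e W hWn N l hWN hWl hl1 lam hlam
  -- the bracket
  have hQ : pr (fun ω : Ix V s n → Cn s b => NA ω ∧ RK (R ω) (pm ω e)) ≤
      (1 - kap b n / b) ^ N * l' / M + 2 * Real.exp (-lam) := by
    refine le_trans (pr_mono (B := fun ω : Ix V s n → Cn s b =>
      (NA ω ∧ M ≤ ((R ω).card : ℝ) ∧ RK (R ω) (pm ω e)) ∨ ((R ω).card : ℝ) < M)
      fun ω h => ?_) ((pr_or _ _).trans (add_le_add hT1 hT2))
    by_cases h1 : M ≤ ((R ω).card : ℝ)
    · exact Or.inl ⟨h.1, h1, h.2⟩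
    · exact Or.inr (not_le.1 h1)
  have hGg := Iob_g (n := n) hb C Y L P h0 g e (hn g hg) hout
  -- independence of the two brackets
  have hdis2 : Disjoint (cb V n g) ((W.biUnion (fun c => cb V n c)) ∪
      ({((e, none) : Ix V s n)} : Finset (Ix V s n))) := by
    rw [Finset.disjoint_union_right]
    refine ⟨?_, hcbn g⟩
    rw [Finset.disjoint_biUnion_right]
    intro c hc
    exact cb_disj g c fun h => hgW (h ▸ hc)
  have hand := Iob_and (fun ω : Ix V s n → Cn s b => svp C Y L P ω g e)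
    (fun ω => NA ω ∧ RK (R ω) (pm ω e)) (cb V n g)
    ((W.biUnion (fun c => cb V n c)) ∪ ({((e, none) : Ix V s n)} : Finset (Ix V s n)))
    (Iob_loc C Y L P g e)
    (fun ω ω' h => by
      have h1 := hlocN ω ω' fun i hi => h i (Finset.mem_union_left _ hi)
      have h2 := hlocR ω ω' fun i hi => h i (Finset.mem_union_left _ hi)
      have h3 : RK (R ω) (pm ω e) = RK (R ω) (pm ω' e) :=
        hlocP (R ω) ω ω' fun i hi => h i (Finset.mem_union_right _ hi)
      show (NA ω ∧ RK (R ω) (pm ω e)) = (NA ω' ∧ RK (R ω') (pm ω' e))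
      rw [h1, h3, h2]) hdis2
  have hIo : pr (fun ω : Ix V s n → Cn s b => Io C Y L P l' k g ω e) ≤
      pr (fun ω : Ix V s n → Cn s b => svp C Y L P ω g e ∧ (NA ω ∧ RK (R ω) (pm ω e))) := by
    refine pr_mono fun ω h => ?_
    obtain ⟨h1, _, h3, h4⟩ := h
    refine ⟨h1, ?_, ?_⟩
    · rw [hNA]
      intro c hc h5
      rw [hWdef, Finset.mem_filter] at hc
      exact h3 c hc.1 hc.2.1 hc.2.2 h5.2 h5.1
    · rw [hRK, hR]
      refine lt_of_le_of_lt (Finset.card_le_card ?_) h4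
      intro c hc
      simp only [hWdef, Finset.mem_filter] at hc
      rw [Finset.mem_filter]
      exact ⟨hc.1.1.1, hc.1.1.2.1, hc.1.1.2.2, hc.1.2, hc.2⟩
  rw [hand] at hIo
  unfold qp
  rw [← hNdef, ← hMdef]
  refine hIo.trans ?_
  exact mul_le_mul hGg hQ (pr_nonneg _) (div_nonneg hk0 (pow_nonneg hp.le _))

theorem loc_io {V : Type} [Fintype V] {s n b : ℕ} (C : Fin s → V → Finset V) (Y : Finset V)
    (L : V → Finset (Fin s)) (P : Finset V) (l' : ℕ) (k : Finset (Fin s)) (g : Fin s) (e : V)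
    (he : e ∈ P) : Loc (fun ω : Ix V s n → Cn s b => Io C Y L P l' k g ω e)
      (P ×ˢ (univ : Finset (Option (Fin s × Fin (n + 1))))) := by
  intro ω ω' h
  have hc : ∀ z ∈ P, ∀ j, ω (z, j) = ω' (z, j) := fun z hz j =>
    h (z, j) (Finset.mem_product.2 ⟨hz, Finset.mem_univ _⟩)
  have h1 : ∀ c, svp C Y L P ω c e = svp C Y L P ω' c e := by
    intro c
    refine Iob_locs C Y L P c e ω ω' fun i hi => ?_
    rcases Finset.mem_union.1 hi with h2 | h2
    · obtain ⟨z, hz, rfl⟩ := Finset.mem_image.1 h2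
      exact hc z hz _
    · obtain ⟨j, _, rfl⟩ := Finset.mem_image.1 h2
      exact hc e he _
  have h2 : ∀ c, act ω e c = act ω' e c := fun c => Iob_act e c (hc e he _)
  have h3 : pm ω e = pm ω' e := by
    unfold pm
    rw [hc e he none]
  show Io C Y L P l' k g ω e = Io C Y L P l' k g ω' e
  unfold Io
  simp only [h1, h2, h3]

end Pool.Agent.H65.GI
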