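/-
ROW Lst. List sizes, activations in a family, colours activated at a hub.
PROOF. `lst`: `hoef` with `J = L v`, `f c ω = if sv ω c v then 1 else 0`, `Loc` on `cb V n c` (`loc_sv`), disjoint (`cb_disj`), `|f| ≤ 1`, `ex (f c) = kap b n` (`sv_pr`, `ex_ind`), `n := l`, `t = sqrt (8 l lam)` (exponent `lam`); `∑ f c ω = |Sv ω v|`.
`frg`: `ch_up` over `J = F` with `A p ω = act ω p.1 p.2`, coordinate set `{(p.1, some (p.2, 0))}` (distinct for distinct `p`), probability `1/b` (`act_pr`), `μ = |F|/b`.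
`hubk`: `ch_up` over `J = univ : Finset (Fin s)`, `A c ω = ∃ z ∈ hub c, act ω z c`, coordinates `(hub c).image (fun z => (z, some (c, 0)))`, disjoint for different `c`; probability `≤ h0 / b` (`pr_ex`), `μ = s h0 / b`.
-/
import Pool.Agent.H65.GI.Tri
import Pool.Agent.H65.GI.Hof
import Pool.Agent.H65.GI.Chf

set_option autoImplicit false

namespace Pool.Agent.H65.GI

open Finset Classical

section
variable {V : Type} [Fintype V] {s n b : ℕ}

omit [Fintype V] in
private theorem Lst_loc (v : V) (c : Fin s) :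
    Loc (fun ω : Ix V s n → Cn s b => act ω v c) {(v, some (c, 0))} := by
  intro ω ω' h
  have h1 := h (v, some (c, 0)) (Finset.mem_singleton_self _)
  show act ω v c = act ω' v c
  unfold act
  rw [h1]

private theorem Lst_ins {Ω : Type} (P : Fintype Ω → Prop) {i j : Fintype Ω} (h : P i) : P j :=
  Subsingleton.elim i j ▸ h

private theorem Lst_hoef [NeZero b] {ι : Type} (J : Finset ι)
    (f : ι → (Ix V s n → Cn s b) → ℝ) (S : ι → Finset (Ix V s n))
    (hS : ∀ i ∈ J, Loc (f i) (S i))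
    (hd : ∀ i ∈ J, ∀ j ∈ J, i ≠ j → Disjoint (S i) (S j)) (m : ℕ) (hn1 : 1 ≤ m)
    (hn : J.card ≤ m) (c : ℝ) (hc : 0 ≤ c) (hf : ∀ i ∈ J, ∀ ω, |f i ω| ≤ c) (t : ℝ)
    (ht : 0 < t) :
    pr (fun ω => t < |∑ i ∈ J, f i ω - ∑ i ∈ J, ex (f i)|) ≤
      2 * Real.exp (-(t ^ 2 / (8 * m * c ^ 2))) := by
  exact Lst_ins (fun ii => @pr _ ii (fun ω => t < |∑ i ∈ J, f i ω - ∑ i ∈ J, @ex _ ii (f i)|) ≤
    2 * Real.exp (-(t ^ 2 / (8 * m * c ^ 2)))) (hoef J f S hS hd m hn1 hn c hc hf t ht)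

private theorem Lst_ch [NeZero b] {ι : Type} (J : Finset ι)
    (A : ι → (Ix V s n → Cn s b) → Prop) (S : ι → Finset (Ix V s n))
    (hS : ∀ i ∈ J, Loc (A i) (S i))
    (hd : ∀ i ∈ J, ∀ j ∈ J, i ≠ j → Disjoint (S i) (S j)) (y : ι → ℝ)
    (hy : ∀ i ∈ J, pr (A i) ≤ y i) (μ lam : ℝ) (hμ : ∑ i ∈ J, y i ≤ μ) (hlam : 0 ≤ lam) :
    pr (fun ω => 3 * μ + 2 * lam ≤ ((J.filter (fun i => A i ω)).card : ℝ)) ≤
      Real.exp (-lam) := by
  exact Lst_ins (fun ii => @pr _ ii (fun ω => 3 * μ + 2 * lam ≤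
      ((J.filter (fun i => A i ω)).card : ℝ)) ≤ Real.exp (-lam))
    (ch_up J A S hS hd y (fun i hi => Lst_ins (fun ii => @pr _ ii (A i) ≤ y i) (hy i hi))
      μ lam hμ hlam)

theorem lst [NeZero b] (C : Fin s → V → Finset V) (Y : Finset V) (L : V → Finset (Fin s)) (v : V)
    (l : ℕ) (hl1 : 1 ≤ l) (hl : (L v).card ≤ l) (hn : ∀ c ∈ L v, nn C Y L c v ≤ n) (lam : ℝ)
    (hlam : 0 < lam) :
    pr (fun ω : Ix V s n → Cn s b =>
      ((Sv C Y L ω v).card : ℝ) < kap b n * (L v).card - Real.sqrt (8 * l * lam)) ≤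
      2 * Real.exp (-lam) := by
  have hl0 : (0 : ℝ) < l := by exact_mod_cast hl1
  have ht : 0 < Real.sqrt (8 * l * lam) := Real.sqrt_pos.2 (by positivity)
  have key := Lst_hoef (V := V) (s := s) (n := n) (b := b) (L v)
    (fun c ω => if sv C Y L ω c v then (1 : ℝ) else 0) (fun c => cb V n c)
    (by
      intro c _ ω ω' h
      have := loc_sv (b := b) C Y L v c ω ω' h
      have h2 : sv C Y L ω c v = sv C Y L ω' c v := this
      show (if sv C Y L ω c v then (1 : ℝ) else 0) = if sv C Y L ω' c v then (1 : ℝ) else 0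
      simp only [h2])
    (fun c _ d _ h => cb_disj c d h) l hl1 hl 1 zero_le_one
    (by
      intro c _ ω
      show |(if sv C Y L ω c v then (1 : ℝ) else 0)| ≤ 1
      split_ifs <;> simp) (Real.sqrt (8 * l * lam)) ht
  have hexp : -(Real.sqrt (8 * l * lam) ^ 2 / (8 * l * (1 : ℝ) ^ 2)) = -lam := by
    rw [Real.sq_sqrt (by positivity)]
    field_simp
  rw [hexp] at key
  refine le_trans (pr_mono ?_) key
  intro ω hω
  have h1 : ∑ c ∈ L v, (if sv C Y L ω c v then (1 : ℝ) else 0) = ((Sv C Y L ω v).card : ℝ) := by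
    unfold Sv
    rw [Finset.sum_ite, Finset.sum_const_zero, add_zero, Finset.sum_const, nsmul_eq_mul, mul_one]
  have h2 : ∑ c ∈ L v, ex (fun ω : Ix V s n → Cn s b => if sv C Y L ω c v then (1 : ℝ) else 0) =
      kap b n * (L v).card := by
    rw [Finset.sum_congr rfl (g := fun _ => kap b n) (fun c hc => ?_), Finset.sum_const,
      nsmul_eq_mul, mul_comm]
    rw [← sv_pr (b := b) C Y L v c (hn c hc), ex_ind]
  show Real.sqrt (8 * l * lam) < |∑ c ∈ L v, (if sv C Y L ω c v then (1 : ℝ) else 0) -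
    ∑ c ∈ L v, ex (fun ω : Ix V s n → Cn s b => if sv C Y L ω c v then (1 : ℝ) else 0)|
  rw [h1, h2]
  refine lt_of_lt_of_le ?_ (neg_le_abs _)
  linarith

theorem frg [NeZero b] (F : Finset (V × Fin s)) (M : ℕ) (hF : F.card ≤ M) (lam : ℝ)
    (hlam : 0 ≤ lam) :
    pr (fun ω : Ix V s n → Cn s b => 3 * ((M : ℝ) / b) + 2 * lam ≤
      ((F.filter (fun p => act ω p.1 p.2)).card : ℝ)) ≤ Real.exp (-lam) := by
  refine Lst_ch F (fun p ω => act ω p.1 p.2)
    (fun p => {(p.1, some (p.2, 0))}) (fun p _ => Lst_loc p.1 p.2) ?_ (fun _ => 1 / (b : ℝ))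
    (fun p _ => (act_pr p.1 p.2).le) ((M : ℝ) / b) lam ?_ hlam
  · intro p _ q _ hpq
    rw [Finset.disjoint_singleton]
    intro h
    apply hpq
    simp only [Prod.mk.injEq, Option.some.injEq, and_true] at h
    exact Prod.ext h.1 h.2
  · rw [Finset.sum_const, nsmul_eq_mul, mul_one_div]
    have : (F.card : ℝ) ≤ M := by exact_mod_cast hF
    exact div_le_div_of_nonneg_right this (Nat.cast_nonneg _)

theorem hubk [NeZero b] (hub : Fin s → Finset V) (h0 : ℕ) (hh : ∀ c, (hub c).card ≤ h0) (lam : ℝ)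
    (hlam : 0 ≤ lam) :
    pr (fun ω : Ix V s n → Cn s b => 3 * ((s : ℝ) * h0 / b) + 2 * lam ≤
      ((univ.filter (fun c : Fin s => ∃ z ∈ hub c, act ω z c)).card : ℝ)) ≤ Real.exp (-lam) := by
  have h1 : ∀ c ∈ (univ : Finset (Fin s)), Loc (fun ω : Ix V s n → Cn s b =>
      ∃ z ∈ hub c, act ω z c) ((hub c).image (fun z => (z, some (c, 0)))) := by
    intro c _ ω ω' h
    show (∃ z ∈ hub c, act ω z c) = ∃ z ∈ hub c, act ω' z c
    have : ∀ z ∈ hub c, (act ω z c ↔ act ω' z c) := by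
      intro z hz
      have h1 := Lst_loc (b := b) z c ω ω' (fun i hi => by
        rw [Finset.mem_singleton] at hi
        rw [hi]
        exact h _ (Finset.mem_image_of_mem _ hz))
      exact iff_of_eq h1
    exact propext ⟨fun ⟨z, hz, h⟩ => ⟨z, hz, (this z hz).1 h⟩,
      fun ⟨z, hz, h⟩ => ⟨z, hz, (this z hz).2 h⟩⟩
  have h2 : ∀ c ∈ (univ : Finset (Fin s)), ∀ d ∈ (univ : Finset (Fin s)), c ≠ d →
      Disjoint ((hub c).image (fun z => ((z, some (c, 0)) : Ix V s n)))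
        ((hub d).image (fun z => ((z, some (d, 0)) : Ix V s n))) := by
    intro c _ d _ hcd
    rw [Finset.disjoint_left]
    intro i hi hj
    obtain ⟨z, -, rfl⟩ := Finset.mem_image.1 hi
    obtain ⟨z', -, h⟩ := Finset.mem_image.1 hj
    simp only [Prod.mk.injEq, Option.some.injEq, and_true] at h
    exact hcd h.2.symm
  have h3 : ∀ c ∈ (univ : Finset (Fin s)), pr (fun ω : Ix V s n → Cn s b =>
      ∃ z ∈ hub c, act ω z c) ≤ (h0 : ℝ) / b := by
    intro c _
    refine (pr_ex (hub c) (fun z (ω : Ix V s n → Cn s b) => act ω z c) (1 / (b : ℝ))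
      (fun z _ => (act_pr z c).le)).trans ?_
    rw [mul_one_div]
    have : ((hub c).card : ℝ) ≤ h0 := by exact_mod_cast hh c
    exact div_le_div_of_nonneg_right this (Nat.cast_nonneg _)
  have h4 : ∑ _c ∈ (univ : Finset (Fin s)), (h0 : ℝ) / b ≤ (s : ℝ) * h0 / b := by
    rw [Finset.sum_const, nsmul_eq_mul, Finset.card_univ, Fintype.card_fin, mul_div_assoc]
  have key := Lst_ch (univ : Finset (Fin s)) (fun c (ω : Ix V s n → Cn s b) =>
    ∃ z ∈ hub c, act ω z c) _ h1 h2 (fun _ => (h0 : ℝ) / b) h3 ((s : ℝ) * h0 / b) lam h4 hlam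
  convert key

end

end Pool.Agent.H65.GI
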