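/-
ROW Dgc. The conflict degrees after one round.
PROOF. Fix `g, v`. (1) One part `T, prv, hub, spec` (`IsPart`), `T' := (a subset of T) all of whose elements satisfy e ∈ Y, g ∈ L e, spec e ≠ g`. `dgc1`: `pr (#T' qp + sqrt (8 n0 lam) < #{e ∈ T' : nw ω e = none ∧ g ∈ nl ω e}) ≤ 3 exp (-lam)`:
Let `A = (univ \ T'.biUnion prv) ×ˢ univ` and condition on the coordinates in `A` (`cond_pr'`): fix `ω0`; let `kk = {c : ∃ z ∈ hub c, act ω0 z c}` (`hub c` is disjoint from all `prv e`, `hubp`, so for `ω1 = ov A ω0 ω`: `act ω1 z c = act ω0 z c` for `z ∈ hub c`).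
Claim: for `e ∈ T'`, with `k e = insert (spec e) kk`: if `nw ω1 e = none` and `g ∈ nl ω1 e` then `Io C Y L (prv e) l' (k e) g ω1 e`, and this event is the same for `ω1` and `ω` (`loc_io`, `e ∈ prv e`). Proof of the claim: for `c ∈ L e`, `c ≠ spec e`, `c ∉ kk`: `sv ω1 c e ↔ svp (prv e) ω1 c e`
(conflicts outside `prv e` lie in `hub c` by `out`, and none of those is activated); always `sv → svp`. `g ∈ nl → g ∈ Sv`, so `svp g e`; `nw = none`: no `c ∈ Sv` is activated (`first_none_iff`), so `¬ act e g`, and for `c ∉ k e`, `svp c e`: `sv c e`, so `¬ act e c`. Rank: `{c ∈ L e, c ∉ k e, c ≠ g, svp c e, π⁻¹ c < π⁻¹ g} ⊆ {c ∈ Sv : π⁻¹ c < π⁻¹ g}`,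
whose size is `< l'` by `g ∈ pre ..`. So for fixed `ω0` with `|kk| ≤ k0`: `hoef` over `J = T'` with `f e ω = 1[Io ... ω e]` (`Loc` on `prv e ×ˢ univ`, disjoint), `|f| ≤ 1`, `n := n0`, `t = sqrt (8 n0 lam)`, means `≤ qp` (`iob`; its `hout`: conflicts outside `prv e` are in `hub g`, as `g ≠ spec e`, `≤ h0`):
probability `≤ 2 exp (-lam)`. To treat `|kk| > k0`: bound `pr B ≤ pr (B ∧ |kk ω| ≤ k0) + pr (k0 < |kk ω|)`, the second `≤ exp (-lam)` by `hubk` and `hk0`, and `cond_pr'` for the event `B ∧ |kk ω| ≤ k0` (if `|kk ω0| > k0` it is empty).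
(2) `dgc`: the parts `T j` cover `C g v`. Put `X = {e ∈ C g v : e ∈ Y, g ∈ L e}`, `|X| = nn ≤ n` and `≤ n0`; choose for each `e ∈ X` one `j(e)` with `e ∈ T j`; `T' j = {e ∈ X : j(e) = j, spec j e ≠ g}`; `∑ |T' j| ≤ n`, `|T' j| ≤ n0`. The elements with `spec j e = g` number at most `h0` per part (`spc`).
So `nn C (nY ω) (nl ω) g v ≤ ∑_j (#{e ∈ T' j : ...} + h0)`, union bound over `j` (`3 np exp (-lam)`).
-/
import Pool.Agent.H65.GI.Iob
import Pool.Agent.H65.GI.Lst
import Pool.Agent.H65.GI.TsX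

set_option autoImplicit false

namespace Pool.Agent.H65.GI

open Finset Classical

section
variable {V : Type} [Fintype V] {s n b : ℕ}

private theorem Dgc_ins {Ω : Type} (P : Fintype Ω → Prop) {i j : Fintype Ω} (h : P i) : P j :=
  Subsingleton.elim i j ▸ h

private theorem Dgc_cond [NeZero b] (A : Finset (Ix V s n)) (B : (Ix V s n → Cn s b) → Prop)
    (p : ℝ) (h : ∀ ω0, pr (fun ω => B (ov A ω0 ω)) ≤ p) : pr B ≤ p := by
  have hne0 : Nonempty (Cn s b) := ⟨((0 : Fin b), (Equiv.refl (Fin s)))⟩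
  exact Dgc_ins (fun ii => @pr _ ii B ≤ p) (cond_pr' A B p (fun ω0 =>
    Dgc_ins (fun ii => @pr _ ii (fun ω => B (ov A ω0 ω)) ≤ p) (h ω0)))

private theorem Dgc_hoef [NeZero b] (J : Finset V)
    (f : V → (Ix V s n → Cn s b) → ℝ) (S : V → Finset (Ix V s n)) (hS : ∀ i ∈ J, Loc (f i) (S i))
    (hd : ∀ i ∈ J, ∀ j ∈ J, i ≠ j → Disjoint (S i) (S j)) (n1 : ℕ) (hn1 : 1 ≤ n1)
    (hn : J.card ≤ n1)
    (c : ℝ) (hc : 0 ≤ c) (hf : ∀ i ∈ J, ∀ ω, |f i ω| ≤ c) (t : ℝ) (ht : 0 < t) :
    pr (fun ω => t < |∑ i ∈ J, f i ω - ∑ i ∈ J, ex (f i)|) ≤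
      2 * Real.exp (-(t ^ 2 / (8 * n1 * c ^ 2))) := by
  have hne0 : Nonempty (Cn s b) := ⟨((0 : Fin b), (Equiv.refl (Fin s)))⟩
  exact Dgc_ins (fun ii => @pr _ ii (fun ω => t < |∑ i ∈ J, f i ω - ∑ i ∈ J, @ex _ ii (f i)|) ≤
    2 * Real.exp (-(t ^ 2 / (8 * n1 * c ^ 2)))) (hoef J f S hS hd n1 hn1 hn c hc hf t ht)

theorem dgc1 [NeZero b] (hb : 2 ≤ b) (G : SimpleGraph V) (C : Fin s → V → Finset V) (n0 : ℕ)
    (hn0 : 1 ≤ n0) (hirr : ∀ c v, v ∉ C c v) (Y : Finset V) (L : V → Finset (Fin s))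
    (l l' K0 h0 k0 : ℕ) (hl1 : 1 ≤ l) (hL : ∀ e ∈ Y, (L e).card ≤ l ∧ l ≤ (L e).card + K0)
    (hn : ∀ e ∈ Y, ∀ c ∈ L e, nn C Y L c e ≤ n) (g : Fin s) (v : V) (T : Finset V)
    (prv : V → Finset V) (hub : Fin s → Finset V) (spec : V → Fin s)
    (hP : IsPart G C g v T prv hub spec h0) (T' : Finset V) (hT' : T' ⊆ T) (hc : T'.card ≤ n0)
    (hT2 : ∀ e ∈ T', e ∈ Y ∧ g ∈ L e ∧ spec e ≠ g) (lam : ℝ) (hlam : 0 < lam)
    (hk0 : 3 * ((s : ℝ) * h0 / b) + 2 * lam ≤ k0)
    (hM0 : Real.sqrt (8 * l * lam) < kap b n * (l - K0 - k0 - 2 : ℕ)) :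
    pr (fun ω : Ix V s n → Cn s b =>
      (T'.card : ℝ) * qp b n l l' K0 h0 k0 lam + Real.sqrt (8 * n0 * lam) <
      ((T'.filter (fun e => nw C Y L ω e = none ∧ g ∈ nl C Y L l' ω e)).card : ℝ)) ≤
      3 * Real.exp (-lam) := by
  have hne0 : Nonempty (Cn s b) := ⟨((0 : Fin b), (Equiv.refl (Fin s)))⟩
  have hn0r : (0 : ℝ) < n0 := by exact_mod_cast hn0
  have ht : 0 < Real.sqrt (8 * n0 * lam) := Real.sqrt_pos.2 (by positivity)
  set t : ℝ := Real.sqrt (8 * n0 * lam) with htdef
  obtain ⟨A, hA⟩ : ∃ A : Finset (Ix V s n),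
      A = (univ \ T'.biUnion prv) ×ˢ (univ : Finset (Option (Fin s × Fin (n + 1)))) := ⟨_, rfl⟩
  obtain ⟨kk, hkk⟩ : ∃ kk : (Ix V s n → Cn s b) → Finset (Fin s),
      kk = fun ω => univ.filter (fun c : Fin s => ∃ z ∈ hub c, act ω z c) := ⟨_, rfl⟩
  obtain ⟨B, hB⟩ : ∃ B : (Ix V s n → Cn s b) → Prop, B = fun ω =>
      (T'.card : ℝ) * qp b n l l' K0 h0 k0 lam + t <
      ((T'.filter (fun e => nw C Y L ω e = none ∧ g ∈ nl C Y L l' ω e)).card : ℝ) := ⟨_, rfl⟩
  have hmain : pr B ≤ 3 * Real.exp (-lam) := by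
    have h1 : pr B ≤ pr (fun ω => (B ω ∧ (kk ω).card ≤ k0) ∨
        3 * ((s : ℝ) * h0 / b) + 2 * lam ≤ ((kk ω).card : ℝ)) := by
      apply pr_mono
      intro ω hω
      by_cases h : (kk ω).card ≤ k0
      · exact Or.inl ⟨hω, h⟩
      · right
        have : (k0 : ℝ) < ((kk ω).card : ℝ) := by exact_mod_cast (not_le.1 h)
        linarith
    have h2 : pr (fun ω : Ix V s n → Cn s b =>
        3 * ((s : ℝ) * h0 / b) + 2 * lam ≤ ((kk ω).card : ℝ)) ≤ Real.exp (-lam) := by
      rw [hkk]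
      exact hubk hub h0 hP.hubc lam hlam.le
    have h3 : pr (fun ω => B ω ∧ (kk ω).card ≤ k0) ≤ 2 * Real.exp (-lam) := by
      refine Dgc_cond A (fun ω => B ω ∧ (kk ω).card ≤ k0) (2 * Real.exp (-lam)) ?_
      intro ω0
      -- agreement facts
      have hin : ∀ (ω : Ix V s n → Cn s b) (z : V) (o : Option (Fin s × Fin (n + 1))),
          z ∉ T'.biUnion prv → ov A ω0 ω (z, o) = ω0 (z, o) := by
        intro ω z o hz
        unfold ov
        rw [if_pos]
        rw [hA]
        simp only [Finset.mem_product, Finset.mem_sdiff, Finset.mem_univ, true_and, and_true]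
        exact hz
      have hout : ∀ (ω : Ix V s n → Cn s b) (z : V) (o : Option (Fin s × Fin (n + 1))),
          z ∈ T'.biUnion prv → ov A ω0 ω (z, o) = ω (z, o) := by
        intro ω z o hz
        unfold ov
        rw [if_neg]
        rw [hA]
        simp only [Finset.mem_product, Finset.mem_sdiff, Finset.mem_univ, true_and, and_true]
        exact fun h => h hz
      have hhub : ∀ c, ∀ z ∈ hub c, z ∉ T'.biUnion prv := by
        intro c z hz hz2
        obtain ⟨e, he, hze⟩ := Finset.mem_biUnion.1 hz2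
        exact (Finset.disjoint_left.1 (hP.hubp e (hT' he) c)) hz hze
      have hact : ∀ (ω : Ix V s n → Cn s b) (c : Fin s), ∀ z ∈ hub c,
          (act (ov A ω0 ω) z c ↔ act ω0 z c) := by
        intro ω c z hz
        unfold act
        rw [hin ω z _ (hhub c z hz)]
      have hkkeq : ∀ ω : Ix V s n → Cn s b, kk (ov A ω0 ω) = kk ω0 := by
        intro ω
        rw [hkk]
        ext c
        simp only [Finset.mem_filter, Finset.mem_univ, true_and]
        constructor
        · rintro ⟨z, hz, h⟩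
          exact ⟨z, hz, (hact ω c z hz).1 h⟩
        · rintro ⟨z, hz, h⟩
          exact ⟨z, hz, (hact ω c z hz).2 h⟩
      by_cases hcase : (kk ω0).card ≤ k0
      · -- main case
        have hloc : ∀ e ∈ T', Loc (fun ω : Ix V s n → Cn s b =>
            Io C Y L (prv e) l' (insert (spec e) (kk ω0)) g ω e)
            ((prv e) ×ˢ (univ : Finset (Option (Fin s × Fin (n + 1))))) := fun e he =>
          loc_io C Y L (prv e) l' (insert (spec e) (kk ω0)) g e (hP.mem e (hT' he))
        obtain ⟨f, hf⟩ : ∃ f : V → (Ix V s n → Cn s b) → ℝ, f = fun e ω =>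
            if Io C Y L (prv e) l' (insert (spec e) (kk ω0)) g ω e then (1 : ℝ) else 0 := ⟨_, rfl⟩
        have hfl : ∀ e ∈ T', Loc (f e)
            ((prv e) ×ˢ (univ : Finset (Option (Fin s × Fin (n + 1))))) := by
          intro e he ω ω' h
          have := hloc e he ω ω' h
          rw [hf]
          simp only at this ⊢
          rw [this]
        have hdis : ∀ i ∈ T', ∀ j ∈ T', i ≠ j →
            Disjoint ((prv i) ×ˢ (univ : Finset (Option (Fin s × Fin (n + 1)))))
              ((prv j) ×ˢ (univ : Finset (Option (Fin s × Fin (n + 1))))) := by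
          intro i hi j hj hij
          rw [Finset.disjoint_left]
          intro x hx hx'
          exact (Finset.disjoint_left.1 (hP.dis i (hT' hi) j (hT' hj) hij))
            (Finset.mem_product.1 hx).1 (Finset.mem_product.1 hx').1
        have hfb : ∀ i ∈ T', ∀ ω, |f i ω| ≤ (1 : ℝ) := by
          intro i _ ω
          rw [hf]
          simp only
          split_ifs
          · simp
          · simp
        have hH := Dgc_hoef T' f (fun e => (prv e) ×ˢ (univ : Finset (Option (Fin s × Fin (n + 1)))))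
          hfl hdis n0 hn0 hc 1 zero_le_one hfb t ht
        have hexp : t ^ 2 / (8 * (n0 : ℝ) * 1 ^ 2) = lam := by
          rw [htdef, Real.sq_sqrt (by positivity)]
          field_simp
        rw [hexp] at hH
        refine le_trans (pr_mono ?_) hH
        rintro ω ⟨hω, -⟩
        rw [hB] at hω
        -- the means
        have hmean : ∑ i ∈ T', ex (f i) ≤ (T'.card : ℝ) * qp b n l l' K0 h0 k0 lam := by
          have : ∀ i ∈ T', ex (f i) ≤ qp b n l l' K0 h0 k0 lam := by
            intro e he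
            have h4 := iob hb C hirr Y L (prv e) l l' K0 h0 k0 (insert (spec e) (kk ω0)) g e
              (hL e (hT2 e he).1).1 hl1 (hL e (hT2 e he).1).2 (hn e (hT2 e he).1) (hT2 e he).2.1
              (le_trans (Finset.card_insert_le _ _) (by omega)) ?_ lam hlam hM0
            · rw [ex_ind] at h4
              rw [hf]
              exact h4
            · refine le_trans (Finset.card_le_card ?_) (hP.hubc g)
              intro z hz
              obtain ⟨hz1, hz2, -, -⟩ := Finset.mem_filter.1 hz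
              exact hP.out e (hT' he) g (fun h => (hT2 e he).2.2 h.symm) z hz1 hz2
          calc ∑ i ∈ T', ex (f i) ≤ ∑ i ∈ T', qp b n l l' K0 h0 k0 lam := Finset.sum_le_sum this
            _ = _ := by rw [Finset.sum_const, nsmul_eq_mul]
        -- the count
        have hcount : ((T'.filter (fun e => nw C Y L (ov A ω0 ω) e = none ∧
            g ∈ nl C Y L l' (ov A ω0 ω) e)).card : ℝ) ≤ ∑ i ∈ T', f i ω := by
          have h5 : ∑ i ∈ T', f i ω = ((T'.filter (fun e =>
              Io C Y L (prv e) l' (insert (spec e) (kk ω0)) g ω e)).card : ℝ) := by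
            rw [hf]
            rw [Finset.sum_boole]
          rw [h5]
          have hsub : T'.filter (fun e => nw C Y L (ov A ω0 ω) e = none ∧
              g ∈ nl C Y L l' (ov A ω0 ω) e) ⊆ T'.filter (fun e =>
              Io C Y L (prv e) l' (insert (spec e) (kk ω0)) g ω e) := by
            intro e he
            obtain ⟨heT, hnw, hg⟩ := Finset.mem_filter.1 he
            refine Finset.mem_filter.2 ⟨heT, ?_⟩
            have heq := hloc e heT (ov A ω0 ω) ω (by
              rintro ⟨z, o⟩ hz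
              exact hout ω z o (Finset.mem_biUnion.2 ⟨e, heT, (Finset.mem_product.1 hz).1⟩))
            simp only at heq
            rw [← heq]
            -- now the claim for ω1
            have hkk1 := hkkeq ω
            generalize ov A ω0 ω = ω1 at hnw hg hkk1
            unfold nw at hnw
            rw [first_none_iff] at hnw
            have hnact : ∀ c ∈ Sv C Y L ω1 e, ¬ act ω1 e c := by
              intro c hc hac
              have : c ∈ (Sv C Y L ω1 e).filter (fun c => act ω1 e c) :=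
                Finset.mem_filter.2 ⟨hc, hac⟩
              rw [hnw] at this
              simp at this
            have hgS : g ∈ Sv C Y L ω1 e := by
              unfold nl at hg
              exact pre_sub _ _ _ hg
            have hsvp : ∀ c, c ∉ insert (spec e) (kk ω0) → svp C Y L (prv e) ω1 c e →
                sv C Y L ω1 c e := by
              intro c hck hs
              rw [Finset.mem_insert, not_or] at hck
              refine ⟨fun z hz hzY hcz hac => ?_, hs.2⟩
              by_cases hzP : z ∈ prv e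
              · exact hs.1 z hz hzP hzY hcz hac
              · have hzh := hP.out e (hT' heT) c hck.1 z hz hzP
                apply hck.2
                rw [← hkk1, hkk]
                exact Finset.mem_filter.2 ⟨Finset.mem_univ _, z, hzh, hac⟩
            have hgsv : sv C Y L ω1 g e := (Finset.mem_filter.1 hgS).2
            refine ⟨⟨fun z hz _ hzY hcz => hgsv.1 z hz hzY hcz, hgsv.2⟩, hnact g hgS, ?_, ?_⟩
            · intro c hcL hck _ hs
              exact hnact c (Finset.mem_filter.2 ⟨hcL, hsvp c hck hs⟩)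
            · have h6 : ((Sv C Y L ω1 e).filter (fun d =>
                  (pm ω1 e).symm d < (pm ω1 e).symm g)).card < l' := by
                unfold nl pre at hg
                exact (Finset.mem_filter.1 hg).2
              refine lt_of_le_of_lt (Finset.card_le_card ?_) h6
              intro c hc
              obtain ⟨hcL, hck, _, hs, hlt⟩ := Finset.mem_filter.1 hc
              exact Finset.mem_filter.2 ⟨Finset.mem_filter.2 ⟨hcL, hsvp c hck hs⟩, hlt⟩
          exact_mod_cast Finset.card_le_card hsub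
        have h7 : t < ∑ i ∈ T', f i ω - ∑ i ∈ T', ex (f i) := by linarith
        exact lt_of_lt_of_le h7 (le_abs_self _)
      · -- empty case
        have h4 : pr (fun ω : Ix V s n → Cn s b =>
            B (ov A ω0 ω) ∧ (kk (ov A ω0 ω)).card ≤ k0) ≤
            pr (fun _ : Ix V s n → Cn s b => False) := by
          apply pr_mono
          rintro ω ⟨-, h⟩
          rw [hkkeq ω] at h
          exact hcase h
        have h5 : pr (fun _ : Ix V s n → Cn s b => False) = 0 := by
          unfold pr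
          simp
        rw [h5] at h4
        have h6 : 0 ≤ 2 * Real.exp (-lam) := by positivity
        linarith
    have h4 := pr_or (fun ω => B ω ∧ (kk ω).card ≤ k0)
      (fun ω => 3 * ((s : ℝ) * h0 / b) + 2 * lam ≤ ((kk ω).card : ℝ))
    linarith
  rw [hB] at hmain
  exact hmain

private theorem Dgc_qp (hb : 2 ≤ b) (l l' K0 h0 k0 : ℕ) (lam : ℝ)
    (hM0 : Real.sqrt (8 * l * lam) < kap b n * (l - K0 - k0 - 2 : ℕ)) :
    0 ≤ qp b n l l' K0 h0 k0 lam := by
  have hb' : (2 : ℝ) ≤ b := by exact_mod_cast hb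
  have h1 : 1 / (b : ℝ) ≤ 1 / 2 := by
    apply one_div_le_one_div_of_le (by norm_num) hb'
  have h2 : 0 ≤ kap b n := kap_nonneg b n (by omega)
  have h3 : kap b n ≤ 1 := kap_le_one b n (by omega)
  have h4 : kap b n / b ≤ 1 := by
    rw [div_le_one (by linarith)]
    linarith
  have h5 : 0 ≤ (1 - 1 / (b : ℝ)) ^ h0 := pow_nonneg (by linarith) _
  have h6 : 0 ≤ (1 - kap b n / b) ^ (l - K0 - k0 - 2) := pow_nonneg (by linarith) _
  have h7 : 0 ≤ kap b n * (l - K0 - k0 - 2 : ℕ) - Real.sqrt (8 * l * lam) := by linarith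
  unfold qp
  have h8 : 0 ≤ 2 * Real.exp (-lam) := by positivity
  exact mul_nonneg (div_nonneg h2 h5) (add_nonneg (div_nonneg (mul_nonneg h6 (Nat.cast_nonneg _)) h7) h8)

theorem dgc [NeZero b] (hb : 2 ≤ b) (G : SimpleGraph V) (C : Fin s → V → Finset V) (n0 : ℕ)
    (hn0 : 1 ≤ n0) (hC : IsSys G C n0) (np h0 : ℕ) (hP : Parts G C np h0) (Y : Finset V)
    (L : V → Finset (Fin s))
    (l l' K0 k0 : ℕ) (hl1 : 1 ≤ l) (hL : ∀ e ∈ Y, (L e).card ≤ l ∧ l ≤ (L e).card + K0)
    (hn : ∀ e ∈ Y, ∀ c ∈ L e, nn C Y L c e ≤ n) (g : Fin s) (v : V) (hgv : nn C Y L g v ≤ n)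
    (lam : ℝ) (hlam : 0 < lam)
    (hk0 : 3 * ((s : ℝ) * h0 / b) + 2 * lam ≤ k0)
    (hM0 : Real.sqrt (8 * l * lam) < kap b n * (l - K0 - k0 - 2 : ℕ)) :
    pr (fun ω : Ix V s n → Cn s b =>
      (n : ℝ) * qp b n l l' K0 h0 k0 lam + np * (Real.sqrt (8 * n0 * lam) + h0) <
      (nn C (nY C Y L ω) (nl C Y L l' ω) g v : ℝ)) ≤ 3 * np * Real.exp (-lam) := by
  obtain ⟨T, prv, hub, spec, hcov, hpart⟩ := hP g v
  have hqp : 0 ≤ qp b n l l' K0 h0 k0 lam := Dgc_qp hb l l' K0 h0 k0 lam hM0
  obtain ⟨X, hX⟩ : ∃ X : Finset V, X = (C g v).filter (fun e => e ∈ Y ∧ g ∈ L e) := ⟨_, rfl⟩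
  have hXn : X.card ≤ n := by
    rw [hX]
    exact hgv
  have hXn0 : X.card ≤ n0 := by
    rw [hX]
    exact le_trans (Finset.card_le_card (Finset.filter_subset _ _)) (hC.card g v)
  obtain ⟨T', hT'⟩ : ∃ T' : Fin np → Finset V, T' = fun j =>
      X.filter (fun e => (e ∈ T j ∧ ∀ i, i < j → e ∉ T i) ∧ spec j e ≠ g) := ⟨_, rfl⟩
  have hsub : ∀ j, T' j ⊆ X := fun j => by rw [hT']; exact Finset.filter_subset _ _
  have hsub2 : ∀ j, T' j ⊆ T j := by
    intro j e he
    rw [hT'] at he
    exact (Finset.mem_filter.1 he).2.1.1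
  have hdisj : ∀ i ∈ (univ : Finset (Fin np)), ∀ j ∈ (univ : Finset (Fin np)), i ≠ j →
      Disjoint (T' i) (T' j) := by
    intro i _ j _ hij
    rw [Finset.disjoint_left]
    intro e hi hj
    rw [hT'] at hi hj
    have h1 := (Finset.mem_filter.1 hi).2.1
    have h2 := (Finset.mem_filter.1 hj).2.1
    rcases lt_or_gt_of_ne hij with h | h
    · exact h2.2 i h h1.1
    · exact h1.2 j h h2.1
  have hsum : ∑ j, (T' j).card ≤ n := by
    rw [← Finset.card_biUnion (fun i hi j hj hij => hdisj i hi j hj hij)]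
    refine le_trans (Finset.card_le_card ?_) hXn
    intro e he
    obtain ⟨j, -, hj⟩ := Finset.mem_biUnion.1 he
    exact hsub j hj
  have hsumr : (∑ j, ((T' j).card : ℝ)) ≤ n := by exact_mod_cast hsum
  have hT2 : ∀ j, ∀ e ∈ T' j, e ∈ Y ∧ g ∈ L e ∧ spec j e ≠ g := by
    intro j e he
    have h1 := hsub j he
    rw [hX] at h1
    rw [hT'] at he
    exact ⟨(Finset.mem_filter.1 h1).2.1, (Finset.mem_filter.1 h1).2.2,
      (Finset.mem_filter.1 he).2.2⟩
  have hpj : ∀ j ∈ (univ : Finset (Fin np)), pr (fun ω : Ix V s n → Cn s b =>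
      ((T' j).card : ℝ) * qp b n l l' K0 h0 k0 lam + Real.sqrt (8 * n0 * lam) <
      (((T' j).filter (fun e => nw C Y L ω e = none ∧ g ∈ nl C Y L l' ω e)).card : ℝ)) ≤
      3 * Real.exp (-lam) := fun j _ =>
    dgc1 hb G C n0 hn0 hC.irr Y L l l' K0 h0 k0 hl1 hL hn g v (T j) (prv j) (hub j) (spec j)
      (hpart j) (T' j) (hsub2 j) (le_trans (Finset.card_le_card (hsub j)) hXn0) (hT2 j) lam hlam
      hk0 hM0
  have hU := pr_ex (univ : Finset (Fin np)) (fun j (ω : Ix V s n → Cn s b) =>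
      ((T' j).card : ℝ) * qp b n l l' K0 h0 k0 lam + Real.sqrt (8 * n0 * lam) <
      (((T' j).filter (fun e => nw C Y L ω e = none ∧ g ∈ nl C Y L l' ω e)).card : ℝ))
      (3 * Real.exp (-lam)) hpj
  rw [Finset.card_univ, Fintype.card_fin] at hU
  refine le_trans (pr_mono ?_) (le_trans hU (le_of_eq (by ring)))
  intro ω hω
  by_contra hcon
  have hcon' : ∀ j, (((T' j).filter (fun e => nw C Y L ω e = none ∧
      g ∈ nl C Y L l' ω e)).card : ℝ) ≤
      ((T' j).card : ℝ) * qp b n l l' K0 h0 k0 lam + Real.sqrt (8 * n0 * lam) := by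
    intro j
    by_contra h
    exact hcon ⟨j, Finset.mem_univ _, not_le.1 h⟩
  have hcard : nn C (nY C Y L ω) (nl C Y L l' ω) g v ≤ ∑ j : Fin np,
      (((T' j).filter (fun e => nw C Y L ω e = none ∧ g ∈ nl C Y L l' ω e)).card + h0) := by
    unfold nn
    have hs : (C g v).filter (fun z => z ∈ nY C Y L ω ∧ g ∈ nl C Y L l' ω z) ⊆
        (univ : Finset (Fin np)).biUnion (fun j =>
          (T' j).filter (fun e => nw C Y L ω e = none ∧ g ∈ nl C Y L l' ω e) ∪
          (T j).filter (fun e => spec j e = g)) := by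
      intro z hz
      obtain ⟨hzC, hzY, hzg⟩ := Finset.mem_filter.1 hz
      have hzY1 : z ∈ Y := (Finset.mem_filter.1 hzY).1
      have hznw : nw C Y L ω z = none := (Finset.mem_filter.1 hzY).2
      have hzL : g ∈ L z := by
        have h1 : g ∈ Sv C Y L ω z := by
          unfold nl at hzg
          exact pre_sub _ _ _ hzg
        exact (Finset.mem_filter.1 h1).1
      have hzX : z ∈ X := by
        rw [hX]
        exact Finset.mem_filter.2 ⟨hzC, hzY1, hzL⟩
      have hne : (univ.filter (fun j : Fin np => z ∈ T j)).Nonempty := by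
        obtain ⟨j, hj⟩ := hcov z hzC
        exact ⟨j, Finset.mem_filter.2 ⟨Finset.mem_univ _, hj⟩⟩
      obtain ⟨j, hj1, hj2⟩ : ∃ j : Fin np, z ∈ T j ∧ ∀ i, i < j → z ∉ T i := by
        refine ⟨(univ.filter (fun j : Fin np => z ∈ T j)).min' hne, ?_, ?_⟩
        · exact (Finset.mem_filter.1 (Finset.min'_mem _ hne)).2
        · intro i hi hiT
          have := Finset.min'_le (univ.filter (fun j : Fin np => z ∈ T j)) i
            (Finset.mem_filter.2 ⟨Finset.mem_univ _, hiT⟩)
          exact absurd hi (not_lt.2 this)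
      refine Finset.mem_biUnion.2 ⟨j, Finset.mem_univ _, ?_⟩
      by_cases hsp : spec j z = g
      · exact Finset.mem_union_right _ (Finset.mem_filter.2 ⟨hj1, hsp⟩)
      · apply Finset.mem_union_left
        refine Finset.mem_filter.2 ⟨?_, hznw, hzg⟩
        rw [hT']
        exact Finset.mem_filter.2 ⟨hzX, ⟨hj1, hj2⟩, hsp⟩
    refine le_trans (Finset.card_le_card hs) (le_trans Finset.card_biUnion_le ?_)
    refine Finset.sum_le_sum fun j _ => ?_
    refine le_trans (Finset.card_union_le _ _) ?_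
    exact Nat.add_le_add_left (hpart j).spc _
  have hcardr : (nn C (nY C Y L ω) (nl C Y L l' ω) g v : ℝ) ≤ ∑ j : Fin np,
      ((((T' j).filter (fun e => nw C Y L ω e = none ∧ g ∈ nl C Y L l' ω e)).card : ℝ) + h0) := by
    exact_mod_cast hcard
  have h1 : ∑ j : Fin np,
      ((((T' j).filter (fun e => nw C Y L ω e = none ∧ g ∈ nl C Y L l' ω e)).card : ℝ) + h0) ≤
      ∑ j : Fin np, (((T' j).card : ℝ) * qp b n l l' K0 h0 k0 lam +
        (Real.sqrt (8 * n0 * lam) + h0)) := by
    refine Finset.sum_le_sum fun j _ => ?_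
    have := hcon' j
    linarith
  have h2 : ∑ j : Fin np, (((T' j).card : ℝ) * qp b n l l' K0 h0 k0 lam +
        (Real.sqrt (8 * n0 * lam) + h0)) = (∑ j, ((T' j).card : ℝ)) * qp b n l l' K0 h0 k0 lam +
        np * (Real.sqrt (8 * n0 * lam) + h0) := by
    rw [Finset.sum_add_distrib, Finset.sum_mul, Finset.sum_const, Finset.card_univ,
      Fintype.card_fin, nsmul_eq_mul]
  have h3 : (∑ j, ((T' j).card : ℝ)) * qp b n l l' K0 h0 k0 lam ≤
      n * qp b n l l' K0 h0 k0 lam := mul_le_mul_of_nonneg_right hsumr hqp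
  linarith

end

end Pool.Agent.H65.GI
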