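/-
ROW TsX. Concentration of the number of uncoloured vertices of a test set with `c` in the list.
PROOF. `loc_nw`, `loc_nl`: `nw C Y L ω v` and `nl C Y L l' ω v` depend on `act ω z c` for `z ∈ C c v` (`z ∈ dp C v`), `act ω v c`, `dum ω v c i`, `pm ω v`: all coordinates have first component in `dp C v`. (`nn` does not depend on `ω`.)
`tsX`: `J = T.image gr`, `f u ω = ∑ x ∈ T.filter (gr x = u), if (nw ω x = none ∧ x ∈ Y ∧ c ∈ nl ω x) then 1 else 0`; `Loc (f u)` on `((T.filter (gr x = u)).biUnion (dp C)) ×ˢ univ`; these are disjoint for different `u`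
(`hT.dis`). `|f u| ≤ m` (`hT.gsz`). `∑_{u ∈ J} f u ω = XT T (nY ω) (nl ω) c` (`Finset.sum_fiberwise_of_maps_to`). `ex (f u) = ∑ x, pr (...)`: for `x ∈ Y`, `c ∈ L x` it is `qq` (`nl_pr`), otherwise `0` (`c ∈ nl ω x → c ∈ Sv ω x ⊆ L x`, `pre_sub`).
So `∑ ex (f u) = qq * XT T Y L c`. `hoef` with `c := m`, `n := g`, `t = m sqrt (8 g lam)`: exponent `t^2/(8 g m^2) = lam` (if `m = 0` then `T` is empty and the difference is `0`, so the event is `0 < 0`, probability `0`).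
-/
import Pool.Agent.H65.GI.Lw
import Pool.Agent.H65.GI.Hof

set_option autoImplicit false

namespace Pool.Agent.H65.GI

open Finset Classical

theorem TsX_hoef {I κ ι : Type} [Fintype I] [Fintype κ] [Nonempty κ] (inst : Fintype (I → κ))
    (J : Finset ι)
    (f : ι → (I → κ) → ℝ) (S : ι → Finset I) (hS : ∀ i ∈ J, Loc (f i) (S i))
    (hd : ∀ i ∈ J, ∀ j ∈ J, i ≠ j → Disjoint (S i) (S j)) (n : ℕ) (hn1 : 1 ≤ n) (hn : J.card ≤ n)
    (c : ℝ) (hc : 0 ≤ c) (hf : ∀ i ∈ J, ∀ ω, |f i ω| ≤ c) (t : ℝ) (ht : 0 < t) :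
    @pr (I → κ) inst (fun ω => t < |∑ i ∈ J, f i ω - ∑ i ∈ J, @ex (I → κ) inst (f i)|) ≤
      2 * Real.exp (-(t ^ 2 / (8 * n * c ^ 2))) := by
  have h := hoef J f S hS hd n hn1 hn c hc hf t ht
  rw [Subsingleton.elim inst (Pi.instFintype : Fintype (I → κ))]
  exact h

section
variable {V : Type} [Fintype V] {s n b : ℕ}

theorem TsX_Sv (C : Fin s → V → Finset V) (Y : Finset V) (L : V → Finset (Fin s)) (v : V)
    (ω ω' : Ix V s n → Cn s b)
    (h : ∀ i ∈ (dp C v) ×ˢ (univ : Finset (Option (Fin s × Fin (n + 1)))), ω i = ω' i) :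
    Sv C Y L ω v = Sv C Y L ω' v ∧ (∀ c, act ω v c ↔ act ω' v c) ∧ pm ω v = pm ω' v := by
  have hk : ∀ z ∈ dp C v, ∀ o, ω (z, o) = ω' (z, o) := fun z hz o =>
    h (z, o) (Finset.mem_product.2 ⟨hz, Finset.mem_univ _⟩)
  have hv : v ∈ dp C v := Finset.mem_insert_self _ _
  have hz : ∀ c, ∀ z ∈ C c v, z ∈ dp C v := fun c z hz =>
    Finset.mem_insert_of_mem (Finset.mem_biUnion.2 ⟨c, Finset.mem_univ _, hz⟩)
  refine ⟨?_, ?_, ?_⟩
  · unfold Sv
    apply Finset.filter_congr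
    intro c _
    unfold sv act dum
    constructor
    · rintro ⟨h1, h2⟩
      refine ⟨fun z hzc hzY hzL => ?_, fun i hi => ?_⟩
      · rw [← hk z (hz c z hzc)]
        exact h1 z hzc hzY hzL
      · rw [← hk v hv]
        exact h2 i hi
    · rintro ⟨h1, h2⟩
      refine ⟨fun z hzc hzY hzL => ?_, fun i hi => ?_⟩
      · rw [hk z (hz c z hzc)]
        exact h1 z hzc hzY hzL
      · rw [hk v hv]
        exact h2 i hi
  · intro c
    unfold act
    rw [hk v hv]
  · unfold pm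
    rw [hk v hv]

theorem loc_nw (C : Fin s → V → Finset V) (Y : Finset V) (L : V → Finset (Fin s)) (v : V) :
    Loc (fun ω : Ix V s n → Cn s b => nw C Y L ω v)
      ((dp C v) ×ˢ (univ : Finset (Option (Fin s × Fin (n + 1))))) := by
  intro ω ω' h
  obtain ⟨h1, h2, h3⟩ := TsX_Sv C Y L v ω ω' h
  show nw C Y L ω v = nw C Y L ω' v
  unfold nw
  rw [h1, h3]
  congr 1
  exact Finset.filter_congr fun c _ => h2 c

theorem loc_nl (C : Fin s → V → Finset V) (Y : Finset V) (L : V → Finset (Fin s)) (l' : ℕ) (v : V) :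
    Loc (fun ω : Ix V s n → Cn s b => nl C Y L l' ω v)
      ((dp C v) ×ˢ (univ : Finset (Option (Fin s × Fin (n + 1))))) := by
  intro ω ω' h
  obtain ⟨h1, h2, h3⟩ := TsX_Sv C Y L v ω ω' h
  show nl C Y L l' ω v = nl C Y L l' ω' v
  unfold nl
  rw [h1, h3]

theorem tsX [NeZero b] (G : SimpleGraph V) (C : Fin s → V → Finset V) (hirr : ∀ c v, v ∉ C c v)
    (Y : Finset V) (L : V → Finset (Fin s)) (l l' : ℕ) (c : Fin s) (v : V) (T : Finset V)
    (gr : V → V) (m g : ℕ) (hg : 1 ≤ g) (hT : IsTest G C v T gr m g)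
    (hl : ∀ x ∈ T, x ∈ Y → (L x).card = l) (hn : ∀ x ∈ T, x ∈ Y → ∀ d ∈ L x, nn C Y L d x ≤ n)
    (lam : ℝ) (hlam : 0 < lam) :
    pr (fun ω : Ix V s n → Cn s b => (m : ℝ) * Real.sqrt (8 * g * lam) <
      |(XT T (nY C Y L ω) (nl C Y L l' ω) c : ℝ) - qq b n l l' * XT T Y L c|) ≤
      2 * Real.exp (-lam) := by
  have hbpos : 0 < b := Nat.pos_of_ne_zero (NeZero.ne b)
  have : Nonempty (Cn s b) := ⟨(⟨0, hbpos⟩, 1)⟩
  -- the indicator
  obtain ⟨g0, hg0⟩ : ∃ g0 : V → (Ix V s n → Cn s b) → ℝ, g0 = fun x ω =>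
      if (x ∈ Y ∧ nw C Y L ω x = none ∧ c ∈ nl C Y L l' ω x) then (1 : ℝ) else 0 := ⟨_, rfl⟩
  obtain ⟨f, hf⟩ : ∃ f : V → (Ix V s n → Cn s b) → ℝ, f = fun u ω =>
      ∑ x ∈ T.filter (fun x => gr x = u), g0 x ω := ⟨_, rfl⟩
  obtain ⟨S, hS⟩ : ∃ S : V → Finset (Ix V s n), S = fun u =>
      ((T.filter (fun x => gr x = u)).biUnion (dp C)) ×ˢ
        (univ : Finset (Option (Fin s × Fin (n + 1)))) := ⟨_, rfl⟩
  have hgl : ∀ x, Loc (g0 x) ((dp C x) ×ˢ (univ : Finset (Option (Fin s × Fin (n + 1))))) := by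
    intro x ω ω' h
    have h1 : nw C Y L ω x = nw C Y L ω' x := loc_nw C Y L x ω ω' h
    have h2 : nl C Y L l' ω x = nl C Y L l' ω' x := loc_nl C Y L l' x ω ω' h
    rw [hg0]
    show (if (x ∈ Y ∧ nw C Y L ω x = none ∧ c ∈ nl C Y L l' ω x) then (1 : ℝ) else 0) =
      (if (x ∈ Y ∧ nw C Y L ω' x = none ∧ c ∈ nl C Y L l' ω' x) then (1 : ℝ) else 0)
    rw [h1, h2]
  have hfl : ∀ u ∈ T.image gr, Loc (f u) (S u) := by
    intro u _ ω ω' h
    rw [hf]
    show ∑ x ∈ T.filter (fun x => gr x = u), g0 x ω = ∑ x ∈ T.filter (fun x => gr x = u), g0 x ω'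
    apply Finset.sum_congr rfl
    intro x hx
    apply hgl x ω ω'
    intro i hi
    apply h
    rw [hS]
    rw [Finset.mem_product] at hi
    show i ∈ ((T.filter (fun x => gr x = u)).biUnion (dp C)) ×ˢ
        (univ : Finset (Option (Fin s × Fin (n + 1))))
    rw [Finset.mem_product]
    exact ⟨Finset.mem_biUnion.2 ⟨x, hx, hi.1⟩, Finset.mem_univ _⟩
  have hdis : ∀ u ∈ T.image gr, ∀ u' ∈ T.image gr, u ≠ u' → Disjoint (S u) (S u') := by
    intro u _ u' _ hne
    rw [hS, Finset.disjoint_left]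
    rintro ⟨z, o⟩ h1 h2
    have h1' := (Finset.mem_product.1 h1).1
    have h2' := (Finset.mem_product.1 h2).1
    obtain ⟨x, hx, hzx⟩ := Finset.mem_biUnion.1 h1'
    obtain ⟨y, hy, hzy⟩ := Finset.mem_biUnion.1 h2'
    rw [Finset.mem_filter] at hx hy
    have h3 := hT.dis x hx.1 y hy.1 (by rw [hx.2, hy.2]; exact hne)
    exact (Finset.disjoint_left.1 h3) hzx hzy
  have hg01 : ∀ x ω, |g0 x ω| ≤ 1 := by
    intro x ω
    rw [hg0]
    show |(if (x ∈ Y ∧ nw C Y L ω x = none ∧ c ∈ nl C Y L l' ω x) then (1 : ℝ) else 0)| ≤ 1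
    split_ifs <;> simp
  have hfm : ∀ u ∈ T.image gr, ∀ ω, |f u ω| ≤ (m : ℝ) := by
    intro u _ ω
    rw [hf]
    show |∑ x ∈ T.filter (fun x => gr x = u), g0 x ω| ≤ (m : ℝ)
    refine (Finset.abs_sum_le_sum_abs _ _).trans ?_
    refine (Finset.sum_le_sum fun x _ => hg01 x ω).trans ?_
    rw [Finset.sum_const, nsmul_eq_mul, mul_one]
    exact_mod_cast hT.gsz u
  have hsum : ∀ ω, ∑ u ∈ T.image gr, f u ω = ((XT T (nY C Y L ω) (nl C Y L l' ω) c : ℕ) : ℝ) := by
    intro ω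
    rw [hf]
    show ∑ u ∈ T.image gr, ∑ x ∈ T.filter (fun x => gr x = u), g0 x ω = _
    rw [Finset.sum_fiberwise_of_maps_to (fun x hx => Finset.mem_image_of_mem gr hx)]
    unfold XT
    rw [hg0]
    show ∑ x ∈ T, (if (x ∈ Y ∧ nw C Y L ω x = none ∧ c ∈ nl C Y L l' ω x) then (1 : ℝ) else 0) = _
    rw [Finset.sum_boole]
    congr 2
    apply Finset.filter_congr
    intro x _
    unfold nY
    rw [Finset.mem_filter, and_assoc]
  have hexg : ∀ x ∈ T, ex (g0 x) = qq b n l l' * (if (x ∈ Y ∧ c ∈ L x) then (1 : ℝ) else 0) := by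
    intro x hx
    have h0 : ex (g0 x) = pr (fun ω : Ix V s n → Cn s b =>
        x ∈ Y ∧ nw C Y L ω x = none ∧ c ∈ nl C Y L l' ω x) := by
      rw [ex_ind]
      congr 1
      funext ω
      rw [hg0]
      show (if (x ∈ Y ∧ nw C Y L ω x = none ∧ c ∈ nl C Y L l' ω x) then (1 : ℝ) else 0) = _
      by_cases h : x ∈ Y ∧ nw C Y L ω x = none ∧ c ∈ nl C Y L l' ω x
      · rw [if_pos h, if_pos h]
      · rw [if_neg h, if_neg h]
    rw [h0]
    by_cases hY : x ∈ Y
    · by_cases hc : c ∈ L x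
      · rw [if_pos ⟨hY, hc⟩, mul_one, ← nl_pr C hirr Y L x l l' (hl x hx hY) (hn x hx hY) c hc]
        congr 1
        funext ω
        exact propext ⟨fun h => h.2, fun h => ⟨hY, h⟩⟩
      · rw [if_neg (fun h => hc h.2), mul_zero]
        apply le_antisymm _ (pr_nonneg _)
        have h1 : pr (fun ω : Ix V s n → Cn s b =>
            x ∈ Y ∧ nw C Y L ω x = none ∧ c ∈ nl C Y L l' ω x) ≤
            pr (fun _ : Ix V s n → Cn s b => False) := by
          apply pr_mono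
          rintro ω ⟨_, _, h⟩
          apply hc
          have h2 : c ∈ Sv C Y L ω x := pre_sub _ _ _ h
          exact (Finset.mem_filter.1 h2).1
        refine h1.trans (le_of_eq ?_)
        unfold pr
        simp
    · rw [if_neg (fun h => hY h.1), mul_zero]
      apply le_antisymm _ (pr_nonneg _)
      have h1 : pr (fun ω : Ix V s n → Cn s b =>
          x ∈ Y ∧ nw C Y L ω x = none ∧ c ∈ nl C Y L l' ω x) ≤
          pr (fun _ : Ix V s n → Cn s b => False) :=
        pr_mono fun ω h => hY h.1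
      refine h1.trans (le_of_eq ?_)
      unfold pr
      simp
  have hexf : ∑ u ∈ T.image gr, ex (f u) = qq b n l l' * XT T Y L c := by
    have h1 : ∀ u, ex (f u) = ∑ x ∈ T.filter (fun x => gr x = u), ex (g0 x) := by
      intro u
      rw [← ex_sum, hf]
    rw [Finset.sum_congr rfl fun u _ => h1 u,
      Finset.sum_fiberwise_of_maps_to (fun x hx => Finset.mem_image_of_mem gr hx),
      Finset.sum_congr rfl hexg, ← Finset.mul_sum, Finset.sum_boole]
    rfl
  rcases Nat.eq_zero_or_pos m with hm | hm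
  · -- T is empty
    have hTe : T = ∅ := by
      rw [Finset.eq_empty_iff_forall_notMem]
      intro x hx
      have h1 := hT.gsz (gr x)
      rw [hm, Nat.le_zero, Finset.card_eq_zero] at h1
      have h2 : x ∈ T.filter (fun y => gr y = gr x) := Finset.mem_filter.2 ⟨hx, rfl⟩
      rw [h1] at h2
      exact Finset.notMem_empty _ h2
    have h1 : pr (fun ω : Ix V s n → Cn s b => (m : ℝ) * Real.sqrt (8 * g * lam) <
      |(XT T (nY C Y L ω) (nl C Y L l' ω) c : ℝ) - qq b n l l' * XT T Y L c|) ≤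
        pr (fun _ : Ix V s n → Cn s b => False) := by
      apply pr_mono
      intro ω h
      rw [hm, hTe] at h
      unfold XT at h
      simp at h
    refine h1.trans ?_
    have h2 : pr (fun _ : Ix V s n → Cn s b => False) = 0 := by
      unfold pr
      simp
    rw [h2]
    positivity
  · have hm' : (0 : ℝ) < m := by exact_mod_cast hm
    have hg' : (0 : ℝ) < g := by exact_mod_cast hg
    have h8 : (0 : ℝ) < 8 * g * lam := by positivity
    have ht : 0 < (m : ℝ) * Real.sqrt (8 * g * lam) := mul_pos hm' (Real.sqrt_pos.2 h8)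
    have h1 := TsX_hoef inferInstance (T.image gr) f S hfl hdis g hg hT.num (m : ℝ) hm'.le hfm
      ((m : ℝ) * Real.sqrt (8 * g * lam)) ht
    have h2 : ((m : ℝ) * Real.sqrt (8 * g * lam)) ^ 2 / (8 * g * (m : ℝ) ^ 2) = lam := by
      rw [mul_pow, Real.sq_sqrt h8.le]
      field_simp
    rw [h2, hexf] at h1
    simp only [hsum] at h1
    exact h1

end

end Pool.Agent.H65.GI
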