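/-
ROW TsC. Concentration of the number of vertices of a test set that get the colour `c` in this round.
PROOF. Let `g x ω = if (x ∈ Y ∧ nw ω x = some c) then 1 else 0`. `J = T.image gr`, `f u ω = ∑ x ∈ T.filter (gr x = u), g x ω`; `Loc` on the union of `dp C x ×ˢ univ` (`loc_nw`), disjoint for different `u` (`hT.dis`). `0 ≤ f u ≤ m`.
`nw ω x = some c → act ω x c` (`first_iff`, filter). So `f u ω ≤ #{x ∈ T, gr x = u : act ω x c}`; `ch_up` (coordinates `(x, some (c, 0))`, distinct, probability `1/b` each by `act_pr`, `μ = m/b`):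
`pr (3 m/b + 2 lam < |f u|) ≤ pr (3 m/b + 2 lam ≤ #...) ≤ exp (-lam)`. `ex (f u) = cc * #{x : gr x = u, x ∈ Y, c ∈ L x}` (`nw_pr`; if `c ∉ L x` then `nw ω x ≠ some c`). `hoefT` with `c := 3 m/b + 2 lam`, `M := m`, `p := exp (-lam)`,
`n := g`, `t = (3 m/b + 2 lam) sqrt (8 g lam)`: exponent `lam`. The sum over `u` is the count over `T` (fiberwise).
-/
import Pool.Agent.H65.GI.TsX
import Pool.Agent.H65.GI.Chf

set_option autoImplicit false

namespace Pool.Agent.H65.GI

open Finset Classical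

theorem TsC_pri {Ω : Type} (i j : Fintype Ω) (A : Ω → Prop) : @pr Ω i A = @pr Ω j A := by
  rw [Subsingleton.elim i j]

theorem TsC_exi {Ω : Type} (i j : Fintype Ω) (f : Ω → ℝ) : @ex Ω i f = @ex Ω j f := by
  rw [Subsingleton.elim i j]

theorem TsC_nw {V : Type} [Fintype V] {s n b : ℕ} (C : Fin s → V → Finset V) (Y : Finset V)
    (L : V → Finset (Fin s)) (ω : Ix V s n → Cn s b) (x : V) (c : Fin s)
    (h : nw C Y L ω x = some c) : c ∈ L x ∧ act ω x c := by
  have h1 := (first_iff _ _ _).1 h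
  have h2 := Finset.mem_filter.1 h1.1
  exact ⟨(Finset.mem_filter.1 h2.1).1, h2.2⟩

theorem tsC {V : Type} [Fintype V] {s n b : ℕ} [NeZero b] (G : SimpleGraph V)
    (C : Fin s → V → Finset V) (hirr : ∀ c v, v ∉ C c v)
    (Y : Finset V) (L : V → Finset (Fin s)) (l : ℕ) (c : Fin s) (v : V) (T : Finset V)
    (gr : V → V) (m g : ℕ) (hg : 1 ≤ g) (hT : IsTest G C v T gr m g)
    (hl : ∀ x ∈ T, x ∈ Y → (L x).card = l) (hn : ∀ x ∈ T, x ∈ Y → ∀ d ∈ L x, nn C Y L d x ≤ n)
    (lam : ℝ) (hlam : 0 < lam) :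
    pr (fun ω : Ix V s n → Cn s b =>
      (3 * ((m : ℝ) / b) + 2 * lam) * Real.sqrt (8 * g * lam) + g * (m * Real.exp (-lam)) <
      |((T.filter (fun x => x ∈ Y ∧ nw C Y L ω x = some c)).card : ℝ) -
        cc b n l * XT T Y L c|) ≤ (2 + g) * Real.exp (-lam) := by
  obtain ⟨f, hf⟩ : ∃ f : V → (Ix V s n → Cn s b) → ℝ, f = fun u ω =>
      ∑ x ∈ T.filter (fun x => gr x = u),
        if (x ∈ Y ∧ nw C Y L ω x = some c) then (1 : ℝ) else 0 := ⟨_, rfl⟩
  obtain ⟨S, hS⟩ : ∃ S : V → Finset (Ix V s n), S = fun u =>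
      ((T.filter (fun x => gr x = u)).biUnion (dp C)) ×ˢ
        (univ : Finset (Option (Fin s × Fin (n + 1)))) := ⟨_, rfl⟩
  have hloc : ∀ u ∈ T.image gr, Loc (f u) (S u) := by
    intro u _ ω ω' h
    rw [hf]
    show (∑ x ∈ T.filter (fun x => gr x = u),
        if (x ∈ Y ∧ nw C Y L ω x = some c) then (1 : ℝ) else 0) =
      ∑ x ∈ T.filter (fun x => gr x = u),
        if (x ∈ Y ∧ nw C Y L ω' x = some c) then (1 : ℝ) else 0
    refine Finset.sum_congr rfl fun x hx => ?_
    have h1 : nw C Y L ω x = nw C Y L ω' x := loc_nw C Y L x ω ω' (fun i hi => h i (by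
      rw [hS]
      rw [Finset.mem_product] at hi ⊢
      exact ⟨Finset.mem_biUnion.2 ⟨x, hx, hi.1⟩, hi.2⟩))
    rw [h1]
  have hdis : ∀ u ∈ T.image gr, ∀ u' ∈ T.image gr, u ≠ u' → Disjoint (S u) (S u') := by
    intro u _ u' _ hne
    rw [Finset.disjoint_left]
    intro i hi hi'
    rw [hS] at hi hi'
    obtain ⟨x, hx, hx2⟩ := Finset.mem_biUnion.1 (Finset.mem_product.1 hi).1
    obtain ⟨y, hy, hy2⟩ := Finset.mem_biUnion.1 (Finset.mem_product.1 hi').1
    rw [Finset.mem_filter] at hx hy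
    have h3 := hT.dis x hx.1 y hy.1 (by rw [hx.2, hy.2]; exact hne)
    exact (Finset.disjoint_left.1 h3) hx2 hy2
  have hfc : ∀ u ω, f u ω = (((T.filter (fun x => gr x = u)).filter
      (fun x => x ∈ Y ∧ nw C Y L ω x = some c)).card : ℝ) := by
    intro u ω
    rw [hf]
    show (∑ x ∈ T.filter (fun x => gr x = u),
        if (x ∈ Y ∧ nw C Y L ω x = some c) then (1 : ℝ) else 0) = _
    rw [Finset.sum_boole]
  have hfm : ∀ u ∈ T.image gr, ∀ ω, |f u ω| ≤ (m : ℝ) := by
    intro u _ ω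
    rw [hfc, abs_of_nonneg (Nat.cast_nonneg _)]
    exact_mod_cast (Finset.card_filter_le _ _).trans (hT.gsz u)
  have hc0 : 0 < 3 * ((m : ℝ) / b) + 2 * lam := by positivity
  have hp : ∀ u ∈ T.image gr, pr (fun ω => 3 * ((m : ℝ) / b) + 2 * lam < |f u ω|) ≤
      Real.exp (-lam) := by
    intro u _
    have h1 := ch_up (T.filter (fun x => gr x = u))
      (fun x (ω : Ix V s n → Cn s b) => act ω x c) (fun x => {(x, some (c, 0))})
      (fun x _ ω ω' h => by
        have h2 := h (x, some (c, 0)) (Finset.mem_singleton_self _)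
        show (((ω (x, some (c, 0))).1 : ℕ) = 0) = (((ω' (x, some (c, 0))).1 : ℕ) = 0)
        rw [h2])
      (fun x _ y _ hxy => by
        rw [Finset.disjoint_singleton]
        intro h2
        exact hxy (Prod.mk.inj h2).1)
      (fun _ => 1 / (b : ℝ)) (fun x _ => (TsC_pri _ _ _).le.trans (act_pr x c).le) ((m : ℝ) / b) lam
      (by
        rw [Finset.sum_const, nsmul_eq_mul, mul_one_div]
        have h3 : ((T.filter (fun x => gr x = u)).card : ℝ) ≤ m := by
          exact_mod_cast hT.gsz u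
        exact div_le_div_of_nonneg_right h3 (Nat.cast_nonneg _)) hlam.le
    refine (pr_mono fun ω h => ?_).trans ((TsC_pri _ _ _).le.trans h1)
    rw [hfc, abs_of_nonneg (Nat.cast_nonneg _)] at h
    refine h.le.trans ?_
    have h4 : ((T.filter (fun x => gr x = u)).filter
        (fun x => x ∈ Y ∧ nw C Y L ω x = some c)).card ≤
        ((T.filter (fun x => gr x = u)).filter (fun x => act ω x c)).card := by
      apply Finset.card_le_card
      intro x hx
      rw [Finset.mem_filter] at hx ⊢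
      exact ⟨hx.1, (TsC_nw C Y L ω x c hx.2.2).2⟩
    exact_mod_cast h4
  have hex : ∀ u, ex (f u) = ∑ x ∈ T.filter (fun x => gr x = u),
      (if x ∈ Y ∧ c ∈ L x then cc b n l else 0) := by
    intro u
    rw [hf]
    show ex (fun ω => ∑ x ∈ T.filter (fun x => gr x = u),
        if (x ∈ Y ∧ nw C Y L ω x = some c) then (1 : ℝ) else 0) = _
    rw [ex_sum (T.filter (fun x => gr x = u)) (fun x (ω : Ix V s n → Cn s b) =>
      if (x ∈ Y ∧ nw C Y L ω x = some c) then (1 : ℝ) else 0)]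
    refine Finset.sum_congr rfl fun x hx => ?_
    have h0 : ex (fun ω : Ix V s n → Cn s b =>
        if (x ∈ Y ∧ nw C Y L ω x = some c) then (1 : ℝ) else 0) =
        pr (fun ω : Ix V s n → Cn s b => x ∈ Y ∧ nw C Y L ω x = some c) := by
      rw [ex_ind]
      congr 1
      funext ω
      by_cases h : x ∈ Y ∧ nw C Y L ω x = some c
      · rw [if_pos h, if_pos h]
      · rw [if_neg h, if_neg h]
    rw [h0]
    have hxT := (Finset.mem_filter.1 hx).1
    by_cases h : x ∈ Y ∧ c ∈ L x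
    · rw [if_pos h, ← nw_pr C hirr Y L x l (hl x hxT h.1) (hn x hxT h.1) c h.2]
      congr 1
      funext ω
      exact propext ⟨fun h2 => h2.2, fun h2 => ⟨h.1, h2⟩⟩
    · rw [if_neg h]
      have h2 : (fun ω : Ix V s n → Cn s b => x ∈ Y ∧ nw C Y L ω x = some c) =
          fun _ => False := by
        funext ω
        refine propext ⟨fun h3 => h ⟨h3.1, (TsC_nw C Y L ω x c h3.2).1⟩, fun h3 => h3.elim⟩
      rw [h2]
      unfold pr
      simp
  have hmaps : ∀ x ∈ T, gr x ∈ T.image gr := fun x hx => Finset.mem_image_of_mem gr hx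
  have hexs : ∀ i : Fintype (Ix V s n → Cn s b),
      ∑ u ∈ T.image gr, @ex _ i (f u) = cc b n l * XT T Y L c := by
    intro i
    rw [Finset.sum_congr rfl fun u _ => (TsC_exi i _ (f u)).trans (hex u),
      Finset.sum_fiberwise_of_maps_to hmaps (fun x => if x ∈ Y ∧ c ∈ L x then cc b n l else 0),
      ← Finset.sum_filter, Finset.sum_const, nsmul_eq_mul, mul_comm]
    rfl
  have hfs : ∀ ω, ∑ u ∈ T.image gr, f u ω =
      ((T.filter (fun x => x ∈ Y ∧ nw C Y L ω x = some c)).card : ℝ) := by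
    intro ω
    rw [hf]
    show (∑ u ∈ T.image gr, ∑ x ∈ T.filter (fun x => gr x = u),
        if (x ∈ Y ∧ nw C Y L ω x = some c) then (1 : ℝ) else 0) = _
    rw [Finset.sum_fiberwise_of_maps_to hmaps
      (fun x => if (x ∈ Y ∧ nw C Y L ω x = some c) then (1 : ℝ) else 0), Finset.sum_boole]
  have hgpos : (0 : ℝ) < g := by exact_mod_cast hg
  have hsq : 0 < Real.sqrt (8 * g * lam) := Real.sqrt_pos.2 (by positivity)
  have hfin := hoefT (T.image gr) f S hloc hdis g hg hT.num (3 * ((m : ℝ) / b) + 2 * lam) m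
    (Real.exp (-lam)) hc0.le (Nat.cast_nonneg _) hfm (Real.exp_pos _).le
    (fun u hu => (TsC_pri _ _ _).le.trans (hp u hu)) ((3 * ((m : ℝ) / b) + 2 * lam) * Real.sqrt (8 * g * lam)) (mul_pos hc0 hsq)
  have he : ((3 * ((m : ℝ) / b) + 2 * lam) * Real.sqrt (8 * g * lam)) ^ 2 /
      (8 * g * (3 * ((m : ℝ) / b) + 2 * lam) ^ 2) = lam := by
    rw [mul_pow, Real.sq_sqrt (by positivity)]
    rw [div_eq_iff (by positivity)]
    ring
  rw [he, hexs] at hfin
  have h5 : 2 * Real.exp (-lam) + g * Real.exp (-lam) = (2 + g) * Real.exp (-lam) := by ring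
  rw [h5] at hfin
  have h6 : (fun ω : Ix V s n → Cn s b =>
      (3 * ((m : ℝ) / b) + 2 * lam) * Real.sqrt (8 * g * lam) + g * (m * Real.exp (-lam)) <
      |((T.filter (fun x => x ∈ Y ∧ nw C Y L ω x = some c)).card : ℝ) -
        cc b n l * XT T Y L c|) = (fun ω : Ix V s n → Cn s b =>
      (3 * ((m : ℝ) / b) + 2 * lam) * Real.sqrt (8 * g * lam) + g * (m * Real.exp (-lam)) <
      |∑ u ∈ T.image gr, f u ω - cc b n l * XT T Y L c|) := by
    funext ω
    rw [hfs ω]
  rw [h6]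
  exact (TsC_pri _ _ _).le.trans hfin

end Pool.Agent.H65.GI
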