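/-
ROW Fir. The last round: everything gets coloured.
PROOF. As `rnd` (same file structure, same bad events) with (B1) replaced by: `v ∈ Y` and `nw ω v = none`, probability `(1 - kap/b)^|L v| ≤ exp (-(kap/b) |L v|) ≤ exp (-(kap (l - K0)/b)) ≤ exp (-lam)` (`none_pr`, `Real.add_one_le_exp`, `hcol`), without (B2), (B3). Total `≤ (1 + (2 + gm) |Tt| + |Ff|) exp (-lam)`.
`lll_bl` gives `ω` with `nY C Y L ω = ∅`. Put `f1 = nf C Y L f ω`; `f1 v ≠ none` for all `v` (`v ∈ Y`: `nw ≠ none`; `v ∉ Y`: `co`). `f' v := (f1 v).get ..`. `Ok ... (nY) (nl) (nf)` by `det` with `l' = 0`, `n' = anything` (`nY = ∅`, all hypotheses vacuous) gives `fb`, `prop` for `f1`.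
The test statement: `#{x ∈ T : f' x = c} = CT T f1 c = CT T f c + #{x ∈ T ∩ Y : nw x = some c}` (`nf_CT`). `FT` by `nf_FT`.
-/
import Pool.Agent.H65.GI.Det
import Pool.Agent.H65.GI.TsC
import Pool.Agent.H65.GI.Lst
import Pool.Agent.H65.GI.Lll

set_option autoImplicit false

namespace Pool.Agent.H65.GI

open Finset Classical

private theorem Fir_pr {Ω : Type} (i1 i2 : Fintype Ω) (A : Ω → Prop) :
    @pr Ω i1 A = @pr Ω i2 A := by
  rw [Subsingleton.elim i1 i2]

private theorem Fir_nw {V : Type} [Fintype V] (G : SimpleGraph V) {s n b : ℕ}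
    (C : Fin s → V → Finset V) (n0 : ℕ) (hC : IsSys G C n0) (Y : Finset V)
    (L : V → Finset (Fin s)) (v x : V) (hx : x ∈ bl G v 9) (ω ω' : Ix V s n → Cn s b)
    (h : ∀ i ∈ (bl G v 12) ×ˢ (univ : Finset (Option (Fin s × Fin (n + 1)))), ω i = ω' i) :
    nw C Y L ω x = nw C Y L ω' x := by
  refine loc_nw C Y L x ω ω' fun i hi => h i ?_
  rw [mem_product] at hi ⊢
  refine ⟨?_, mem_univ _⟩
  have h1 := hi.1
  unfold dp at h1
  rw [mem_insert] at h1
  rcases h1 with h1 | h1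
  · rw [h1]
    exact bl_mono G v (by norm_num) hx
  · obtain ⟨c, -, hc⟩ := mem_biUnion.1 h1
    exact bl_bl G (k := 9) (l := 3) hx (hC.near c x hc)

private theorem Fir_act {V : Type} [Fintype V] (G : SimpleGraph V) {s n b : ℕ}
    (v x : V) (hx : x ∈ bl G v 9) (ω ω' : Ix V s n → Cn s b)
    (h : ∀ i ∈ (bl G v 12) ×ˢ (univ : Finset (Option (Fin s × Fin (n + 1)))), ω i = ω' i)
    (c : Fin s) : act ω x c ↔ act ω' x c := by
  unfold act
  rw [h (x, some (c, 0)) (mem_product.2 ⟨bl_mono G v (by norm_num) hx, mem_univ _⟩)]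

private theorem Fir_none {V : Type} [Fintype V] {s n b : ℕ} [NeZero b] (hb : 2 ≤ b)
    (C : Fin s → V → Finset V) (hirr : ∀ c v, v ∉ C c v) (Y : Finset V)
    (L : V → Finset (Fin s)) (v : V) (hn : ∀ c ∈ L v, nn C Y L c v ≤ n) (K0 l : ℕ) (lam : ℝ)
    (hl : l ≤ (L v).card + K0) (hcol : lam ≤ kap b n * (l - K0 : ℕ) / b) :
    pr (fun ω : Ix V s n → Cn s b => nw C Y L ω v = none) ≤ Real.exp (-lam) := by
  rw [none_pr C hirr Y L v hn]
  have hb0 : (2 : ℝ) ≤ b := by exact_mod_cast hb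
  have hb1 : (0 : ℝ) < b := by linarith
  have hi : 1 / (b : ℝ) ≤ 1 := by
    rw [div_le_one hb1]
    linarith
  have hi0 : 0 ≤ 1 / (b : ℝ) := by positivity
  have hk0 : 0 ≤ kap b n := by
    unfold kap
    exact pow_nonneg (by linarith) _
  have hk1 : kap b n ≤ 1 := by
    unfold kap
    exact pow_le_one₀ (by linarith) (by linarith)
  have hx0 : 0 ≤ kap b n / b := div_nonneg hk0 hb1.le
  have hx1 : kap b n / b ≤ 1 := by
    rw [div_le_one hb1]
    linarith
  have h1 : 1 - kap b n / b ≤ Real.exp (-(kap b n / b)) := by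
    have := Real.add_one_le_exp (-(kap b n / b))
    linarith
  have h2 : (1 - kap b n / b) ^ (L v).card ≤ Real.exp (-(kap b n / b)) ^ (L v).card :=
    pow_le_pow_left₀ (by linarith) h1 _
  refine h2.trans ?_
  rw [← Real.exp_nat_mul]
  apply Real.exp_le_exp.2
  have h3 : ((l - K0 : ℕ) : ℝ) ≤ ((L v).card : ℝ) := by
    exact_mod_cast (by omega : l - K0 ≤ (L v).card)
  have h4 : kap b n * (l - K0 : ℕ) / b = (l - K0 : ℕ) * (kap b n / b) := by ring
  have h5 : ((l - K0 : ℕ) : ℝ) * (kap b n / b) ≤ ((L v).card : ℝ) * (kap b n / b) :=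
    mul_le_mul_of_nonneg_right h3 hx0
  rw [h4] at hcol
  linarith

theorem fir {V : Type} [Fintype V] (G : SimpleGraph V) (Δ : ℕ) (hG : Reg G Δ) {s n b : ℕ}
    [NeZero b] (hb : 2 ≤ b)
    (C : Fin s → V → Finset V) (n0 : ℕ) (hC : IsSys G C n0)
    (Fb : V → Finset (Fin s)) (Z : Finset V) (K0 l : ℕ)
    (Y : Finset V) (L : V → Finset (Fin s)) (f : V → Option (Fin s))
    (hok : Ok C Fb Z K0 l n Y L f)
    {Tt Ff : Type} [Fintype Tt] [Fintype Ff] (T : Tt → V → Finset V) (gr : Tt → V → V → V)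
    (col : Tt → Fin s) (m gm : ℕ) (g : Tt → ℕ) (hg : ∀ τ, 1 ≤ g τ ∧ g τ ≤ gm)
    (hT : ∀ τ v, IsTest G C v (T τ v) (gr τ v) m (g τ)) (hTZ : ∀ τ v, ∀ x ∈ T τ v, x ∉ Z)
    (F : Ff → V → Finset (V × Fin s)) (M : ℕ)
    (hF : ∀ φ v, (F φ v).card ≤ M ∧ ∀ p ∈ F φ v, p.1 ∈ bl G v 9)
    (lam : ℝ) (hlam : 0 < lam)
    (hcol : lam ≤ kap b n * (l - K0 : ℕ) / b)
    (hLLL : 4 * ((1 + (2 + gm) * Fintype.card Tt + Fintype.card Ff) *
      Real.exp (-lam)) * ((Δ : ℝ) + 1) ^ (2 * 12) ≤ 1) :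
    ∃ f' : V → Fin s, (∀ v, f' v ∉ Fb v) ∧ (∀ v, ∀ z ∈ C (f' v) v, f' z ≠ f' v) ∧
      (∀ τ v, |(((T τ v).filter (fun x => f' x = col τ)).card : ℝ) - CT (T τ v) f (col τ) -
        cc b n l * XT (T τ v) Y L (col τ)| ≤
        (3 * ((m : ℝ) / b) + 2 * lam) * Real.sqrt (8 * g τ * lam) + g τ * (m * Real.exp (-lam))) ∧
      ∀ φ v, (((F φ v).filter (fun p => f' p.1 = p.2)).card : ℝ) ≤
        FT (F φ v) f + (3 * ((M : ℝ) / b) + 2 * lam) := by
  have hirr : ∀ c v, v ∉ C c v := hC.irr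
  obtain ⟨E, hE⟩ : ∃ E : V → (Ix V s n → Cn s b) → Prop, ∀ v ω, E v ω ↔
      ((v ∈ Y ∧ nw C Y L ω v = none) ∨
      ((∃ τ ∈ (univ : Finset Tt), (3 * ((m : ℝ) / b) + 2 * lam) * Real.sqrt (8 * g τ * lam) +
        g τ * (m * Real.exp (-lam)) <
        |(((T τ v).filter (fun x => x ∈ Y ∧ nw C Y L ω x = some (col τ))).card : ℝ) -
          cc b n l * XT (T τ v) Y L (col τ)|) ∨
      ∃ φ ∈ (univ : Finset Ff), 3 * ((M : ℝ) / b) + 2 * lam ≤
        (((F φ v).filter (fun p => act ω p.1 p.2)).card : ℝ))) := ⟨_, fun _ _ => Iff.rfl⟩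
  have hloc : ∀ v, Loc (E v) ((bl G v 12) ×ˢ (univ : Finset (Option (Fin s × Fin (n + 1))))) := by
    intro v ω ω' h
    have h1 : nw C Y L ω v = nw C Y L ω' v := Fir_nw G C n0 hC Y L v v (bl_self G v 9) ω ω' h
    have h2 : ∀ τ, (T τ v).filter (fun x => x ∈ Y ∧ nw C Y L ω x = some (col τ)) =
        (T τ v).filter (fun x => x ∈ Y ∧ nw C Y L ω' x = some (col τ)) := by
      intro τ
      apply filter_congr
      intro x hx
      rw [Fir_nw G C n0 hC Y L v x ((hT τ v).near hx) ω ω' h]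
    have h3 : ∀ φ, (F φ v).filter (fun p => act ω p.1 p.2) =
        (F φ v).filter (fun p => act ω' p.1 p.2) := by
      intro φ
      apply filter_congr
      intro p hp
      exact Fir_act G v p.1 ((hF φ v).2 p hp) ω ω' h p.2
    apply propext
    rw [hE, hE]
    simp only [h1, h2, h3]
  have hq : ∀ v, pr (E v) ≤
      (1 + (2 + gm) * Fintype.card Tt + Fintype.card Ff) * Real.exp (-lam) := by
    intro v
    have hexp : (0 : ℝ) < Real.exp (-lam) := Real.exp_pos _
    have e0 := pr_mono (fun ω h => (hE v ω).1 h)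
    have e1 : pr (fun ω : Ix V s n → Cn s b => v ∈ Y ∧ nw C Y L ω v = none) ≤
        Real.exp (-lam) := by
      by_cases hv : v ∈ Y
      · refine (pr_mono (fun ω h => h.2)).trans ?_
        exact Fir_none hb C hirr Y L v (fun c hc => hok.deg v hv c hc) K0 l lam (hok.ge v hv)
          hcol
      · refine (pr_mono (B := fun _ => False) (fun ω h => hv h.1)).trans ?_
        have h0 : pr (fun _ : Ix V s n → Cn s b => False) = 0 := by
          unfold pr
          simp
        rw [h0]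
        exact hexp.le
    have e2 := pr_ex (Ω := Ix V s n → Cn s b) (univ : Finset Tt)
      (fun τ ω => (3 * ((m : ℝ) / b) + 2 * lam) * Real.sqrt (8 * g τ * lam) +
        g τ * (m * Real.exp (-lam)) <
        |(((T τ v).filter (fun x => x ∈ Y ∧ nw C Y L ω x = some (col τ))).card : ℝ) -
          cc b n l * XT (T τ v) Y L (col τ)|) ((2 + gm) * Real.exp (-lam))
      (by
        intro τ _
        refine (tsC G C hirr Y L l (col τ) v (T τ v) (gr τ v) m (g τ) (hg τ).1 (hT τ v)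
          (fun x hx hxY => hok.eq x hxY (hTZ τ v x hx))
          (fun x _ hxY d hd => hok.deg x hxY d hd) lam hlam).trans ?_
        have : (g τ : ℝ) ≤ gm := by exact_mod_cast (hg τ).2
        exact mul_le_mul_of_nonneg_right (by linarith) hexp.le)
    have e3 := pr_ex (Ω := Ix V s n → Cn s b) (univ : Finset Ff)
      (fun φ ω => 3 * ((M : ℝ) / b) + 2 * lam ≤
        (((F φ v).filter (fun p => act ω p.1 p.2)).card : ℝ)) (Real.exp (-lam))
      (fun φ _ => frg (F φ v) M (hF φ v).1 lam hlam.le)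
    rw [card_univ] at e2 e3
    have e4 := pr_or (fun ω : Ix V s n → Cn s b => v ∈ Y ∧ nw C Y L ω v = none)
      (fun ω => (∃ τ ∈ (univ : Finset Tt), (3 * ((m : ℝ) / b) + 2 * lam) *
        Real.sqrt (8 * g τ * lam) + g τ * (m * Real.exp (-lam)) <
        |(((T τ v).filter (fun x => x ∈ Y ∧ nw C Y L ω x = some (col τ))).card : ℝ) -
          cc b n l * XT (T τ v) Y L (col τ)|) ∨
      ∃ φ ∈ (univ : Finset Ff), 3 * ((M : ℝ) / b) + 2 * lam ≤
        (((F φ v).filter (fun p => act ω p.1 p.2)).card : ℝ))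
    have e5 := pr_or (fun ω : Ix V s n → Cn s b =>
      ∃ τ ∈ (univ : Finset Tt), (3 * ((m : ℝ) / b) + 2 * lam) *
        Real.sqrt (8 * g τ * lam) + g τ * (m * Real.exp (-lam)) <
        |(((T τ v).filter (fun x => x ∈ Y ∧ nw C Y L ω x = some (col τ))).card : ℝ) -
          cc b n l * XT (T τ v) Y L (col τ)|)
      (fun ω => ∃ φ ∈ (univ : Finset Ff), 3 * ((M : ℝ) / b) + 2 * lam ≤
        (((F φ v).filter (fun p => act ω p.1 p.2)).card : ℝ))
    have e6 : (1 + (2 + gm) * Fintype.card Tt + Fintype.card Ff) * Real.exp (-lam) =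
        Real.exp (-lam) + (Fintype.card Tt * ((2 + gm) * Real.exp (-lam)) +
          Fintype.card Ff * Real.exp (-lam)) := by ring
    rw [e6]
    exact e0.trans (e4.trans (add_le_add e1 (e5.trans (add_le_add e2 e3))))
  obtain ⟨ω, hω⟩ := lll_bl (V := V) (A := Option (Fin s × Fin (n + 1))) (κ := Cn s b) G Δ hG 12
    E hloc ((1 + (2 + gm) * Fintype.card Tt + Fintype.card Ff) * Real.exp (-lam)) (by positivity)
    (fun v => (le_of_eq (Fir_pr _ _ _)).trans (hq v)) hLLL
  have hωE := fun v h => hω v ((hE v ω).2 h)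
  have hnone : ∀ v ∈ Y, nw C Y L ω v ≠ none := fun v hv h => hωE v (Or.inl ⟨hv, h⟩)
  have hnY : nY C Y L ω = ∅ := by
    rw [eq_empty_iff_forall_notMem]
    intro v hv
    unfold nY at hv
    rw [mem_filter] at hv
    exact hnone v hv.1 hv.2
  have hnew := det G C n0 hC Fb Z K0 l n Y L f hok 0 0 ω
    (by rw [hnY]; intro v hv; exact absurd hv (notMem_empty v))
    (by rw [hnY]; intro v hv; exact absurd hv (notMem_empty v))
  have hex : ∀ v, ∃ c, nf C Y L f ω v = some c := by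
    intro v
    have h1 : nf C Y L f ω v ≠ none := by
      apply hnew.co
      rw [hnY]
      exact notMem_empty v
    exact Option.ne_none_iff_exists'.1 h1
  choose f' hf' using hex
  refine ⟨f', fun v => hnew.fb v (f' v) (hf' v), ?_, ?_, ?_⟩
  · intro v z hz h
    refine hnew.prop v (f' v) (hf' v) z hz ?_
    rw [hf' z, h]
  · intro τ v
    have h1 : ((T τ v).filter (fun x => f' x = col τ)).card =
        CT (T τ v) (nf C Y L f ω) (col τ) := by
      unfold CT
      congr 1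
      ext x
      rw [mem_filter, mem_filter, hf' x, Option.some_inj]
    rw [h1, nf_CT C Y L f hok.un ω (T τ v) (col τ)]
    have h2 : ¬ ((3 * ((m : ℝ) / b) + 2 * lam) * Real.sqrt (8 * g τ * lam) +
        g τ * (m * Real.exp (-lam)) <
        |(((T τ v).filter (fun x => x ∈ Y ∧ nw C Y L ω x = some (col τ))).card : ℝ) -
          cc b n l * XT (T τ v) Y L (col τ)|) :=
      fun h => hωE v (Or.inr (Or.inl ⟨τ, mem_univ _, h⟩))
    rw [not_lt] at h2
    refine le_trans (le_of_eq ?_) h2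
    push_cast
    congr 1
    ring
  · intro φ v
    have h1 : ((F φ v).filter (fun p => f' p.1 = p.2)).card =
        FT (F φ v) (nf C Y L f ω) := by
      unfold FT
      congr 1
      ext p
      rw [mem_filter, mem_filter, hf' p.1, Option.some_inj]
    have h2 : ¬ (3 * ((M : ℝ) / b) + 2 * lam ≤
        (((F φ v).filter (fun p => act ω p.1 p.2)).card : ℝ)) :=
      fun h => hωE v (Or.inr (Or.inr ⟨φ, mem_univ _, h⟩))
    rw [not_le] at h2
    have h3 : (FT (F φ v) (nf C Y L f ω) : ℝ) ≤ FT (F φ v) f +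
        ((F φ v).filter (fun p => act ω p.1 p.2)).card := by
      exact_mod_cast nf_FT C Y L f ω (F φ v)
    rw [h1]
    linarith

end Pool.Agent.H65.GI
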