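/-
ROW Rnd. One round: the local lemma gives a good outcome.
PROOF. Bad events at `v` (a function of `ω : Ix V s n → Cn s b`, `Ix V s n = V × A`, `A = Option (Fin s × Fin (n+1))`): `E v ω` := (B1) `v ∈ Y` and `|Sv ω v| < kap |L v| - sqrt (8 l lam)`, or (B2) `∃ g, nn C Y L g v ≤ n ∧ n qp + np (..) < nn C (nY ω) (nl ω) g v`, or (B3) `∃ τ,` the event of `tsX` for `T τ v`,
or (B4) `∃ τ,` the event of `tsC`, or (B5) `∃ φ, 3 M/b + 2 lam ≤ #{p ∈ F φ v : act}`. Probabilities: `lst`, `dgc` (`s` choices of `g`), `tsX`, `tsC` (`Fintype.card Tt` each; `g τ ≤ gm`), `frg`: total `≤ (2 + 3 np s + (4 + gm) |Tt| + |Ff|) exp (-lam) =: q` (`pr_or`, `pr_ex`).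
Locality in `bl G v 12 ×ˢ univ`: `dp C x ⊆ bl G x 3` (`IsSys.near`); B1: `Sv ω v` depends on the coins in `dp C v`; B2: `z ∈ C g v ⊆ bl v 3`, status of `z` depends on `dp C z ⊆ bl v 6` (`loc_nw`, `loc_nl`; `z ∈ nY ω ↔ z ∈ Y ∧ nw ω z = none`); B3, B4: `x ∈ T τ v ⊆ bl v 9`, `dp C x ⊆ bl v 12` (`bl_bl`, `bl_mono`); B5: `bl v 9`.
`lll_bl` with `r = 12` and `hLLL` gives `ω`. `det`: `hS`: for `v ∈ nY ⊆ Y`: `|Sv ω v| ≥ kap |L v| - sqrt (..) ≥ kap (l - K0) - sqrt (..) ≥ l'` (`|L v| ≥ l - K0`). `hD`: `c ∈ nl v ⊆ L v`, `v ∈ Y`: `nn C Y L c v ≤ n` (`deg`), so not B2 gives `nn ≤ n'` (as reals, `hn'`). The test statements are not B3, not B4 (with `nf_CT`), not B5 (with `nf_FT`).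
In `tsX`/`tsC`: `hl`: `x ∈ T ∩ Y`, `x ∉ Z`, so `|L x| = l` (`Ok.eq`).
-/
import Pool.Agent.H65.GI.Dgc
import Pool.Agent.H65.GI.Det
import Pool.Agent.H65.GI.TsC
import Pool.Agent.H65.GI.Lll

set_option autoImplicit false

namespace Pool.Agent.H65.GI

open Finset Classical

theorem loc_dp {V : Type} [Fintype V] (G : SimpleGraph V) {s : ℕ} (C : Fin s → V → Finset V)
    (n0 : ℕ) (hC : IsSys G C n0) (x : V) : dp C x ⊆ bl G x 3 := by
  intro y hy
  unfold dp at hy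
  rw [mem_insert] at hy
  rcases hy with h1 | h1
  · rw [h1]
    exact bl_self G x 3
  · obtain ⟨c, -, hc⟩ := mem_biUnion.1 h1
    exact hC.near c x hc

private theorem Rnd_pri {Ω : Type} (i1 i2 : Fintype Ω) (A : Ω → Prop) :
    @pr Ω i1 A = @pr Ω i2 A := by
  rw [Subsingleton.elim i1 i2]

private theorem Rnd_loc {V : Type} [Fintype V] (G : SimpleGraph V) {s n b : ℕ}
    (C : Fin s → V → Finset V) (n0 : ℕ) (hC : IsSys G C n0)
    (v x : V) (hx : x ∈ bl G v 9) (ω ω' : Ix V s n → Cn s b)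
    (h : ∀ i ∈ (bl G v 12) ×ˢ (univ : Finset (Option (Fin s × Fin (n + 1)))), ω i = ω' i) :
    ∀ i ∈ (dp C x) ×ˢ (univ : Finset (Option (Fin s × Fin (n + 1)))), ω i = ω' i := by
  intro i hi
  apply h
  rw [mem_product] at hi ⊢
  exact ⟨bl_bl G (k := 9) (l := 3) hx (loc_dp G C n0 hC x hi.1), mem_univ _⟩

private theorem Rnd_act {V : Type} [Fintype V] (G : SimpleGraph V) {s n b : ℕ}
    (v x : V) (hx : x ∈ bl G v 9) (ω ω' : Ix V s n → Cn s b)
    (h : ∀ i ∈ (bl G v 12) ×ˢ (univ : Finset (Option (Fin s × Fin (n + 1)))), ω i = ω' i)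
    (c : Fin s) : act ω x c ↔ act ω' x c := by
  unfold act
  rw [h (x, some (c, 0)) (mem_product.2 ⟨bl_mono G v (by norm_num) hx, mem_univ _⟩)]

private theorem Rnd_zero {Ω : Type} [Fintype Ω] (A : Ω → Prop) (h : ∀ ω, ¬ A ω) (p : ℝ)
    (hp : 0 ≤ p) : pr A ≤ p := by
  refine (pr_mono (B := fun _ => False) (fun ω h1 => h ω h1)).trans ?_
  have h0 : pr (fun _ : Ω => False) = 0 := by
    unfold pr
    simp
  rw [h0]
  exact hp

theorem rnd {V : Type} [Fintype V] (G : SimpleGraph V) (Δ : ℕ) (hG : Reg G Δ) {s n b : ℕ}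
    [NeZero b] (hb : 2 ≤ b)
    (C : Fin s → V → Finset V) (n0 : ℕ) (hn0 : 1 ≤ n0) (hC : IsSys G C n0) (np h0 : ℕ)
    (hP : Parts G C np h0) (Fb : V → Finset (Fin s)) (Z : Finset V) (K0 l : ℕ) (hl1 : 1 ≤ l)
    (Y : Finset V) (L : V → Finset (Fin s)) (f : V → Option (Fin s))
    (hok : Ok C Fb Z K0 l n Y L f)
    {Tt Ff : Type} [Fintype Tt] [Fintype Ff] (T : Tt → V → Finset V) (gr : Tt → V → V → V)
    (col : Tt → Fin s) (m gm : ℕ) (g : Tt → ℕ) (hg : ∀ τ, 1 ≤ g τ ∧ g τ ≤ gm)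
    (hT : ∀ τ v, IsTest G C v (T τ v) (gr τ v) m (g τ)) (hTZ : ∀ τ v, ∀ x ∈ T τ v, x ∉ Z)
    (F : Ff → V → Finset (V × Fin s)) (M : ℕ)
    (hF : ∀ φ v, (F φ v).card ≤ M ∧ ∀ p ∈ F φ v, p.1 ∈ bl G v 9)
    (l' n' k0 : ℕ) (lam : ℝ) (hlam : 0 < lam)
    (hl' : (l' : ℝ) ≤ kap b n * (l - K0 : ℕ) - Real.sqrt (8 * l * lam))
    (hk0 : 3 * ((s : ℝ) * h0 / b) + 2 * lam ≤ k0)
    (hM0 : Real.sqrt (8 * l * lam) < kap b n * (l - K0 - k0 - 2 : ℕ))
    (hn' : (n : ℝ) * qp b n l l' K0 h0 k0 lam + np * (Real.sqrt (8 * n0 * lam) + h0) ≤ n')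
    (hLLL : 4 * ((2 + 3 * np * s + (4 + gm) * Fintype.card Tt + Fintype.card Ff) *
      Real.exp (-lam)) * ((Δ : ℝ) + 1) ^ (2 * 12) ≤ 1) :
    ∃ (Y' : Finset V) (L' : V → Finset (Fin s)) (f' : V → Option (Fin s)),
      Ok C Fb ∅ K0 l' n' Y' L' f' ∧
      (∀ τ v, |(XT (T τ v) Y' L' (col τ) : ℝ) - qq b n l l' * XT (T τ v) Y L (col τ)| ≤
        m * Real.sqrt (8 * g τ * lam)) ∧
      (∀ τ v, |(CT (T τ v) f' (col τ) : ℝ) - CT (T τ v) f (col τ) -
        cc b n l * XT (T τ v) Y L (col τ)| ≤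
        (3 * ((m : ℝ) / b) + 2 * lam) * Real.sqrt (8 * g τ * lam) + g τ * (m * Real.exp (-lam))) ∧
      ∀ φ v, (FT (F φ v) f' : ℝ) ≤ FT (F φ v) f + (3 * ((M : ℝ) / b) + 2 * lam) := by
  have hirr : ∀ c v, v ∉ C c v := hC.irr
  obtain ⟨B1, hB1⟩ : ∃ B : V → (Ix V s n → Cn s b) → Prop, ∀ v ω, B v ω ↔
      (v ∈ Y ∧ ((Sv C Y L ω v).card : ℝ) < kap b n * (L v).card - Real.sqrt (8 * l * lam)) :=
    ⟨_, fun _ _ => Iff.rfl⟩
  obtain ⟨B2, hB2⟩ : ∃ B : V → Fin s → (Ix V s n → Cn s b) → Prop, ∀ v c ω, B v c ω ↔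
      (nn C Y L c v ≤ n ∧
        (n : ℝ) * qp b n l l' K0 h0 k0 lam + np * (Real.sqrt (8 * n0 * lam) + h0) <
        (nn C (nY C Y L ω) (nl C Y L l' ω) c v : ℝ)) := ⟨_, fun _ _ _ => Iff.rfl⟩
  obtain ⟨B3, hB3⟩ : ∃ B : V → Tt → (Ix V s n → Cn s b) → Prop, ∀ v τ ω, B v τ ω ↔
      ((m : ℝ) * Real.sqrt (8 * g τ * lam) <
      |(XT (T τ v) (nY C Y L ω) (nl C Y L l' ω) (col τ) : ℝ) -
        qq b n l l' * XT (T τ v) Y L (col τ)|) := ⟨_, fun _ _ _ => Iff.rfl⟩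
  obtain ⟨B4, hB4⟩ : ∃ B : V → Tt → (Ix V s n → Cn s b) → Prop, ∀ v τ ω, B v τ ω ↔
      ((3 * ((m : ℝ) / b) + 2 * lam) * Real.sqrt (8 * g τ * lam) +
        g τ * (m * Real.exp (-lam)) <
        |(((T τ v).filter (fun x => x ∈ Y ∧ nw C Y L ω x = some (col τ))).card : ℝ) -
          cc b n l * XT (T τ v) Y L (col τ)|) := ⟨_, fun _ _ _ => Iff.rfl⟩
  obtain ⟨B5, hB5⟩ : ∃ B : V → Ff → (Ix V s n → Cn s b) → Prop, ∀ v φ ω, B v φ ω ↔
      (3 * ((M : ℝ) / b) + 2 * lam ≤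
        (((F φ v).filter (fun p => act ω p.1 p.2)).card : ℝ)) := ⟨_, fun _ _ _ => Iff.rfl⟩
  obtain ⟨E, hE⟩ : ∃ E : V → (Ix V s n → Cn s b) → Prop, ∀ v ω, E v ω ↔
      (B1 v ω ∨ ((∃ c ∈ (univ : Finset (Fin s)), B2 v c ω) ∨
        ((∃ τ ∈ (univ : Finset Tt), B3 v τ ω) ∨ ((∃ τ ∈ (univ : Finset Tt), B4 v τ ω) ∨
          ∃ φ ∈ (univ : Finset Ff), B5 v φ ω)))) := ⟨_, fun _ _ => Iff.rfl⟩
  have hloc : ∀ v, Loc (E v) ((bl G v 12) ×ˢ (univ : Finset (Option (Fin s × Fin (n + 1))))) := by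
    intro v ω ω' h
    have hnw : ∀ x ∈ bl G v 9, nw C Y L ω x = nw C Y L ω' x := fun x hx =>
      loc_nw C Y L x ω ω' (Rnd_loc G C n0 hC v x hx ω ω' h)
    have hnl : ∀ x ∈ bl G v 9, nl C Y L l' ω x = nl C Y L l' ω' x := fun x hx =>
      loc_nl C Y L l' x ω ω' (Rnd_loc G C n0 hC v x hx ω ω' h)
    have hnY : ∀ x ∈ bl G v 9, (x ∈ nY C Y L ω ↔ x ∈ nY C Y L ω') := by
      intro x hx
      unfold nY
      rw [mem_filter, mem_filter, hnw x hx]
    have h1 : Sv C Y L ω v = Sv C Y L ω' v :=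
      (TsX_Sv C Y L v ω ω' (Rnd_loc G C n0 hC v v (bl_self G v 9) ω ω' h)).1
    have h2 : ∀ c, nn C (nY C Y L ω) (nl C Y L l' ω) c v =
        nn C (nY C Y L ω') (nl C Y L l' ω') c v := by
      intro c
      unfold nn
      congr 1
      apply filter_congr
      intro x hx
      have hx9 : x ∈ bl G v 9 := bl_mono G v (by norm_num) (hC.near c v hx)
      rw [hnY x hx9, hnl x hx9]
    have h3 : ∀ τ, XT (T τ v) (nY C Y L ω) (nl C Y L l' ω) (col τ) =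
        XT (T τ v) (nY C Y L ω') (nl C Y L l' ω') (col τ) := by
      intro τ
      unfold XT
      congr 1
      apply filter_congr
      intro x hx
      have hx9 : x ∈ bl G v 9 := (hT τ v).near hx
      rw [hnY x hx9, hnl x hx9]
    have h4 : ∀ τ, (T τ v).filter (fun x => x ∈ Y ∧ nw C Y L ω x = some (col τ)) =
        (T τ v).filter (fun x => x ∈ Y ∧ nw C Y L ω' x = some (col τ)) := by
      intro τ
      apply filter_congr
      intro x hx
      rw [hnw x ((hT τ v).near hx)]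
    have h5 : ∀ φ, (F φ v).filter (fun p => act ω p.1 p.2) =
        (F φ v).filter (fun p => act ω' p.1 p.2) := by
      intro φ
      apply filter_congr
      intro p hp
      exact Rnd_act G v p.1 ((hF φ v).2 p hp) ω ω' h p.2
    have g1 : B1 v ω ↔ B1 v ω' := by rw [hB1, hB1, h1]
    have g2 : ∀ c, B2 v c ω ↔ B2 v c ω' := fun c => by rw [hB2, hB2, h2 c]
    have g3 : ∀ τ, B3 v τ ω ↔ B3 v τ ω' := fun τ => by rw [hB3, hB3, h3 τ]
    have g4 : ∀ τ, B4 v τ ω ↔ B4 v τ ω' := fun τ => by rw [hB4, hB4, h4 τ]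
    have g5 : ∀ φ, B5 v φ ω ↔ B5 v φ ω' := fun φ => by rw [hB5, hB5, h5 φ]
    apply propext
    rw [hE, hE]
    simp only [g1, g2, g3, g4, g5]
  have hq : ∀ v, pr (E v) ≤
      (2 + 3 * np * s + (4 + gm) * Fintype.card Tt + Fintype.card Ff) * Real.exp (-lam) := by
    intro v
    have hexp : (0 : ℝ) < Real.exp (-lam) := Real.exp_pos _
    have e0 := pr_mono (fun ω h => (hE v ω).1 h)
    have e1 : pr (B1 v) ≤ 2 * Real.exp (-lam) := by
      by_cases hv : v ∈ Y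
      · refine (pr_mono (fun ω h => ((hB1 v ω).1 h).2)).trans ?_
        exact lst C Y L v l hl1 (hok.le v hv) (fun c hc => hok.deg v hv c hc) lam hlam
      · exact Rnd_zero _ (fun ω h => hv ((hB1 v ω).1 h).1) _ (by positivity)
    have e2 := pr_ex (Ω := Ix V s n → Cn s b) (univ : Finset (Fin s))
      (fun c ω => B2 v c ω) (3 * np * Real.exp (-lam))
      (by
        intro c _
        by_cases hc : nn C Y L c v ≤ n
        · refine (pr_mono (fun ω h => ((hB2 v c ω).1 h).2)).trans ?_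
          exact dgc hb G C n0 hn0 hC np h0 hP Y L l l' K0 k0 hl1
            (fun e he => ⟨hok.le e he, hok.ge e he⟩) (fun e he d hd => hok.deg e he d hd) c v hc
            lam hlam hk0 hM0
        · exact Rnd_zero _ (fun ω h => hc ((hB2 v c ω).1 h).1) _ (by positivity))
    have e3 := pr_ex (Ω := Ix V s n → Cn s b) (univ : Finset Tt)
      (fun τ ω => B3 v τ ω) (2 * Real.exp (-lam))
      (by
        intro τ _
        refine (pr_mono (fun ω h => (hB3 v τ ω).1 h)).trans ?_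
        exact tsX G C hirr Y L l l' (col τ) v (T τ v) (gr τ v) m (g τ) (hg τ).1 (hT τ v)
          (fun x hx hxY => hok.eq x hxY (hTZ τ v x hx))
          (fun x _ hxY d hd => hok.deg x hxY d hd) lam hlam)
    have e4 := pr_ex (Ω := Ix V s n → Cn s b) (univ : Finset Tt)
      (fun τ ω => B4 v τ ω) ((2 + gm) * Real.exp (-lam))
      (by
        intro τ _
        refine (pr_mono (fun ω h => (hB4 v τ ω).1 h)).trans ?_
        refine (tsC G C hirr Y L l (col τ) v (T τ v) (gr τ v) m (g τ) (hg τ).1 (hT τ v)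
          (fun x hx hxY => hok.eq x hxY (hTZ τ v x hx))
          (fun x _ hxY d hd => hok.deg x hxY d hd) lam hlam).trans ?_
        have : (g τ : ℝ) ≤ gm := by exact_mod_cast (hg τ).2
        exact mul_le_mul_of_nonneg_right (by linarith) hexp.le)
    have e5 := pr_ex (Ω := Ix V s n → Cn s b) (univ : Finset Ff)
      (fun φ ω => B5 v φ ω) (Real.exp (-lam))
      (fun φ _ => (pr_mono (fun ω h => (hB5 v φ ω).1 h)).trans
        (frg (F φ v) M (hF φ v).1 lam hlam.le))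
    rw [card_univ] at e2 e3 e4 e5
    rw [Fintype.card_fin] at e2
    have f1 := pr_or (B1 v) (fun ω => (∃ c ∈ (univ : Finset (Fin s)), B2 v c ω) ∨
        ((∃ τ ∈ (univ : Finset Tt), B3 v τ ω) ∨ ((∃ τ ∈ (univ : Finset Tt), B4 v τ ω) ∨
          ∃ φ ∈ (univ : Finset Ff), B5 v φ ω)))
    have f2 := pr_or (fun ω => ∃ c ∈ (univ : Finset (Fin s)), B2 v c ω)
      (fun ω => (∃ τ ∈ (univ : Finset Tt), B3 v τ ω) ∨ ((∃ τ ∈ (univ : Finset Tt), B4 v τ ω) ∨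
          ∃ φ ∈ (univ : Finset Ff), B5 v φ ω))
    have f3 := pr_or (fun ω => ∃ τ ∈ (univ : Finset Tt), B3 v τ ω)
      (fun ω => (∃ τ ∈ (univ : Finset Tt), B4 v τ ω) ∨ ∃ φ ∈ (univ : Finset Ff), B5 v φ ω)
    have f4 := pr_or (fun ω => ∃ τ ∈ (univ : Finset Tt), B4 v τ ω)
      (fun ω => ∃ φ ∈ (univ : Finset Ff), B5 v φ ω)
    have e6 : (2 + 3 * np * s + (4 + gm) * Fintype.card Tt + Fintype.card Ff) *
        Real.exp (-lam) = 2 * Real.exp (-lam) + (s * (3 * np * Real.exp (-lam)) +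
          (Fintype.card Tt * (2 * Real.exp (-lam)) +
          (Fintype.card Tt * ((2 + gm) * Real.exp (-lam)) +
          Fintype.card Ff * Real.exp (-lam)))) := by ring
    rw [e6]
    exact e0.trans (f1.trans (add_le_add e1 (f2.trans (add_le_add e2 (f3.trans
      (add_le_add e3 (f4.trans (add_le_add e4 e5))))))))
  obtain ⟨ω, hω⟩ := lll_bl (V := V) (A := Option (Fin s × Fin (n + 1))) (κ := Cn s b) G Δ hG 12
    E hloc ((2 + 3 * np * s + (4 + gm) * Fintype.card Tt + Fintype.card Ff) * Real.exp (-lam))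
    (by positivity) (fun v => (le_of_eq (Rnd_pri _ _ _)).trans (hq v)) hLLL
  have hωE := fun v h => hω v ((hE v ω).2 h)
  have hkap : 0 ≤ kap b n := by
    unfold kap
    have hb0 : (2 : ℝ) ≤ b := by exact_mod_cast hb
    have hi : 1 / (b : ℝ) ≤ 1 := by
      rw [div_le_one (by linarith)]
      linarith
    exact pow_nonneg (by linarith) _
  have hS : ∀ v ∈ nY C Y L ω, l' ≤ (Sv C Y L ω v).card := by
    intro v hv
    unfold nY at hv
    rw [mem_filter] at hv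
    have h1 : ¬ (((Sv C Y L ω v).card : ℝ) < kap b n * (L v).card - Real.sqrt (8 * l * lam)) :=
      fun h => hωE v (Or.inl ((hB1 v ω).2 ⟨hv.1, h⟩))
    rw [not_lt] at h1
    have h2 : ((l - K0 : ℕ) : ℝ) ≤ ((L v).card : ℝ) := by
      have := hok.ge v hv.1
      exact_mod_cast (by omega : l - K0 ≤ (L v).card)
    have h3 := mul_le_mul_of_nonneg_left h2 hkap
    have h4 : (l' : ℝ) ≤ ((Sv C Y L ω v).card : ℝ) := by linarith
    exact_mod_cast h4
  have hD : ∀ v ∈ nY C Y L ω, ∀ c ∈ nl C Y L l' ω v,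
      nn C (nY C Y L ω) (nl C Y L l' ω) c v ≤ n' := by
    intro v hv c hc
    unfold nY at hv
    rw [mem_filter] at hv
    have hcL : c ∈ L v := by
      have h1 := pre_sub _ _ _ hc
      unfold Sv at h1
      rw [mem_filter] at h1
      exact h1.1
    have h1 : ¬ ((n : ℝ) * qp b n l l' K0 h0 k0 lam + np * (Real.sqrt (8 * n0 * lam) + h0) <
        (nn C (nY C Y L ω) (nl C Y L l' ω) c v : ℝ)) := fun h => hωE v (Or.inr (Or.inl
      ⟨c, mem_univ _, (hB2 v c ω).2 ⟨hok.deg v hv.1 c hcL, h⟩⟩))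
    rw [not_lt] at h1
    exact_mod_cast h1.trans hn'
  refine ⟨nY C Y L ω, nl C Y L l' ω, nf C Y L f ω,
    det G C n0 hC Fb Z K0 l n Y L f hok l' n' ω hS hD, ?_, ?_, ?_⟩
  · intro τ v
    have h1 : ¬ ((m : ℝ) * Real.sqrt (8 * g τ * lam) <
      |(XT (T τ v) (nY C Y L ω) (nl C Y L l' ω) (col τ) : ℝ) -
        qq b n l l' * XT (T τ v) Y L (col τ)|) := fun h => hωE v (Or.inr (Or.inr (Or.inl
      ⟨τ, mem_univ _, (hB3 v τ ω).2 h⟩)))
    exact not_lt.1 h1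
  · intro τ v
    rw [nf_CT C Y L f hok.un ω (T τ v) (col τ)]
    have h2 : ¬ ((3 * ((m : ℝ) / b) + 2 * lam) * Real.sqrt (8 * g τ * lam) +
        g τ * (m * Real.exp (-lam)) <
        |(((T τ v).filter (fun x => x ∈ Y ∧ nw C Y L ω x = some (col τ))).card : ℝ) -
          cc b n l * XT (T τ v) Y L (col τ)|) :=
      fun h => hωE v (Or.inr (Or.inr (Or.inr (Or.inl ⟨τ, mem_univ _, (hB4 v τ ω).2 h⟩))))
    rw [not_lt] at h2
    refine le_trans (le_of_eq ?_) h2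
    push_cast
    congr 1
    ring
  · intro φ v
    have h2 : ¬ (3 * ((M : ℝ) / b) + 2 * lam ≤
        (((F φ v).filter (fun p => act ω p.1 p.2)).card : ℝ)) :=
      fun h => hωE v (Or.inr (Or.inr (Or.inr (Or.inr ⟨φ, mem_univ _, (hB5 v φ ω).2 h⟩))))
    rw [not_le] at h2
    have h3 : (FT (F φ v) (nf C Y L f ω) : ℝ) ≤ FT (F φ v) f +
        ((F φ v).filter (fun p => act ω p.1 p.2)).card := by
      exact_mod_cast nf_FT C Y L f ω (F φ v)
    linarith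

end Pool.Agent.H65.GI
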