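/-
ROW Itr. Iteration of the rounds.
PROOF. `x t = ∏ u ∈ range t, qq (n u) (n u) (l u) (l (u+1))`; `0 ≤ x t`, `x t ≤ l t / l 0` (`qq_le`, telescoping), `qq ≤ 1/5` by `h5`. `sg τ = sqrt (8 (g τ) lam)`, `Z = {v : Fb v ≠ ∅}`. Claim by induction on `t ≤ T0`: there are `Y, L, f` with
`Ok C Fb Z K0 (l t) (n t) Y L f`, `|XT (T τ v) Y L (col τ) - x t * |T τ v|| ≤ 2 m sg τ`, `|CT (T τ v) f (col τ) - (∑ u<t, cc (n u) (n u) (l u) x u) |T τ v|| ≤ t * Err τ`, `FT (F φ v) f ≤ t (3 M/bm + 2 lam)`.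
`t = 0`: `Y = univ`, `L v = univ \ Fb v`, `f = none`: `nn ≤ |C c v| ≤ n0 ≤ n 0`; `|L v| = s - |Fb v|`; `XT = |T|` because `Fb x = ∅` for `x ∈ T`; `CT = FT = 0`. Step: `rnd` with `b = n t`, `l' = l (t+1)`, `n' = n (t+1)` (`NeZero (n t)` from `2 ≤ n t`); its `Ok` with `∅` gives `Ok` with `Z` (field `eq` is weaker).
`|XT' - x(t+1)|T|| ≤ m sg + qq |XT - x t |T|| ≤ m sg + (1/5) 2 m sg ≤ 2 m sg`. `|CT' - ..| ≤ |CT' - CT - cc XT| + |CT - ..| + cc |XT - x t |T||`, `cc ≤ 1/(n t) ≤ 1/bm` (`cc_le`), `m/b ≤ m/bm`. Finally `fir` with `b = bf`, `n = n T0`, `l = l T0`.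
`pb = ∑ u<T0, cc (n u) (n u) (l u) x u + cc bf (n T0) (l T0) x T0`: every term is `≤ (1/l u)(l u/l 0) = 1/s`, all are `≥ 0`, and the term `u = 0` is `cc (n 0) (n 0) s` (`x 0 = 1`, `1 ≤ T0`).
`Err τ = (3 (m/bm) + 2 lam) sg + g τ (m exp (-lam)) + (1/bm) (2 m sg)`.
-/
import Pool.Agent.H65.GI.Rnd
import Pool.Agent.H65.GI.Fir

set_option autoImplicit false

namespace Pool.Agent.H65.GI

open Finset Classical

private theorem Itr_zero {V : Type} [Fintype V] (G : SimpleGraph V) {s : ℕ}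
    (C : Fin s → V → Finset V) (n0 : ℕ) (hC : IsSys G C n0) (Fb : V → Finset (Fin s)) (K0 : ℕ)
    (hFb : ∀ v, (Fb v).card ≤ K0) (n1 : ℕ) (hn : n0 ≤ n1) :
    Ok C Fb (univ.filter fun v => Fb v ≠ ∅) K0 s n1 univ (fun v => univ \ Fb v)
      (fun _ => none) := by
  have hcard : ∀ v, (univ \ Fb v).card + (Fb v).card = s := by
    intro v
    rw [Finset.card_sdiff_add_card, Finset.union_eq_left.2 (Finset.subset_univ _),
      Finset.card_univ, Fintype.card_fin]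
  refine ⟨?_, ?_, ?_, ?_, ?_, ?_, ?_, ?_, ?_, ?_⟩
  · intro v _
    rfl
  · intro v hv
    exact absurd (Finset.mem_univ v) hv
  · intro v c h
    cases h
  · intro v _ c hc
    exact (Finset.mem_sdiff.1 hc).2
  · intro v c h
    cases h
  · intro v _ c _ z _ h
    cases h
  · intro v _
    have := hcard v
    omega
  · intro v _
    have := hcard v
    have := hFb v
    omega
  · intro v _ hv
    have h1 : Fb v = ∅ := by
      by_contra h
      exact hv (Finset.mem_filter.2 ⟨Finset.mem_univ _, h⟩)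
    have := hcard v
    rw [h1, Finset.card_empty, ← h1] at this
    omega
  · intro v _ c _
    unfold nn
    exact (Finset.card_filter_le _ _).trans ((hC.card c v).trans hn)

private theorem Itr_X0 {V : Type} [Fintype V] {s : ℕ} (Fb : V → Finset (Fin s)) (T : Finset V)
    (hT : ∀ x ∈ T, Fb x = ∅) (c : Fin s) : XT T univ (fun v => univ \ Fb v) c = T.card := by
  unfold XT
  rw [Finset.filter_true_of_mem]
  intro x hx
  refine ⟨Finset.mem_univ x, ?_⟩
  rw [Finset.mem_sdiff, hT x hx]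
  exact ⟨Finset.mem_univ _, Finset.notMem_empty _⟩

private theorem Itr_C0 {V : Type} {s : ℕ} (T : Finset V) (c : Fin s) :
    CT T (fun _ => none) c = 0 := by
  unfold CT
  rw [Finset.card_eq_zero, Finset.filter_eq_empty_iff]
  intro x _ h
  cases h

private theorem Itr_F0 {V : Type} {s : ℕ} (F : Finset (V × Fin s)) :
    FT F (fun _ => none) = 0 := by
  unfold FT
  rw [Finset.card_eq_zero, Finset.filter_eq_empty_iff]
  intro x _ h
  cases h

private theorem Itr_x (n l : ℕ → ℕ) (T0 : ℕ) (hpos : ∀ t ≤ T0, 1 ≤ l t ∧ 2 ≤ n t) (t : ℕ)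
    (ht : t ≤ T0) : 0 ≤ ∏ u ∈ range t, qq (n u) (n u) (l u) (l (u + 1)) ∧
      ∏ u ∈ range t, qq (n u) (n u) (l u) (l (u + 1)) ≤ (l t : ℝ) / l 0 := by
  induction t with
  | zero =>
    rw [Finset.prod_range_zero, div_self]
    · exact ⟨zero_le_one, le_rfl⟩
    · have := (hpos 0 (Nat.zero_le _)).1
      positivity
  | succ t ih =>
    obtain ⟨h1, h2⟩ := ih (Nat.le_of_succ_le ht)
    obtain ⟨h3, h4⟩ := hpos t (Nat.le_of_succ_le ht)
    have h5 := qq_nonneg (n t) (n t) (l t) (l (t + 1)) (by omega)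
    have h6 := qq_le (n t) (n t) (l t) (l (t + 1)) (by omega) h3
    rw [Finset.prod_range_succ]
    refine ⟨mul_nonneg h1 h5, ?_⟩
    have h7 : (0 : ℝ) < l t := by exact_mod_cast h3
    have h8 : (0 : ℝ) < l 0 := by exact_mod_cast (hpos 0 (Nat.zero_le _)).1
    calc (∏ u ∈ range t, qq (n u) (n u) (l u) (l (u + 1))) * qq (n t) (n t) (l t) (l (t + 1)) ≤
        (l t : ℝ) / l 0 * ((l (t + 1) : ℝ) / l t) := mul_le_mul h2 h6 h5 (by positivity)
      _ = (l (t + 1) : ℝ) / l 0 := by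
        field_simp

private theorem Itr_abs3 {a b c A B D : ℝ} (h1 : |a| ≤ A) (h2 : |b| ≤ B) (h3 : |c| ≤ D) :
    |a + b + c| ≤ A + B + D :=
  (abs_add_le _ _).trans (add_le_add ((abs_add_le _ _).trans (add_le_add h1 h2)) h3)

theorem itr {V : Type} [Fintype V] (G : SimpleGraph V) (Δ : ℕ) (hG : Reg G Δ) {s : ℕ}
    (C : Fin s → V → Finset V) (n0 : ℕ) (hn0 : 1 ≤ n0) (hC : IsSys G C n0) (np h0 : ℕ)
    (hP : Parts G C np h0) (Fb : V → Finset (Fin s)) (K0 : ℕ) (hFb : ∀ v, (Fb v).card ≤ K0)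
    {Tt Ff : Type} [Fintype Tt] [Fintype Ff] (T : Tt → V → Finset V) (gr : Tt → V → V → V)
    (col : Tt → Fin s) (m gm : ℕ) (g : Tt → ℕ) (hg : ∀ τ, 1 ≤ g τ ∧ g τ ≤ gm)
    (hT : ∀ τ v, IsTest G C v (T τ v) (gr τ v) m (g τ)) (hTZ : ∀ τ v, ∀ x ∈ T τ v, Fb x = ∅)
    (F : Ff → V → Finset (V × Fin s)) (M : ℕ)
    (hF : ∀ φ v, (F φ v).card ≤ M ∧ ∀ p ∈ F φ v, p.1 ∈ bl G v 9)
    (T0 : ℕ) (hT0 : 1 ≤ T0) (l n : ℕ → ℕ) (bf k0 bm : ℕ) (lam : ℝ) (hlam : 0 < lam)
    (hl0 : l 0 = s) (hn00 : n0 ≤ n 0) (hpos : ∀ t ≤ T0, 1 ≤ l t ∧ 2 ≤ n t)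
    (h5 : ∀ t < T0, 5 * l (t + 1) ≤ l t)
    (hl' : ∀ t < T0, (l (t + 1) : ℝ) ≤
      kap (n t) (n t) * (l t - K0 : ℕ) - Real.sqrt (8 * l t * lam))
    (hk0 : ∀ t < T0, 3 * ((s : ℝ) * h0 / n t) + 2 * lam ≤ k0)
    (hM0 : ∀ t < T0, Real.sqrt (8 * l t * lam) < kap (n t) (n t) * (l t - K0 - k0 - 2 : ℕ))
    (hn' : ∀ t < T0, (n t : ℝ) * qp (n t) (n t) (l t) (l (t + 1)) K0 h0 k0 lam +
      np * (Real.sqrt (8 * n0 * lam) + h0) ≤ n (t + 1))
    (hLLL : 4 * ((2 + 3 * np * s + (4 + gm) * Fintype.card Tt + Fintype.card Ff) *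
      Real.exp (-lam)) * ((Δ : ℝ) + 1) ^ (2 * 12) ≤ 1)
    (hbf : 2 ≤ bf) (hcol : lam ≤ kap bf (n T0) * (l T0 - K0 : ℕ) / bf)
    (hbm : 1 ≤ bm) (hbm1 : bm ≤ bf) (hbm2 : ∀ t ≤ T0, bm ≤ n t) :
    ∃ pb : ℝ, cc (n 0) (n 0) s ≤ pb ∧ pb ≤ (T0 + 1) / s ∧
    ∃ f : V → Fin s, (∀ v, f v ∉ Fb v) ∧ (∀ v, ∀ z ∈ C (f v) v, f z ≠ f v) ∧
      (∀ τ v, |(((T τ v).filter (fun x => f x = col τ)).card : ℝ) - pb * (T τ v).card| ≤
        (T0 + 1) * ((3 * ((m : ℝ) / bm) + 2 * lam) * Real.sqrt (8 * g τ * lam) +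
          g τ * (m * Real.exp (-lam)) + 1 / bm * (2 * m * Real.sqrt (8 * g τ * lam)))) ∧
      ∀ φ v, (((F φ v).filter (fun p => f p.1 = p.2)).card : ℝ) ≤
        (T0 + 1) * (3 * ((M : ℝ) / bm) + 2 * lam) := by
  obtain ⟨x, hx⟩ : ∃ x : ℕ → ℝ, ∀ t, x t = ∏ u ∈ range t, qq (n u) (n u) (l u) (l (u + 1)) :=
    ⟨_, fun _ => rfl⟩
  obtain ⟨P, hP'⟩ : ∃ P : ℕ → ℝ, ∀ t, P t = ∑ u ∈ range t, cc (n u) (n u) (l u) * x u :=
    ⟨_, fun _ => rfl⟩
  obtain ⟨sg, hsg⟩ : ∃ sg : Tt → ℝ, ∀ τ, Real.sqrt (8 * g τ * lam) = sg τ := ⟨_, fun _ => rfl⟩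
  obtain ⟨ee, hee⟩ : ∃ ee : ℝ, Real.exp (-lam) = ee := ⟨_, rfl⟩
  have hee0 : 0 < ee := by rw [← hee]; exact Real.exp_pos _
  have hsg0 : ∀ τ, 0 ≤ sg τ := fun τ => by rw [← hsg]; exact Real.sqrt_nonneg _
  have hx0 : ∀ t ≤ T0, 0 ≤ x t ∧ x t ≤ (l t : ℝ) / l 0 := by
    intro t ht
    rw [hx]
    exact Itr_x n l T0 hpos t ht
  have hbm0 : (0 : ℝ) < bm := by exact_mod_cast hbm
  have hm0 : (0 : ℝ) ≤ m := Nat.cast_nonneg _
  have hM00 : (0 : ℝ) ≤ M := Nat.cast_nonneg _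
  have hTZ' : ∀ τ v, ∀ y ∈ T τ v, y ∉ (univ.filter fun v => Fb v ≠ ∅) := by
    intro τ v y hy h
    exact (Finset.mem_filter.1 h).2 (hTZ τ v y hy)
  have claim : ∀ t ≤ T0, ∃ (Y : Finset V) (L : V → Finset (Fin s)) (f : V → Option (Fin s)),
      Ok C Fb (univ.filter fun v => Fb v ≠ ∅) K0 (l t) (n t) Y L f ∧
      (∀ τ v, |(XT (T τ v) Y L (col τ) : ℝ) - x t * (T τ v).card| ≤ 2 * m * sg τ) ∧
      (∀ τ v, |(CT (T τ v) f (col τ) : ℝ) - P t * (T τ v).card| ≤
        t * ((3 * ((m : ℝ) / bm) + 2 * lam) * sg τ + g τ * (m * ee) + 1 / bm * (2 * m * sg τ))) ∧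
      ∀ φ v, (FT (F φ v) f : ℝ) ≤ t * (3 * ((M : ℝ) / bm) + 2 * lam) := by
    intro t
    induction t with
    | zero =>
      intro _
      refine ⟨univ, fun v => univ \ Fb v, fun _ => none, ?_, fun τ v => ?_, fun τ v => ?_,
        fun φ v => ?_⟩
      · rw [hl0]
        exact Itr_zero G C n0 hC Fb K0 hFb (n 0) hn00
      · rw [Itr_X0 Fb (T τ v) (hTZ τ v), hx, Finset.prod_range_zero, one_mul, sub_self, abs_zero]
        have := hsg0 τ
        positivity
      · rw [Itr_C0, hP', Finset.sum_range_zero]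
        simp
      · rw [Itr_F0]
        simp
    | succ t ih =>
      intro ht
      have htlt : t < T0 := ht
      obtain ⟨Y, L, f, hok, hX, hCt, hFt⟩ := ih htlt.le
      obtain ⟨hlt, hnt⟩ := hpos t htlt.le
      have : NeZero (n t) := ⟨by omega⟩
      obtain ⟨Y', L', f', hok', hX', hC', hF'⟩ := rnd G Δ hG (b := n t) hnt C n0 hn0 hC np h0 hP
        Fb (univ.filter fun v => Fb v ≠ ∅) K0 (l t) hlt Y L f hok T gr col m gm g hg hT hTZ' F M hF
        (l (t + 1)) (n (t + 1)) k0 lam hlam (hl' t htlt) (hk0 t htlt) (hM0 t htlt) (hn' t htlt)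
        hLLL
      have hnb : (bm : ℝ) ≤ n t := by exact_mod_cast hbm2 t htlt.le
      have hn1 : (1 : ℝ) / n t ≤ 1 / bm := one_div_le_one_div_of_le hbm0 hnb
      have hn2 : (m : ℝ) / n t ≤ m / bm := div_le_div_of_nonneg_left hm0 hbm0 hnb
      have hn3 : (M : ℝ) / n t ≤ M / bm := div_le_div_of_nonneg_left hM00 hbm0 hnb
      refine ⟨Y', L', f', ⟨hok'.un, hok'.co, hok'.fb, hok'.Lfb, hok'.prop, hok'.Lc, hok'.le,
        hok'.ge, fun v hv _ => hok'.eq v hv (Finset.notMem_empty v), hok'.deg⟩, fun τ v => ?_,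
        fun τ v => ?_, fun φ v => ?_⟩
      · have h1 := hX' τ v
        have h2 := hX τ v
        rw [hsg] at h1
        have q0 := qq_nonneg (n t) (n t) (l t) (l (t + 1)) (by omega)
        have q1 : qq (n t) (n t) (l t) (l (t + 1)) ≤ 1 / 5 := by
          refine (qq_le (n t) (n t) (l t) (l (t + 1)) (by omega) hlt).trans ?_
          have h3 : (0 : ℝ) < l t := by exact_mod_cast hlt
          rw [div_le_div_iff₀ h3 (by norm_num)]
          have h4 : (5 : ℝ) * l (t + 1) ≤ l t := by exact_mod_cast h5 t htlt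
          linarith
        have e1 : x (t + 1) = x t * qq (n t) (n t) (l t) (l (t + 1)) := by
          rw [hx, hx, Finset.prod_range_succ]
        rw [e1]
        generalize qq (n t) (n t) (l t) (l (t + 1)) = q at *
        generalize (XT (T τ v) Y' L' (col τ) : ℝ) = a' at *
        generalize (XT (T τ v) Y L (col τ) : ℝ) = a at *
        generalize ((T τ v).card : ℝ) = w at *
        have e2 : a' - x t * q * w = (a' - q * a) + q * (a - x t * w) := by ring
        rw [e2]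
        have h3 : |q * (a - x t * w)| ≤ 1 / 5 * (2 * m * sg τ) := by
          rw [abs_mul, abs_of_nonneg q0]
          exact mul_le_mul q1 h2 (abs_nonneg _) (by norm_num)
        have h4 : (0 : ℝ) ≤ m * sg τ := mul_nonneg hm0 (hsg0 τ)
        refine (abs_add_le _ _).trans ?_
        linarith
      · have h1 := hC' τ v
        have h2 := hX τ v
        have h3 := hCt τ v
        rw [hsg, hee] at h1
        have c0 := cc_nonneg (n t) (n t) (l t) (by omega)
        have c1 : cc (n t) (n t) (l t) ≤ 1 / bm :=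
          ((cc_le (n t) (n t) (l t) (by omega) hlt).2).trans hn1
        have e1 : P (t + 1) = P t + cc (n t) (n t) (l t) * x t := by
          rw [hP', hP', Finset.sum_range_succ]
        rw [e1]
        generalize cc (n t) (n t) (l t) = c at *
        generalize (CT (T τ v) f' (col τ) : ℝ) = d' at *
        generalize (CT (T τ v) f (col τ) : ℝ) = d at *
        generalize (XT (T τ v) Y L (col τ) : ℝ) = a at *
        generalize ((T τ v).card : ℝ) = w at *
        have e2 : d' - (P t + c * x t) * w =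
            (d' - d - c * a) + (d - P t * w) + c * (a - x t * w) := by ring
        rw [e2]
        have h4 : |c * (a - x t * w)| ≤ 1 / bm * (2 * m * sg τ) := by
          rw [abs_mul, abs_of_nonneg c0]
          exact mul_le_mul c1 h2 (abs_nonneg _) (by positivity)
        have h6 : (3 * ((m : ℝ) / n t) + 2 * lam) * sg τ ≤
            (3 * ((m : ℝ) / bm) + 2 * lam) * sg τ :=
          mul_le_mul_of_nonneg_right (by linarith) (hsg0 τ)
        refine (Itr_abs3 h1 h3 h4).trans ?_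
        push_cast
        linarith
      · have h1 := hF' φ v
        have h2 := hFt φ v
        push_cast
        linarith
  obtain ⟨Y, L, f, hok, hX, hCt, hFt⟩ := claim T0 le_rfl
  obtain ⟨hlT, hnT⟩ := hpos T0 le_rfl
  have : NeZero bf := ⟨by omega⟩
  obtain ⟨f', hf1, hf2, hf3, hf4⟩ := fir G Δ hG (b := bf) hbf C n0 hC Fb
    (univ.filter fun v => Fb v ≠ ∅) K0 (l T0) Y L f hok T gr col m gm g hg hT hTZ' F M hF lam hlam
    hcol (by
      refine le_trans ?_ hLLL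
      have h1 : (0 : ℝ) ≤ Real.exp (-lam) := (Real.exp_pos _).le
      have h2 : (0 : ℝ) ≤ np * s := by positivity
      have h3 : (0 : ℝ) ≤ Fintype.card Tt := Nat.cast_nonneg _
      have h4 : (1 + (2 + (gm : ℝ)) * Fintype.card Tt + Fintype.card Ff) ≤
          (2 + 3 * np * s + (4 + gm) * Fintype.card Tt + Fintype.card Ff) := by nlinarith
      refine mul_le_mul_of_nonneg_right ?_ (by positivity)
      exact mul_le_mul_of_nonneg_left (mul_le_mul_of_nonneg_right h4 h1) (by norm_num))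
  have hbf0 : (bm : ℝ) ≤ bf := by exact_mod_cast hbm1
  have hn1 : (1 : ℝ) / bf ≤ 1 / bm := one_div_le_one_div_of_le hbm0 hbf0
  have hn2 : (m : ℝ) / bf ≤ m / bm := div_le_div_of_nonneg_left hm0 hbm0 hbf0
  have hn3 : (M : ℝ) / bf ≤ M / bm := div_le_div_of_nonneg_left hM00 hbm0 hbf0
  have hs0 : (0 : ℝ) < l 0 := by exact_mod_cast (hpos 0 (Nat.zero_le _)).1
  have hterm : ∀ (b' n1 t : ℕ), 1 ≤ b' → t ≤ T0 →
      0 ≤ cc b' n1 (l t) * x t ∧ cc b' n1 (l t) * x t ≤ 1 / s := by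
    intro b' n1 t hb' ht
    obtain ⟨x0, x1⟩ := hx0 t ht
    have c0 := cc_nonneg b' n1 (l t) hb'
    have c1 := (cc_le b' n1 (l t) hb' (hpos t ht).1).1
    have hlt : (0 : ℝ) < l t := by exact_mod_cast (hpos t ht).1
    refine ⟨mul_nonneg c0 x0, ?_⟩
    calc cc b' n1 (l t) * x t ≤ 1 / (l t : ℝ) * ((l t : ℝ) / l 0) :=
          mul_le_mul c1 x1 x0 (by positivity)
      _ = 1 / s := by
        rw [hl0] at hs0 ⊢
        field_simp
  have hlast := hterm bf (n T0) T0 (by omega) le_rfl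
  refine ⟨P T0 + cc bf (n T0) (l T0) * x T0, ?_, ?_, f', hf1, hf2, fun τ v => ?_, fun φ v => ?_⟩
  · have h1 : cc (n 0) (n 0) (l 0) * x 0 ≤ P T0 := by
      rw [hP']
      refine Finset.single_le_sum (f := fun u => cc (n u) (n u) (l u) * x u) (fun u hu => ?_)
        (Finset.mem_range.2 hT0)
      rw [Finset.mem_range] at hu
      exact (hterm (n u) (n u) u (by have := (hpos u hu.le).2; omega) hu.le).1
    have h2 : x 0 = 1 := by rw [hx, Finset.prod_range_zero]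
    rw [h2, mul_one, hl0] at h1
    linarith [hlast.1]
  · have h1 : P T0 ≤ T0 * (1 / s) := by
      rw [hP']
      have h2 := Finset.sum_le_card_nsmul (range T0) (fun u => cc (n u) (n u) (l u) * x u)
        (1 / (s : ℝ)) (fun u hu => by
          rw [Finset.mem_range] at hu
          exact (hterm (n u) (n u) u (by have := (hpos u hu.le).2; omega) hu.le).2)
      rw [Finset.card_range, nsmul_eq_mul] at h2
      exact h2
    have e1 : ((T0 : ℝ) + 1) / s = T0 * (1 / s) + 1 / s := by ring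
    rw [e1]
    linarith [hlast.2]
  · have h1 := hf3 τ v
    have h2 := hX τ v
    have h3 := hCt τ v
    rw [hsg, hee] at h1
    rw [hsg, hee]
    have c0 := cc_nonneg bf (n T0) (l T0) (by omega)
    have c1 : cc bf (n T0) (l T0) ≤ 1 / bm :=
      ((cc_le bf (n T0) (l T0) (by omega) hlT).2).trans hn1
    generalize cc bf (n T0) (l T0) = c at *
    generalize (((T τ v).filter (fun x => f' x = col τ)).card : ℝ) = d' at *
    generalize (CT (T τ v) f (col τ) : ℝ) = d at *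
    generalize (XT (T τ v) Y L (col τ) : ℝ) = a at *
    generalize ((T τ v).card : ℝ) = w at *
    have e2 : d' - (P T0 + c * x T0) * w =
        (d' - d - c * a) + (d - P T0 * w) + c * (a - x T0 * w) := by ring
    rw [e2]
    have h4 : |c * (a - x T0 * w)| ≤ 1 / bm * (2 * m * sg τ) := by
      rw [abs_mul, abs_of_nonneg c0]
      exact mul_le_mul c1 h2 (abs_nonneg _) (by positivity)
    have h6 : (3 * ((m : ℝ) / bf) + 2 * lam) * sg τ ≤
        (3 * ((m : ℝ) / bm) + 2 * lam) * sg τ :=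
      mul_le_mul_of_nonneg_right (by linarith) (hsg0 τ)
    refine (Itr_abs3 h1 h3 h4).trans ?_
    linarith
  · have h1 := hf4 φ v
    have h2 := hFt φ v
    linarith

end Pool.Agent.H65.GI
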