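/-
ROW Nmb. Numerics of one round.
Notation: `x = (Δ : ℝ)`, `lam = x ^ (1/(20000 c^2))`, `k0 = ⌈x^(1/500)⌉`, `κ = kap n n`.
PROOF. For `Δ ≥ Δ0(c)` (use `Filter.eventually_atTop`, `isLittleO_rpow`/`tendsto_rpow_atTop`): `1 ≤ lam ≤ x^(1/1000)`, `k0 ≤ 2 x^(1/500)`, `sqrt (8 l lam) ≤ x^(51/100)` (as `l ≤ x`), `c (sqrt (8 (c Δ) lam) + c) ≤ x^(51/100)`, `l ≥ x^(998/1000)`, `ρ l ≥ l/(20 lam) ≥ x^(99/100)`, so `n ≥ x^(99/100)`, `n ≥ 2`, `κ ≥ 1/4` (`kap_quarter`).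
(i) `l' ≤ l/5 ≤ (l - c)/4 - x^(51/100)` since `l/20 ≥ c/4 + x^(51/100)`. (ii) `κ (l - c - k0 - 2) ≥ l/8 > x^(51/100)`.
(iii) `η = x^(-3/10)`, `N1 = l - c - k0 - 2 ≥ l (1 - η)`; `κ N1 - sqrt (8 l lam) ≥ κ l (1-η) - x^(51/100) ≥ κ l (1 - 2η)` (`x^(51/100) ≤ η l/4 ≤ η κ l`), so `κ l' / (κ N1 - sqrt ..) ≤ (l'/l) / (1-2η) ≤ (l'/l)(1+4η)`. `(1 - 1/n)^c ≥ 1 - c/n` (Bernoulli), so `1/(1-1/n)^c ≤ 1 + 2c/n ≤ 1 + η` (and `≤ 2`).
`(1 - κ/n)^N1 ≤ exp (-κ N1/n) ≤ exp (-(l (1-η))/(4 (ρ l + 1))) ≤ exp (-1/(5ρ)) ≤ exp (-1/(5c^2))` since `ρ l + 1 ≤ ρ l (1+η)`, `(1-η)/(1+η) ≥ 4/5`, `ρ ≤ c^2`.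
`n ≤ ρ l + 1`, `n l'/l ≤ ρ l' (1+η)`. So `n qp ≤ (1+η) (1+η) (1+4η) exp (-1/(5c^2)) ρ l' + 4 n exp (-lam)` and `4 n exp (-lam) ≤ 1` (`lam` is a power of `x`, `n ≤ c^2 x + 1`). With `δ = exp (-1/(8c^2)) - exp (-1/(5c^2)) > 0`: `(1+η)^2 (1+4η) exp (-1/(5c^2)) ≤ exp (-1/(8c^2)) - δ/2` for large `x`, and
`ρ l' δ/2 ≥ (x^(998/1000)/6)/(20 lam) δ/2 ≥ x^(51/100) + 1`. So the left side is `≤ exp (-1/(8c^2)) ρ l' ≤ n'`. In `qp` the first factor is `κ/(1-1/n)^c` and the bracket is `(1-κ/n)^N1 * l' / (κ N1 - sqrt ..) + 2 exp (-lam)`.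
-/
import Pool.Agent.H65.GI.Nbd

set_option autoImplicit false

namespace Pool.Agent.H65.GI

open Finset Classical

private theorem Nmb_pow (C a b : ℝ) (hab : a < b) : ∀ᶠ x : ℝ in Filter.atTop, C * x ^ a ≤ x ^ b := by
  have h1 := (tendsto_rpow_atTop (show (0 : ℝ) < b - a by linarith)).eventually (Filter.eventually_ge_atTop C)
  filter_upwards [h1, Filter.eventually_gt_atTop 0] with x hx h0
  have e : x ^ b = x ^ (b - a) * x ^ a := by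
    rw [← Real.rpow_add h0]
    congr 1
    ring
  rw [e]
  exact mul_le_mul_of_nonneg_right hx (Real.rpow_nonneg h0.le a)

private theorem Nmb_exp (ε C : ℝ) (hε : 0 < ε) : ∀ᶠ x : ℝ in Filter.atTop, C * (x * Real.exp (-(x ^ ε))) ≤ 1 := by
  have h1 := tendsto_rpow_mul_exp_neg_mul_atTop_nhds_zero (1 / ε) 1 one_pos
  have h2 := h1.comp (tendsto_rpow_atTop hε)
  have h3 := h2.const_mul C
  rw [mul_zero] at h3
  have h4 := h3.eventually (eventually_le_nhds (show (0 : ℝ) < 1 by norm_num))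
  filter_upwards [h4, Filter.eventually_gt_atTop 0] with x hx h0
  simp only [Function.comp] at hx
  have e : (x ^ ε) ^ (1 / ε) = x := by
    rw [← Real.rpow_mul h0.le, mul_one_div_cancel hε.ne', Real.rpow_one]
  rw [e] at hx
  simpa using hx

/-- The facts for large `x`. -/
private structure Nmb_facts (c : ℕ) (x : ℝ) : Prop where
  one : 1 ≤ x
  a2 : 8 * x ^ (1001 / 1000 : ℝ) ≤ x ^ (102 / 100 : ℝ)
  a3 : 8 * (c : ℝ) * x ^ (1001 / 1000 : ℝ) ≤ x ^ (101 / 100 : ℝ)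
  a3b : 2 * (c : ℝ) * x ^ (505 / 1000 : ℝ) ≤ x ^ (51 / 100 : ℝ)
  a3c : 2 * (c : ℝ) ^ 2 * x ^ (0 : ℝ) ≤ x ^ (51 / 100 : ℝ)
  a4 : ((c : ℝ) + 4) * x ^ (1 / 500 : ℝ) ≤ x ^ (698 / 1000 : ℝ)
  a5 : 4 * x ^ (51 / 100 : ℝ) ≤ x ^ (698 / 1000 : ℝ)
  a6 : (20 * ((c : ℝ) + 1)) * x ^ (51 / 100 : ℝ) ≤ x ^ (998 / 1000 : ℝ)
  a7 : 20 * x ^ (991 / 1000 : ℝ) ≤ x ^ (998 / 1000 : ℝ)
  a8 : 2 * x ^ (0 : ℝ) ≤ x ^ (99 / 100 : ℝ)
  a9 : 2 * (c : ℝ) * x ^ (0 : ℝ) ≤ x ^ (69 / 100 : ℝ)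
  a10 : 60 * x ^ (0 : ℝ) ≤ x ^ (998 / 1000 : ℝ)
  eta : x ^ (-(3 / 10) : ℝ) ≤ 1 / 9
  a11 : 4 * ((c : ℝ) ^ 2 + 1) * (x * Real.exp (-(x ^ (1 / (20000 * (c : ℝ) ^ 2))))) ≤ 1
  a12 : (1 + x ^ (-(3 / 10) : ℝ)) ^ 2 * (1 + 4 * x ^ (-(3 / 10) : ℝ)) * Real.exp (-(1 / (5 * (c : ℝ) ^ 2))) ≤
    Real.exp (-(1 / (8 * (c : ℝ) ^ 2))) -
      (Real.exp (-(1 / (8 * (c : ℝ) ^ 2))) - Real.exp (-(1 / (5 * (c : ℝ) ^ 2)))) / 2
  a13 : (2 * 240 / (Real.exp (-(1 / (8 * (c : ℝ) ^ 2))) - Real.exp (-(1 / (5 * (c : ℝ) ^ 2))))) * x ^ (51 / 100 : ℝ) ≤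
    x ^ (997 / 1000 : ℝ)

private theorem Nmb_gap (c : ℕ) (hc : 1 ≤ c) :
    0 < Real.exp (-(1 / (8 * (c : ℝ) ^ 2))) - Real.exp (-(1 / (5 * (c : ℝ) ^ 2))) := by
  have hc' : (1 : ℝ) ≤ c := by exact_mod_cast hc
  rw [sub_pos, Real.exp_lt_exp, neg_lt_neg_iff]
  apply one_div_lt_one_div_of_lt
  · positivity
  · nlinarith

private theorem Nmb_ev (c : ℕ) (hc : 1 ≤ c) : ∀ᶠ x : ℝ in Filter.atTop, Nmb_facts c x := by
  have hc' : (1 : ℝ) ≤ c := by exact_mod_cast hc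
  have hg := Nmb_gap c hc
  have hη := tendsto_rpow_neg_atTop (show (0 : ℝ) < 3 / 10 by norm_num)
  have h12 : Filter.Tendsto (fun x : ℝ => (1 + x ^ (-(3 / 10) : ℝ)) ^ 2 * (1 + 4 * x ^ (-(3 / 10) : ℝ)) *
      Real.exp (-(1 / (5 * (c : ℝ) ^ 2)))) Filter.atTop
      (nhds ((1 + 0) ^ 2 * (1 + 4 * 0) * Real.exp (-(1 / (5 * (c : ℝ) ^ 2))))) :=
    (((hη.const_add 1).pow 2).mul ((hη.const_mul 4).const_add 1)).mul_const _
  have h12' := h12.eventually (eventually_le_nhds (b := Real.exp (-(1 / (8 * (c : ℝ) ^ 2))) -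
      (Real.exp (-(1 / (8 * (c : ℝ) ^ 2))) - Real.exp (-(1 / (5 * (c : ℝ) ^ 2)))) / 2) (by linarith))
  filter_upwards [Filter.eventually_ge_atTop 1, Nmb_pow 8 (1001 / 1000) (102 / 100) (by norm_num),
    Nmb_pow (8 * c) (1001 / 1000) (101 / 100) (by norm_num), Nmb_pow (2 * c) (505 / 1000) (51 / 100) (by norm_num),
    Nmb_pow (2 * (c : ℝ) ^ 2) 0 (51 / 100) (by norm_num), Nmb_pow (c + 4) (1 / 500) (698 / 1000) (by norm_num),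
    Nmb_pow 4 (51 / 100) (698 / 1000) (by norm_num), Nmb_pow (20 * (c + 1)) (51 / 100) (998 / 1000) (by norm_num),
    Nmb_pow 20 (991 / 1000) (998 / 1000) (by norm_num), Nmb_pow 2 0 (99 / 100) (by norm_num),
    Nmb_pow (2 * c) 0 (69 / 100) (by norm_num), Nmb_pow 60 0 (998 / 1000) (by norm_num),
    hη.eventually (eventually_le_nhds (show (0 : ℝ) < 1 / 9 by norm_num)),
    Nmb_exp (1 / (20000 * (c : ℝ) ^ 2)) (4 * ((c : ℝ) ^ 2 + 1)) (by positivity), h12',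
    Nmb_pow (2 * 240 / (Real.exp (-(1 / (8 * (c : ℝ) ^ 2))) - Real.exp (-(1 / (5 * (c : ℝ) ^ 2))))) (51 / 100)
      (997 / 1000) (by norm_num)] with x h1 h2 h3 h4 h5 h6 h7 h8 h9 h10 h11 h12 h13 h14 h15 h16
  exact ⟨h1, h2, h3, h4, h5, h6, h7, h8, h9, h10, h11, h12, h13, h14, h15, h16⟩

private theorem Nmb_main (κ N S L l' n ρ η Q P E e : ℝ) (hη0 : 0 ≤ η) (hη : η ≤ 1 / 9) (hκ : 1 / 4 ≤ κ) (hκ1 : κ ≤ 1)
    (hL : 0 < L) (hl' : 0 ≤ l') (hN : L * (1 - η) ≤ N) (hS : 4 * S ≤ η * L) (hP0 : 0 ≤ P) (hP : P ≤ E)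
    (hQ0 : 0 ≤ Q) (hQ : Q ≤ 1 + η) (hn0 : 0 ≤ n) (hn : n ≤ ρ * L * (1 + η)) (he : 0 ≤ e) :
    n * (κ * Q * (P * l' / (κ * N - S) + 2 * e)) ≤ (1 + η) ^ 2 * (1 + 4 * η) * E * (ρ * l') + 4 * (n * e) := by
  have hκ0 : 0 < κ := by linarith
  have hD : κ * L * (1 - 2 * η) ≤ κ * N - S := by
    have h1 : κ * (L * (1 - η)) ≤ κ * N := mul_le_mul_of_nonneg_left hN hκ0.le
    have h2 : 1 / 4 * (η * L) ≤ κ * (η * L) := mul_le_mul_of_nonneg_right hκ (by positivity)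
    nlinarith
  have h12 : 0 < 1 - 2 * η := by linarith
  have hd0 : 0 < κ * L * (1 - 2 * η) := by positivity
  have hE : 0 ≤ E := hP0.trans hP
  have h1 : κ * (P * l' / (κ * N - S)) ≤ E * l' * (1 + 4 * η) / L := by
    calc κ * (P * l' / (κ * N - S)) ≤ κ * (E * l' / (κ * L * (1 - 2 * η))) := by gcongr
      _ = E * l' / (L * (1 - 2 * η)) := by field_simp
      _ ≤ E * l' * (1 + 4 * η) / L := by
        rw [div_le_div_iff₀ (by positivity) hL]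
        have h2 : 1 ≤ (1 + 4 * η) * (1 - 2 * η) := by nlinarith
        have h3 : E * l' * L * 1 ≤ E * l' * L * ((1 + 4 * η) * (1 - 2 * η)) :=
          mul_le_mul_of_nonneg_left h2 (by positivity)
        linarith
  have h4 : 0 ≤ κ * (P * l' / (κ * N - S)) := by
    have : 0 ≤ κ * N - S := hd0.le.trans hD
    positivity
  have h5 : n * Q * (κ * (P * l' / (κ * N - S))) ≤ (ρ * L * (1 + η)) * (1 + η) * (E * l' * (1 + 4 * η) / L) :=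
    mul_le_mul (mul_le_mul hn hQ hQ0 (hn0.trans hn)) h1 h4
      (mul_nonneg (hn0.trans hn) (by linarith))
  have h6 : (ρ * L * (1 + η)) * (1 + η) * (E * l' * (1 + 4 * η) / L) = (1 + η) ^ 2 * (1 + 4 * η) * E * (ρ * l') := by
    field_simp
  have h7 : κ * Q ≤ 2 := by nlinarith
  have h8 : κ * Q * (2 * (n * e)) ≤ 2 * (2 * (n * e)) := mul_le_mul_of_nonneg_right h7 (by positivity)
  calc n * (κ * Q * (P * l' / (κ * N - S) + 2 * e)) =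
      n * Q * (κ * (P * l' / (κ * N - S))) + κ * Q * (2 * (n * e)) := by ring
    _ ≤ _ := by rw [h6] at h5; linarith

private theorem Nmb_bern (c n : ℕ) (η : ℝ) (hn : 1 ≤ n) (hη0 : 0 ≤ η) (hη : η ≤ 1 / 9) (h : 2 * (c : ℝ) ≤ η * n) :
    0 ≤ 1 / (1 - 1 / (n : ℝ)) ^ c ∧ 1 / (1 - 1 / (n : ℝ)) ^ c ≤ 1 + η := by
  have hn' : (1 : ℝ) ≤ n := by exact_mod_cast hn
  have h1 : (1 : ℝ) / n ≤ 1 := by rw [div_le_one (by linarith)]; exact hn'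
  have h2 := one_add_mul_le_pow (show (-2 : ℝ) ≤ -(1 / (n : ℝ)) by linarith) c
  have h3 : (c : ℝ) / n ≤ η / 2 := by
    rw [div_le_iff₀ (by linarith)]
    linarith
  have h4 : 1 - η / 2 ≤ (1 - 1 / (n : ℝ)) ^ c := by
    calc 1 - η / 2 ≤ 1 + (c : ℝ) * -(1 / (n : ℝ)) := by
          have : (c : ℝ) * -(1 / (n : ℝ)) = - (c / n) := by ring
          rw [this]
          linarith
      _ ≤ (1 + -(1 / (n : ℝ))) ^ c := h2
      _ = _ := by ring_nf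
  have h5 : 0 < (1 - 1 / (n : ℝ)) ^ c := by linarith
  refine ⟨by positivity, ?_⟩
  rw [div_le_iff₀ h5]
  nlinarith

private theorem Nmb_pexp (κ n L η : ℝ) (c N : ℕ) (hc : 1 ≤ c) (_hη0 : 0 ≤ η) (hη : η ≤ 1 / 9) (hκ : 1 / 4 ≤ κ) (hκ1 : κ ≤ 1)
    (hL : 0 < L) (hn1 : 1 ≤ n) (hn : n ≤ (c : ℝ) ^ 2 * L * (1 + η)) (hN : L * (1 - η) ≤ N) :
    0 ≤ (1 - κ / n) ^ N ∧ (1 - κ / n) ^ N ≤ Real.exp (-(1 / (5 * (c : ℝ) ^ 2))) := by
  have hc' : (1 : ℝ) ≤ c := by exact_mod_cast hc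
  have h0 : 0 ≤ 1 - κ / n := by
    rw [sub_nonneg, div_le_one (by linarith)]
    linarith
  refine ⟨pow_nonneg h0 N, ?_⟩
  have h1 : 1 - κ / n ≤ Real.exp (-(κ / n)) := Real.one_sub_le_exp_neg (κ / n)
  calc (1 - κ / n) ^ N ≤ Real.exp (-(κ / n)) ^ N := pow_le_pow_left₀ h0 h1 N
    _ = Real.exp (N * -(κ / n)) := (Real.exp_nat_mul _ N).symm
    _ ≤ _ := by
      apply Real.exp_le_exp.mpr
      have h2 : 1 / (5 * (c : ℝ) ^ 2) ≤ N * (κ / n) := by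
        have h3 : (N : ℝ) * (κ / n) = N * κ / n := by ring
        rw [h3, div_le_div_iff₀ (by positivity) (by linarith)]
        have h4 : L * (1 - η) * (1 / 4) ≤ N * κ := by
          apply mul_le_mul hN hκ (by norm_num) (by positivity)
        have h5 : (4 / 5 : ℝ) * (1 + η) ≤ 1 - η := by linarith
        have h6 : (c : ℝ) ^ 2 * L * ((4 / 5 : ℝ) * (1 + η)) ≤ (c : ℝ) ^ 2 * L * (1 - η) :=
          mul_le_mul_of_nonneg_left h5 (by positivity)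
        have h7 : (c : ℝ) ^ 2 * (L * (1 - η) * (1 / 4)) ≤ (c : ℝ) ^ 2 * (N * κ) :=
          mul_le_mul_of_nonneg_left h4 (by positivity)
        nlinarith
      have h8 : (N : ℝ) * -(κ / n) = - (N * (κ / n)) := by ring
      rw [h8]
      linarith

/-- The numeric consequences for one `x`. -/
private structure Nmb_num (c : ℕ) (x lam L : ℝ) : Prop where
  lam1 : 1 ≤ lam
  S : Real.sqrt (8 * L * lam) ≤ x ^ (51 / 100 : ℝ)
  T : (c : ℝ) * (Real.sqrt (8 * ((c : ℝ) * x) * lam) + c) ≤ x ^ (51 / 100 : ℝ)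
  Leta : x ^ (698 / 1000 : ℝ) ≤ x ^ (-(3 / 10) : ℝ) * L
  rho : ∀ ρ : ℝ, 1 / (20 * lam) ≤ ρ → x ^ (99 / 100 : ℝ) ≤ ρ * L
  rho' : ∀ ρ : ℝ, 1 / (20 * lam) ≤ ρ → x ^ (997 / 1000 : ℝ) ≤ 20 * (ρ * L)

private theorem Nmb_num_of (c : ℕ) (hc : 1 ≤ c) (x lam L : ℝ) (F : Nmb_facts c x)
    (hlam : lam = x ^ (1 / (20000 * (c : ℝ) ^ 2))) (hL : x ^ (998 / 1000 : ℝ) ≤ L) (hLx : L ≤ x) :
    Nmb_num c x lam L := by
  have hc' : (1 : ℝ) ≤ c := by exact_mod_cast hc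
  have h1 := F.one
  have h0 : (0 : ℝ) < x := by linarith
  have hlam1 : 1 ≤ lam := by
    rw [hlam]
    exact Real.one_le_rpow h1 (by positivity)
  have hlam2 : lam ≤ x ^ (1 / 1000 : ℝ) := by
    rw [hlam]
    apply Real.rpow_le_rpow_of_exponent_le h1
    apply one_div_le_one_div_of_le (by norm_num)
    nlinarith
  have hxl : x * lam ≤ x ^ (1001 / 1000 : ℝ) := by
    have e : x ^ (1001 / 1000 : ℝ) = x * x ^ (1 / 1000 : ℝ) := by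
      rw [show (1001 / 1000 : ℝ) = 1 + 1 / 1000 by norm_num, Real.rpow_add h0, Real.rpow_one]
    rw [e]
    exact mul_le_mul_of_nonneg_left hlam2 h0.le
  have hLpos : 0 < L := lt_of_lt_of_le (Real.rpow_pos_of_pos h0 _) hL
  refine ⟨hlam1, ?_, ?_, ?_, ?_, ?_⟩
  · apply Real.sqrt_le_iff.mpr
    refine ⟨Real.rpow_nonneg h0.le _, ?_⟩
    have e : (x ^ (51 / 100 : ℝ)) ^ 2 = x ^ (102 / 100 : ℝ) := by
      rw [← Real.rpow_natCast, ← Real.rpow_mul h0.le]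
      norm_num
    rw [e]
    have h2 : L * lam ≤ x * lam := mul_le_mul_of_nonneg_right hLx (by linarith)
    have h3 := F.a2
    linarith
  · have hT : Real.sqrt (8 * ((c : ℝ) * x) * lam) ≤ x ^ (505 / 1000 : ℝ) := by
      apply Real.sqrt_le_iff.mpr
      refine ⟨Real.rpow_nonneg h0.le _, ?_⟩
      have e : (x ^ (505 / 1000 : ℝ)) ^ 2 = x ^ (101 / 100 : ℝ) := by
        rw [← Real.rpow_natCast, ← Real.rpow_mul h0.le]
        norm_num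
      rw [e]
      have h3 := F.a3
      have h4 : 8 * (c : ℝ) * (x * lam) ≤ 8 * (c : ℝ) * x ^ (1001 / 1000 : ℝ) :=
        mul_le_mul_of_nonneg_left hxl (by positivity)
      linarith
    have h3 := F.a3b
    have h4 := F.a3c
    rw [Real.rpow_zero] at h4
    have h5 : (c : ℝ) * Real.sqrt (8 * ((c : ℝ) * x) * lam) ≤ (c : ℝ) * x ^ (505 / 1000 : ℝ) :=
      mul_le_mul_of_nonneg_left hT (by positivity)
    nlinarith
  · have e : x ^ (698 / 1000 : ℝ) = x ^ (-(3 / 10) : ℝ) * x ^ (998 / 1000 : ℝ) := by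
      rw [← Real.rpow_add h0]
      norm_num
    rw [e]
    exact mul_le_mul_of_nonneg_left hL (Real.rpow_nonneg h0.le _)
  · intro ρ hρ
    have h2 : 1 ≤ 20 * lam * ρ := by
      rw [div_le_iff₀ (by positivity)] at hρ
      linarith
    have hρ0 : 0 ≤ ρ := le_trans (by positivity) hρ
    have h3 : x ^ (998 / 1000 : ℝ) ≤ 20 * x ^ (1 / 1000 : ℝ) * (ρ * L) := by
      calc x ^ (998 / 1000 : ℝ) ≤ L * 1 := by rw [mul_one]; exact hL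
        _ ≤ L * (20 * lam * ρ) := mul_le_mul_of_nonneg_left h2 hLpos.le
        _ = 20 * lam * (ρ * L) := by ring
        _ ≤ _ := by gcongr
    have h4 := F.a7
    have e : x ^ (991 / 1000 : ℝ) = x ^ (1 / 1000 : ℝ) * x ^ (99 / 100 : ℝ) := by
      rw [← Real.rpow_add h0]
      norm_num
    rw [e] at h4
    have h5 : 20 * x ^ (1 / 1000 : ℝ) * x ^ (99 / 100 : ℝ) ≤ 20 * x ^ (1 / 1000 : ℝ) * (ρ * L) := by linarith
    exact le_of_mul_le_mul_left h5 (by positivity)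
  · intro ρ hρ
    have h2 : 1 ≤ 20 * lam * ρ := by
      rw [div_le_iff₀ (by positivity)] at hρ
      linarith
    have hρ0 : 0 ≤ ρ := le_trans (by positivity) hρ
    have h3 : x ^ (998 / 1000 : ℝ) ≤ x ^ (1 / 1000 : ℝ) * (20 * (ρ * L)) := by
      calc x ^ (998 / 1000 : ℝ) ≤ L * 1 := by rw [mul_one]; exact hL
        _ ≤ L * (20 * lam * ρ) := mul_le_mul_of_nonneg_left h2 hLpos.le
        _ = lam * (20 * (ρ * L)) := by ring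
        _ ≤ _ := by gcongr
    have e : x ^ (998 / 1000 : ℝ) = x ^ (1 / 1000 : ℝ) * x ^ (997 / 1000 : ℝ) := by
      rw [← Real.rpow_add h0]
      norm_num
    rw [e] at h3
    exact le_of_mul_le_mul_left h3 (by positivity)

theorem nmb (c : ℕ) (hc : 1 ≤ c) : ∃ Δ0 : ℕ, ∀ Δ : ℕ, Δ0 ≤ Δ → ∀ (l k0 n l' n' : ℕ) (ρ lam : ℝ),
    lam = (Δ : ℝ) ^ (1 / (20000 * (c : ℝ) ^ 2)) → k0 = ⌈(Δ : ℝ) ^ (1 / 500 : ℝ)⌉₊ →
    (Δ : ℝ) ^ (998 / 1000 : ℝ) ≤ l → l ≤ Δ → 1 / (20 * lam) ≤ ρ → ρ ≤ (c : ℝ) ^ 2 →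
    n = ⌈ρ * l⌉₊ → l' = l / 5 → n' = ⌈Real.exp (-(1 / (8 * (c : ℝ) ^ 2))) * ρ * l'⌉₊ →
    2 ≤ n ∧ (l' : ℝ) ≤ kap n n * (l - c : ℕ) - Real.sqrt (8 * l * lam) ∧
    Real.sqrt (8 * l * lam) < kap n n * (l - c - k0 - 2 : ℕ) ∧
    (n : ℝ) * qp n n l l' c c k0 lam + c * (Real.sqrt (8 * (c * Δ : ℕ) * lam) + c) ≤ n' := by
  obtain ⟨Δ0, hΔ0⟩ := Filter.eventually_atTop.mp (tendsto_natCast_atTop_atTop.eventually (Nmb_ev c hc))
  refine ⟨Δ0, ?_⟩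
  intro Δ hΔ l k0 n l' n' ρ lam hlam hk0 hl1 hl2 hρ1 hρ2 hn hl' hn'
  have F : Nmb_facts c (Δ : ℝ) := hΔ0 Δ hΔ
  have hl2' : (l : ℝ) ≤ Δ := by exact_mod_cast hl2
  have N := Nmb_num_of c hc (Δ : ℝ) lam l F hlam hl1 hl2'
  have hc' : (1 : ℝ) ≤ c := by exact_mod_cast hc
  have hg := Nmb_gap c hc
  have hcast : ((c * Δ : ℕ) : ℝ) = (c : ℝ) * Δ := by push_cast; ring
  rw [hcast]
  obtain ⟨F1, F2, F3, F3b, F3c, F4, F5, F6, F7, F8, F9, F10, Feta, F11, F12, F13⟩ := F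
  obtain ⟨N1, NS, NT, NL, Nr, Nr'⟩ := N
  rw [← hlam] at F11
  rw [Real.rpow_zero] at F3c F8 F9 F10
  have h0 : (0 : ℝ) < Δ := by linarith
  set x : ℝ := (Δ : ℝ) with hx
  set η : ℝ := x ^ (-(3 / 10) : ℝ) with hη
  set P51 : ℝ := x ^ (51 / 100 : ℝ) with hP51
  set S : ℝ := Real.sqrt (8 * l * lam) with hS
  have hη0 : 0 < η := Real.rpow_pos_of_pos h0 _
  have hP0 : 0 < P51 := Real.rpow_pos_of_pos h0 _
  have hL0 : (0 : ℝ) < l := lt_of_lt_of_le (Real.rpow_pos_of_pos h0 _) hl1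
  have hρ0 : 0 < ρ := lt_of_lt_of_le (by positivity) hρ1
  have R1 := Nr ρ hρ1
  have R2 := Nr' ρ hρ1
  -- n
  have hn1 : ρ * l ≤ n := by rw [hn]; exact Nat.le_ceil _
  have hn2 : (n : ℝ) ≤ ρ * l + 1 := by rw [hn]; exact (Nat.ceil_lt_add_one (by positivity)).le
  have hn3 : 2 ≤ n := by
    have : (2 : ℝ) ≤ n := by linarith
    exact_mod_cast this
  have hn3' : (2 : ℝ) ≤ n := by exact_mod_cast hn3
  have h99 : x ^ (69 / 100 : ℝ) ≤ η * (ρ * l) := by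
    have e : x ^ (69 / 100 : ℝ) = η * x ^ (99 / 100 : ℝ) := by
      rw [hη, ← Real.rpow_add h0]
      norm_num
    rw [e]
    exact mul_le_mul_of_nonneg_left R1 hη0.le
  have hn4 : (n : ℝ) ≤ ρ * l * (1 + η) := by linarith
  have hcn : 2 * (c : ℝ) ≤ η * n := by
    have := mul_le_mul_of_nonneg_left hn1 hη0.le
    linarith
  have hκ := kap_quarter n hn3
  have hκ1 := kap_le_one n n (by omega)
  set κ : ℝ := kap n n with hκdef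
  -- k0
  have hk0' : (k0 : ℝ) ≤ x ^ (1 / 500 : ℝ) + 1 := by
    rw [hk0]; exact (Nat.ceil_lt_add_one (Real.rpow_nonneg h0.le _)).le
  have hk1 : 1 ≤ x ^ (1 / 500 : ℝ) := Real.one_le_rpow F1 (by norm_num)
  have hk2 : (c : ℝ) + k0 + 2 ≤ η * l := by nlinarith
  have hηl : η * l ≤ 1 / 9 * l := mul_le_mul_of_nonneg_right Feta hL0.le
  have hsub : c + k0 + 2 ≤ l := by
    have : ((c + k0 + 2 : ℕ) : ℝ) ≤ l := by push_cast; linarith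
    exact_mod_cast this
  have hN1 : ((l - c - k0 - 2 : ℕ) : ℝ) = (l : ℝ) - (c + k0 + 2) := by
    rw [show l - c - k0 - 2 = l - (c + k0 + 2) by omega, Nat.cast_sub hsub]
    push_cast
    ring
  have hN2 : (l : ℝ) * (1 - η) ≤ ((l - c - k0 - 2 : ℕ) : ℝ) := by rw [hN1]; linarith
  have hlc : ((l - c : ℕ) : ℝ) = (l : ℝ) - c := by
    rw [Nat.cast_sub (by omega)]
  -- l'
  have hl'1 : (l' : ℝ) ≤ l / 5 := by
    rw [hl']
    exact Nat.cast_div_le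
  have hl'2 : (l : ℝ) / 5 - 1 ≤ l' := by
    have h1 : l ≤ 5 * l' + 4 := by omega
    have h2 : (l : ℝ) ≤ 5 * l' + 4 := by exact_mod_cast h1
    linarith
  have hP1 : 1 ≤ P51 := Real.one_le_rpow F1 (by norm_num)
  refine ⟨hn3, ?_, ?_, ?_⟩
  · rw [hlc]
    have h1 : 1 / 4 * ((l : ℝ) - c) ≤ κ * ((l : ℝ) - c) := by
      apply mul_le_mul_of_nonneg_right hκ
      have : (0 : ℝ) ≤ ((l - c : ℕ) : ℝ) := Nat.cast_nonneg _
      rwa [hlc] at this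
    have h2 : (c : ℝ) * 1 ≤ c * P51 := mul_le_mul_of_nonneg_left hP1 (by positivity)
    nlinarith
  · have h1 : 1 / 4 * ((l - c - k0 - 2 : ℕ) : ℝ) ≤ κ * ((l - c - k0 - 2 : ℕ) : ℝ) :=
      mul_le_mul_of_nonneg_right hκ (Nat.cast_nonneg _)
    have h2 : (l : ℝ) * (1 - η) = l - η * l := by ring
    rw [h2] at hN2
    linarith
  · have hB := Nmb_bern c n η (by omega) hη0.le Feta hcn
    have hn5 : (n : ℝ) ≤ (c : ℝ) ^ 2 * l * (1 + η) := by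
      refine hn4.trans ?_
      gcongr
    have hE := Nmb_pexp κ n l η c (l - c - k0 - 2) hc hη0.le Feta hκ hκ1 hL0 (by linarith) hn5 hN2
    have hM := Nmb_main κ ((l - c - k0 - 2 : ℕ) : ℝ) S l l' n ρ η (1 / (1 - 1 / (n : ℝ)) ^ c)
      ((1 - κ / n) ^ (l - c - k0 - 2)) (Real.exp (-(1 / (5 * (c : ℝ) ^ 2)))) (Real.exp (-lam)) hη0.le Feta hκ hκ1 hL0
      (Nat.cast_nonneg _) hN2 (by linarith) hE.1 hE.2 hB.1 hB.2 (Nat.cast_nonneg _) hn4 (Real.exp_pos _).le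
    have hq : (n : ℝ) * qp n n l l' c c k0 lam = n * (κ * (1 / (1 - 1 / (n : ℝ)) ^ c) *
        ((1 - κ / n) ^ (l - c - k0 - 2) * l' / (κ * ((l - c - k0 - 2 : ℕ) : ℝ) - S) + 2 * Real.exp (-lam))) := by
      simp only [qp, ← hκdef, ← hS]
      ring
    rw [hq]
    -- the exponential part
    have hx1 : 4 * (n * Real.exp (-lam)) ≤ 1 := by
      have h1 : (n : ℝ) ≤ ((c : ℝ) ^ 2 + 1) * x := by
        have h2 : ρ * l ≤ (c : ℝ) ^ 2 * x := mul_le_mul hρ2 hl2' hL0.le (by positivity)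
        linarith
      have h3 : (n : ℝ) * Real.exp (-lam) ≤ ((c : ℝ) ^ 2 + 1) * x * Real.exp (-lam) :=
        mul_le_mul_of_nonneg_right h1 (Real.exp_pos _).le
      linarith
    set E8 : ℝ := Real.exp (-(1 / (8 * (c : ℝ) ^ 2))) with hE8
    set E5 : ℝ := Real.exp (-(1 / (5 * (c : ℝ) ^ 2))) with hE5
    have hρl' : 0 ≤ ρ * l' := by positivity
    have h12 : (1 + η) ^ 2 * (1 + 4 * η) * E5 * (ρ * l') ≤ (E8 - (E8 - E5) / 2) * (ρ * l') :=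
      mul_le_mul_of_nonneg_right F12 hρl'
    have hl6 : (l : ℝ) / 6 ≤ l' := by linarith
    have h13 : x ^ (997 / 1000 : ℝ) ≤ 120 * (ρ * l') := by
      have : ρ * (l / 6) ≤ ρ * l' := mul_le_mul_of_nonneg_left hl6 hρ0.le
      linarith
    have h14 : 2 * P51 ≤ (E8 - E5) / 2 * (ρ * l') := by
      have h15 : 2 * 240 / (E8 - E5) * P51 ≤ 120 * (ρ * l') := F13.trans h13
      have h16 : 2 * 240 / (E8 - E5) * P51 = 480 * P51 / (E8 - E5) := by ring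
      rw [h16, div_le_iff₀ hg] at h15
      linarith
    have h17 : E8 * ρ * l' ≤ n' := by rw [hn']; exact Nat.le_ceil _
    have h18 : (E8 - (E8 - E5) / 2) * (ρ * l') = E8 * ρ * l' - (E8 - E5) / 2 * (ρ * l') := by ring
    linarith


end Pool.Agent.H65.GI
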