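/-
ROW Nmc. The parameter sequences of the nibble.
PROOF. `x = (Δ : ℝ)`, `ε = 1/(20000 c^2)`, `lam = x^ε`, `k0 = ⌈x^(1/500)⌉`, `l t = s / 5^t` (natural division; `l (t+1) = l t / 5` by `Nat.div_div_eq_div_mul`), `ρ t = c^2 exp (-t/(8c^2))`, `n t = ⌈ρ t * l t⌉`, `T0 = ⌈8 c^2 log (10 c^2 lam)⌉`, `bf = ⌊l T0 / (4 lam)⌋`, `bm = ⌊x^(1 - 1/500)⌋`.
(1) `ρ T0 ≤ 1/(10 lam)`, and for `t ≤ T0`: `ρ t ≥ ρ T0 ≥ exp (-1/(8c^2))/(10 lam) ≥ 1/(20 lam)`, `ρ t ≤ c^2`; `1 ≤ T0`. (2) `T0 ≤ 8 c^2 (ε log x + log (10 c^2)) + 1`, so `5^T0 ≤ exp (1.62 T0) ≤ const x^(13 c^2 ε) = const x^(13/20000) ≤ x^(1/1000)/(10 c)`,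
so for `t ≤ T0` `l t ≥ s/5^t - 1 ≥ x/(c 5^T0) - 1 ≥ x^(998/1000)` (also `l t ≤ s ≤ Δ`, `l t ≥ 1`). (3) for `t < T0` apply `nmb` with `l = l t`, `ρ = ρ t`: `l' = l (t+1)`, `n' = ⌈exp (-1/(8c^2)) ρ t l(t+1)⌉ = n (t+1)` (`ρ (t+1) = exp (-1/(8c^2)) ρ t`), and `2 ≤ n t`; `n T0 ≥ ρ T0 l T0 ≥ 2`.
(4) `n 0 = c^2 s ≥ c Δ`. (5) `hk0`: `n t ≥ l t/(20 lam) ≥ s/(40 lam 5^t)` so `3 s c/n t + 2 lam ≤ 120 c lam 5^T0 + 2 lam ≤ x^(1/500) ≤ k0`. (6) `hcol`: `bf ≤ l T0/(4 lam)`, `bf ≥ l T0/(4 lam) - 1 ≥ l T0/(5 lam)`, `kap bf (n T0) ≥ 1 - n T0/bf ≥ 1 - (l T0/(10 lam) + 1) 5 lam/(l T0) ≥ 2/5` (`kap_lin`), `(l T0 - c)/bf ≥ 4 lam (1 - c/l T0) ≥ 3 lam`;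
product `≥ (6/5) lam`. (7) `bm ≤ n t`, `bm ≤ bf`: both are `≥ x^(998/1000)/(20 lam)/2 ≥ x^(1-1/500)` -- use `l t ≥ x/(2 c 5^T0) ≥ x^(1 - 1/1000)` from (2), so `n t, bf ≥ x^(999/1000)/(20 lam) ≥ x^(998/1000)`; `x^(1 - 1/500) = x^(998/1000)`. (8) error: `x/bm ≤ 2 x^(1/500)`, `T0 + 1 ≤ lam`, so for `g ≥ 1` (`sqrt (8 g lam) = sqrt (8 lam) sqrt g`):
`(T0+1) ((3 x/bm + 2 lam) sqrt (8 lam) sqrt g + g x exp (-lam) + (1/bm) 2 x sqrt (8 lam) sqrt g) ≤ lam (20 x^(1/500) + 2 lam) 3 lam sqrt g + 1 ≤ x^(1/100) sqrt g` (`g ≤ x^3`, `exp (-lam) ≤ x^(-10)`). (9) `(T0+1)/s ≤ lam c/x ≤ x^(1/100)/x`. (10) `cc (n 0) (n 0) s ≥ (1 - exp (-(1/4) s/(c^2 s)))/s ≥ (1/(8c^2))/Δ`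
(`cc_ge`, `kap_quarter`, `1 - exp (-y) ≥ y/2` for `0 ≤ y ≤ 1`). (11) LLL: the sum is `≤ x^10` and `exp (-lam)` beats every power.
-/
import Pool.Agent.H65.GI.Nmb

set_option autoImplicit false

namespace Pool.Agent.H65.GI

open Finset Classical

theorem Nmc_log5 : Real.log 5 ≤ 1.62 := by
  have h1 : (5 : ℝ) ^ 3 ≤ 2 ^ 7 := by norm_num
  have h2 := Real.log_le_log (by norm_num) h1
  rw [Real.log_pow, Real.log_pow] at h2
  have h3 := Real.log_two_lt_d9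
  push_cast at h2
  linarith

theorem Nmc_evA (c : ℕ) (hc : 1 ≤ c) : ∀ᶠ y : ℝ in Filter.atTop,
    1000 * (c : ℝ) ^ 2 * y ^ (1 / (20000 * (c : ℝ) ^ 2)) *
      (5 * (10 * (c : ℝ) ^ 2 * y ^ (1 / (20000 * (c : ℝ) ^ 2))) ^ (12.96 * (c : ℝ) ^ 2)) ≤
      y ^ (1 / 1000 : ℝ) := by
  have hc' : (1 : ℝ) ≤ c := by exact_mod_cast hc
  obtain ⟨e, he⟩ : ∃ e : ℝ, e = 1 / (20000 * (c : ℝ) ^ 2) := ⟨_, rfl⟩
  have hc2 : (1 : ℝ) ≤ (c : ℝ) ^ 2 := one_le_pow₀ hc'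
  have he0 : 0 < e := by rw [he]; positivity
  have he1 : e ≤ 0.00005 := by
    rw [he, div_le_iff₀ (by positivity)]
    linarith
  have he2 : e * (12.96 * (c : ℝ) ^ 2) = 0.000648 := by
    rw [he]
    field_simp
    norm_num
  obtain ⟨δ, hδ⟩ : ∃ δ : ℝ, δ = 1 / 1000 - (e + 0.000648) := ⟨_, rfl⟩
  have hδ0 : 0 < δ := by rw [hδ]; linarith
  obtain ⟨C, hC⟩ : ∃ C : ℝ, C = 1000 * (c : ℝ) ^ 2 * (5 * (10 * (c : ℝ) ^ 2) ^ (12.96 * (c : ℝ) ^ 2)) :=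
    ⟨_, rfl⟩
  filter_upwards [(tendsto_rpow_atTop hδ0).eventually_ge_atTop C,
    Filter.eventually_ge_atTop (1 : ℝ)] with y hy1 hy2
  have hy0 : 0 < y := by linarith
  rw [← he, Real.mul_rpow (by positivity) (Real.rpow_nonneg hy0.le _), ← Real.rpow_mul hy0.le, he2]
  have h1 : 1000 * (c : ℝ) ^ 2 * y ^ e *
      (5 * ((10 * (c : ℝ) ^ 2) ^ (12.96 * (c : ℝ) ^ 2) * y ^ (0.000648 : ℝ))) =
      C * (y ^ e * y ^ (0.000648 : ℝ)) := by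
    rw [hC]; ring
  rw [h1, ← Real.rpow_add hy0]
  have h2 : y ^ (1 / 1000 : ℝ) = y ^ δ * y ^ (e + 0.000648) := by
    rw [← Real.rpow_add hy0, hδ]
    congr 1
    ring
  rw [h2]
  exact mul_le_mul_of_nonneg_right hy1 (Real.rpow_nonneg hy0.le _)

theorem Nmc_evB (a K : ℝ) (ha : 0 < a) (hK : 0 < K) : ∀ᶠ w : ℝ in Filter.atTop,
    a * Real.log (K * w) + 2 ≤ w := by
  have h1 := Real.isLittleO_log_id_atTop.def (c := 1 / (2 * a)) (by positivity)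
  filter_upwards [h1, Filter.eventually_ge_atTop (1 : ℝ),
    Filter.eventually_ge_atTop (2 * (a * Real.log K + 2))] with w h2 h3 h4
  have hw : 0 < w := by linarith
  rw [Real.log_mul hK.ne' hw.ne']
  have h5 : Real.log w ≤ 1 / (2 * a) * w := by
    have h6 : ‖id w‖ = w := by
      rw [id, Real.norm_eq_abs, abs_of_pos hw]
    rw [h6] at h2
    exact (le_abs_self _).trans h2
  have h7 : a * Real.log w ≤ w / 2 := by
    calc a * Real.log w ≤ a * (1 / (2 * a) * w) := mul_le_mul_of_nonneg_left h5 ha.le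
      _ = w / 2 := by field_simp
  linarith

theorem Nmc_evD (c : ℕ) (e : ℝ) (he : 0 < e) : ∀ᶠ y : ℝ in Filter.atTop,
    2 ^ 30 * (c : ℝ) * y ^ 28 * Real.exp (-(y ^ e)) ≤ 1 := by
  have h1 := tendsto_rpow_mul_exp_neg_mul_atTop_nhds_zero (28 / e) 1 one_pos
  have h2 : Filter.Tendsto (fun w : ℝ => 2 ^ 30 * (c : ℝ) * (w ^ (28 / e) * Real.exp (-1 * w)))
      Filter.atTop (nhds (2 ^ 30 * (c : ℝ) * 0)) := h1.const_mul _
  rw [mul_zero] at h2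
  have h3 := h2.eventually_le_const (zero_lt_one' ℝ)
  have h4 := (tendsto_rpow_atTop he).eventually h3
  filter_upwards [h4, Filter.eventually_ge_atTop (1 : ℝ)] with y h5 h6
  have hy : 0 < y := by linarith
  have h7 : (y ^ e) ^ (28 / e) = y ^ 28 := by
    rw [← Real.rpow_mul hy.le]
    have h8 : e * (28 / e) = ((28 : ℕ) : ℝ) := by
      field_simp
      norm_num
    rw [h8, Real.rpow_natCast]
  rw [h7] at h5
  have h9 : -1 * y ^ e = -(y ^ e) := by ring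
  rw [h9] at h5
  calc 2 ^ 30 * (c : ℝ) * y ^ 28 * Real.exp (-(y ^ e))
      = 2 ^ 30 * (c : ℝ) * (y ^ 28 * Real.exp (-(y ^ e))) := by ring
    _ ≤ 1 := h5

theorem Nmc_ev (c : ℕ) (hc : 1 ≤ c) : ∃ D1 : ℕ, ∀ Δ : ℕ, D1 ≤ Δ → ∀ (lam : ℝ) (T0 : ℕ),
    lam = (Δ : ℝ) ^ (1 / (20000 * (c : ℝ) ^ 2)) →
    T0 = ⌈8 * (c : ℝ) ^ 2 * Real.log (10 * (c : ℝ) ^ 2 * lam)⌉₊ →
    1 ≤ (Δ : ℝ) ∧ 1 ≤ lam ∧
    1000 * (c : ℝ) ^ 2 * lam * 5 ^ T0 ≤ (Δ : ℝ) ^ (1 / 1000 : ℝ) ∧ (T0 : ℝ) + 1 ≤ lam ∧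
    2 ^ 30 * (c : ℝ) * (Δ : ℝ) ^ 28 * Real.exp (-lam) ≤ 1 := by
  have hc' : (1 : ℝ) ≤ c := by exact_mod_cast hc
  have hc2 : (1 : ℝ) ≤ (c : ℝ) ^ 2 := one_le_pow₀ hc'
  have he0 : 0 < 1 / (20000 * (c : ℝ) ^ 2) := by positivity
  have hB := (tendsto_rpow_atTop he0).eventually
    (Nmc_evB (8 * (c : ℝ) ^ 2) (10 * (c : ℝ) ^ 2) (by positivity) (by positivity))
  have hall := ((Filter.eventually_ge_atTop (1 : ℝ)).and
    ((Nmc_evA c hc).and (hB.and (Nmc_evD c _ he0))))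
  have hnat := tendsto_natCast_atTop_atTop (R := ℝ) |>.eventually hall
  obtain ⟨D1, hD1⟩ := Filter.eventually_atTop.mp hnat
  refine ⟨D1, fun Δ hΔ lam T0 hlam hT0 => ?_⟩
  obtain ⟨h1, hA, hB', hD⟩ := hD1 Δ hΔ
  rw [← hlam] at hA hB' hD
  have hl1 : 1 ≤ lam := by rw [hlam]; exact Real.one_le_rpow h1 he0.le
  have hK : 1 ≤ 10 * (c : ℝ) ^ 2 * lam := by
    have : (1 : ℝ) * 1 ≤ (c : ℝ) ^ 2 * lam := mul_le_mul hc2 hl1 zero_le_one (by linarith)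
    linarith
  have hu : 0 ≤ 8 * (c : ℝ) ^ 2 * Real.log (10 * (c : ℝ) ^ 2 * lam) :=
    mul_nonneg (by positivity) (Real.log_nonneg hK)
  have hT1 : (T0 : ℝ) < 8 * (c : ℝ) ^ 2 * Real.log (10 * (c : ℝ) ^ 2 * lam) + 1 := by
    rw [hT0]; exact Nat.ceil_lt_add_one hu
  refine ⟨h1, hl1, ?_, by linarith, hD⟩
  refine le_trans ?_ hA
  apply mul_le_mul_of_nonneg_left _ (by positivity)
  have h5 : (5 : ℝ) ^ T0 = Real.exp (T0 * Real.log 5) := by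
    rw [mul_comm, Real.exp_mul, Real.exp_log (by norm_num), Real.rpow_natCast]
  rw [h5]
  have hlog5 := Nmc_log5
  have hlog5' : 0 < Real.log 5 := Real.log_pos (by norm_num)
  have h6 : (T0 : ℝ) * Real.log 5 ≤ Real.log 5 +
      Real.log (10 * (c : ℝ) ^ 2 * lam) * (12.96 * (c : ℝ) ^ 2) := by
    have h7 : (T0 : ℝ) * Real.log 5 ≤
        (8 * (c : ℝ) ^ 2 * Real.log (10 * (c : ℝ) ^ 2 * lam) + 1) * Real.log 5 :=
      mul_le_mul_of_nonneg_right hT1.le hlog5'.le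
    have h8 : (8 * (c : ℝ) ^ 2 * Real.log (10 * (c : ℝ) ^ 2 * lam)) * Real.log 5 ≤
        (8 * (c : ℝ) ^ 2 * Real.log (10 * (c : ℝ) ^ 2 * lam)) * 1.62 :=
      mul_le_mul_of_nonneg_left hlog5 hu
    calc (T0 : ℝ) * Real.log 5 ≤ _ := h7
      _ = (8 * (c : ℝ) ^ 2 * Real.log (10 * (c : ℝ) ^ 2 * lam)) * Real.log 5 + Real.log 5 := by ring
      _ ≤ (8 * (c : ℝ) ^ 2 * Real.log (10 * (c : ℝ) ^ 2 * lam)) * 1.62 + Real.log 5 := by linarith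
      _ = Real.log 5 + Real.log (10 * (c : ℝ) ^ 2 * lam) * (12.96 * (c : ℝ) ^ 2) := by ring
  refine (Real.exp_le_exp.mpr h6).trans (le_of_eq ?_)
  rw [Real.exp_add, Real.exp_log (by norm_num), Real.exp_mul, Real.exp_log (by linarith)]

theorem Nmc_rho (c : ℕ) (hc : 1 ≤ c) (lam : ℝ) (hl1 : 1 ≤ lam) (T0 : ℕ)
    (hT0 : T0 = ⌈8 * (c : ℝ) ^ 2 * Real.log (10 * (c : ℝ) ^ 2 * lam)⌉₊) :
    1 ≤ T0 ∧ (c : ℝ) ^ 2 * Real.exp (-(T0 / (8 * (c : ℝ) ^ 2))) ≤ 1 / (10 * lam) ∧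
    ∀ t : ℕ, t ≤ T0 → 1 / (20 * lam) ≤ (c : ℝ) ^ 2 * Real.exp (-(t / (8 * (c : ℝ) ^ 2))) ∧
      (c : ℝ) ^ 2 * Real.exp (-(t / (8 * (c : ℝ) ^ 2))) ≤ (c : ℝ) ^ 2 := by
  have hc' : (1 : ℝ) ≤ c := by exact_mod_cast hc
  have hc2 : (1 : ℝ) ≤ (c : ℝ) ^ 2 := one_le_pow₀ hc'
  obtain ⟨C, hC⟩ : ∃ C : ℝ, C = (c : ℝ) ^ 2 := ⟨_, rfl⟩
  rw [← hC] at hc2 hT0 ⊢
  have hC0 : 0 < C := by linarith
  have hK : 10 ≤ 10 * C * lam := by
    have : (1 : ℝ) * 1 ≤ C * lam := mul_le_mul hc2 hl1 zero_le_one (by linarith)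
    linarith
  have hlog : 0 < Real.log (10 * C * lam) := Real.log_pos (by linarith)
  have hu : 0 < 8 * C * Real.log (10 * C * lam) := by positivity
  have hT1 : (T0 : ℝ) < 8 * C * Real.log (10 * C * lam) + 1 := by
    rw [hT0]; exact Nat.ceil_lt_add_one hu.le
  have hT2 : 8 * C * Real.log (10 * C * lam) ≤ T0 := by
    rw [hT0]; exact Nat.le_ceil _
  have he : Real.exp (-Real.log (10 * C * lam)) = 1 / (10 * C * lam) := by
    rw [Real.exp_neg, Real.exp_log (by linarith), one_div]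
  refine ⟨?_, ?_, ?_⟩
  · rw [hT0]
    exact Nat.ceil_pos.mpr hu
  · have h1 : Real.exp (-(T0 / (8 * C))) ≤ Real.exp (-Real.log (10 * C * lam)) := by
      apply Real.exp_le_exp.mpr
      rw [neg_le_neg_iff, le_div_iff₀ (by positivity)]
      linarith
    rw [he] at h1
    calc C * Real.exp (-(T0 / (8 * C))) ≤ C * (1 / (10 * C * lam)) :=
          mul_le_mul_of_nonneg_left h1 hC0.le
      _ = 1 / (10 * lam) := by field_simp
  · intro t ht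
    have ht' : (t : ℝ) ≤ T0 := by exact_mod_cast ht
    constructor
    · have h1 : Real.exp (-Real.log (10 * C * lam) + -(1 / (8 * C))) ≤
          Real.exp (-(t / (8 * C))) := by
        apply Real.exp_le_exp.mpr
        have h2 : (t : ℝ) / (8 * C) ≤ Real.log (10 * C * lam) + 1 / (8 * C) := by
          rw [div_le_iff₀ (by positivity)]
          have h3 : (Real.log (10 * C * lam) + 1 / (8 * C)) * (8 * C) =
              8 * C * Real.log (10 * C * lam) + 1 := by field_simp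
          rw [h3]
          linarith
        linarith
      rw [Real.exp_add, he] at h1
      have h4 : (1 : ℝ) / 2 ≤ Real.exp (-(1 / (8 * C))) := by
        have h5 := Real.add_one_le_exp (-(1 / (8 * C)))
        have h6 : 1 / (8 * C) ≤ 1 / 2 := by
          rw [div_le_div_iff₀ (by positivity) (by norm_num)]
          linarith
        linarith
      have h7 : 1 / (10 * C * lam) * (1 / 2) ≤ Real.exp (-(t / (8 * C))) :=
        (mul_le_mul_of_nonneg_left h4 (by positivity)).trans h1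
      calc 1 / (20 * lam) = C * (1 / (10 * C * lam) * (1 / 2)) := by field_simp; norm_num
        _ ≤ _ := mul_le_mul_of_nonneg_left h7 hC0.le
    · have h1 : Real.exp (-(t / (8 * C))) ≤ 1 := by
        rw [Real.exp_le_one_iff, neg_nonpos]
        positivity
      calc C * Real.exp (-(t / (8 * C))) ≤ C * 1 := mul_le_mul_of_nonneg_left h1 hC0.le
        _ = C := mul_one C

theorem Nmc_l (c s t T0 : ℕ) (hc : 1 ≤ c) (ht : t ≤ T0) (lam z Q : ℝ) (hl : 1 ≤ lam)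
    (hz : 1 ≤ z) (hQ : 1 ≤ Q) (hs : Q * z ^ 2 ≤ c * s)
    (hA : 1000 * (c : ℝ) ^ 2 * lam * 5 ^ T0 ≤ z) :
    999 * lam * Q * z ≤ ((s / 5 ^ t : ℕ) : ℝ) ∧ (s : ℝ) ≤ 5 ^ T0 * (((s / 5 ^ t : ℕ) : ℝ) + 1) := by
  have hc' : (1 : ℝ) ≤ c := by exact_mod_cast hc
  have h1 : s < 5 ^ t * (s / 5 ^ t + 1) := Nat.lt_mul_div_succ s (by positivity)
  have h2 : (s : ℝ) ≤ 5 ^ t * (((s / 5 ^ t : ℕ) : ℝ) + 1) := by
    have : (s : ℝ) < ((5 ^ t * (s / 5 ^ t + 1) : ℕ) : ℝ) := by exact_mod_cast h1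
    push_cast at this
    push_cast
    linarith
  have h3 : (5 : ℝ) ^ t ≤ 5 ^ T0 := pow_le_pow_right₀ (by norm_num) ht
  obtain ⟨L, hL⟩ : ∃ L : ℝ, L = ((s / 5 ^ t : ℕ) : ℝ) := ⟨_, rfl⟩
  obtain ⟨F, hF⟩ : ∃ F : ℝ, F = 5 ^ T0 := ⟨_, rfl⟩
  have hL0 : 0 ≤ L := by rw [hL]; positivity
  rw [← hL] at h2 ⊢
  rw [← hF] at h3 hA ⊢
  have h4 : (s : ℝ) ≤ F * (L + 1) := h2.trans (mul_le_mul_of_nonneg_right h3 (by linarith))
  refine ⟨?_, h4⟩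
  have h5 : Q * z ^ 2 ≤ c * (F * (L + 1)) := hs.trans (mul_le_mul_of_nonneg_left h4 (by linarith))
  have h6 : 1000 * c * lam * (Q * z ^ 2) ≤ z * (L + 1) := by
    calc 1000 * c * lam * (Q * z ^ 2) ≤ 1000 * c * lam * (c * (F * (L + 1))) :=
          mul_le_mul_of_nonneg_left h5 (by positivity)
      _ = (1000 * (c : ℝ) ^ 2 * lam * F) * (L + 1) := by ring
      _ ≤ z * (L + 1) := mul_le_mul_of_nonneg_right hA (by linarith)
  have h7 : z * (1000 * c * lam * Q * z) ≤ z * (L + 1) := by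
    calc z * (1000 * c * lam * Q * z) = 1000 * c * lam * (Q * z ^ 2) := by ring
      _ ≤ _ := h6
  have h8 : 1000 * c * lam * Q * z ≤ L + 1 := le_of_mul_le_mul_left h7 (by linarith)
  have h9 : (1 : ℝ) ≤ lam * Q * z := by
    have a1 : (1 : ℝ) ≤ lam * Q := by nlinarith
    nlinarith
  have h10 : 1 * (1000 * (lam * Q * z)) ≤ c * (1000 * (lam * Q * z)) :=
    mul_le_mul_of_nonneg_right hc' (by linarith)
  have h11 : c * (1000 * (lam * Q * z)) = 1000 * c * lam * Q * z := by ring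
  have h12 : 999 * lam * Q * z = 999 * (lam * Q * z) := by ring
  rw [h12]
  linarith

theorem Nmc_k0 (c s l n F lam z : ℝ) (hc : 1 ≤ c) (hs : s ≤ F * (l + 1)) (hl : 1 ≤ l)
    (hn : l ≤ 20 * lam * n) (hn0 : 0 < n) (hlam : 1 ≤ lam) (hF : 1 ≤ F) (hz : 1 ≤ z)
    (hA : 1000 * c ^ 2 * lam * F ≤ z) : 3 * (s * c / n) + 2 * lam ≤ z ^ 2 := by
  have h1 : s ≤ F * (2 * (20 * lam * n)) :=
    hs.trans (mul_le_mul_of_nonneg_left (by linarith) (by linarith))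
  have h2 : s * c / n ≤ 40 * (c * (F * lam)) := by
    rw [div_le_iff₀ hn0]
    calc s * c ≤ F * (2 * (20 * lam * n)) * c := mul_le_mul_of_nonneg_right h1 (by linarith)
      _ = 40 * (c * (F * lam)) * n := by ring
  have hFl : 1 ≤ F * lam := by nlinarith
  have h3 : c * (F * lam) ≤ c ^ 2 * (F * lam) := by
    apply mul_le_mul_of_nonneg_right _ (by linarith)
    nlinarith
  have h4 : lam ≤ c ^ 2 * (F * lam) := by
    have a1 : lam ≤ F * lam := by nlinarith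
    have a2 : 1 * (F * lam) ≤ c ^ 2 * (F * lam) := by
      apply mul_le_mul_of_nonneg_right _ (by linarith)
      nlinarith
    linarith
  have h5 : 1000 * c ^ 2 * lam * F = 1000 * (c ^ 2 * (F * lam)) := by ring
  rw [h5] at hA
  nlinarith

theorem Nmc_col (c l nT bf : ℕ) (hc : 1 ≤ c) (lam z Q : ℝ) (hlam : 1 ≤ lam) (hz : 1000 * c ≤ z)
    (hQ : 1 ≤ Q) (hbf : bf = ⌊(l : ℝ) / (4 * lam)⌋₊) (hl : 999 * lam * Q * z ≤ l)
    (hn : (nT : ℝ) ≤ l / (10 * lam) + 1) :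
    2 ≤ bf ∧ 200 * (Q * z) ≤ bf ∧ lam ≤ kap bf nT * ((l - c : ℕ) : ℝ) / bf := by
  have hc' : (1 : ℝ) ≤ c := by exact_mod_cast hc
  have hz1 : 1000 ≤ z := by linarith
  obtain ⟨w, hw⟩ : ∃ w : ℝ, w = (l : ℝ) / (4 * lam) := ⟨_, rfl⟩
  rw [← hw] at hbf
  have hlw : (l : ℝ) = w * (4 * lam) := by rw [hw]; field_simp
  have hQz : 1000 ≤ Q * z := by nlinarith
  have hw1 : 249 * (Q * z) ≤ w := by
    have h1 : (249 * (Q * z)) * (4 * lam) ≤ w * (4 * lam) := by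
      rw [← hlw]
      have : (249 * (Q * z)) * (4 * lam) = 996 * (lam * (Q * z)) := by ring
      have h2 : 999 * lam * Q * z = 999 * (lam * (Q * z)) := by ring
      have h3 : 0 ≤ lam * (Q * z) := by positivity
      linarith
    exact le_of_mul_le_mul_right h1 (by linarith)
  have hw0 : 0 ≤ w := by linarith
  have hb1 : (bf : ℝ) ≤ w := by rw [hbf]; exact Nat.floor_le hw0
  have hb2 : w < bf + 1 := by rw [hbf]; exact Nat.lt_floor_add_one w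
  have hb3 : 200 * (Q * z) ≤ bf := by linarith
  have hb4 : (2 : ℝ) ≤ bf := by linarith
  have hb5 : 2 ≤ bf := by exact_mod_cast hb4
  refine ⟨hb5, hb3, ?_⟩
  have hb0 : (0 : ℝ) < bf := by linarith
  have h1 : (nT : ℝ) / bf ≤ 3 / 5 := by
    rw [div_le_iff₀ hb0]
    have h2 : (l : ℝ) / (10 * lam) = 2 / 5 * w := by
      rw [hlw, div_eq_iff (by positivity)]; ring
    rw [h2] at hn
    linarith
  have h2 := kap_lin bf nT (by omega)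
  have h3 : 2 / 5 ≤ kap bf nT := by linarith
  have hlc : (4 : ℝ) * c ≤ l := by
    have a1 : 999 * lam * Q * z = 999 * (lam * (Q * z)) := by ring
    have a2 : Q * z ≤ lam * (Q * z) := by nlinarith
    have a3 : z ≤ Q * z := by nlinarith
    linarith
  have hcl : c ≤ l := by
    have : (c : ℝ) ≤ l := by linarith
    exact_mod_cast this
  rw [Nat.cast_sub hcl, le_div_iff₀ hb0]
  have h4 : 3 / 4 * (l : ℝ) ≤ l - c := by linarith
  have h5 : 2 / 5 * (3 / 4 * (l : ℝ)) ≤ kap bf nT * (l - c) :=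
    mul_le_mul h3 h4 (by positivity) (by linarith)
  calc lam * bf ≤ lam * w := mul_le_mul_of_nonneg_left hb1 (by linarith)
    _ ≤ 2 / 5 * (3 / 4 * (l : ℝ)) := by
        rw [hlw]
        have : 0 ≤ lam * w := mul_nonneg (by linarith) hw0
        nlinarith
    _ ≤ _ := h5

theorem Nmc_x (x Q z bm : ℝ) (hx : x = Q * z ^ 2) (hQ : 2 ≤ Q) (hbm : Q - 1 ≤ bm) :
    x / bm ≤ 2 * z ^ 2 := by
  have h1 : Q / 2 ≤ bm := by linarith
  rw [div_le_iff₀ (by linarith)]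
  calc x = 2 * z ^ 2 * (Q / 2) := by rw [hx]; ring
    _ ≤ 2 * z ^ 2 * bm := mul_le_mul_of_nonneg_left h1 (by positivity)

theorem Nmc_err (x Q z bm lam T g : ℝ) (hx : x = Q * z ^ 2) (hQ : 2 ≤ Q) (hbm : Q - 1 ≤ bm)
    (hlam : 1 ≤ lam) (hz : 1000 * lam ≤ z) (hT : T + 1 ≤ lam) (hT0 : 0 ≤ T) (hx1 : 1 ≤ x)
    (hg1 : 1 ≤ g) (hg : g ≤ x ^ 3) (hD : x ^ 4 * Real.exp (-lam) ≤ 1) :
    (T + 1) * ((3 * (x / bm) + 2 * lam) * Real.sqrt (8 * g * lam) +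
      g * (x * Real.exp (-lam)) + 1 / bm * (2 * x * Real.sqrt (8 * g * lam))) ≤
      z ^ 10 * Real.sqrt g := by
  have h1 := Nmc_x x Q z bm hx hQ hbm
  have hbm0 : 0 < bm := by linarith
  have hz1 : 1000 ≤ z := by linarith
  obtain ⟨S, hS⟩ : ∃ S : ℝ, S = Real.sqrt g := ⟨_, rfl⟩
  have hS1 : 1 ≤ S := by rw [hS]; exact Real.one_le_sqrt.mpr hg1
  have h2 : Real.sqrt (8 * g * lam) ≤ 3 * lam * S := by
    have e1 : 8 * g * lam = 8 * lam * g := by ring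
    rw [e1, Real.sqrt_mul (by positivity), ← hS]
    apply mul_le_mul_of_nonneg_right _ (by linarith)
    rw [Real.sqrt_le_left (by positivity)]
    nlinarith
  rw [← hS]
  obtain ⟨R, hR⟩ : ∃ R : ℝ, R = Real.sqrt (8 * g * lam) := ⟨_, rfl⟩
  have hR0 : 0 ≤ R := by rw [hR]; exact Real.sqrt_nonneg _
  rw [← hR] at h2 ⊢
  have h3 : g * (x * Real.exp (-lam)) ≤ S := by
    have a1 : 0 ≤ x * Real.exp (-lam) := mul_nonneg (by linarith) (Real.exp_pos _).le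
    calc g * (x * Real.exp (-lam)) ≤ x ^ 3 * (x * Real.exp (-lam)) :=
          mul_le_mul_of_nonneg_right hg a1
      _ = x ^ 4 * Real.exp (-lam) := by ring
      _ ≤ 1 := hD
      _ ≤ S := hS1
  have h4 : 1 / bm * (2 * x * R) ≤ 4 * z ^ 2 * R := by
    calc 1 / bm * (2 * x * R) = 2 * (x / bm) * R := by ring
      _ ≤ 2 * (2 * z ^ 2) * R := mul_le_mul_of_nonneg_right (by linarith) hR0
      _ = 4 * z ^ 2 * R := by ring
  have h5 : (3 * (x / bm) + 2 * lam) * R ≤ (6 * z ^ 2 + 2 * lam) * R :=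
    mul_le_mul_of_nonneg_right (by linarith) hR0
  have h6 : (3 * (x / bm) + 2 * lam) * R + g * (x * Real.exp (-lam)) + 1 / bm * (2 * x * R) ≤
      (10 * z ^ 2 + 2 * lam) * (3 * lam * S) + S := by
    have a1 : (10 * z ^ 2 + 2 * lam) * R ≤ (10 * z ^ 2 + 2 * lam) * (3 * lam * S) :=
      mul_le_mul_of_nonneg_left h2 (by positivity)
    have a2 : (6 * z ^ 2 + 2 * lam) * R + 4 * z ^ 2 * R = (10 * z ^ 2 + 2 * lam) * R := by ring
    linarith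
  have h7 : 0 ≤ (10 * z ^ 2 + 2 * lam) * (3 * lam * S) + S := by positivity
  have hlz : lam ≤ z := by linarith
  calc (T + 1) * ((3 * (x / bm) + 2 * lam) * R + g * (x * Real.exp (-lam)) +
        1 / bm * (2 * x * R))
      ≤ (T + 1) * ((10 * z ^ 2 + 2 * lam) * (3 * lam * S) + S) :=
        mul_le_mul_of_nonneg_left h6 (by linarith)
    _ ≤ lam * ((10 * z ^ 2 + 2 * lam) * (3 * lam * S) + S) :=
        mul_le_mul_of_nonneg_right hT h7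
    _ = (lam * ((10 * z ^ 2 + 2 * lam) * (3 * lam) + 1)) * S := by ring
    _ ≤ z ^ 10 * S := by
        apply mul_le_mul_of_nonneg_right _ (by linarith)
        have b1 : (10 * z ^ 2 + 2 * lam) * (3 * lam) + 1 ≤ (10 * z ^ 2 + 2 * z) * (3 * z) + 1 := by
          have : (10 * z ^ 2 + 2 * lam) * (3 * lam) ≤ (10 * z ^ 2 + 2 * z) * (3 * z) :=
            mul_le_mul (by linarith) (by linarith) (by positivity) (by positivity)
          linarith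
        have b2 : (10 * z ^ 2 + 2 * z) * (3 * z) + 1 ≤ 37 * z ^ 3 := by
          have c1 : z ^ 2 ≤ z ^ 3 := pow_le_pow_right₀ (by linarith) (by norm_num)
          have c2 : 1 ≤ z ^ 3 := one_le_pow₀ (by linarith)
          have c3 : (10 * z ^ 2 + 2 * z) * (3 * z) = 30 * z ^ 3 + 6 * z ^ 2 := by ring
          linarith
        have b3 : 37 * z ^ 3 ≤ z ^ 9 := by
          have c1 : 37 ≤ z ^ 6 := by
            calc (37 : ℝ) ≤ z := by linarith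
              _ = z ^ 1 := (pow_one z).symm
              _ ≤ z ^ 6 := pow_le_pow_right₀ (by linarith) (by norm_num)
          calc 37 * z ^ 3 ≤ z ^ 6 * z ^ 3 := mul_le_mul_of_nonneg_right c1 (by positivity)
            _ = z ^ 9 := by ring
        calc lam * ((10 * z ^ 2 + 2 * lam) * (3 * lam) + 1) ≤ z * z ^ 9 :=
              mul_le_mul hlz (by linarith) (by positivity) (by linarith)
          _ = z ^ 10 := by ring

theorem Nmc_lll (c s x lam a d : ℝ) (hc : 1 ≤ c) (hx : 1 ≤ x) (hs : s ≤ x) (hs0 : 0 ≤ s)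
    (ha : a ≤ c * x) (ha0 : 0 ≤ a) (hd : d ≤ c * x) (hd0 : 0 ≤ d)
    (hD : 2 ^ 30 * c * x ^ 28 * Real.exp (-lam) ≤ 1) :
    4 * ((2 + 3 * c * s + (4 + x ^ 3) * a + d) * Real.exp (-lam)) * (x + 1) ^ (2 * 12) ≤ 1 := by
  obtain ⟨E, hE⟩ : ∃ E : ℝ, E = Real.exp (-lam) := ⟨_, rfl⟩
  have hE0 : 0 < E := by rw [hE]; exact Real.exp_pos _
  rw [← hE] at hD ⊢
  have hx4 : x ≤ x ^ 4 := by
    calc x = x ^ 1 := (pow_one x).symm
      _ ≤ x ^ 4 := pow_le_pow_right₀ hx (by norm_num)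
  have h1x : 1 ≤ x ^ 4 := one_le_pow₀ hx
  have hcx : c * x ≤ c * x ^ 4 := mul_le_mul_of_nonneg_left hx4 (by linarith)
  have h1 : 2 + 3 * c * s + (4 + x ^ 3) * a + d ≤ 11 * (c * x ^ 4) := by
    have a1 : 3 * c * s ≤ 3 * (c * x) := by
      have := mul_le_mul_of_nonneg_left hs (by linarith : 0 ≤ 3 * c)
      linarith
    have a2 : (4 + x ^ 3) * a ≤ (4 + x ^ 3) * (c * x) :=
      mul_le_mul_of_nonneg_left ha (by positivity)
    have a3 : (4 + x ^ 3) * (c * x) = 4 * (c * x) + c * x ^ 4 := by ring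
    have a4 : 1 ≤ c * x ^ 4 := by nlinarith
    linarith
  have h2 : (x + 1) ^ (2 * 12) ≤ 2 ^ 24 * x ^ 24 := by
    calc (x + 1) ^ (2 * 12) ≤ (2 * x) ^ (2 * 12) :=
          pow_le_pow_left₀ (by linarith) (by linarith) _
      _ = 2 ^ 24 * x ^ 24 := by rw [mul_pow]
  have h3 : 0 ≤ 2 + 3 * c * s + (4 + x ^ 3) * a + d := by positivity
  calc 4 * ((2 + 3 * c * s + (4 + x ^ 3) * a + d) * E) * (x + 1) ^ (2 * 12)
      ≤ 4 * ((11 * (c * x ^ 4)) * E) * (2 ^ 24 * x ^ 24) := by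
        apply mul_le_mul _ h2 (by positivity) (by positivity)
        apply mul_le_mul_of_nonneg_left _ (by norm_num)
        exact mul_le_mul_of_nonneg_right h1 hE0.le
    _ = (44 * 2 ^ 24) * (c * x ^ 28 * E) := by ring
    _ ≤ 2 ^ 30 * (c * x ^ 28 * E) := by
        apply mul_le_mul_of_nonneg_right (by norm_num) (by positivity)
    _ = 2 ^ 30 * c * x ^ 28 * E := by ring
    _ ≤ 1 := hD

theorem Nmc_cc (c s n0 : ℕ) (hc : 1 ≤ c) (hs : 1 ≤ s) (x : ℝ) (hsx : (s : ℝ) ≤ x)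
    (hn : (n0 : ℝ) = (c : ℝ) ^ 2 * s) (hn2 : 2 ≤ n0) :
    1 / (8 * (c : ℝ) ^ 2) / x ≤ cc n0 n0 s := by
  have hc' : (1 : ℝ) ≤ c := by exact_mod_cast hc
  have hs' : (1 : ℝ) ≤ s := by exact_mod_cast hs
  have hc2 : (1 : ℝ) ≤ (c : ℝ) ^ 2 := one_le_pow₀ hc'
  obtain ⟨C, hC⟩ : ∃ C : ℝ, C = (c : ℝ) ^ 2 := ⟨_, rfl⟩
  rw [← hC] at hc2 hn ⊢
  have h1 := cc_ge n0 n0 s (by omega) hs
  have h2 := kap_quarter n0 hn2
  have h3 : 1 / (4 * C) ≤ kap n0 n0 * s / n0 := by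
    rw [hn]
    have : kap n0 n0 * s / (C * s) = kap n0 n0 / C := by field_simp
    rw [this]
    calc 1 / (4 * C) = 1 / 4 / C := by rw [div_div]
      _ ≤ kap n0 n0 / C := div_le_div_of_nonneg_right h2 (by linarith)
  have h4 : Real.exp (-(kap n0 n0 * s / n0)) ≤ 1 - 1 / (8 * C) := by
    have a1 : Real.exp (-(kap n0 n0 * s / n0)) ≤ Real.exp (-(1 / (4 * C))) :=
      Real.exp_le_exp.mpr (by linarith)
    have a2 : Real.exp (-(1 / (4 * C))) ≤ 1 - 1 / (8 * C) := by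
      obtain ⟨y, hy⟩ : ∃ y : ℝ, y = 1 / (8 * C) := ⟨_, rfl⟩
      have e1 : 1 / (4 * C) = 2 * y := by rw [hy]; field_simp; norm_num
      have hy0 : 0 < y := by rw [hy]; positivity
      have hy1 : y ≤ 1 / 2 := by
        rw [hy, div_le_div_iff₀ (by positivity) (by norm_num)]
        linarith
      rw [e1, ← hy, Real.exp_neg, inv_le_comm₀ (Real.exp_pos _) (by linarith)]
      have a3 := Real.add_one_le_exp (2 * y)
      refine le_trans ?_ a3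
      rw [inv_le_iff_one_le_mul₀ (by linarith)]
      nlinarith
    exact a1.trans a2
  refine le_trans ?_ h1
  calc 1 / (8 * C) / x ≤ 1 / (8 * C) / s :=
        div_le_div_of_nonneg_left (by positivity) (by linarith) hsx
    _ ≤ _ := div_le_div_of_nonneg_right (by linarith) (by linarith)

theorem nmc (c : ℕ) (hc : 1 ≤ c) : ∃ Δ0 : ℕ, ∀ Δ : ℕ, Δ0 ≤ Δ → ∀ s : ℕ, Δ ≤ c * s → s ≤ Δ →
    ∃ (T0 : ℕ) (l n : ℕ → ℕ) (bf k0 bm : ℕ) (lam : ℝ), 1 ≤ T0 ∧ 0 < lam ∧ l 0 = s ∧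
    c * Δ ≤ n 0 ∧ (∀ t ≤ T0, 1 ≤ l t ∧ 2 ≤ n t) ∧ (∀ t < T0, 5 * l (t + 1) ≤ l t) ∧
    (∀ t < T0, (l (t + 1) : ℝ) ≤
      kap (n t) (n t) * (l t - c : ℕ) - Real.sqrt (8 * l t * lam)) ∧
    (∀ t < T0, 3 * ((s : ℝ) * c / n t) + 2 * lam ≤ k0) ∧
    (∀ t < T0, Real.sqrt (8 * l t * lam) < kap (n t) (n t) * (l t - c - k0 - 2 : ℕ)) ∧
    (∀ t < T0, (n t : ℝ) * qp (n t) (n t) (l t) (l (t + 1)) c c k0 lam +
      c * (Real.sqrt (8 * (c * Δ : ℕ) * lam) + c) ≤ n (t + 1)) ∧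
    (∀ a d : ℕ, a ≤ c * Δ → d ≤ c * Δ →
      4 * ((2 + 3 * c * s + (4 + (Δ : ℝ) ^ 3) * a + d) * Real.exp (-lam)) *
        ((Δ : ℝ) + 1) ^ (2 * 12) ≤ 1) ∧
    2 ≤ bf ∧ lam ≤ kap bf (n T0) * (l T0 - c : ℕ) / bf ∧
    1 ≤ bm ∧ bm ≤ bf ∧ (∀ t ≤ T0, bm ≤ n t) ∧
    (∀ g : ℕ, 1 ≤ g → g ≤ Δ ^ 3 →
      (T0 + 1) * ((3 * ((Δ : ℝ) / bm) + 2 * lam) * Real.sqrt (8 * g * lam) +
          g * (Δ * Real.exp (-lam)) + 1 / bm * (2 * Δ * Real.sqrt (8 * g * lam))) ≤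
        (Δ : ℝ) ^ (1 / 100 : ℝ) * Real.sqrt g) ∧
    (T0 + 1) * (3 * (((c * Δ : ℕ) : ℝ) / bm) + 2 * lam) ≤ (Δ : ℝ) ^ (1 / 100 : ℝ) ∧
    ((T0 : ℝ) + 1) / s ≤ (Δ : ℝ) ^ (1 / 100 : ℝ) / Δ ∧
    1 / (8 * (c : ℝ) ^ 2) / Δ ≤ cc (n 0) (n 0) s := by
  obtain ⟨D1, hD1⟩ := Nmc_ev c hc
  obtain ⟨D2, hD2⟩ := nmb c hc
  refine ⟨max D1 D2, fun Δ hΔ s hs1 hs2 => ?_⟩
  have hc' : (1 : ℝ) ≤ c := by exact_mod_cast hc
  have hc2 : (1 : ℝ) ≤ (c : ℝ) ^ 2 := one_le_pow₀ hc'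
  obtain ⟨lam, hlam⟩ : ∃ lam : ℝ, lam = (Δ : ℝ) ^ (1 / (20000 * (c : ℝ) ^ 2)) := ⟨_, rfl⟩
  obtain ⟨T0, hT0⟩ : ∃ T0 : ℕ,
    T0 = ⌈8 * (c : ℝ) ^ 2 * Real.log (10 * (c : ℝ) ^ 2 * lam)⌉₊ := ⟨_, rfl⟩
  obtain ⟨hx1, hl1, hA, hB, hD⟩ := hD1 Δ (le_trans (le_max_left _ _) hΔ) lam T0 hlam hT0
  obtain ⟨hT1, hρ0, hρ⟩ := Nmc_rho c hc lam hl1 T0 hT0
  have hN := hD2 Δ (le_trans (le_max_right _ _) hΔ)
  have hx0 : 0 < (Δ : ℝ) := by linarith
  obtain ⟨z, hz⟩ : ∃ z : ℝ, z = (Δ : ℝ) ^ (1 / 1000 : ℝ) := ⟨_, rfl⟩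
  obtain ⟨Q, hQ⟩ : ∃ Q : ℝ, Q = (Δ : ℝ) ^ (998 / 1000 : ℝ) := ⟨_, rfl⟩
  rw [← hz] at hA
  have hz2 : (Δ : ℝ) ^ (1 / 500 : ℝ) = z ^ 2 := by
    rw [hz, ← Real.rpow_natCast, ← Real.rpow_mul hx0.le]
    congr 1
    norm_num
  have hz10 : (Δ : ℝ) ^ (1 / 100 : ℝ) = z ^ 10 := by
    rw [hz, ← Real.rpow_natCast, ← Real.rpow_mul hx0.le]
    congr 1
    norm_num
  have hxQ : (Δ : ℝ) = Q * z ^ 2 := by
    rw [← hz2, hQ, ← Real.rpow_add hx0]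
    norm_num
  have hzQ : z ≤ Q := by
    rw [hz, hQ]
    exact Real.rpow_le_rpow_of_exponent_le hx1 (by norm_num)
  have hF1 : (1 : ℝ) ≤ 5 ^ T0 := one_le_pow₀ (by norm_num)
  have hzc : 1000 * (c : ℝ) ^ 2 * lam ≤ z := by
    refine le_trans ?_ hA
    exact le_mul_of_one_le_right (by positivity) hF1
  have hzl : 1000 * lam ≤ z := by
    refine le_trans ?_ hzc
    apply mul_le_mul_of_nonneg_right _ (by linarith)
    linarith
  have hz1 : 1000 ≤ z := by linarith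
  have hzcc : 1000 * (c : ℝ) ^ 2 ≤ z := by
    refine le_trans ?_ hzc
    exact le_mul_of_one_le_right (by positivity) hl1
  have hzc1 : 1000 * (c : ℝ) ≤ z := by
    refine le_trans ?_ hzcc
    apply mul_le_mul_of_nonneg_left _ (by norm_num)
    exact le_self_pow₀ hc' (by norm_num)
  have hQ1 : 1000 ≤ Q := by linarith
  have hsx : (s : ℝ) ≤ Δ := by exact_mod_cast hs2
  have hxs : (Δ : ℝ) ≤ c * s := by exact_mod_cast hs1
  have hs0 : (0 : ℝ) < s := by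
    by_contra h
    have h' : (s : ℝ) = 0 := le_antisymm (not_lt.mp h) (Nat.cast_nonneg s)
    rw [h', mul_zero] at hxs
    linarith
  have hs1' : 1 ≤ s := by
    have : 0 < s := by exact_mod_cast hs0
    omega
  have hs3 : Q * z ^ 2 ≤ c * s := by rw [← hxQ]; exact hxs
  obtain ⟨ρ, hρd⟩ : ∃ ρ : ℕ → ℝ, ρ = fun t : ℕ =>
    (c : ℝ) ^ 2 * Real.exp (-(t / (8 * (c : ℝ) ^ 2))) := ⟨_, rfl⟩
  obtain ⟨l, hld⟩ : ∃ l : ℕ → ℕ, l = fun t : ℕ => s / 5 ^ t := ⟨_, rfl⟩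
  obtain ⟨n, hnd⟩ : ∃ n : ℕ → ℕ, n = fun t : ℕ => ⌈ρ t * l t⌉₊ := ⟨_, rfl⟩
  have hρT : ρ T0 ≤ 1 / (10 * lam) := by rw [hρd]; exact hρ0
  have hρa : ∀ t ≤ T0, 1 / (20 * lam) ≤ ρ t := by
    intro t ht; rw [hρd]; exact (hρ t ht).1
  have hρb : ∀ t ≤ T0, ρ t ≤ (c : ℝ) ^ 2 := by
    intro t ht; rw [hρd]; exact (hρ t ht).2
  have hρ0' : ρ 0 = (c : ℝ) ^ 2 := by
    rw [hρd]; simp
  have hρs : ∀ t, ρ (t + 1) = Real.exp (-(1 / (8 * (c : ℝ) ^ 2))) * ρ t := by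
    intro t
    rw [hρd]
    change (c : ℝ) ^ 2 * Real.exp (-(((t + 1 : ℕ) : ℝ) / (8 * (c : ℝ) ^ 2))) =
      Real.exp (-(1 / (8 * (c : ℝ) ^ 2))) *
        ((c : ℝ) ^ 2 * Real.exp (-((t : ℝ) / (8 * (c : ℝ) ^ 2))))
    have e1 : -(((t + 1 : ℕ) : ℝ) / (8 * (c : ℝ) ^ 2)) =
        -(1 / (8 * (c : ℝ) ^ 2)) + -((t : ℝ) / (8 * (c : ℝ) ^ 2)) := by
      push_cast
      ring
    rw [e1, Real.exp_add]
    ring
  have hl0 : l 0 = s := by rw [hld]; simp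
  have hls : ∀ t, l (t + 1) = l t / 5 := by
    intro t
    rw [hld]
    change s / 5 ^ (t + 1) = s / 5 ^ t / 5
    rw [Nat.div_div_eq_div_mul, pow_succ]
  have hla : ∀ t ≤ T0, 999 * lam * Q * z ≤ (l t : ℝ) ∧ (s : ℝ) ≤ 5 ^ T0 * ((l t : ℝ) + 1) := by
    intro t ht
    rw [hld]
    exact Nmc_l c s t T0 hc ht lam z Q hl1 (by linarith) (by linarith) hs3 hA
  have hlQ : ∀ t ≤ T0, Q * z ≤ (l t : ℝ) := by
    intro t ht
    have h1 := (hla t ht).1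
    have h2 : 999 * lam * Q * z = 999 * (lam * (Q * z)) := by ring
    have h3 : Q * z ≤ lam * (Q * z) := le_mul_of_one_le_left (by positivity) hl1
    have h4 : 0 ≤ Q * z := by positivity
    linarith
  have hQz : Q ≤ Q * z := le_mul_of_one_le_right (by linarith) (by linarith)
  have hl1t : ∀ t ≤ T0, (1 : ℝ) ≤ (l t : ℝ) := by
    intro t ht
    have := hlQ t ht
    linarith
  have hle : ∀ t, l t ≤ Δ := by
    intro t
    rw [hld]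
    exact (Nat.div_le_self _ _).trans hs2
  have hnl : ∀ t ≤ T0, (l t : ℝ) ≤ 20 * lam * n t := by
    intro t ht
    have h1 : ρ t * l t ≤ n t := by rw [hnd]; exact Nat.le_ceil _
    have h2 : 1 / (20 * lam) * l t ≤ ρ t * l t :=
      mul_le_mul_of_nonneg_right (hρa t ht) (Nat.cast_nonneg _)
    have h3 : 20 * lam * (1 / (20 * lam) * l t) ≤ 20 * lam * n t :=
      mul_le_mul_of_nonneg_left (h2.trans h1) (by positivity)
    have h4 : 20 * lam * (1 / (20 * lam) * l t) = l t := by field_simp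
    linarith
  have hnQ : ∀ t ≤ T0, 49 * (Q * z) ≤ n t := by
    intro t ht
    have h1 := (hla t ht).1
    have h2 := hnl t ht
    have h3 : 20 * lam * (49 * (Q * z)) ≤ 20 * lam * n t := by
      have a1 : 20 * lam * (49 * (Q * z)) = 980 * (lam * (Q * z)) := by ring
      have a2 : 999 * lam * Q * z = 999 * (lam * (Q * z)) := by ring
      have a3 : 0 ≤ lam * (Q * z) := by positivity
      linarith
    exact le_of_mul_le_mul_left h3 (by positivity)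
  have hn2 : ∀ t ≤ T0, 2 ≤ n t := by
    intro t ht
    have h1 := hnQ t ht
    have : (2 : ℝ) ≤ n t := by linarith
    exact_mod_cast this
  obtain ⟨k0, hk0⟩ : ∃ k0 : ℕ, k0 = ⌈(Δ : ℝ) ^ (1 / 500 : ℝ)⌉₊ := ⟨_, rfl⟩
  obtain ⟨bf, hbf⟩ : ∃ bf : ℕ, bf = ⌊(l T0 : ℝ) / (4 * lam)⌋₊ := ⟨_, rfl⟩
  obtain ⟨bm, hbm⟩ : ∃ bm : ℕ, bm = ⌊Q⌋₊ := ⟨_, rfl⟩
  have hround : ∀ t < T0, 2 ≤ n t ∧ (l (t + 1) : ℝ) ≤ kap (n t) (n t) * (l t - c : ℕ) -
      Real.sqrt (8 * l t * lam) ∧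
      Real.sqrt (8 * l t * lam) < kap (n t) (n t) * (l t - c - k0 - 2 : ℕ) ∧
      (n t : ℝ) * qp (n t) (n t) (l t) (l (t + 1)) c c k0 lam +
        c * (Real.sqrt (8 * (c * Δ : ℕ) * lam) + c) ≤ n (t + 1) := by
    intro t ht
    apply hN (l t) k0 (n t) (l (t + 1)) (n (t + 1)) (ρ t) lam hlam hk0
    · rw [← hQ]
      have := hlQ t ht.le
      linarith
    · exact hle t
    · exact hρa t ht.le
    · exact hρb t ht.le
    · rw [hnd]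
    · exact hls t
    · rw [hnd]
      change ⌈ρ (t + 1) * (l (t + 1) : ℝ)⌉₊ = _
      rw [hρs t]
  have hbmQ : Q - 1 ≤ bm := by
    rw [hbm]
    have := Nat.lt_floor_add_one Q
    linarith
  have hbmQ' : (bm : ℝ) ≤ Q := by rw [hbm]; exact Nat.floor_le (by linarith)
  have hnT : (n T0 : ℝ) ≤ l T0 / (10 * lam) + 1 := by
    have h0 : 0 ≤ ρ T0 * l T0 := by
      have h1 := hρa T0 le_rfl
      have h2 : 0 ≤ 1 / (20 * lam) := by positivity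
      exact mul_nonneg (by linarith) (Nat.cast_nonneg _)
    have h1 : (n T0 : ℝ) < ρ T0 * l T0 + 1 := by rw [hnd]; exact Nat.ceil_lt_add_one h0
    have h2 : ρ T0 * l T0 ≤ 1 / (10 * lam) * l T0 :=
      mul_le_mul_of_nonneg_right hρT (Nat.cast_nonneg _)
    have h3 : 1 / (10 * lam) * (l T0 : ℝ) = l T0 / (10 * lam) := by ring
    linarith
  obtain ⟨hb2, hb3, hb4⟩ := Nmc_col c (l T0) (n T0) bf hc lam z Q hl1 hzc1 (by linarith) hbf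
    (hla T0 le_rfl).1 hnT
  have hD4 : (Δ : ℝ) ^ 4 * Real.exp (-lam) ≤ 1 := by
    refine le_trans ?_ hD
    have a1 : (Δ : ℝ) ^ 4 ≤ (Δ : ℝ) ^ 28 := pow_le_pow_right₀ hx1 (by norm_num)
    have a2 : (1 : ℝ) ≤ 2 ^ 30 * (c : ℝ) := by
      have : (1 : ℝ) ≤ 2 ^ 30 := by norm_num
      calc (1 : ℝ) = 1 * 1 := by norm_num
        _ ≤ 2 ^ 30 * (c : ℝ) := mul_le_mul this hc' zero_le_one (by norm_num)
    apply mul_le_mul_of_nonneg_right _ (Real.exp_pos _).le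
    calc (Δ : ℝ) ^ 4 ≤ (Δ : ℝ) ^ 28 := a1
      _ ≤ 2 ^ 30 * (c : ℝ) * (Δ : ℝ) ^ 28 := le_mul_of_one_le_left (by positivity) a2
  refine ⟨T0, l, n, bf, k0, bm, lam, hT1, by linarith, hl0, ?_, ?_, ?_, ?_, ?_, ?_, ?_, ?_, hb2,
    hb4, ?_, ?_, ?_, ?_, ?_, ?_, ?_⟩
  · -- c Δ ≤ n 0
    have h1 : ρ 0 * l 0 ≤ n 0 := by rw [hnd]; exact Nat.le_ceil _
    rw [hρ0', hl0] at h1
    have h2 : ((c * Δ : ℕ) : ℝ) ≤ n 0 := by
      push_cast
      calc (c : ℝ) * Δ ≤ c * (c * s) := mul_le_mul_of_nonneg_left hxs (by linarith)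
        _ = (c : ℝ) ^ 2 * s := by ring
        _ ≤ n 0 := h1
    exact_mod_cast h2
  · intro t ht
    refine ⟨?_, hn2 t ht⟩
    have := hl1t t ht
    exact_mod_cast this
  · intro t _
    rw [hls t]
    exact Nat.mul_div_le _ _
  · intro t ht
    exact (hround t ht).2.1
  · intro t ht
    have h1 := Nmc_k0 c s (l t) (n t) (5 ^ T0) lam z hc' (hla t ht.le).2 (hl1t t ht.le)
      (hnl t ht.le) (by have := hnQ t ht.le; linarith) hl1 hF1 (by linarith) hA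
    refine h1.trans ?_
    rw [hk0, ← hz2]
    exact Nat.le_ceil _
  · intro t ht
    exact (hround t ht).2.2.1
  · intro t ht
    exact (hround t ht).2.2.2
  · intro a d ha hd
    have ha' : (a : ℝ) ≤ c * Δ := by exact_mod_cast ha
    have hd' : (d : ℝ) ≤ c * Δ := by exact_mod_cast hd
    exact Nmc_lll c s Δ lam a d hc' hx1 hsx hs0.le ha' (Nat.cast_nonneg _) hd'
      (Nat.cast_nonneg _) hD
  · rw [hbm]
    exact Nat.le_floor (by push_cast; linarith)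
  · have h1 : (bm : ℝ) ≤ bf := by
      have h2 : 0 ≤ Q * z := by positivity
      linarith
    exact_mod_cast h1
  · intro t ht
    have h1 : (bm : ℝ) ≤ n t := by
      have h2 := hnQ t ht
      have h3 : 0 ≤ Q * z := by positivity
      linarith
    exact_mod_cast h1
  · intro g hg1 hg2
    rw [hz10]
    have hg1' : (1 : ℝ) ≤ g := by exact_mod_cast hg1
    have hg2' : (g : ℝ) ≤ (Δ : ℝ) ^ 3 := by exact_mod_cast hg2
    exact Nmc_err Δ Q z bm lam T0 g hxQ (by linarith) hbmQ hl1 hzl hB (Nat.cast_nonneg _) hx1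
      hg1' hg2' hD4
  · rw [hz10]
    have h1 := Nmc_x Δ Q z bm hxQ (by linarith) hbmQ
    have h2 : ((c * Δ : ℕ) : ℝ) / bm ≤ c * (2 * z ^ 2) := by
      push_cast
      rw [mul_div_assoc]
      exact mul_le_mul_of_nonneg_left h1 (by linarith)
    have h3 : 3 * (((c * Δ : ℕ) : ℝ) / bm) + 2 * lam ≤ z ^ 3 + z ^ 3 := by
      have a1 : 3 * (c * (2 * z ^ 2)) ≤ z ^ 3 := by
        calc 3 * (c * (2 * z ^ 2)) = 6 * (c : ℝ) * z ^ 2 := by ring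
          _ ≤ z * z ^ 2 := mul_le_mul_of_nonneg_right (by linarith) (by positivity)
          _ = z ^ 3 := by ring
      have a2 : 2 * lam ≤ z ^ 3 := by
        calc 2 * lam ≤ z := by linarith
          _ ≤ z ^ 3 := le_self_pow₀ (by linarith) (by norm_num)
      linarith
    have h0 : 0 ≤ 3 * (((c * Δ : ℕ) : ℝ) / bm) + 2 * lam := by positivity
    calc ((T0 : ℝ) + 1) * (3 * (((c * Δ : ℕ) : ℝ) / bm) + 2 * lam)
        ≤ z * (z ^ 3 + z ^ 3) := mul_le_mul (by linarith) h3 h0 (by linarith)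
      _ = 2 * z ^ 4 := by ring
      _ ≤ z ^ 6 * z ^ 4 := by
          apply mul_le_mul_of_nonneg_right _ (by positivity)
          calc (2 : ℝ) ≤ z := by linarith
            _ ≤ z ^ 6 := le_self_pow₀ (by linarith) (by norm_num)
      _ = z ^ 10 := by ring
  · rw [hz10, div_le_div_iff₀ hs0 hx0]
    calc ((T0 : ℝ) + 1) * Δ ≤ lam * (c * s) := mul_le_mul hB hxs hx0.le (by linarith)
      _ = (lam * c) * s := by ring
      _ ≤ z ^ 10 * s := by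
          apply mul_le_mul_of_nonneg_right _ hs0.le
          calc lam * c ≤ z * z := mul_le_mul (by linarith) (by linarith) (by linarith) (by linarith)
            _ = z ^ 2 := by ring
            _ ≤ z ^ 10 := pow_le_pow_right₀ (by linarith) (by norm_num)
  · have h1 : (n 0 : ℝ) = (c : ℝ) ^ 2 * s := by
      rw [hnd]
      change ((⌈ρ 0 * (l 0 : ℝ)⌉₊ : ℕ) : ℝ) = _
      rw [hρ0', hl0]
      have h2 : (c : ℝ) ^ 2 * s = ((c ^ 2 * s : ℕ) : ℝ) := by push_cast; ring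
      rw [h2, Nat.ceil_natCast]
    exact Nmc_cc c s (n 0) hc hs1' Δ hsx h1 (hn2 0 (Nat.zero_le _))

end Pool.Agent.H65.GI
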