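/-
ROW Nib. The nibble theorem: assembly of `itr` and `nmc`.
PROOF. `Δ0` of `nmc`, at least `1`. `itr` with `n0 = c Δ`, `np = h0 = K0 = c`, `m = Δ`, `gm = Δ^3`, `M = c Δ` and the parameters of `nmc`. If `s = 0` then `Δ ≤ 0`, impossible. Note the casts `((Δ ^ 3 : ℕ) : ℝ) = (Δ : ℝ)^3`, `((c * Δ : ℕ) : ℝ)`.
-/
import Pool.Agent.H65.GI.Itr
import Pool.Agent.H65.GI.Nmc
import Pool.Agent.H65.GI.Top

set_option autoImplicit false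

namespace Pool.Agent.H65.GI

open Finset Classical

theorem nibble : Top.Nibble := by
  intro c hc
  obtain ⟨D1, hD1⟩ := nmc c hc
  refine ⟨max D1 1, ?_⟩
  intro Δ hΔ V _ G hG s hs1 hs2 C hC hP Fb hFb Tt Ff _ _ hTt hFf T gr col g hg hT hTZ F hF
  have hΔ1 : 1 ≤ Δ := le_trans (le_max_right _ _) hΔ
  have hΔD : D1 ≤ Δ := le_trans (le_max_left _ _) hΔ
  obtain ⟨T0, l, n, bf, k0, bm, lam, hT0, hlam, hl0, hn00, hpos, h5, hl', hk0, hM0, hn', hLLL,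
    hbf, hcol, hbm, hbm1, hbm2, herr, herr2, hpb2, hpb1⟩ := hD1 Δ hΔD s hs1 hs2
  have hn0 : 1 ≤ c * Δ := Nat.mul_pos hc hΔ1
  have hL := hLLL (Fintype.card Tt) (Fintype.card Ff) hTt hFf
  have hL' : 4 * ((2 + 3 * (c : ℝ) * s + (4 + ((Δ ^ 3 : ℕ) : ℝ)) * (Fintype.card Tt : ℝ) +
      (Fintype.card Ff : ℝ)) * Real.exp (-lam)) * ((Δ : ℝ) + 1) ^ (2 * 12) ≤ 1 := by
    push_cast
    exact hL
  obtain ⟨pb, hp1, hp2, f, hf1, hf2, hf3, hf4⟩ := itr G Δ hG C (c * Δ) hn0 hC c c hP Fb c hFb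
    T gr col Δ (Δ ^ 3) g hg hT hTZ F (c * Δ) hF T0 hT0 l n bf k0 bm lam hlam hl0 hn00 hpos h5
    hl' hk0 hM0 hn' hL' hbf hcol hbm hbm1 hbm2
  refine ⟨pb, le_trans hpb1 hp1, le_trans hp2 hpb2, f, hf1, hf2, ?_, ?_⟩
  · intro τ v
    exact le_trans (hf3 τ v) (herr (g τ) (hg τ).1 (hg τ).2)
  · intro φ v
    exact le_trans (hf4 φ v) herr2

end Pool.Agent.H65.GI
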