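import Pool.Agent.H65.GI.Mts
import Pool.Agent.H65.GI.Fnl
import Pool.Agent.H65.GI.Nib
import Pool.Agent.H64.GI.Afn
import Pool.Agent.H75.GR.R1
import Pool.Agent.H75.GR.R2
import Pool.Agent.H75.GD.Co

/-!
MP_b8729f, project GI: the Havet-Yu bound for all graphs of girth at least 67 and large maximum
degree, for every fixed `p`.
-/

set_option autoImplicit false

namespace Pool.Agent.H65.GI

theorem main : Top.Final :=
  fnl Pool.Agent.H75.GR.tlOfGirth Pool.Agent.H75.GR.regul
    (mats (Pool.Agent.H75.GD.colr Pool.Agent.H64.GI.base_main nibble))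

end Pool.Agent.H65.GI
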