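import Pool.Agent.H65.GI.Nums

/-!
MP_b8729f, project GI, block E: the basic bounds of the numerical parameters.
-/

set_option autoImplicit false

namespace Pool.Agent.H65.GI

/-- Basic bounds (`x = Δ`, `q = s w`, `b = B1`, `k = K2`, `c = κ`). -/
structure NuB (x r q pb m D M B b k c : ℝ) : Prop where
  r1 : x / 9 ≤ r
  r2 : r ≤ x / 8
  q1 : x / 9 ≤ q
  q2 : q ≤ x / 8
  p1 : x ^ (-51 / 50 : ℝ) ≤ pb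
  p2 : pb ≤ x ^ (-49 / 50 : ℝ)
  m1 : x ^ (59 / 20 : ℝ) ≤ m
  m2 : m ≤ x ^ (151 / 50 : ℝ)
  M1 : x ^ (21 / 10 : ℝ) ≤ M
  M2 : M ≤ 2 * x ^ (21 / 10 : ℝ)
  B1 : x ^ (21 / 10 : ℝ) ≤ B
  B2 : B ≤ x ^ (211 / 100 : ℝ)
  D1 : x ^ (21 / 25 : ℝ) ≤ D
  D2 : D ≤ x ^ (23 / 25 : ℝ)
  b1 : x ^ (11 / 10 : ℝ) ≤ b
  b2 : b ≤ 2 * x ^ (11 / 10 : ℝ)
  k1 : x ^ (1 / 50 : ℝ) ≤ k
  k2 : k ≤ 2 * x ^ (1 / 50 : ℝ)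
  c1 : 4 * x ^ (1 / 50 : ℝ) ≤ c
  c2 : c ≤ 5 * x ^ (1 / 50 : ℝ)
  mdef : m = pb * (1 - 2 * pb) * r ^ 4

end Pool.Agent.H65.GI
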