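/-
ROW Nua. Numerics: the basic bounds for large `Δ`.
PROOF. `x = Δ`. `r = Δ/8` (floor): `x/8 - 1 ≤ r ≤ x/8`. `s = Δ/(8w)`: `x/(8w) - 1 ≤ s ≤ x/(8w)`, so `x/8 - w ≤ s w ≤ x/8`; `≥ x/9` for `x ≥ 72 w`. `pb ≥ 1/(x^(1/50) x) = x^(-51/50)`, `pb ≤ x^(1/50)/x = x^(-49/50)`. `m = pb (1 - 2 pb) r^4`: `1 - 2 pb ≥ 1/2` (`pb ≤ x^(-49/50) ≤ 1/4`), `m ≥ x^(-51/50) (1/2) (x/9)^4 = x^(149/50)/13122 ≥ x^(59/20)` for large `x`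
(`2.98 > 2.95`), `m ≤ x^(-49/50) (x/8)^4 ≤ x^(151/50)`. `M = ⌈x^(21/10)⌉₊ ≤ x^(21/10) + 1`. `B = M 2^2200`: `≤ 2^2201 x^(21/10) ≤ x^(211/100)` for large `x` (do not evaluate `2^2200`; treat it as a constant `c0 ≥ 1`). `D = m/B`: `x^(59/20)/x^(211/100) = x^(21/25)`, `x^(151/50)/x^(21/10) = x^(23/25)`. The ceilings: `⌈y⌉₊ ≤ y + 1`.
-/
import Pool.Agent.H65.GI.NuD

set_option autoImplicit false

namespace Pool.Agent.H65.GI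

theorem nua (w : ℕ) (hw : 1 ≤ w) : ∃ Δ0 : ℕ, 1 ≤ Δ0 ∧ ∀ Δ : ℕ, Δ0 ≤ Δ → ∀ pb : ℝ,
    1 / ((Δ : ℝ) ^ (1 / 50 : ℝ) * Δ) ≤ pb → pb ≤ (Δ : ℝ) ^ (1 / 50 : ℝ) / Δ →
    NuB Δ ((Δ / 8 : ℕ) : ℝ) (((Δ / (8 * w)) * w : ℕ) : ℝ) pb
      (pb * (1 - 2 * pb) * ((Δ / 8 : ℕ) : ℝ) ^ 4)
      (pb * (1 - 2 * pb) * ((Δ / 8 : ℕ) : ℝ) ^ 4 / ((⌈(Δ : ℝ) ^ (21 / 10 : ℝ)⌉₊ * 2 ^ 2200 : ℕ) : ℝ))
      (⌈(Δ : ℝ) ^ (21 / 10 : ℝ)⌉₊ : ℝ) ((⌈(Δ : ℝ) ^ (21 / 10 : ℝ)⌉₊ * 2 ^ 2200 : ℕ) : ℝ)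
      (⌈(Δ : ℝ) ^ (11 / 10 : ℝ)⌉₊ : ℝ) (⌈(Δ : ℝ) ^ (1 / 50 : ℝ)⌉₊ : ℝ)
      (⌈4 * (Δ : ℝ) ^ (1 / 50 : ℝ)⌉₊ : ℝ) := by
  obtain ⟨c0, hc0⟩ : ∃ c0 : ℕ, c0 = 2 ^ 2200 := ⟨_, rfl⟩
  have hc1 : 1 ≤ c0 := by
    rw [hc0]
    exact Nat.one_le_two_pow
  rw [← hc0]
  clear hc0
  have ev : ∀ (a K : ℝ), 0 < a → ∀ᶠ n : ℕ in Filter.atTop, K ≤ (n : ℝ) ^ a := fun a K ha =>
    ((tendsto_rpow_atTop ha).comp tendsto_natCast_atTop_atTop).eventually_ge_atTop K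
  have h := ((Filter.eventually_ge_atTop (72 * w)).and (ev (49 / 50) 4 (by norm_num))).and
    ((ev (3 / 100) 13122 (by norm_num)).and (ev (1 / 100) (2 * c0) (by norm_num)))
  obtain ⟨N, hN⟩ := Filter.eventually_atTop.1 h
  refine ⟨N + 1, by omega, ?_⟩
  intro Δ hΔ pb hp1 hp2
  obtain ⟨⟨g1, g2⟩, g3, g4⟩ := hN Δ (by omega)
  obtain ⟨r, hr⟩ : ∃ r : ℕ, r = Δ / 8 := ⟨_, rfl⟩
  obtain ⟨q, hq⟩ : ∃ q : ℕ, q = (Δ / (8 * w)) * w := ⟨_, rfl⟩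
  have r1 : 8 * r ≤ Δ := by omega
  have r2 : Δ ≤ 8 * r + 8 := by omega
  have q0 : 8 * q + Δ % (8 * w) = Δ := by
    have h1 := Nat.div_add_mod Δ (8 * w)
    rw [hq]
    calc 8 * (Δ / (8 * w) * w) + Δ % (8 * w) = 8 * w * (Δ / (8 * w)) + Δ % (8 * w) := by ring
      _ = Δ := h1
  have q00 : Δ % (8 * w) < 8 * w := Nat.mod_lt _ (by omega)
  have q1 : 8 * q ≤ Δ := by omega
  have q2 : Δ ≤ 8 * q + 8 * w := by omega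
  rw [← hr, ← hq]
  clear hr hq q0 q00 hN h hΔ ev
  have r1' : 8 * (r : ℝ) ≤ (Δ : ℝ) := by exact_mod_cast r1
  have r2' : (Δ : ℝ) ≤ 8 * (r : ℝ) + 8 := by exact_mod_cast r2
  have q1' : 8 * (q : ℝ) ≤ (Δ : ℝ) := by exact_mod_cast q1
  have q2' : (Δ : ℝ) ≤ 8 * (q : ℝ) + 8 * (w : ℝ) := by exact_mod_cast q2
  have g1' : 72 * (w : ℝ) ≤ (Δ : ℝ) := by exact_mod_cast g1
  have hw' : (1 : ℝ) ≤ (w : ℝ) := by exact_mod_cast hw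
  have hc1' : (1 : ℝ) ≤ (c0 : ℝ) := by exact_mod_cast hc1
  have hmc : ((⌈(Δ : ℝ) ^ (21 / 10 : ℝ)⌉₊ * c0 : ℕ) : ℝ) =
      (⌈(Δ : ℝ) ^ (21 / 10 : ℝ)⌉₊ : ℝ) * (c0 : ℝ) := by push_cast; ring
  rw [hmc]
  clear hmc
  generalize (Δ : ℝ) = x at *
  have hx1 : 1 ≤ x := by linarith
  have hx0 : 0 < x := by linarith
  have hadd : ∀ a b : ℝ, x ^ a * x ^ b = x ^ (a + b) := fun a b => (Real.rpow_add hx0 a b).symm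
  have hpos : ∀ a : ℝ, 0 < x ^ a := fun a => Real.rpow_pos_of_pos hx0 a
  have hone : ∀ a : ℝ, 0 ≤ a → 1 ≤ x ^ a := fun a ha => Real.one_le_rpow hx1 ha
  have hx4 : x ^ 4 = x ^ (4 : ℝ) := by
    rw [← Real.rpow_natCast]
    norm_num
  have hxx : x ^ (1 : ℝ) = x := Real.rpow_one x
  -- the ceilings
  have cel : ∀ y : ℝ, 1 ≤ y → y ≤ (⌈y⌉₊ : ℝ) ∧ (⌈y⌉₊ : ℝ) ≤ y + 1 := fun y hy =>
    ⟨Nat.le_ceil y, (Nat.ceil_lt_add_one (by linarith)).le⟩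
  obtain ⟨m1, m2⟩ := cel (x ^ (21 / 10 : ℝ)) (hone _ (by norm_num))
  obtain ⟨b1, b2⟩ := cel (x ^ (11 / 10 : ℝ)) (hone _ (by norm_num))
  obtain ⟨k1, k2⟩ := cel (x ^ (1 / 50 : ℝ)) (hone _ (by norm_num))
  obtain ⟨c1, c2⟩ := cel (4 * x ^ (1 / 50 : ℝ)) (by linarith [hone (1 / 50) (by norm_num)])
  have o1 := hone (21 / 10) (by norm_num)
  have o2 := hone (11 / 10) (by norm_num)
  have o3 := hone (1 / 50) (by norm_num)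
  generalize (⌈x ^ (21 / 10 : ℝ)⌉₊ : ℝ) = M at *
  generalize (⌈x ^ (11 / 10 : ℝ)⌉₊ : ℝ) = b at *
  generalize (⌈4 * x ^ (1 / 50 : ℝ)⌉₊ : ℝ) = c at *
  generalize (⌈x ^ (1 / 50 : ℝ)⌉₊ : ℝ) = k at *
  -- pb
  have p1 : x ^ (-51 / 50 : ℝ) ≤ pb := by
    refine le_trans (le_of_eq ?_) hp1
    have h1 : x ^ (1 / 50 : ℝ) * x = x ^ (51 / 50 : ℝ) := by
      nth_rewrite 2 [← hxx]
      rw [hadd]
      norm_num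
    rw [h1, one_div, ← Real.rpow_neg hx0.le]
    norm_num
  have p2 : pb ≤ x ^ (-49 / 50 : ℝ) := by
    refine le_trans hp2 (le_of_eq ?_)
    rw [div_eq_iff hx0.ne']
    nth_rewrite 3 [← hxx]
    rw [hadd]
    norm_num
  have p3 : x ^ (-49 / 50 : ℝ) ≤ 1 / 4 := by
    have h1 : x ^ (-49 / 50 : ℝ) * x ^ (49 / 50 : ℝ) = 1 := by
      rw [hadd]
      norm_num
    have h2 := hpos (-49 / 50)
    nlinarith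
  have p0 : 0 < pb := lt_of_lt_of_le (hpos _) p1
  have R1 : x / 9 ≤ r := by linarith
  have R2 : (r : ℝ) ≤ x / 8 := by linarith
  have R3 : (x / 9) ^ 4 ≤ (r : ℝ) ^ 4 := pow_le_pow_left₀ (by positivity) R1 4
  have R4 : (r : ℝ) ^ 4 ≤ (x / 8) ^ 4 := pow_le_pow_left₀ (by positivity) R2 4
  have M1 : x ^ (59 / 20 : ℝ) ≤ pb * (1 - 2 * pb) * (r : ℝ) ^ 4 := by
    have h1 : x ^ (-51 / 50 : ℝ) * (1 / 2) ≤ pb * (1 - 2 * pb) :=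
      mul_le_mul p1 (by linarith) (by norm_num) p0.le
    have h2 : x ^ (-51 / 50 : ℝ) * (1 / 2) * (x / 9) ^ 4 ≤ pb * (1 - 2 * pb) * (r : ℝ) ^ 4 :=
      mul_le_mul h1 R3 (by positivity) (le_trans (by positivity) h1)
    refine le_trans ?_ h2
    have h3 : x ^ (-51 / 50 : ℝ) * (1 / 2) * (x / 9) ^ 4 = x ^ (-51 / 50 : ℝ) * x ^ 4 / 13122 := by
      ring
    have h4 : x ^ (-51 / 50 : ℝ) * x ^ 4 = x ^ (59 / 20 : ℝ) * x ^ (3 / 100 : ℝ) := by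
      rw [hx4, hadd, hadd]
      norm_num
    rw [h3, h4, le_div_iff₀ (by norm_num)]
    exact mul_le_mul_of_nonneg_left g3 (hpos _).le
  have M2 : pb * (1 - 2 * pb) * (r : ℝ) ^ 4 ≤ x ^ (151 / 50 : ℝ) := by
    have h1 : pb * (1 - 2 * pb) ≤ x ^ (-49 / 50 : ℝ) := by nlinarith
    have h2 : pb * (1 - 2 * pb) * (r : ℝ) ^ 4 ≤ x ^ (-49 / 50 : ℝ) * (x / 8) ^ 4 :=
      mul_le_mul h1 R4 (by positivity) (hpos _).le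
    have h3 : x ^ (-49 / 50 : ℝ) * (x / 8) ^ 4 = x ^ (-49 / 50 : ℝ) * x ^ 4 / 4096 := by ring
    have h4 : x ^ (-49 / 50 : ℝ) * x ^ 4 = x ^ (151 / 50 : ℝ) := by
      rw [hx4, hadd]
      norm_num
    rw [h3, h4] at h2
    have h5 := hpos (151 / 50)
    linarith
  have B1 : x ^ (21 / 10 : ℝ) ≤ M * c0 := by nlinarith
  have B2 : M * c0 ≤ x ^ (211 / 100 : ℝ) := by
    have h1 : x ^ (211 / 100 : ℝ) = x ^ (21 / 10 : ℝ) * x ^ (1 / 100 : ℝ) := by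
      rw [hadd]
      norm_num
    have h2 : x ^ (21 / 10 : ℝ) * (2 * c0) ≤ x ^ (21 / 10 : ℝ) * x ^ (1 / 100 : ℝ) :=
      mul_le_mul_of_nonneg_left g4 (hpos _).le
    have h3 : M * c0 ≤ 2 * x ^ (21 / 10 : ℝ) * c0 :=
      mul_le_mul_of_nonneg_right (by linarith) (by linarith)
    rw [h1]
    linarith
  have B0 : 0 < M * c0 := lt_of_lt_of_le (hpos _) B1
  refine ⟨R1, R2, by linarith, by linarith, p1, p2, M1, M2, m1, by linarith, B1, B2, ?_, ?_, b1,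
    by linarith, k1, by linarith, c1, by linarith, rfl⟩
  · rw [le_div_iff₀ B0]
    refine le_trans ?_ M1
    have h1 : x ^ (59 / 20 : ℝ) = x ^ (21 / 25 : ℝ) * x ^ (211 / 100 : ℝ) := by
      rw [hadd]
      norm_num
    rw [h1]
    exact mul_le_mul_of_nonneg_left B2 (hpos _).le
  · rw [div_le_iff₀ B0]
    refine le_trans M2 ?_
    have h1 : x ^ (151 / 50 : ℝ) = x ^ (23 / 25 : ℝ) * x ^ (21 / 10 : ℝ) := by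
      rw [hadd]
      norm_num
    rw [h1]
    exact mul_le_mul_of_nonneg_left B1 (hpos _).le

end Pool.Agent.H65.GI
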