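/-
ROW Nub. Numerics, group 1.
PROOF. For large `x` (all `r, q ∈ [x/9, x/8]`): `7 K r^2 + 8 x^(1/50) r^3 ≤ r^4/2`: `7 K r^2 ≤ r^4/4`, `32 x^(1/50) ≤ r`. `2 x ≤ b`, `r ≤ b q`. `64 lam ≤ r^4/(b q)`: `r^4/(b q) ≥ (x/9)^4/(2 x^(11/10) x/8) = (4/6561) x^(19/10)`. `exp (-(x^(1/50))) ≤ x^(-30)` gives `lll1`. `err`: `x^(38/25) + 6 K pb r^2 + ... ≤ x^(39/25) ≤ x^(-27/20) x^(59/20) = x^(8/5)`: `pb r^2 ≤ x^(51/50)/64`,
`x^(13/25) + pb (3K+1) r ≤ x^(53/100)`; `4 pb r^2 (..) ≤ x^(31/20)/16`, `2 (..)^2 ≤ 2 x^(53/50)`. `BR`: `3 r^4/(b q) ≤ 3 (9/4096) x^(19/10)`. `mR`: `D r^4/(8 b q)/B ≥ x^(21/25) x^(47/25)/x^(211/100) = x^(61/100)` (using `r^4/(8 b q) ≥ x^(19/10)/13122 ≥ x^(47/25)`), this is `g6`; `32 x^(1/50) ≤ x^(61/100)`.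
`res`: `pb r^4 + x^(38/25) ≤ 2 m = 2 pb r^4 - 4 pb^2 r^4`: `pb ≤ 1/16`, so `4 pb^2 r^4 ≤ pb r^4/4`, and `x^(38/25) ≤ pb r^4/4` (`pb r^4 ≥ m ≥ x^(59/20)`).
-/
import Pool.Agent.H65.GI.NuD

set_option autoImplicit false

namespace Pool.Agent.H65.GI

private theorem Nub_c {u C : ℝ} (hu : 1 ≤ u) (hC : C ≤ u) {a b : ℕ} (h : a + 1 ≤ b) :
    C * u ^ a ≤ u ^ b := by
  have h0 : 0 ≤ u := by linarith
  calc C * u ^ a ≤ u * u ^ a := mul_le_mul_of_nonneg_right hC (pow_nonneg h0 a)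
    _ = u ^ (a + 1) := by ring
    _ ≤ u ^ b := pow_le_pow_right₀ hu h

private theorem Nub_exp : ∃ u0 : ℝ, ∀ u : ℝ, u0 ≤ u →
    8388608 * u ^ 2100 * Real.exp (-(u ^ 2)) ≤ 1 := by
  have h1 := Real.tendsto_pow_mul_exp_neg_atTop_nhds_zero 1051
  have h2 := h1.eventually (eventually_le_nhds (show (0 : ℝ) < 1 by norm_num))
  obtain ⟨y0, hy0⟩ := Filter.eventually_atTop.mp h2
  refine ⟨max 8388608 y0, fun u hu => ?_⟩
  have hu1 : (8388608 : ℝ) ≤ u := (le_max_left _ _).trans hu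
  have hu2 : y0 ≤ u := (le_max_right _ _).trans hu
  have hu3 : u ≤ u ^ 2 := by nlinarith
  have h3 := hy0 (u ^ 2) (hu2.trans hu3)
  refine le_trans ?_ h3
  refine mul_le_mul_of_nonneg_right ?_ (Real.exp_pos _).le
  have e : (u ^ 2) ^ 1051 = u ^ 2102 := by rw [← pow_mul]
  rw [e]
  exact Nub_c (by linarith) hu1 (by norm_num)

private theorem Nub_pow {x u : ℝ} (hx : 0 ≤ x) (hu : u = x ^ (1 / 100 : ℝ)) (n : ℕ) {e : ℝ}
    (he : e = n / 100) : x ^ e = u ^ n := by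
  rw [hu, ← Real.rpow_natCast, ← Real.rpow_mul hx]
  congr 1
  rw [he]
  ring

private theorem Nub_npow {x u : ℝ} (hx : 0 ≤ x) (hu : u = x ^ (1 / 100 : ℝ)) (n : ℕ) {e : ℝ}
    (he : e = -(n / 100)) : x ^ e = (u ^ n)⁻¹ := by
  rw [he, Real.rpow_neg hx, Nub_pow hx hu n rfl]

private theorem Nub_main (K : ℕ) {x r q pb m D B b u : ℝ} (hu : 1 ≤ u)
    (hu1 : 100000 ≤ u) (huK : 1000 * ((K : ℝ) + 1) ≤ u)
    (hexp : 8388608 * u ^ 2100 * Real.exp (-(u ^ 2)) ≤ 1)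
    (hx : x = u ^ 100) (r1 : x / 9 ≤ r) (r2 : r ≤ x / 8) (q1 : x / 9 ≤ q) (q2 : q ≤ x / 8)
    (p1 : (u ^ 102)⁻¹ ≤ pb) (p2 : pb ≤ (u ^ 98)⁻¹) (m1 : u ^ 295 ≤ m)
    (B1 : u ^ 210 ≤ B) (B2 : B ≤ u ^ 211) (D1 : u ^ 84 ≤ D) (b1 : u ^ 110 ≤ b)
    (b2 : b ≤ 2 * u ^ 110) (mdef : m = pb * (1 - 2 * pb) * r ^ 4) :
    7 * K * r ^ 2 + 8 * u ^ 2 * r ^ 3 ≤ r ^ 4 / 2 ∧ 2 * x ≤ b ∧ r ≤ b * q ∧
    64 * u ^ 2 ≤ r ^ 4 / (b * q) ∧
    4 * ((3 * q + 1) * Real.exp (-(u ^ 2))) * (x + 1) ^ (2 * 10) ≤ 1 ∧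
    u ^ 152 + 6 * K * pb * r ^ 2 +
      4 * pb * r ^ 2 * (u ^ 52 + pb * ((3 * K + 1) * r)) +
      2 * (u ^ 52 + pb * ((3 * K + 1) * r)) ^ 2 ≤ (u ^ 135)⁻¹ * m ∧
    3 * (r ^ 4 / (b * q)) + 2 * u ^ 2 ≤ B ∧
    u ^ 61 ≤ D * (r ^ 4 / (8 * (b * q))) / B ∧
    32 * u ^ 2 ≤ u ^ 61 ∧
    pb * r ^ 4 + u ^ 152 ≤ 2 * m := by
  have hK0 : (0 : ℝ) ≤ K := Nat.cast_nonneg K
  have u0 : 0 < u := by linarith
  have x0 : 0 < x := by rw [hx]; positivity
  have r0 : 0 < r := by linarith [div_pos x0 (show (0 : ℝ) < 9 by norm_num)]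
  have q0 : 0 < q := by linarith [div_pos x0 (show (0 : ℝ) < 9 by norm_num)]
  have b0 : 0 < b := lt_of_lt_of_le (by positivity) b1
  have pb0 : 0 < pb := lt_of_lt_of_le (by positivity) p1
  have B0 : 0 < B := lt_of_lt_of_le (by positivity) B1
  have D0 : 0 < D := lt_of_lt_of_le (by positivity) D1
  have c1 : ∀ (C : ℝ) (a b : ℕ), C ≤ 100000 → a + 1 ≤ b → C * u ^ a ≤ u ^ b :=
    fun C a b hC h => Nub_c hu (hC.trans hu1) h
  -- lower bounds for r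
  have rA : 32 * u ^ 2 ≤ r := by
    have h1 := c1 288 2 100 (by norm_num) (by norm_num)
    rw [hx] at r1
    linarith
  have rB : 28 * (K : ℝ) ≤ r := by
    have h1 : 28 * (K : ℝ) ≤ u := by linarith
    have h2 : u ≤ u ^ 2 := by nlinarith
    nlinarith
  have r1' : 1 ≤ r := by
    have h2 : u ≤ u ^ 2 := by nlinarith
    linarith
  have r4lo : u ^ 400 / 6561 ≤ r ^ 4 := by
    have h1 : (x / 9) ^ 4 ≤ r ^ 4 := pow_le_pow_left₀ (by positivity) r1 4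
    have e : (x / 9) ^ 4 = u ^ 400 / 6561 := by
      rw [hx, div_pow, ← pow_mul]
      norm_num
    rw [e] at h1
    exact h1
  have r4hi : r ^ 4 ≤ u ^ 400 / 4096 := by
    have h1 : r ^ 4 ≤ (x / 8) ^ 4 := pow_le_pow_left₀ r0.le r2 4
    have e : (x / 8) ^ 4 = u ^ 400 / 4096 := by
      rw [hx, div_pow, ← pow_mul]
      norm_num
    rw [e] at h1
    exact h1
  have bqlo : u ^ 210 / 9 ≤ b * q := by
    calc u ^ 210 / 9 = u ^ 110 * (x / 9) := by rw [hx]; ring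
      _ ≤ b * q := mul_le_mul b1 q1 (by positivity) b0.le
  have bqhi : b * q ≤ u ^ 210 / 4 := by
    calc b * q ≤ 2 * u ^ 110 * (x / 8) := mul_le_mul b2 q2 q0.le (by positivity)
      _ = u ^ 210 / 4 := by rw [hx]; ring
  have bq0 : 0 < b * q := mul_pos b0 q0
  have ratlo : 4 * u ^ 190 / 6561 ≤ r ^ 4 / (b * q) := by
    rw [le_div_iff₀ bq0]
    calc 4 * u ^ 190 / 6561 * (b * q) ≤ 4 * u ^ 190 / 6561 * (u ^ 210 / 4) :=
          mul_le_mul_of_nonneg_left bqhi (by positivity)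
      _ = u ^ 400 / 6561 := by ring
      _ ≤ r ^ 4 := r4lo
  have rathi : r ^ 4 / (b * q) ≤ u ^ 190 := by
    rw [div_le_iff₀ bq0]
    calc r ^ 4 ≤ u ^ 400 / 4096 := r4hi
      _ ≤ u ^ 400 / 9 := by
          have : 0 ≤ u ^ 400 := by positivity
          linarith
      _ = u ^ 190 * (u ^ 210 / 9) := by ring
      _ ≤ u ^ 190 * (b * q) := mul_le_mul_of_nonneg_left bqlo (by positivity)
  have pbr : pb * r ≤ u ^ 2 / 8 := by
    calc pb * r ≤ (u ^ 98)⁻¹ * (x / 8) := mul_le_mul p2 r2 r0.le (by positivity)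
      _ = u ^ 2 / 8 := by
          rw [hx]
          have e : u ^ 100 = u ^ 98 * u ^ 2 := by ring
          rw [e]
          have h98 : u ^ 98 ≠ 0 := by positivity
          field_simp
  have pbr2 : pb * r ^ 2 ≤ u ^ 102 / 64 := by
    calc pb * r ^ 2 = (pb * r) * r := by ring
      _ ≤ (u ^ 2 / 8) * (x / 8) := mul_le_mul pbr r2 r0.le (by positivity)
      _ = u ^ 102 / 64 := by rw [hx]; ring
  have hm : u ^ 160 ≤ (u ^ 135)⁻¹ * m := by
    have h1 : (u ^ 135)⁻¹ * u ^ 295 ≤ (u ^ 135)⁻¹ * m :=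
      mul_le_mul_of_nonneg_left m1 (by positivity)
    have e : (u ^ 135)⁻¹ * u ^ 295 = u ^ 160 := by
      have e1 : u ^ 295 = u ^ 135 * u ^ 160 := by ring
      rw [e1]
      have h135 : u ^ 135 ≠ 0 := by positivity
      field_simp
    rw [e] at h1
    exact h1
  refine ⟨?_, ?_, ?_, ?_, ?_, ?_, ?_, ?_, ?_, ?_⟩
  · have h1 : 28 * (K : ℝ) ≤ r ^ 2 := by nlinarith
    have h2 : 28 * (K : ℝ) * r ^ 2 ≤ r ^ 2 * r ^ 2 :=
      mul_le_mul_of_nonneg_right h1 (sq_nonneg r)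
    have h3 : 32 * u ^ 2 * r ^ 3 ≤ r * r ^ 3 :=
      mul_le_mul_of_nonneg_right rA (by positivity)
    have e2 : r ^ 2 * r ^ 2 = r ^ 4 := by ring
    have e3 : r * r ^ 3 = r ^ 4 := by ring
    rw [e2] at h2
    rw [e3] at h3
    linarith
  · have h1 := c1 2 100 110 (by norm_num) (by norm_num)
    rw [hx]
    linarith
  · have h1 := c1 9 100 210 (by norm_num) (by norm_num)
    have h2 : 0 ≤ u ^ 100 := by positivity
    rw [hx] at r2
    linarith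
  · have h1 := c1 6561 2 4 (by norm_num) (by norm_num)
    have h2 := c1 16 4 190 (by norm_num) (by norm_num)
    linarith
  · have h1 : (1 : ℝ) ≤ x := by
      rw [hx]
      exact one_le_pow₀ hu
    have h2 : 3 * q + 1 ≤ 2 * x := by linarith
    have h3 : (x + 1) ^ (2 * 10) ≤ (2 * x) ^ 20 :=
      pow_le_pow_left₀ (by linarith) (by linarith) 20
    have h4 : 4 * ((3 * q + 1) * Real.exp (-(u ^ 2))) * (x + 1) ^ (2 * 10) ≤
        4 * ((2 * x) * Real.exp (-(u ^ 2))) * (2 * x) ^ 20 := by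
      refine mul_le_mul ?_ h3 (by positivity) (by positivity)
      refine mul_le_mul_of_nonneg_left ?_ (by norm_num)
      exact mul_le_mul_of_nonneg_right h2 (Real.exp_pos _).le
    refine h4.trans ?_
    have e : 4 * ((2 * x) * Real.exp (-(u ^ 2))) * (2 * x) ^ 20 =
        8388608 * u ^ 2100 * Real.exp (-(u ^ 2)) := by
      have e1 : (2 * x) ^ 20 * (2 * x) = 2097152 * x ^ 21 := by ring
      have e2 : x ^ 21 = u ^ 2100 := by rw [hx, ← pow_mul]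
      have e3 : ∀ a b c : ℝ, 4 * (a * b) * c = 4 * b * (c * a) := fun a b c => by ring
      have e4 : ∀ a b : ℝ, 4 * b * (2097152 * a) = 8388608 * a * b := fun a b => by ring
      rw [e3, e1, e2, e4]
    rw [e]
    exact hexp
  · refine le_trans ?_ hm
    obtain ⟨s, hs⟩ : ∃ s : ℝ, s = u ^ 52 + pb * ((3 * K + 1) * r) := ⟨_, rfl⟩
    rw [← hs]
    have hs0 : 0 ≤ s := by rw [hs]; positivity
    have hs1 : s ≤ 2 * u ^ 52 := by
      have h1 : pb * ((3 * K + 1) * r) = (3 * K + 1) * (pb * r) := by ring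
      have h2 : (3 * (K : ℝ) + 1) * (pb * r) ≤ (3 * K + 1) * (u ^ 2 / 8) :=
        mul_le_mul_of_nonneg_left pbr (by positivity)
      have h3 : (3 * (K : ℝ) + 1) * u ^ 2 ≤ u ^ 52 :=
        Nub_c (C := 3 * (K : ℝ) + 1) (a := 2) (b := 52) hu (by linarith) (by norm_num)
      have h4 : 0 ≤ u ^ 52 := by positivity
      rw [hs, h1]
      linarith
    have h1 : 6 * K * pb * r ^ 2 ≤ u ^ 103 := by
      have h2 : 6 * (K : ℝ) * (pb * r ^ 2) ≤ 6 * K * (u ^ 102 / 64) :=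
        mul_le_mul_of_nonneg_left pbr2 (by positivity)
      have h3 : (6 * (K : ℝ)) * u ^ 102 ≤ u ^ 103 :=
        Nub_c (C := 6 * (K : ℝ)) (a := 102) (b := 103) hu (by linarith) (by norm_num)
      have h4 : 0 ≤ (6 * (K : ℝ)) * u ^ 102 :=
        mul_nonneg (mul_nonneg (by norm_num) hK0) (pow_nonneg u0.le _)
      have e : 6 * K * pb * r ^ 2 = 6 * (K : ℝ) * (pb * r ^ 2) := by ring
      rw [e]
      linarith
    have h2 : 4 * pb * r ^ 2 * s ≤ u ^ 154 := by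
      have e : 4 * pb * r ^ 2 * s = 4 * ((pb * r ^ 2) * s) := by ring
      have h3 : (pb * r ^ 2) * s ≤ (u ^ 102 / 64) * (2 * u ^ 52) :=
        mul_le_mul pbr2 hs1 hs0 (by positivity)
      have e2 : (u ^ 102 / 64) * (2 * u ^ 52) = u ^ 154 / 32 := by ring
      have h4 : 0 ≤ u ^ 154 := by positivity
      rw [e]
      rw [e2] at h3
      linarith
    have h3 : 2 * s ^ 2 ≤ 8 * u ^ 104 := by
      have h4 : s ^ 2 ≤ (2 * u ^ 52) ^ 2 := pow_le_pow_left₀ hs0 hs1 2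
      have e : (2 * u ^ 52) ^ 2 = 4 * u ^ 104 := by ring
      rw [e] at h4
      linarith
    have k1 := c1 4 152 160 (by norm_num) (by norm_num)
    have k2 := c1 4 103 160 (by norm_num) (by norm_num)
    have k3 := c1 4 154 160 (by norm_num) (by norm_num)
    have k4 := c1 32 104 160 (by norm_num) (by norm_num)
    linarith
  · have h1 := c1 6 190 210 (by norm_num) (by norm_num)
    have h2 := c1 4 2 210 (by norm_num) (by norm_num)
    linarith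
  · have e : r ^ 4 / (8 * (b * q)) = r ^ 4 / (b * q) / 8 := by
      field_simp
    rw [e, le_div_iff₀ B0]
    have h1 : u ^ 190 / 13122 ≤ r ^ 4 / (b * q) / 8 := by linarith
    calc u ^ 61 * B ≤ u ^ 61 * u ^ 211 := mul_le_mul_of_nonneg_left B2 (by positivity)
      _ = u ^ 272 := by ring
      _ ≤ u ^ 274 / 13122 := by
          have h2 := c1 13122 272 274 (by norm_num) (by norm_num)
          linarith
      _ = u ^ 84 * (u ^ 190 / 13122) := by ring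
      _ ≤ D * (r ^ 4 / (b * q) / 8) := mul_le_mul D1 h1 (by positivity) D0.le
  · exact c1 32 2 61 (by norm_num) (by norm_num)
  · have hp : pb ≤ 1 / 16 := by
      refine p2.trans ?_
      rw [inv_eq_one_div]
      apply one_div_le_one_div_of_le (by norm_num)
      have h2 := c1 16 0 98 (by norm_num) (by norm_num)
      linarith
    have hr4 : 0 < r ^ 4 := by positivity
    have hpr : 0 < pb * r ^ 4 := by positivity
    have h1 : 4 * pb ^ 2 * r ^ 4 ≤ pb * r ^ 4 / 4 := by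
      have h2 : pb * (pb * r ^ 4) ≤ 1 / 16 * (pb * r ^ 4) :=
        mul_le_mul_of_nonneg_right hp hpr.le
      have e : 4 * pb ^ 2 * r ^ 4 = 4 * (pb * (pb * r ^ 4)) := by ring
      rw [e]
      linarith
    have h3 : m ≤ pb * r ^ 4 := by
      have h4 : 0 ≤ pb ^ 2 * r ^ 4 := by positivity
      have e : pb * (1 - 2 * pb) * r ^ 4 = pb * r ^ 4 - 2 * (pb ^ 2 * r ^ 4) := by ring
      rw [mdef, e]
      linarith
    have h5 : 4 * u ^ 152 ≤ pb * r ^ 4 := by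
      have h6 := c1 4 152 295 (by norm_num) (by norm_num)
      linarith
    have e : 2 * m = 2 * (pb * r ^ 4) - 4 * pb ^ 2 * r ^ 4 := by
      rw [mdef]
      ring
    rw [e]
    linarith

theorem nub (K : ℕ) : ∃ x0 : ℝ, 1 ≤ x0 ∧ ∀ x r q pb m D M B b k c : ℝ, x0 ≤ x →
    NuB x r q pb m D M B b k c →
    7 * K * r ^ 2 + 8 * x ^ (1 / 50 : ℝ) * r ^ 3 ≤ r ^ 4 / 2 ∧ 2 * x ≤ b ∧ r ≤ b * q ∧
    64 * x ^ (1 / 50 : ℝ) ≤ r ^ 4 / (b * q) ∧
    4 * ((3 * q + 1) * Real.exp (-(x ^ (1 / 50 : ℝ)))) * (x + 1) ^ (2 * 10) ≤ 1 ∧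
    x ^ (38 / 25 : ℝ) + 6 * K * pb * r ^ 2 +
      4 * pb * r ^ 2 * (x ^ (13 / 25 : ℝ) + pb * ((3 * K + 1) * r)) +
      2 * (x ^ (13 / 25 : ℝ) + pb * ((3 * K + 1) * r)) ^ 2 ≤ x ^ (-27 / 20 : ℝ) * m ∧
    3 * (r ^ 4 / (b * q)) + 2 * x ^ (1 / 50 : ℝ) ≤ B ∧
    x ^ (61 / 100 : ℝ) ≤ D * (r ^ 4 / (8 * (b * q))) / B ∧
    32 * x ^ (1 / 50 : ℝ) ≤ x ^ (61 / 100 : ℝ) ∧
    pb * r ^ 4 + x ^ (38 / 25 : ℝ) ≤ 2 * m := by
  obtain ⟨u0, hu0⟩ := Nub_exp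
  obtain ⟨v, hv⟩ : ∃ v : ℝ, v = max u0 (max 100000 (1000 * ((K : ℝ) + 1))) := ⟨_, rfl⟩
  have hv0 : u0 ≤ v := by rw [hv]; exact le_max_left _ _
  have hv1 : 100000 ≤ v := by rw [hv]; exact (le_max_left _ _).trans (le_max_right _ _)
  have hv2 : 1000 * ((K : ℝ) + 1) ≤ v := by
    rw [hv]; exact (le_max_right _ _).trans (le_max_right _ _)
  refine ⟨v ^ 100, one_le_pow₀ (by linarith), ?_⟩
  intro x r q pb m D M B b k c hx h
  have hvp : 0 < v ^ 100 := by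
    have : 0 < v := by linarith
    positivity
  have hx0 : 0 ≤ x := hvp.le.trans hx
  obtain ⟨u, hu⟩ : ∃ u : ℝ, u = x ^ (1 / 100 : ℝ) := ⟨_, rfl⟩
  have huv : v ≤ u := by
    have h1 : (v ^ 100) ^ (1 / 100 : ℝ) ≤ x ^ (1 / 100 : ℝ) :=
      Real.rpow_le_rpow hvp.le hx (by norm_num)
    have e : (v ^ 100) ^ (1 / 100 : ℝ) = v := by
      rw [← Real.rpow_natCast, ← Real.rpow_mul (by linarith)]
      norm_num
    rw [e] at h1
    rw [hu]
    exact h1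
  have hx100 : x = u ^ 100 := by
    have h1 := Nub_pow hx0 hu 100 (e := 1) (by norm_num)
    rw [Real.rpow_one] at h1
    exact h1
  have e1 := Nub_pow hx0 hu 2 (e := 1 / 50) (by norm_num)
  have e2 := Nub_pow hx0 hu 152 (e := 38 / 25) (by norm_num)
  have e3 := Nub_pow hx0 hu 52 (e := 13 / 25) (by norm_num)
  have e4 := Nub_npow hx0 hu 135 (e := -27 / 20) (by norm_num)
  have e5 := Nub_pow hx0 hu 61 (e := 61 / 100) (by norm_num)
  have e6 := Nub_npow hx0 hu 102 (e := -51 / 50) (by norm_num)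
  have e7 := Nub_npow hx0 hu 98 (e := -49 / 50) (by norm_num)
  have e8 := Nub_pow hx0 hu 295 (e := 59 / 20) (by norm_num)
  have e9 := Nub_pow hx0 hu 210 (e := 21 / 10) (by norm_num)
  have e10 := Nub_pow hx0 hu 211 (e := 211 / 100) (by norm_num)
  have e11 := Nub_pow hx0 hu 84 (e := 21 / 25) (by norm_num)
  have e12 := Nub_pow hx0 hu 110 (e := 11 / 10) (by norm_num)
  have r1 := h.r1
  have r2 := h.r2
  have q1 := h.q1
  have q2 := h.q2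
  have p1 := h.p1
  have p2 := h.p2
  have m1 := h.m1
  have B1 := h.B1
  have B2 := h.B2
  have D1 := h.D1
  have b1 := h.b1
  have b2 := h.b2
  rw [e6] at p1
  rw [e7] at p2
  rw [e8] at m1
  rw [e9] at B1
  rw [e10] at B2
  rw [e11] at D1
  rw [e12] at b1 b2
  rw [e1, e2, e3, e4, e5]
  exact Nub_main K (by linarith) (by linarith) (by linarith) (hu0 u (hv0.trans huv)) hx100
    r1 r2 q1 q2 p1 p2 m1 B1 B2 D1 b1 b2 h.mdef

end Pool.Agent.H65.GI
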