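/-
ROW Nuc. Numerics, group 2. Write `lam = x^(1/50)`, `η = x^(-27/20)`, `ρ = x^(1/20)/sqrt D`.
PROOF. `2000 lam ≤ x^(21/25) ≤ D`. `3 D/m ≤ 3 x^(23/25 - 59/20)`, so `D (η + 3D/m) ≤ x^(-43/100) + 3 x^(-111/100) ≤ 4 x^(-43/100) ≤ 1 ≤ sqrt (D lam)`. `k^2 ≤ 4 x^(1/25) ≤ lam D`. `hK` (`kn = ⌈x^(1/50)⌉₊`, a natural number, `k = kn`): `2D/B ≤ 2 x^(23/25-21/10) ≤ x^(-1) ≤ 1`, so `(2D/B)^kn ≤ (x^(-1))^kn = exp (- kn log x) ≤ exp (- x^(1/50) log x)`,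
`8 D m ≤ x^4 = exp (4 log x)`; `4 log x + x^(1/50) ≤ x^(1/50) log x` for large `x`. `hρ`: every one of the five terms is `≤ ρ/5`: `130 k lam/sqrt D ≤ 260 x^(1/25)/sqrt D`, `1300 x^(1/25) ≤ x^(1/20)`; `ρ ≥ x^(1/20) / x^(23/50) = x^(-41/100)`; `(4D^2+1)(2k · 3 exp (-lam))` and `16 D exp (-(D/2))` are `≤ x^(-1)` (superpolynomially small);
`16 D (η + 3D/m) ≤ 64 x^(-43/100) ≤ x^(-41/100)/5`; `8 k^2 (24 D^4/m + 2 lam)/D^2 ≤ 32 x^(1/25) (24 x^(92/25 - 59/20) + 2 x^(1/50))/x^(42/25) ≤ x^(-4/5)`. `ρ ≤ 1`: `D ≥ x^(21/25)`. `252 D ρ = 252 x^(1/20) sqrt D ≤ 252 x^(51/100) ≤ x^(3/5)`.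
-/
import Pool.Agent.H65.GI.NuD

set_option autoImplicit false

namespace Pool.Agent.H65.GI

private theorem Nuc_5 {t D m B : ℝ} {kn : ℕ} (ht : 1300 ≤ t) (hD0 : 0 < D)
    (D2 : D ≤ t ^ 92) (hm0 : 0 < m) (m2 : m ≤ t ^ 302) (B1 : t ^ 210 ≤ B)
    (k1 : t ^ 2 ≤ kn) : 8 * D * m * (2 * D / B) ^ kn ≤ Real.exp (-(t ^ 2)) := by
  have t1 : 1 ≤ t := by linarith
  have t0 : 0 < t := by linarith
  have hpow : ∀ {a b : ℕ}, a ≤ b → t ^ a ≤ t ^ b := fun h => pow_le_pow_right₀ t1 h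
  have hp : ∀ n : ℕ, 0 < t ^ n := fun n => pow_pos t0 n
  have ht2 : 1690000 ≤ t ^ 2 := by nlinarith
  have hB0 : 0 < B := (hp 210).trans_le B1
  have hq : 2 * D / B ≤ (t ^ 100)⁻¹ := by
    rw [div_le_iff₀ hB0]
    have e1 : (t ^ 100)⁻¹ * t ^ 210 = t ^ 110 := by
      rw [show (210 : ℕ) = 100 + 110 by norm_num, pow_add, inv_mul_cancel_left₀ (hp 100).ne']
    have e2 : (t ^ 100)⁻¹ * t ^ 210 ≤ (t ^ 100)⁻¹ * B :=
      mul_le_mul_of_nonneg_left B1 (inv_pos.2 (hp 100)).le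
    have e3 : t ^ 93 ≤ t ^ 110 := hpow (by norm_num)
    have e4 : t ^ 93 = t * t ^ 92 := by ring
    have e5 : 2 * t ^ 92 ≤ t * t ^ 92 := mul_le_mul_of_nonneg_right (by linarith) (hp 92).le
    rw [e1] at e2
    linarith
  have hq0 : 0 ≤ 2 * D / B := by positivity
  obtain ⟨j, hj⟩ : ∃ j, kn = 4 + j := by
    have h4 : (4 : ℝ) ≤ (kn : ℝ) := by linarith
    exact ⟨kn - 4, by have : 4 ≤ kn := by exact_mod_cast h4
                      omega⟩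
  have hj1 : (kn : ℝ) = 4 + (j : ℝ) := by
    rw [hj]
    push_cast
    rfl
  have hE : (t ^ 100)⁻¹ ≤ Real.exp (-2) := by
    have e1 : Real.exp 1 ≤ t := by
      have := Real.exp_one_lt_d9
      linarith
    have e2 : Real.exp 2 ≤ t ^ 2 := by
      have e3 : Real.exp 2 = Real.exp 1 ^ 2 := by
        rw [← Real.exp_nat_mul]
        norm_num
      rw [e3]
      exact pow_le_pow_left₀ (Real.exp_pos 1).le e1 2
    rw [Real.exp_neg]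
    exact inv_anti₀ (Real.exp_pos 2) (e2.trans (hpow (by norm_num)))
  have e1 : (2 * D / B) ^ kn ≤ ((t ^ 100)⁻¹) ^ 4 * Real.exp (-2) ^ j := by
    rw [hj, pow_add]
    refine mul_le_mul (pow_le_pow_left₀ hq0 hq 4) ?_ (by positivity) (by positivity)
    exact pow_le_pow_left₀ hq0 (hq.trans hE) j
  have e2 : 8 * D * m ≤ t ^ 400 := by
    have f1 : D * m ≤ t ^ 92 * t ^ 302 := mul_le_mul D2 m2 hm0.le (hp 92).le
    have f2 : t ^ 92 * t ^ 302 = t ^ 394 := by ring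
    have f3 : t ^ 395 ≤ t ^ 400 := hpow (by norm_num)
    have f4 : t ^ 395 = t * t ^ 394 := by ring
    have f5 : 8 * t ^ 394 ≤ t * t ^ 394 :=
      mul_le_mul_of_nonneg_right (by linarith) (hp 394).le
    rw [f2] at f1
    linarith
  have e3 : t ^ 400 * ((t ^ 100)⁻¹) ^ 4 = 1 := by
    rw [inv_pow, ← pow_mul]
    exact mul_inv_cancel₀ (hp 400).ne'
  have e4 : Real.exp (-2) ^ j ≤ Real.exp (-(t ^ 2)) := by
    rw [← Real.exp_nat_mul]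
    refine Real.exp_le_exp.2 ?_
    linarith
  calc 8 * D * m * (2 * D / B) ^ kn ≤ t ^ 400 * (((t ^ 100)⁻¹) ^ 4 * Real.exp (-2) ^ j) :=
        mul_le_mul e2 e1 (by positivity) (hp 400).le
    _ = (t ^ 400 * ((t ^ 100)⁻¹) ^ 4) * Real.exp (-2) ^ j := by ring
    _ = Real.exp (-2) ^ j := by rw [e3, one_mul]
    _ ≤ _ := e4

private theorem Nuc_6 {t D m S u : ℝ} {kn : ℕ} (ht : 1300 ≤ t)
    (hexp : 300 * t ^ 227 ≤ Real.exp t) (hS0 : 0 < S) (D1 : t ^ 84 ≤ D) (D2 : D ≤ t ^ 92)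
    (m1 : t ^ 295 ≤ m) (k1 : t ^ 2 ≤ kn) (k2 : (kn : ℝ) ≤ 2 * t ^ 2)
    (hDu : D * u ≤ 4 * (t ^ 43)⁻¹) (hr41 : ∀ y : ℝ, 5 * t ^ 41 * y ≤ 1 → y ≤ (t ^ 5 / S) / 5) :
    130 * kn * t ^ 2 / S +
      (4 * D ^ 2 + 1) * (2 * kn * (3 * Real.exp (-(t ^ 2)))) +
      16 * D * u + 16 * D * Real.exp (-(D / 2)) +
      8 * (kn : ℝ) ^ 2 * (24 * D ^ 4 / m + 2 * t ^ 2) / D ^ 2 ≤
      t ^ 5 / S := by
  have t1 : 1 ≤ t := by linarith
  have t0 : 0 < t := by linarith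
  have hpow : ∀ {a b : ℕ}, a ≤ b → t ^ a ≤ t ^ b := fun h => pow_le_pow_right₀ t1 h
  have hp : ∀ n : ℕ, 0 < t ^ n := fun n => pow_pos t0 n
  have ht2 : 1690000 ≤ t ^ 2 := by nlinarith
  have hD0 : 0 < D := (hp 84).trans_le D1
  have hm0 : 0 < m := (hp 295).trans_le m1
  have hk0 : (0 : ℝ) < kn := (hp 2).trans_le k1
  obtain ⟨E, hE⟩ : ∃ E, E = Real.exp (-t) := ⟨_, rfl⟩
  have hE0 : 0 < E := by rw [hE]; exact Real.exp_pos _
  have hE1 : 300 * t ^ 227 * E ≤ 1 := by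
    have f1 : 300 * t ^ 227 * E ≤ Real.exp t * E := mul_le_mul_of_nonneg_right hexp hE0.le
    have f2 : Real.exp t * E = 1 := by
      rw [hE, ← Real.exp_add, add_neg_cancel, Real.exp_zero]
    linarith
  have hE2 : Real.exp (-(t ^ 2)) ≤ E := by
    rw [hE]
    refine Real.exp_le_exp.2 ?_
    nlinarith
  have hE3 : Real.exp (-(D / 2)) ≤ E := by
    rw [hE]
    refine Real.exp_le_exp.2 ?_
    have f1 : t ^ 2 ≤ t ^ 84 := hpow (by norm_num)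
    nlinarith
  have ga : 130 * kn * t ^ 2 / S ≤ (t ^ 5 / S) / 5 := by
    have f1 : (t ^ 5 / S) / 5 = (t ^ 5 / 5) / S := by ring
    rw [f1]
    refine div_le_div_of_nonneg_right ?_ hS0.le
    have f2 : 130 * (kn : ℝ) * t ^ 2 ≤ 130 * (2 * t ^ 2) * t ^ 2 := by
      have := hp 2
      nlinarith
    have f3 : 1300 * t ^ 4 ≤ t * t ^ 4 := mul_le_mul_of_nonneg_right ht (hp 4).le
    have f4 : t * t ^ 4 = t ^ 5 := by ring
    have f5 : 130 * (2 * t ^ 2) * t ^ 2 = 260 * t ^ 4 := by ring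
    linarith
  have gb : (4 * D ^ 2 + 1) * (2 * kn * (3 * Real.exp (-(t ^ 2)))) ≤ (t ^ 5 / S) / 5 := by
    refine hr41 _ ?_
    have f1 : D ^ 2 ≤ t ^ 184 := by
      have := pow_le_pow_left₀ hD0.le D2 2
      rwa [← pow_mul] at this
    have f2 : (1 : ℝ) ≤ t ^ 184 := one_le_pow₀ t1
    have f3 : 4 * D ^ 2 + 1 ≤ 5 * t ^ 184 := by linarith
    have f4 : 2 * (kn : ℝ) * (3 * Real.exp (-(t ^ 2))) ≤ 2 * (2 * t ^ 2) * (3 * E) :=
      mul_le_mul (by linarith) (by linarith) (by positivity) (by positivity)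
    have f5 : (4 * D ^ 2 + 1) * (2 * kn * (3 * Real.exp (-(t ^ 2)))) ≤
        5 * t ^ 184 * (2 * (2 * t ^ 2) * (3 * E)) :=
      mul_le_mul f3 f4 (by positivity) (by positivity)
    calc 5 * t ^ 41 * ((4 * D ^ 2 + 1) * (2 * kn * (3 * Real.exp (-(t ^ 2))))) ≤
          5 * t ^ 41 * (5 * t ^ 184 * (2 * (2 * t ^ 2) * (3 * E))) :=
          mul_le_mul_of_nonneg_left f5 (by positivity)
      _ = 300 * t ^ 227 * E := by ring
      _ ≤ 1 := hE1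
  have gc : 16 * D * u ≤ (t ^ 5 / S) / 5 := by
    refine hr41 _ ?_
    have f1 : 5 * t ^ 41 * (16 * D * u) ≤ 5 * t ^ 41 * (16 * (4 * (t ^ 43)⁻¹)) := by
      refine mul_le_mul_of_nonneg_left ?_ (by positivity)
      linarith
    have f2 : 5 * t ^ 41 * (16 * (4 * (t ^ 43)⁻¹)) = 320 / t ^ 2 := by
      rw [show (43 : ℕ) = 41 + 2 by norm_num, pow_add]
      have := (hp 41).ne'
      have := (hp 2).ne'
      field_simp
      norm_num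
    rw [f2] at f1
    refine f1.trans ?_
    rw [div_le_one (hp 2)]
    linarith
  have gd : 16 * D * Real.exp (-(D / 2)) ≤ (t ^ 5 / S) / 5 := by
    refine hr41 _ ?_
    have f1 : D * Real.exp (-(D / 2)) ≤ t ^ 92 * E :=
      mul_le_mul D2 hE3 (Real.exp_pos _).le (hp 92).le
    have f2 : 5 * t ^ 41 * (16 * D * Real.exp (-(D / 2))) ≤ 5 * t ^ 41 * (16 * (t ^ 92 * E)) := by
      refine mul_le_mul_of_nonneg_left ?_ (by positivity)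
      linarith
    have f3 : 5 * t ^ 41 * (16 * (t ^ 92 * E)) = 80 * t ^ 133 * E := by ring
    have f4 : t ^ 133 * E ≤ t ^ 227 * E :=
      mul_le_mul_of_nonneg_right (hpow (by norm_num)) hE0.le
    have f5 : 0 ≤ t ^ 227 * E := by positivity
    rw [f3] at f2
    linarith
  have ge : 8 * (kn : ℝ) ^ 2 * (24 * D ^ 4 / m + 2 * t ^ 2) / D ^ 2 ≤ (t ^ 5 / S) / 5 := by
    refine hr41 _ ?_
    have f1 : 24 * D ^ 4 / m ≤ 24 * t ^ 73 := by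
      rw [div_le_iff₀ hm0]
      have g1 : D ^ 4 ≤ t ^ 368 := by
        have := pow_le_pow_left₀ hD0.le D2 4
        rwa [← pow_mul] at this
      have g2 : t ^ 73 * t ^ 295 ≤ t ^ 73 * m := mul_le_mul_of_nonneg_left m1 (hp 73).le
      have g3 : t ^ 73 * t ^ 295 = t ^ 368 := by ring
      rw [g3] at g2
      linarith
    have f2 : t ^ 2 ≤ t ^ 73 := hpow (by norm_num)
    have f3 : 24 * D ^ 4 / m + 2 * t ^ 2 ≤ 26 * t ^ 73 := by linarith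
    have f4 : (kn : ℝ) ^ 2 ≤ 4 * t ^ 4 := by
      have g1 := pow_le_pow_left₀ hk0.le k2 2
      have g2 : (2 * t ^ 2) ^ 2 = 4 * t ^ 4 := by ring
      rwa [g2] at g1
    have f5 : 8 * (kn : ℝ) ^ 2 * (24 * D ^ 4 / m + 2 * t ^ 2) ≤ 8 * (4 * t ^ 4) * (26 * t ^ 73) :=
      mul_le_mul (by linarith) f3 (by positivity) (by positivity)
    have f6 : t ^ 168 ≤ D ^ 2 := by
      have := pow_le_pow_left₀ (hp 84).le D1 2
      rwa [← pow_mul] at this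
    have f7 : 0 < D ^ 2 := by positivity
    rw [← mul_div_assoc, div_le_one f7]
    refine le_trans ?_ f6
    calc 5 * t ^ 41 * (8 * (kn : ℝ) ^ 2 * (24 * D ^ 4 / m + 2 * t ^ 2)) ≤
          5 * t ^ 41 * (8 * (4 * t ^ 4) * (26 * t ^ 73)) :=
          mul_le_mul_of_nonneg_left f5 (by positivity)
      _ = 4160 * t ^ 118 := by ring
      _ ≤ t ^ 2 * t ^ 118 := mul_le_mul_of_nonneg_right (by linarith) (hp 118).le
      _ = t ^ 120 := by ring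
      _ ≤ t ^ 168 := hpow (by norm_num)
  linarith

/-- the numerics in terms of `t = x^(1/100)` -/
private theorem Nuc_main {t D m B S : ℝ} {kn : ℕ} (ht : 1300 ≤ t)
    (hexp : 300 * t ^ 227 ≤ Real.exp t) (hS : S = Real.sqrt D)
    (D1 : t ^ 84 ≤ D) (D2 : D ≤ t ^ 92) (m1 : t ^ 295 ≤ m) (m2 : m ≤ t ^ 302)
    (B1 : t ^ 210 ≤ B) (k1 : t ^ 2 ≤ kn) (k2 : (kn : ℝ) ≤ 2 * t ^ 2) :
    2000 * t ^ 2 ≤ D ∧
    (t ^ 135)⁻¹ + 3 * D / m ≤ 1 / 4 ∧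
    D * ((t ^ 135)⁻¹ + 3 * D / m) ≤ Real.sqrt (D * t ^ 2) ∧
    (kn : ℝ) ^ 2 ≤ t ^ 2 * D ∧
    8 * D * m * (2 * D / B) ^ kn ≤ Real.exp (-(t ^ 2)) ∧
    130 * kn * t ^ 2 / S +
      (4 * D ^ 2 + 1) * (2 * kn * (3 * Real.exp (-(t ^ 2)))) +
      16 * D * ((t ^ 135)⁻¹ + 3 * D / m) + 16 * D * Real.exp (-(D / 2)) +
      8 * (kn : ℝ) ^ 2 * (24 * D ^ 4 / m + 2 * t ^ 2) / D ^ 2 ≤
      t ^ 5 / S ∧
    t ^ 5 / S ≤ 1 ∧
    252 * D * (t ^ 5 / S) ≤ t ^ 60 := by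
  have t1 : 1 ≤ t := by linarith
  have t0 : 0 < t := by linarith
  have hpow : ∀ {a b : ℕ}, a ≤ b → t ^ a ≤ t ^ b := fun h => pow_le_pow_right₀ t1 h
  have hp : ∀ n : ℕ, 0 < t ^ n := fun n => pow_pos t0 n
  have ht2 : 1690000 ≤ t ^ 2 := by nlinarith
  have hD0 : 0 < D := (hp 84).trans_le D1
  have hm0 : 0 < m := (hp 295).trans_le m1
  have hB0 : 0 < B := (hp 210).trans_le B1
  have hk0 : (0 : ℝ) < kn := (hp 2).trans_le k1
  have hSS : S * S = D := by rw [hS]; exact Real.mul_self_sqrt hD0.le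
  have hS1 : t ^ 42 ≤ S := by
    rw [hS]
    refine Real.le_sqrt_of_sq_le ?_
    rw [← pow_mul]
    exact D1
  have hS2 : S ≤ t ^ 46 := by
    rw [hS]
    refine Real.sqrt_le_iff.2 ⟨(hp 46).le, ?_⟩
    rw [← pow_mul]
    exact D2
  have hS0 : 0 < S := (hp 42).trans_le hS1
  -- the error term
  have hu1 : 3 * D / m ≤ 3 * (t ^ 135)⁻¹ := by
    rw [div_le_iff₀ hm0]
    have e1 : (t ^ 135)⁻¹ * t ^ 295 = t ^ 160 := by
      rw [show (295 : ℕ) = 135 + 160 by norm_num, pow_add, inv_mul_cancel_left₀ (hp 135).ne']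
    have e2 : (t ^ 135)⁻¹ * t ^ 295 ≤ (t ^ 135)⁻¹ * m :=
      mul_le_mul_of_nonneg_left m1 (inv_pos.2 (hp 135)).le
    have e3 : t ^ 92 ≤ t ^ 160 := hpow (by norm_num)
    rw [e1] at e2
    have e4 : 3 * (t ^ 135)⁻¹ * m = 3 * ((t ^ 135)⁻¹ * m) := by ring
    rw [e4]
    linarith
  obtain ⟨u, hu⟩ : ∃ u, u = (t ^ 135)⁻¹ + 3 * D / m := ⟨_, rfl⟩
  rw [← hu]
  have hu2 : u ≤ 4 * (t ^ 135)⁻¹ := by rw [hu]; linarith
  have hu0 : 0 ≤ u := by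
    rw [hu]
    have := hp 135
    positivity
  have hDu : D * u ≤ 4 * (t ^ 43)⁻¹ := by
    have e1 : t ^ 92 * (t ^ 135)⁻¹ = (t ^ 43)⁻¹ := by
      rw [show (135 : ℕ) = 92 + 43 by norm_num, pow_add, mul_inv,
        mul_inv_cancel_left₀ (hp 92).ne']
    calc D * u ≤ t ^ 92 * (4 * (t ^ 135)⁻¹) := mul_le_mul D2 hu2 hu0 (hp 92).le
      _ = 4 * (t ^ 92 * (t ^ 135)⁻¹) := by ring
      _ = _ := by rw [e1]
  have h43 : 4 * (t ^ 43)⁻¹ ≤ 1 := by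
    rw [← div_eq_mul_inv, div_le_one (hp 43)]
    have : t ^ 1 ≤ t ^ 43 := hpow (by norm_num)
    rw [pow_one] at this
    linarith
  have hr : t ^ 5 / S ≥ (t ^ 41)⁻¹ := by
    rw [ge_iff_le, le_div_iff₀ hS0, inv_mul_le_iff₀ (hp 41), ← pow_add]
    exact hS2
  have hr41 : ∀ y : ℝ, 5 * t ^ 41 * y ≤ 1 → y ≤ (t ^ 5 / S) / 5 := by
    intro y hy
    have e1 : y ≤ 1 / (5 * t ^ 41) := by
      rw [le_div_iff₀ (by have := hp 41; positivity)]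
      linarith
    have e2 : 1 / (5 * t ^ 41) = (t ^ 41)⁻¹ / 5 := by
      have := (hp 41).ne'
      field_simp
    rw [e2] at e1
    linarith
  refine ⟨?_, ?_, ?_, ?_, ?_, ?_, ?_, ?_⟩
  · have e1 : t ^ 4 ≤ t ^ 84 := hpow (by norm_num)
    nlinarith [hp 2]
  · have e1 : (t ^ 135)⁻¹ ≤ 1 / 16 := by
      rw [inv_eq_one_div]
      refine one_div_le_one_div_of_le (by norm_num) ?_
      have : t ^ 1 ≤ t ^ 135 := hpow (by norm_num)
      rw [pow_one] at this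
      linarith
    linarith
  · refine (hDu.trans h43).trans ?_
    refine Real.le_sqrt_of_sq_le ?_
    have e1 : t ^ 0 ≤ t ^ 84 := hpow (by norm_num)
    rw [pow_zero] at e1
    nlinarith
  · have e1 : t ^ 4 ≤ t ^ 84 := hpow (by norm_num)
    have e2 : (kn : ℝ) ^ 2 ≤ (2 * t ^ 2) ^ 2 := pow_le_pow_left₀ hk0.le k2 2
    nlinarith [hp 2]
  · exact Nuc_5 ht hD0 D2 hm0 m2 B1 k1
  · exact Nuc_6 ht hexp hS0 D1 D2 m1 k1 k2 hDu hr41
  · rw [div_le_one hS0]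
    exact (hpow (by norm_num)).trans hS1
  · have e1 : 252 * D * (t ^ 5 / S) = 252 * t ^ 5 * S := by
      rw [← hSS]
      field_simp
    rw [e1]
    have e2 : 252 * t ^ 5 * S ≤ 252 * t ^ 5 * t ^ 46 :=
      mul_le_mul_of_nonneg_left hS2 (by positivity)
    have e3 : t ^ 51 * t = t ^ 52 := by ring
    have e4 : t ^ 52 ≤ t ^ 60 := hpow (by norm_num)
    have e5 : 252 * t ^ 5 * t ^ 46 = 252 * t ^ 51 := by ring
    have e6 : t ^ 51 * 1300 ≤ t ^ 51 * t := mul_le_mul_of_nonneg_left ht (hp 51).le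
    have e7 := hp 51
    linarith

theorem nuc : ∃ x0 : ℝ, 1 ≤ x0 ∧ ∀ (x r q pb m D M B b c : ℝ) (kn : ℕ), x0 ≤ x →
    NuB x r q pb m D M B b kn c →
    2000 * x ^ (1 / 50 : ℝ) ≤ D ∧
    x ^ (-27 / 20 : ℝ) + 3 * D / m ≤ 1 / 4 ∧
    D * (x ^ (-27 / 20 : ℝ) + 3 * D / m) ≤ Real.sqrt (D * x ^ (1 / 50 : ℝ)) ∧
    (kn : ℝ) ^ 2 ≤ x ^ (1 / 50 : ℝ) * D ∧
    8 * D * m * (2 * D / B) ^ kn ≤ Real.exp (-(x ^ (1 / 50 : ℝ))) ∧
    130 * kn * x ^ (1 / 50 : ℝ) / Real.sqrt D +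
      (4 * D ^ 2 + 1) * (2 * kn * (3 * Real.exp (-(x ^ (1 / 50 : ℝ))))) +
      16 * D * (x ^ (-27 / 20 : ℝ) + 3 * D / m) + 16 * D * Real.exp (-(D / 2)) +
      8 * (kn : ℝ) ^ 2 * (24 * D ^ 4 / m + 2 * x ^ (1 / 50 : ℝ)) / D ^ 2 ≤
      x ^ (1 / 20 : ℝ) / Real.sqrt D ∧
    x ^ (1 / 20 : ℝ) / Real.sqrt D ≤ 1 ∧
    252 * D * (x ^ (1 / 20 : ℝ) / Real.sqrt D) ≤ x ^ (3 / 5 : ℝ) := by
  obtain ⟨T, hT⟩ : ∃ T : ℝ, ∀ t ≥ T, 300 * t ^ 227 ≤ Real.exp t := by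
    have h1 := Real.tendsto_pow_mul_exp_neg_atTop_nhds_zero 227
    have h2 : ∀ᶠ t : ℝ in Filter.atTop, t ^ 227 * Real.exp (-t) < 1 / 300 :=
      h1.eventually_lt_const (by norm_num)
    obtain ⟨T, hT⟩ := Filter.eventually_atTop.1 h2
    refine ⟨T, fun t ht => ?_⟩
    have h3 := hT t ht
    have h4 := Real.exp_pos t
    have h5 : t ^ 227 * Real.exp (-t) * Real.exp t = t ^ 227 := by
      rw [mul_assoc, ← Real.exp_add, neg_add_cancel, Real.exp_zero, mul_one]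
    have h6 : t ^ 227 * Real.exp (-t) * Real.exp t ≤ 1 / 300 * Real.exp t :=
      mul_le_mul_of_nonneg_right h3.le h4.le
    rw [h5] at h6
    linarith
  have hT1 : (1 : ℝ) ≤ (max 1300 T) ^ 100 :=
    one_le_pow₀ (le_trans (by norm_num) (le_max_left _ _))
  refine ⟨(max 1300 T) ^ 100, hT1, ?_⟩
  intro x r q pb m D M B b c kn hx h
  have hx0 : 0 ≤ x := by linarith
  have hTm : (0 : ℝ) ≤ max 1300 T := le_trans (by norm_num) (le_max_left _ _)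
  obtain ⟨t, ht⟩ : ∃ t : ℝ, t = x ^ (((100 : ℕ) : ℝ)⁻¹) := ⟨_, rfl⟩
  have ht1 : max 1300 T ≤ t := by
    have h1 := Real.rpow_le_rpow (pow_nonneg hTm 100) hx
      (by positivity : (0 : ℝ) ≤ (((100 : ℕ) : ℝ)⁻¹))
    rwa [Real.pow_rpow_inv_natCast hTm (by norm_num), ← ht] at h1
  have hp : ∀ (n : ℕ) (e : ℝ), e = n / 100 → x ^ e = t ^ n := by
    intro n e he
    rw [← Real.rpow_natCast t n, ht, ← Real.rpow_mul hx0, he]
    congr 1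
    push_cast
    ring
  have hn : ∀ (n : ℕ) (e : ℝ), e = -(n / 100) → x ^ e = (t ^ n)⁻¹ := by
    intro n e he
    rw [he, Real.rpow_neg hx0, hp n _ rfl]
  have e2 := hp 2 (1 / 50) (by norm_num)
  have e135 := hn 135 (-27 / 20) (by norm_num)
  have e5 := hp 5 (1 / 20) (by norm_num)
  have e60 := hp 60 (3 / 5) (by norm_num)
  have D1 := h.D1
  have D2 := h.D2
  have m1 := h.m1
  have m2 := h.m2
  have B1 := h.B1
  have k1 := h.k1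
  have k2 := h.k2
  rw [hp 84 (21 / 25) (by norm_num)] at D1
  rw [hp 92 (23 / 25) (by norm_num)] at D2
  rw [hp 295 (59 / 20) (by norm_num)] at m1
  rw [hp 302 (151 / 50) (by norm_num)] at m2
  rw [hp 210 (21 / 10) (by norm_num)] at B1
  rw [e2] at k1 k2
  rw [e2, e135, e5, e60]
  exact Nuc_main ((le_max_left _ _).trans ht1) (hT t ((le_max_right _ _).trans ht1)) rfl D1 D2 m1 m2
    B1 k1 k2

end Pool.Agent.H65.GI
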