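/-
ROW Num. The numerical conditions hold for large `Δ`, uniformly in `pb`: assembly of `nua`, `nub`, `nuc`, `nud`.
PROOF. Parameters: `lam = Δ^(1/50)`, `B1 = ⌈Δ^(11/10)⌉₊`, `C = 2200`, `M = ⌈Δ^(21/10)⌉₊`, `B = M * 2^C`, `K2 = ⌈Δ^(1/50)⌉₊`, `κ = ⌈4 Δ^(1/50)⌉₊`, `m = pb (1 - 2 pb) r^4`, `η = Δ^(-27/20)`, `D = m/B`, `ρ = Δ^(1/20)/sqrt D`. `Δ0` = maximum of all thresholds (`⌈x0⌉₊`). The clauses `mR, ν1, ν2, ν3` from `x^(61/100) ≤ D (r^4/(8 b q))/B` of `nub` and `x^(3/5) ≤ x^(61/100)/4` of `nud`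
(`D * mR / (4 * B) = (D * mR / B)/4 ≥ x^(3/5)`; `ν2`: `136 (3 + 2 lam) ρ ≤ 136 (3+2 lam)`). Casts: `((s * w : ℕ) : ℝ) = s * w`, `((r ^ 4 : ℕ) : ℝ)`, ... (`push_cast`). Do not let `norm_num`/`simp` evaluate `2^2200` (`generalize` it, or `set c0 := 2^2200`).
-/
import Pool.Agent.H65.GI.Nua
import Pool.Agent.H65.GI.Nub
import Pool.Agent.H65.GI.Nuc
import Pool.Agent.H65.GI.Nud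

set_option autoImplicit false

namespace Pool.Agent.H65.GI

theorem Num_fin (Δ w K s r : ℕ) (pb m D : ℝ) (B1 M B K2 κ C : ℕ) (hΔ : (1 : ℝ) ≤ Δ)
    (h : NuB Δ (r : ℝ) ((s * w : ℕ) : ℝ) pb m D (M : ℝ) (B : ℝ) (B1 : ℝ) (K2 : ℝ) (κ : ℝ))
    (hBM : B = M * 2 ^ C) (hDB : D = m / B)
    (hb : 7 * K * (r : ℝ) ^ 2 + 8 * (Δ : ℝ) ^ (1 / 50 : ℝ) * r ^ 3 ≤ (r : ℝ) ^ 4 / 2 ∧
      2 * (Δ : ℝ) ≤ B1 ∧ (r : ℝ) ≤ B1 * ((s * w : ℕ) : ℝ) ∧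
      64 * (Δ : ℝ) ^ (1 / 50 : ℝ) ≤ (r : ℝ) ^ 4 / (B1 * ((s * w : ℕ) : ℝ)) ∧
      4 * ((3 * ((s * w : ℕ) : ℝ) + 1) * Real.exp (-((Δ : ℝ) ^ (1 / 50 : ℝ)))) *
        ((Δ : ℝ) + 1) ^ (2 * 10) ≤ 1 ∧
      (Δ : ℝ) ^ (38 / 25 : ℝ) + 6 * K * pb * (r : ℝ) ^ 2 +
        4 * pb * (r : ℝ) ^ 2 * ((Δ : ℝ) ^ (13 / 25 : ℝ) + pb * ((3 * K + 1) * r)) +
        2 * ((Δ : ℝ) ^ (13 / 25 : ℝ) + pb * ((3 * K + 1) * r)) ^ 2 ≤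
          (Δ : ℝ) ^ (-27 / 20 : ℝ) * m ∧
      3 * ((r : ℝ) ^ 4 / (B1 * ((s * w : ℕ) : ℝ))) + 2 * (Δ : ℝ) ^ (1 / 50 : ℝ) ≤ B ∧
      (Δ : ℝ) ^ (61 / 100 : ℝ) ≤ D * ((r : ℝ) ^ 4 / (8 * (B1 * ((s * w : ℕ) : ℝ)))) / B ∧
      32 * (Δ : ℝ) ^ (1 / 50 : ℝ) ≤ (Δ : ℝ) ^ (61 / 100 : ℝ) ∧
      pb * (r : ℝ) ^ 4 + (Δ : ℝ) ^ (38 / 25 : ℝ) ≤ 2 * m)
    (hc : 2000 * (Δ : ℝ) ^ (1 / 50 : ℝ) ≤ D ∧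
      (Δ : ℝ) ^ (-27 / 20 : ℝ) + 3 * D / m ≤ 1 / 4 ∧
      D * ((Δ : ℝ) ^ (-27 / 20 : ℝ) + 3 * D / m) ≤ Real.sqrt (D * (Δ : ℝ) ^ (1 / 50 : ℝ)) ∧
      (K2 : ℝ) ^ 2 ≤ (Δ : ℝ) ^ (1 / 50 : ℝ) * D ∧
      8 * D * m * (2 * D / B) ^ K2 ≤ Real.exp (-((Δ : ℝ) ^ (1 / 50 : ℝ))) ∧
      130 * K2 * (Δ : ℝ) ^ (1 / 50 : ℝ) / Real.sqrt D +
        (4 * D ^ 2 + 1) * (2 * K2 * (3 * Real.exp (-((Δ : ℝ) ^ (1 / 50 : ℝ))))) +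
        16 * D * ((Δ : ℝ) ^ (-27 / 20 : ℝ) + 3 * D / m) + 16 * D * Real.exp (-(D / 2)) +
        8 * (K2 : ℝ) ^ 2 * (24 * D ^ 4 / m + 2 * (Δ : ℝ) ^ (1 / 50 : ℝ)) / D ^ 2 ≤
        (Δ : ℝ) ^ (1 / 20 : ℝ) / Real.sqrt D ∧
      (Δ : ℝ) ^ (1 / 20 : ℝ) / Real.sqrt D ≤ 1 ∧
      252 * D * ((Δ : ℝ) ^ (1 / 20 : ℝ) / Real.sqrt D) ≤ (Δ : ℝ) ^ (3 / 5 : ℝ))
    (hd : 2 * (3 + 2 * (Δ : ℝ) ^ (1 / 50 : ℝ)) ≤ (Δ : ℝ) ^ (3 / 5 : ℝ) ∧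
      136 * (3 + 2 * (Δ : ℝ) ^ (1 / 50 : ℝ)) ≤ (Δ : ℝ) ^ (3 / 5 : ℝ) ∧
      (Δ : ℝ) ^ (3 / 5 : ℝ) ≤ (Δ : ℝ) ^ (61 / 100 : ℝ) / 4 ∧
      (Δ : ℝ) ^ (1 / 50 : ℝ) + 4 + 2 * (Δ : ℝ) ^ (1 / 50 : ℝ) ≤ κ ∧
      4 * (((s * w : ℕ) : ℝ) * ((14 + 4 * m + 12 * D ^ 2) *
          Real.exp (-((Δ : ℝ) ^ (1 / 50 : ℝ)))) +
        ((s * w : ℕ) : ℝ) * (r : ℝ) ^ 4 * (4 * ((κ : ℝ) ^ 2 * (2 * (r : ℝ) ^ 2 +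
          2 * ((s * w : ℕ) : ℝ) * r)) * (1 / M)) ^ (C + 1) +
        ((s * w : ℕ) : ℝ) * Real.exp (-((Δ : ℝ) ^ (1 / 50 : ℝ)))) *
          ((Δ : ℝ) + 1) ^ (2 * 45) ≤ 1 ∧
      (3 * (6 * (κ : ℝ) ^ 2 * (r : ℝ) ^ 2 / B) + 2 * (Δ : ℝ) ^ (1 / 50 : ℝ)) * (2 / D) ≤
        1 / 2) :
    Nums Δ w K s r pb ((Δ : ℝ) ^ (38 / 25 : ℝ)) ((Δ : ℝ) ^ (13 / 25 : ℝ))
        ((Δ : ℝ) ^ (1 / 50 : ℝ)) ((Δ : ℝ) ^ (1 / 50 : ℝ)) B1 M C B K2 κ m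
        ((Δ : ℝ) ^ (-27 / 20 : ℝ)) D ((Δ : ℝ) ^ (1 / 20 : ℝ) / Real.sqrt D) := by
  obtain ⟨b1, b2, b3, b4, b5, b6, b7, b8, b9, b10⟩ := hb
  obtain ⟨c1, c2, c3, c4, c5, c6, c7, c8⟩ := hc
  obtain ⟨d1, d2, d3, d4, d5, d6⟩ := hd
  have hx0 : (0 : ℝ) < Δ := by linarith
  have hq : ((s * w : ℕ) : ℝ) = (s : ℝ) * (w : ℝ) := Nat.cast_mul _ _
  have hpos : ∀ a : ℝ, 0 < (Δ : ℝ) ^ a := fun a => Real.rpow_pos_of_pos hx0 a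
  have hone : ∀ a : ℝ, 0 ≤ a → 1 ≤ (Δ : ℝ) ^ a := fun a ha => Real.one_le_rpow hΔ ha
  have hρ0 : 0 ≤ (Δ : ℝ) ^ (1 / 20 : ℝ) / Real.sqrt D :=
    div_nonneg (hpos _).le (Real.sqrt_nonneg _)
  have hmR : (Δ : ℝ) ^ (61 / 100 : ℝ) / 4 ≤
      D * ((r : ℝ) ^ 4 / (8 * (B1 * ((s : ℝ) * w)))) / (4 * B) := by
    rw [hq] at b8
    have e : D * ((r : ℝ) ^ 4 / (8 * (B1 * ((s : ℝ) * w)))) / (4 * B) =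
        D * ((r : ℝ) ^ 4 / (8 * (B1 * ((s : ℝ) * w)))) / B / 4 := by
      rw [div_div, mul_comm (B : ℝ) 4]
    rw [e]
    linarith
  have h35 : (Δ : ℝ) ^ (3 / 5 : ℝ) ≤
      D * ((r : ℝ) ^ 4 / (8 * (B1 * ((s : ℝ) * w)))) / (4 * B) := d3.trans hmR
  have hr4 : ((r ^ 4 : ℕ) : ℝ) = (r : ℝ) ^ 4 := Nat.cast_pow _ _
  have hk4 : ((4 * (κ ^ 2 * (2 * r ^ 2 + 2 * (s * w) * r)) : ℕ) : ℝ) =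
      4 * ((κ : ℝ) ^ 2 * (2 * (r : ℝ) ^ 2 + 2 * ((s * w : ℕ) : ℝ) * r)) := by
    push_cast
    ring
  have hk6 : ((6 * κ ^ 2 * r ^ 2 : ℕ) : ℝ) = 6 * (κ : ℝ) ^ 2 * (r : ℝ) ^ 2 := by
    push_cast
    ring
  refine
    { sw := ?_, r4 := b1, B1p := ?_, B1a := ?_, B1b := ?_, lam1 := hone _ (by norm_num),
      low := ?_, lll1 := ?_, M1 := ?_, BM := hBM, K2a := ?_, pb0 := ?_, e20 := (hpos _).le,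
      mdef := h.mdef, DB := hDB, mpos := ?_, η0 := (hpos _).le, err := b6, D1 := c1,
      eta1 := c2, eta2 := c3, KD := c4, BR := ?_, mR := ?_, res := b10, hK := c5, hρ := c6,
      ρ0 := hρ0, ν1 := ?_, ν2 := ?_, ν3 := ?_, kap := d4, lll2 := ?_, mid := ?_ }
  · have h1 := h.q1
    have h2 : (0 : ℝ) < ((s * w : ℕ) : ℝ) := by linarith
    exact_mod_cast h2
  · have h1 := h.b1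
    have h2 : (0 : ℝ) < (B1 : ℝ) := (hpos _).trans_le h1
    exact_mod_cast h2
  · exact_mod_cast b2
  · exact_mod_cast b3
  · rw [hq] at b4
    exact b4
  · rw [hq] at b5
    exact b5
  · have h1 := h.M1
    have h2 : (0 : ℝ) < (M : ℝ) := (hpos _).trans_le h1
    exact_mod_cast h2
  · have h1 := h.k1
    have h2 : (0 : ℝ) < (K2 : ℝ) := (hpos _).trans_le h1
    exact_mod_cast h2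
  · exact (hpos _).le.trans h.p1
  · exact (hpos _).trans_le h.m1
  · rw [hq] at b7
    exact b7
  · rw [hq] at b8
    exact b9.trans b8
  · exact d1.trans h35
  · have h0 : 0 ≤ 136 * (3 + 2 * (Δ : ℝ) ^ (1 / 50 : ℝ)) := by
      have := hpos (1 / 50)
      positivity
    calc 136 * (3 + 2 * (Δ : ℝ) ^ (1 / 50 : ℝ)) * ((Δ : ℝ) ^ (1 / 20 : ℝ) / Real.sqrt D)
        ≤ 136 * (3 + 2 * (Δ : ℝ) ^ (1 / 50 : ℝ)) * 1 := mul_le_mul_of_nonneg_left c7 h0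
      _ = 136 * (3 + 2 * (Δ : ℝ) ^ (1 / 50 : ℝ)) := mul_one _
      _ ≤ _ := d2.trans h35
  · exact c8.trans h35
  · rw [hr4, hk4]
    exact d5
  · rw [hk6]
    exact d6

theorem num (w K : ℕ) (hw : 1 ≤ w) : ∃ Δ0 : ℕ, ∀ Δ, Δ0 ≤ Δ → ∀ pb : ℝ,
    1 / ((Δ : ℝ) ^ (1 / 50 : ℝ) * Δ) ≤ pb → pb ≤ (Δ : ℝ) ^ (1 / 50 : ℝ) / Δ →
    ∃ (lam : ℝ) (B1 M C B K2 κ : ℕ) (m η D ρ : ℝ),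
      Nums Δ w K (Δ / (8 * w)) (Δ / 8) pb ((Δ : ℝ) ^ (38 / 25 : ℝ)) ((Δ : ℝ) ^ (13 / 25 : ℝ))
        ((Δ : ℝ) ^ (1 / 50 : ℝ)) lam B1 M C B K2 κ m η D ρ := by
  obtain ⟨a0, ha0, hA⟩ := nua w hw
  obtain ⟨x1, hx1, hB⟩ := nub K
  obtain ⟨x2, hx2, hC⟩ := nuc
  obtain ⟨x3, hx3, hD⟩ := nud
  refine ⟨max (max a0 ⌈x1⌉₊) (max ⌈x2⌉₊ ⌈x3⌉₊), fun Δ hΔ pb hp1 hp2 => ?_⟩
  have e0 : a0 ≤ Δ := ((le_max_left _ _).trans (le_max_left _ _)).trans hΔ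
  have e1 : x1 ≤ Δ := (Nat.le_ceil x1).trans
    (by exact_mod_cast ((le_max_right _ _).trans (le_max_left _ _)).trans hΔ)
  have e2 : x2 ≤ Δ := (Nat.le_ceil x2).trans
    (by exact_mod_cast ((le_max_left _ _).trans (le_max_right _ _)).trans hΔ)
  have e3 : x3 ≤ Δ := (Nat.le_ceil x3).trans
    (by exact_mod_cast ((le_max_right _ _).trans (le_max_right _ _)).trans hΔ)
  have h := hA Δ e0 pb hp1 hp2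
  exact ⟨(Δ : ℝ) ^ (1 / 50 : ℝ), ⌈(Δ : ℝ) ^ (11 / 10 : ℝ)⌉₊, ⌈(Δ : ℝ) ^ (21 / 10 : ℝ)⌉₊, 2200,
    ⌈(Δ : ℝ) ^ (21 / 10 : ℝ)⌉₊ * 2 ^ 2200, ⌈(Δ : ℝ) ^ (1 / 50 : ℝ)⌉₊,
    ⌈4 * (Δ : ℝ) ^ (1 / 50 : ℝ)⌉₊, _, _, _, _,
    Num_fin Δ w K (Δ / (8 * w)) (Δ / 8) pb _ _ _ _ _ _ _ 2200 (hx1.trans e1) h rfl rfl
      (hB _ _ _ _ _ _ _ _ _ _ _ e1 h) (hC _ _ _ _ _ _ _ _ _ _ _ e2 h)
      (hD _ _ _ _ _ _ _ _ _ _ _ e3 h)⟩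

end Pool.Agent.H65.GI
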