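/-
ROW Mts. Block E: from the colouring theorem to the matchings.
PROOF. `w ≥ 1`: `K`, `Δ1` from `hC w`, `Δ2` from `num w K`; `Δ0` = maximum. For `G`: `hC` gives `side D N R f pb` with `IsCol`; `num` the parameters; `asm`.
-/
import Pool.Agent.H65.GI.Asm
import Pool.Agent.H65.GI.Num
import Pool.Agent.H65.GI.Top2

set_option autoImplicit false

namespace Pool.Agent.H65.GI

open Finset Classical

theorem mats (hC : Top.Colr) : Top.Mats := by
  intro w hw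
  obtain ⟨K, Δ1, h1⟩ := hC w hw
  obtain ⟨Δ2, h2⟩ := num w K hw
  refine ⟨max Δ1 Δ2, ?_⟩
  intro Δ hΔ V _ G hG ht
  obtain ⟨side, D, N, R, f, pb, hp1, hp2, hcol⟩ := h1 Δ (le_trans (le_max_left _ _) hΔ) V G hG ht
  obtain ⟨lam, B1, M, C, B, K2, κ, m, η, D', ρ, hn⟩ := h2 Δ (le_trans (le_max_right _ _) hΔ) pb hp1 hp2
  obtain ⟨S, Mt, hS, hi, hadj, hdis, hfix, hc1, hc2⟩ := asm hG ht hcol hn
  exact ⟨f, S, Mt, hcol.prop, hS, hi, hadj, hdis, hfix, hc1, hc2⟩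

end Pool.Agent.H65.GI
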