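/-
ROW Nud. Numerics, group 3.
PROOF. `lam = x^(1/50)`. `2 (3 + 2 lam) ≤ x^(3/5)`, `136 (3 + 2 lam) ≤ x^(3/5)`, `x^(3/5) ≤ x^(61/100)/4`. `3 lam + 4 ≤ 4 lam ≤ c`. Local lemma: `exp (-lam) ≤ x^(-200)` for large `x`; `q (14 + 4m + 12 D^2) ≤ x^6`; `c^2 ≤ 25 x^(1/25)`, `2 r^2 + 2 q r ≤ 4 x^2/64`, so `4 c^2 (..) ≤ (25/4) x^(51/25)`, times `1/M ≤ x^(-21/10)`: `≤ (25/4) x^(-3/50) ≤ x^(-1/20)`, and its power `2201` is `≤ x^(-110)`;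
`q r^4 ≤ x^5`; `(x+1)^90 ≤ (2x)^90 ≤ x^91`. Sum times `4 (x+1)^90`: `≤ 12 x^(-10) ≤ 1`. `mid`: `6 c^2 r^2/B ≤ 150 x^(1/25) x^2/64 / x^(21/10) ≤ 1`; `(3 + 2 lam) 2/D ≤ 1/2` (`D ≥ x^(21/25)`).
-/
import Pool.Agent.H65.GI.NuD

set_option autoImplicit false

namespace Pool.Agent.H65.GI

theorem Nud_pw {t : ℝ} (ht : 1 ≤ t) {a b n : ℕ} (h : a + b ≤ n) :
    t ^ a * (t ^ n)⁻¹ ≤ (t ^ b)⁻¹ := by
  have h0 : 0 < t := by linarith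
  rw [← div_eq_mul_inv, ← one_div, div_le_div_iff₀ (pow_pos h0 n) (pow_pos h0 b), one_mul,
    ← pow_add]
  exact pow_le_pow_right₀ ht h

theorem Nud_rp {x : ℝ} (hx : 0 ≤ x) (k : ℕ) :
    (x ^ (1 / 100 : ℝ)) ^ k = x ^ ((k : ℝ) / 100) := by
  rw [← Real.rpow_natCast, ← Real.rpow_mul hx]
  congr 1
  ring

theorem Nud_exp : ∃ s0 : ℝ, ∀ s : ℝ, s0 ≤ s → s ^ 10000 * Real.exp (-s) ≤ 1 := by
  have h := Real.tendsto_pow_mul_exp_neg_atTop_nhds_zero 10000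
  exact Filter.eventually_atTop.1 (h.eventually_le_const zero_lt_one)

theorem Nud_A1 {t q m D E w : ℝ} (ht : 7 ≤ t) (hq : q ≤ t ^ 100 / 8) (hm0 : 0 ≤ m)
    (hm : m ≤ t ^ 302) (hD0 : 0 ≤ D) (hD : D ≤ t ^ 92) (hE0 : 0 ≤ E) (hE : E ≤ w)
    (hw0 : 0 ≤ w) : q * ((14 + 4 * m + 12 * D ^ 2) * E) ≤ t ^ 403 * w := by
  have ht1 : 1 ≤ t := by linarith
  have ht0 : 0 < t := by linarith
  have hp : ∀ n : ℕ, 0 < t ^ n := fun n => pow_pos ht0 n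
  have hD2 : D ^ 2 ≤ t ^ 302 := by
    calc D ^ 2 ≤ (t ^ 92) ^ 2 := pow_le_pow_left₀ hD0 hD 2
      _ = t ^ 184 := by rw [← pow_mul]
      _ ≤ t ^ 302 := pow_le_pow_right₀ ht1 (by norm_num)
  have h1 : 1 ≤ t ^ 302 := one_le_pow₀ ht1
  have hS : 14 + 4 * m + 12 * D ^ 2 ≤ 30 * t ^ 302 := by linarith
  have hS0 : 0 ≤ 14 + 4 * m + 12 * D ^ 2 := by positivity
  calc q * ((14 + 4 * m + 12 * D ^ 2) * E) ≤ (t ^ 100 / 8) * ((30 * t ^ 302) * w) := by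
        have h2 : (14 + 4 * m + 12 * D ^ 2) * E ≤ (30 * t ^ 302) * w :=
          mul_le_mul hS hE hE0 (by positivity)
        exact mul_le_mul hq h2 (mul_nonneg hS0 hE0) (by positivity)
    _ = 30 / 8 * (t ^ 402 * w) := by ring
    _ ≤ t * (t ^ 402 * w) := mul_le_mul_of_nonneg_right (by linarith)
        (mul_nonneg (hp _).le hw0)
    _ = t ^ 403 * w := by ring

theorem Nud_X {t r q M c : ℝ} (ht : 7 ≤ t) (hr0 : 0 ≤ r) (hr : r ≤ t ^ 100 / 8)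
    (hq0 : 0 ≤ q) (hq : q ≤ t ^ 100 / 8) (hM : t ^ 210 ≤ M) (hc0 : 0 ≤ c)
    (hc : c ≤ 5 * t ^ 2) : 4 * (c ^ 2 * (2 * r ^ 2 + 2 * q * r)) * (1 / M) ≤ (t ^ 5)⁻¹ := by
  have ht1 : 1 ≤ t := by linarith
  have ht0 : 0 < t := by linarith
  have hp : ∀ n : ℕ, 0 < t ^ n := fun n => pow_pos ht0 n
  have hMp : 0 < M := lt_of_lt_of_le (hp _) hM
  have h1 : c ^ 2 ≤ 25 * t ^ 4 := by
    calc c ^ 2 ≤ (5 * t ^ 2) ^ 2 := pow_le_pow_left₀ hc0 hc 2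
      _ = 25 * t ^ 4 := by ring
  have h2 : r ^ 2 ≤ (t ^ 100 / 8) ^ 2 := pow_le_pow_left₀ hr0 hr 2
  have h3 : q * r ≤ (t ^ 100 / 8) * (t ^ 100 / 8) := mul_le_mul hq hr hr0 (by positivity)
  have h4 : 2 * r ^ 2 + 2 * q * r ≤ t ^ 200 / 16 := by
    have e1 : (t ^ 100 / 8) ^ 2 = t ^ 200 / 64 := by ring
    have e2 : (t ^ 100 / 8) * (t ^ 100 / 8) = t ^ 200 / 64 := by ring
    rw [e1] at h2
    rw [e2] at h3
    have e3 : 2 * q * r = 2 * (q * r) := by ring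
    rw [e3]
    linarith
  have h5 : 1 / M ≤ (t ^ 210)⁻¹ := by
    rw [one_div]
    exact inv_anti₀ (hp _) hM
  have h6 : c ^ 2 * (2 * r ^ 2 + 2 * q * r) ≤ (25 * t ^ 4) * (t ^ 200 / 16) :=
    mul_le_mul h1 h4 (by positivity) (by positivity)
  calc 4 * (c ^ 2 * (2 * r ^ 2 + 2 * q * r)) * (1 / M)
      ≤ 4 * ((25 * t ^ 4) * (t ^ 200 / 16)) * (t ^ 210)⁻¹ :=
        mul_le_mul (mul_le_mul_of_nonneg_left h6 (by norm_num)) h5 (by positivity)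
          (by positivity)
    _ = 25 / 4 * (t ^ 204 * (t ^ 210)⁻¹) := by
        generalize (t ^ 210)⁻¹ = y
        ring
    _ ≤ 25 / 4 * (t ^ 6)⁻¹ :=
        mul_le_mul_of_nonneg_left (Nud_pw ht1 (by norm_num)) (by norm_num)
    _ ≤ t * (t ^ 6)⁻¹ := mul_le_mul_of_nonneg_right (by linarith) (inv_pos.2 (hp _)).le
    _ = t ^ 1 * (t ^ 6)⁻¹ := by rw [pow_one]
    _ ≤ (t ^ 5)⁻¹ := Nud_pw ht1 (by norm_num)

theorem Nud_A2 {t r q X : ℝ} (ht : 1 ≤ t) (hr0 : 0 ≤ r) (hr : r ≤ t ^ 100)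
    (hq : q ≤ t ^ 100) (hX0 : 0 ≤ X) (hX : X ≤ (t ^ 5)⁻¹) :
    q * r ^ 4 * X ^ (2200 + 1) ≤ (t ^ 9092)⁻¹ := by
  have hp : ∀ n : ℕ, 0 < t ^ n := fun n => pow_pos (by linarith) n
  have hX2 : X ^ (2200 + 1) ≤ (t ^ 11005)⁻¹ := by
    calc X ^ (2200 + 1) ≤ ((t ^ 5)⁻¹) ^ (2200 + 1) := pow_le_pow_left₀ hX0 hX _
      _ = (t ^ 11005)⁻¹ := by rw [inv_pow, ← pow_mul]
  have hqr : q * r ^ 4 ≤ t ^ 500 := by
    calc q * r ^ 4 ≤ t ^ 100 * (t ^ 100) ^ 4 :=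
          mul_le_mul hq (pow_le_pow_left₀ hr0 hr 4) (by positivity) (hp _).le
      _ = t ^ 500 := by rw [← pow_mul, ← pow_add]
  calc q * r ^ 4 * X ^ (2200 + 1)
      ≤ t ^ 500 * (t ^ 11005)⁻¹ := mul_le_mul hqr hX2 (pow_nonneg hX0 _) (hp _).le
    _ ≤ (t ^ 9092)⁻¹ := Nud_pw ht (by norm_num)

theorem Nud_H {t : ℝ} (ht : 7 ≤ t) : (t ^ 100 + 1) ^ (2 * 45) ≤ t ^ 9090 := by
  have ht1 : 1 ≤ t := by linarith
  have h0 : 0 ≤ t ^ 100 := pow_nonneg (by linarith) _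
  have h1 : t ^ 100 + 1 ≤ t ^ 101 := by
    have h2 : 1 ≤ t ^ 100 := one_le_pow₀ ht1
    have h3 : t ^ 101 = t * t ^ 100 := pow_succ' t 100
    have h4 : 2 * t ^ 100 ≤ t * t ^ 100 := mul_le_mul_of_nonneg_right (by linarith) h0
    rw [h3]
    generalize t ^ 100 = y at h2 h4 ⊢
    linarith
  calc (t ^ 100 + 1) ^ (2 * 45) ≤ (t ^ 101) ^ (2 * 45) :=
        pow_le_pow_left₀ (add_nonneg h0 zero_le_one) h1 _
    _ = t ^ 9090 := by rw [← pow_mul]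

theorem Nud_fin {t : ℝ} (ht : 7 ≤ t) : 12 * (t ^ 9092)⁻¹ * t ^ 9090 ≤ 1 := by
  have ht1 : 1 ≤ t := by linarith
  calc 12 * (t ^ 9092)⁻¹ * t ^ 9090 = 12 * (t ^ 9090 * (t ^ 9092)⁻¹) := by
        rw [mul_assoc, mul_comm ((t ^ 9092)⁻¹)]
    _ ≤ 12 * (t ^ 2)⁻¹ :=
        mul_le_mul_of_nonneg_left (Nud_pw ht1 (by norm_num)) (by norm_num)
    _ ≤ 1 := by
        rw [← div_eq_mul_inv, div_le_one (by positivity)]
        nlinarith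

theorem Nud_pack {A B C Y w z : ℝ} (hA : A ≤ w) (hB : B ≤ w) (hC : C ≤ w) (hY0 : 0 ≤ Y)
    (hY : Y ≤ z) (hw : 0 ≤ w) (hf : 12 * w * z ≤ 1) : 4 * (A + B + C) * Y ≤ 1 :=
  le_trans (mul_le_mul (by linarith) hY hY0 (mul_nonneg (by norm_num) hw)) hf

/-- The local lemma inequality in terms of `t`. -/
theorem Nud_ll {t r q m D M c E : ℝ} (ht : 7 ≤ t) (hr0 : 0 ≤ r) (hr : r ≤ t ^ 100 / 8)
    (hq0 : 0 ≤ q) (hq : q ≤ t ^ 100 / 8) (hm0 : 0 ≤ m) (hm : m ≤ t ^ 302) (hD0 : 0 ≤ D)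
    (hD : D ≤ t ^ 92) (hM : t ^ 210 ≤ M) (hc0 : 0 ≤ c) (hc : c ≤ 5 * t ^ 2) (hE0 : 0 ≤ E)
    (hE : E ≤ (t ^ 20000)⁻¹) :
    4 * (q * ((14 + 4 * m + 12 * D ^ 2) * E) +
      q * r ^ 4 * (4 * (c ^ 2 * (2 * r ^ 2 + 2 * q * r)) * (1 / M)) ^ (2200 + 1) +
      q * E) * (t ^ 100 + 1) ^ (2 * 45) ≤ 1 := by
  have ht1 : 1 ≤ t := by linarith
  have ht0 : 0 < t := by linarith
  have hp : ∀ n : ℕ, 0 < t ^ n := fun n => pow_pos ht0 n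
  have hi : ∀ n : ℕ, 0 ≤ (t ^ n)⁻¹ := fun n => (inv_pos.2 (hp n)).le
  have h1 := hp 100
  have hq' : q ≤ t ^ 100 := by linarith
  have hr' : r ≤ t ^ 100 := by linarith
  have hM0 : 0 < M := lt_of_lt_of_le (hp _) hM
  have hX := Nud_X ht hr0 hr hq0 hq hM hc0 hc
  have hX0 : 0 ≤ 4 * (c ^ 2 * (2 * r ^ 2 + 2 * q * r)) * (1 / M) := by positivity
  have hA1 := (Nud_A1 ht hq hm0 hm hD0 hD hE0 hE (hi _)).trans
    (Nud_pw ht1 (a := 403) (b := 9092) (n := 20000) (by norm_num))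
  have hA3 : q * E ≤ (t ^ 9092)⁻¹ := (mul_le_mul hq' hE hE0 (hp 100).le).trans
    (Nud_pw ht1 (by norm_num))
  have hx0 : 0 ≤ (t ^ 100 + 1) ^ (2 * 45) := pow_nonneg (by linarith) _
  exact Nud_pack hA1 (Nud_A2 ht1 hr0 hr' hq' hX0 hX) hA3 hx0 (Nud_H ht) (hi _) (Nud_fin ht)


theorem nud : ∃ x0 : ℝ, 1 ≤ x0 ∧ ∀ x r q pb m D M B b k c : ℝ, x0 ≤ x →
    NuB x r q pb m D M B b k c →
    2 * (3 + 2 * x ^ (1 / 50 : ℝ)) ≤ x ^ (3 / 5 : ℝ) ∧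
    136 * (3 + 2 * x ^ (1 / 50 : ℝ)) ≤ x ^ (3 / 5 : ℝ) ∧
    x ^ (3 / 5 : ℝ) ≤ x ^ (61 / 100 : ℝ) / 4 ∧
    x ^ (1 / 50 : ℝ) + 4 + 2 * x ^ (1 / 50 : ℝ) ≤ c ∧
    4 * (q * ((14 + 4 * m + 12 * D ^ 2) * Real.exp (-(x ^ (1 / 50 : ℝ)))) +
      q * r ^ 4 * (4 * (c ^ 2 * (2 * r ^ 2 + 2 * q * r)) * (1 / M)) ^ (2200 + 1) +
      q * Real.exp (-(x ^ (1 / 50 : ℝ)))) * (x + 1) ^ (2 * 45) ≤ 1 ∧
    (3 * (6 * c ^ 2 * r ^ 2 / B) + 2 * x ^ (1 / 50 : ℝ)) * (2 / D) ≤ 1 / 2 := by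
  obtain ⟨s0, hs0⟩ := Nud_exp
  obtain ⟨T, hT⟩ : ∃ T : ℝ, T = max 7 s0 := ⟨_, rfl⟩
  have hT7 : 7 ≤ T := by
    rw [hT]
    exact le_max_left _ _
  have hTs : s0 ≤ T := by
    rw [hT]
    exact le_max_right _ _
  refine ⟨T ^ 100, one_le_pow₀ (by linarith), ?_⟩
  intro x r q pb m D M B b k c hx h
  have hT0 : 0 ≤ T := by linarith
  have hx0 : 0 ≤ x := le_trans (pow_nonneg hT0 _) hx
  obtain ⟨t, ht⟩ : ∃ t : ℝ, t = x ^ (1 / 100 : ℝ) := ⟨_, rfl⟩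
  have hrp : ∀ (p : ℝ) (k : ℕ), p = (k : ℝ) / 100 → x ^ p = t ^ k := by
    intro p k hp
    rw [ht, Nud_rp hx0, hp]
  have htT : T ≤ t := by
    have h1 : T = (T ^ 100) ^ (1 / 100 : ℝ) := by
      rw [← Real.rpow_natCast, ← Real.rpow_mul hT0]
      norm_num
    rw [ht, h1]
    exact Real.rpow_le_rpow (pow_nonneg hT0 _) hx (by norm_num)
  have hxt : x = t ^ 100 := by
    rw [← hrp 1 100 (by norm_num), Real.rpow_one]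
  have ht7 : 7 ≤ t := le_trans hT7 htT
  have ht1 : 1 ≤ t := by linarith
  have ht0 : 0 < t := by linarith
  have hp : ∀ n : ℕ, 0 < t ^ n := fun n => pow_pos ht0 n
  have r1 := h.r1
  have r2 := h.r2
  have q1 := h.q1
  have q2 := h.q2
  have m1 := h.m1
  have m2 := h.m2
  have M1 := h.M1
  have B1 := h.B1
  have D1 := h.D1
  have D2 := h.D2
  have c1 := h.c1
  have c2 := h.c2
  rw [hrp (59 / 20) 295 (by norm_num)] at m1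
  rw [hrp (151 / 50) 302 (by norm_num)] at m2
  rw [hrp (21 / 10) 210 (by norm_num)] at M1 B1
  rw [hrp (21 / 25) 84 (by norm_num)] at D1
  rw [hrp (23 / 25) 92 (by norm_num)] at D2
  rw [hrp (1 / 50) 2 (by norm_num)] at c1 c2
  rw [hrp (1 / 50) 2 (by norm_num), hrp (3 / 5) 60 (by norm_num), hrp (61 / 100) 61 (by norm_num)]
  rw [hxt] at r1 r2 q1 q2 ⊢
  have p100 := hp 100
  have hr0 : 0 ≤ r := by linarith
  have hq0 : 0 ≤ q := by linarith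
  have hc0 : 0 ≤ c := by
    have := hp 2
    linarith
  have hm0 : 0 ≤ m := (hp 295).le.trans m1
  have hD0 : 0 < D := lt_of_lt_of_le (hp 84) D1
  have hB0 : 0 < B := lt_of_lt_of_le (hp 210) B1
  have hsq : 49 ≤ t ^ 2 := by nlinarith
  have h6 : 136 * (3 + 2 * t ^ 2) ≤ t ^ 6 := by
    have e : t ^ 6 = t ^ 2 * (t ^ 2 * t ^ 2) := by ring
    have h7 : 49 * 49 ≤ t ^ 2 * t ^ 2 := mul_le_mul hsq hsq (by norm_num) (by positivity)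
    have h8 : t ^ 2 * (49 * 49) ≤ t ^ 2 * (t ^ 2 * t ^ 2) :=
      mul_le_mul_of_nonneg_left h7 (by positivity)
    rw [e]
    linarith
  have hE : Real.exp (-(t ^ 2)) ≤ (t ^ 20000)⁻¹ := by
    have h1 := hs0 (t ^ 2) (by nlinarith)
    rw [← pow_mul] at h1
    rw [← one_div, le_div_iff₀ (hp _), mul_comm]
    exact h1
  refine ⟨?_, ?_, ?_, ?_, ?_, ?_⟩
  · have h1 : t ^ 6 ≤ t ^ 60 := pow_le_pow_right₀ ht1 (by norm_num)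
    linarith
  · have h1 : t ^ 6 ≤ t ^ 60 := pow_le_pow_right₀ ht1 (by norm_num)
    linarith
  · have h1 : t ^ 61 = t * t ^ 60 := pow_succ' t 60
    have h2 : 4 * t ^ 60 ≤ t * t ^ 60 := mul_le_mul_of_nonneg_right (by linarith) (hp _).le
    rw [h1]
    generalize t ^ 60 = y at h2 ⊢
    linarith
  · linarith
  · exact Nud_ll ht7 hr0 r2 hq0 q2 hm0 m2 hD0.le D2 M1 hc0 c2 (Real.exp_pos _).le hE
  · have h1 : 6 * c ^ 2 * r ^ 2 / B ≤ 1 := by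
      rw [div_le_one hB0]
      have h2 : c ^ 2 ≤ 25 * t ^ 4 := by
        calc c ^ 2 ≤ (5 * t ^ 2) ^ 2 := pow_le_pow_left₀ hc0 c2 2
          _ = 25 * t ^ 4 := by ring
      have h3 : r ^ 2 ≤ t ^ 200 / 64 := by
        calc r ^ 2 ≤ (t ^ 100 / 8) ^ 2 := pow_le_pow_left₀ hr0 r2 2
          _ = t ^ 200 / 64 := by ring
      calc 6 * c ^ 2 * r ^ 2 ≤ 6 * (25 * t ^ 4) * (t ^ 200 / 64) :=
            mul_le_mul (by linarith) h3 (by positivity) (by positivity)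
        _ = 150 / 64 * t ^ 204 := by ring
        _ ≤ t * t ^ 204 := mul_le_mul_of_nonneg_right (by linarith) (hp _).le
        _ = t ^ 205 := by ring
        _ ≤ t ^ 210 := pow_le_pow_right₀ ht1 (by norm_num)
        _ ≤ B := B1
    have h4 : 2 / D ≤ 2 / t ^ 84 := div_le_div_of_nonneg_left (by norm_num) (hp 84) D1
    have h5 : 0 ≤ 6 * c ^ 2 * r ^ 2 / B := by positivity
    calc (3 * (6 * c ^ 2 * r ^ 2 / B) + 2 * t ^ 2) * (2 / D)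
        ≤ (3 + 2 * t ^ 2) * (2 / t ^ 84) :=
          mul_le_mul (by linarith) h4 (by positivity) (by positivity)
      _ ≤ 1 / 2 := by
          rw [mul_div_assoc', div_le_div_iff₀ (hp 84) (by norm_num)]
          have h9 : t ^ 6 ≤ t ^ 84 := pow_le_pow_right₀ ht1 (by norm_num)
          generalize t ^ 84 = y at h9 ⊢
          generalize t ^ 6 = z at h6 h9
          generalize t ^ 2 = u at h6 hsq ⊢
          linarith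

end Pool.Agent.H65.GI
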